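import Mathlib

/-!
Maximal rainbow matchings, run one after the other with the colours used so far forbidden.
-/

namespace Pool.Agent.Lib.MP_325d88_nt

open Finset

/-- `M` is a partial matching between `U` and `V` along `E`, the colour sets of its pairs are
pairwise disjoint and avoid `used`. -/
structure VM (U V : Finset ℕ) (E : ℕ × ℕ → Prop) (cols : ℕ × ℕ → Finset ℕ) (used : Finset ℕ)
    (M : Finset (ℕ × ℕ)) : Prop where
  sub : M ⊆ U ×ˢ V
  edge : ∀ x ∈ M, E x
  inj1 : Set.InjOn Prod.fst (M : Set (ℕ × ℕ))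
  inj2 : Set.InjOn Prod.snd (M : Set (ℕ × ℕ))
  dis : ∀ x ∈ M, ∀ y ∈ M, x ≠ y → Disjoint (cols x) (cols y)
  avoid : ∀ x ∈ M, Disjoint (cols x) used

theorem exists_maximal (U V : Finset ℕ) (E : ℕ × ℕ → Prop) (cols : ℕ × ℕ → Finset ℕ)
    (used : Finset ℕ) :
    ∃ M, VM U V E cols used M ∧ ∀ u ∈ U \ M.image Prod.fst, ∀ v ∈ V \ M.image Prod.snd,
      E (u, v) → ¬ Disjoint (cols (u, v)) (used ∪ M.biUnion cols) := by
  classical
  obtain ⟨M, hM, hmax⟩ := Finset.exists_max_image
    ((U ×ˢ V).powerset.filter (fun M => VM U V E cols used M)) Finset.card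
    ⟨∅, by
      rw [Finset.mem_filter]
      refine ⟨Finset.empty_mem_powerset _, ⟨Finset.empty_subset _, ?_, ?_, ?_, ?_, ?_⟩⟩
      · intro x hx
        exact absurd hx (Finset.notMem_empty x)
      · simp
      · simp
      · intro x hx
        exact absurd hx (Finset.notMem_empty x)
      · intro x hx
        exact absurd hx (Finset.notMem_empty x)⟩
  have hV : VM U V E cols used M := (Finset.mem_filter.mp hM).2
  refine ⟨M, hV, fun u hu v hv hE hdis => ?_⟩
  obtain ⟨huU, hu1⟩ := Finset.mem_sdiff.mp hu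
  obtain ⟨hvV, hv1⟩ := Finset.mem_sdiff.mp hv
  have hnot : (u, v) ∉ M := fun h => hu1 (Finset.mem_image_of_mem Prod.fst h)
  have hu2 : ∀ x ∈ M, x.1 ≠ u := fun x hx h => hu1 (Finset.mem_image.mpr ⟨x, hx, h⟩)
  have hv2 : ∀ x ∈ M, x.2 ≠ v := fun x hx h => hv1 (Finset.mem_image.mpr ⟨x, hx, h⟩)
  rw [Finset.disjoint_union_right] at hdis
  have hd2 : ∀ x ∈ M, Disjoint (cols (u, v)) (cols x) := by
    intro x hx
    exact (Finset.disjoint_biUnion_right _ _ _).mp hdis.2 x hx
  have hnew : VM U V E cols used (insert (u, v) M) := by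
    refine ⟨?_, ?_, ?_, ?_, ?_, ?_⟩
    · intro x hx
      rcases Finset.mem_insert.mp hx with rfl | h
      · exact Finset.mem_product.mpr ⟨huU, hvV⟩
      · exact hV.sub h
    · intro x hx
      rcases Finset.mem_insert.mp hx with rfl | h
      · exact hE
      · exact hV.edge x h
    · intro x hx y hy hxy
      rcases Finset.mem_insert.mp (Finset.mem_coe.mp hx) with rfl | h
      · rcases Finset.mem_insert.mp (Finset.mem_coe.mp hy) with rfl | h'
        · rfl
        · exact absurd hxy.symm (hu2 y h')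
      · rcases Finset.mem_insert.mp (Finset.mem_coe.mp hy) with rfl | h'
        · exact absurd hxy (hu2 x h)
        · exact hV.inj1 h h' hxy
    · intro x hx y hy hxy
      rcases Finset.mem_insert.mp (Finset.mem_coe.mp hx) with rfl | h
      · rcases Finset.mem_insert.mp (Finset.mem_coe.mp hy) with rfl | h'
        · rfl
        · exact absurd hxy.symm (hv2 y h')
      · rcases Finset.mem_insert.mp (Finset.mem_coe.mp hy) with rfl | h'
        · exact absurd hxy (hv2 x h)
        · exact hV.inj2 h h' hxy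
    · intro x hx y hy hxy
      rcases Finset.mem_insert.mp hx with rfl | h
      · rcases Finset.mem_insert.mp hy with rfl | h'
        · exact absurd rfl hxy
        · exact hd2 y h'
      · rcases Finset.mem_insert.mp hy with rfl | h'
        · exact (hd2 x h).symm
        · exact hV.dis x h y h' hxy
    · intro x hx
      rcases Finset.mem_insert.mp hx with rfl | h
      · exact hdis.1
      · exact hV.avoid x h
  have hmem : insert (u, v) M ∈ (U ×ˢ V).powerset.filter (fun M => VM U V E cols used M) :=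
    Finset.mem_filter.mpr ⟨Finset.mem_powerset.mpr hnew.sub, hnew⟩
  have := hmax _ hmem
  rw [Finset.card_insert_of_notMem hnot] at this
  omega

theorem VM.card_image_fst {U V : Finset ℕ} {E : ℕ × ℕ → Prop} {cols : ℕ × ℕ → Finset ℕ}
    {used : Finset ℕ} {M : Finset (ℕ × ℕ)} (h : VM U V E cols used M) :
    (M.image Prod.fst).card = M.card := Finset.card_image_of_injOn h.inj1

theorem VM.card_image_snd {U V : Finset ℕ} {E : ℕ × ℕ → Prop} {cols : ℕ × ℕ → Finset ℕ}
    {used : Finset ℕ} {M : Finset (ℕ × ℕ)} (h : VM U V E cols used M) :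
    (M.image Prod.snd).card = M.card := Finset.card_image_of_injOn h.inj2

theorem VM.fst_sub {U V : Finset ℕ} {E : ℕ × ℕ → Prop} {cols : ℕ × ℕ → Finset ℕ}
    {used : Finset ℕ} {M : Finset (ℕ × ℕ)} (h : VM U V E cols used M) :
    M.image Prod.fst ⊆ U := by
  intro u hu
  obtain ⟨x, hx, rfl⟩ := Finset.mem_image.mp hu
  exact (Finset.mem_product.mp (h.sub hx)).1

theorem VM.snd_sub {U V : Finset ℕ} {E : ℕ × ℕ → Prop} {cols : ℕ × ℕ → Finset ℕ}
    {used : Finset ℕ} {M : Finset (ℕ × ℕ)} (h : VM U V E cols used M) :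
    M.image Prod.snd ⊆ V := by
  intro u hu
  obtain ⟨x, hx, rfl⟩ := Finset.mem_image.mp hu
  exact (Finset.mem_product.mp (h.sub hx)).2

theorem VM.card_le {U V : Finset ℕ} {E : ℕ × ℕ → Prop} {cols : ℕ × ℕ → Finset ℕ}
    {used : Finset ℕ} {M : Finset (ℕ × ℕ)} (h : VM U V E cols used M) : M.card ≤ U.card := by
  rw [← h.card_image_fst]
  exact Finset.card_le_card h.fst_sub

/-- A family with one colour per pair. -/
theorem core_family (U V : Finset ℕ) (n : ℕ) (hU : U.card = n) (hV : V.card = n)
    (col : ℕ × ℕ → ℕ) (D : ℝ)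
    (hD : ∀ c, c.Prime → (((U ×ˢ V).filter (fun x => col x = c)).card : ℝ) ≤ D)
    (hE : ∀ U' ⊆ U, ∀ V' ⊆ V, n ≤ 24 * U'.card → n ≤ 24 * V'.card →
      40 * n * D < (((U' ×ˢ V').filter (fun x => (col x).Prime)).card : ℝ))
    (used : Finset ℕ) (hused : used.card ≤ 36 * n) :
    ∃ M, VM U V (fun x => (col x).Prime) (fun x => {col x}) used M ∧ 23 * n ≤ 24 * M.card := by
  classical
  obtain ⟨M, hM, hmax⟩ := exists_maximal U V (fun x => (col x).Prime) (fun x => {col x}) used
  refine ⟨M, hM, ?_⟩
  by_contra hlt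
  rw [not_le] at hlt
  set U' := U \ M.image Prod.fst with hU'
  set V' := V \ M.image Prod.snd with hV'
  have hcU : U'.card = n - M.card := by
    rw [hU', Finset.card_sdiff_of_subset hM.fst_sub, hM.card_image_fst, hU]
  have hcV : V'.card = n - M.card := by
    rw [hV', Finset.card_sdiff_of_subset hM.snd_sub, hM.card_image_snd, hV]
  have hMn : M.card ≤ n := hU ▸ hM.card_le
  have hlow := hE U' Finset.sdiff_subset V' Finset.sdiff_subset (by omega) (by omega)
  have hD0 : 0 ≤ D := (Nat.cast_nonneg _).trans (hD 2 Nat.prime_two)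
  set X := (used ∪ M.biUnion (fun x => {col x})).filter Nat.Prime with hX
  have hsub : (U' ×ˢ V').filter (fun x => (col x).Prime) ⊆
      X.biUnion (fun c => (U ×ˢ V).filter (fun x => col x = c)) := by
    intro x hx
    obtain ⟨hx1, hx2⟩ := Finset.mem_filter.mp hx
    obtain ⟨hxu, hxv⟩ := Finset.mem_product.mp hx1
    have h1 := hmax x.1 hxu x.2 hxv hx2
    rw [Finset.disjoint_singleton_left, not_not] at h1
    refine Finset.mem_biUnion.mpr ⟨col x, Finset.mem_filter.mpr ⟨h1, hx2⟩, ?_⟩
    exact Finset.mem_filter.mpr ⟨Finset.mem_product.mpr ⟨(Finset.mem_sdiff.mp hxu).1,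
      (Finset.mem_sdiff.mp hxv).1⟩, rfl⟩
  have hXc : X.card ≤ 40 * n := by
    have h1 : X.card ≤ (used ∪ M.biUnion (fun x => {col x})).card :=
      Finset.card_le_card (Finset.filter_subset _ _)
    have h2 := Finset.card_union_le used (M.biUnion (fun x => ({col x} : Finset ℕ)))
    have h3 : (M.biUnion (fun x => ({col x} : Finset ℕ))).card ≤ M.card * 1 :=
      Finset.card_biUnion_le_card_mul _ _ _ (fun x _ => by simp)
    omega
  have h4 : (((U' ×ˢ V').filter (fun x => (col x).Prime)).card : ℝ) ≤ 40 * n * D := by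
    calc (((U' ×ˢ V').filter (fun x => (col x).Prime)).card : ℝ)
        ≤ ((X.biUnion (fun c => (U ×ˢ V).filter (fun x => col x = c))).card : ℝ) := by
          exact_mod_cast Finset.card_le_card hsub
      _ ≤ ((∑ c ∈ X, ((U ×ˢ V).filter (fun x => col x = c)).card : ℕ) : ℝ) := by
          exact_mod_cast Finset.card_biUnion_le
      _ = ∑ c ∈ X, (((U ×ˢ V).filter (fun x => col x = c)).card : ℝ) := by push_cast; rfl
      _ ≤ ∑ _c ∈ X, D := Finset.sum_le_sum fun c hc => hD c (Finset.mem_filter.mp hc).2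
      _ = X.card * D := by rw [Finset.sum_const, nsmul_eq_mul]
      _ ≤ 40 * n * D := by
          refine mul_le_mul_of_nonneg_right ?_ hD0
          exact_mod_cast hXc
  exact absurd hlow (not_lt.mpr h4)

/-- A family with the two colours `x.2` and `col x` per pair, the second coordinates being taken
from a large set `A`. -/
theorem free_family (U A : Finset ℕ) (n : ℕ) (hU : U.card = n)
    (col : ℕ × ℕ → ℕ) (D : ℝ)
    (hD : ∀ c, c.Prime → (((U ×ˢ A).filter (fun x => col x = c)).card : ℝ) ≤ D)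
    (hE : ∀ U' ⊆ U, ∀ B ⊆ A, n ≤ 24 * U'.card → (A \ B).card ≤ 40 * n →
      40 * n * D < (((U' ×ˢ B).filter (fun x => (col x).Prime)).card : ℝ))
    (used : Finset ℕ) (hused : used.card ≤ 36 * n) :
    ∃ M, VM U A (fun x => (col x).Prime) (fun x => {x.2, col x}) used M ∧
      23 * n ≤ 24 * M.card := by
  classical
  obtain ⟨M, hM, hmax⟩ := exists_maximal U A (fun x => (col x).Prime)
    (fun x => {x.2, col x}) used
  refine ⟨M, hM, ?_⟩
  by_contra hlt
  rw [not_le] at hlt
  set Y := used ∪ M.biUnion (fun x => ({x.2, col x} : Finset ℕ)) with hY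
  set U' := U \ M.image Prod.fst with hU'
  set B := A \ Y with hB
  have hcU : U'.card = n - M.card := by
    rw [hU', Finset.card_sdiff_of_subset hM.fst_sub, hM.card_image_fst, hU]
  have hMn : M.card ≤ n := hU ▸ hM.card_le
  have hYc : Y.card ≤ 40 * n := by
    have h2 := Finset.card_union_le used (M.biUnion (fun x => ({x.2, col x} : Finset ℕ)))
    have h3 : (M.biUnion (fun x => ({x.2, col x} : Finset ℕ))).card ≤ M.card * 2 :=
      Finset.card_biUnion_le_card_mul _ _ _ (fun x _ => Finset.card_le_two)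
    rw [hY]
    omega
  have hlow := hE U' Finset.sdiff_subset B Finset.sdiff_subset (by omega) (by
    refine (Finset.card_le_card ?_).trans hYc
    intro x hx
    obtain ⟨h1, h2⟩ := Finset.mem_sdiff.mp hx
    by_contra h3
    exact h2 (Finset.mem_sdiff.mpr ⟨h1, h3⟩))
  have hD0 : 0 ≤ D := (Nat.cast_nonneg _).trans (hD 2 Nat.prime_two)
  set X := Y.filter Nat.Prime with hX
  have hsub : (U' ×ˢ B).filter (fun x => (col x).Prime) ⊆
      X.biUnion (fun c => (U ×ˢ A).filter (fun x => col x = c)) := by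
    intro x hx
    obtain ⟨hx1, hx2⟩ := Finset.mem_filter.mp hx
    obtain ⟨hxu, hxv⟩ := Finset.mem_product.mp hx1
    obtain ⟨hxA, hxY⟩ := Finset.mem_sdiff.mp hxv
    have hxs : x.2 ∉ M.image Prod.snd := by
      intro h
      obtain ⟨z, hz, hz2⟩ := Finset.mem_image.mp h
      refine hxY (Finset.mem_union_right _ (Finset.mem_biUnion.mpr ⟨z, hz, ?_⟩))
      rw [← hz2]
      exact Finset.mem_insert_self _ _
    have h1 := hmax x.1 hxu x.2 (Finset.mem_sdiff.mpr ⟨hxA, hxs⟩) hx2
    have h2 : col x ∈ Y := by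
      by_contra h3
      apply h1
      rw [Finset.disjoint_left]
      intro z hz
      rcases Finset.mem_insert.mp hz with rfl | hz
      · exact hxY
      · rw [Finset.mem_singleton] at hz
        rw [hz]
        exact h3
    refine Finset.mem_biUnion.mpr ⟨col x, Finset.mem_filter.mpr ⟨h2, hx2⟩, ?_⟩
    exact Finset.mem_filter.mpr ⟨Finset.mem_product.mpr ⟨(Finset.mem_sdiff.mp hxu).1, hxA⟩, rfl⟩
  have hXc : X.card ≤ 40 * n := (Finset.card_le_card (Finset.filter_subset _ _)).trans hYc
  have h4 : (((U' ×ˢ B).filter (fun x => (col x).Prime)).card : ℝ) ≤ 40 * n * D := by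
    calc (((U' ×ˢ B).filter (fun x => (col x).Prime)).card : ℝ)
        ≤ ((X.biUnion (fun c => (U ×ˢ A).filter (fun x => col x = c))).card : ℝ) := by
          exact_mod_cast Finset.card_le_card hsub
      _ ≤ ((∑ c ∈ X, ((U ×ˢ A).filter (fun x => col x = c)).card : ℕ) : ℝ) := by
          exact_mod_cast Finset.card_biUnion_le
      _ = ∑ c ∈ X, (((U ×ˢ A).filter (fun x => col x = c)).card : ℝ) := by push_cast; rfl
      _ ≤ ∑ _c ∈ X, D := Finset.sum_le_sum fun c hc => hD c (Finset.mem_filter.mp hc).2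
      _ = X.card * D := by rw [Finset.sum_const, nsmul_eq_mul]
      _ ≤ 40 * n * D := by
          refine mul_le_mul_of_nonneg_right ?_ hD0
          exact_mod_cast hXc
  exact absurd hlow (not_lt.mpr h4)

theorem VM.mono {U V : Finset ℕ} {E : ℕ × ℕ → Prop} {cols : ℕ × ℕ → Finset ℕ}
    {used : Finset ℕ} {M : Finset (ℕ × ℕ)} (h : VM U V E cols used M) : VM U V E cols ∅ M :=
  ⟨h.sub, h.edge, h.inj1, h.inj2, h.dis, fun _ _ => Finset.disjoint_empty_right _⟩

/-- Run all families one after the other. -/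
theorem run_families {K : Type*} [DecidableEq K] (U V : K → Finset ℕ) (E : K → ℕ × ℕ → Prop)
    (cols : K → ℕ × ℕ → Finset ℕ) (wt : K → ℕ) (n b : ℕ) (F : Finset K)
    (hstep : ∀ f ∈ F, ∀ used : Finset ℕ, used.card ≤ b →
      ∃ M, VM (U f) (V f) (E f) (cols f) used M ∧ 23 * n ≤ 24 * M.card)
    (hcols : ∀ f ∈ F, ∀ x, (cols f x).card ≤ wt f) (hUn : ∀ f ∈ F, (U f).card = n)
    (hb : n * ∑ f ∈ F, wt f ≤ b) :
    ∃ M : K → Finset (ℕ × ℕ),
      (∀ f ∈ F, VM (U f) (V f) (E f) (cols f) ∅ (M f) ∧ 23 * n ≤ 24 * (M f).card) ∧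
      ∀ f ∈ F, ∀ g ∈ F, f ≠ g → ∀ x ∈ M f, ∀ y ∈ M g, Disjoint (cols f x) (cols g y) := by
  classical
  induction F using Finset.induction_on with
  | empty => exact ⟨fun _ => ∅, by simp, by simp⟩
  | insert f F hf ih =>
    rw [Finset.sum_insert hf, Nat.mul_add] at hb
    obtain ⟨M', hM1, hM2⟩ := ih
      (fun g hg => hstep g (Finset.mem_insert_of_mem hg))
      (fun g hg => hcols g (Finset.mem_insert_of_mem hg))
      (fun g hg => hUn g (Finset.mem_insert_of_mem hg)) (by omega)
    have hcard : (F.biUnion (fun g => (M' g).biUnion (cols g))).card ≤ b := by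
      calc (F.biUnion (fun g => (M' g).biUnion (cols g))).card
          ≤ ∑ g ∈ F, ((M' g).biUnion (cols g)).card := Finset.card_biUnion_le
        _ ≤ ∑ g ∈ F, n * wt g := by
            refine Finset.sum_le_sum fun g hg => ?_
            refine (Finset.card_biUnion_le_card_mul _ _ _ (fun x _ =>
              hcols g (Finset.mem_insert_of_mem hg) x)).trans ?_
            refine Nat.mul_le_mul_right _ ?_
            rw [← hUn g (Finset.mem_insert_of_mem hg)]
            exact (hM1 g hg).1.card_le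
        _ = n * ∑ g ∈ F, wt g := by rw [Finset.mul_sum]
        _ ≤ b := by omega
    obtain ⟨M, hM, hMc⟩ := hstep f (Finset.mem_insert_self f F) _ hcard
    have hne : ∀ g ∈ F, g ≠ f := fun g hg h => hf (h ▸ hg)
    have hcross : ∀ g ∈ F, ∀ x ∈ M, ∀ y ∈ M' g, Disjoint (cols f x) (cols g y) := by
      intro g hg x hx y hy
      refine Finset.disjoint_of_subset_right ?_ (hM.avoid x hx)
      intro z hz
      exact Finset.mem_biUnion.mpr ⟨g, hg, Finset.mem_biUnion.mpr ⟨y, hy, hz⟩⟩
    refine ⟨Function.update M' f M, ?_, ?_⟩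
    · intro g hg
      rcases Finset.mem_insert.mp hg with rfl | hg
      · rw [Function.update_self]
        exact ⟨hM.mono, hMc⟩
      · rw [Function.update_of_ne (hne g hg)]
        exact hM1 g hg
    · intro g hg0 g' hg0' hgg' x hx y hy
      rcases Finset.mem_insert.mp hg0 with h1 | hg
      · rcases Finset.mem_insert.mp hg0' with h2 | hg'
        · exact absurd (h1.trans h2.symm) hgg'
        · rw [h1, Function.update_self] at hx
          rw [Function.update_of_ne (hne g' hg')] at hy
          rw [h1]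
          exact hcross g' hg' x hx y hy
      · rcases Finset.mem_insert.mp hg0' with h2 | hg'
        · rw [h2, Function.update_self] at hy
          rw [Function.update_of_ne (hne g hg)] at hx
          rw [h2]
          exact (hcross g hg y hy x hx).symm
        · rw [Function.update_of_ne (hne g hg)] at hx
          rw [Function.update_of_ne (hne g' hg')] at hy
          exact hM2 g hg g' hg' hgg' x hx y hy

end Pool.Agent.Lib.MP_325d88_nt
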