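import Pool.Agent.Lib.MP_325d88_nt.Cover
import Pool.Agent.Lib.MP_325d88_nt.Match

/-!
Combinatorial assembly: from twenty-four abundant families of pairs of primes to a block of `k`
consecutive integers all of whose smooth parts exceed `L`.
-/

namespace Pool.Agent.Lib.MP_325d88_nt

open Finset

/-- Index type of the families: kind, index of `W`, sign. -/
abbrev Fam := Fin 4 × Fin 3 × Bool

namespace Fam

/-- index of the set `S` used by a family of kind `0` or `1` -/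
def sj : Fam → Fin 2 × Bool
  | (0, i, a) => (if i = 1 then 1 else 0, if i = 2 then !a else a)
  | (_, i, a) => (if i = 1 then 0 else 1, !a)

/-- set of second coordinates -/
def sec (S : Fin 2 → Bool → Finset ℕ) (A : Bool → Finset ℕ) : Fam → Finset ℕ
  | (0, i, a) => S (sj (0, i, a)).1 (sj (0, i, a)).2
  | (1, i, a) => S (sj (1, i, a)).1 (sj (1, i, a)).2
  | (_, _, a) => A a

/-- the (main) colour of a pair -/
def col : Fam → ℕ × ℕ → ℕ
  | (0, i, _), x => if i = 2 then x.1 + 2 * x.2 else 2 * x.2 - x.1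
  | (1, _, _), x => 4 * x.1 - x.2
  | (_, _, _), x => x.2 + 2 * x.1

/-- all colours of a pair -/
def cols : Fam → ℕ × ℕ → Finset ℕ
  | (0, i, a), x => {col (0, i, a) x}
  | (1, i, a), x => {col (1, i, a) x}
  | (κ, i, a), x => {x.2, col (κ, i, a) x}

/-- number of colours -/
def wt : Fam → ℕ
  | (0, _, _) => 1
  | (1, _, _) => 1
  | (_, _, _) => 2

/-- covering prime -/
def cv : Fam → ℕ × ℕ → ℕ
  | (0, i, _), x => if i = 2 then x.2 else 2 * x.2 - x.1
  | (1, i, _), x => if i = 2 then x.2 else 4 * x.1 - x.2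
  | (2, _, _), x => x.1
  | (3, _, _), x => x.2

/-- first token -/
def ta : Fam → ℕ × ℕ → ℕ
  | (0, _, _), x => x.1
  | (1, _, _), x => 4 * x.1
  | (2, _, _), x => x.2
  | (3, _, _), x => 2 * x.1

/-- second token -/
def tb : Fam → ℕ × ℕ → ℕ
  | (0, i, _), x => if i = 2 then x.1 + 2 * x.2 else 2 * x.2
  | (1, i, _), x => if i = 2 then 4 * x.1 - x.2 else x.2
  | (_, _, _), x => x.2 + 2 * x.1

theorem sum_wt : ∑ f ∈ (Finset.univ : Finset Fam), wt f = 36 := by decide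

theorem card_univ : (Finset.univ : Finset Fam).card = 24 := by decide

theorem sj_zero {i i' : Fin 3} {a a' : Bool} (hi : i ≠ 2) (hi' : i' ≠ 2)
    (h : sj (0, i, a) = sj (0, i', a')) : i = i' ∧ a = a' := by
  revert i i' a a'
  decide

theorem sj_one {i i' : Fin 3} {a a' : Bool} (hi : i ≠ 2) (hi' : i' ≠ 2)
    (h : sj (1, i, a) = sj (1, i', a')) : i = i' ∧ a = a' := by
  revert i i' a a'
  decide

theorem sj_two_zero {a a' : Bool} (h : sj (0, 2, a) = sj (0, 2, a')) : a = a' := by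
  revert a a'
  decide

theorem sj_two_one {a a' : Bool} (h : sj (1, 2, a) = sj (1, 2, a')) : a = a' := by
  revert a a'
  decide

theorem sj_two_ne {a a' : Bool} : sj (0, 2, a) ≠ sj (1, 2, a') := by
  revert a a'
  decide

theorem cols_card (f : Fam) (x : ℕ × ℕ) : (cols f x).card ≤ wt f := by
  obtain ⟨κ, i, a⟩ := f
  fin_cases κ
  · exact (Finset.card_singleton _).le
  · exact (Finset.card_singleton _).le
  · exact Finset.card_le_two
  · exact Finset.card_le_two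

theorem col_mem (f : Fam) (x : ℕ × ℕ) : col f x ∈ cols f x := by
  obtain ⟨κ, i, a⟩ := f
  fin_cases κ
  · exact Finset.mem_singleton_self _
  · exact Finset.mem_singleton_self _
  · exact Finset.mem_insert_of_mem (Finset.mem_singleton_self _)
  · exact Finset.mem_insert_of_mem (Finset.mem_singleton_self _)

/-- Data of the construction: numeric ranges of the three kinds of primes. -/
structure Dat (k : ℕ) (W : Fin 3 → Bool → Finset ℕ) (S : Fin 2 → Bool → Finset ℕ)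
    (A : Bool → Finset ℕ) : Prop where
  hWd : ∀ i a i' a', (i, a) ≠ (i', a') → Disjoint (W i a) (W i' a')
  hSd : ∀ j a j' a', (j, a) ≠ (j', a') → Disjoint (S j a) (S j' a')
  hW : ∀ i a, ∀ p ∈ W i a, p.Prime ∧ 2220 * k ≤ 10000 * p ∧ 10000 * p ≤ 2225 * k
  hS : ∀ j a, ∀ p ∈ S j a, p.Prime ∧ 3700 * k ≤ 10000 * p ∧ 10000 * p ≤ 3705 * k
  hA : ∀ a, ∀ p ∈ A a, p.Prime ∧ 5200 * k ≤ 10000 * p ∧ 10000 * p ≤ 5300 * k

variable {k : ℕ} {W : Fin 3 → Bool → Finset ℕ} {S : Fin 2 → Bool → Finset ℕ}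
  {A : Bool → Finset ℕ}

theorem Dat.W_eq (h : Dat k W S A) {i i' : Fin 3} {a a' : Bool} {w : ℕ} (h1 : w ∈ W i a)
    (h2 : w ∈ W i' a') : i = i' ∧ a = a' := by
  by_contra hne
  exact (Finset.disjoint_left.mp (h.hWd i a i' a' (fun he => hne (Prod.mk.inj he)))) h1 h2

theorem Dat.S_eq (h : Dat k W S A) {p q : Fin 2 × Bool} {s : ℕ} (h1 : s ∈ S p.1 p.2)
    (h2 : s ∈ S q.1 q.2) : p = q := by
  by_contra hne
  exact (Finset.disjoint_left.mp (h.hSd p.1 p.2 q.1 q.2 (fun he => hne he))) h1 h2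

/-- A choice of matchings for all the families. -/
structure Mat (k : ℕ) (W : Fin 3 → Bool → Finset ℕ) (S : Fin 2 → Bool → Finset ℕ)
    (A : Bool → Finset ℕ) (M : Fam → Finset (ℕ × ℕ)) : Prop extends Dat k W S A where
  hM : ∀ f : Fam, VM (W f.2.1 f.2.2) (sec S A f) (fun x => (col f x).Prime) (cols f) ∅ (M f)
  hdis : ∀ f g : Fam, f ≠ g → ∀ x ∈ M f, ∀ y ∈ M g, Disjoint (cols f x) (cols g y)

variable {M : Fam → Finset (ℕ × ℕ)}

theorem Mat.color_inj (h : Mat k W S A M) {f g : Fam} {x y : ℕ × ℕ} {z : ℕ} (hx : x ∈ M f)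
    (hy : y ∈ M g) (h1 : z ∈ cols f x) (h2 : z ∈ cols g y) : f = g ∧ x = y := by
  have hfg : f = g := by
    by_contra hne
    exact (Finset.disjoint_left.mp (h.hdis f g hne x hx y hy)) h1 h2
  subst hfg
  refine ⟨rfl, ?_⟩
  by_contra hne
  exact (Finset.disjoint_left.mp ((h.hM f).dis x hx y hy hne)) h1 h2

theorem Mat.fst_mem (h : Mat k W S A M) {f : Fam} {x : ℕ × ℕ} (hx : x ∈ M f) :
    x.1 ∈ W f.2.1 f.2.2 := (Finset.mem_product.mp ((h.hM f).sub hx)).1

theorem Mat.snd_mem (h : Mat k W S A M) {f : Fam} {x : ℕ × ℕ} (hx : x ∈ M f) :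
    x.2 ∈ sec S A f := (Finset.mem_product.mp ((h.hM f).sub hx)).2

theorem Mat.fst_spec (h : Mat k W S A M) {f : Fam} {x : ℕ × ℕ} (hx : x ∈ M f) :
    x.1.Prime ∧ 2220 * k ≤ 10000 * x.1 ∧ 10000 * x.1 ≤ 2225 * k :=
  h.hW _ _ _ (h.fst_mem hx)

theorem Mat.snd_zero (h : Mat k W S A M) {i : Fin 3} {a : Bool} {x : ℕ × ℕ}
    (hx : x ∈ M (0, i, a)) :
    x.2.Prime ∧ 3700 * k ≤ 10000 * x.2 ∧ 10000 * x.2 ≤ 3705 * k :=
  h.hS _ _ _ (h.snd_mem hx)

theorem Mat.snd_one (h : Mat k W S A M) {i : Fin 3} {a : Bool} {x : ℕ × ℕ}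
    (hx : x ∈ M (1, i, a)) :
    x.2.Prime ∧ 3700 * k ≤ 10000 * x.2 ∧ 10000 * x.2 ≤ 3705 * k :=
  h.hS _ _ _ (h.snd_mem hx)

theorem Mat.snd_two (h : Mat k W S A M) {i : Fin 3} {a : Bool} {x : ℕ × ℕ}
    (hx : x ∈ M (2, i, a)) :
    x.2.Prime ∧ 5200 * k ≤ 10000 * x.2 ∧ 10000 * x.2 ≤ 5300 * k :=
  h.hA _ _ (h.snd_mem hx)

theorem Mat.snd_three (h : Mat k W S A M) {i : Fin 3} {a : Bool} {x : ℕ × ℕ}
    (hx : x ∈ M (3, i, a)) :
    x.2.Prime ∧ 5200 * k ≤ 10000 * x.2 ∧ 10000 * x.2 ≤ 5300 * k :=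
  h.hA _ _ (h.snd_mem hx)

theorem Mat.col_prime (h : Mat k W S A M) {f : Fam} {x : ℕ × ℕ} (hx : x ∈ M f) :
    (col f x).Prime := (h.hM f).edge x hx

/-- All colours are primes in a range where they have one multiple only. -/
theorem Mat.cols_spec (h : Mat k W S A M) {f : Fam} {x : ℕ × ℕ} (hx : x ∈ M f) {z : ℕ}
    (hz : z ∈ cols f x) :
    z.Prime ∧ 5175 * k ≤ 10000 * z ∧ 10000 * z ≤ 9750 * k := by
  have h1 := h.fst_spec hx
  have hc := h.col_prime hx
  obtain ⟨κ, i, a⟩ := f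
  match κ, hx, hz, hc with
  | 0, hx, hz, hc =>
    have h2 := h.snd_zero hx
    obtain rfl : z = col (0, i, a) x := Finset.mem_singleton.mp hz
    refine ⟨hc, ?_⟩
    simp only [col]
    split_ifs <;> omega
  | 1, hx, hz, hc =>
    have h2 := h.snd_one hx
    obtain rfl : z = col (1, i, a) x := Finset.mem_singleton.mp hz
    refine ⟨hc, ?_⟩
    simp only [col]
    omega
  | 2, hx, hz, hc =>
    have h2 := h.snd_two hx
    rcases Finset.mem_insert.mp hz with rfl | hz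
    · exact ⟨h2.1, by omega, by omega⟩
    · obtain rfl : z = col (2, i, a) x := Finset.mem_singleton.mp hz
      refine ⟨hc, ?_⟩
      simp only [col]
      omega
  | 3, hx, hz, hc =>
    have h2 := h.snd_three hx
    rcases Finset.mem_insert.mp hz with rfl | hz
    · exact ⟨h2.1, by omega, by omega⟩
    · obtain rfl : z = col (3, i, a) x := Finset.mem_singleton.mp hz
      refine ⟨hc, ?_⟩
      simp only [col]
      omega

theorem Mat.ta_spec (h : Mat k W S A M) {κ : Fin 4} {i : Fin 3} {a : Bool} {x : ℕ × ℕ}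
    (hx : x ∈ M (κ, i, a)) :
    (κ = 2 ∧ ta (κ, i, a) x ∈ cols (κ, i, a) x ∧ 5200 * k ≤ 10000 * ta (κ, i, a) x ∧
      10000 * ta (κ, i, a) x ≤ 5300 * k) ∨
    (κ = 0 ∧ ta (κ, i, a) x = x.1) ∨ (κ = 1 ∧ ta (κ, i, a) x = 4 * x.1) ∨
    (κ = 3 ∧ ta (κ, i, a) x = 2 * x.1) := by
  match κ, hx with
  | 0, hx => exact Or.inr (Or.inl ⟨rfl, rfl⟩)
  | 1, hx => exact Or.inr (Or.inr (Or.inl ⟨rfl, rfl⟩))
  | 2, hx =>
    have h2 := h.snd_two hx
    exact Or.inl ⟨rfl, Finset.mem_insert_self _ _, h2.2.1, h2.2.2⟩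
  | 3, hx => exact Or.inr (Or.inr (Or.inr ⟨rfl, rfl⟩))

theorem Mat.tb_spec (h : Mat k W S A M) {κ : Fin 4} {i : Fin 3} {a : Bool} {x : ℕ × ℕ}
    (hx : x ∈ M (κ, i, a)) :
    (κ ≠ 0 ∧ i = 2 ∧ κ = 1 ∧ tb (κ, i, a) x ∈ cols (κ, i, a) x ∧
      5175 * k ≤ 10000 * tb (κ, i, a) x ∧ 10000 * tb (κ, i, a) x ≤ 5200 * k) ∨
    (tb (κ, i, a) x ∈ cols (κ, i, a) x ∧ 9620 * k ≤ 10000 * tb (κ, i, a) x) ∨
    (κ = 0 ∧ i ≠ 2 ∧ tb (κ, i, a) x = 2 * x.2 ∧ 3700 * k ≤ 10000 * x.2 ∧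
      10000 * x.2 ≤ 3705 * k) ∨
    (κ = 1 ∧ i ≠ 2 ∧ tb (κ, i, a) x = x.2 ∧ 3700 * k ≤ 10000 * x.2 ∧
      10000 * x.2 ≤ 3705 * k) := by
  have h1 := h.fst_spec hx
  match κ, hx with
  | 0, hx =>
    have h2 := h.snd_zero hx
    by_cases hi : i = 2
    · right; left
      subst hi
      refine ⟨Finset.mem_singleton_self _, ?_⟩
      simp only [tb, if_true]
      omega
    · right; right; left
      simp only [tb, hi, if_false]
      exact ⟨trivial, hi, trivial, h2.2⟩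
  | 1, hx =>
    have h2 := h.snd_one hx
    by_cases hi : i = 2
    · left
      subst hi
      simp only [tb, cols, col, if_true, Finset.mem_singleton]
      refine ⟨by decide, trivial, trivial, trivial, ?_, ?_⟩ <;> omega
    · right; right; right
      simp only [tb, hi, if_false]
      exact ⟨trivial, hi, trivial, h2.2⟩
  | 2, hx =>
    have h2 := h.snd_two hx
    right; left
    refine ⟨Finset.mem_insert_of_mem (Finset.mem_singleton_self _), ?_⟩
    simp only [tb]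
    omega
  | 3, hx =>
    have h2 := h.snd_three hx
    right; left
    refine ⟨Finset.mem_insert_of_mem (Finset.mem_singleton_self _), ?_⟩
    simp only [tb]
    omega

theorem Mat.cv_spec (h : Mat k W S A M) {κ : Fin 4} {i : Fin 3} {a : Bool} {x : ℕ × ℕ}
    (hx : x ∈ M (κ, i, a)) :
    (cv (κ, i, a) x ∈ cols (κ, i, a) x ∧ 5175 * k ≤ 10000 * cv (κ, i, a) x) ∨
    (κ = 0 ∧ i = 2 ∧ cv (κ, i, a) x = x.2 ∧ 3700 * k ≤ 10000 * x.2 ∧
      10000 * x.2 ≤ 3705 * k) ∨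
    (κ = 1 ∧ i = 2 ∧ cv (κ, i, a) x = x.2 ∧ 3700 * k ≤ 10000 * x.2 ∧
      10000 * x.2 ≤ 3705 * k) ∨
    (κ = 2 ∧ cv (κ, i, a) x = x.1) := by
  have h1 := h.fst_spec hx
  match κ, hx with
  | 0, hx =>
    have h2 := h.snd_zero hx
    by_cases hi : i = 2
    · right; left
      simp only [cv, hi, if_true]
      exact ⟨trivial, trivial, trivial, h2.2⟩
    · left
      simp only [cv, cols, col, hi, if_false, Finset.mem_singleton]
      refine ⟨trivial, ?_⟩
      omega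
  | 1, hx =>
    have h2 := h.snd_one hx
    by_cases hi : i = 2
    · right; right; left
      simp only [cv, hi, if_true]
      exact ⟨trivial, trivial, trivial, h2.2⟩
    · left
      simp only [cv, cols, col, hi, if_false, Finset.mem_singleton]
      refine ⟨trivial, ?_⟩
      omega
  | 2, hx => exact Or.inr (Or.inr (Or.inr ⟨rfl, rfl⟩))
  | 3, hx =>
    have h2 := h.snd_three hx
    left
    refine ⟨Finset.mem_insert_self _ _, ?_⟩
    simp only [cv]
    omega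

theorem Mat.same_of_fst (h : Mat k W S A M) {κ : Fin 4} {i i' : Fin 3} {a a' : Bool}
    {x y : ℕ × ℕ} (hx : x ∈ M (κ, i, a)) (hy : y ∈ M (κ, i', a')) (hxy : x.1 = y.1) :
    ((κ, i, a) : Fam) = (κ, i', a') ∧ x = y := by
  have h1 : x.1 ∈ W i a := h.fst_mem hx
  have h2 : y.1 ∈ W i' a' := h.fst_mem hy
  rw [← hxy] at h2
  obtain ⟨rfl, rfl⟩ := h.W_eq h1 h2
  exact ⟨rfl, (h.hM _).inj1 hx hy hxy⟩

theorem Mat.ta_inj (h : Mat k W S A M) (hk : 0 < k) {f g : Fam} {x y : ℕ × ℕ} (hx : x ∈ M f)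
    (hy : y ∈ M g) (he : ta f x = ta g y) : f = g ∧ x = y := by
  obtain ⟨κ, i, a⟩ := f
  obtain ⟨κ', i', a'⟩ := g
  have b1 := h.fst_spec hx
  have b2 := h.fst_spec hy
  rcases h.ta_spec hx with ⟨c, c1, c2, c3⟩ | ⟨c, c1⟩ | ⟨c, c1⟩ | ⟨c, c1⟩ <;>
  rcases h.ta_spec hy with ⟨d, d1, d2, d3⟩ | ⟨d, d1⟩ | ⟨d, d1⟩ | ⟨d, d1⟩
  · exact h.color_inj hx hy c1 (he ▸ d1)
  · exfalso; omega
  · exfalso; omega
  · exfalso; omega
  · exfalso; omega
  · subst c; subst d; exact h.same_of_fst hx hy (by omega)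
  · exfalso; omega
  · exfalso; omega
  · exfalso; omega
  · exfalso; omega
  · subst c; subst d; exact h.same_of_fst hx hy (by omega)
  · exfalso; omega
  · exfalso; omega
  · exfalso; omega
  · exfalso; omega
  · subst c; subst d; exact h.same_of_fst hx hy (by omega)

theorem Mat.tb_inj (h : Mat k W S A M) (hk : 0 < k) {f g : Fam} {x y : ℕ × ℕ} (hx : x ∈ M f)
    (hy : y ∈ M g) (he : tb f x = tb g y) : f = g ∧ x = y := by
  obtain ⟨κ, i, a⟩ := f
  obtain ⟨κ', i', a'⟩ := g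
  rcases h.tb_spec hx with ⟨-, -, -, c1, c2, c3⟩ | ⟨c1, c2⟩ | ⟨c, ci, c1, c2, c3⟩ |
    ⟨c, ci, c1, c2, c3⟩ <;>
  rcases h.tb_spec hy with ⟨-, -, -, d1, d2, d3⟩ | ⟨d1, d2⟩ | ⟨d, di, d1, d2, d3⟩ |
    ⟨d, di, d1, d2, d3⟩
  · exact h.color_inj hx hy c1 (he ▸ d1)
  · exact h.color_inj hx hy c1 (he ▸ d1)
  · exfalso; omega
  · exfalso; omega
  · exact h.color_inj hx hy c1 (he ▸ d1)
  · exact h.color_inj hx hy c1 (he ▸ d1)
  · exfalso; omega
  · exfalso; omega
  · exfalso; omega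
  · exfalso; omega
  · subst c; subst d
    have e1 : x.2 = y.2 := by omega
    have e2 : x.2 ∈ S (sj (0, i, a)).1 (sj (0, i, a)).2 := h.snd_mem hx
    have e3 : y.2 ∈ S (sj (0, i', a')).1 (sj (0, i', a')).2 := h.snd_mem hy
    rw [← e1] at e3
    obtain ⟨rfl, rfl⟩ := sj_zero ci di (h.S_eq e2 e3)
    exact ⟨rfl, (h.hM _).inj2 hx hy e1⟩
  · exfalso; omega
  · exfalso; omega
  · exfalso; omega
  · exfalso; omega
  · subst c; subst d
    have e1 : x.2 = y.2 := by omega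
    have e2 : x.2 ∈ S (sj (1, i, a)).1 (sj (1, i, a)).2 := h.snd_mem hx
    have e3 : y.2 ∈ S (sj (1, i', a')).1 (sj (1, i', a')).2 := h.snd_mem hy
    rw [← e1] at e3
    obtain ⟨rfl, rfl⟩ := sj_one ci di (h.S_eq e2 e3)
    exact ⟨rfl, (h.hM _).inj2 hx hy e1⟩

theorem Mat.cv_inj (h : Mat k W S A M) (hk : 0 < k) {f g : Fam} {x y : ℕ × ℕ} (hx : x ∈ M f)
    (hy : y ∈ M g) (he : cv f x = cv g y) : f = g ∧ x = y := by
  obtain ⟨κ, i, a⟩ := f
  obtain ⟨κ', i', a'⟩ := g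
  have b1 := h.fst_spec hx
  have b2 := h.fst_spec hy
  rcases h.cv_spec hx with ⟨c1, c2⟩ | ⟨c, ci, c1, c2, c3⟩ | ⟨c, ci, c1, c2, c3⟩ | ⟨c, c1⟩ <;>
  rcases h.cv_spec hy with ⟨d1, d2⟩ | ⟨d, di, d1, d2, d3⟩ | ⟨d, di, d1, d2, d3⟩ | ⟨d, d1⟩
  · exact h.color_inj hx hy c1 (he ▸ d1)
  · exfalso; omega
  · exfalso; omega
  · exfalso; omega
  · exfalso; omega
  · subst c; subst d; subst ci; subst di
    have e1 : x.2 = y.2 := by omega
    have e2 : x.2 ∈ S (sj (0, 2, a)).1 (sj (0, 2, a)).2 := h.snd_mem hx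
    have e3 : y.2 ∈ S (sj (0, 2, a')).1 (sj (0, 2, a')).2 := h.snd_mem hy
    rw [← e1] at e3
    obtain rfl := sj_two_zero (h.S_eq e2 e3)
    exact ⟨rfl, (h.hM _).inj2 hx hy e1⟩
  · subst c; subst d; subst ci; subst di
    have e1 : x.2 = y.2 := by omega
    have e2 : x.2 ∈ S (sj (0, 2, a)).1 (sj (0, 2, a)).2 := h.snd_mem hx
    have e3 : y.2 ∈ S (sj (1, 2, a')).1 (sj (1, 2, a')).2 := h.snd_mem hy
    rw [← e1] at e3
    exact absurd (h.S_eq e2 e3) sj_two_ne
  · exfalso; omega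
  · exfalso; omega
  · subst c; subst d; subst ci; subst di
    have e1 : x.2 = y.2 := by omega
    have e2 : x.2 ∈ S (sj (1, 2, a)).1 (sj (1, 2, a)).2 := h.snd_mem hx
    have e3 : y.2 ∈ S (sj (0, 2, a')).1 (sj (0, 2, a')).2 := h.snd_mem hy
    rw [← e1] at e3
    exact absurd (h.S_eq e3 e2) sj_two_ne
  · subst c; subst d; subst ci; subst di
    have e1 : x.2 = y.2 := by omega
    have e2 : x.2 ∈ S (sj (1, 2, a)).1 (sj (1, 2, a)).2 := h.snd_mem hx
    have e3 : y.2 ∈ S (sj (1, 2, a')).1 (sj (1, 2, a')).2 := h.snd_mem hy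
    rw [← e1] at e3
    obtain rfl := sj_two_one (h.S_eq e2 e3)
    exact ⟨rfl, (h.hM _).inj2 hx hy e1⟩
  · exfalso; omega
  · exfalso; omega
  · exfalso; omega
  · exfalso; omega
  · subst c; subst d; exact h.same_of_fst hx hy (by omega)

theorem Mat.ta_ne_tb (h : Mat k W S A M) (hk : 0 < k) {f g : Fam} {x y : ℕ × ℕ}
    (hx : x ∈ M f) (hy : y ∈ M g) : ta f x ≠ tb g y := by
  intro he
  obtain ⟨κ, i, a⟩ := f
  obtain ⟨κ', i', a'⟩ := g
  have b1 := h.fst_spec hx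
  have b2 := h.fst_spec hy
  rcases h.ta_spec hx with ⟨c, c1, c2, c3⟩ | ⟨c, c1⟩ | ⟨c, c1⟩ | ⟨c, c1⟩ <;>
  rcases h.tb_spec hy with ⟨-, -, d, d1, d2, d3⟩ | ⟨d1, d2⟩ | ⟨d, di, d1, d2, d3⟩ |
    ⟨d, di, d1, d2, d3⟩
  · have := (h.color_inj hx hy c1 (he ▸ d1)).1
    subst c; subst d
    have h3 : (2 : Fin 4) = 1 := congrArg Prod.fst this
    exact absurd h3 (by decide)
  all_goals omega

theorem Mat.modEq (h : Mat k W S A M) (hk : 0 < k) {f : Fam} {x : ℕ × ℕ} (hx : x ∈ M f) :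
    ta f x ≡ tb f x [MOD cv f x] := by
  have b1 := h.fst_spec hx
  obtain ⟨κ, i, a⟩ := f
  match κ, hx with
  | 0, hx =>
    have h2 := h.snd_zero hx
    by_cases hi : i = 2
    · simp only [ta, tb, cv, hi, if_true]
      simp [Nat.ModEq]
    · simp only [ta, tb, cv, hi, if_false]
      have e : 2 * x.2 = x.1 + (2 * x.2 - x.1) := by omega
      conv_rhs => rw [e]
      simp [Nat.ModEq]
  | 1, hx =>
    have h2 := h.snd_one hx
    by_cases hi : i = 2
    · simp only [ta, tb, cv, hi, if_true]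
      have e : 4 * x.1 = (4 * x.1 - x.2) + x.2 := by omega
      conv_lhs => rw [e]
      simp [Nat.ModEq]
    · simp only [ta, tb, cv, hi, if_false]
      have e : 4 * x.1 = x.2 + (4 * x.1 - x.2) := by omega
      conv_lhs => rw [e]
      simp [Nat.ModEq]
  | 2, hx =>
    simp only [ta, tb, cv]
    simp [Nat.ModEq]
  | 3, hx =>
    simp only [ta, tb, cv]
    simp [Nat.ModEq]

/-- second token is in a set `S` or a colour: it lies in the tokens -/
theorem Mat.snd_S (h : Mat k W S A M) {κ : Fin 4} {i : Fin 3} {a : Bool} {x : ℕ × ℕ}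
    (hx : x ∈ M (κ, i, a)) (hκ : κ = 0 ∨ κ = 1) : ∃ j b, x.2 ∈ S j b := by
  rcases hκ with rfl | rfl
  · exact ⟨_, _, h.snd_mem hx⟩
  · exact ⟨_, _, h.snd_mem hx⟩

end Fam

open Fam in
/-- The combinatorial assembly. -/
theorem assembly (k L n : ℕ) (hk : 10000 ≤ k) (hL : 100 * L ≤ k) (hn : 0 < n)
    (W : Fin 3 → Bool → Finset ℕ) (S : Fin 2 → Bool → Finset ℕ) (A : Bool → Finset ℕ)
    (hWn : ∀ i a, (W i a).card = n) (hSn : ∀ j a, (S j a).card = n)
    (hWd : ∀ i a i' a', (i, a) ≠ (i', a') → Disjoint (W i a) (W i' a'))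
    (hSd : ∀ j a j' a', (j, a) ≠ (j', a') → Disjoint (S j a) (S j' a'))
    (hW : ∀ i a, ∀ p ∈ W i a, p.Prime ∧ 2220 * k ≤ 10000 * p ∧ 10000 * p ≤ 2225 * k)
    (hS : ∀ j a, ∀ p ∈ S j a, p.Prime ∧ 3700 * k ≤ 10000 * p ∧ 10000 * p ≤ 3705 * k)
    (hA : ∀ a, ∀ p ∈ A a, p.Prime ∧ 5200 * k ≤ 10000 * p ∧ 10000 * p ≤ 5300 * k)
    (hQ : ((Finset.Icc k (k + L)).filter Nat.Prime).card ≤ n)
    (D D' : ℝ)
    (hD1 : ∀ i j a c, c.Prime →
      (((W i a ×ˢ S j a).filter (fun x => 2 * x.2 = x.1 + c)).card : ℝ) ≤ D)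
    (hD2 : ∀ i j a c, c.Prime →
      (((W i a ×ˢ S j (!a)).filter (fun x => 4 * x.1 = x.2 + c)).card : ℝ) ≤ D)
    (hD3 : ∀ i j a c, c.Prime →
      (((W i a ×ˢ S j (!a)).filter (fun x => x.1 + 2 * x.2 = c)).card : ℝ) ≤ D)
    (hD4 : ∀ i a c, c.Prime →
      (((W i a ×ˢ A a).filter (fun x => x.2 + 2 * x.1 = c)).card : ℝ) ≤ D')
    (hE1 : ∀ i j a, ∀ U ⊆ W i a, ∀ V ⊆ S j a, n ≤ 24 * U.card → n ≤ 24 * V.card →
      40 * n * D < (((U ×ˢ V).filter (fun x => (2 * x.2 - x.1).Prime)).card : ℝ))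
    (hE2 : ∀ i j a, ∀ U ⊆ W i a, ∀ V ⊆ S j (!a), n ≤ 24 * U.card → n ≤ 24 * V.card →
      40 * n * D < (((U ×ˢ V).filter (fun x => (4 * x.1 - x.2).Prime)).card : ℝ))
    (hE3 : ∀ i j a, ∀ U ⊆ W i a, ∀ V ⊆ S j (!a), n ≤ 24 * U.card → n ≤ 24 * V.card →
      40 * n * D < (((U ×ˢ V).filter (fun x => (x.1 + 2 * x.2).Prime)).card : ℝ))
    (hE4 : ∀ i a, ∀ U ⊆ W i a, ∀ B ⊆ A a, n ≤ 24 * U.card → (A a \ B).card ≤ 40 * n →
      40 * n * D' < (((U ×ˢ B).filter (fun x => (x.2 + 2 * x.1).Prime)).card : ℝ)) :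
    ∃ m : ℕ, ∀ i ∈ Finset.Icc 1 k, L + 1 ≤ ∏ p ∈ (Finset.range k).filter (fun p => Nat.Prime p),
        p ^ ((m + i).factorization p) := by
  classical
  have hk0 : 0 < k := by omega
  have hdat : Dat k W S A := ⟨hWd, hSd, hW, hS, hA⟩
  -- every family can be matched
  have hfree : ∀ i a (used : Finset ℕ), used.card ≤ 36 * n →
      ∃ M, VM (W i a) (A a) (fun x => (x.2 + 2 * x.1).Prime) (fun x => {x.2, x.2 + 2 * x.1})
        used M ∧ 23 * n ≤ 24 * M.card := fun i a used hu =>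
    free_family (W i a) (A a) n (hWn i a) (fun x => x.2 + 2 * x.1) D' (hD4 i a) (hE4 i a) used hu
  have hP1 : ∀ i j a (used : Finset ℕ), used.card ≤ 36 * n →
      ∃ M, VM (W i a) (S j a) (fun x => (2 * x.2 - x.1).Prime) (fun x => {2 * x.2 - x.1})
        used M ∧ 23 * n ≤ 24 * M.card := fun i j a used hu => by
    refine core_family (W i a) (S j a) n (hWn i a) (hSn j a) (fun x => 2 * x.2 - x.1) D
      (fun c hc => ?_) (hE1 i j a) used hu
    refine le_trans ?_ (hD1 i j a c hc)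
    have : (W i a ×ˢ S j a).filter (fun x => 2 * x.2 - x.1 = c) ⊆
        (W i a ×ˢ S j a).filter (fun x => 2 * x.2 = x.1 + c) := by
      intro x hx
      obtain ⟨h1, h2⟩ := Finset.mem_filter.mp hx
      obtain ⟨h3, h4⟩ := Finset.mem_product.mp h1
      have h5 := hW i a _ h3
      have h6 := hS j a _ h4
      exact Finset.mem_filter.mpr ⟨h1, by omega⟩
    exact_mod_cast Finset.card_le_card this
  have hP2 : ∀ i j a (used : Finset ℕ), used.card ≤ 36 * n →
      ∃ M, VM (W i a) (S j (!a)) (fun x => (4 * x.1 - x.2).Prime) (fun x => {4 * x.1 - x.2})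
        used M ∧ 23 * n ≤ 24 * M.card := fun i j a used hu => by
    refine core_family (W i a) (S j (!a)) n (hWn i a) (hSn j _) (fun x => 4 * x.1 - x.2) D
      (fun c hc => ?_) (hE2 i j a) used hu
    refine le_trans ?_ (hD2 i j a c hc)
    have : (W i a ×ˢ S j (!a)).filter (fun x => 4 * x.1 - x.2 = c) ⊆
        (W i a ×ˢ S j (!a)).filter (fun x => 4 * x.1 = x.2 + c) := by
      intro x hx
      obtain ⟨h1, h2⟩ := Finset.mem_filter.mp hx
      obtain ⟨h3, h4⟩ := Finset.mem_product.mp h1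
      have h5 := hW i a _ h3
      have h6 := hS j (!a) _ h4
      exact Finset.mem_filter.mpr ⟨h1, by omega⟩
    exact_mod_cast Finset.card_le_card this
  have hP3 : ∀ i j a (used : Finset ℕ), used.card ≤ 36 * n →
      ∃ M, VM (W i a) (S j (!a)) (fun x => (x.1 + 2 * x.2).Prime) (fun x => {x.1 + 2 * x.2})
        used M ∧ 23 * n ≤ 24 * M.card := fun i j a used hu =>
    core_family (W i a) (S j (!a)) n (hWn i a) (hSn j _) (fun x => x.1 + 2 * x.2) D
      (hD3 i j a) (hE3 i j a) used hu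
  have hstep : ∀ f : Fam, f ∈ (Finset.univ : Finset Fam) → ∀ used : Finset ℕ,
      used.card ≤ 36 * n → ∃ M, VM (W f.2.1 f.2.2) (sec S A f) (fun x => (col f x).Prime)
        (cols f) used M ∧ 23 * n ≤ 24 * M.card := by
    rintro ⟨κ, i, a⟩ - used hu
    match κ, i with
    | 0, 0 => exact hP1 0 0 a used hu
    | 0, 1 => exact hP1 1 1 a used hu
    | 0, 2 => exact hP3 2 0 a used hu
    | 1, 0 => exact hP2 0 1 a used hu
    | 1, 1 => exact hP2 1 0 a used hu
    | 1, 2 => exact hP2 2 1 a used hu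
    | 2, i => exact hfree i a used hu
    | 3, i => exact hfree i a used hu
  obtain ⟨M, hM1, hM2⟩ := run_families (fun f : Fam => W f.2.1 f.2.2) (sec S A)
    (fun f x => (col f x).Prime) cols wt n (36 * n) Finset.univ hstep
    (fun f _ x => cols_card f x) (fun f _ => hWn _ _) (by rw [sum_wt, mul_comm])
  have hmat : Mat k W S A M :=
    { hdat with
      hM := fun f => (hM1 f (Finset.mem_univ f)).1
      hdis := fun f g hfg => hM2 f (Finset.mem_univ f) g (Finset.mem_univ g) hfg }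
  -- the doubles
  set DD : Finset (Σ _ : Fam, ℕ × ℕ) := (Finset.univ : Finset Fam).sigma M with hDD
  have hDmem : ∀ d ∈ DD, d.2 ∈ M d.1 := fun d hd => (Finset.mem_sigma.mp hd).2
  have hDcard : 23 * n ≤ DD.card := by
    rw [hDD, Finset.card_sigma]
    have h1 : ∑ _f ∈ (Finset.univ : Finset Fam), 23 * n ≤ ∑ f ∈ Finset.univ, 24 * (M f).card :=
      Finset.sum_le_sum fun f _ => (hM1 f (Finset.mem_univ f)).2
    rw [Finset.sum_const, card_univ, ← Finset.mul_sum, smul_eq_mul] at h1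
    omega
  have hext : ∀ d ∈ DD, ∀ d' ∈ DD, d.1 = d'.1 ∧ d.2 = d'.2 → d = d' := by
    rintro ⟨f, x⟩ _ ⟨g, y⟩ _ ⟨h1, h2⟩
    simp only at h1 h2
    subst h1; subst h2
    rfl
  -- moved primes
  set WW : Finset ℕ := (Finset.univ : Finset (Fin 3 × Bool)).biUnion (fun p => W p.1 p.2) with hWW
  set SS : Finset ℕ := (Finset.univ : Finset (Fin 2 × Bool)).biUnion (fun p => S p.1 p.2) with hSS
  set TC : Finset ℕ := (Finset.univ : Finset Fam).biUnion (fun f => (M f).biUnion (cols f)) with hTC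
  have hWWs : ∀ p ∈ WW, p.Prime ∧ 2220 * k ≤ 10000 * p ∧ 10000 * p ≤ 2225 * k := by
    intro p hp
    obtain ⟨q, _, hq⟩ := Finset.mem_biUnion.mp hp
    exact hW _ _ _ hq
  have hSSs : ∀ p ∈ SS, p.Prime ∧ 3700 * k ≤ 10000 * p ∧ 10000 * p ≤ 3705 * k := by
    intro p hp
    obtain ⟨q, _, hq⟩ := Finset.mem_biUnion.mp hp
    exact hS _ _ _ hq
  have hTCs : ∀ p ∈ TC, p.Prime ∧ 5175 * k ≤ 10000 * p ∧ 10000 * p ≤ 9750 * k := by
    intro p hp
    obtain ⟨f, _, hf⟩ := Finset.mem_biUnion.mp hp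
    obtain ⟨x, hx, hxz⟩ := Finset.mem_biUnion.mp hf
    exact hmat.cols_spec hx hxz
  have hTCmem : ∀ f : Fam, ∀ x ∈ M f, ∀ z ∈ cols f x, z ∈ TC := fun f x hx z hz =>
    Finset.mem_biUnion.mpr ⟨f, Finset.mem_univ f, Finset.mem_biUnion.mpr ⟨x, hx, hz⟩⟩
  have hWWmem : ∀ f : Fam, ∀ x ∈ M f, x.1 ∈ WW := fun f x hx =>
    Finset.mem_biUnion.mpr ⟨f.2, Finset.mem_univ _, hmat.fst_mem hx⟩
  have hSSmem : ∀ j b s, s ∈ S j b → s ∈ SS := fun j b s hs =>
    Finset.mem_biUnion.mpr ⟨(j, b), Finset.mem_univ _, hs⟩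
  have hWWc : WW.card = 6 * n := by
    rw [hWW, Finset.card_biUnion]
    · simp [hWn]
    · intro p _ q _ hpq
      exact hWd _ _ _ _ hpq
  have hSSc : SS.card = 4 * n := by
    rw [hSS, Finset.card_biUnion]
    · simp [hSn]
    · intro p _ q _ hpq
      exact hSd _ _ _ _ hpq
  have hd1 : Disjoint WW SS := by
    rw [Finset.disjoint_left]
    intro p h1 h2
    have := hWWs p h1
    have := hSSs p h2
    omega
  have hd2 : Disjoint (WW ∪ SS) TC := by
    rw [Finset.disjoint_left]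
    intro p h1 h2
    have h3 := hTCs p h2
    rcases Finset.mem_union.mp h1 with h | h
    · have := hWWs p h
      omega
    · have := hSSs p h
      omega
  set MM : Finset ℕ := WW ∪ SS ∪ TC with hMM
  have hMMc : MM.card = 10 * n + TC.card := by
    rw [hMM, Finset.card_union_of_disjoint hd2, Finset.card_union_of_disjoint hd1, hWWc, hSSc]
    ring
  have hMMs : ∀ p ∈ MM, p.Prime ∧ 2220 * k ≤ 10000 * p ∧ 10000 * p ≤ 9750 * k := by
    intro p hp
    rcases Finset.mem_union.mp hp with h | h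
    · rcases Finset.mem_union.mp h with h | h
      · have := hWWs p h
        exact ⟨this.1, by omega, by omega⟩
      · have := hSSs p h
        exact ⟨this.1, by omega, by omega⟩
    · have := hTCs p h
      exact ⟨this.1, by omega, by omega⟩
  -- tokens
  set Q : Finset ℕ := (Finset.Icc k (k + L)).filter Nat.Prime with hQdef
  set T : Finset ℕ := (Finset.Ioc L (L + k)).filter
    (fun m => ∃ p, p.Prime ∧ p ∣ m ∧ (k ≤ p ∨ p ∈ MM)) with hT
  have hTmem : ∀ p q : ℕ, p ∈ MM → L < p * q → p * q ≤ L + k → p * q ∈ T := by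
    intro p q hp h1 h2
    refine Finset.mem_filter.mpr ⟨Finset.mem_Ioc.mpr ⟨h1, h2⟩, p, (hMMs p hp).1,
      dvd_mul_right p q, Or.inr hp⟩
  have hWM : ∀ p ∈ WW, p ∈ MM := fun p hp =>
    Finset.mem_union_left _ (Finset.mem_union_left _ hp)
  have hSM : ∀ p ∈ SS, p ∈ MM := fun p hp =>
    Finset.mem_union_left _ (Finset.mem_union_right _ hp)
  have hTM : ∀ p ∈ TC, p ∈ MM := fun p hp => Finset.mem_union_right _ hp
  have hTw : ∀ p ∈ WW, ∀ c, 1 ≤ c → c ≤ 4 → c * p ∈ T := by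
    intro p hp c hc1 hc2
    have h1 := hWWs p hp
    rw [mul_comm]
    refine hTmem p c (hWM p hp) ?_ ?_
    · interval_cases c <;> omega
    · interval_cases c <;> omega
  have hTs : ∀ p ∈ SS, ∀ c, 1 ≤ c → c ≤ 2 → c * p ∈ T := by
    intro p hp c hc1 hc2
    have h1 := hSSs p hp
    rw [mul_comm]
    refine hTmem p c (hSM p hp) ?_ ?_
    · interval_cases c <;> omega
    · interval_cases c <;> omega
  have hTt : ∀ p ∈ TC, p ∈ T := by
    intro p hp
    have h1 := hTCs p hp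
    have := hTmem p 1 (hTM p hp) (by omega) (by omega)
    rwa [mul_one] at this
  have hTsub : T ⊆ WW ∪ WW.image (fun p => 2 * p) ∪ WW.image (fun p => 3 * p) ∪
      WW.image (fun p => 4 * p) ∪ SS ∪ SS.image (fun p => 2 * p) ∪ TC ∪ Q := by
    intro m hm
    obtain ⟨h1, p, hp, ⟨q, rfl⟩, h2⟩ := Finset.mem_filter.mp hm
    obtain ⟨h3, h4⟩ := Finset.mem_Ioc.mp h1
    simp only [Finset.mem_union, Finset.mem_image]
    have hq0 : q ≠ 0 := by
      rintro rfl
      simp at h3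
    rcases h2 with h2 | h2
    · have hq1 : q = 1 := by
        by_contra hq1
        have h5 : 2 ≤ q := by omega
        have h6 : k * 2 ≤ p * q := Nat.mul_le_mul h2 h5
        omega
      subst hq1
      right
      rw [mul_one] at h3 h4 ⊢
      exact Finset.mem_filter.mpr ⟨Finset.mem_Icc.mpr ⟨h2, by omega⟩, hp⟩
    · rcases Finset.mem_union.mp h2 with h | h
      · rcases Finset.mem_union.mp h with h | h
        · have h5 := hWWs p h
          have h6 : q ≤ 4 := by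
            by_contra h7
            have h8 : p * 5 ≤ p * q := Nat.mul_le_mul_left p (by omega)
            omega
          interval_cases q
          · exact absurd rfl hq0
          · rw [mul_one]; tauto
          · left; left; left; left; left; left; right
            exact ⟨p, h, mul_comm _ _⟩
          · left; left; left; left; left; right
            exact ⟨p, h, mul_comm _ _⟩
          · left; left; left; left; right
            exact ⟨p, h, mul_comm _ _⟩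
        · have h5 := hSSs p h
          have h6 : q ≤ 2 := by
            by_contra h7
            have h8 : p * 3 ≤ p * q := Nat.mul_le_mul_left p (by omega)
            omega
          interval_cases q
          · exact absurd rfl hq0
          · rw [mul_one]; tauto
          · left; left; right
            exact ⟨p, h, mul_comm _ _⟩
      · have h5 := hTCs p h
        have h6 : q ≤ 1 := by
          by_contra h7
          have h8 : p * 2 ≤ p * q := Nat.mul_le_mul_left p (by omega)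
          omega
        interval_cases q
        · exact absurd rfl hq0
        · rw [mul_one]; tauto
  have hTcard : T.card ≤ MM.card + DD.card := by
    have e1 := Finset.card_le_card hTsub
    have e2 : ∀ (X Y : Finset ℕ), (X ∪ Y).card ≤ X.card + Y.card := Finset.card_union_le
    have i2 : (WW.image (fun p => 2 * p)).card ≤ WW.card := Finset.card_image_le
    have i3 : (WW.image (fun p => 3 * p)).card ≤ WW.card := Finset.card_image_le
    have i4 : (WW.image (fun p => 4 * p)).card ≤ WW.card := Finset.card_image_le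
    have j2 : (SS.image (fun p => 2 * p)).card ≤ SS.card := Finset.card_image_le
    have u1 := e2 (WW ∪ WW.image (fun p => 2 * p) ∪ WW.image (fun p => 3 * p) ∪
      WW.image (fun p => 4 * p) ∪ SS ∪ SS.image (fun p => 2 * p) ∪ TC) Q
    have u2 := e2 (WW ∪ WW.image (fun p => 2 * p) ∪ WW.image (fun p => 3 * p) ∪
      WW.image (fun p => 4 * p) ∪ SS ∪ SS.image (fun p => 2 * p)) TC
    have u3 := e2 (WW ∪ WW.image (fun p => 2 * p) ∪ WW.image (fun p => 3 * p) ∪
      WW.image (fun p => 4 * p) ∪ SS) (SS.image (fun p => 2 * p))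
    have u4 := e2 (WW ∪ WW.image (fun p => 2 * p) ∪ WW.image (fun p => 3 * p) ∪
      WW.image (fun p => 4 * p)) SS
    have u5 := e2 (WW ∪ WW.image (fun p => 2 * p) ∪ WW.image (fun p => 3 * p))
      (WW.image (fun p => 4 * p))
    have u6 := e2 (WW ∪ WW.image (fun p => 2 * p)) (WW.image (fun p => 3 * p))
    have u7 := e2 WW (WW.image (fun p => 2 * p))
    rw [hMMc]
    omega
  refine exists_block (k := k) (L := L) (B := L + 1) (M := MM) (T := T) (fun p hp => ?_)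
    (fun m hm1 hm2 hmT p hp hpm => ?_) DD (fun d => cv d.1 d.2) (fun d => ta d.1 d.2)
    (fun d => tb d.1 d.2) ?_ ?_ ?_ ?_ ?_ ?_ ?_ ?_ hTcard le_rfl (fun p hp => ?_)
  · have := hMMs p hp
    exact ⟨this.1, by omega⟩
  · by_contra hcon
    apply hmT
    refine Finset.mem_filter.mpr ⟨Finset.mem_Ioc.mpr ⟨hm1, hm2⟩, p, hp, hpm, ?_⟩
    by_contra h2
    apply hcon
    rw [not_or, not_le] at h2
    exact h2
  · -- covers are moved primes
    rintro ⟨⟨κ, i, a⟩, x⟩ hd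
    have hx := hDmem _ hd
    simp only at hx ⊢
    rcases hmat.cv_spec hx with ⟨c1, c2⟩ | ⟨c, ci, c1, c2, c3⟩ | ⟨c, ci, c1, c2, c3⟩ | ⟨c, c1⟩
    · exact hTM _ (hTCmem _ _ hx _ c1)
    · rw [c1]
      obtain ⟨j, b, hj⟩ := hmat.snd_S hx (Or.inl c)
      exact hSM _ (hSSmem j b _ hj)
    · rw [c1]
      obtain ⟨j, b, hj⟩ := hmat.snd_S hx (Or.inr c)
      exact hSM _ (hSSmem j b _ hj)
    · rw [c1]
      exact hWM _ (hWWmem _ _ hx)
  · intro d hd d' hd' he
    exact hext d hd d' hd' (hmat.cv_inj hk0 (hDmem d hd) (hDmem d' hd') he)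
  · -- first tokens
    rintro ⟨⟨κ, i, a⟩, x⟩ hd
    have hx := hDmem _ hd
    simp only at hx ⊢
    rcases hmat.ta_spec hx with ⟨c, c1, c2, c3⟩ | ⟨c, c1⟩ | ⟨c, c1⟩ | ⟨c, c1⟩
    · exact hTt _ (hTCmem _ _ hx _ c1)
    · rw [c1]
      have := hTw _ (hWWmem _ _ hx) 1 le_rfl (by norm_num)
      rwa [one_mul] at this
    · rw [c1]
      exact hTw _ (hWWmem _ _ hx) 4 (by norm_num) le_rfl
    · rw [c1]
      exact hTw _ (hWWmem _ _ hx) 2 (by norm_num) (by norm_num)
  · rintro ⟨⟨κ, i, a⟩, x⟩ hd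
    have hx := hDmem _ hd
    simp only at hx ⊢
    rcases hmat.tb_spec hx with ⟨-, -, -, c1, c2, c3⟩ | ⟨c1, c2⟩ | ⟨c, ci, c1, c2, c3⟩ |
      ⟨c, ci, c1, c2, c3⟩
    · exact hTt _ (hTCmem _ _ hx _ c1)
    · exact hTt _ (hTCmem _ _ hx _ c1)
    · rw [c1]
      obtain ⟨j, b, hj⟩ := hmat.snd_S hx (Or.inl c)
      exact hTs _ (hSSmem j b _ hj) 2 (by norm_num) le_rfl
    · rw [c1]
      obtain ⟨j, b, hj⟩ := hmat.snd_S hx (Or.inr c)
      have := hTs _ (hSSmem j b _ hj) 1 le_rfl (by norm_num)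
      rwa [one_mul] at this
  · intro d hd d' hd' he
    exact hext d hd d' hd' (hmat.ta_inj hk0 (hDmem d hd) (hDmem d' hd') he)
  · intro d hd d' hd' he
    exact hext d hd d' hd' (hmat.tb_inj hk0 (hDmem d hd) (hDmem d' hd') he)
  · intro d hd d' hd'
    exact hmat.ta_ne_tb hk0 (hDmem d hd) (hDmem d' hd')
  · intro d hd
    exact hmat.modEq hk0 (hDmem d hd)
  · have := hMMs p hp
    omega

end Pool.Agent.Lib.MP_325d88_nt
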