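import Mathlib

/-!
# Counting periodic conditions in boxes
-/

namespace Pool.Agent.Lib.MP_325d88_nt

open Finset

noncomputable section

section

variable (ι : Type) [Fintype ι] [DecidableEq ι]

/-- the cube `[0,d)^ι` -/
def cube (d : ℕ) : Finset (ι → ℤ) := Fintype.piFinset (fun _ => Finset.Ico (0 : ℤ) d)

theorem mem_cube (d : ℕ) (v : ι → ℤ) : v ∈ cube ι d ↔ ∀ i, 0 ≤ v i ∧ v i < d := by
  unfold cube
  rw [Fintype.mem_piFinset]
  simp only [Finset.mem_Ico]

theorem card_cube (d : ℕ) : (cube ι d).card = d ^ Fintype.card ι := by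
  unfold cube
  rw [Fintype.card_piFinset]
  simp

end

variable {ι : Type} [Fintype ι] [DecidableEq ι]

/-- `F` is periodic modulo `d` in every variable -/
def Per (d : ℕ) (F : (ι → ℤ) → ℝ) : Prop :=
  ∀ v v' : ι → ℤ, (∀ i, v i ≡ v' i [ZMOD (d : ℤ)]) → F v = F v'

theorem Per.mul_right {d : ℕ} {F H : (ι → ℤ) → ℝ} (hF : Per d F) (hH : Per d H) :
    Per d (fun v => F v * H v) := by
  intro v v' h
  simp only [hF v v' h, hH v v' h]

theorem Per.of_dvd {d e : ℕ} {F : (ι → ℤ) → ℝ} (hF : Per d F) (h : d ∣ e) : Per e F := by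
  intro v v' hv
  apply hF
  intro i
  exact (hv i).of_dvd (by exact_mod_cast h)

/-- reduction modulo `d` -/
def red (d : ℕ) (v : ι → ℤ) : ι → ℤ := fun i => v i % (d : ℤ)

theorem red_mem (d : ℕ) (hd : 0 < d) (v : ι → ℤ) : red d v ∈ cube ι d := by
  rw [mem_cube]
  intro i
  have : (0 : ℤ) < d := by exact_mod_cast hd
  exact ⟨Int.emod_nonneg _ this.ne', Int.emod_lt_of_pos _ this⟩

theorem Per.red {d : ℕ} {F : (ι → ℤ) → ℝ} (hF : Per d F) (v : ι → ℤ) :
    F (red d v) = F v := by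
  apply hF
  intro i
  exact Int.mod_modEq _ _

theorem crt_sum (m n : ℕ) (hm : 0 < m) (hn : 0 < n) (hc : m.Coprime n)
    (F H : (ι → ℤ) → ℝ) (hF : Per m F) (hH : Per n H) :
    ∑ v ∈ cube ι (m * n), F v * H v = (∑ v ∈ cube ι m, F v) * ∑ v ∈ cube ι n, H v := by
  classical
  have hmem : ∀ v ∈ cube ι (m * n), (red m v, red n v) ∈ cube ι m ×ˢ cube ι n := by
    intro v _
    rw [Finset.mem_product]
    exact ⟨red_mem m hm v, red_mem n hn v⟩
  have hinj : Set.InjOn (fun v : ι → ℤ => (red m v, red n v)) (cube ι (m * n)) := by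
    intro v hv v' hv' h
    rw [Finset.mem_coe, mem_cube] at hv hv'
    simp only [Prod.mk.injEq] at h
    funext i
    have h1 : v i ≡ v' i [ZMOD (m : ℤ)] := congrFun h.1 i
    have h2 : v i ≡ v' i [ZMOD (n : ℤ)] := congrFun h.2 i
    have h3 : v i ≡ v' i [ZMOD ((m : ℤ) * n)] := by
      rw [← Int.modEq_and_modEq_iff_modEq_mul]
      · exact ⟨h1, h2⟩
      · simpa using hc
    have h4 := hv i
    have h5 := hv' i
    push_cast at h4 h5
    have h6 : v i % ((m : ℤ) * n) = v i := Int.emod_eq_of_lt h4.1 h4.2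
    have h7 : v' i % ((m : ℤ) * n) = v' i := Int.emod_eq_of_lt h5.1 h5.2
    rw [← h6, ← h7]
    exact h3
  have himg : (cube ι (m * n)).image (fun v : ι → ℤ => (red m v, red n v)) =
      cube ι m ×ˢ cube ι n := by
    apply Finset.eq_of_subset_of_card_le
    · intro x hx
      rw [Finset.mem_image] at hx
      obtain ⟨v, hv, rfl⟩ := hx
      exact hmem v hv
    · rw [Finset.card_image_of_injOn hinj, Finset.card_product, card_cube, card_cube, card_cube,
        mul_pow]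
  rw [Finset.sum_mul_sum, ← Finset.sum_product', ← himg, Finset.sum_image hinj]
  apply Finset.sum_congr rfl
  intro v _
  rw [hF.red, hH.red]

/-- the box with corner `A` and side lengths `L` -/
def box (A : ι → ℤ) (L : ι → ℕ) : Finset (ι → ℤ) :=
  Fintype.piFinset (fun i => Finset.Ico (A i) (A i + L i))

theorem card_box (A : ι → ℤ) (L : ι → ℕ) : (box A L).card = ∏ i, L i := by
  unfold box
  rw [Fintype.card_piFinset]
  simp

theorem mem_box (A : ι → ℤ) (L : ι → ℕ) (v : ι → ℤ) :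
    v ∈ box A L ↔ ∀ i, A i ≤ v i ∧ v i < A i + L i := by
  unfold box
  rw [Fintype.mem_piFinset]
  simp only [Finset.mem_Ico]

/-- number of elements of an interval in a residue class -/
theorem count_residue (a : ℤ) (L d : ℕ) (hd : 0 < d) (r : ℤ) :
    (L : ℝ) / d - 1 ≤ (((Finset.Ico a (a + L)).filter (fun x => x ≡ r [ZMOD (d : ℤ)])).card : ℝ) ∧
    (((Finset.Ico a (a + L)).filter (fun x => x ≡ r [ZMOD (d : ℤ)])).card : ℝ) ≤ (L : ℝ) / d + 1 := by
  have hd' : (0 : ℤ) < d := by exact_mod_cast hd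
  have h := Int.Ico_filter_modEq_card a (a + L) hd' r
  have hdQ : (0 : ℚ) < d := by exact_mod_cast hd
  set X : ℚ := ((a : ℚ) - r) / d with hX
  have h1 : ((((a + (L : ℤ) : ℤ) : ℚ)) - (r : ℚ)) / (((d : ℤ) : ℚ)) = X + (L : ℚ) / d := by
    rw [hX]; push_cast; ring
  have h2 : (((a : ℤ) : ℚ) - (r : ℚ)) / (((d : ℤ) : ℚ)) = X := by
    rw [hX]; push_cast; ring
  rw [h1, h2] at h
  have h3 := Int.ceil_lt_add_one (X + (L : ℚ) / d)
  have h4 := Int.le_ceil (X + (L : ℚ) / d)
  have h5 := Int.ceil_lt_add_one X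
  have h6 := Int.le_ceil X
  have hq : (L : ℚ) / d - 1 ≤ ((max (⌈X + (L : ℚ) / d⌉ - ⌈X⌉) 0 : ℤ) : ℚ) ∧
      ((max (⌈X + (L : ℚ) / d⌉ - ⌈X⌉) 0 : ℤ) : ℚ) ≤ (L : ℚ) / d + 1 := by
    constructor
    · calc (L : ℚ) / d - 1 ≤ ((⌈X + (L : ℚ) / d⌉ - ⌈X⌉ : ℤ) : ℚ) := by push_cast; linarith
        _ ≤ _ := by exact_mod_cast le_max_left _ _
    · rw [Int.cast_max]
      apply max_le
      · push_cast; linarith
      · have : (0 : ℚ) ≤ (L : ℚ) / d := by positivity
        push_cast; linarith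
  rw [← h] at hq
  constructor
  · have := hq.1
    have h8 : (((L : ℚ) / d - 1 : ℚ) : ℝ) ≤ (((((Finset.Ico a (a + L)).filter
      (fun x => x ≡ r [ZMOD (d : ℤ)])).card : ℤ) : ℚ) : ℝ) := by exact_mod_cast this
    push_cast at h8
    exact h8
  · have := hq.2
    have h8 : (((((Finset.Ico a (a + L)).filter
      (fun x => x ≡ r [ZMOD (d : ℤ)])).card : ℤ) : ℚ) : ℝ) ≤ (((L : ℚ) / d + 1 : ℚ) : ℝ) := by
      exact_mod_cast this
    push_cast at h8
    exact h8

theorem one_add_pow_le (m : ℕ) (δ : ℝ) (h0 : 0 ≤ δ) (h1 : δ ≤ 1) : (1 + δ) ^ m ≤ 1 + 2 ^ m * δ := by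
  have key : (1 + δ) ^ m ≤ 1 + (2 ^ m - 1) * δ := by
    induction m with
    | zero => simp
    | succ m ih =>
      have h2 : (1 : ℝ) ≤ 2 ^ m := one_le_pow₀ (by norm_num)
      have h3 : 0 ≤ ((2 : ℝ) ^ m - 1) * (δ * (1 - δ)) := by
        apply mul_nonneg (by linarith) (mul_nonneg h0 (by linarith))
      calc (1 + δ) ^ (m + 1) = (1 + δ) ^ m * (1 + δ) := by rw [pow_succ]
        _ ≤ (1 + (2 ^ m - 1) * δ) * (1 + δ) := mul_le_mul_of_nonneg_right ih (by linarith)
        _ ≤ 1 + (2 ^ (m + 1) - 1) * δ := by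
          rw [pow_succ]
          nlinarith
  nlinarith

theorem one_sub_pow_ge (m : ℕ) (δ : ℝ) (h0 : 0 ≤ δ) (h1 : δ ≤ 1) : 1 - 2 ^ m * δ ≤ (1 - δ) ^ m := by
  have h := one_add_mul_le_pow (show (-2 : ℝ) ≤ -δ by linarith) m
  have h2 : (m : ℝ) ≤ 2 ^ m := by exact_mod_cast (Nat.lt_two_pow_self (n := m)).le
  have h3 : (m : ℝ) * δ ≤ 2 ^ m * δ := mul_le_mul_of_nonneg_right h2 h0
  have h4 : (1 : ℝ) + -δ = 1 - δ := by ring
  rw [h4] at h
  linarith

/-- sum of a periodic nonnegative function over a box -/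
theorem box_sum (A : ι → ℤ) (L : ι → ℕ) (d M : ℕ) (hd : 0 < d) (hdM : d ≤ M) (hM : ∀ i, M ≤ L i)
    (F : (ι → ℤ) → ℝ) (hF : Per d F) (hF0 : ∀ v, 0 ≤ F v) :
    |∑ v ∈ box A L, F v - (∑ v ∈ cube ι d, F v) / (d : ℝ) ^ Fintype.card ι * ∏ i, (L i : ℝ)| ≤
      2 ^ Fintype.card ι * ((d : ℝ) / M) *
        ((∑ v ∈ cube ι d, F v) / (d : ℝ) ^ Fintype.card ι * ∏ i, (L i : ℝ)) := by
  classical
  have hd0 : (0 : ℝ) < d := by exact_mod_cast hd
  have hM0 : (0 : ℝ) < M := by exact_mod_cast (lt_of_lt_of_le hd hdM)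
  -- group by residues
  have hgroup : ∑ v ∈ box A L, F v = ∑ r ∈ cube ι d, F r *
      ∏ i, (((Finset.Ico (A i) (A i + L i)).filter
        (fun x => x ≡ r i [ZMOD (d : ℤ)])).card : ℝ) := by
    rw [← Finset.sum_fiberwise_of_maps_to (s := box A L) (t := cube ι d)
      (g := fun v => red d v) (fun v _ => red_mem d hd v)]
    apply Finset.sum_congr rfl
    intro r hr
    have h1 : ∀ v ∈ (box A L).filter (fun v => red d v = r), F v = F r := by
      intro v hv
      rw [Finset.mem_filter] at hv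
      rw [← hv.2, hF.red]
    rw [Finset.sum_congr rfl h1, Finset.sum_const, nsmul_eq_mul, mul_comm]
    congr 1
    have h2 : (box A L).filter (fun v => red d v = r) =
        Fintype.piFinset (fun i => (Finset.Ico (A i) (A i + L i)).filter
          (fun x => x ≡ r i [ZMOD (d : ℤ)])) := by
      ext v
      rw [Finset.mem_filter, mem_box, Fintype.mem_piFinset]
      simp only [Finset.mem_filter, Finset.mem_Ico]
      rw [mem_cube] at hr
      have h3 : (red d v = r) ↔ ∀ i, v i ≡ r i [ZMOD (d : ℤ)] := by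
        constructor
        · intro h i
          have h4 := congrFun h i
          unfold red at h4
          have h5 : r i % (d : ℤ) = r i := Int.emod_eq_of_lt (hr i).1 (hr i).2
          show v i % (d : ℤ) = r i % (d : ℤ)
          rw [h4, h5]
        · intro h
          funext i
          have h4 : v i % (d : ℤ) = r i % (d : ℤ) := h i
          have h5 : r i % (d : ℤ) = r i := Int.emod_eq_of_lt (hr i).1 (hr i).2
          unfold red
          rw [h4, h5]
      rw [h3]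
      constructor
      · rintro ⟨h4, h5⟩ i
        exact ⟨h4 i, h5 i⟩
      · intro h4
        exact ⟨fun i => (h4 i).1, fun i => (h4 i).2⟩
    rw [h2, Fintype.card_piFinset]
    push_cast
    rfl
  rw [hgroup]
  set δ : ℝ := (d : ℝ) / M with hδ
  have hδ0 : 0 ≤ δ := by positivity
  have hδ1 : δ ≤ 1 := by
    rw [hδ, div_le_one hM0]; exact_mod_cast hdM
  set m := Fintype.card ι with hm
  set P : ℝ := ∏ i, (L i : ℝ) with hP
  have hPd : P / (d : ℝ) ^ m = ∏ i, ((L i : ℝ) / d) := by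
    rw [Finset.prod_div_distrib, Finset.prod_const, Finset.card_univ]
  have hc : ∀ r : ι → ℤ,
      |∏ i, (((Finset.Ico (A i) (A i + L i)).filter
        (fun x => x ≡ r i [ZMOD (d : ℤ)])).card : ℝ) - P / (d : ℝ) ^ m| ≤
      2 ^ m * δ * (P / (d : ℝ) ^ m) := by
    intro r
    have hlow : ∀ i, (L i : ℝ) / d * (1 - δ) ≤ (((Finset.Ico (A i) (A i + L i)).filter
        (fun x => x ≡ r i [ZMOD (d : ℤ)])).card : ℝ) ∧ (((Finset.Ico (A i) (A i + L i)).filter
        (fun x => x ≡ r i [ZMOD (d : ℤ)])).card : ℝ) ≤ (L i : ℝ) / d * (1 + δ) := by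
      intro i
      have h1 := count_residue (A i) (L i) d hd (r i)
      have h2 : (1 : ℝ) ≤ (L i : ℝ) / d * δ := by
        have h3 : (L i : ℝ) / d * δ = (L i : ℝ) / M := by
          rw [hδ]; field_simp
        rw [h3, le_div_iff₀ hM0, one_mul]
        exact_mod_cast hM i
      constructor
      · have := h1.1; nlinarith
      · have := h1.2; nlinarith
    have hup : ∏ i, (((Finset.Ico (A i) (A i + L i)).filter
        (fun x => x ≡ r i [ZMOD (d : ℤ)])).card : ℝ) ≤ P / (d : ℝ) ^ m * (1 + δ) ^ m := by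
      calc _ ≤ ∏ i, ((L i : ℝ) / d * (1 + δ)) :=
            Finset.prod_le_prod (fun i _ => by positivity) (fun i _ => (hlow i).2)
        _ = P / (d : ℝ) ^ m * (1 + δ) ^ m := by
            rw [Finset.prod_mul_distrib, Finset.prod_const, Finset.card_univ, hPd]
    have hlo : P / (d : ℝ) ^ m * (1 - δ) ^ m ≤ ∏ i, (((Finset.Ico (A i) (A i + L i)).filter
        (fun x => x ≡ r i [ZMOD (d : ℤ)])).card : ℝ) := by
      calc P / (d : ℝ) ^ m * (1 - δ) ^ m = ∏ i, ((L i : ℝ) / d * (1 - δ)) := by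
            rw [Finset.prod_mul_distrib, Finset.prod_const, Finset.card_univ, hPd]
        _ ≤ _ := Finset.prod_le_prod (fun i _ => mul_nonneg (by positivity) (by linarith))
            (fun i _ => (hlow i).1)
    have hPn : 0 ≤ P / (d : ℝ) ^ m := by
      apply div_nonneg
      · exact Finset.prod_nonneg (fun i _ => by positivity)
      · positivity
    have h5 := one_add_pow_le m δ hδ0 hδ1
    have h6 := one_sub_pow_ge m δ hδ0 hδ1
    rw [abs_le]
    constructor
    · nlinarith [mul_le_mul_of_nonneg_left h6 hPn]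
    · nlinarith [mul_le_mul_of_nonneg_left h5 hPn]
  have hsum : ∑ r ∈ cube ι d, F r *
      ∏ i, (((Finset.Ico (A i) (A i + L i)).filter
        (fun x => x ≡ r i [ZMOD (d : ℤ)])).card : ℝ) - (∑ v ∈ cube ι d, F v) / (d : ℝ) ^ m * P =
      ∑ r ∈ cube ι d, F r * (∏ i, (((Finset.Ico (A i) (A i + L i)).filter
        (fun x => x ≡ r i [ZMOD (d : ℤ)])).card : ℝ) - P / (d : ℝ) ^ m) := by
    rw [div_mul_eq_mul_div, mul_div_assoc, Finset.sum_mul, ← Finset.sum_sub_distrib]
    apply Finset.sum_congr rfl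
    intro r _
    ring
  rw [hsum]
  calc |∑ r ∈ cube ι d, F r * (∏ i, (((Finset.Ico (A i) (A i + L i)).filter
        (fun x => x ≡ r i [ZMOD (d : ℤ)])).card : ℝ) - P / (d : ℝ) ^ m)|
      ≤ ∑ r ∈ cube ι d, F r * (2 ^ m * δ * (P / (d : ℝ) ^ m)) := by
        refine (Finset.abs_sum_le_sum_abs _ _).trans (Finset.sum_le_sum fun r _ => ?_)
        rw [abs_mul, abs_of_nonneg (hF0 r)]
        exact mul_le_mul_of_nonneg_left (hc r) (hF0 r)
    _ = 2 ^ m * δ * ((∑ v ∈ cube ι d, F v) / (d : ℝ) ^ m * P) := by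
        rw [← Finset.sum_mul]; ring

end

end Pool.Agent.Lib.MP_325d88_nt
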