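import Mathlib
import Pool.Agent.Lib.MP_369a91_nt.Weights
import Pool.Agent.Lib.MP_bdd9a3_nt.Mertens
import Pool.Agent.Lib.MP_325d88_nt.Box

/-!
# A fundamental lemma of the sieve for boxes (Brun and Hooley)
-/

set_option linter.unusedSectionVars false

namespace Pool.Agent.Lib.MP_325d88_nt

open Finset Pool.Agent.Lib.MP_369a91_nt

noncomputable section

/-- primes in `(w, z]` -/
def PR (w z : ℕ) : Finset ℕ := (Finset.Ioc w z).filter Nat.Prime

theorem mem_PR {w z p : ℕ} : p ∈ PR w z ↔ w < p ∧ p ≤ z ∧ p.Prime := by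
  unfold PR
  rw [Finset.mem_filter, Finset.mem_Ioc]
  tauto

/-- iterated square roots -/
def zs (z : ℕ) (t : ℕ) : ℕ := Nat.sqrt^[t] z

theorem zs_zero (z : ℕ) : zs z 0 = z := rfl

theorem zs_succ (z t : ℕ) : zs z (t + 1) = Nat.sqrt (zs z t) := by
  unfold zs
  rw [Function.iterate_succ_apply']

theorem zs_succ_le (z t : ℕ) : zs z (t + 1) ≤ zs z t := by
  rw [zs_succ]; exact Nat.sqrt_le_self _

theorem zs_le (z t : ℕ) : zs z t ≤ z := by
  induction t with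
  | zero => exact le_rfl
  | succ t ih => exact (zs_succ_le z t).trans ih

theorem one_le_zs (z : ℕ) (hz : 1 ≤ z) (t : ℕ) : 1 ≤ zs z t := by
  induction t with
  | zero => exact hz
  | succ t ih =>
    rw [zs_succ]
    exact Nat.le_sqrt.2 (by simpa using ih)

theorem log_sqrt_le (n : ℕ) : Nat.log 2 (Nat.sqrt n) ≤ Nat.log 2 n / 2 := by
  rcases Nat.eq_zero_or_pos n with h | h
  · subst h; simp
  · have h0 : Nat.sqrt n ≠ 0 := by
      have : 1 ≤ Nat.sqrt n := Nat.le_sqrt.2 (by omega)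
      omega
    have h1 : 2 ^ Nat.log 2 (Nat.sqrt n) ≤ Nat.sqrt n := Nat.pow_log_le_self 2 h0
    have h2 : (2 ^ Nat.log 2 (Nat.sqrt n)) * (2 ^ Nat.log 2 (Nat.sqrt n)) ≤ n :=
      (Nat.mul_le_mul h1 h1).trans (Nat.sqrt_le n)
    rw [← pow_add] at h2
    have h3 : Nat.log 2 (Nat.sqrt n) + Nat.log 2 (Nat.sqrt n) ≤ Nat.log 2 n :=
      Nat.le_log_of_pow_le (by norm_num) h2
    omega

theorem log_zs_le (z t : ℕ) : Nat.log 2 (zs z t) ≤ Nat.log 2 z / 2 ^ t := by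
  induction t with
  | zero => simp [zs_zero]
  | succ t ih =>
    rw [zs_succ]
    refine (log_sqrt_le _).trans ?_
    rw [pow_succ, ← Nat.div_div_eq_div_mul]
    exact Nat.div_le_div_right ih

/-- number of blocks -/
def NT (z : ℕ) : ℕ := Nat.log 2 (Nat.log 2 z) + 1

theorem zs_NT_le (z : ℕ) : zs z (NT z) ≤ 1 := by
  have h := log_zs_le z (NT z)
  have h1 : Nat.log 2 z < 2 ^ NT z := by
    unfold NT
    exact Nat.lt_pow_succ_log_self (by norm_num) _
  rw [Nat.div_eq_of_lt h1] at h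
  have h2 : Nat.log 2 (zs z (NT z)) = 0 := by omega
  rw [Nat.log_eq_zero_iff] at h2
  omega

/-- blocks of primes -/
def Blk (w z : ℕ) (t : ℕ) : Finset ℕ := PR (max w (zs z (t + 1))) (zs z t)

theorem PiU_Blk (w z t : ℕ) : PiU (Blk w z) t = PR (max w (zs z t)) z := by
  induction t with
  | zero =>
    unfold PiU
    ext p
    simp only [Finset.range_zero, Finset.biUnion_empty, Finset.notMem_empty, false_iff, mem_PR,
      zs_zero]
    rintro ⟨h1, h2, _⟩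
    have := lt_of_le_of_lt (le_max_right w z) h1
    omega
  | succ t ih =>
    rw [PiU_succ, ih]
    ext p
    have h1 := zs_succ_le z t
    have h2 := zs_le z t
    simp only [Finset.mem_union, Blk, mem_PR, max_lt_iff]
    constructor
    · rintro (⟨⟨h3, h4⟩, h5, h6⟩ | ⟨⟨h3, h4⟩, h5, h6⟩)
      · exact ⟨⟨h3, by omega⟩, h5, h6⟩
      · exact ⟨⟨h3, h4⟩, by omega, h6⟩
    · rintro ⟨⟨h3, h4⟩, h5, h6⟩
      by_cases h7 : zs z t < p
      · exact Or.inl ⟨⟨h3, h7⟩, h5, h6⟩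
      · exact Or.inr ⟨⟨h3, h4⟩, by omega, h6⟩

theorem PiU_Blk_NT (w z : ℕ) (hw : 1 ≤ w) : PiU (Blk w z) (NT z) = PR w z := by
  rw [PiU_Blk]
  have h := zs_NT_le z
  rw [max_eq_left (by omega)]

theorem Blk_disj (w z : ℕ) (t : ℕ) : Disjoint (PiU (Blk w z) t) (Blk w z t) := by
  rw [PiU_Blk, Finset.disjoint_left]
  intro p hp hp'
  unfold Blk at hp'
  rw [mem_PR, max_lt_iff] at hp hp'
  omega

theorem sum_inv_block (n : ℕ) : ∑ p ∈ PR (Nat.sqrt n) n, (1 : ℝ) / p ≤ 4 := by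
  by_cases hn : n < 4
  · have h1 : ∀ p ∈ PR (Nat.sqrt n) n, (1 : ℝ) / p ≤ 1 := by
      intro p hp
      rw [mem_PR] at hp
      have hp1 : (1 : ℝ) ≤ p := by exact_mod_cast hp.2.2.one_lt.le
      rw [div_le_one (by linarith)]
      exact hp1
    calc ∑ p ∈ PR (Nat.sqrt n) n, (1 : ℝ) / p ≤ ∑ p ∈ PR (Nat.sqrt n) n, (1 : ℝ) :=
          Finset.sum_le_sum h1
      _ = ((PR (Nat.sqrt n) n).card : ℝ) := by simp
      _ ≤ ((Finset.Ioc (Nat.sqrt n) n).card : ℝ) := by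
          exact_mod_cast Finset.card_filter_le _ _
      _ ≤ 4 := by
          rw [Nat.card_Ioc]
          have : n - Nat.sqrt n ≤ 4 := by omega
          exact_mod_cast this
  · push Not at hn
    have hn0 : (0 : ℝ) < n := by
      have : 0 < n := by omega
      exact_mod_cast this
    have hn4 : (4 : ℝ) ≤ n := by exact_mod_cast hn
    have hlog4 : (0 : ℝ) < Real.log 4 := Real.log_pos (by norm_num)
    have hlog : Real.log 4 ≤ Real.log n := Real.log_le_log (by norm_num) hn4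
    have hlogn : 0 < Real.log n := by linarith
    have h1 : ∀ p ∈ PR (Nat.sqrt n) n, (1 : ℝ) / p ≤ 2 / Real.log n * (Real.log p / p) := by
      intro p hp
      rw [mem_PR] at hp
      have hp0 : (0 : ℝ) < p := by exact_mod_cast hp.2.2.pos
      have h2 : n < p * p := by
        have h3 : n < (Nat.sqrt n + 1) * (Nat.sqrt n + 1) := Nat.lt_succ_sqrt n
        have h4 : Nat.sqrt n + 1 ≤ p := hp.1
        exact lt_of_lt_of_le h3 (Nat.mul_le_mul h4 h4)
      have h3 : (n : ℝ) ≤ (p : ℝ) ^ 2 := by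
        have : n ≤ p ^ 2 := by nlinarith
        exact_mod_cast this
      have h4 : Real.log n ≤ 2 * Real.log p := by
        calc Real.log n ≤ Real.log ((p : ℝ) ^ 2) := Real.log_le_log hn0 h3
          _ = 2 * Real.log p := by rw [Real.log_pow]; norm_num
      rw [div_mul_div_comm, div_le_div_iff₀ hp0 (mul_pos hlogn hp0)]
      nlinarith
    have h5 := Pool.Agent.Lib.MP_bdd9a3_nt.mertens_upper n (by omega)
    calc ∑ p ∈ PR (Nat.sqrt n) n, (1 : ℝ) / p
        ≤ ∑ p ∈ PR (Nat.sqrt n) n, 2 / Real.log n * (Real.log p / p) := Finset.sum_le_sum h1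
      _ = 2 / Real.log n * ∑ p ∈ PR (Nat.sqrt n) n, (Real.log p / p) := by
          rw [Finset.mul_sum]
      _ ≤ 2 / Real.log n * ∑ p ∈ (Finset.Icc 1 n).filter Nat.Prime, (Real.log p / p) := by
          apply mul_le_mul_of_nonneg_left _ (by positivity)
          apply Finset.sum_le_sum_of_subset_of_nonneg
          · intro p hp
            rw [mem_PR] at hp
            rw [Finset.mem_filter, Finset.mem_Icc]
            exact ⟨⟨hp.2.2.one_lt.le, hp.2.1⟩, hp.2.2⟩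
          · intro p _ _
            have := Real.log_natCast_nonneg p
            positivity
      _ ≤ 2 / Real.log n * (Real.log n + Real.log 4) :=
          mul_le_mul_of_nonneg_left h5 (by positivity)
      _ ≤ 2 / Real.log n * (Real.log n + Real.log n) := by
          apply mul_le_mul_of_nonneg_left (by linarith) (by positivity)
      _ = 4 := by field_simp; ring

theorem exp_neg_two_le (x : ℝ) (h0 : 0 ≤ x) (h1 : x ≤ 1 / 2) : Real.exp (-(2 * x)) ≤ 1 - x := by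
  have h2 : 1 + 2 * x ≤ Real.exp (2 * x) := by
    have := Real.add_one_le_exp (2 * x); linarith
  rw [Real.exp_neg, inv_le_comm₀ (Real.exp_pos _) (by linarith)]
  refine le_trans ?_ h2
  rw [inv_le_iff_one_le_mul₀ (by linarith)]
  nlinarith

theorem prod_ge_exp (S : Finset ℕ) (g : ℕ → ℝ) (h0 : ∀ p, 0 ≤ g p) (h1 : ∀ p, g p ≤ 1 / 2)
    (G : ℝ) (hG : ∑ p ∈ S, g p ≤ G) : Real.exp (-(2 * G)) ≤ ∏ p ∈ S, (1 - g p) := by
  calc Real.exp (-(2 * G)) ≤ Real.exp (∑ p ∈ S, -(2 * g p)) := by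
        apply Real.exp_le_exp.2
        rw [Finset.sum_neg_distrib, ← Finset.mul_sum]
        linarith
    _ = ∏ p ∈ S, Real.exp (-(2 * g p)) := by rw [Real.exp_sum]
    _ ≤ ∏ p ∈ S, (1 - g p) := Finset.prod_le_prod (fun p _ => (Real.exp_pos _).le)
        (fun p _ => exp_neg_two_le _ (h0 p) (h1 p))

theorem sum_block_le (w z : ℕ) (κ : ℝ) (hκ : 0 ≤ κ) (g : ℕ → ℝ)
    (h0 : ∀ p, 0 ≤ g p) (hg : ∀ p ∈ PR w z, g p ≤ κ / p) (t : ℕ) :
    ∑ p ∈ Blk w z t, g p ≤ 4 * κ := by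
  have hsub : Blk w z t ⊆ PR (Nat.sqrt (zs z t)) (zs z t) := by
    intro p hp
    unfold Blk at hp
    rw [mem_PR, max_lt_iff] at hp
    rw [mem_PR, ← zs_succ]
    exact ⟨hp.1.2, hp.2.1, hp.2.2⟩
  have hsub2 : Blk w z t ⊆ PR w z := by
    intro p hp
    unfold Blk at hp
    rw [mem_PR, max_lt_iff] at hp
    rw [mem_PR]
    have := zs_le z t
    exact ⟨hp.1.1, by omega, hp.2.2⟩
  calc ∑ p ∈ Blk w z t, g p ≤ ∑ p ∈ Blk w z t, κ * (1 / (p : ℝ)) := by
        apply Finset.sum_le_sum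
        intro p hp
        have := hg p (hsub2 hp)
        rw [mul_one_div]; exact this
    _ = κ * ∑ p ∈ Blk w z t, (1 / (p : ℝ)) := by rw [Finset.mul_sum]
    _ ≤ κ * ∑ p ∈ PR (Nat.sqrt (zs z t)) (zs z t), (1 / (p : ℝ)) := by
        apply mul_le_mul_of_nonneg_left _ hκ
        apply Finset.sum_le_sum_of_subset_of_nonneg hsub
        intro p _ _; positivity
    _ ≤ κ * 4 := mul_le_mul_of_nonneg_left (sum_inv_block _) hκ
    _ = 4 * κ := by ring

theorem level_bound (z : ℕ) (hz : 1 ≤ z) (b T : ℕ) :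
    (∏ i ∈ Finset.range T, (zs z i) ^ (2 * (b + i) + 1)) * (zs z T) ^ (4 * b + 4 * T + 6) ≤
      z ^ (4 * b + 6) := by
  induction T with
  | zero => simp [zs_zero]
  | succ T ih =>
    rw [Finset.prod_range_succ]
    refine le_trans ?_ ih
    rw [mul_assoc]
    apply Nat.mul_le_mul_left
    have h1 : (zs z (T + 1)) ^ 2 ≤ zs z T := by
      rw [zs_succ, sq]; exact Nat.sqrt_le _
    calc (zs z T) ^ (2 * (b + T) + 1) * (zs z (T + 1)) ^ (4 * b + 4 * (T + 1) + 6)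
        = (zs z T) ^ (2 * (b + T) + 1) * ((zs z (T + 1)) ^ 2) ^ (2 * b + 2 * T + 5) := by
          rw [← pow_mul]; congr 2; ring
      _ ≤ (zs z T) ^ (2 * (b + T) + 1) * (zs z T) ^ (2 * b + 2 * T + 5) :=
          Nat.mul_le_mul_left _ (Nat.pow_le_pow_left h1 _)
      _ = (zs z T) ^ (4 * b + 4 * T + 6) := by rw [← pow_add]; congr 1; ring

/-- number of sets of primes with small product -/
theorem card_small_prod (P : Finset ℕ) (hP : ∀ p ∈ P, p.Prime) (D : ℕ) :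
    ((P.powerset.filter (fun S => ∏ p ∈ S, p ≤ D)).card : ℝ) ≤ D := by
  have h : (P.powerset.filter (fun S => ∏ p ∈ S, p ≤ D)).card ≤ (Finset.Icc 1 D).card := by
    apply Finset.card_le_card_of_injOn (fun S => ∏ p ∈ S, p)
    · intro S hS
      rw [Finset.mem_coe, Finset.mem_filter, Finset.mem_powerset] at hS
      rw [Finset.mem_coe, Finset.mem_Icc]
      exact ⟨Finset.prod_pos (fun p hp => (hP p (hS.1 hp)).pos), hS.2⟩
    · intro S hS S' hS' h
      rw [Finset.mem_coe, Finset.mem_filter, Finset.mem_powerset] at hS hS'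
      simp only at h
      have h1 : (∏ p ∈ S, p).primeFactors = S :=
        Nat.primeFactors_prod (fun p hp => hP p (hS.1 hp))
      have h2 : (∏ p ∈ S', p).primeFactors = S' :=
        Nat.primeFactors_prod (fun p hp => hP p (hS'.1 hp))
      rw [← h1, ← h2, h]
  have h2 : (Finset.Icc 1 D).card = D := by simp
  rw [h2] at h
  exact_mod_cast h

/-- admissible sieve parameters: truncation level `b` gives relative accuracy `ε` -/
def Good (κ : ℝ) (b : ℕ) (ε : ℝ) : Prop := ∀ n : ℕ, 2 * b + 1 ≤ n →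
    (4 * κ) ^ n / (n.factorial : ℝ) ≤ ε * Real.exp (-(2 * (4 * κ))) / 2 ^ n

/-- parameters of the sieve: the accuracy beats any power of the level -/
theorem good_ev (κ ε : ℝ) (hκ : 0 ≤ κ) (hε : 0 < ε) (C : ℕ) : ∃ b0 : ℕ, ∀ b : ℕ, b0 ≤ b →
    Good κ b (ε / ((b : ℝ) + 1) ^ C) := by
  set G : ℝ := 4 * κ with hG
  have hG0 : 0 ≤ G := by positivity
  have h := FloorSemiring.tendsto_pow_div_factorial_atTop (2 * G * Real.exp 1)
  have hpos : 0 < ε * Real.exp (-(2 * G)) / ((C.factorial : ℝ) * Real.exp 1) := by positivity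
  have h1 := (h.eventually (gt_mem_nhds hpos)).exists_forall_of_atTop
  obtain ⟨b0, hb0⟩ := h1
  refine ⟨b0, fun b hb n hn => ?_⟩
  have h2 := hb0 n (by omega)
  rw [← hG]
  have hfC : (0 : ℝ) < (C.factorial : ℝ) := by exact_mod_cast Nat.factorial_pos C
  have hfn : (0 : ℝ) < (n.factorial : ℝ) := by exact_mod_cast Nat.factorial_pos n
  have hb1 : (0 : ℝ) < (b : ℝ) + 1 := by positivity
  have h3 : ((b : ℝ) + 1) ^ C ≤ (C.factorial : ℝ) * (Real.exp 1 * Real.exp 1 ^ n) := by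
    have h4 : ((n : ℝ) + 1) ^ C / (C.factorial : ℝ) ≤ Real.exp ((n : ℝ) + 1) :=
      Real.pow_div_factorial_le_exp ((n : ℝ) + 1) (by positivity) C
    have h5 : Real.exp ((n : ℝ) + 1) = Real.exp 1 * Real.exp 1 ^ n := by
      rw [← Real.exp_nat_mul, ← Real.exp_add]
      congr 1
      ring
    rw [h5, div_le_iff₀ hfC] at h4
    have h6 : ((b : ℝ) + 1) ^ C ≤ ((n : ℝ) + 1) ^ C := by
      apply pow_le_pow_left₀ hb1.le
      have : (b : ℝ) ≤ n := by
        have : b ≤ n := by omega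
        exact_mod_cast this
      linarith
    linarith
  rw [lt_div_iff₀ (by positivity), mul_pow, mul_pow] at h2
  have he : ε / ((b : ℝ) + 1) ^ C * Real.exp (-(2 * G)) =
      ε * Real.exp (-(2 * G)) / ((b : ℝ) + 1) ^ C := by ring
  rw [le_div_iff₀ (by positivity), he, le_div_iff₀ (by positivity)]
  have h7 : 0 ≤ G ^ n / (n.factorial : ℝ) * 2 ^ n := by positivity
  calc G ^ n / (n.factorial : ℝ) * 2 ^ n * ((b : ℝ) + 1) ^ C
      ≤ G ^ n / (n.factorial : ℝ) * 2 ^ n * ((C.factorial : ℝ) * (Real.exp 1 * Real.exp 1 ^ n)) :=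
        mul_le_mul_of_nonneg_left h3 h7
    _ = 2 ^ n * G ^ n * Real.exp 1 ^ n / (n.factorial : ℝ) * ((C.factorial : ℝ) * Real.exp 1) := by
        ring
    _ ≤ ε * Real.exp (-(2 * G)) := h2.le

theorem exists_Z (c : ℝ) (hc : 0 ≤ c) : ∃ Z : ℕ, ∀ z : ℕ, Z ≤ z → c * (NT z : ℝ) ≤ Real.log z := by
  -- 2^t dominates
  have h1 : ∃ T0 : ℕ, ∀ T : ℕ, T0 ≤ T → c * ((T : ℝ) + 1) ≤ 2 ^ T * Real.log 2 := by
    have h := tendsto_pow_const_div_const_pow_of_one_lt 1 (show (1 : ℝ) < 2 by norm_num)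
    have hl : (0 : ℝ) < Real.log 2 := Real.log_pos (by norm_num)
    have hpos : (0 : ℝ) < Real.log 2 / (2 * (c + 1)) := by positivity
    obtain ⟨T0, hT0⟩ := (h.eventually (gt_mem_nhds hpos)).exists_forall_of_atTop
    refine ⟨max T0 1, fun T hT => ?_⟩
    have h2 := hT0 T (le_trans (le_max_left _ _) hT)
    have hT1 : 1 ≤ T := le_trans (le_max_right _ _) hT
    have hT1' : (1 : ℝ) ≤ T := by exact_mod_cast hT1
    rw [pow_one, div_lt_div_iff₀ (by positivity) (by positivity)] at h2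
    have h3 : c * ((T : ℝ) + 1) ≤ T * (2 * (c + 1)) := by nlinarith
    nlinarith
  obtain ⟨T0, hT0⟩ := h1
  refine ⟨max 2 (Nat.ceil (Real.exp (c * (T0 + 1)))), fun z hz => ?_⟩
  have hz2 : 2 ≤ z := le_trans (le_max_left _ _) hz
  have hz0 : (0 : ℝ) < z := by
    have : 0 < z := by omega
    exact_mod_cast this
  have hze : Real.exp (c * (T0 + 1)) ≤ z := by
    calc Real.exp (c * (T0 + 1)) ≤ (Nat.ceil (Real.exp (c * (T0 + 1))) : ℝ) := Nat.le_ceil _
      _ ≤ z := by exact_mod_cast le_trans (le_max_right _ _) hz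
  unfold NT
  push_cast
  by_cases hT : T0 ≤ Nat.log 2 (Nat.log 2 z)
  · refine (hT0 _ hT).trans ?_
    have hlog : Nat.log 2 z ≠ 0 := by
      have : 1 ≤ Nat.log 2 z := Nat.le_log_of_pow_le (by norm_num) (by simpa using hz2)
      omega
    have h2 : 2 ^ Nat.log 2 (Nat.log 2 z) ≤ Nat.log 2 z := Nat.pow_log_le_self 2 hlog
    have h3 : 2 ^ Nat.log 2 z ≤ z := Nat.pow_log_le_self 2 (by omega)
    have h4 : ((2 : ℝ) ^ Nat.log 2 (Nat.log 2 z)) ≤ (Nat.log 2 z : ℝ) := by exact_mod_cast h2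
    have h5 : (Nat.log 2 z : ℝ) * Real.log 2 ≤ Real.log z := by
      rw [← Real.log_pow]
      apply Real.log_le_log (by positivity)
      exact_mod_cast h3
    have hl : (0 : ℝ) < Real.log 2 := Real.log_pos (by norm_num)
    nlinarith
  · push Not at hT
    have h2 : c * (T0 + 1) ≤ Real.log z := by
      rw [Real.le_log_iff_exp_le hz0]; exact hze
    have h3 : (Nat.log 2 (Nat.log 2 z) : ℝ) ≤ T0 := by exact_mod_cast hT.le
    nlinarith

variable {ι : Type} [Fintype ι] [DecidableEq ι]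

theorem prod_per (S : Finset ℕ) (hS : ∀ p ∈ S, p.Prime) (F : ℕ → (ι → ℤ) → ℝ)
    (hF : ∀ p ∈ S, Per p (F p)) : Per (∏ p ∈ S, p) (fun v => ∏ p ∈ S, F p v) := by
  intro v v' h
  apply Finset.prod_congr rfl
  intro p hp
  exact (hF p hp).of_dvd (Finset.dvd_prod_of_mem (fun p => p) hp) v v' h

theorem crt_prod (S : Finset ℕ) (hS : ∀ p ∈ S, p.Prime) (F : ℕ → (ι → ℤ) → ℝ)
    (hF : ∀ p ∈ S, Per p (F p)) (g : ℕ → ℝ)
    (hg : ∀ p ∈ S, ∑ v ∈ cube ι p, F p v = g p * (p : ℝ) ^ Fintype.card ι) :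
    ∑ v ∈ cube ι (∏ p ∈ S, p), ∏ p ∈ S, F p v =
      (∏ p ∈ S, g p) * ((∏ p ∈ S, p : ℕ) : ℝ) ^ Fintype.card ι := by
  classical
  induction S using Finset.induction with
  | empty =>
    simp only [Finset.prod_empty, Finset.sum_const, card_cube, one_pow, Nat.cast_one, mul_one,
      smul_eq_mul]
    simp
  | insert q S hq ih =>
    have hSp : ∀ p ∈ S, p.Prime := fun p hp => hS p (Finset.mem_insert_of_mem hp)
    have hqp : q.Prime := hS q (Finset.mem_insert_self q S)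
    have h1 := ih hSp (fun p hp => hF p (Finset.mem_insert_of_mem hp))
      (fun p hp => hg p (Finset.mem_insert_of_mem hp))
    simp_rw [Finset.prod_insert hq]
    have hcop : q.Coprime (∏ p ∈ S, p) := by
      rw [Nat.coprime_prod_right_iff]
      intro p hp
      rw [Nat.coprime_primes hqp (hSp p hp)]
      rintro rfl
      exact hq hp
    have h2 := crt_sum (ι := ι) q (∏ p ∈ S, p) hqp.pos
      (Finset.prod_pos (fun p hp => (hSp p hp).pos)) hcop (F q) (fun v => ∏ p ∈ S, F p v)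
      (hF q (Finset.mem_insert_self q S))
      (prod_per S hSp F (fun p hp => hF p (Finset.mem_insert_of_mem hp)))
    rw [h2, h1, hg q (Finset.mem_insert_self q S)]
    push_cast
    rw [mul_pow]
    ring

/-- weighted evaluation over a box -/
theorem ev_box (wt : Finset ℕ → ℝ) (P : Finset ℕ) (hP : ∀ p ∈ P, p.Prime)
    (hwt1 : ∀ D, |wt D| ≤ 1) (Dm : ℕ) (hDm : 1 ≤ Dm)
    (hwt : ∀ D, D ⊆ P → wt D ≠ 0 → ∏ p ∈ D, p ≤ Dm)
    (A : ι → ℤ) (L : ι → ℕ) (M : ℕ) (hDM : Dm ≤ M) (hM : ∀ i, M ≤ L i)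
    (F : ℕ → (ι → ℤ) → ℝ) (hF : ∀ p ∈ P, Per p (F p)) (hF0 : ∀ p v, 0 ≤ F p v)
    (g : ℕ → ℝ) (hg0 : ∀ p, 0 ≤ g p) (hg1 : ∀ p, g p ≤ 1)
    (hg : ∀ p ∈ P, ∑ v ∈ cube ι p, F p v = g p * (p : ℝ) ^ Fintype.card ι) :
    |∑ v ∈ box A L, ev wt P (fun p => F p v) - ev wt P g * ∏ i, (L i : ℝ)| ≤
      2 ^ Fintype.card ι * ((Dm : ℝ) * Dm / M) * ∏ i, (L i : ℝ) := by
  classical
  have hM0 : (0 : ℝ) < M := by
    have : 0 < M := by omega
    exact_mod_cast this
  unfold ev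
  rw [Finset.sum_comm, Finset.sum_mul, ← Finset.sum_sub_distrib]
  have hterm : ∀ D ∈ P.powerset, |∑ v ∈ box A L, wt D * ∏ q ∈ D, F q v -
      (wt D * ∏ q ∈ D, g q) * ∏ i, (L i : ℝ)| ≤
      if ∏ p ∈ D, p ≤ Dm then 2 ^ Fintype.card ι * ((Dm : ℝ) / M) * ∏ i, (L i : ℝ) else 0 := by
    intro D hD
    rw [Finset.mem_powerset] at hD
    by_cases h0 : wt D = 0
    · rw [h0]
      simp only [zero_mul, Finset.sum_const_zero, sub_zero, abs_zero]
      split_ifs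
      · apply mul_nonneg (by positivity)
        exact Finset.prod_nonneg (fun i _ => by positivity)
      · exact le_rfl
    · have hd := hwt D hD h0
      rw [if_pos hd]
      have hDp : ∀ p ∈ D, p.Prime := fun p hp => hP p (hD hp)
      have hdpos : 0 < ∏ p ∈ D, p := Finset.prod_pos (fun p hp => (hDp p hp).pos)
      have h1 := box_sum A L (∏ p ∈ D, p) M hdpos (hd.trans hDM) hM (fun v => ∏ p ∈ D, F p v)
        (prod_per D hDp F (fun p hp => hF p (hD hp)))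
        (fun v => Finset.prod_nonneg (fun p _ => hF0 p v))
      have h2 := crt_prod (ι := ι) D hDp F (fun p hp => hF p (hD hp)) g
        (fun p hp => hg p (hD hp))
      rw [h2] at h1
      have hd0 : ((∏ p ∈ D, p : ℕ) : ℝ) ^ Fintype.card ι ≠ 0 := by
        apply pow_ne_zero
        exact_mod_cast hdpos.ne'
      rw [mul_div_assoc, div_self hd0, mul_one] at h1
      rw [← Finset.mul_sum, mul_assoc, ← mul_sub, abs_mul]
      have hgD0 : 0 ≤ ∏ p ∈ D, g p := Finset.prod_nonneg (fun p _ => hg0 p)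
      have hgD1 : ∏ p ∈ D, g p ≤ 1 := Finset.prod_le_one (fun p _ => hg0 p) (fun p _ => hg1 p)
      have hL0 : 0 ≤ ∏ i, (L i : ℝ) := Finset.prod_nonneg (fun i _ => by positivity)
      have hdd : ((∏ p ∈ D, p : ℕ) : ℝ) ≤ Dm := by exact_mod_cast hd
      calc |wt D| * |∑ v ∈ box A L, ∏ p ∈ D, F p v - (∏ q ∈ D, g q) * ∏ i, (L i : ℝ)|
          ≤ 1 * (2 ^ Fintype.card ι * (((∏ p ∈ D, p : ℕ) : ℝ) / M) *
            ((∏ p ∈ D, g p) * ∏ i, (L i : ℝ))) :=
            mul_le_mul (hwt1 D) h1 (abs_nonneg _) (by norm_num)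
        _ ≤ 1 * (2 ^ Fintype.card ι * ((Dm : ℝ) / M) * (1 * ∏ i, (L i : ℝ))) := by
            gcongr
        _ = _ := by ring
  calc |∑ D ∈ P.powerset, (∑ v ∈ box A L, wt D * ∏ q ∈ D, F q v -
        (wt D * ∏ q ∈ D, g q) * ∏ i, (L i : ℝ))|
      ≤ ∑ D ∈ P.powerset, (if ∏ p ∈ D, p ≤ Dm then
          2 ^ Fintype.card ι * ((Dm : ℝ) / M) * ∏ i, (L i : ℝ) else 0) := by
        refine (Finset.abs_sum_le_sum_abs _ _).trans (Finset.sum_le_sum fun D hD => ?_)
        exact hterm D hD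
    _ = ((P.powerset.filter (fun D => ∏ p ∈ D, p ≤ Dm)).card : ℝ) *
        (2 ^ Fintype.card ι * ((Dm : ℝ) / M) * ∏ i, (L i : ℝ)) := by
        rw [← Finset.sum_filter, Finset.sum_const, nsmul_eq_mul]
    _ ≤ (Dm : ℝ) * (2 ^ Fintype.card ι * ((Dm : ℝ) / M) * ∏ i, (L i : ℝ)) := by
        apply mul_le_mul_of_nonneg_right (card_small_prod P hP Dm)
        apply mul_nonneg (by positivity)
        exact Finset.prod_nonneg (fun i _ => by positivity)
    _ = _ := by ring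

/-- upper sieve weights with truncation parameter `b` -/
def UU (w z b : ℕ) : Finset ℕ → ℝ := Uw (Blk w z) (fun t => 2 * (b + t)) (NT z)

/-- lower sieve weights with truncation parameter `b` -/
def LL (w z b : ℕ) : Finset ℕ → ℝ := Lw (Blk w z) (fun t => 2 * (b + t)) (NT z)

theorem abs_UU_le (w z b : ℕ) (D : Finset ℕ) : |UU w z b D| ≤ 1 := abs_Uw_le _ _ _ _

theorem abs_LL_le (w z b : ℕ) (D : Finset ℕ) : |LL w z b D| ≤ 1 := abs_Lw_le _ _ _ _

theorem blk_level (z b : ℕ) (hz : 1 ≤ z) :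
    ∏ i ∈ Finset.range (NT z), (zs z i) ^ (2 * (b + i) + 1) ≤ z ^ (4 * b + 6) := by
  refine le_trans ?_ (level_bound z hz b (NT z))
  apply Nat.le_mul_of_pos_right
  exact Nat.pow_pos (one_le_zs z hz (NT z))

theorem blk_le (w z : ℕ) : ∀ t, ∀ q ∈ Blk w z t, q ≤ zs z t := by
  intro t q hq
  unfold Blk at hq
  exact (mem_PR.1 hq).2.1

theorem support_UU (w z b : ℕ) (hw : 1 ≤ w) (hz : 1 ≤ z) (D : Finset ℕ) (hD : D ⊆ PR w z)
    (hne : UU w z b D ≠ 0) : ∏ p ∈ D, p ≤ z ^ (4 * b + 6) := by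
  rw [← PiU_Blk_NT w z hw] at hD
  exact (support_Uw (Blk w z) _ (zs z) (blk_le w z) (one_le_zs z hz) (NT z) D hD hne).trans
    (blk_level z b hz)

theorem support_LL (w z b : ℕ) (hw : 1 ≤ w) (hz : 1 ≤ z) (D : Finset ℕ) (hD : D ⊆ PR w z)
    (hne : LL w z b D ≠ 0) : ∏ p ∈ D, p ≤ z ^ (4 * b + 6) := by
  rw [← PiU_Blk_NT w z hw] at hD
  exact (support_Lw (Blk w z) _ (zs z) (blk_le w z) (one_le_zs z hz) (NT z) D hD hne).trans
    (blk_level z b hz)

theorem UL_ineq (w z b : ℕ) (hw : 1 ≤ w) (h : ℕ → ℝ) (h0 : ∀ q, 0 ≤ h q) (h1 : ∀ q, h q ≤ 1) :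
    ev (LL w z b) (PR w z) h ≤ ∏ p ∈ PR w z, (1 - h p) ∧
    ∏ p ∈ PR w z, (1 - h p) ≤ ev (UU w z b) (PR w z) h := by
  have hre : ∀ t, Even ((fun t => 2 * (b + t)) t) := fun t => even_two_mul _
  have := sieve_ineq (Blk w z) _ (Blk_disj w z) hre h h0 h1 (NT z)
  rw [PiU_Blk_NT w z hw] at this
  exact this

theorem V_ge_pow (w z : ℕ) (hw : 1 ≤ w) (κ : ℝ) (hκ : 0 ≤ κ) (g : ℕ → ℝ) (hg0 : ∀ p, 0 ≤ g p)
    (hg1 : ∀ p, g p ≤ 1 / 2) (hgκ : ∀ p ∈ PR w z, g p ≤ κ / p) :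
    Real.exp (-(2 * (4 * κ))) ^ (NT z) ≤ ∏ p ∈ PR w z, (1 - g p) := by
  have hsum : ∀ t, ∑ p ∈ Blk w z t, g p ≤ 4 * κ := fun t => sum_block_le w z κ hκ g hg0 hgκ t
  have hV : ∀ t, Real.exp (-(2 * (4 * κ))) ≤ ∏ q ∈ Blk w z t, (1 - g q) := fun t =>
    prod_ge_exp _ g hg0 hg1 _ (hsum t)
  have h1 : ∀ t, Real.exp (-(2 * (4 * κ))) ^ t ≤ ∏ q ∈ PiU (Blk w z) t, (1 - g q) := by
    intro t
    induction t with
    | zero => simp [PiU]
    | succ t ih =>
      rw [PiU_succ, Finset.prod_union (Blk_disj w z t), pow_succ]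
      exact mul_le_mul ih (hV t) (Real.exp_pos _).le
        (Finset.prod_nonneg (fun q _ => by linarith [hg1 q]))
  have := h1 (NT z)
  rw [PiU_Blk_NT w z hw] at this
  exact this

/-- mean values of the sieve weights -/
theorem mean_bounds (κ : ℝ) (hκ : 0 ≤ κ) (ε' : ℝ) (hε'0 : 0 < ε') (hε'2 : ε' ≤ 1 / 2)
    (b : ℕ) (hb : Good κ b ε') :
    ∀ w z : ℕ, 1 ≤ w → ∀ g : ℕ → ℝ, (∀ p, 0 ≤ g p) → (∀ p, g p ≤ 1 / 2) →
      (∀ p ∈ PR w z, g p ≤ κ / p) →
      ev (UU w z b) (PR w z) g ≤ (∏ p ∈ PR w z, (1 - g p)) * (1 + 2 * ε') ∧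
      (∏ p ∈ PR w z, (1 - g p)) * (1 - ε') ≤ ev (LL w z b) (PR w z) g := by
  unfold Good at hb
  set G : ℝ := 4 * κ with hG
  have hG0 : 0 ≤ G := by positivity
  intro w z hw g hg0 hg1 hgκ
  set T := NT z with hT
  set r : ℕ → ℕ := fun t => 2 * (b + t) with hr
  have hre : ∀ t, Even (r t) := fun t => by
    rw [hr]; exact even_two_mul _
  set P := PR w z with hP
  have hPU : PiU (Blk w z) T = P := PiU_Blk_NT w z hw
  have hdis := Blk_disj w z
  have hg1' : ∀ p, g p ≤ 1 := fun p => (hg1 p).trans (by norm_num)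
  have hsum : ∀ t, ∑ p ∈ Blk w z t, g p ≤ G := fun t => sum_block_le w z κ hκ g hg0 hgκ t
  set vv : ℝ := Real.exp (-(2 * G)) with hvv
  have hvv0 : 0 < vv := Real.exp_pos _
  have hV : ∀ t, vv ≤ ∏ q ∈ Blk w z t, (1 - g q) := fun t =>
    prod_ge_exp _ g hg0 hg1 G (hsum t)
  have hes : ∀ t < T, es (Blk w z t) g (r t + 1) ≤ (ε' / 2 ^ (t + 1)) * vv := by
    intro t _
    have h1 := es_le (Blk w z t) g hg0 (r t + 1)
    have hs0 : 0 ≤ ∑ p ∈ Blk w z t, g p := Finset.sum_nonneg (fun p _ => hg0 p)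
    have h2 : (∑ q ∈ Blk w z t, g q) ^ (r t + 1) / ((r t + 1).factorial : ℝ) ≤
        G ^ (r t + 1) / ((r t + 1).factorial : ℝ) := by
      apply div_le_div_of_nonneg_right _ (by positivity)
      exact pow_le_pow_left₀ hs0 (hsum t) _
    have h3 := hb (r t + 1) (by rw [hr]; simp only; omega)
    refine (h1.trans (h2.trans h3)).trans ?_
    have h4 : (2 : ℝ) ^ (t + 1) ≤ 2 ^ (r t + 1) := by
      apply pow_le_pow_right₀ (by norm_num)
      rw [hr]; simp only; omega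
    rw [div_mul_eq_mul_div]
    apply div_le_div_of_nonneg_left (by positivity) (by positivity) h4
  have hmean := mean_lower (Blk w z) r hdis hre g hg0 hg1' vv hvv0 hV T (fun t => ε' / 2 ^ (t + 1))
    hes T le_rfl
  have hsi := sieve_ineq (Blk w z) r hdis hre g hg0 hg1' T
  rw [hPU] at hmean hsi
  have hsumε : ∑ i ∈ Finset.range T, ε' / 2 ^ (i + 1) ≤ ε' := by
    have h1 : ∀ n : ℕ, ∑ i ∈ Finset.range n, ε' / 2 ^ (i + 1) = ε' * (1 - 1 / 2 ^ n) := by
      intro n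
      induction n with
      | zero => simp
      | succ n ih =>
        rw [Finset.sum_range_succ, ih, pow_succ]
        field_simp
        ring
    rw [h1]
    have : (0 : ℝ) ≤ 1 / 2 ^ T := by positivity
    nlinarith
  change ev (Uw (Blk w z) r T) P g ≤ _ ∧ _ ≤ ev (Lw (Blk w z) r T) P g
  set V : ℝ := ∏ p ∈ P, (1 - g p) with hVdef
  set eU := ev (Uw (Blk w z) r T) P g with heU
  set eL := ev (Lw (Blk w z) r T) P g with heL
  have heU0 : 0 < eU := lt_of_lt_of_le (pow_pos hvv0 T) hmean.1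
  have h2 : eU * (1 - ε') ≤ eU * (1 - ∑ i ∈ Finset.range T, ε' / 2 ^ (i + 1)) :=
    mul_le_mul_of_nonneg_left (by linarith) heU0.le
  constructor
  · have h1 : eU * (1 - ε') ≤ V := h2.trans (hmean.2.trans hsi.1)
    have h3 : 1 ≤ (1 - ε') * (1 + 2 * ε') := by nlinarith
    have h4 : eU * 1 ≤ eU * ((1 - ε') * (1 + 2 * ε')) := mul_le_mul_of_nonneg_left h3 heU0.le
    have h5 : eU * (1 - ε') * (1 + 2 * ε') ≤ V * (1 + 2 * ε') :=
      mul_le_mul_of_nonneg_right h1 (by linarith)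
    linarith
  · have h3 : V * (1 - ε') ≤ eU * (1 - ε') := mul_le_mul_of_nonneg_right hsi.2 (by linarith)
    exact h3.trans (h2.trans hmean.2)

/-- **Fundamental lemma for boxes.** -/
theorem box_sieve (m : ℕ) (κ : ℝ) (hκ : 0 ≤ κ) (ε' : ℝ) (hε'0 : 0 < ε') (hε'2 : ε' ≤ 1 / 2)
    (b : ℕ) (hb : Good κ b ε') :
    ∃ Z0 : ℕ, ∀ (ι : Type) [Fintype ι] [DecidableEq ι], Fintype.card ι = m →
      ∀ (w z M : ℕ), 1 ≤ w → Z0 ≤ z → z ^ (8 * b + 15) ≤ M →
      ∀ (A : ι → ℤ) (L : ι → ℕ), (∀ i, M ≤ L i) →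
      ∀ (F : ℕ → (ι → ℤ) → ℝ), (∀ p ∈ PR w z, Per p (F p)) → (∀ p v, F p v = 0 ∨ F p v = 1) →
      ∀ (g : ℕ → ℝ), (∀ p, 0 ≤ g p) → (∀ p, g p ≤ 1 / 2) → (∀ p ∈ PR w z, g p ≤ κ / p) →
        (∀ p ∈ PR w z, ∑ v ∈ cube ι p, F p v = g p * (p : ℝ) ^ m) →
      |∑ v ∈ box A L, ∏ p ∈ PR w z, (1 - F p v) - (∏ p ∈ PR w z, (1 - g p)) * ∏ i, (L i : ℝ)| ≤
        (3 * ε') * ((∏ p ∈ PR w z, (1 - g p)) * ∏ i, (L i : ℝ)) := by
  have hb := mean_bounds κ hκ ε' hε'0 hε'2 b hb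
  obtain ⟨Z1, hZ1⟩ := exists_Z (2 * (4 * κ)) (by positivity)
  obtain ⟨Z2, hZ2⟩ := exists_nat_gt ((2 : ℝ) ^ (m + 1) / ε')
  refine ⟨max (max Z1 Z2) 1, ?_⟩
  intro ι _ _ hm w z M hw hz hzM A L hL F hF hF01 g hg0 hg1 hgκ hg
  have hzZ1 : Z1 ≤ z := le_trans (le_trans (le_max_left _ _) (le_max_left _ _)) hz
  have hzZ2 : Z2 ≤ z := le_trans (le_trans (le_max_right _ _) (le_max_left _ _)) hz
  have hz1 : 1 ≤ z := le_trans (le_max_right _ _) hz
  have hzr : (1 : ℝ) ≤ z := by exact_mod_cast hz1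
  have hmb := hb w z hw g hg0 hg1 hgκ
  set P := PR w z with hP
  have hPp : ∀ p ∈ P, p.Prime := fun p hp => (mem_PR.1 hp).2.2
  set Dm : ℕ := z ^ (4 * b + 6) with hDm
  have hDm1 : 1 ≤ Dm := Nat.one_le_pow _ _ hz1
  have hg1' : ∀ p, g p ≤ 1 := fun p => (hg1 p).trans (by norm_num)
  have hDmM : Dm ≤ M := by
    refine le_trans ?_ hzM
    rw [hDm]
    exact Nat.pow_le_pow_right hz1 (by omega)
  have hF0 : ∀ p v, 0 ≤ F p v := by
    intro p v; rcases hF01 p v with h | h <;> rw [h]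
    norm_num
  have hF1 : ∀ p v, F p v ≤ 1 := by
    intro p v; rcases hF01 p v with h | h <;> rw [h]
    norm_num
  have hgm : ∀ p ∈ P, ∑ v ∈ cube ι p, F p v = g p * (p : ℝ) ^ Fintype.card ι := by
    rw [hm]; exact hg
  have hU := ev_box (UU w z b) P hPp (abs_UU_le w z b) Dm hDm1
    (fun D hD hne => support_UU w z b hw hz1 D hD hne) A L M hDmM hL F hF hF0
    g hg0 hg1' hgm
  have hLb := ev_box (LL w z b) P hPp (abs_LL_le w z b) Dm hDm1
    (fun D hD hne => support_LL w z b hw hz1 D hD hne) A L M hDmM hL F hF hF0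
    g hg0 hg1' hgm
  set V : ℝ := ∏ p ∈ P, (1 - g p) with hVdef
  have hVV : Real.exp (-(2 * (4 * κ))) ^ (NT z) ≤ V := V_ge_pow w z hw κ hκ g hg0 hg1 hgκ
  have hVz : 1 / (z : ℝ) ≤ V := by
    refine le_trans ?_ hVV
    have h1 : 1 / (z : ℝ) = Real.exp (-Real.log z) := by
      rw [Real.exp_neg, Real.exp_log (show (0 : ℝ) < z by linarith), one_div]
    rw [← Real.exp_nat_mul, h1]
    apply Real.exp_le_exp.2
    have := hZ1 z hzZ1
    nlinarith
  have hV0 : 0 < V := lt_of_lt_of_le (by positivity) hVz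
  -- error term
  have hM0 : (0 : ℝ) < M := by
    have : 0 < M := by omega
    exact_mod_cast this
  have hErr : 2 ^ Fintype.card ι * ((Dm : ℝ) * Dm / M) ≤ ε' * V := by
    rw [hm]
    have h1 : ((z : ℝ)) ^ (8 * b + 15) ≤ M := by exact_mod_cast hzM
    have h2 : (Dm : ℝ) * Dm = (z : ℝ) ^ (8 * b + 12) := by
      rw [hDm]; push_cast; rw [← pow_add]; congr 1; ring
    have h3 : (Dm : ℝ) * Dm / M ≤ 1 / (z : ℝ) ^ 3 := by
      rw [h2, div_le_div_iff₀ hM0 (by positivity), one_mul, ← pow_add]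
      exact h1
    have h4 : (2 : ℝ) ^ (m + 1) / ε' ≤ z := hZ2.le.trans (by exact_mod_cast hzZ2)
    rw [div_le_iff₀ hε'0] at h4
    have h5 : (2 : ℝ) ^ m * (1 / (z : ℝ) ^ 3) ≤ ε' * (1 / z) := by
      rw [mul_one_div, mul_one_div, div_le_div_iff₀ (by positivity) (by positivity)]
      have h6 : (2 : ℝ) ^ m ≤ z * ε' := by
        refine le_trans ?_ h4
        rw [pow_succ]
        have : (0 : ℝ) < 2 ^ m := by positivity
        linarith
      calc (2 : ℝ) ^ m * z ≤ z * ε' * z := mul_le_mul_of_nonneg_right h6 (by linarith)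
        _ ≤ ε' * z ^ 3 := by
          have h7 : (z : ℝ) ^ 2 ≤ z ^ 3 := pow_le_pow_right₀ hzr (by norm_num)
          nlinarith
    calc (2 : ℝ) ^ m * ((Dm : ℝ) * Dm / M) ≤ 2 ^ m * (1 / (z : ℝ) ^ 3) :=
          mul_le_mul_of_nonneg_left h3 (by positivity)
      _ ≤ ε' * (1 / z) := h5
      _ ≤ ε' * V := mul_le_mul_of_nonneg_left hVz hε'0.le
  set vol : ℝ := ∏ i, (L i : ℝ) with hvol
  have hvol0 : 0 ≤ vol := Finset.prod_nonneg (fun i _ => by positivity)
  have hErr' : 2 ^ Fintype.card ι * ((Dm : ℝ) * Dm / M) * vol ≤ ε' * V * vol :=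
    mul_le_mul_of_nonneg_right hErr hvol0
  have hS1 : ∑ v ∈ box A L, ∏ p ∈ P, (1 - F p v) ≤
      ∑ v ∈ box A L, ev (UU w z b) P (fun p => F p v) :=
    Finset.sum_le_sum (fun v _ => (UL_ineq w z b hw _ (fun p => hF0 p v) (fun p => hF1 p v)).2)
  have hS2 : ∑ v ∈ box A L, ev (LL w z b) P (fun p => F p v) ≤
      ∑ v ∈ box A L, ∏ p ∈ P, (1 - F p v) :=
    Finset.sum_le_sum (fun v _ => (UL_ineq w z b hw _ (fun p => hF0 p v) (fun p => hF1 p v)).1)
  rw [abs_le] at hU hLb ⊢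
  have hVvol : 0 ≤ V * vol := by positivity
  have e1 := mul_le_mul_of_nonneg_right hmb.1 hvol0
  have e2 := mul_le_mul_of_nonneg_right hmb.2 hvol0
  have f1 := hLb.1
  have f2 := hU.2
  have f3 : V * (1 + 2 * ε') * vol = V * vol + 2 * ε' * (V * vol) := by ring
  have f4 : V * (1 - ε') * vol = V * vol - ε' * (V * vol) := by ring
  have f5 : ε' * V * vol = ε' * (V * vol) := by ring
  rw [f3] at e1
  rw [f4] at e2
  rw [f5] at hErr'
  constructor
  · linarith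
  · linarith

end

end Pool.Agent.Lib.MP_325d88_nt
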