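import Mathlib

/-!
Assembly of a block of `k` consecutive integers with large smooth parts, by the Chinese
remainder theorem, from a set `M` of moved primes, a set `T` of tokens and a covering map.
-/

namespace Pool.Agent.Lib.MP_325d88_nt

open Finset

/-- The part of `m` composed of primes below `k`. -/
def smoothPart (k m : ℕ) : ℕ :=
  ∏ p ∈ (Finset.range k).filter (fun p => Nat.Prime p), p ^ (m.factorization p)

theorem smoothPart_def (k m : ℕ) : smoothPart k m =
    ∏ p ∈ (Finset.range k).filter (fun p => Nat.Prime p), p ^ (m.factorization p) := rfl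

/-- Covering lemma. The primes of `M` are moved; every `m ∈ (L, L + k]` which is not a token has
only prime factors below `k` outside `M`; the token `t` is covered by the moved prime `cov t`. -/
theorem exists_cover {k L : ℕ} {M T : Finset ℕ}
    (hM : ∀ p ∈ M, p.Prime ∧ p < k)
    (hT : ∀ m, L < m → m ≤ L + k → m ∉ T → ∀ p, p.Prime → p ∣ m → p < k ∧ p ∉ M)
    {cov : ℕ → ℕ} (hcov : ∀ t ∈ T, cov t ∈ M)
    (hmod : ∀ t ∈ T, ∀ t' ∈ T, cov t = cov t' → t ≡ t' [MOD cov t]) :
    ∃ n : ℕ, ∀ i ∈ Finset.Icc 1 k,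
      (L + i ∉ T → L + i ≤ ∏ p ∈ (Finset.range k).filter (fun p => Nat.Prime p),
        p ^ ((n + i).factorization p)) ∧
      (L + i ∈ T → cov (L + i) ≤ ∏ p ∈ (Finset.range k).filter (fun p => Nat.Prime p),
        p ^ ((n + i).factorization p)) := by
  classical
  set P : Finset ℕ := (Finset.range k).filter (fun p => Nat.Prime p) with hP
  have hPprime : ∀ p ∈ P, p.Prime := fun p hp => (Finset.mem_filter.mp hp).2
  have hMP : ∀ p ∈ M, p ∈ P := fun p hp =>
    Finset.mem_filter.mpr ⟨Finset.mem_range.mpr (hM p hp).2, (hM p hp).1⟩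
  -- the chosen token of each moved prime
  let tk : ℕ → ℕ := fun p => if h : ∃ t ∈ T, cov t = p then h.choose else 0
  have htk : ∀ t ∈ T, tk (cov t) ∈ T ∧ cov (tk (cov t)) = cov t := by
    intro t ht
    have h : ∃ t' ∈ T, cov t' = cov t := ⟨t, ht, rfl⟩
    have h2 : tk (cov t) = h.choose := dif_pos h
    rw [h2]
    exact h.choose_spec
  let E : ℕ := L + k + 1
  let r : ℕ → ℕ := fun p => if p ∈ M then L + (p - 1) * tk p else L
  let s : ℕ → ℕ := fun p => if p ∈ M then p else p ^ E
  have hs0 : ∀ p ∈ P, s p ≠ 0 := by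
    intro p hp
    have := (hPprime p hp).pos
    simp only [s]
    split_ifs
    · omega
    · exact (pow_pos this _).ne'
  have hpp : Set.Pairwise (P : Set ℕ) (Function.onFun Nat.Coprime s) := by
    intro p hp q hq hpq
    have h : Nat.Coprime p q :=
      (Nat.coprime_primes (hPprime p hp) (hPprime q hq)).mpr hpq
    simp only [Function.onFun, s]
    split_ifs
    · exact h
    · exact h.pow_right _
    · exact h.pow_left _
    · exact h.pow _ _
  obtain ⟨n, hn⟩ := Nat.chineseRemainderOfFinset r s P hs0 hpp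
  refine ⟨n, fun i hi => ?_⟩
  obtain ⟨hi1, hik⟩ := Finset.mem_Icc.mp hi
  have hni : n + i ≠ 0 := by omega
  constructor
  · intro hLi
    have hLi0 : L + i ≠ 0 := by omega
    have hprimes := hT (L + i) (by omega) (by omega) hLi
    have h1 : L + i = ∏ p ∈ P, p ^ ((L + i).factorization p) := by
      conv_lhs => rw [← Nat.prod_factorization_pow_eq_self hLi0]
      rw [Finsupp.prod_of_support_subset (s := P)]
      · intro p hp
        have hp' := Nat.prime_of_mem_primeFactors (Nat.support_factorization (L + i) ▸ hp)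
        have hpd := Nat.dvd_of_mem_primeFactors (Nat.support_factorization (L + i) ▸ hp)
        exact Finset.mem_filter.mpr ⟨Finset.mem_range.mpr (hprimes p hp' hpd).1, hp'⟩
      · intro p _
        exact pow_zero p
    rw [h1]
    refine Finset.prod_le_prod' fun p hp => ?_
    have hpp' := hPprime p hp
    refine Nat.pow_le_pow_right hpp'.pos ?_
    by_cases hpd : p ∣ L + i
    · have hpM : p ∉ M := (hprimes p hpp' hpd).2
      have hmodp : n ≡ L [MOD p ^ E] := by
        have := hn p hp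
        simpa only [r, s, if_neg hpM] using this
      have hmod2 : n + i ≡ L + i [MOD p ^ E] := hmodp.add_right i
      have hlt : (L + i).factorization p ≤ E := by
        have h3 := Nat.factorization_lt p hLi0
        omega
      have hdvd : p ^ ((L + i).factorization p) ∣ L + i := Nat.ordProj_dvd _ _
      have hmod3 : n + i ≡ L + i [MOD p ^ ((L + i).factorization p)] :=
        hmod2.of_dvd (pow_dvd_pow p hlt)
      have hdvd2 : p ^ ((L + i).factorization p) ∣ n + i :=
        (hmod3.dvd_iff (dvd_refl _)).mpr hdvd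
      exact (hpp'.pow_dvd_iff_le_factorization hni).mp hdvd2
    · rw [Nat.factorization_eq_zero_of_not_dvd hpd]
      exact Nat.zero_le _
  · intro hLi
    set p := cov (L + i) with hp
    have hpM : p ∈ M := hcov _ hLi
    have hpp' : p.Prime := (hM p hpM).1
    have hpP : p ∈ P := hMP p hpM
    obtain ⟨hT1, hT2⟩ := htk (L + i) hLi
    rw [← hp] at hT1 hT2
    have hmodp : n ≡ L + (p - 1) * tk p [MOD p] := by
      have := hn p hpP
      simpa only [r, s, if_pos hpM] using this
    have h1 : n + tk p ≡ L [MOD p] := by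
      have h2 : n + tk p ≡ L + (p - 1) * tk p + tk p [MOD p] := hmodp.add_right _
      have h3 : L + (p - 1) * tk p + tk p = L + p * tk p := by
        obtain ⟨q, hq⟩ : ∃ q, p = q + 1 := ⟨p - 1, by have := hpp'.pos; omega⟩
        rw [hq, Nat.add_sub_cancel]
        ring
      rw [h3] at h2
      have h4 : L + p * tk p ≡ L [MOD p] := by
        simp [Nat.ModEq]
      exact h2.trans h4
    have h2 : tk p ≡ L + i [MOD p] := by
      have := hmod (tk p) hT1 (L + i) hLi hT2
      rwa [hT2] at this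
    have h3 : n + (L + i) ≡ L [MOD p] := ((h2.symm).add_left n).trans h1
    have h4 : (n + i) + L ≡ 0 + L [MOD p] := by
      have e1 : (n + i) + L = n + (L + i) := by ring
      rw [e1, zero_add]
      exact h3
    have h5 : n + i ≡ 0 [MOD p] := Nat.ModEq.add_right_cancel' L h4
    have h6 : p ∣ n + i := (Nat.modEq_zero_iff_dvd).mp h5
    have h7 : 1 ≤ (n + i).factorization p :=
      (hpp'.dvd_iff_one_le_factorization hni).mp h6
    calc p = p ^ 1 := (pow_one p).symm
      _ ≤ p ^ ((n + i).factorization p) := Nat.pow_le_pow_right hpp'.pos h7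
      _ ≤ ∏ q ∈ P, q ^ ((n + i).factorization q) :=
          Finset.single_le_prod' (f := fun q => q ^ ((n + i).factorization q))
            (fun q hq => Nat.one_le_pow _ _ (hPprime q hq).pos) hpP

/-- Combinatorial covering map: `D` is a set of doubles, the moved prime `c d` covers both tokens
`t₁ d` and `t₂ d`; every other token gets a moved prime of its own. -/
theorem exists_cov {ι : Type*} {M T : Finset ℕ} (D : Finset ι) (c t₁ t₂ : ι → ℕ)
    (hc : ∀ d ∈ D, c d ∈ M) (hcinj : Set.InjOn c (D : Set ι))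
    (h₁ : ∀ d ∈ D, t₁ d ∈ T) (h₂ : ∀ d ∈ D, t₂ d ∈ T)
    (h₁inj : Set.InjOn t₁ (D : Set ι)) (h₂inj : Set.InjOn t₂ (D : Set ι))
    (hne : ∀ d ∈ D, ∀ d' ∈ D, t₁ d ≠ t₂ d')
    (hmod : ∀ d ∈ D, t₁ d ≡ t₂ d [MOD c d])
    (hcard : T.card ≤ M.card + D.card) :
    ∃ cov : ℕ → ℕ, (∀ t ∈ T, cov t ∈ M) ∧
      ∀ t ∈ T, ∀ t' ∈ T, cov t = cov t' → t ≡ t' [MOD cov t] := by
  classical
  set C : Finset ℕ := D.image c with hC
  set U : Finset ℕ := D.image t₁ ∪ D.image t₂ with hU
  have hCM : C ⊆ M := by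
    intro p hp
    obtain ⟨d, hd, rfl⟩ := Finset.mem_image.mp hp
    exact hc d hd
  have hUT : U ⊆ T := by
    intro t ht
    rcases Finset.mem_union.mp ht with h | h
    · obtain ⟨d, hd, rfl⟩ := Finset.mem_image.mp h
      exact h₁ d hd
    · obtain ⟨d, hd, rfl⟩ := Finset.mem_image.mp h
      exact h₂ d hd
  have hCc : C.card = D.card := Finset.card_image_of_injOn hcinj
  have hdisj : Disjoint (D.image t₁) (D.image t₂) := by
    rw [Finset.disjoint_left]
    intro t ht1 ht2
    obtain ⟨d, hd, h1⟩ := Finset.mem_image.mp ht1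
    obtain ⟨d', hd', h2⟩ := Finset.mem_image.mp ht2
    exact hne d hd d' hd' (h1.trans h2.symm)
  have hUc : U.card = 2 * D.card := by
    rw [hU, Finset.card_union_of_disjoint hdisj, Finset.card_image_of_injOn h₁inj,
      Finset.card_image_of_injOn h₂inj]
    ring
  have hle : (T \ U).card ≤ (M \ C).card := by
    rw [Finset.card_sdiff_of_subset hUT, Finset.card_sdiff_of_subset hCM, hCc, hUc]
    omega
  obtain ⟨e⟩ : Nonempty ((T \ U : Finset ℕ) ↪ (M \ C : Finset ℕ)) := by
    refine Function.Embedding.nonempty_of_card_le ?_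
    simpa using hle
  -- the double of a token of `U`
  have hex : ∀ t ∈ U, ∃ d ∈ D, t = t₁ d ∨ t = t₂ d := by
    intro t ht
    rcases Finset.mem_union.mp ht with h | h
    · obtain ⟨d, hd, rfl⟩ := Finset.mem_image.mp h
      exact ⟨d, hd, Or.inl rfl⟩
    · obtain ⟨d, hd, rfl⟩ := Finset.mem_image.mp h
      exact ⟨d, hd, Or.inr rfl⟩
  let cov : ℕ → ℕ := fun t =>
    if h : t ∈ U then c (hex t h).choose
    else if h' : t ∈ T \ U then (e ⟨t, h'⟩ : ℕ) else 0
  have hcovU : ∀ t ∈ U, ∃ d ∈ D, cov t = c d ∧ (t = t₁ d ∨ t = t₂ d) := by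
    intro t ht
    refine ⟨(hex t ht).choose, (hex t ht).choose_spec.1, dif_pos ht, (hex t ht).choose_spec.2⟩
  have hcovT : ∀ t (h : t ∈ T \ U), cov t = (e ⟨t, h⟩ : ℕ) := by
    intro t h
    have h1 : t ∉ U := (Finset.mem_sdiff.mp h).2
    simp only [cov, dif_neg h1, dif_pos h]
  have hcovTmem : ∀ t, t ∈ T \ U → cov t ∈ M \ C := by
    intro t h
    rw [hcovT t h]
    exact (e ⟨t, h⟩).2
  have hcovUmem : ∀ t, t ∈ U → cov t ∈ C := by
    intro t h
    obtain ⟨d, hd, h1, _⟩ := hcovU t h
    rw [h1]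
    exact Finset.mem_image_of_mem c hd
  refine ⟨cov, fun t ht => ?_, fun t ht t' ht' htt' => ?_⟩
  · by_cases h : t ∈ U
    · exact hCM (hcovUmem t h)
    · exact (Finset.mem_sdiff.mp (hcovTmem t (Finset.mem_sdiff.mpr ⟨ht, h⟩))).1
  · by_cases h : t ∈ U
    · by_cases h' : t' ∈ U
      · obtain ⟨d, hd, h1, h2⟩ := hcovU t h
        obtain ⟨d', hd', h1', h2'⟩ := hcovU t' h'
        have hdd : d = d' := hcinj hd hd' (by rw [← h1, ← h1', htt'])
        subst hdd
        rw [h1]
        rcases h2 with rfl | rfl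
        · rcases h2' with rfl | rfl
          · exact Nat.ModEq.refl _
          · exact hmod d hd
        · rcases h2' with rfl | rfl
          · exact (hmod d hd).symm
          · exact Nat.ModEq.refl _
      · exfalso
        have h3 := hcovUmem t h
        have h4 := hcovTmem t' (Finset.mem_sdiff.mpr ⟨ht', h'⟩)
        rw [htt'] at h3
        exact (Finset.mem_sdiff.mp h4).2 h3
    · have hs : t ∈ T \ U := Finset.mem_sdiff.mpr ⟨ht, h⟩
      by_cases h' : t' ∈ U
      · exfalso
        have h3 := hcovUmem t' h'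
        have h4 := hcovTmem t hs
        rw [← htt'] at h3
        exact (Finset.mem_sdiff.mp h4).2 h3
      · have hs' : t' ∈ T \ U := Finset.mem_sdiff.mpr ⟨ht', h'⟩
        rw [hcovT t hs, hcovT t' hs'] at htt'
        have := e.injective (Subtype.ext htt')
        have h5 : t = t' := congrArg Subtype.val this
        rw [h5]

/-- Both parts together, in the form needed at the end: all smooth parts are at least `B`. -/
theorem exists_block {ι : Type*} {k L B : ℕ} {M T : Finset ℕ}
    (hM : ∀ p ∈ M, p.Prime ∧ p < k)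
    (hT : ∀ m, L < m → m ≤ L + k → m ∉ T → ∀ p, p.Prime → p ∣ m → p < k ∧ p ∉ M)
    (D : Finset ι) (c t₁ t₂ : ι → ℕ)
    (hc : ∀ d ∈ D, c d ∈ M) (hcinj : Set.InjOn c (D : Set ι))
    (h₁ : ∀ d ∈ D, t₁ d ∈ T) (h₂ : ∀ d ∈ D, t₂ d ∈ T)
    (h₁inj : Set.InjOn t₁ (D : Set ι)) (h₂inj : Set.InjOn t₂ (D : Set ι))
    (hne : ∀ d ∈ D, ∀ d' ∈ D, t₁ d ≠ t₂ d')
    (hmod : ∀ d ∈ D, t₁ d ≡ t₂ d [MOD c d])
    (hcard : T.card ≤ M.card + D.card)
    (hBL : B ≤ L + 1) (hBM : ∀ p ∈ M, B ≤ p) :
    ∃ n : ℕ, ∀ i ∈ Finset.Icc 1 k,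
      B ≤ ∏ p ∈ (Finset.range k).filter (fun p => Nat.Prime p),
        p ^ ((n + i).factorization p) := by
  obtain ⟨cov, hcov, hcmod⟩ := exists_cov D c t₁ t₂ hc hcinj h₁ h₂ h₁inj h₂inj hne hmod hcard
  obtain ⟨n, hn⟩ := exists_cover hM hT hcov hcmod
  refine ⟨n, fun i hi => ?_⟩
  obtain ⟨hi1, hik⟩ := Finset.mem_Icc.mp hi
  by_cases h : L + i ∈ T
  · exact (hBM _ (hcov _ h)).trans ((hn i hi).2 h)
  · exact (by omega : B ≤ L + i).trans ((hn i hi).1 h)

end Pool.Agent.Lib.MP_325d88_nt
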