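import Mathlib

/-!
# Exponential sums: basics
-/

namespace Pool.Agent.Lib.MP_325d88_nt

open Finset

noncomputable section

/-- `exp (2 π i x)` -/
def ee (x : ℝ) : ℂ := Complex.exp ((2 * Real.pi * x : ℝ) * Complex.I)

theorem norm_ee (x : ℝ) : ‖ee x‖ = 1 := by
  unfold ee
  exact Complex.norm_exp_ofReal_mul_I _

theorem ee_add (x y : ℝ) : ee (x + y) = ee x * ee y := by
  unfold ee
  rw [← Complex.exp_add]
  congr 1
  push_cast
  ring

theorem ee_zero : ee 0 = 1 := by
  unfold ee; simp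

theorem ee_int (n : ℤ) : ee (n : ℝ) = 1 := by
  unfold ee
  rw [Complex.exp_eq_one_iff]
  exact ⟨n, by push_cast; ring⟩

theorem ee_nat (n : ℕ) : ee (n : ℝ) = 1 := by
  have := ee_int (n : ℤ)
  simpa using this

theorem ee_add_int (x : ℝ) (n : ℤ) : ee (x + n) = ee x := by
  rw [ee_add, ee_int, mul_one]

theorem ee_nat_mul (n : ℕ) (x : ℝ) : ee (n * x) = ee x ^ n := by
  unfold ee
  rw [← Complex.exp_nat_mul]
  congr 1
  push_cast
  ring

theorem ee_neg (x : ℝ) : ee (-x) = (starRingEnd ℂ) (ee x) := by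
  unfold ee
  rw [← Complex.exp_conj]
  congr 1
  rw [map_mul, Complex.conj_ofReal, Complex.conj_I]
  push_cast
  ring

theorem ee_mul_conj (x : ℝ) : ee x * (starRingEnd ℂ) (ee x) = 1 := by
  rw [← ee_neg, ← ee_add, add_neg_cancel, ee_zero]

/-- distance to the nearest integer -/
def nd (x : ℝ) : ℝ := |x - round x|

theorem nd_nonneg (x : ℝ) : 0 ≤ nd x := abs_nonneg _

theorem nd_le_half (x : ℝ) : nd x ≤ 1 / 2 := abs_sub_round x

theorem nd_le_abs (x : ℝ) (n : ℤ) : nd x ≤ |x - n| := round_le x n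

theorem nd_add_int (x : ℝ) (n : ℤ) : nd (x + n) = nd x := by
  unfold nd
  rw [round_add_intCast]
  push_cast
  congr 1
  ring

theorem nd_eq_abs (x : ℝ) (h : |x| ≤ 1 / 2) : nd x = |x| := by
  apply le_antisymm
  · have := nd_le_abs x 0
    simpa using this
  · unfold nd
    by_cases h0 : round x = 0
    · rw [h0]; simp
    · have h1 : (1 : ℝ) ≤ |(round x : ℝ)| := by
        have : 1 ≤ |round x| := Int.one_le_abs h0
        exact_mod_cast this
      have h2 := abs_sub_abs_le_abs_sub (round x : ℝ) x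
      rw [abs_sub_comm] at h2
      linarith

theorem nd_neg (x : ℝ) : nd (-x) = nd x := by
  have key : ∀ y : ℝ, nd (-y) ≤ nd y := by
    intro y
    have := nd_le_abs (-y) (-(round y))
    push_cast at this
    have h2 : |-y - -(round y : ℝ)| = |y - round y| := by
      rw [← abs_neg]; congr 1; ring
    rw [h2] at this
    exact this
  apply le_antisymm (key x)
  have := key (-x)
  rwa [neg_neg] at this

theorem nd_add_le (x y : ℝ) : nd (x + y) ≤ nd x + nd y := by
  have h := nd_le_abs (x + y) (round x + round y)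
  refine h.trans ?_
  unfold nd
  push_cast
  have : x + y - ((round x : ℝ) + round y) = (x - round x) + (y - round y) := by ring
  rw [this]
  exact abs_add_le _ _

theorem nd_sub_le (x y : ℝ) : nd (x - y) ≤ nd x + nd y := by
  have := nd_add_le x (-y)
  rw [nd_neg] at this
  simpa [sub_eq_add_neg] using this

theorem nd_mul_le (n : ℕ) (x : ℝ) : nd (n * x) ≤ n * nd x := by
  have h := nd_le_abs (n * x) (n * round x)
  refine h.trans ?_
  push_cast
  rw [← mul_sub, abs_mul, Nat.abs_cast]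
  rfl

theorem norm_ee_sub_one (x : ℝ) : ‖ee x - 1‖ = 2 * |Real.sin (Real.pi * x)| := by
  have h1 : ee x - 1 = ee (x / 2) * (2 * Complex.I * (Real.sin (Real.pi * x) : ℂ)) := by
    have h2 : ee x = ee (x / 2) * ee (x / 2) := by rw [← ee_add]; congr 1; ring
    have h3 : (1 : ℂ) = ee (x / 2) * ee (-(x / 2)) := by rw [← ee_add, add_neg_cancel, ee_zero]
    have h4 : ee x - 1 = ee (x / 2) * ee (x / 2) - ee (x / 2) * ee (-(x / 2)) := by
      rw [← h3, ← h2]
    rw [h4, ← mul_sub]
    congr 1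
    unfold ee
    rw [Complex.ofReal_sin, Complex.sin]
    have e1 : ((2 * Real.pi * (x / 2) : ℝ) : ℂ) * Complex.I = ((Real.pi * x : ℝ) : ℂ) * Complex.I := by
      push_cast; ring
    have e2 : ((2 * Real.pi * (-(x / 2)) : ℝ) : ℂ) * Complex.I =
      -((Real.pi * x : ℝ) : ℂ) * Complex.I := by
      push_cast; ring
    rw [e1, e2]
    have hI : Complex.I * Complex.I = -1 := Complex.I_mul_I
    field_simp
    ring_nf
    rw [Complex.I_sq]
    ring
  rw [h1, norm_mul, norm_ee, one_mul, norm_mul, norm_mul, Complex.norm_I, mul_one,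
    Complex.norm_real]
  simp

theorem four_nd_le (x : ℝ) : 4 * nd x ≤ ‖ee x - 1‖ := by
  set y := x - round x with hy
  have h1 : ee x = ee y := by
    have h0 : x = y + ((round x : ℤ) : ℝ) := by rw [hy]; ring
    calc ee x = ee (y + ((round x : ℤ) : ℝ)) := by rw [← h0]
      _ = ee y := ee_add_int _ _
  rw [h1, norm_ee_sub_one]
  have hyb : |y| ≤ 1 / 2 := abs_sub_round x
  have hnd : nd x = |y| := rfl
  rw [hnd]
  have hpi := Real.pi_pos
  have h2 : |Real.sin (Real.pi * y)| = Real.sin (Real.pi * |y|) := by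
    rcases le_total 0 y with h | h
    · rw [abs_of_nonneg h]
      rw [abs_of_nonneg]
      apply Real.sin_nonneg_of_nonneg_of_le_pi (by positivity)
      rw [abs_of_nonneg h] at hyb
      nlinarith
    · rw [abs_of_nonpos h]
      rw [abs_of_nonpos h] at hyb
      rw [abs_of_nonpos]
      · rw [mul_neg, Real.sin_neg]
      · rw [← neg_nonneg, ← Real.sin_neg, ← mul_neg]
        apply Real.sin_nonneg_of_nonneg_of_le_pi (by apply mul_nonneg hpi.le; linarith)
        nlinarith
  rw [h2]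
  have h3 := Real.mul_le_sin (x := Real.pi * |y|) (by positivity) (by nlinarith)
  have h4 : 2 / Real.pi * (Real.pi * |y|) = 2 * |y| := by field_simp
  rw [h4] at h3
  linarith

theorem norm_ee_sub_one_le (x : ℝ) : ‖ee x - 1‖ ≤ 2 * Real.pi * |x| := by
  rw [norm_ee_sub_one]
  have h1 : |Real.sin (Real.pi * x)| ≤ |Real.pi * x| := Real.abs_sin_le_abs
  rw [abs_mul, abs_of_pos Real.pi_pos] at h1
  linarith

/-- geometric sums -/
theorem geom_bound (N : ℕ) (x : ℝ) (hx : 0 < nd x) :
    ‖∑ n ∈ Finset.range N, ee (n * x)‖ ≤ 1 / (2 * nd x) := by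
  have h4 := four_nd_le x
  have hne : ee x ≠ 1 := by
    intro h
    rw [h, sub_self, norm_zero] at h4
    linarith
  have h1 : ∑ n ∈ Finset.range N, ee (n * x) = (ee x ^ N - 1) / (ee x - 1) := by
    rw [← geom_sum_eq hne]
    apply Finset.sum_congr rfl
    intro n _
    exact ee_nat_mul n x
  rw [h1, norm_div]
  have h2 : ‖ee x ^ N - 1‖ ≤ 2 := by
    calc ‖ee x ^ N - 1‖ ≤ ‖ee x ^ N‖ + ‖(1 : ℂ)‖ := norm_sub_le _ _
      _ = 2 := by rw [norm_pow, norm_ee]; norm_num
  rw [div_le_div_iff₀ (by linarith) (by linarith)]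
  nlinarith

theorem geom_bound' (N : ℕ) (x : ℝ) : ‖∑ n ∈ Finset.range N, ee (n * x)‖ ≤ N := by
  calc ‖∑ n ∈ Finset.range N, ee (n * x)‖ ≤ ∑ n ∈ Finset.range N, ‖ee (n * x)‖ := norm_sum_le _ _
    _ = N := by simp [norm_ee]

/-- orthogonality -/
theorem sum_ee_div (q : ℕ) (hq : 0 < q) (a : ℤ) :
    ∑ r ∈ Finset.range q, ee (r * ((a : ℝ) / q)) = if (q : ℤ) ∣ a then (q : ℂ) else 0 := by
  have hq0 : (q : ℝ) ≠ 0 := by exact_mod_cast hq.ne'
  split_ifs with h
  · obtain ⟨k, rfl⟩ := h
    have : ∀ r ∈ Finset.range q, ee (r * (((q : ℤ) * k : ℤ) / (q : ℝ))) = 1 := by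
      intro r _
      have e : (r : ℝ) * (((q : ℤ) * k : ℤ) / (q : ℝ)) = ((r * k : ℤ) : ℝ) := by
        push_cast; field_simp
      rw [e, ee_int]
    rw [Finset.sum_congr rfl this]
    simp
  · have hne : ee ((a : ℝ) / q) ≠ 1 := by
      intro h1
      unfold ee at h1
      rw [Complex.exp_eq_one_iff] at h1
      obtain ⟨n, hn⟩ := h1
      apply h
      refine ⟨n, ?_⟩
      have hI : (2 * (Real.pi : ℂ) * Complex.I) ≠ 0 := Complex.two_pi_I_ne_zero
      have h2 : ((a : ℂ) / q) * (2 * Real.pi * Complex.I) = n * (2 * Real.pi * Complex.I) := by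
        rw [← hn]; push_cast; ring
      have h3 := mul_right_cancel₀ hI h2
      have hqC : (q : ℂ) ≠ 0 := by exact_mod_cast hq.ne'
      rw [div_eq_iff hqC] at h3
      have h4 : (a : ℂ) = ((n * q : ℤ) : ℂ) := by rw [h3]; push_cast; ring
      have h5 : a = n * q := by exact_mod_cast h4
      rw [h5]; ring
    have h1 : ∑ r ∈ Finset.range q, ee (r * ((a : ℝ) / q)) =
        (ee ((a : ℝ) / q) ^ q - 1) / (ee ((a : ℝ) / q) - 1) := by
      rw [← geom_sum_eq hne]
      apply Finset.sum_congr rfl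
      intro n _
      exact ee_nat_mul n _
    rw [h1, ← ee_nat_mul]
    have e : (q : ℝ) * ((a : ℝ) / q) = a := by field_simp
    rw [e, ee_int]
    simp

/-- Ramanujan sums with coprime argument are bounded by one. -/
theorem ramanujan_le (q : ℕ) (hq : 0 < q) (a : ℤ) (ha : IsCoprime a (q : ℤ)) :
    ‖∑ r ∈ (Finset.range q).filter (fun r => Nat.Coprime r q), ee (r * ((a : ℝ) / q))‖ ≤ 1 := by
  classical
  have hmu : ∀ r : ℕ, (if Nat.Coprime r q then (1 : ℂ) else 0) =
      ∑ d ∈ q.divisors, if d ∣ r then ((ArithmeticFunction.moebius d : ℤ) : ℂ) else 0 := by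
    intro r
    rw [← Finset.sum_filter]
    have h1 : q.divisors.filter (fun d => d ∣ r) = (Nat.gcd r q).divisors := by
      ext d
      rw [Finset.mem_filter, Nat.mem_divisors, Nat.mem_divisors]
      constructor
      · rintro ⟨⟨h1, h2⟩, h3⟩
        exact ⟨Nat.dvd_gcd h3 h1, Nat.gcd_ne_zero_right h2⟩
      · rintro ⟨h1, _⟩
        exact ⟨⟨h1.trans (Nat.gcd_dvd_right _ _), hq.ne'⟩, h1.trans (Nat.gcd_dvd_left _ _)⟩
    rw [h1]
    have h2 : ∑ d ∈ (Nat.gcd r q).divisors, (ArithmeticFunction.moebius d : ℤ) =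
        if Nat.gcd r q = 1 then 1 else 0 := by
      have h3 := congrArg (fun f : ArithmeticFunction ℤ => f (Nat.gcd r q))
        ArithmeticFunction.moebius_mul_coe_zeta
      change (_ : ArithmeticFunction ℤ) (Nat.gcd r q) = (_ : ArithmeticFunction ℤ) (Nat.gcd r q) at h3
      rw [ArithmeticFunction.coe_mul_zeta_apply, ArithmeticFunction.one_apply] at h3
      exact h3
    have h4 : ∑ d ∈ (Nat.gcd r q).divisors, ((ArithmeticFunction.moebius d : ℤ) : ℂ) =
        ((if Nat.gcd r q = 1 then 1 else 0 : ℤ) : ℂ) := by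
      rw [← h2]; push_cast; rfl
    rw [h4]
    unfold Nat.Coprime
    split_ifs <;> simp
  have hsum : ∑ r ∈ (Finset.range q).filter (fun r => Nat.Coprime r q), ee (r * ((a : ℝ) / q)) =
      ∑ d ∈ q.divisors, ((ArithmeticFunction.moebius d : ℤ) : ℂ) *
        ∑ r ∈ (Finset.range q).filter (fun r => d ∣ r), ee (r * ((a : ℝ) / q)) := by
    rw [Finset.sum_filter]
    have : ∀ r ∈ Finset.range q, (if Nat.Coprime r q then ee (r * ((a : ℝ) / q)) else 0) =
        ∑ d ∈ q.divisors, (if d ∣ r then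
          ((ArithmeticFunction.moebius d : ℤ) : ℂ) * ee (r * ((a : ℝ) / q)) else 0) := by
      intro r _
      have h := hmu r
      have h5 : (if Nat.Coprime r q then ee (r * ((a : ℝ) / q)) else 0) =
        (if Nat.Coprime r q then (1 : ℂ) else 0) * ee (r * ((a : ℝ) / q)) := by
        split_ifs <;> simp
      rw [h5, h, Finset.sum_mul]
      apply Finset.sum_congr rfl
      intro d _
      split_ifs <;> simp
    rw [Finset.sum_congr rfl this, Finset.sum_comm]
    apply Finset.sum_congr rfl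
    intro d _
    rw [Finset.mul_sum, Finset.sum_filter]
  rw [hsum]
  have hinner : ∀ d ∈ q.divisors, d ≠ q →
      ∑ r ∈ (Finset.range q).filter (fun r => d ∣ r), ee (r * ((a : ℝ) / q)) = 0 := by
    intro d hd hdq
    rw [Nat.mem_divisors] at hd
    obtain ⟨k, hk⟩ := hd.1
    have hd0 : 0 < d := Nat.pos_of_dvd_of_pos hd.1 hq
    have hk0 : 0 < k := by
      rcases Nat.eq_zero_or_pos k with h | h
      · subst h; omega
      · exact h
    have h1 : (Finset.range q).filter (fun r => d ∣ r) = (Finset.range k).image (fun s => d * s) := by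
      ext r
      rw [Finset.mem_filter, Finset.mem_range, Finset.mem_image]
      constructor
      · rintro ⟨h1, s, rfl⟩
        refine ⟨s, ?_, rfl⟩
        rw [Finset.mem_range]
        rw [hk] at h1
        exact Nat.lt_of_mul_lt_mul_left h1
      · rintro ⟨s, hs, rfl⟩
        rw [Finset.mem_range] at hs
        refine ⟨?_, dvd_mul_right _ _⟩
        rw [hk]
        exact Nat.mul_lt_mul_of_pos_left hs hd0
    rw [h1, Finset.sum_image (by intro x _ y _ h; exact Nat.eq_of_mul_eq_mul_left hd0 h)]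
    have h2 : ∀ s ∈ Finset.range k, ee (((d * s : ℕ) : ℝ) * ((a : ℝ) / q)) =
        ee (s * ((a : ℝ) / k)) := by
      intro s _
      congr 1
      rw [hk]
      push_cast
      have hdr : (d : ℝ) ≠ 0 := by exact_mod_cast hd0.ne'
      have hkr : (k : ℝ) ≠ 0 := by exact_mod_cast hk0.ne'
      field_simp
    rw [Finset.sum_congr rfl h2, sum_ee_div k hk0 a]
    rw [if_neg]
    intro hka
    have hkq : (k : ℤ) ∣ (q : ℤ) := by rw [hk]; push_cast; exact dvd_mul_left _ _
    have hu := ha.isUnit_of_dvd' hka hkq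
    rw [Int.isUnit_iff] at hu
    have hk1 : k = 1 := by omega
    apply hdq
    rw [hk, hk1, mul_one]
  rw [Finset.sum_eq_single_of_mem q (Nat.mem_divisors_self q hq.ne')
    (fun d hd hdq => by rw [hinner d hd hdq, mul_zero])]
  have hlast : (Finset.range q).filter (fun r => q ∣ r) = {0} := by
    ext r
    rw [Finset.mem_filter, Finset.mem_range, Finset.mem_singleton]
    constructor
    · rintro ⟨h1, h2⟩
      exact Nat.eq_zero_of_dvd_of_lt h2 h1
    · rintro rfl
      exact ⟨hq, dvd_zero _⟩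
  rw [hlast, Finset.sum_singleton]
  rw [norm_mul]
  have h6 : ‖((ArithmeticFunction.moebius q : ℤ) : ℂ)‖ ≤ 1 := by
    have : |ArithmeticFunction.moebius q| ≤ 1 := ArithmeticFunction.abs_moebius_le_one
    rw [Complex.norm_intCast]
    exact_mod_cast this
  calc _ ≤ 1 * 1 := mul_le_mul h6 (by rw [norm_ee]) (norm_nonneg _) (by norm_num)
    _ = 1 := by norm_num

/-- a lower bound for the totient -/
theorem le_two_mul_totient_sq (q : ℕ) : q ≤ 2 * (Nat.totient q) ^ 2 := by
  -- stronger: for odd `q`, `q ≤ φ(q)^2`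
  have hpk : ∀ p k : ℕ, p.Prime → 3 ≤ p → 0 < k → p ^ k ≤ (Nat.totient (p ^ k)) ^ 2 := by
    intro p k hp hp3 hk
    obtain ⟨j, rfl⟩ : ∃ j, k = j + 1 := ⟨k - 1, by omega⟩
    rw [Nat.totient_prime_pow_succ hp]
    have h1 : p ≤ (p - 1) ^ 2 := by
      obtain ⟨t, rfl⟩ : ∃ t, p = t + 3 := ⟨p - 3, by omega⟩
      have : t + 3 - 1 = t + 2 := by omega
      rw [this]; nlinarith
    have h2 : p ^ j ≤ (p ^ j) ^ 2 := Nat.le_self_pow (by norm_num) _
    rw [mul_pow, pow_succ]
    exact Nat.mul_le_mul h2 h1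
  have hodd : ∀ q : ℕ, Odd q → q ≤ (Nat.totient q) ^ 2 := by
    intro q
    induction q using Nat.recOnPosPrimePosCoprime with
    | prime_pow p n hp hn =>
      intro hq
      apply hpk p n hp _ hn
      have hp2 : p ≠ 2 := by
        rintro rfl
        rw [Nat.odd_pow_iff hn.ne'] at hq
        exact absurd hq (by decide)
      have := hp.two_le
      omega
    | zero => intro h; exact absurd h (by decide)
    | one => intro _; simp
    | coprime a b ha hb hab iha ihb =>
      intro hq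
      rw [Nat.odd_mul] at hq
      rw [Nat.totient_mul hab, mul_pow]
      exact Nat.mul_le_mul (iha hq.1) (ihb hq.2)
  rcases Nat.eq_zero_or_pos q with h | h
  · subst h; simp
  · obtain ⟨k, m, hm, hqm⟩ := Nat.exists_eq_two_pow_mul_odd h.ne'
    rcases Nat.eq_zero_or_pos k with hk | hk
    · rw [hk, pow_zero, one_mul] at hqm
      rw [hqm]
      have := hodd m hm
      omega
    · have hcop : Nat.Coprime (2 ^ k) m := Nat.Coprime.pow_left k (Nat.coprime_two_left.2 hm)
      rw [hqm, Nat.totient_mul hcop, mul_pow]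
      obtain ⟨j, rfl⟩ : ∃ j, k = j + 1 := ⟨k - 1, by omega⟩
      rw [Nat.totient_prime_pow_succ Nat.prime_two]
      have h1 := hodd m hm
      have h2 : 2 ^ (j + 1) ≤ 2 * (2 ^ j * (2 - 1)) ^ 2 := by
        rw [pow_succ]
        have h3 : 2 ^ j ≤ (2 ^ j) ^ 2 := Nat.le_self_pow (by norm_num) _
        have h4 : 2 ^ j * (2 - 1) = 2 ^ j := by norm_num
        rw [h4]
        omega
      calc 2 ^ (j + 1) * m ≤ (2 * (2 ^ j * (2 - 1)) ^ 2) * (Nat.totient m) ^ 2 := Nat.mul_le_mul h2 h1
        _ = 2 * ((2 ^ j * (2 - 1)) ^ 2 * (Nat.totient m) ^ 2) := by ring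

end

end Pool.Agent.Lib.MP_325d88_nt
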