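import Mathlib
import Pool.Agent.Lib.MP_325d88_nt.Exp

/-!
# A bilinear (cut norm) bound from a uniform bound for exponential sums
-/

namespace Pool.Agent.Lib.MP_325d88_nt

open Finset

/-- orthogonality in the form used below -/
theorem sum_ee_small (m : ℕ) (hm : 0 < m) (d : ℤ) (hd : |d| < m) :
    ∑ k ∈ Finset.range m, ee ((d : ℝ) * ((k : ℝ) / m)) = if d = 0 then (m : ℂ) else 0 := by
  have h := sum_ee_div m hm d
  have e : ∀ k ∈ Finset.range m, ee ((d : ℝ) * ((k : ℝ) / m)) = ee (k * ((d : ℝ) / m)) := by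
    intro k _
    congr 1
    ring
  rw [Finset.sum_congr rfl e, h]
  by_cases h0 : d = 0
  · simp [h0]
  · rw [if_neg h0, if_neg]
    intro hdiv
    exact h0 (Int.eq_zero_of_abs_lt_dvd hdiv hd)

/-- Parseval inequality -/
theorem parseval_le (m : ℕ) (hm : 0 < m) (α : ℤ) (hα : α ≠ 0) (I : Finset ℤ) (u : ℤ → ℝ)
    (hu : ∀ a, |u a| ≤ 1) (hI : ∀ a ∈ I, ∀ b ∈ I, |α * a - α * b| < (m : ℤ)) :
    ∑ k ∈ Finset.range m, ‖∑ a ∈ I, (u a : ℂ) * ee (-((α * a : ℤ) : ℝ) * ((k : ℝ) / m))‖ ^ 2 ≤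
      m * (I.card : ℝ) := by
  have key : ((∑ k ∈ Finset.range m,
      ‖∑ a ∈ I, (u a : ℂ) * ee (-((α * a : ℤ) : ℝ) * ((k : ℝ) / m))‖ ^ 2 : ℝ) : ℂ) =
      ((m * ∑ a ∈ I, u a ^ 2 : ℝ) : ℂ) := by
    push_cast
    have h1 : ∀ k ∈ Finset.range m,
        ((‖∑ a ∈ I, (u a : ℂ) * ee (-((α : ℝ) * (a : ℝ)) * ((k : ℝ) / m))‖ : ℝ) : ℂ) ^ 2 =
        ∑ a ∈ I, ∑ b ∈ I, (u a : ℂ) * (u b : ℂ) *
          ee (((α * b - α * a : ℤ) : ℝ) * ((k : ℝ) / m)) := by
      intro k _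
      rw [← Complex.mul_conj', map_sum, Finset.sum_mul_sum]
      apply Finset.sum_congr rfl
      intro a _
      apply Finset.sum_congr rfl
      intro b _
      rw [map_mul, Complex.conj_ofReal, ← ee_neg]
      have : ee (((α * b - α * a : ℤ) : ℝ) * ((k : ℝ) / m)) =
          ee (-((α : ℝ) * (a : ℝ)) * ((k : ℝ) / m)) * ee (-(-((α : ℝ) * (b : ℝ)) * ((k : ℝ) / m))) := by
        rw [← ee_add]
        congr 1
        push_cast
        ring
      rw [this]
      ring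
    rw [Finset.sum_congr rfl h1, Finset.sum_comm]
    rw [Finset.mul_sum]
    apply Finset.sum_congr rfl
    intro a ha
    rw [Finset.sum_comm]
    have h2 : ∀ b ∈ I, ∑ k ∈ Finset.range m, (u a : ℂ) * (u b : ℂ) *
          ee (((α * b - α * a : ℤ) : ℝ) * ((k : ℝ) / m)) =
          if b = a then (m : ℂ) * (u a : ℂ) ^ 2 else 0 := by
      intro b hb
      rw [← Finset.mul_sum, sum_ee_small m hm _ (hI b hb a ha)]
      by_cases hba : b = a
      · subst hba
        simp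
        ring
      · rw [if_neg hba, if_neg, mul_zero]
        intro h0
        apply hba
        have : α * b = α * a := by linarith
        exact mul_left_cancel₀ hα this
    rw [Finset.sum_congr rfl h2, Finset.sum_ite_eq' I a, if_pos ha]
  have key' : ∑ k ∈ Finset.range m,
      ‖∑ a ∈ I, (u a : ℂ) * ee (-((α * a : ℤ) : ℝ) * ((k : ℝ) / m))‖ ^ 2 =
      m * ∑ a ∈ I, u a ^ 2 := by exact_mod_cast key
  rw [key']
  apply mul_le_mul_of_nonneg_left _ (Nat.cast_nonneg m)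
  calc ∑ a ∈ I, u a ^ 2 ≤ ∑ a ∈ I, (1 : ℝ) := by
        apply Finset.sum_le_sum
        intro a _
        have := hu a
        rw [← sq_abs]
        have h0 := abs_nonneg (u a)
        nlinarith
    _ = I.card := by simp

theorem cut_norm (α β : ℤ) (hα : α ≠ 0) (hβ : β ≠ 0) (IA IC R : Finset ℤ) (g : ℤ → ℝ)
    (hR : ∀ a ∈ IA, ∀ c ∈ IC, α * a + β * c ∈ R) (S : ℝ)
    (hS : ∀ θ : ℝ, ‖∑ n ∈ R, ((g n : ℝ) : ℂ) * ee (n * θ)‖ ≤ S)
    (u v : ℤ → ℝ) (hu : ∀ a, |u a| ≤ 1) (hv : ∀ c, |v c| ≤ 1) :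
    |∑ a ∈ IA, ∑ c ∈ IC, g (α * a + β * c) * u a * v c| ≤
      S * Real.sqrt ((IA.card : ℝ) * (IC.card : ℝ)) := by
  classical
  have hS0 : 0 ≤ S := le_trans (norm_nonneg _) (hS 0)
  -- a modulus larger than every difference
  obtain ⟨m, hm0, hm1, hm2, hm3⟩ : ∃ m : ℕ, 0 < m ∧
      (∀ n ∈ R, ∀ a ∈ IA, ∀ c ∈ IC, |n - α * a - β * c| < (m : ℤ)) ∧
      (∀ a ∈ IA, ∀ b ∈ IA, |α * a - α * b| < (m : ℤ)) ∧
      (∀ a ∈ IC, ∀ b ∈ IC, |β * a - β * b| < (m : ℤ)) := by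
    set M : ℕ := 1 + (∑ n ∈ R, n.natAbs + 2 * ∑ a ∈ IA, (α * a).natAbs +
      2 * ∑ c ∈ IC, (β * c).natAbs) with hM
    have b1 : ∀ n ∈ R, n.natAbs ≤ ∑ n ∈ R, n.natAbs := fun n hn =>
      Finset.single_le_sum (f := fun n : ℤ => n.natAbs) (fun _ _ => Nat.zero_le _) hn
    have b2 : ∀ a ∈ IA, (α * a).natAbs ≤ ∑ a ∈ IA, (α * a).natAbs := fun a ha =>
      Finset.single_le_sum (f := fun a : ℤ => (α * a).natAbs) (fun _ _ => Nat.zero_le _) ha
    have b3 : ∀ c ∈ IC, (β * c).natAbs ≤ ∑ c ∈ IC, (β * c).natAbs := fun c hc =>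
      Finset.single_le_sum (f := fun c : ℤ => (β * c).natAbs) (fun _ _ => Nat.zero_le _) hc
    refine ⟨M, by omega, ?_, ?_, ?_⟩
    · intro n hn a ha c hc
      have h1 := b1 n hn
      have h2 := b2 a ha
      have h3 := b3 c hc
      rw [abs_lt]
      constructor <;> omega
    · intro a ha b hb
      have h2 := b2 a ha
      have h3 := b2 b hb
      rw [abs_lt]
      constructor <;> omega
    · intro a ha b hb
      have h2 := b3 a ha
      have h3 := b3 b hb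
      rw [abs_lt]
      constructor <;> omega
  have hmR : (0 : ℝ) < m := by exact_mod_cast hm0
  set F : ℕ → ℂ := fun k => ∑ n ∈ R, ((g n : ℝ) : ℂ) * ee (n * ((k : ℝ) / m)) with hF
  set U : ℕ → ℂ := fun k => ∑ a ∈ IA, (u a : ℂ) * ee (-((α * a : ℤ) : ℝ) * ((k : ℝ) / m)) with hU
  set V : ℕ → ℂ := fun k => ∑ c ∈ IC, (v c : ℂ) * ee (-((β * c : ℤ) : ℝ) * ((k : ℝ) / m)) with hV
  have hmain : ∑ k ∈ Finset.range m, F k * (U k * V k) =
      ((m * ∑ a ∈ IA, ∑ c ∈ IC, g (α * a + β * c) * u a * v c : ℝ) : ℂ) := by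
    have h1 : ∀ k ∈ Finset.range m, F k * (U k * V k) =
        ∑ a ∈ IA, ∑ c ∈ IC, ∑ n ∈ R, ((g n : ℝ) : ℂ) * (u a : ℂ) * (v c : ℂ) *
          ee (((n - α * a - β * c : ℤ) : ℝ) * ((k : ℝ) / m)) := by
      intro k _
      rw [hF, hU, hV]
      simp only
      rw [Finset.sum_mul_sum, Finset.mul_sum]
      apply Finset.sum_congr rfl
      intro a _
      rw [Finset.mul_sum]
      apply Finset.sum_congr rfl
      intro c _
      rw [Finset.sum_mul]
      apply Finset.sum_congr rfl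
      intro n _
      have : ee (((n - α * a - β * c : ℤ) : ℝ) * ((k : ℝ) / m)) =
          ee ((n : ℝ) * ((k : ℝ) / m)) * (ee (-((α * a : ℤ) : ℝ) * ((k : ℝ) / m)) *
            ee (-((β * c : ℤ) : ℝ) * ((k : ℝ) / m))) := by
        rw [← ee_add, ← ee_add]
        congr 1
        push_cast
        ring
      rw [this]
      ring
    have hcast : ((m * ∑ a ∈ IA, ∑ c ∈ IC, g (α * a + β * c) * u a * v c : ℝ) : ℂ) =
        ∑ a ∈ IA, ∑ c ∈ IC, (m : ℂ) * (((g (α * a + β * c) : ℝ) : ℂ) * (u a : ℂ) * (v c : ℂ)) := by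
      push_cast
      rw [Finset.mul_sum]
      apply Finset.sum_congr rfl
      intro a _
      rw [Finset.mul_sum]
    rw [Finset.sum_congr rfl h1, Finset.sum_comm, hcast]
    apply Finset.sum_congr rfl
    intro a ha
    rw [Finset.sum_comm]
    apply Finset.sum_congr rfl
    intro c hc
    rw [Finset.sum_comm]
    have h2 : ∀ n ∈ R, ∑ k ∈ Finset.range m, ((g n : ℝ) : ℂ) * (u a : ℂ) * (v c : ℂ) *
          ee (((n - α * a - β * c : ℤ) : ℝ) * ((k : ℝ) / m)) =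
          if n = α * a + β * c then
            (m : ℂ) * (((g (α * a + β * c) : ℝ) : ℂ) * (u a : ℂ) * (v c : ℂ)) else 0 := by
      intro n hn
      rw [← Finset.mul_sum, sum_ee_small m hm0 _ (hm1 n hn a ha c hc)]
      by_cases hnn : n = α * a + β * c
      · rw [if_pos hnn, if_pos (by rw [hnn]; ring), hnn]
        ring
      · rw [if_neg hnn, if_neg, mul_zero]
        intro h0
        apply hnn
        linarith
    rw [Finset.sum_congr rfl h2, Finset.sum_ite_eq' R, if_pos (hR a ha c hc)]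
  have hU2 := parseval_le m hm0 α hα IA u hu hm2
  have hV2 := parseval_le m hm0 β hβ IC v hv hm3
  have hbound : ‖∑ k ∈ Finset.range m, F k * (U k * V k)‖ ≤
      S * (Real.sqrt (m * (IA.card : ℝ)) * Real.sqrt (m * (IC.card : ℝ))) := by
    calc ‖∑ k ∈ Finset.range m, F k * (U k * V k)‖ ≤
          ∑ k ∈ Finset.range m, ‖F k * (U k * V k)‖ := norm_sum_le _ _
      _ ≤ ∑ k ∈ Finset.range m, S * (‖U k‖ * ‖V k‖) := by
          apply Finset.sum_le_sum
          intro k _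
          rw [norm_mul, norm_mul]
          apply mul_le_mul_of_nonneg_right _ (by positivity)
          exact hS _
      _ = S * ∑ k ∈ Finset.range m, ‖U k‖ * ‖V k‖ := by rw [Finset.mul_sum]
      _ ≤ S * (Real.sqrt (∑ k ∈ Finset.range m, ‖U k‖ ^ 2) *
            Real.sqrt (∑ k ∈ Finset.range m, ‖V k‖ ^ 2)) := by
          apply mul_le_mul_of_nonneg_left _ hS0
          exact Real.sum_mul_le_sqrt_mul_sqrt _ _ _
      _ ≤ S * (Real.sqrt (m * (IA.card : ℝ)) * Real.sqrt (m * (IC.card : ℝ))) := by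
          apply mul_le_mul_of_nonneg_left _ hS0
          apply mul_le_mul (Real.sqrt_le_sqrt hU2) (Real.sqrt_le_sqrt hV2) (Real.sqrt_nonneg _)
            (Real.sqrt_nonneg _)
  rw [hmain, Complex.norm_real, Real.norm_eq_abs, abs_mul, abs_of_pos hmR] at hbound
  have hsq : Real.sqrt (m * (IA.card : ℝ)) * Real.sqrt (m * (IC.card : ℝ)) =
      m * Real.sqrt ((IA.card : ℝ) * (IC.card : ℝ)) := by
    rw [← Real.sqrt_mul (by positivity)]
    have : (m : ℝ) * (IA.card : ℝ) * (m * (IC.card : ℝ)) =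
        (m : ℝ) ^ 2 * ((IA.card : ℝ) * (IC.card : ℝ)) := by ring
    rw [this, Real.sqrt_mul (by positivity), Real.sqrt_sq hmR.le]
  rw [hsq] at hbound
  have : (m : ℝ) * |∑ a ∈ IA, ∑ c ∈ IC, g (α * a + β * c) * u a * v c| ≤
      m * (S * Real.sqrt ((IA.card : ℝ) * (IC.card : ℝ))) := by
    calc (m : ℝ) * |∑ a ∈ IA, ∑ c ∈ IC, g (α * a + β * c) * u a * v c| ≤
        S * (m * Real.sqrt ((IA.card : ℝ) * (IC.card : ℝ))) := hbound
      _ = _ := by ring
  exact le_of_mul_le_mul_left this hmR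

end Pool.Agent.Lib.MP_325d88_nt
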