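import Pool.Agent.Lib.MP_325d88_nt.Upper2

/-!
# Degree bound: two linear forms, an upper bound sieve in a residue class
-/

namespace Pool.Agent.Lib.MP_325d88_nt

open Finset Pool.Agent.Lib.MP_369a91_nt

noncomputable section

namespace Degree

/-- `VV 1 w` is the density of numbers coprime to the primorial -/
lemma VV_primorial (w : ℕ) :
    (((∏ p ∈ PR 1 w, p : ℕ) : ℝ) / Nat.totient (∏ p ∈ PR 1 w, p)) = (VV 1 w)⁻¹ := by
  classical
  have h0 : 0 < ∏ p ∈ PR 1 w, p := Finset.prod_pos fun p hp => (mem_PR.1 hp).2.2.pos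
  have h1 : (∏ p ∈ PR 1 w, p).primeFactors = PR 1 w := by
    have h2 : ∀ p ∈ PR 1 w, p.Prime := fun p hp => (mem_PR.1 hp).2.2
    exact Nat.primeFactors_prod h2
  rw [div_totient _ h0, h1, Finset.prod_inv_distrib]
  rfl

/-- the local factor -/
def FF (r m A B : ℤ) (p : ℕ) (j : ℤ) : ℝ :=
  if (p : ℤ) ∣ r + m * j ∨ (p : ℤ) ∣ (A * r + B) + (A * m) * j then 1 else 0

lemma FF_per (r m A B : ℤ) (p : ℕ) (t t' : ℤ) (h : t ≡ t' [ZMOD (p : ℤ)]) :
    FF r m A B p t = FF r m A B p t' := by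
  have key : ∀ q c : ℤ, ((p : ℤ) ∣ c + q * t) ↔ ((p : ℤ) ∣ c + q * t') := by
    intro q c
    have h1 : c + q * t ≡ c + q * t' [ZMOD (p : ℤ)] :=
      Int.ModEq.add_left _ (Int.ModEq.mul_left _ h)
    constructor
    · intro h3
      exact (Int.modEq_zero_iff_dvd.1 (h1.symm.trans (Int.modEq_zero_iff_dvd.2 h3)))
    · intro h3
      exact (Int.modEq_zero_iff_dvd.1 (h1.trans (Int.modEq_zero_iff_dvd.2 h3)))
  unfold FF
  simp only [key]

lemma FF_count (r m A B : ℤ) (p : ℕ) (hp : p.Prime) (hm : ¬ (p : ℤ) ∣ m) (hA : ¬ (p : ℤ) ∣ A)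
    (hB : ¬ (p : ℤ) ∣ B) : ∑ t ∈ Finset.Ico (0 : ℤ) p, FF r m A B p t = 2 := by
  have hpi : Prime (p : ℤ) := Nat.prime_iff_prime_int.1 hp
  have hAm : ¬ (p : ℤ) ∣ A * m := by
    intro h
    rcases hpi.dvd_or_dvd h with h1 | h1
    · exact hA h1
    · exact hm h1
  have e1 := lin_count p hp m r hm
  have e2 := lin_count p hp (A * m) (A * r + B) hAm
  have h2 : ∑ t ∈ Finset.Ico (0 : ℤ) p,
      (dv p (r + m * t) + dv p ((A * r + B) + (A * m) * t)) = 2 := by
    rw [Finset.sum_add_distrib, e1, e2]; norm_num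
  refine Eq.trans ?_ h2
  apply Finset.sum_congr rfl
  intro t _
  unfold dv FF
  by_cases h3 : (p : ℤ) ∣ r + m * t
  · have h4 : ¬ (p : ℤ) ∣ (A * r + B) + (A * m) * t := by
      intro h5
      apply hB
      have e : B = ((A * r + B) + (A * m) * t) - A * (r + m * t) := by ring
      rw [e]
      exact dvd_sub h5 (h3.mul_left _)
    rw [if_pos (Or.inl h3), if_pos h3, if_neg h4, add_zero]
  · by_cases h4 : (p : ℤ) ∣ (A * r + B) + (A * m) * t
    · rw [if_pos (Or.inr h4), if_neg h3, if_pos h4, zero_add]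
    · rw [if_neg, if_neg h3, if_neg h4, add_zero]
      rintro (h5 | h5)
      · exact h3 h5
      · exact h4 h5

lemma FF_prod_nonneg (r m A B : ℤ) (S : Finset ℕ) (j : ℤ) :
    0 ≤ ∏ p ∈ S, (1 - FF r m A B p j) := by
  apply Finset.prod_nonneg
  intro p _
  unfold FF
  split_ifs <;> norm_num

end Degree

/-- **(M7) degree bound.** -/
theorem deg_bound (A : ℤ) (hA : A ≠ 0) : ∃ C : ℝ, 1 ≤ C ∧ ∀ w : ℕ, 4 ≤ w → A.natAbs ≤ w →
    ∀ m : ℕ, 0 < m → (∀ p, p.Prime → p ∣ m → p ≤ w) → ∃ X0 : ℕ, ∀ X : ℕ, X0 ≤ X →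
    ∀ (r B : ℤ), B.natAbs.Prime → X ≤ 10 * B.natAbs → ∀ lo L : ℕ, m * Nat.sqrt X ≤ L →
    (((Finset.Ioc lo (lo + L)).filter (fun t : ℕ => X ≤ 10 * t ∧ t.Prime ∧ (t : ℤ) ≡ r [ZMOD m] ∧
      (X : ℤ) ≤ 10 * (A * t + B) ∧ (A * t + B).natAbs.Prime)).card : ℝ) ≤
      C * ((L : ℝ) / m) * (((∏ p ∈ PR 1 w, p : ℕ) : ℝ) / Nat.totient (∏ p ∈ PR 1 w, p)) ^ 2 /
        (Real.log X) ^ 2 := by
  classical
  obtain ⟨b0, hb0⟩ := good_ev 2 (1 / 6) (by norm_num) (by norm_num) 0
  have hg := hb0 b0 le_rfl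
  rw [pow_zero, div_one] at hg
  obtain ⟨Z0, hls⟩ := line_sieve 2 (by norm_num) (1 / 6) (by norm_num) (by norm_num) b0 hg
  obtain ⟨s, hs⟩ : ∃ s : ℕ, s = 8 * b0 + 15 := ⟨_, rfl⟩
  rw [← hs] at hls
  have hs1 : 1 ≤ s := by omega
  refine ⟨3 * (4 * s + 2) ^ 2, ?_, ?_⟩
  · have : (1 : ℝ) ≤ s := by exact_mod_cast hs1
    nlinarith
  intro w hw hAw m hm hmw
  obtain ⟨P0, hP0⟩ := exists_root s hs1 (max Z0 (w + 2))
  refine ⟨(max P0 11) ^ 2, ?_⟩
  intro X hX r B hBp hXB lo L hL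
  have hsq : max P0 11 ≤ Nat.sqrt X := by
    rw [Nat.le_sqrt']
    exact hX
  have hsqP0 : P0 ≤ Nat.sqrt X := le_trans (le_max_left _ _) hsq
  have hsq11 : 11 ≤ Nat.sqrt X := le_trans (le_max_right _ _) hsq
  obtain ⟨z, hz0, hzs, hz2⟩ := hP0 (Nat.sqrt X) hsqP0
  have hzZ : Z0 ≤ z := le_trans (le_max_left _ _) hz0
  have hzw : w + 2 ≤ z := le_trans (le_max_right _ _) hz0
  have hzP : z ≤ Nat.sqrt X := le_trans (Nat.le_self_pow (by omega) _) hzs
  have hXsq : Nat.sqrt X * Nat.sqrt X ≤ X := Nat.sqrt_le X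
  have hzX : 10 * z < X := by nlinarith
  -- parametrization
  have hmZ : (0 : ℤ) < m := by exact_mod_cast hm
  set j0 : ℤ := ((lo : ℤ) - r) / m + 1 with hj0
  set L' : ℕ := L / m + 1 with hL'
  have hL'z : z ^ s ≤ L' := by
    have h1 : Nat.sqrt X ≤ L / m := (Nat.le_div_iff_mul_le hm).2 (by rw [mul_comm]; exact hL)
    omega
  -- the sieve
  set g : ℕ → ℝ := fun p => if p ∈ PR w z then 2 / (p : ℝ) else 0 with hgdef
  have hgP : ∀ p ∈ PR w z, g p = 2 / (p : ℝ) := by
    intro p hp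
    rw [hgdef]; simp only [if_pos hp]
  have hb : ∀ p ∈ PR w z, (5 : ℝ) ≤ p := by
    intro p hp
    have : 5 ≤ p := by
      have := (mem_PR.1 hp).1
      omega
    exact_mod_cast this
  have hloc : ∀ p ∈ PR w z, ∑ t ∈ Finset.Ico (0 : ℤ) p, Degree.FF r m A B p t = 2 := by
    intro p hp
    obtain ⟨h1, h2, h3⟩ := mem_PR.1 hp
    refine Degree.FF_count r m A B p h3 ?_ ?_ ?_
    · intro h4
      have h5 : p ∣ m := by exact_mod_cast h4
      have := hmw p h3 h5
      omega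
    · intro h4
      have h5 : p ∣ A.natAbs := by
        rw [← Int.natCast_dvd]
        exact h4
      have h6 := Nat.le_of_dvd (Int.natAbs_pos.2 hA) h5
      omega
    · intro h4
      have h5 : p ∣ B.natAbs := by
        rw [← Int.natCast_dvd]
        exact h4
      have h6 := (Nat.prime_dvd_prime_iff_eq h3 hBp).1 h5
      omega
  have h1 := hls w z L' (by omega) hzZ hL'z j0 L' le_rfl
    (fun p t => Degree.FF r m A B p t)
    (fun p _ t t' htt => Degree.FF_per r m A B p t t' htt)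
    (by intro p t; unfold Degree.FF; split_ifs <;> simp)
    g
    (by
      intro p; rw [hgdef]; simp only
      split_ifs
      · positivity
      · exact le_rfl)
    (by
      intro p; rw [hgdef]; simp only
      split_ifs with h2
      · have := hb p h2
        rw [div_le_div_iff₀ (by linarith) (by norm_num)]; linarith
      · norm_num)
    (by
      intro p hp
      rw [hgP p hp])
    (by
      intro p hp
      rw [hgP p hp, hloc p hp]
      have := hb p hp
      field_simp)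
  have h2 := (abs_le.1 h1).2
  have hVw := VV_pos w z
  have h3 : ∏ p ∈ PR w z, (1 - g p) ≤ VV w z ^ 2 := by
    unfold VV
    rw [← Finset.prod_pow]
    apply Finset.prod_le_prod
    · intro p hp
      rw [hgP p hp]
      have := hb p hp
      have : 2 / (p : ℝ) ≤ 1 := by rw [div_le_one (by linarith)]; linarith
      linarith
    · intro p hp
      rw [hgP p hp]
      have h4 : (1 - 1 / (p : ℝ)) ^ 2 = 1 - 2 / p + (1 / p) ^ 2 := by ring
      rw [h4]
      have : 0 ≤ (1 / (p : ℝ)) ^ 2 := sq_nonneg _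
      linarith
  -- count
  have hcount : (((Finset.Ioc lo (lo + L)).filter (fun t : ℕ => X ≤ 10 * t ∧ t.Prime ∧
      (t : ℤ) ≡ r [ZMOD m] ∧ (X : ℤ) ≤ 10 * (A * t + B) ∧ (A * t + B).natAbs.Prime)).card : ℝ) ≤
      ∑ t ∈ Finset.Ico j0 (j0 + L'), ∏ p ∈ PR w z, (1 - Degree.FF r m A B p t) := by
    set S := (Finset.Ioc lo (lo + L)).filter (fun t : ℕ => X ≤ 10 * t ∧ t.Prime ∧
      (t : ℤ) ≡ r [ZMOD m] ∧ (X : ℤ) ≤ 10 * (A * t + B) ∧ (A * t + B).natAbs.Prime) with hS
    set φ : ℕ → ℤ := fun t => ((t : ℤ) - r) / m with hφ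
    have hform : ∀ t ∈ S, (t : ℤ) = r + m * φ t := by
      intro t ht
      rw [hS, Finset.mem_filter] at ht
      have h4 : (m : ℤ) ∣ (t : ℤ) - r := ht.2.2.2.1.symm.dvd
      have h5 := Int.mul_ediv_cancel' h4
      rw [hφ]
      simp only
      linarith
    have hinj : Set.InjOn φ (S : Set ℕ) := by
      intro t ht t' ht' htt
      have h4 := hform t ht
      have h5 := hform t' ht'
      have h6 : (t : ℤ) = t' := by rw [h4, h5, htt]
      exact_mod_cast h6
    have hone : ∀ t ∈ S, ∏ p ∈ PR w z, (1 - Degree.FF r m A B p (φ t)) = 1 := by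
      intro t ht
      have h4 := hform t ht
      rw [hS, Finset.mem_filter] at ht
      obtain ⟨_, ht1, ht2, _, ht3, ht4⟩ := ht
      apply Finset.prod_eq_one
      intro p hp
      obtain ⟨hp1, hp2, hp3⟩ := mem_PR.1 hp
      unfold Degree.FF
      rw [if_neg, sub_zero]
      rintro (h5 | h5)
      · rw [← h4] at h5
        have h6 : p ∣ t := by exact_mod_cast h5
        have h7 := (Nat.prime_dvd_prime_iff_eq hp3 ht2).1 h6
        omega
      · have h6 : (A * r + B) + (A * m) * φ t = A * t + B := by rw [h4]; ring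
        rw [h6] at h5
        have h7 : p ∣ (A * t + B).natAbs := by
          rw [← Int.natCast_dvd]
          exact h5
        have h8 := (Nat.prime_dvd_prime_iff_eq hp3 ht4).1 h7
        omega
    have hmem : S.image φ ⊆ Finset.Ico j0 (j0 + L') := by
      intro j hj
      rw [Finset.mem_image] at hj
      obtain ⟨t, ht, rfl⟩ := hj
      have h4 := hform t ht
      rw [hS, Finset.mem_filter, Finset.mem_Ioc] at ht
      obtain ⟨⟨ht1, ht2⟩, _⟩ := ht
      have ht1' : (lo : ℤ) < t := by exact_mod_cast ht1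
      have ht2' : (t : ℤ) ≤ lo + L := by exact_mod_cast ht2
      rw [Finset.mem_Ico]
      have e1 := Int.mul_ediv_add_emod ((lo : ℤ) - r) m
      have e2 := Int.emod_nonneg ((lo : ℤ) - r) hmZ.ne'
      have e3 := Int.emod_lt_of_pos ((lo : ℤ) - r) hmZ
      set c := ((lo : ℤ) - r) / m with hc
      constructor
      · by_contra hcon
        have h5 : φ t ≤ c := by omega
        have h6 : (m : ℤ) * φ t ≤ m * c := mul_le_mul_of_nonneg_left h5 hmZ.le
        linarith
      · by_contra hcon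
        push Not at hcon
        have h5 : c + 1 + ((L / m : ℕ) : ℤ) + 1 ≤ φ t := by
          rw [hj0, hL'] at hcon
          push_cast at hcon ⊢
          linarith
        have h6 : (m : ℤ) * (c + 1 + ((L / m : ℕ) : ℤ) + 1) ≤ m * φ t :=
          mul_le_mul_of_nonneg_left h5 hmZ.le
        have h7 : (L : ℤ) < m * ((L / m : ℕ) : ℤ) + m := by
          have := Nat.lt_div_mul_add (a := L) hm
          rw [mul_comm] at this
          exact_mod_cast this
        have h8 : (m : ℤ) * (c + 1 + ((L / m : ℕ) : ℤ) + 1) =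
            m * c + m + (m * ((L / m : ℕ) : ℤ) + m) := by ring
        rw [h8] at h6
        linarith
    calc (S.card : ℝ) = ∑ t ∈ S, ∏ p ∈ PR w z, (1 - Degree.FF r m A B p (φ t)) := by
          rw [Finset.sum_congr rfl hone, Finset.sum_const, nsmul_eq_mul, mul_one]
      _ = ∑ j ∈ S.image φ, ∏ p ∈ PR w z, (1 - Degree.FF r m A B p j) := by
          rw [Finset.sum_image hinj]
      _ ≤ _ := Finset.sum_le_sum_of_subset_of_nonneg hmem
          (fun j _ _ => Degree.FF_prod_nonneg r m A B _ j)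
  -- numerics
  have hmr : (0 : ℝ) < m := by exact_mod_cast hm
  have hsqr : (11 : ℝ) ≤ Nat.sqrt X := by exact_mod_cast hsq11
  have hLr : (m : ℝ) * Nat.sqrt X ≤ L := by exact_mod_cast hL
  have hL'r : (L' : ℝ) ≤ 2 * (L / m) := by
    have h4 : ((L / m : ℕ) : ℝ) ≤ (L : ℝ) / m := Nat.cast_div_le
    have h5 : 1 ≤ (L : ℝ) / m := by
      rw [le_div_iff₀ hmr]
      nlinarith
    rw [hL']
    push_cast
    linarith
  have hz2r : (2 : ℝ) ≤ z := by
    have : 2 ≤ z := by omega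
    exact_mod_cast this
  have hlogz : 0 < Real.log z := Real.log_pos (by linarith)
  have hXr : (121 : ℝ) ≤ X := by
    have : 121 ≤ X := by nlinarith
    exact_mod_cast this
  have hlogX : 0 < Real.log X := Real.log_pos (by linarith)
  have hlogXz : Real.log X ≤ (4 * s + 2) * Real.log z := by
    have h4 : X < (Nat.sqrt X + 1) * (Nat.sqrt X + 1) := Nat.lt_succ_sqrt X
    have h5 : X ≤ z ^ (4 * s + 2) := by
      calc X ≤ (Nat.sqrt X + 1) * (Nat.sqrt X + 1) := h4.le
        _ ≤ (z * z ^ (2 * s)) * (z * z ^ (2 * s)) := by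
            have : Nat.sqrt X + 1 ≤ z * z ^ (2 * s) := by
              have h6 : 2 ≤ z := by omega
              nlinarith
            exact Nat.mul_le_mul this this
        _ = z ^ (4 * s + 2) := by ring
    have h6 : (X : ℝ) ≤ (z : ℝ) ^ (4 * s + 2) := by exact_mod_cast h5
    have h7 := Real.log_le_log (by linarith) h6
    rw [Real.log_pow] at h7
    push_cast at h7
    exact h7
  have hV1z : VV 1 z ≤ (4 * s + 2) / Real.log X := by
    refine (VV_upper z (by omega)).trans ?_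
    rw [div_le_div_iff₀ hlogz hlogX]
    linarith
  have hVw1 := VV_pos 1 w
  have hsplit := VV_split 1 w z (by omega) (by omega)
  have hVwz : VV w z = VV 1 z * (VV 1 w)⁻¹ := by
    rw [hsplit]
    field_simp
  have hVV : VV w z ^ 2 ≤ ((4 * s + 2) / Real.log X) ^ 2 * ((VV 1 w)⁻¹) ^ 2 := by
    rw [hVwz, mul_pow]
    have := pow_le_pow_left₀ (VV_pos 1 z).le hV1z 2
    gcongr
  rw [Degree.VV_primorial]
  have hL0 : (0 : ℝ) ≤ L' := Nat.cast_nonneg _
  have h4 : (∏ p ∈ PR w z, (1 - g p)) * L' ≤ VV w z ^ 2 * L' := by gcongr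
  calc _ ≤ ∑ t ∈ Finset.Ico j0 (j0 + L'), ∏ p ∈ PR w z, (1 - Degree.FF r m A B p t) := hcount
    _ ≤ (1 + 3 * (1 / 6)) * ((∏ p ∈ PR w z, (1 - g p)) * L') := by linarith
    _ ≤ (1 + 3 * (1 / 6)) * (VV w z ^ 2 * L') := by gcongr
    _ ≤ (1 + 3 * (1 / 6)) * (((4 * s + 2) / Real.log X) ^ 2 * ((VV 1 w)⁻¹) ^ 2 *
          (2 * (L / m))) := by gcongr
    _ = 3 * (4 * s + 2) ^ 2 * ((L : ℝ) / m) * (VV 1 w)⁻¹ ^ 2 / (Real.log X) ^ 2 := by
        rw [div_pow]
        ring

end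

end Pool.Agent.Lib.MP_325d88_nt
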