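import Pool.Agent.Lib.MP_325d88_nt.DensBase

/-!
# Relative counting by densification: the counting lemma
-/

namespace Pool.Agent.Lib.MP_325d88_nt

open Finset
open scoped BigOperators

namespace Dens

set_option linter.unusedSectionVars false

variable {α β γ : Type*} [Fintype α] [Fintype β] [Fintype γ] [Nonempty α] [Nonempty β] [Nonempty γ]
  {n1 : α → β → ℝ} {n2 : β → γ → ℝ} {n3 : α → γ → ℝ} {δ : ℝ}

lemma F1 (h : LFt n1 n2 n3 δ) : |(𝔼 b, 𝔼 c, n2 b c) - 1| ≤ δ := by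
  have := master h 0 1 ![![1, 0], ![0, 0]] ![![0, 1], ![1, 1]] 0 1
  simpa [V, P, Q, exp_prod] using this

lemma F2 (h : LFt n1 n2 n3 δ) : |(𝔼 a, 𝔼 b, n1 a b) - 1| ≤ δ := by
  have := master h ![![1, 0], ![0, 0]] ![![0, 1], ![1, 1]] 0 1 0 1
  simpa [V, P, Q, exp_prod] using this

lemma F3 (h : LFt n1 n2 n3 δ) : |(𝔼 a, 𝔼 a', 𝔼 b, n1 a b * n1 a' b) - 1| ≤ δ := by
  have := master h ![![1, 0], ![1, 0]] ![![0, 1], ![0, 1]] 0 1 0 1
  simpa [V, P, Q, exp_prod] using this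

lemma F4 (h : LFt n1 n2 n3 δ) : |(𝔼 a, 𝔼 a', 𝔼 c, 𝔼 c',
    (n3 a c + 1) * (n3 a c' + 1) * (n3 a' c + 1) * (n3 a' c' + 1)) - 16| ≤ 16 * δ := by
  have := master h 0 1 0 1 1 1
  simp only [V, P, Q, exp_prod, Pi.zero_apply, Pi.one_apply] at this
  norm_num at this
  linarith

lemma F5 (h : LFt n1 n2 n3 δ) : |𝔼 a, 𝔼 a', 𝔼 b, 𝔼 b', 𝔼 c, 𝔼 c',
    (n1 a b * n1 a b' * n1 a' b * n1 a' b') *
    ((n2 b c - 1) * (n2 b c' - 1) * (n2 b' c - 1) * (n2 b' c' - 1)) *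
    ((n3 a c + 1) * (n3 a c' + 1) * (n3 a' c + 1) * (n3 a' c' + 1))| ≤ 256 * δ := by
  have := master h 1 0 1 (-1) 1 1
  simp only [V, P, Q, exp_prod, Pi.zero_apply, Pi.one_apply, Pi.neg_apply] at this
  norm_num at this
  simp only [sub_eq_add_neg]
  linarith

lemma F6 (h : LFt n1 n2 n3 δ) : |𝔼 a, 𝔼 a', 𝔼 b, 𝔼 b', 𝔼 c, 𝔼 c',
    ((n1 a b - 1) * (n1 a b' - 1) * (n1 a' b - 1) * (n1 a' b' - 1)) *
    ((n3 a c + 1) * (n3 a c' + 1) * (n3 a' c + 1) * (n3 a' c' + 1))| ≤ 256 * δ := by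
  have := master h 1 (-1) 0 1 1 1
  simp only [V, P, Q, exp_prod, Pi.zero_apply, Pi.one_apply, Pi.neg_apply] at this
  norm_num at this
  simp only [sub_eq_add_neg]
  linarith

lemma F7 (h : LFt n1 n2 n3 δ) : |(𝔼 a, 𝔼 a', 𝔼 b, 𝔼 c,
    (n1 a b * n1 a' b) * ((n3 a c + 1) * (n3 a' c + 1))) - 4| ≤ 4 * δ := by
  have := master h ![![1, 0], ![1, 0]] ![![0, 1], ![0, 1]] 0 1
    ![![1, 0], ![1, 0]] ![![1, 1], ![1, 1]]
  simp [V, P, Q, exp_prod] at this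
  norm_num at this
  linarith

lemma F8 (h : LFt n1 n2 n3 δ) : |(𝔼 a, 𝔼 b, 𝔼 c, n1 a b * (n3 a c + 1)) - 2| ≤ 2 * δ := by
  have := master h ![![1, 0], ![0, 0]] ![![0, 1], ![1, 1]] 0 1
    ![![1, 0], ![0, 0]] ![![1, 1], ![1, 1]]
  simp [V, P, Q, exp_prod] at this
  norm_num at this
  linarith

lemma F9 (h : LFt n1 n2 n3 δ) : |(𝔼 a, 𝔼 c, 𝔼 c', n3 a c * n3 a c') - 1| ≤ δ := by
  have := master h 0 1 0 1 ![![1, 1], ![0, 0]] ![![0, 0], ![1, 1]]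
  simpa [V, P, Q, exp_prod] using this

lemma F10 (h : LFt n1 n2 n3 δ) : |(𝔼 a, 𝔼 c, n3 a c) - 1| ≤ δ := by
  have := master h 0 1 0 1 ![![1, 0], ![0, 0]] ![![0, 1], ![1, 1]]
  simpa [V, P, Q, exp_prod] using this

/-! ## Replacing a weight by `1` -/

lemma abs_mul4 {a b c d a' b' c' d' : ℝ} (ha : |a| ≤ a') (hb : |b| ≤ b') (hc : |c| ≤ c')
    (hd : |d| ≤ d') : |a * b * c * d| ≤ a' * b' * c' * d' := by
  have ha' := (abs_nonneg a).trans ha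
  have hb' := (abs_nonneg b).trans hb
  have hc' := (abs_nonneg c).trans hc
  rw [abs_mul, abs_mul, abs_mul]
  gcongr

/-- replacing `n2` by `1` -/
lemma stepA (h : LFt n1 n2 n3 δ) (hδ1 : δ ≤ 1) {f1 : α → β → ℝ} {g3 : α → γ → ℝ}
    (hf1 : ∀ a b, |f1 a b| ≤ n1 a b) (hg3 : ∀ a c, |g3 a c| ≤ n3 a c + 1) :
    (𝔼 b, 𝔼 c, (n2 b c - 1) * (𝔼 a, f1 a b * g3 a c) ^ 2) ^ 4 ≤ 32768 * δ := by
  have e1 : (𝔼 b, 𝔼 c, (n2 b c - 1) * (𝔼 a, f1 a b * g3 a c) ^ 2) =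
      𝔼 a, 𝔼 a', 𝔼 b, (f1 a b * f1 a' b) * 𝔼 c, (n2 b c - 1) * (g3 a c * g3 a' c) := by
    calc (𝔼 b, 𝔼 c, (n2 b c - 1) * (𝔼 a, f1 a b * g3 a c) ^ 2)
        = 𝔼 b, 𝔼 c, 𝔼 a, 𝔼 a', (n2 b c - 1) * ((f1 a b * g3 a c) * (f1 a' b * g3 a' c)) := by
          simp only [sq_exp, Finset.mul_expect]
      _ = 𝔼 b, 𝔼 a, 𝔼 a', 𝔼 c, (n2 b c - 1) * ((f1 a b * g3 a c) * (f1 a' b * g3 a' c)) := by
          refine Finset.expect_congr rfl fun b _ => ?_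
          rw [comm3]
      _ = 𝔼 a, 𝔼 a', 𝔼 b, 𝔼 c, (n2 b c - 1) * ((f1 a b * g3 a c) * (f1 a' b * g3 a' c)) :=
          comm3 _
      _ = _ := by
          simp only [Finset.mul_expect]
          refine Finset.expect_congr rfl fun a _ => Finset.expect_congr rfl fun a' _ =>
            Finset.expect_congr rfl fun b _ => Finset.expect_congr rfl fun c _ => ?_
          ring
  have e2 : (𝔼 a, 𝔼 a', 𝔼 b, (n1 a b * n1 a' b) *
      (𝔼 c, (n2 b c - 1) * (g3 a c * g3 a' c)) ^ 2) =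
      𝔼 a, 𝔼 a', 𝔼 c, 𝔼 c', (g3 a c * g3 a c' * g3 a' c * g3 a' c') *
        𝔼 b, n1 a b * n1 a' b * ((n2 b c - 1) * (n2 b c' - 1)) := by
    refine Finset.expect_congr rfl fun a _ => Finset.expect_congr rfl fun a' _ => ?_
    simp only [sq_exp, Finset.mul_expect]
    rw [comm3]
    refine Finset.expect_congr rfl fun c _ => Finset.expect_congr rfl fun c' _ =>
      Finset.expect_congr rfl fun b _ => ?_
    ring
  have e3 : (𝔼 a, 𝔼 a', 𝔼 c, 𝔼 c',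
      ((n3 a c + 1) * (n3 a c' + 1) * (n3 a' c + 1) * (n3 a' c' + 1)) *
        (𝔼 b, n1 a b * n1 a' b * ((n2 b c - 1) * (n2 b c' - 1))) ^ 2) =
      𝔼 a, 𝔼 a', 𝔼 b, 𝔼 b', 𝔼 c, 𝔼 c',
    (n1 a b * n1 a b' * n1 a' b * n1 a' b') *
    ((n2 b c - 1) * (n2 b c' - 1) * (n2 b' c - 1) * (n2 b' c' - 1)) *
    ((n3 a c + 1) * (n3 a c' + 1) * (n3 a' c + 1) * (n3 a' c' + 1)) := by
    refine Finset.expect_congr rfl fun a _ => Finset.expect_congr rfl fun a' _ => ?_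
    simp only [sq_exp, Finset.mul_expect]
    calc _ = 𝔼 c, 𝔼 b, 𝔼 b', 𝔼 c',
          (n3 a c + 1) * (n3 a c' + 1) * (n3 a' c + 1) * (n3 a' c' + 1) *
            (n1 a b * n1 a' b * ((n2 b c - 1) * (n2 b c' - 1)) *
              (n1 a b' * n1 a' b' * ((n2 b' c - 1) * (n2 b' c' - 1)))) := by
          refine Finset.expect_congr rfl fun c _ => ?_
          rw [comm3]
      _ = _ := by
          rw [comm3]
          refine Finset.expect_congr rfl fun b _ => Finset.expect_congr rfl fun b' _ =>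
            Finset.expect_congr rfl fun c _ => Finset.expect_congr rfl fun c' _ => ?_
          ring
  set X := 𝔼 b, 𝔼 c, (n2 b c - 1) * (𝔼 a, f1 a b * g3 a c) ^ 2 with hX
  set Z := 𝔼 a, 𝔼 a', 𝔼 b, (n1 a b * n1 a' b) *
      (𝔼 c, (n2 b c - 1) * (g3 a c * g3 a' c)) ^ 2 with hZ
  have i1 : X ^ 2 ≤ (𝔼 a, 𝔼 a', 𝔼 b, n1 a b * n1 a' b) * Z := by
    rw [e1]
    exact wcs3 (fun a a' b => f1 a b * f1 a' b)
      (fun a a' b => 𝔼 c, (n2 b c - 1) * (g3 a c * g3 a' c))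
      (fun a a' b => n1 a b * n1 a' b) (fun a a' b => by
        rw [abs_mul]
        exact mul_le_mul (hf1 _ _) (hf1 _ _) (abs_nonneg _) ((abs_nonneg _).trans (hf1 _ _)))
  have i2 : Z ^ 2 ≤ (𝔼 a, 𝔼 a', 𝔼 c, 𝔼 c',
      (n3 a c + 1) * (n3 a c' + 1) * (n3 a' c + 1) * (n3 a' c' + 1)) *
      (𝔼 a, 𝔼 a', 𝔼 c, 𝔼 c',
      ((n3 a c + 1) * (n3 a c' + 1) * (n3 a' c + 1) * (n3 a' c' + 1)) *
        (𝔼 b, n1 a b * n1 a' b * ((n2 b c - 1) * (n2 b c' - 1))) ^ 2) := by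
    rw [e2]
    exact wcs4 (fun a a' c c' => g3 a c * g3 a c' * g3 a' c * g3 a' c')
      (fun a a' c c' => 𝔼 b, n1 a b * n1 a' b * ((n2 b c - 1) * (n2 b c' - 1)))
      (fun a a' c c' => (n3 a c + 1) * (n3 a c' + 1) * (n3 a' c + 1) * (n3 a' c' + 1))
      (fun a a' c c' => abs_mul4 (hg3 _ _) (hg3 _ _) (hg3 _ _) (hg3 _ _))
  rw [e3] at i2
  have n1nn : ∀ a b, 0 ≤ n1 a b := fun a b => (abs_nonneg _).trans (hf1 a b)
  have n3nn : ∀ a c, 0 ≤ n3 a c + 1 := fun a c => (abs_nonneg _).trans (hg3 a c)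
  have Znn : 0 ≤ Z := Finset.expect_nonneg fun a _ => Finset.expect_nonneg fun a' _ =>
    Finset.expect_nonneg fun b _ => mul_nonneg (mul_nonneg (n1nn _ _) (n1nn _ _)) (sq_nonneg _)
  have j1 := (abs_le.1 (F3 h)).2
  have j2 := (abs_le.1 (F4 h)).2
  have j3 := F5 h
  have k1 : X ^ 2 ≤ 2 * Z := i1.trans (mul_le_mul_of_nonneg_right (by linarith) Znn)
  have k2 : Z ^ 2 ≤ 32 * (256 * δ) := by
    refine (i2.trans (le_abs_self _)).trans ?_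
    rw [abs_mul]
    refine mul_le_mul ?_ j3 (abs_nonneg _) (by norm_num)
    rw [abs_of_nonneg]
    · linarith
    · exact Finset.expect_nonneg fun a _ => Finset.expect_nonneg fun a' _ =>
        Finset.expect_nonneg fun c _ => Finset.expect_nonneg fun c' _ =>
          mul_nonneg (mul_nonneg (mul_nonneg (n3nn _ _) (n3nn _ _)) (n3nn _ _)) (n3nn _ _)
  have k3 : (X ^ 2) ^ 2 ≤ (2 * Z) ^ 2 := pow_le_pow_left₀ (sq_nonneg _) k1 2
  nlinarith [k3, k2]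

/-- replacing `n1` by `1` -/
lemma stepC (h : LFt n1 n2 n3 δ) (hδ1 : δ ≤ 1) {w : β → γ → ℝ} {g3 : α → γ → ℝ}
    (hw : ∀ b c, |w b c| ≤ 3) (hg3 : ∀ a c, |g3 a c| ≤ n3 a c + 1) :
    (𝔼 a, 𝔼 b, (n1 a b - 1) * (𝔼 c, w b c * g3 a c) ^ 2) ^ 4 ≤ 53747712 * δ := by
  have e1 : (𝔼 a, 𝔼 b, (n1 a b - 1) * (𝔼 c, w b c * g3 a c) ^ 2) =
      𝔼 b, 𝔼 c, 𝔼 c', (w b c * w b c') * 𝔼 a, (n1 a b - 1) * (g3 a c * g3 a c') := by
    calc (𝔼 a, 𝔼 b, (n1 a b - 1) * (𝔼 c, w b c * g3 a c) ^ 2)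
        = 𝔼 a, 𝔼 b, 𝔼 c, 𝔼 c', (n1 a b - 1) * ((w b c * g3 a c) * (w b c' * g3 a c')) := by
          simp only [sq_exp, Finset.mul_expect]
      _ = 𝔼 b, 𝔼 a, 𝔼 c, 𝔼 c', (n1 a b - 1) * ((w b c * g3 a c) * (w b c' * g3 a c')) := by
          rw [Finset.expect_comm]
      _ = 𝔼 b, 𝔼 c, 𝔼 c', 𝔼 a, (n1 a b - 1) * ((w b c * g3 a c) * (w b c' * g3 a c')) := by
          refine Finset.expect_congr rfl fun b _ => ?_
          rw [comm3]
      _ = _ := by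
          simp only [Finset.mul_expect]
          refine Finset.expect_congr rfl fun b _ => Finset.expect_congr rfl fun c _ =>
            Finset.expect_congr rfl fun c' _ => Finset.expect_congr rfl fun a _ => ?_
          ring
  have e2 : (𝔼 b, 𝔼 c, 𝔼 c', (𝔼 a, (n1 a b - 1) * (g3 a c * g3 a c')) ^ 2) =
      𝔼 a, 𝔼 a', 𝔼 c, 𝔼 c', (g3 a c * g3 a c' * g3 a' c * g3 a' c') *
        𝔼 b, (n1 a b - 1) * (n1 a' b - 1) := by
    simp only [sq_exp, Finset.mul_expect]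
    calc _ = 𝔼 b, 𝔼 c, 𝔼 a, 𝔼 a', 𝔼 c',
          (n1 a b - 1) * (g3 a c * g3 a c') * ((n1 a' b - 1) * (g3 a' c * g3 a' c')) := by
          refine Finset.expect_congr rfl fun b _ => Finset.expect_congr rfl fun c _ => ?_
          rw [comm3]
      _ = 𝔼 b, 𝔼 a, 𝔼 a', 𝔼 c, 𝔼 c',
          (n1 a b - 1) * (g3 a c * g3 a c') * ((n1 a' b - 1) * (g3 a' c * g3 a' c')) := by
          refine Finset.expect_congr rfl fun b _ => ?_
          rw [comm3]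
      _ = 𝔼 a, 𝔼 a', 𝔼 b, 𝔼 c, 𝔼 c',
          (n1 a b - 1) * (g3 a c * g3 a c') * ((n1 a' b - 1) * (g3 a' c * g3 a' c')) := by
          rw [comm3]
      _ = _ := by
          refine Finset.expect_congr rfl fun a _ => Finset.expect_congr rfl fun a' _ => ?_
          rw [comm3]
          refine Finset.expect_congr rfl fun c _ => Finset.expect_congr rfl fun c' _ =>
            Finset.expect_congr rfl fun b _ => ?_
          ring
  have e3 : (𝔼 a, 𝔼 a', 𝔼 c, 𝔼 c',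
      ((n3 a c + 1) * (n3 a c' + 1) * (n3 a' c + 1) * (n3 a' c' + 1)) *
        (𝔼 b, (n1 a b - 1) * (n1 a' b - 1)) ^ 2) =
      𝔼 a, 𝔼 a', 𝔼 b, 𝔼 b', 𝔼 c, 𝔼 c',
    ((n1 a b - 1) * (n1 a b' - 1) * (n1 a' b - 1) * (n1 a' b' - 1)) *
    ((n3 a c + 1) * (n3 a c' + 1) * (n3 a' c + 1) * (n3 a' c' + 1)) := by
    refine Finset.expect_congr rfl fun a _ => Finset.expect_congr rfl fun a' _ => ?_
    simp only [sq_exp, Finset.mul_expect]
    calc _ = 𝔼 c, 𝔼 b, 𝔼 b', 𝔼 c',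
          (n3 a c + 1) * (n3 a c' + 1) * (n3 a' c + 1) * (n3 a' c' + 1) *
            ((n1 a b - 1) * (n1 a' b - 1) * ((n1 a b' - 1) * (n1 a' b' - 1))) := by
          refine Finset.expect_congr rfl fun c _ => ?_
          rw [comm3]
      _ = _ := by
          rw [comm3]
          refine Finset.expect_congr rfl fun b _ => Finset.expect_congr rfl fun b' _ =>
            Finset.expect_congr rfl fun c _ => Finset.expect_congr rfl fun c' _ => ?_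
          ring
  set X := 𝔼 a, 𝔼 b, (n1 a b - 1) * (𝔼 c, w b c * g3 a c) ^ 2 with hX
  set Z := 𝔼 b, 𝔼 c, 𝔼 c', (𝔼 a, (n1 a b - 1) * (g3 a c * g3 a c')) ^ 2 with hZ
  have i1 : X ^ 2 ≤ 81 * Z := by
    have := wcs3 (fun b c c' => w b c * w b c')
      (fun b c c' => 𝔼 a, (n1 a b - 1) * (g3 a c * g3 a c'))
      (fun _ _ _ => 9) (fun b c c' => by
        rw [abs_mul]
        calc |w b c| * |w b c'| ≤ 3 * 3 :=
              mul_le_mul (hw _ _) (hw _ _) (abs_nonneg _) (by norm_num)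
          _ = 9 := by norm_num)
    rw [← e1] at this
    simp only [Fintype.expect_const, ← Finset.mul_expect] at this
    rw [← hZ] at this
    linarith
  have i2 : Z ^ 2 ≤ (𝔼 a, 𝔼 a', 𝔼 c, 𝔼 c',
      (n3 a c + 1) * (n3 a c' + 1) * (n3 a' c + 1) * (n3 a' c' + 1)) *
      (𝔼 a, 𝔼 a', 𝔼 c, 𝔼 c',
      ((n3 a c + 1) * (n3 a c' + 1) * (n3 a' c + 1) * (n3 a' c' + 1)) *
        (𝔼 b, (n1 a b - 1) * (n1 a' b - 1)) ^ 2) := by
    rw [e2]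
    exact wcs4 (fun a a' c c' => g3 a c * g3 a c' * g3 a' c * g3 a' c')
      (fun a a' c c' => 𝔼 b, (n1 a b - 1) * (n1 a' b - 1))
      (fun a a' c c' => (n3 a c + 1) * (n3 a c' + 1) * (n3 a' c + 1) * (n3 a' c' + 1))
      (fun a a' c c' => abs_mul4 (hg3 _ _) (hg3 _ _) (hg3 _ _) (hg3 _ _))
  rw [e3] at i2
  have n3nn : ∀ a c, 0 ≤ n3 a c + 1 := fun a c => (abs_nonneg _).trans (hg3 a c)
  have Znn : 0 ≤ Z := Finset.expect_nonneg fun a _ => Finset.expect_nonneg fun a' _ =>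
    Finset.expect_nonneg fun b _ => sq_nonneg _
  have j2 := (abs_le.1 (F4 h)).2
  have j3 := F6 h
  have k2 : Z ^ 2 ≤ 32 * (256 * δ) := by
    refine (i2.trans (le_abs_self _)).trans ?_
    rw [abs_mul]
    refine mul_le_mul ?_ j3 (abs_nonneg _) (by norm_num)
    rw [abs_of_nonneg]
    · linarith
    · exact Finset.expect_nonneg fun a _ => Finset.expect_nonneg fun a' _ =>
        Finset.expect_nonneg fun c _ => Finset.expect_nonneg fun c' _ =>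
          mul_nonneg (mul_nonneg (mul_nonneg (n3nn _ _) (n3nn _ _)) (n3nn _ _)) (n3nn _ _)
  have k3 : (X ^ 2) ^ 2 ≤ (81 * Z) ^ 2 := pow_le_pow_left₀ (sq_nonneg _) i1 2
  nlinarith [k3, k2]

/-! ## Clamping -/

/-- clamp to `[-m, m]` -/
def clamp (m x : ℝ) : ℝ := max (-m) (min x m)

lemma abs_clamp {m : ℝ} (hm : 0 ≤ m) (x : ℝ) : |clamp m x| ≤ m := by
  unfold clamp
  rw [abs_le]
  exact ⟨le_max_left _ _, max_le (by linarith) (min_le_right _ _)⟩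

lemma clamp_three {x y : ℝ} (hxy : |x| ≤ y) : x ^ 2 - x * clamp 3 x ≤ 2 * (y - 2) ^ 2 := by
  unfold clamp
  rcases le_total x 3 with h1 | h1
  · rw [min_eq_left h1]
    rcases le_total (-3) x with h2 | h2
    · rw [max_eq_right h2]
      nlinarith [sq_nonneg (y - 2)]
    · rw [max_eq_left h2]
      rw [abs_of_nonpos (by linarith)] at hxy
      nlinarith [sq_nonneg (y - 2), mul_nonneg (show (0:ℝ) ≤ y + x by linarith)
        (show (0:ℝ) ≤ y - x - 3 by linarith)]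
  · rw [min_eq_right h1, max_eq_right (by norm_num)]
    rw [abs_of_nonneg (by linarith)] at hxy
    nlinarith [sq_nonneg (y - 2), mul_nonneg (show (0:ℝ) ≤ y - x by linarith)
        (show (0:ℝ) ≤ y + x - 3 by linarith)]

lemma clamp_seven {x y : ℝ} (hxy : |x| ≤ y) : x ^ 2 - x * clamp 7 x ≤ 3 * (y - 6) ^ 2 := by
  unfold clamp
  rcases le_total x 7 with h1 | h1
  · rw [min_eq_left h1]
    rcases le_total (-7) x with h2 | h2
    · rw [max_eq_right h2]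
      nlinarith [sq_nonneg (y - 6)]
    · rw [max_eq_left h2]
      rw [abs_of_nonpos (by linarith)] at hxy
      nlinarith [sq_nonneg (4 * y - 29), mul_nonneg (show (0:ℝ) ≤ y + x by linarith)
        (show (0:ℝ) ≤ y - x - 7 by linarith)]
  · rw [min_eq_right h1, max_eq_right (by norm_num)]
    rw [abs_of_nonneg (by linarith)] at hxy
    nlinarith [sq_nonneg (4 * y - 29), mul_nonneg (show (0:ℝ) ≤ y - x by linarith)
        (show (0:ℝ) ≤ y + x - 7 by linarith)]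

lemma lin2 (F G : β → γ → ℝ) : (𝔼 b, 𝔼 c, (2 * F b c - 8 * G b c + 8)) =
    2 * (𝔼 b, 𝔼 c, F b c) - 8 * (𝔼 b, 𝔼 c, G b c) + 8 := by
  simp only [Finset.expect_add_distrib, Finset.expect_sub_distrib, Fintype.expect_const,
    Finset.mul_expect]

lemma stepB (h : LFt n1 n2 n3 δ) {f1 : α → β → ℝ} {g3 : α → γ → ℝ}
    (hf1 : ∀ a b, |f1 a b| ≤ n1 a b) (hg3 : ∀ a c, |g3 a c| ≤ n3 a c + 1) :
    (𝔼 b, 𝔼 c, (𝔼 a, f1 a b * g3 a c) ^ 2) ≤
      (𝔼 b, 𝔼 c, (𝔼 a, f1 a b * g3 a c) * clamp 3 (𝔼 a, f1 a b * g3 a c)) + 24 * δ := by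
  have hG : ∀ b c, |𝔼 a, f1 a b * g3 a c| ≤ 𝔼 a, n1 a b * (n3 a c + 1) := fun b c => by
    refine (Finset.abs_expect_le _ _).trans (Finset.expect_le_expect fun a _ => ?_)
    rw [abs_mul]
    exact mul_le_mul (hf1 _ _) (hg3 _ _) (abs_nonneg _) ((abs_nonneg _).trans (hf1 _ _))
  have h1 : (𝔼 b, 𝔼 c, ((𝔼 a, f1 a b * g3 a c) ^ 2 -
      (𝔼 a, f1 a b * g3 a c) * clamp 3 (𝔼 a, f1 a b * g3 a c))) ≤
      𝔼 b, 𝔼 c, 2 * ((𝔼 a, n1 a b * (n3 a c + 1)) - 2) ^ 2 :=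
    Finset.expect_le_expect fun b _ => Finset.expect_le_expect fun c _ => clamp_three (hG b c)
  have h2 : (𝔼 b, 𝔼 c, 2 * ((𝔼 a, n1 a b * (n3 a c + 1)) - 2) ^ 2) =
      2 * ((𝔼 a, 𝔼 a', 𝔼 b, 𝔼 c, (n1 a b * n1 a' b) * ((n3 a c + 1) * (n3 a' c + 1)))
        - 4 * (𝔼 a, 𝔼 b, 𝔼 c, n1 a b * (n3 a c + 1)) + 4) := by
    have e1 : (𝔼 b, 𝔼 c, (𝔼 a, n1 a b * (n3 a c + 1)) ^ 2) =
        𝔼 a, 𝔼 a', 𝔼 b, 𝔼 c, (n1 a b * n1 a' b) * ((n3 a c + 1) * (n3 a' c + 1)) := by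
      simp only [sq_exp]
      calc _ = 𝔼 b, 𝔼 a, 𝔼 a', 𝔼 c, n1 a b * (n3 a c + 1) * (n1 a' b * (n3 a' c + 1)) := by
            refine Finset.expect_congr rfl fun b _ => ?_
            rw [comm3]
        _ = _ := by
            rw [comm3]
            refine Finset.expect_congr rfl fun a _ => Finset.expect_congr rfl fun a' _ =>
              Finset.expect_congr rfl fun b _ => Finset.expect_congr rfl fun c _ => ?_
            ring
    have e2 : (𝔼 b, 𝔼 c, 𝔼 a, n1 a b * (n3 a c + 1)) =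
        𝔼 a, 𝔼 b, 𝔼 c, n1 a b * (n3 a c + 1) := (comm3 _).symm
    have e3 : ∀ b c, 2 * ((𝔼 a, n1 a b * (n3 a c + 1)) - 2) ^ 2 =
        2 * (𝔼 a, n1 a b * (n3 a c + 1)) ^ 2 - 8 * (𝔼 a, n1 a b * (n3 a c + 1)) + 8 :=
      fun b c => by ring
    simp only [e3]
    rw [lin2, e1, e2]
    ring
  simp only [Finset.expect_sub_distrib] at h1
  have j1 := (abs_le.1 (F7 h)).2
  have j2 := (abs_le.1 (F8 h)).1
  rw [h2] at h1
  linarith

lemma stepD (h : LFt n1 n2 n3 δ) {w : β → γ → ℝ} {g3 : α → γ → ℝ}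
    (hw : ∀ b c, |w b c| ≤ 3) (hg3 : ∀ a c, |g3 a c| ≤ n3 a c + 1) :
    (𝔼 a, 𝔼 b, (𝔼 c, w b c * g3 a c) ^ 2) ≤
      (𝔼 a, 𝔼 b, (𝔼 c, w b c * g3 a c) * clamp 7 (𝔼 c, w b c * g3 a c)) + 81 * δ := by
  have hG : ∀ a b, |𝔼 c, w b c * g3 a c| ≤ 3 * ((𝔼 c, n3 a c) + 1) := fun a b => by
    have e1 : 3 * ((𝔼 c, n3 a c) + 1) = 𝔼 c, 3 * (n3 a c + 1) := by
      simp only [← Finset.mul_expect, Finset.expect_add_distrib, Fintype.expect_const]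
    rw [e1]
    refine (Finset.abs_expect_le _ _).trans (Finset.expect_le_expect fun c _ => ?_)
    rw [abs_mul]
    exact mul_le_mul (hw _ _) (hg3 _ _) (abs_nonneg _) (by norm_num)
  have h1 : (𝔼 a, 𝔼 b, ((𝔼 c, w b c * g3 a c) ^ 2 -
      (𝔼 c, w b c * g3 a c) * clamp 7 (𝔼 c, w b c * g3 a c))) ≤
      𝔼 a, 𝔼 _b : β, 3 * (3 * ((𝔼 c, n3 a c) + 1) - 6) ^ 2 :=
    Finset.expect_le_expect fun a _ => Finset.expect_le_expect fun b _ => clamp_seven (hG a b)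
  have h2 : (𝔼 a, 𝔼 _b : β, 3 * (3 * ((𝔼 c, n3 a c) + 1) - 6) ^ 2) =
      27 * ((𝔼 a, 𝔼 c, 𝔼 c', n3 a c * n3 a c') - 2 * (𝔼 a, 𝔼 c, n3 a c) + 1) := by
    have e3 : ∀ a, 3 * (3 * ((𝔼 c, n3 a c) + 1) - 6) ^ 2 =
        27 * (𝔼 c, n3 a c) ^ 2 - 54 * (𝔼 c, n3 a c) + 27 :=
      fun a => by ring
    simp only [e3, Finset.expect_add_distrib, Finset.expect_sub_distrib, Fintype.expect_const]
    simp only [← Finset.mul_expect, sq_exp]
    ring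
  simp only [Finset.expect_sub_distrib] at h1
  have j1 := (abs_le.1 (F9 h)).2
  have j2 := (abs_le.1 (F10 h)).1
  rw [h2] at h1
  linarith

lemma stepE {κ : ℝ} {w : β → γ → ℝ} {g3 : α → γ → ℝ} {v : α → β → ℝ}
    (hw : ∀ b c, |w b c| ≤ 3) (hv : ∀ a b, |v a b| ≤ 7)
    (hcut : ∀ (u : α → ℝ) (v : γ → ℝ), (∀ a, |u a| ≤ 1) → (∀ c, |v c| ≤ 1) →
      |𝔼 a, 𝔼 c, g3 a c * u a * v c| ≤ κ) :
    (𝔼 a, 𝔼 b, (𝔼 c, w b c * g3 a c) * v a b) ≤ 21 * κ := by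
  rw [Finset.expect_comm]
  refine Finset.expect_le Finset.univ_nonempty fun b _ => ?_
  have := hcut (fun a => v a b / 7) (fun c => w b c / 3)
    (fun a => by
      rw [abs_div, abs_of_pos (by norm_num : (0:ℝ) < 7), div_le_one (by norm_num)]
      exact hv a b)
    (fun c => by
      rw [abs_div, abs_of_pos (by norm_num : (0:ℝ) < 3), div_le_one (by norm_num)]
      exact hw b c)
  have e1 : (𝔼 a, (𝔼 c, w b c * g3 a c) * v a b) =
      21 * 𝔼 a, 𝔼 c, g3 a c * (v a b / 7) * (w b c / 3) := by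
    simp only [Finset.mul_expect, Finset.expect_mul]
    refine Finset.expect_congr rfl fun a _ => Finset.expect_congr rfl fun c _ => ?_
    ring
  rw [e1]
  have h2 := (abs_le.1 this).2
  linarith

/-- the counting lemma on types -/
theorem core {d e : ℝ} (hd : 0 ≤ d) (hd1 : d ≤ 1) (he : 0 ≤ e) (h : LFt n1 n2 n3 (d ^ 16))
    {f1 : α → β → ℝ} {f2 : β → γ → ℝ} {g3 : α → γ → ℝ}
    (hf1 : ∀ a b, |f1 a b| ≤ n1 a b) (hf2 : ∀ b c, |f2 b c| ≤ n2 b c)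
    (hg3 : ∀ a c, |g3 a c| ≤ n3 a c + 1)
    (hcut : ∀ (u : α → ℝ) (v : γ → ℝ), (∀ a, |u a| ≤ 1) → (∀ c, |v c| ≤ 1) →
      |𝔼 a, 𝔼 c, g3 a c * u a * v c| ≤ e ^ 4) :
    |𝔼 a, 𝔼 b, 𝔼 c, f1 a b * f2 b c * g3 a c| ≤ 11 * (d + e) := by
  have hδ1 : d ^ 16 ≤ 1 := pow_le_one₀ hd hd1
  have hd2 : d ^ 2 ≤ 1 := pow_le_one₀ hd hd1
  have hd2' : 0 ≤ d ^ 2 := sq_nonneg _
  have hd4 : d ^ 4 ≤ d ^ 2 := pow_le_pow_of_le_one hd hd1 (by norm_num)
  have hd16 : d ^ 16 ≤ d ^ 4 := pow_le_pow_of_le_one hd hd1 (by norm_num)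
  have hd4' : 0 ≤ d ^ 4 := pow_nonneg hd _
  -- second densification
  set G : β → γ → ℝ := fun b c => 𝔼 a, f1 a b * g3 a c with hG
  set w : β → γ → ℝ := fun b c => clamp 3 (G b c) with hw
  set G' : α → β → ℝ := fun a b => 𝔼 c, w b c * g3 a c with hG'
  have hw3 : ∀ b c, |w b c| ≤ 3 := fun b c => abs_clamp (by norm_num) _
  have n1nn : ∀ a b, 0 ≤ n1 a b := fun a b => (abs_nonneg _).trans (hf1 a b)
  have n2nn : ∀ b c, 0 ≤ n2 b c := fun b c => (abs_nonneg _).trans (hf2 b c)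
  have E2 : (𝔼 a, 𝔼 b, G' a b ^ 2) ≤ 21 * e ^ 4 + 81 * d ^ 16 := by
    have i1 := stepD h hw3 hg3
    have i2 := stepE (v := fun a b => clamp 7 (G' a b)) hw3
      (fun a b => abs_clamp (by norm_num) _) hcut
    linarith
  have X2 : (𝔼 a, 𝔼 b, (n1 a b - 1) * G' a b ^ 2) ≤ 86 * d ^ 4 := by
    have i1 := stepC h hδ1 hw3 hg3
    have i2 : (|𝔼 a, 𝔼 b, (n1 a b - 1) * G' a b ^ 2|) ^ 4 ≤ (86 * d ^ 4) ^ 4 := by
      have : (|𝔼 a, 𝔼 b, (n1 a b - 1) * G' a b ^ 2|) ^ 4 =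
          (𝔼 a, 𝔼 b, (n1 a b - 1) * G' a b ^ 2) ^ 4 := by
        rw [← abs_pow]
        exact abs_of_nonneg (by positivity)
      rw [this]
      refine i1.trans ?_
      have : (86 * d ^ 4) ^ 4 = 54700816 * d ^ 16 := by ring
      rw [this]
      have : 0 ≤ d ^ 16 := pow_nonneg hd _
      linarith
    have i3 := le_of_pow_le_pow_left₀ (by norm_num) (by positivity) i2
    exact (le_abs_self _).trans i3
  set T' := 𝔼 a, 𝔼 b, f1 a b * G' a b with hT'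
  have T'b : T' ≤ 7 * e ^ 2 + 19 * d ^ 2 := by
    have i1 := wcs2 f1 G' n1 hf1
    have i2 := (abs_le.1 (F2 h)).2
    have i3 : (𝔼 a, 𝔼 b, n1 a b * G' a b ^ 2) =
        (𝔼 a, 𝔼 b, (n1 a b - 1) * G' a b ^ 2) + (𝔼 a, 𝔼 b, G' a b ^ 2) := by
      simp only [sub_mul, one_mul, Finset.expect_sub_distrib]
      ring
    have i4 : 0 ≤ (𝔼 a, 𝔼 b, n1 a b * G' a b ^ 2) := Finset.expect_nonneg fun a _ =>
      Finset.expect_nonneg fun b _ => mul_nonneg (n1nn _ _) (sq_nonneg _)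
    have i5 : T' ^ 2 ≤ 2 * (𝔼 a, 𝔼 b, n1 a b * G' a b ^ 2) := by
      refine i1.trans (mul_le_mul_of_nonneg_right ?_ i4)
      linarith
    have i6 : T' ^ 2 ≤ (7 * e ^ 2 + 19 * d ^ 2) ^ 2 := by
      have : (7 * e ^ 2 + 19 * d ^ 2) ^ 2 = 49 * e ^ 4 + 361 * d ^ 4 + 266 * (e ^ 2 * d ^ 2) := by
        ring
      rw [this]
      have k1 : 0 ≤ e ^ 2 * d ^ 2 := by positivity
      have k2 : 0 ≤ e ^ 4 := by positivity
      linarith
    exact (le_abs_self _).trans (abs_le_of_sq_le_sq i6 (by positivity))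
  have Xb : (𝔼 b, 𝔼 c, (n2 b c - 1) * G b c ^ 2) ≤ 14 * d ^ 4 := by
    have i1 := stepA h hδ1 hf1 hg3
    have i2 : (|𝔼 b, 𝔼 c, (n2 b c - 1) * G b c ^ 2|) ^ 4 ≤ (14 * d ^ 4) ^ 4 := by
      have : (|𝔼 b, 𝔼 c, (n2 b c - 1) * G b c ^ 2|) ^ 4 =
          (𝔼 b, 𝔼 c, (n2 b c - 1) * G b c ^ 2) ^ 4 := by
        rw [← abs_pow]
        exact abs_of_nonneg (by positivity)
      rw [this]
      refine i1.trans ?_
      have : (14 * d ^ 4) ^ 4 = 38416 * d ^ 16 := by ring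
      rw [this]
      have : 0 ≤ d ^ 16 := pow_nonneg hd _
      linarith
    have i3 := le_of_pow_le_pow_left₀ (by norm_num) (by positivity) i2
    exact (le_abs_self _).trans i3
  have E1 : (𝔼 b, 𝔼 c, G b c ^ 2) ≤ T' + 24 * d ^ 16 := by
    have i1 := stepB h hf1 hg3
    have i2 : (𝔼 b, 𝔼 c, G b c * w b c) = T' := by
      rw [hT']
      simp only [hG, hG', Finset.mul_expect, Finset.expect_mul]
      calc _ = 𝔼 a, 𝔼 b, 𝔼 c, f1 a b * g3 a c * w b c := (comm3 _).symm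
        _ = _ := by
          refine Finset.expect_congr rfl fun a _ => Finset.expect_congr rfl fun b _ =>
            Finset.expect_congr rfl fun c _ => ?_
          ring
    rw [← i2]
    exact i1
  have Tb : (𝔼 a, 𝔼 b, 𝔼 c, f1 a b * f2 b c * g3 a c) = 𝔼 b, 𝔼 c, f2 b c * G b c := by
    simp only [hG, Finset.mul_expect]
    rw [comm3]
    refine Finset.expect_congr rfl fun b _ => Finset.expect_congr rfl fun c _ =>
      Finset.expect_congr rfl fun a _ => ?_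
    ring
  rw [Tb]
  set T := 𝔼 b, 𝔼 c, f2 b c * G b c with hT
  have i1 := wcs2 f2 G n2 hf2
  have i2 := (abs_le.1 (F1 h)).2
  have i3 : (𝔼 b, 𝔼 c, n2 b c * G b c ^ 2) =
      (𝔼 b, 𝔼 c, (n2 b c - 1) * G b c ^ 2) + (𝔼 b, 𝔼 c, G b c ^ 2) := by
    simp only [sub_mul, one_mul, Finset.expect_sub_distrib]
    ring
  have i4 : 0 ≤ (𝔼 b, 𝔼 c, n2 b c * G b c ^ 2) := Finset.expect_nonneg fun a _ =>
    Finset.expect_nonneg fun b _ => mul_nonneg (n2nn _ _) (sq_nonneg _)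
  have i5 : T ^ 2 ≤ 2 * (𝔼 b, 𝔼 c, n2 b c * G b c ^ 2) := by
    refine i1.trans (mul_le_mul_of_nonneg_right ?_ i4)
    linarith
  have i6 : T ^ 2 ≤ (11 * (d + e)) ^ 2 := by
    nlinarith [mul_nonneg hd he, sq_nonneg e]
  exact abs_le_of_sq_le_sq i6 (by positivity)

/-! ## Passing from types to finsets -/

lemma exp3 {ι κ μ ι' κ' μ' : Type*} [Fintype ι'] [Fintype κ'] [Fintype μ']
    (φ : ι' → ι) (ψ : κ' → κ) (χ : μ' → μ) (I : Finset ι) (K : Finset κ) (M : Finset μ)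
    (r s t : ℝ) (h1 : ∀ f : ι → ℝ, 𝔼 x, f (φ x) = (∑ i ∈ I, f i) / r)
    (h2 : ∀ f : κ → ℝ, 𝔼 x, f (ψ x) = (∑ i ∈ K, f i) / s)
    (h3 : ∀ f : μ → ℝ, 𝔼 x, f (χ x) = (∑ i ∈ M, f i) / t) (H : ι → κ → μ → ℝ) :
    (𝔼 x, 𝔼 y, 𝔼 z, H (φ x) (ψ y) (χ z)) =
      (∑ i ∈ I, ∑ j ∈ K, ∑ k ∈ M, H i j k) / (r * s * t) := by
  calc (𝔼 x, 𝔼 y, 𝔼 z, H (φ x) (ψ y) (χ z))
      = 𝔼 x, 𝔼 y, (fun j => (∑ k ∈ M, H (φ x) j k) / t) (ψ y) := by
        refine Finset.expect_congr rfl fun x _ => Finset.expect_congr rfl fun y _ => ?_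
        exact h3 _
    _ = 𝔼 x, (fun i => (∑ j ∈ K, (∑ k ∈ M, H i j k) / t) / s) (φ x) := by
        refine Finset.expect_congr rfl fun x _ => ?_
        exact h2 (fun j => (∑ k ∈ M, H (φ x) j k) / t)
    _ = (∑ i ∈ I, (∑ j ∈ K, (∑ k ∈ M, H i j k) / t) / s) / r :=
        h1 (fun i => (∑ j ∈ K, (∑ k ∈ M, H i j k) / t) / s)
    _ = _ := by
        simp only [← Finset.sum_div]
        rw [div_div, div_div]
        congr 1
        ring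

lemma exp2 {ι κ ι' κ' : Type*} [Fintype ι'] [Fintype κ']
    (φ : ι' → ι) (ψ : κ' → κ) (I : Finset ι) (K : Finset κ)
    (r s : ℝ) (h1 : ∀ f : ι → ℝ, 𝔼 x, f (φ x) = (∑ i ∈ I, f i) / r)
    (h2 : ∀ f : κ → ℝ, 𝔼 x, f (ψ x) = (∑ i ∈ K, f i) / s) (H : ι → κ → ℝ) :
    (𝔼 x, 𝔼 y, H (φ x) (ψ y)) = (∑ i ∈ I, ∑ j ∈ K, H i j) / (r * s) := by
  calc (𝔼 x, 𝔼 y, H (φ x) (ψ y))
      = 𝔼 x, (fun i => (∑ j ∈ K, H i j) / s) (φ x) := by
        refine Finset.expect_congr rfl fun x _ => ?_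
        exact h2 _
    _ = (∑ i ∈ I, (∑ j ∈ K, H i j) / s) / r := h1 (fun i => (∑ j ∈ K, H i j) / s)
    _ = _ := by
        simp only [← Finset.sum_div]
        rw [div_div]
        congr 1
        ring

lemma exp_coe {ι : Type*} (I : Finset ι) (f : ι → ℝ) :
    (𝔼 x : I, f x) = (∑ i ∈ I, f i) / (#I : ℝ) := by
  rw [Fintype.expect_eq_sum_div_card, Finset.sum_coe_sort, Fintype.card_coe]

lemma exp_coe2 {ι : Type*} (I : Finset ι) (f : ι × ι → ℝ) :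
    (𝔼 x : I × I, f (Prod.map Subtype.val Subtype.val x)) = (∑ i ∈ I ×ˢ I, f i) / (#I : ℝ) ^ 2 := by
  rw [exp_prod, Finset.sum_product]
  have := exp2 (fun x : I => x.1) (fun x : I => x.1) I I (#I) (#I) (fun f => exp_coe I f)
    (fun f => exp_coe I f) (fun i j => f (i, j))
  rw [sq]
  exact this

end Dens

/-- **Relative triangle counting by densification.**  Precise form: exponent `1/4` for `ε`. -/
theorem dens_strong {α β γ : Type*} (A : Finset α) (B : Finset β) (C : Finset γ)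
    {n1 : α → β → ℝ} {n2 : β → γ → ℝ} {n3 : α → γ → ℝ} {δ ε : ℝ}
    (hδ0 : 0 ≤ δ) (hδ1 : δ ≤ 1) (hε0 : 0 ≤ ε) (hLF : LF A B C n1 n2 n3 δ)
    {f1 : α → β → ℝ} {f2 : β → γ → ℝ} {g3 : α → γ → ℝ}
    (hf1 : ∀ a ∈ A, ∀ b ∈ B, |f1 a b| ≤ n1 a b) (hf2 : ∀ b ∈ B, ∀ c ∈ C, |f2 b c| ≤ n2 b c)
    (hg3 : ∀ a ∈ A, ∀ c ∈ C, |g3 a c| ≤ n3 a c + 1)
    (hcut : ∀ (u : α → ℝ) (v : γ → ℝ), (∀ a, |u a| ≤ 1) → (∀ c, |v c| ≤ 1) →
      |∑ a ∈ A, ∑ c ∈ C, g3 a c * u a * v c| ≤ ε * ((#A : ℝ) * (#C : ℝ))) :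
    |∑ a ∈ A, ∑ b ∈ B, ∑ c ∈ C, f1 a b * f2 b c * g3 a c| ≤
      11 * (δ ^ (1 / 16 : ℝ) + ε ^ (1 / 4 : ℝ)) * ((#A : ℝ) * (#B : ℝ) * (#C : ℝ)) := by
  classical
  rcases A.eq_empty_or_nonempty with rfl | hA
  · simp
  rcases B.eq_empty_or_nonempty with rfl | hB
  · simp
  rcases C.eq_empty_or_nonempty with rfl | hC
  · simp
  have := hA.coe_sort
  have := hB.coe_sort
  have := hC.coe_sort
  have cA : (0 : ℝ) < #A := by exact_mod_cast hA.card_pos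
  have cB : (0 : ℝ) < #B := by exact_mod_cast hB.card_pos
  have cC : (0 : ℝ) < #C := by exact_mod_cast hC.card_pos
  set d : ℝ := δ ^ (1 / 16 : ℝ) with hd
  set e : ℝ := ε ^ (1 / 4 : ℝ) with he
  have hd16 : d ^ 16 = δ := by
    rw [hd, ← Real.rpow_natCast, ← Real.rpow_mul hδ0]
    norm_num
  have he4 : e ^ 4 = ε := by
    rw [he, ← Real.rpow_natCast, ← Real.rpow_mul hε0]
    norm_num
  have hdnn : 0 ≤ d := Real.rpow_nonneg hδ0 _
  have henn : 0 ≤ e := Real.rpow_nonneg hε0 _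
  have hd1 : d ≤ 1 := Real.rpow_le_one hδ0 hδ1 (by norm_num)
  have hT : Dens.LFt (fun (a : A) (b : B) => n1 a b) (fun (b : B) (c : C) => n2 b c)
      (fun (a : A) (c : C) => n3 a c) (d ^ 16) := by
    intro e1 e2 e3
    have h0 := hLF e1 e2 e3
    have h1 := Dens.exp3 (Prod.map Subtype.val Subtype.val : A × A → α × α)
      (Prod.map Subtype.val Subtype.val : B × B → β × β)
      (Prod.map Subtype.val Subtype.val : C × C → γ × γ) (A ×ˢ A) (B ×ˢ B) (C ×ˢ C)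
      ((#A : ℝ) ^ 2) ((#B : ℝ) ^ 2) ((#C : ℝ) ^ 2) (Dens.exp_coe2 A) (Dens.exp_coe2 B)
      (Dens.exp_coe2 C) (fun a b c => W e1 n1 a b * W e2 n2 b c * W e3 n3 a c)
    have h2 : (𝔼 a : A × A, 𝔼 b : B × B, 𝔼 c : C × C,
        W e1 (fun (a : A) (b : B) => n1 a b) a b * W e2 (fun (b : B) (c : C) => n2 b c) b c *
        W e3 (fun (a : A) (c : C) => n3 a c) a c) =
        (∑ i ∈ A ×ˢ A, ∑ j ∈ B ×ˢ B, ∑ k ∈ C ×ˢ C, W e1 n1 i j * W e2 n2 j k * W e3 n3 i k) /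
          ((#A : ℝ) ^ 2 * (#B : ℝ) ^ 2 * (#C : ℝ) ^ 2) := h1
    rw [h2, hd16]
    have hpos : (0 : ℝ) < (#A : ℝ) ^ 2 * (#B : ℝ) ^ 2 * (#C : ℝ) ^ 2 := by positivity
    rw [div_sub_one hpos.ne', abs_div, abs_of_pos hpos, div_le_iff₀ hpos]
    exact h0
  have key := Dens.core hdnn hd1 henn hT
    (f1 := fun (a : A) (b : B) => f1 a b) (f2 := fun (b : B) (c : C) => f2 b c)
    (g3 := fun (a : A) (c : C) => g3 a c) (fun a b => hf1 a a.2 b b.2)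
    (fun b c => hf2 b b.2 c c.2) (fun a c => hg3 a a.2 c c.2) (by
      intro u v hu hv
      have h0 := hcut (fun a => if h : a ∈ A then u ⟨a, h⟩ else 0)
        (fun c => if h : c ∈ C then v ⟨c, h⟩ else 0)
        (fun a => by
          by_cases h : a ∈ A
          · simp only [h, dite_true]
            exact hu _
          · simp [h])
        (fun c => by
          by_cases h : c ∈ C
          · simp only [h, dite_true]
            exact hv _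
          · simp [h])
      have h1 := Dens.exp2 (fun x : A => x.1) (fun x : C => x.1) A C (#A) (#C)
        (fun f => Dens.exp_coe A f) (fun f => Dens.exp_coe C f)
        (fun a c => g3 a c * (if h : a ∈ A then u ⟨a, h⟩ else 0) *
          (if h : c ∈ C then v ⟨c, h⟩ else 0))
      have h2 : (𝔼 x : A, 𝔼 y : C, g3 x y * (if h : x.1 ∈ A then u ⟨x.1, h⟩ else 0) *
          (if h : y.1 ∈ C then v ⟨y.1, h⟩ else 0)) = 𝔼 x : A, 𝔼 y : C, g3 x y * u x * v y := by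
        refine Finset.expect_congr rfl fun x _ => Finset.expect_congr rfl fun y _ => ?_
        simp only [x.2, y.2, dite_true]
      rw [← h2, h1, he4]
      have hpos : (0 : ℝ) < (#A : ℝ) * (#C : ℝ) := by positivity
      rw [abs_div, abs_of_pos hpos, div_le_iff₀ hpos]
      exact h0)
  have h1 := Dens.exp3 (fun x : A => x.1) (fun x : B => x.1) (fun x : C => x.1) A B C
    (#A) (#B) (#C) (fun f => Dens.exp_coe A f) (fun f => Dens.exp_coe B f)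
    (fun f => Dens.exp_coe C f) (fun a b c => f1 a b * f2 b c * g3 a c)
  have hpos : (0 : ℝ) < (#A : ℝ) * (#B : ℝ) * (#C : ℝ) := by positivity
  rw [h1, abs_div, abs_of_pos hpos, div_le_iff₀ hpos] at key
  exact key

/-- **Relative triangle counting by densification** (Conlon-Fox-Zhao). -/
theorem dens {α β γ : Type*} (A : Finset α) (B : Finset β) (C : Finset γ)
    {n1 : α → β → ℝ} {n2 : β → γ → ℝ} {n3 : α → γ → ℝ} {δ ε : ℝ}
    (hδ0 : 0 ≤ δ) (hδ1 : δ ≤ 1) (hε0 : 0 ≤ ε) (hε1 : ε ≤ 1) (hLF : LF A B C n1 n2 n3 δ)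
    {f1 : α → β → ℝ} {f2 : β → γ → ℝ} {g3 : α → γ → ℝ}
    (hf1 : ∀ a ∈ A, ∀ b ∈ B, |f1 a b| ≤ n1 a b) (hf2 : ∀ b ∈ B, ∀ c ∈ C, |f2 b c| ≤ n2 b c)
    (hg3 : ∀ a ∈ A, ∀ c ∈ C, |g3 a c| ≤ n3 a c + 1)
    (hcut : ∀ (u : α → ℝ) (v : γ → ℝ), (∀ a, |u a| ≤ 1) → (∀ c, |v c| ≤ 1) →
      |∑ a ∈ A, ∑ c ∈ C, g3 a c * u a * v c| ≤ ε * ((#A : ℝ) * (#C : ℝ))) :
    |∑ a ∈ A, ∑ b ∈ B, ∑ c ∈ C, f1 a b * f2 b c * g3 a c| ≤
      11 * (δ ^ (1 / 16 : ℝ) + ε ^ (1 / 16 : ℝ)) * ((#A : ℝ) * (#B : ℝ) * (#C : ℝ)) := by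
  refine (dens_strong A B C hδ0 hδ1 hε0 hLF hf1 hf2 hg3 hcut).trans ?_
  have h1 : ε ^ (1 / 4 : ℝ) ≤ ε ^ (1 / 16 : ℝ) := by
    rcases hε0.eq_or_lt with rfl | hpos
    · rw [Real.zero_rpow (by norm_num), Real.zero_rpow (by norm_num)]
    · exact Real.rpow_le_rpow_of_exponent_ge hpos hε1 (by norm_num)
  gcongr

end Pool.Agent.Lib.MP_325d88_nt
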