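import Mathlib

/-!
# Relative counting by densification (Conlon-Fox-Zhao), tripartite triangle case

Self-contained module for `MP_325d88_nt`.
-/

namespace Pool.Agent.Lib.MP_325d88_nt

open Finset
open scoped BigOperators

/-- the weight of a pattern of the four pairs between `{a.1, a.2}` and `{b.1, b.2}` -/
def W {α β : Type*} (e : Fin 2 → Fin 2 → Bool) (n : α → β → ℝ) (a : α × α) (b : β × β) : ℝ :=
  (if e 0 0 then n a.1 b.1 else 1) * (if e 0 1 then n a.1 b.2 else 1) *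
  (if e 1 0 then n a.2 b.1 else 1) * (if e 1 1 then n a.2 b.2 else 1)

/-- the linear forms condition for the weights `n1, n2, n3` on a triangle -/
def LF {α β γ : Type*} (A : Finset α) (B : Finset β) (C : Finset γ)
    (n1 : α → β → ℝ) (n2 : β → γ → ℝ) (n3 : α → γ → ℝ) (δ : ℝ) : Prop :=
  ∀ e1 e2 e3 : Fin 2 → Fin 2 → Bool,
    |∑ a ∈ A ×ˢ A, ∑ b ∈ B ×ˢ B, ∑ c ∈ C ×ˢ C, W e1 n1 a b * W e2 n2 b c * W e3 n3 a c
      - (#A : ℝ) ^ 2 * (#B : ℝ) ^ 2 * (#C : ℝ) ^ 2|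
      ≤ δ * ((#A : ℝ) ^ 2 * (#B : ℝ) ^ 2 * (#C : ℝ) ^ 2)

namespace Dens

/-! ## Generalities on averages -/

section Avg

variable {α β γ : Type*} [Fintype α] [Fintype β] [Fintype γ]

lemma exp_prod (f : α × β → ℝ) : 𝔼 x, f x = 𝔼 a, 𝔼 b, f (a, b) := by
  rw [← Finset.expect_product', Finset.univ_product_univ]

lemma sq_exp (f : α → ℝ) : (𝔼 a, f a) ^ 2 = 𝔼 a, 𝔼 a', f a * f a' := by
  rw [sq, Finset.expect_mul]
  refine Finset.expect_congr rfl fun a _ => ?_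
  rw [Finset.mul_expect]

lemma comm3 (f : α → β → γ → ℝ) : 𝔼 a, 𝔼 b, 𝔼 c, f a b c = 𝔼 b, 𝔼 c, 𝔼 a, f a b c := by
  rw [Finset.expect_comm]
  refine Finset.expect_congr rfl fun b _ => ?_
  rw [Finset.expect_comm]

/-- weighted Cauchy-Schwarz -/
lemma wcs (f g w : α → ℝ) (hf : ∀ a, |f a| ≤ w a) :
    (𝔼 a, f a * g a) ^ 2 ≤ (𝔼 a, w a) * (𝔼 a, w a * g a ^ 2) := by
  have hw : ∀ a, 0 ≤ w a := fun a => (abs_nonneg _).trans (hf a)
  have h1 : |𝔼 a, f a * g a| ≤ 𝔼 a, Real.sqrt (w a) * (Real.sqrt (w a) * |g a|) := by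
    refine (Finset.abs_expect_le _ _).trans (Finset.expect_le_expect fun a _ => ?_)
    rw [abs_mul, ← mul_assoc, Real.mul_self_sqrt (hw a)]
    exact mul_le_mul_of_nonneg_right (hf a) (abs_nonneg _)
  have h2 := Finset.expect_mul_sq_le_sq_mul_sq univ (fun a => Real.sqrt (w a))
    (fun a => Real.sqrt (w a) * |g a|)
  have h3 : ∀ a, Real.sqrt (w a) ^ 2 = w a := fun a => Real.sq_sqrt (hw a)
  have h4 : ∀ a, (Real.sqrt (w a) * |g a|) ^ 2 = w a * g a ^ 2 := fun a => by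
    rw [mul_pow, h3, sq_abs]
  simp only [h3, h4] at h2
  refine le_trans ?_ h2
  rw [← sq_abs]
  exact pow_le_pow_left₀ (abs_nonneg _) h1 2

lemma wcs2 (f g w : α → β → ℝ) (hf : ∀ a b, |f a b| ≤ w a b) :
    (𝔼 a, 𝔼 b, f a b * g a b) ^ 2 ≤ (𝔼 a, 𝔼 b, w a b) * (𝔼 a, 𝔼 b, w a b * g a b ^ 2) := by
  have := wcs (fun x : α × β => f x.1 x.2) (fun x => g x.1 x.2) (fun x => w x.1 x.2)
    (fun x => hf _ _)
  simpa only [exp_prod] using this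

lemma wcs3 (f g w : α → β → γ → ℝ) (hf : ∀ a b c, |f a b c| ≤ w a b c) :
    (𝔼 a, 𝔼 b, 𝔼 c, f a b c * g a b c) ^ 2 ≤
      (𝔼 a, 𝔼 b, 𝔼 c, w a b c) * (𝔼 a, 𝔼 b, 𝔼 c, w a b c * g a b c ^ 2) := by
  have := wcs2 (fun (a : α) (x : β × γ) => f a x.1 x.2) (fun a x => g a x.1 x.2)
    (fun a x => w a x.1 x.2) (fun _ _ => hf _ _ _)
  simpa only [exp_prod] using this

lemma wcs4 {κ : Type*} [Fintype κ] (f g w : α → β → γ → κ → ℝ)
    (hf : ∀ a b c d, |f a b c d| ≤ w a b c d) :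
    (𝔼 a, 𝔼 b, 𝔼 c, 𝔼 d, f a b c d * g a b c d) ^ 2 ≤
      (𝔼 a, 𝔼 b, 𝔼 c, 𝔼 d, w a b c d) * (𝔼 a, 𝔼 b, 𝔼 c, 𝔼 d, w a b c d * g a b c d ^ 2) := by
  have := wcs3 (fun (a : α) (b : β) (x : γ × κ) => f a b x.1 x.2) (fun a b x => g a b x.1 x.2)
    (fun a b x => w a b x.1 x.2) (fun _ _ _ => hf _ _ _ _)
  simpa only [exp_prod] using this

end Avg

/-! ## Expanding products -/

lemma expand {ι Ω : Type*} [Fintype ι] [DecidableEq ι] [Fintype Ω] (x : ι → Ω → ℝ) (δ : ℝ)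
    (h : ∀ t : Finset ι, |(𝔼 ω, ∏ i ∈ t, x i ω) - 1| ≤ δ) (p q : ι → ℝ) :
    |(𝔼 ω, ∏ i, (p i * x i ω + q i)) - ∏ i, (p i + q i)| ≤ δ * ∏ i, (|p i| + |q i|) := by
  have h1 : ∀ ω, ∏ i, (p i * x i ω + q i) =
      ∑ t ∈ (univ : Finset ι).powerset,
        ((∏ i ∈ t, p i) * (∏ i ∈ univ \ t, q i)) * ∏ i ∈ t, x i ω := by
    intro ω
    rw [Finset.prod_add]
    refine Finset.sum_congr rfl fun t _ => ?_
    rw [Finset.prod_mul_distrib]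
    ring
  have h2 : (𝔼 ω, ∏ i, (p i * x i ω + q i)) =
      ∑ t ∈ (univ : Finset ι).powerset,
        ((∏ i ∈ t, p i) * (∏ i ∈ univ \ t, q i)) * 𝔼 ω, ∏ i ∈ t, x i ω := by
    simp_rw [h1]
    rw [Finset.expect_sum_comm]
    refine Finset.sum_congr rfl fun t _ => ?_
    rw [Finset.mul_expect]
  rw [h2, Finset.prod_add, Finset.prod_add, ← Finset.sum_sub_distrib, Finset.mul_sum]
  refine (Finset.abs_sum_le_sum_abs _ _).trans (Finset.sum_le_sum fun t _ => ?_)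
  have h3 : (∏ i ∈ t, p i) * (∏ i ∈ univ \ t, q i) * (𝔼 ω, ∏ i ∈ t, x i ω) -
      (∏ i ∈ t, p i) * (∏ i ∈ univ \ t, q i) =
      ((∏ i ∈ t, p i) * (∏ i ∈ univ \ t, q i)) * ((𝔼 ω, ∏ i ∈ t, x i ω) - 1) := by ring
  rw [h3, abs_mul, abs_mul, Finset.abs_prod, Finset.abs_prod, mul_comm δ]
  exact mul_le_mul_of_nonneg_left (h t) (by positivity)

/-! ## The linear forms condition on types -/

section Forms

variable {α β γ : Type*} [Fintype α] [Fintype β] [Fintype γ]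

/-- normalized linear forms condition on finite types -/
def LFt (n1 : α → β → ℝ) (n2 : β → γ → ℝ) (n3 : α → γ → ℝ) (δ : ℝ) : Prop :=
  ∀ e1 e2 e3 : Fin 2 → Fin 2 → Bool,
    |(𝔼 a : α × α, 𝔼 b : β × β, 𝔼 c : γ × γ, W e1 n1 a b * W e2 n2 b c * W e3 n3 a c) - 1| ≤ δ

/-- product of four affine factors -/
def V {α β : Type*} (p q : Fin 2 → Fin 2 → ℝ) (n : α → β → ℝ) (a : α × α) (b : β × β) : ℝ :=
  (p 0 0 * n a.1 b.1 + q 0 0) * (p 0 1 * n a.1 b.2 + q 0 1) *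
  (p 1 0 * n a.2 b.1 + q 1 0) * (p 1 1 * n a.2 b.2 + q 1 1)

/-- value of the product at `1` -/
def P (p q : Fin 2 → Fin 2 → ℝ) : ℝ :=
  (p 0 0 + q 0 0) * (p 0 1 + q 0 1) * (p 1 0 + q 1 0) * (p 1 1 + q 1 1)

/-- bound for the product -/
def Q (p q : Fin 2 → Fin 2 → ℝ) : ℝ :=
  (|p 0 0| + |q 0 0|) * (|p 0 1| + |q 0 1|) * (|p 1 0| + |q 1 0|) * (|p 1 1| + |q 1 1|)

/-- the twelve forms -/
def xs (n1 : α → β → ℝ) (n2 : β → γ → ℝ) (n3 : α → γ → ℝ) (i : Fin 3 × Fin 2 × Fin 2)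
    (ω : (α × α) × (β × β) × (γ × γ)) : ℝ :=
  ![n1 (![ω.1.1, ω.1.2] i.2.1) (![ω.2.1.1, ω.2.1.2] i.2.2),
    n2 (![ω.2.1.1, ω.2.1.2] i.2.1) (![ω.2.2.1, ω.2.2.2] i.2.2),
    n3 (![ω.1.1, ω.1.2] i.2.1) (![ω.2.2.1, ω.2.2.2] i.2.2)] i.1

lemma master {n1 : α → β → ℝ} {n2 : β → γ → ℝ} {n3 : α → γ → ℝ} {δ : ℝ} (h : LFt n1 n2 n3 δ)
    (p1 q1 p2 q2 p3 q3 : Fin 2 → Fin 2 → ℝ) :
    |(𝔼 a : α × α, 𝔼 b : β × β, 𝔼 c : γ × γ, V p1 q1 n1 a b * V p2 q2 n2 b c * V p3 q3 n3 a c)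
      - P p1 q1 * P p2 q2 * P p3 q3| ≤ δ * (Q p1 q1 * Q p2 q2 * Q p3 q3) := by
  have key := expand (xs n1 n2 n3) δ (by
    intro t
    have h0 := h (fun i j => decide ((0, i, j) ∈ t)) (fun i j => decide ((1, i, j) ∈ t))
      (fun i j => decide ((2, i, j) ∈ t))
    have h1 : (𝔼 ω, ∏ i ∈ t, xs n1 n2 n3 i ω) = 𝔼 a : α × α, 𝔼 b : β × β, 𝔼 c : γ × γ,
        W (fun i j => decide ((0, i, j) ∈ t)) n1 a b *
        W (fun i j => decide ((1, i, j) ∈ t)) n2 b c *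
        W (fun i j => decide ((2, i, j) ∈ t)) n3 a c := by
      rw [exp_prod]
      refine Finset.expect_congr rfl fun a _ => ?_
      rw [exp_prod]
      refine Finset.expect_congr rfl fun b _ => ?_
      refine Finset.expect_congr rfl fun c _ => ?_
      have h2 : ∏ i ∈ t, xs n1 n2 n3 i (a, b, c) =
          ∏ i, if i ∈ t then xs n1 n2 n3 i (a, b, c) else 1 := by
        rw [Finset.prod_ite_mem, Finset.univ_inter]
      rw [h2]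
      simp only [Fintype.prod_prod_type, Fin.prod_univ_three, Fin.prod_univ_two, W, xs,
        decide_eq_true_eq]
      simp only [Matrix.cons_val_zero, Matrix.cons_val_one, Matrix.cons_val]
      ring
    rw [h1]
    exact h0)
    (fun i => ![p1 i.2.1 i.2.2, p2 i.2.1 i.2.2, p3 i.2.1 i.2.2] i.1)
    (fun i => ![q1 i.2.1 i.2.2, q2 i.2.1 i.2.2, q3 i.2.1 i.2.2] i.1)
  have h1 : (𝔼 ω, ∏ i : Fin 3 × Fin 2 × Fin 2,
      (![p1 i.2.1 i.2.2, p2 i.2.1 i.2.2, p3 i.2.1 i.2.2] i.1 * xs n1 n2 n3 i ω +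
        ![q1 i.2.1 i.2.2, q2 i.2.1 i.2.2, q3 i.2.1 i.2.2] i.1)) =
      𝔼 a : α × α, 𝔼 b : β × β, 𝔼 c : γ × γ,
        V p1 q1 n1 a b * V p2 q2 n2 b c * V p3 q3 n3 a c := by
    rw [exp_prod]
    refine Finset.expect_congr rfl fun a _ => ?_
    rw [exp_prod]
    refine Finset.expect_congr rfl fun b _ => ?_
    refine Finset.expect_congr rfl fun c _ => ?_
    simp only [Fintype.prod_prod_type, Fin.prod_univ_three, Fin.prod_univ_two, V, xs]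
    simp only [Matrix.cons_val_zero, Matrix.cons_val_one, Matrix.cons_val]
    ring
  have h2 : ∏ i : Fin 3 × Fin 2 × Fin 2,
      (![p1 i.2.1 i.2.2, p2 i.2.1 i.2.2, p3 i.2.1 i.2.2] i.1 +
        ![q1 i.2.1 i.2.2, q2 i.2.1 i.2.2, q3 i.2.1 i.2.2] i.1) =
      P p1 q1 * P p2 q2 * P p3 q3 := by
    simp only [Fintype.prod_prod_type, Fin.prod_univ_three, Fin.prod_univ_two, P]
    simp only [Matrix.cons_val_zero, Matrix.cons_val_one, Matrix.cons_val]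
    ring
  have h3 : ∏ i : Fin 3 × Fin 2 × Fin 2,
      (|![p1 i.2.1 i.2.2, p2 i.2.1 i.2.2, p3 i.2.1 i.2.2] i.1| +
        |![q1 i.2.1 i.2.2, q2 i.2.1 i.2.2, q3 i.2.1 i.2.2] i.1|) =
      Q p1 q1 * Q p2 q2 * Q p3 q3 := by
    simp only [Fintype.prod_prod_type, Fin.prod_univ_three, Fin.prod_univ_two, Q]
    simp only [Matrix.cons_val_zero, Matrix.cons_val_one, Matrix.cons_val]
    ring
  rw [h1, h2, h3] at key
  exact key

end Forms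

end Dens

end Pool.Agent.Lib.MP_325d88_nt
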