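import Pool.Agent.Lib.MP_325d88_nt.PNTWiener

/-!
# The prime number theorem in arithmetic progressions

Main results: `psi_ap` (von Mangoldt version), `theta_ap` and `pnt_ap`.
-/

set_option autoImplicit false

open Real Filter Topology

namespace Pool.Agent.MP_325d88_nt

open PNT
open ArithmeticFunction hiding log

/-- Prime number theorem in arithmetic progressions for the von Mangoldt function. -/
theorem psi_ap (q : ℕ) (hq : 0 < q) (a : ℕ) (ha : Nat.Coprime a q) :
    Tendsto (fun x : ℝ => (∑ k ∈ Finset.Icc 1 ⌊x⌋₊,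
      ArithmeticFunction.vonMangoldt.residueClass (a : ZMod q) k) / x) atTop
      (𝓝 (1 / (Nat.totient q : ℝ))) := by
  have : NeZero q := ⟨hq.ne'⟩
  have hu : IsUnit (a : ZMod q) := (ZMod.isUnit_iff_coprime a q).mpr ha
  refine wiener_ikehara (G := ArithmeticFunction.vonMangoldt.LFunctionResidueClassAux
    (a : ZMod q)) (C := log 4 + 4) (vonMangoldt.residueClass_nonneg _) ?_
    (vonMangoldt.continuousOn_LFunctionResidueClassAux _) ?_
  · intro n
    have h1 := Chebyshev.psi_le_const_mul_self (Nat.cast_nonneg (α := ℝ) n)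
    refine le_trans ?_ h1
    rw [Chebyshev.psi, Nat.floor_natCast]
    exact Finset.sum_le_sum fun k _ => vonMangoldt.residueClass_le _ k
  · intro s hs
    rw [vonMangoldt.eqOn_LFunctionResidueClassAux hu hs]
    push_cast
    rw [one_div]

/-- the primes up to `x` congruent to `a` modulo `q` -/
def primesAP (q a x : ℕ) : Finset ℕ :=
  (Finset.range (x + 1)).filter (fun p => p.Prime ∧ p ≡ a [MOD q])

/-- Prime number theorem in arithmetic progressions, `theta` version. -/
theorem theta_ap (q : ℕ) (hq : 0 < q) (a : ℕ) (ha : Nat.Coprime a q) :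
    Tendsto (fun x : ℕ => (∑ p ∈ primesAP q a x, log p) / x) atTop
      (𝓝 (1 / (Nat.totient q : ℝ))) := by
  have h1 := (psi_ap q hq a ha).comp (tendsto_natCast_atTop_atTop (R := ℝ))
  have h2 : Tendsto (fun x : ℕ => 2 * √(x:ℝ) * log x / x) atTop (𝓝 0) := by
    have h3 : Tendsto (fun x : ℝ => 2 * √x * log x / x) atTop (𝓝 0) := by
      have h4 := (isLittleO_log_rpow_atTop (show (0:ℝ) < 1/2 by norm_num)).tendsto_div_nhds_zero
      have h5 := h4.const_mul 2
      rw [mul_zero] at h5
      refine h5.congr' ?_
      filter_upwards [eventually_gt_atTop 0] with x hx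
      rw [← Real.sqrt_eq_rpow]
      have h6 : √x * √x = x := Real.mul_self_sqrt hx.le
      have h7 : √x ≠ 0 := (Real.sqrt_pos.mpr hx).ne'
      field_simp
      rw [sq, h6]
    exact h3.comp tendsto_natCast_atTop_atTop
  have h8 : ∀ᶠ x : ℕ in atTop,
      ((∑ k ∈ Finset.Icc 1 x, vonMangoldt.residueClass (a : ZMod q) k) / (x:ℝ)) -
        2 * √(x:ℝ) * log x / x ≤ (∑ p ∈ primesAP q a x, log p) / x ∧
      (∑ p ∈ primesAP q a x, log p) / x ≤
        (∑ k ∈ Finset.Icc 1 x, vonMangoldt.residueClass (a : ZMod q) k) / (x:ℝ) := by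
    filter_upwards [eventually_ge_atTop 1] with x hx
    have hx' : (1:ℝ) ≤ x := by exact_mod_cast hx
    have hsum : ∑ p ∈ primesAP q a x, log p =
        ∑ k ∈ Finset.Icc 1 x, (if k.Prime ∧ k ≡ a [MOD q] then log k else 0) := by
      unfold primesAP
      rw [Finset.sum_filter]
      refine (Finset.sum_subset ?_ ?_).symm
      · intro k hk
        rw [Finset.mem_Icc] at hk
        rw [Finset.mem_range]
        omega
      · intro k hk hk'
        rw [Finset.mem_range] at hk
        rw [Finset.mem_Icc] at hk'
        have : k = 0 := by omega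
        rw [this]
        simp
    have hterm : ∀ k : ℕ, (if k.Prime ∧ k ≡ a [MOD q] then log k else 0) ≤
        vonMangoldt.residueClass (a : ZMod q) k ∧
        vonMangoldt.residueClass (a : ZMod q) k - (if k.Prime ∧ k ≡ a [MOD q] then log k else 0) ≤
        (if ¬ k.Prime then vonMangoldt k else 0) := by
      intro k
      have hiff : ((k : ZMod q) = (a : ZMod q)) ↔ k ≡ a [MOD q] := ZMod.natCast_eq_natCast_iff k a q
      by_cases hp : k.Prime
      · by_cases hk : k ≡ a [MOD q]
        · simp only [hp, hk, and_self, if_true, not_true_eq_false, if_false,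
            vonMangoldt.residueClass]
          rw [Set.indicator_of_mem (by exact hiff.mpr hk), vonMangoldt_apply_prime hp]
          simp
        · simp only [hp, hk, and_false, if_false, not_true_eq_false,
            vonMangoldt.residueClass]
          have hk' : k ∉ {n : ℕ | (n : ZMod q) = (a : ZMod q)} := fun h => hk (hiff.mp h)
          rw [Set.indicator_of_notMem hk']
          simp
      · simp only [hp, false_and, if_false, not_false_eq_true, if_true, sub_zero]
        exact ⟨vonMangoldt.residueClass_nonneg _ k, vonMangoldt.residueClass_le _ k⟩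
    have hup : ∑ p ∈ primesAP q a x, log p ≤
        ∑ k ∈ Finset.Icc 1 x, vonMangoldt.residueClass (a : ZMod q) k := by
      rw [hsum]
      exact Finset.sum_le_sum fun k _ => (hterm k).1
    have hlo : (∑ k ∈ Finset.Icc 1 x, vonMangoldt.residueClass (a : ZMod q) k) -
        ∑ p ∈ primesAP q a x, log p ≤ 2 * √(x:ℝ) * log x := by
      refine le_trans ?_ (Chebyshev.psi_sub_theta_le hx')
      rw [Chebyshev.psi_sub_theta_eq_sum_not_prime, Finset.sum_filter, Nat.floor_natCast, hsum,
        ← Finset.sum_sub_distrib]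
      exact Finset.sum_le_sum fun k _ => (hterm k).2
    have hx0 : (0:ℝ) < x := by linarith
    constructor
    · rw [← sub_div]
      exact div_le_div_of_nonneg_right (by linarith) hx0.le
    · exact div_le_div_of_nonneg_right hup hx0.le
  have h9 : Tendsto (fun x : ℕ =>
      ((∑ k ∈ Finset.Icc 1 x, vonMangoldt.residueClass (a : ZMod q) k) / (x:ℝ))) atTop
      (𝓝 (1 / (Nat.totient q : ℝ))) := by
    refine h1.congr ?_
    intro x
    simp only [Function.comp, Nat.floor_natCast]
  have h10 := h9.sub h2
  rw [sub_zero] at h10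
  exact tendsto_of_tendsto_of_tendsto_of_le_of_le' h10 h9 (h8.mono fun _ h => h.1)
    (h8.mono fun _ h => h.2)

/-- Prime number theorem in arithmetic progressions. -/
theorem pnt_ap (q : ℕ) (hq : 0 < q) (a : ℕ) (ha : Nat.Coprime a q) :
    Filter.Tendsto (fun x : ℕ => (((Finset.range (x+1)).filter
      (fun p => p.Prime ∧ p ≡ a [MOD q])).card : ℝ) * Real.log x / x) Filter.atTop
      (nhds (1 / (Nat.totient q : ℝ))) := by
  have hθ := theta_ap q hq a ha
  set c : ℝ := 1 / (Nat.totient q : ℝ) with hc
  have hlow : ∀ᶠ x : ℕ in atTop, (∑ p ∈ primesAP q a x, log p) / x ≤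
      ((primesAP q a x).card : ℝ) * log x / x := by
    filter_upwards [eventually_ge_atTop 1] with x hx
    refine div_le_div_of_nonneg_right ?_ (Nat.cast_nonneg x)
    rw [← nsmul_eq_mul]
    refine Finset.sum_le_card_nsmul _ _ _ ?_
    intro p hp
    simp only [primesAP, Finset.mem_filter, Finset.mem_range] at hp
    exact Real.log_le_log (by exact_mod_cast hp.2.1.pos) (by exact_mod_cast Nat.lt_succ_iff.mp hp.1)
  have hupp : ∀ ε : ℝ, 0 < ε → ε < 1 → ∀ᶠ x : ℕ in atTop,
      ((primesAP q a x).card : ℝ) * log x / x ≤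
        (x:ℝ) ^ (-ε) * log x + (∑ p ∈ primesAP q a x, log p) / x / (1 - ε) := by
    intro ε hε hε1
    filter_upwards [eventually_ge_atTop 2] with x hx
    have hx0 : (0:ℝ) < x := by positivity
    have hx1 : (1:ℝ) < x := by exact_mod_cast hx
    have hlog : 0 < log x := Real.log_pos hx1
    set y : ℝ := (x:ℝ) ^ (1 - ε) with hy
    have hy1 : 0 < y := by positivity
    have hsplit : ((primesAP q a x).card : ℝ) ≤ y + (∑ p ∈ primesAP q a x, log p) / log y := by
      have hlogy : log y = (1 - ε) * log x := by rw [hy, Real.log_rpow hx0]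
      have hlogy0 : 0 < log y := by rw [hlogy]; exact mul_pos (by linarith) hlog
      have h1 : ((primesAP q a x).card : ℝ) =
          (((primesAP q a x).filter (fun p : ℕ => (p:ℝ) ≤ y)).card : ℝ) +
          (((primesAP q a x).filter (fun p : ℕ => ¬ (p:ℝ) ≤ y)).card : ℝ) := by
        rw [← Nat.cast_add, Finset.card_filter_add_card_filter_not]
      have h2 : (((primesAP q a x).filter (fun p : ℕ => (p:ℝ) ≤ y)).card : ℝ) ≤ y := by
        have h3 : (primesAP q a x).filter (fun p : ℕ => (p:ℝ) ≤ y) ⊆ Finset.Icc 1 ⌊y⌋₊ := by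
          intro p hp
          simp only [primesAP, Finset.mem_filter] at hp
          rw [Finset.mem_Icc]
          exact ⟨hp.1.2.1.pos, Nat.le_floor hp.2⟩
        have h4 := Finset.card_le_card h3
        rw [Nat.card_Icc, Nat.add_sub_cancel] at h4
        exact le_trans (by exact_mod_cast h4) (Nat.floor_le hy1.le)
      have h5 : (((primesAP q a x).filter (fun p : ℕ => ¬ (p:ℝ) ≤ y)).card : ℝ) * log y ≤
          ∑ p ∈ primesAP q a x, log p := by
        calc (((primesAP q a x).filter (fun p : ℕ => ¬ (p:ℝ) ≤ y)).card : ℝ) * log y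
            ≤ ∑ p ∈ (primesAP q a x).filter (fun p : ℕ => ¬ (p:ℝ) ≤ y), log p := by
              rw [← nsmul_eq_mul]
              refine Finset.card_nsmul_le_sum _ _ _ ?_
              intro p hp
              rw [Finset.mem_filter, not_le] at hp
              exact Real.log_le_log hy1 hp.2.le
          _ ≤ ∑ p ∈ primesAP q a x, log p := by
              refine Finset.sum_le_sum_of_subset_of_nonneg (Finset.filter_subset _ _) ?_
              intro p _ _
              exact Real.log_natCast_nonneg p
      rw [h1]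
      refine add_le_add h2 ?_
      rw [le_div_iff₀ hlogy0]
      exact h5
    have hlogy : log y = (1 - ε) * log x := by rw [hy, Real.log_rpow hx0]
    rw [hlogy] at hsplit
    have h1ε : 0 < 1 - ε := by linarith
    calc ((primesAP q a x).card : ℝ) * log x / x
        ≤ (y + (∑ p ∈ primesAP q a x, log p) / ((1 - ε) * log x)) * log x / x := by
          gcongr
      _ = (y / x) * log x + (∑ p ∈ primesAP q a x, log p) / x / (1 - ε) := by
          field_simp
      _ = (x:ℝ) ^ (-ε) * log x + (∑ p ∈ primesAP q a x, log p) / x / (1 - ε) := by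
          congr 2
          rw [hy, ← Real.rpow_sub_one hx0.ne']
          congr 1
          ring
  have hc0 : 0 ≤ c := by rw [hc]; positivity
  change Tendsto (fun x : ℕ => ((primesAP q a x).card : ℝ) * Real.log x / x) atTop (𝓝 c)
  rw [tendsto_order]
  constructor
  · intro b hb
    filter_upwards [hlow, hθ.eventually (lt_mem_nhds hb)] with x h1 h2
    exact lt_of_lt_of_le h2 h1
  · intro b hb
    -- choose `ε` with `c / (1 - ε) < b`
    have hcont : Tendsto (fun ε : ℝ => c / (1 - ε)) (𝓝[>] 0) (𝓝 c) := by
      have : ContinuousAt (fun ε : ℝ => c / (1 - ε)) 0 := by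
        refine ContinuousAt.div (by fun_prop) (by fun_prop) (by norm_num)
      have := this.tendsto
      rw [sub_zero, div_one] at this
      exact this.mono_left nhdsWithin_le_nhds
    obtain ⟨ε, h1, h2⟩ := ((hcont.eventually (gt_mem_nhds hb)).and
      (Ioo_mem_nhdsGT (show (0:ℝ) < 1 by norm_num))).exists
    have h3 : Tendsto (fun x : ℕ => (x:ℝ) ^ (-ε) * log x +
        (∑ p ∈ primesAP q a x, log p) / x / (1 - ε)) atTop (𝓝 (0 + c / (1 - ε))) := by
      refine Tendsto.add ?_ (hθ.div_const _)
      have h4 := (isLittleO_log_rpow_atTop h2.1).tendsto_div_nhds_zero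
      have h5 := h4.comp (tendsto_natCast_atTop_atTop (R := ℝ))
      refine h5.congr' ?_
      filter_upwards [eventually_gt_atTop 0] with x hx
      simp only [Function.comp]
      rw [Real.rpow_neg (Nat.cast_nonneg x), div_eq_mul_inv, mul_comm]
    rw [zero_add] at h3
    filter_upwards [hupp ε h2.1 h2.2, h3.eventually (gt_mem_nhds h1)] with x h4 h5
    exact lt_of_le_of_lt h4 h5

end Pool.Agent.MP_325d88_nt
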