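import Mathlib
import Pool.Agent.Lib.MP_325d88_nt.BoxSieve
import Pool.Agent.Lib.MP_325d88_nt.Exp

/-!
# Rough numbers: one-dimensional sieve and sieve weights
-/

namespace Pool.Agent.Lib.MP_325d88_nt

open Finset Pool.Agent.Lib.MP_369a91_nt

noncomputable section

/-- indicator of divisibility -/
def dv (p : ℕ) (m : ℤ) : ℝ := if (p : ℤ) ∣ m then 1 else 0

theorem dv_01 (p : ℕ) (m : ℤ) : dv p m = 0 ∨ dv p m = 1 := by
  unfold dv; split_ifs
  · right; rfl
  · left; rfl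

theorem dv_nonneg (p : ℕ) (m : ℤ) : 0 ≤ dv p m := by
  rcases dv_01 p m with h | h <;> rw [h]; norm_num

theorem dv_le_one (p : ℕ) (m : ℤ) : dv p m ≤ 1 := by
  rcases dv_01 p m with h | h <;> rw [h]; norm_num

/-- indicator of rough numbers: no prime factor in `(w,z]` -/
def rgh (w z : ℕ) (m : ℤ) : ℝ := ∏ p ∈ PR w z, (1 - dv p m)

theorem rgh_eq (w z : ℕ) (m : ℤ) :
    rgh w z m = if ∀ p ∈ PR w z, ¬ ((p : ℤ) ∣ m) then 1 else 0 := by
  unfold rgh
  split_ifs with h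
  · apply Finset.prod_eq_one
    intro p hp
    unfold dv
    rw [if_neg (h p hp)]; ring
  · push Not at h
    obtain ⟨p, hp, hpm⟩ := h
    apply Finset.prod_eq_zero hp
    unfold dv
    rw [if_pos hpm]; ring

theorem rgh_nonneg (w z : ℕ) (m : ℤ) : 0 ≤ rgh w z m := by
  rw [rgh_eq]; split_ifs <;> norm_num

theorem rgh_le_one (w z : ℕ) (m : ℤ) : rgh w z m ≤ 1 := by
  rw [rgh_eq]; split_ifs <;> norm_num

/-- `∏_{w<p≤z} (1 - 1/p)` -/
def VV (w z : ℕ) : ℝ := ∏ p ∈ PR w z, (1 - 1 / (p : ℝ))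

theorem inv_prime_le_half (w z : ℕ) (p : ℕ) (hp : p ∈ PR w z) : 1 / (p : ℝ) ≤ 1 / 2 := by
  rw [mem_PR] at hp
  have h2 : (2 : ℝ) ≤ p := by exact_mod_cast hp.2.2.two_le
  exact one_div_le_one_div_of_le (by norm_num) h2

theorem VV_pos (w z : ℕ) : 0 < VV w z := by
  unfold VV
  apply Finset.prod_pos
  intro p hp
  have := inv_prime_le_half w z p hp
  linarith

theorem VV_le_one (w z : ℕ) : VV w z ≤ 1 := by
  unfold VV
  apply Finset.prod_le_one
  · intro p hp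
    have := inv_prime_le_half w z p hp
    linarith
  · intro p _
    have : (0 : ℝ) ≤ 1 / (p : ℝ) := by positivity
    linarith

theorem box_unit_sum (A : ℤ) (L : ℕ) (f : (Unit → ℤ) → ℝ) :
    ∑ v ∈ box (fun _ : Unit => A) (fun _ => L), f v =
      ∑ t ∈ Finset.Ico A (A + L), f (fun _ => t) := by
  apply Finset.sum_nbij' (fun v => v ()) (fun t => fun _ => t)
  · intro v hv
    rw [mem_box] at hv
    rw [Finset.mem_Ico]
    exact hv ()
  · intro t ht
    rw [mem_box]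
    rw [Finset.mem_Ico] at ht
    intro _
    exact ht
  · intro v _
    funext x
    rfl
  · intro t _
    rfl
  · intro v _
    rfl

theorem cube_unit_sum (d : ℕ) (f : (Unit → ℤ) → ℝ) :
    ∑ v ∈ cube Unit d, f v = ∑ t ∈ Finset.Ico (0 : ℤ) d, f (fun _ => t) := by
  have h : cube Unit d = box (fun _ : Unit => (0 : ℤ)) (fun _ => d) := by
    unfold cube box
    simp
  rw [h, box_unit_sum]
  simp

/-- one-dimensional sieve, exact asymptotics -/
theorem line_sieve (κ : ℝ) (hκ : 0 ≤ κ) (ε : ℝ) (hε : 0 < ε) (hε2 : ε ≤ 1 / 2)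
    (b : ℕ) (hb : Good κ b ε) :
    ∃ Z0 : ℕ, ∀ (w z M : ℕ), 1 ≤ w → Z0 ≤ z → z ^ (8 * b + 15) ≤ M →
      ∀ (A : ℤ) (L : ℕ), M ≤ L →
      ∀ (F : ℕ → ℤ → ℝ), (∀ p ∈ PR w z, ∀ t t' : ℤ, t ≡ t' [ZMOD (p : ℤ)] → F p t = F p t') →
        (∀ p t, F p t = 0 ∨ F p t = 1) →
      ∀ (g : ℕ → ℝ), (∀ p, 0 ≤ g p) → (∀ p, g p ≤ 1 / 2) → (∀ p ∈ PR w z, g p ≤ κ / p) →
        (∀ p ∈ PR w z, ∑ t ∈ Finset.Ico (0 : ℤ) p, F p t = g p * (p : ℝ)) →
      |∑ t ∈ Finset.Ico A (A + L), ∏ p ∈ PR w z, (1 - F p t) -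
        (∏ p ∈ PR w z, (1 - g p)) * L| ≤ (3 * ε) * ((∏ p ∈ PR w z, (1 - g p)) * L) := by
  obtain ⟨Z0, h⟩ := box_sieve 1 κ hκ ε hε hε2 b hb
  refine ⟨Z0, ?_⟩
  intro w z M hw hz hzM A L hML F hF hF01 g hg0 hg1 hgκ hg
  have h1 := h Unit (by simp) w z M hw hz hzM (fun _ => A) (fun _ => L) (fun _ => hML)
    (fun p v => F p (v ())) (fun p hp v v' hvv => hF p hp _ _ (hvv ()))
    (fun p v => hF01 p (v ())) g hg0 hg1 hgκ (by
      intro p hp
      rw [cube_unit_sum, pow_one]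
      exact hg p hp)
  rw [box_unit_sum] at h1
  simpa using h1

/-- number of zeros of a linear form modulo `p` -/
theorem lin_count (p : ℕ) (hp : p.Prime) (q r : ℤ) (hq : ¬ (p : ℤ) ∣ q) :
    ∑ t ∈ Finset.Ico (0 : ℤ) p, dv p (r + q * t) = 1 := by
  classical
  have hp0 : (0 : ℤ) < p := by exact_mod_cast hp.pos
  have hcop : IsCoprime q (p : ℤ) := by
    rw [isCoprime_comm]
    exact (Nat.prime_iff_prime_int.1 hp).irreducible.coprime_iff_not_dvd.2 hq
  obtain ⟨a, b, hab⟩ := hcop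
  set t0 : ℤ := (-(r * a)) % p with ht0
  have ht0mem : t0 ∈ Finset.Ico (0 : ℤ) p := by
    rw [Finset.mem_Ico]
    exact ⟨Int.emod_nonneg _ hp0.ne', Int.emod_lt_of_pos _ hp0⟩
  have hkey : ∀ t ∈ Finset.Ico (0 : ℤ) p, ((p : ℤ) ∣ r + q * t ↔ t = t0) := by
    intro t ht
    rw [Finset.mem_Ico] at ht
    constructor
    · intro h
      have h1 : (p : ℤ) ∣ t - (-(r * a)) := by
        have e : t - (-(r * a)) = a * (r + q * t) + (t * b) * p := by
          have : a * q = 1 - b * p := by linarith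
          calc t - (-(r * a)) = t + r * a := by ring
            _ = a * r + (1 - b * p) * t + t * b * p := by ring
            _ = a * r + (a * q) * t + t * b * p := by rw [this]
            _ = _ := by ring
        rw [e]
        exact dvd_add (Dvd.dvd.mul_left h _) (dvd_mul_left _ _)
      have h2 : (-(r * a)) ≡ t [ZMOD (p : ℤ)] := Int.modEq_iff_dvd.2 h1
      have h3 : t % (p : ℤ) = t := Int.emod_eq_of_lt ht.1 ht.2
      rw [ht0, ← h3]
      exact h2.symm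
    · intro h
      have h1 : t ≡ -(r * a) [ZMOD (p : ℤ)] := by
        rw [h, ht0]; exact Int.mod_modEq _ _
      obtain ⟨c, hc⟩ := (Int.modEq_iff_dvd.1 h1)
      -- -(r a) - t = p c
      have : r + q * t = (p : ℤ) * (r * b - q * c) := by
        have e1 : t = -(r * a) - p * c := by linarith
        have e2 : a * q = 1 - b * p := by linarith
        calc r + q * t = r + q * (-(r * a) - p * c) := by rw [← e1]
          _ = r - r * (a * q) - p * c * q := by ring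
          _ = r - r * (1 - b * p) - p * c * q := by rw [e2]
          _ = _ := by ring
      rw [this]
      exact dvd_mul_right _ _
  calc ∑ t ∈ Finset.Ico (0 : ℤ) p, dv p (r + q * t)
      = ∑ t ∈ Finset.Ico (0 : ℤ) p, if t = t0 then (1 : ℝ) else 0 := by
        apply Finset.sum_congr rfl
        intro t ht
        unfold dv
        by_cases h : t = t0
        · rw [if_pos ((hkey t ht).2 h), if_pos h]
        · rw [if_neg (fun h' => h ((hkey t ht).1 h')), if_neg h]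
    _ = 1 := by
        rw [Finset.sum_ite_eq' (Finset.Ico (0 : ℤ) p) t0 (fun _ => (1 : ℝ)), if_pos ht0mem]

theorem dv_per (p : ℕ) (q r : ℤ) (t t' : ℤ) (h : t ≡ t' [ZMOD (p : ℤ)]) :
    dv p (r + q * t) = dv p (r + q * t') := by
  have h1 : r + q * t ≡ r + q * t' [ZMOD (p : ℤ)] := by
    exact Int.ModEq.add_left _ (Int.ModEq.mul_left _ h)
  unfold dv
  have h2 : ((p : ℤ) ∣ r + q * t) ↔ ((p : ℤ) ∣ r + q * t') := by
    constructor
    · intro h3
      exact (Int.modEq_zero_iff_dvd.1 (h1.symm.trans (Int.modEq_zero_iff_dvd.2 h3)))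
    · intro h3
      exact (Int.modEq_zero_iff_dvd.1 (h1.trans (Int.modEq_zero_iff_dvd.2 h3)))
  simp only [h2]

theorem Ico_zero_sum (M : ℕ) (f : ℤ → ℝ) :
    ∑ t ∈ Finset.Ico (0 : ℤ) M, f t = ∑ m ∈ Finset.range M, f (m : ℤ) := by
  symm
  apply Finset.sum_nbij (fun m : ℕ => (m : ℤ))
  · intro m hm
    rw [Finset.mem_range] at hm
    rw [Finset.mem_Ico]
    exact ⟨by positivity, by exact_mod_cast hm⟩
  · intro x _ y _ h
    simp only at h
    exact_mod_cast h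
  · intro t ht
    rw [Finset.mem_coe, Finset.mem_Ico] at ht
    refine ⟨t.toNat, ?_, ?_⟩
    · rw [Finset.mem_coe, Finset.mem_range]
      omega
    · simp only
      omega
  · intro m _
    rfl

/-- the sieve weight as a function of `m` -/
def evU (z b : ℕ) (m : ℤ) : ℝ := ev (UU 1 z b) (PR 1 z) (fun p => dv p m)

/-- the lower sieve weight as a function of `m` -/
def evL (z b : ℕ) (m : ℤ) : ℝ := ev (LL 1 z b) (PR 1 z) (fun p => dv p m)

theorem rgh_le_evU (z b : ℕ) (m : ℤ) : rgh 1 z m ≤ evU z b m :=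
  (UL_ineq 1 z b le_rfl (fun p => dv p m) (fun p => dv_nonneg p m) (fun p => dv_le_one p m)).2

theorem evL_le_rgh (z b : ℕ) (m : ℤ) : evL z b m ≤ rgh 1 z m :=
  (UL_ineq 1 z b le_rfl (fun p => dv p m) (fun p => dv_nonneg p m) (fun p => dv_le_one p m)).1

theorem gcut (w z : ℕ) : ∃ g : ℕ → ℝ, (∀ p ∈ PR w z, g p = 1 / (p : ℝ)) ∧ (∀ p, 0 ≤ g p) ∧
    (∀ p, g p ≤ 1 / 2) := by
  classical
  refine ⟨fun p => if p ∈ PR w z then 1 / (p : ℝ) else 0, ?_, ?_, ?_⟩
  · intro p hp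
    simp only [if_pos hp]
  · intro p
    simp only
    split_ifs
    · positivity
    · exact le_rfl
  · intro p
    simp only
    split_ifs with h
    · exact inv_prime_le_half w z p h
    · norm_num

/-- the weights approximate rough numbers in mean -/
theorem weights_close (ε : ℝ) (hε : 0 < ε) (hε1 : ε ≤ 1 / 2) (b : ℕ) (hb : Good 1 b ε) :
    ∃ Z0 : ℕ, ∀ z M : ℕ, Z0 ≤ z → z ^ (8 * b + 15) ≤ M →
      ∑ m ∈ Finset.range M, (evU z b m - rgh 1 z m) ≤ 5 * ε * (VV 1 z * M) := by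
  have hb := mean_bounds 1 (by norm_num) ε hε hε1 b hb
  obtain ⟨Z1, hZ1⟩ := exists_Z (2 * (4 * 1)) (by positivity)
  obtain ⟨Z2, hZ2⟩ := exists_nat_gt (4 / ε)
  refine ⟨max (max Z1 Z2) 1, ?_⟩
  intro z M hz hzM
  have hzZ1 : Z1 ≤ z := le_trans (le_trans (le_max_left _ _) (le_max_left _ _)) hz
  have hzZ2 : Z2 ≤ z := le_trans (le_trans (le_max_right _ _) (le_max_left _ _)) hz
  have hz1 : 1 ≤ z := le_trans (le_max_right _ _) hz
  have hzr : (1 : ℝ) ≤ z := by exact_mod_cast hz1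
  obtain ⟨g, hg, hg0, hg1⟩ := gcut 1 z
  have hgκ : ∀ p ∈ PR 1 z, g p ≤ 1 / (p : ℝ) := fun p hp => (hg p hp).le
  have hVg : ∏ p ∈ PR 1 z, (1 - g p) = VV 1 z := by
    unfold VV
    apply Finset.prod_congr rfl
    intro p hp
    rw [hg p hp]
  have hmb := hb 1 z le_rfl g hg0 hg1 hgκ
  rw [hVg] at hmb
  set Dm : ℕ := z ^ (4 * b + 6) with hDm
  have hDm1 : 1 ≤ Dm := Nat.one_le_pow _ _ hz1
  have hg1' : ∀ p, g p ≤ 1 := fun p => (hg1 p).trans (by norm_num)
  have hDmM : Dm ≤ M := by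
    refine le_trans ?_ hzM
    rw [hDm]
    exact Nat.pow_le_pow_right hz1 (by omega)
  have hPp : ∀ p ∈ PR 1 z, p.Prime := fun p hp => (mem_PR.1 hp).2.2
  have hFper : ∀ p ∈ PR 1 z, Per p (fun v : Unit → ℤ => dv p (v ())) := by
    intro p _ v v' hvv
    have := dv_per p 1 0 (v ()) (v' ()) (hvv ())
    simpa using this
  have hgm : ∀ p ∈ PR 1 z, ∑ v ∈ cube Unit p, dv p (v ()) = g p * (p : ℝ) ^ Fintype.card Unit := by
    intro p hp
    rw [cube_unit_sum, hg p hp]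
    have h1 := lin_count p (hPp p hp) 1 0 (by
      intro h
      have : (p : ℤ) = 1 := by
        have h2 := Int.eq_one_of_dvd_one (by positivity) h
        exact h2
      have h3 := (hPp p hp).one_lt
      omega)
    simp only [zero_add, one_mul] at h1
    rw [h1]
    have hp0 : (p : ℝ) ≠ 0 := by exact_mod_cast (hPp p hp).ne_zero
    simp [hp0]
  have hU := ev_box (UU 1 z b) (PR 1 z) hPp (abs_UU_le 1 z b) Dm hDm1
    (fun D hD hne => support_UU 1 z b le_rfl hz1 D hD hne) (fun _ : Unit => (0 : ℤ)) (fun _ => M) M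
    hDmM (fun _ => le_rfl) (fun p v => dv p (v ())) hFper (fun p v => dv_nonneg p _)
    g hg0 hg1' hgm
  have hLb := ev_box (LL 1 z b) (PR 1 z) hPp (abs_LL_le 1 z b) Dm hDm1
    (fun D hD hne => support_LL 1 z b le_rfl hz1 D hD hne) (fun _ : Unit => (0 : ℤ)) (fun _ => M) M
    hDmM (fun _ => le_rfl) (fun p v => dv p (v ())) hFper (fun p v => dv_nonneg p _)
    g hg0 hg1' hgm
  rw [box_unit_sum] at hU hLb
  simp only [zero_add, Fintype.card_unit, pow_one, Finset.univ_unique, Finset.prod_singleton]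
    at hU hLb
  rw [Ico_zero_sum] at hU hLb
  have hVV : Real.exp (-(2 * (4 * 1))) ^ (NT z) ≤ VV 1 z := by
    rw [← hVg]
    exact V_ge_pow 1 z le_rfl 1 (by norm_num) g hg0 hg1 hgκ
  have hVz : 1 / (z : ℝ) ≤ VV 1 z := by
    refine le_trans ?_ hVV
    have h1 : 1 / (z : ℝ) = Real.exp (-Real.log z) := by
      rw [Real.exp_neg, Real.exp_log (show (0 : ℝ) < z by linarith), one_div]
    rw [← Real.exp_nat_mul, h1]
    apply Real.exp_le_exp.2
    have := hZ1 z hzZ1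
    nlinarith
  have hM0 : (0 : ℝ) < M := by
    have : 0 < M := by omega
    exact_mod_cast this
  have hErr : 2 * ((Dm : ℝ) * Dm / M) ≤ ε * VV 1 z := by
    have h1 : ((z : ℝ)) ^ (8 * b + 15) ≤ M := by exact_mod_cast hzM
    have h2 : (Dm : ℝ) * Dm = (z : ℝ) ^ (8 * b + 12) := by
      rw [hDm]; push_cast; rw [← pow_add]; congr 1; ring
    have h3 : (Dm : ℝ) * Dm / M ≤ 1 / (z : ℝ) ^ 3 := by
      rw [h2, div_le_div_iff₀ hM0 (by positivity), one_mul, ← pow_add]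
      exact h1
    have h4 : 4 / ε ≤ z := hZ2.le.trans (by exact_mod_cast hzZ2)
    rw [div_le_iff₀ hε] at h4
    have h5 : 2 * (1 / (z : ℝ) ^ 3) ≤ ε * (1 / z) := by
      rw [mul_one_div, mul_one_div, div_le_div_iff₀ (by positivity) (by positivity)]
      have h7 : (z : ℝ) ^ 2 ≤ z ^ 3 := pow_le_pow_right₀ hzr (by norm_num)
      nlinarith
    calc 2 * ((Dm : ℝ) * Dm / M) ≤ 2 * (1 / (z : ℝ) ^ 3) := by linarith
      _ ≤ ε * (1 / z) := h5
      _ ≤ ε * VV 1 z := mul_le_mul_of_nonneg_left hVz hε.le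
  rw [abs_le] at hU hLb
  rw [Finset.sum_sub_distrib]
  have h1 : ∑ m ∈ Finset.range M, evL z b m ≤ ∑ m ∈ Finset.range M, rgh 1 z m :=
    Finset.sum_le_sum (fun m _ => evL_le_rgh z b m)
  have h2 : ∑ m ∈ Finset.range M, evU z b m =
      ∑ m ∈ Finset.range M, ev (UU 1 z b) (PR 1 z) (fun p => dv p (m : ℤ)) := rfl
  have h3 : ∑ m ∈ Finset.range M, evL z b m =
      ∑ m ∈ Finset.range M, ev (LL 1 z b) (PR 1 z) (fun p => dv p (m : ℤ)) := rfl
  rw [h2]
  rw [h3] at h1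
  have e1 := mul_le_mul_of_nonneg_right hmb.1 hM0.le
  have e2 := mul_le_mul_of_nonneg_right hmb.2 hM0.le
  have e3 := mul_le_mul_of_nonneg_right hErr hM0.le
  have f1 := hU.2
  have f2 := hLb.1
  have f3 : VV 1 z * (1 + 2 * ε) * M = VV 1 z * M + 2 * ε * (VV 1 z * M) := by ring
  have f4 : VV 1 z * (1 - ε) * M = VV 1 z * M - ε * (VV 1 z * M) := by ring
  have f5 : ε * VV 1 z * M = ε * (VV 1 z * M) := by ring
  rw [f3] at e1
  rw [f4] at e2
  rw [f5] at e3
  linarith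

/-- lower bound for `VV` -/
theorem VV_lower (z T : ℕ) (hz : 2 ≤ z) (hT : Nat.log 2 z ≤ T) :
    1 / (3000 * (T : ℝ) ^ 12) ≤ VV 1 z := by
  obtain ⟨g, hg, hg0, hg1⟩ := gcut 1 z
  have hgκ : ∀ p ∈ PR 1 z, g p ≤ 1 / (p : ℝ) := fun p hp => (hg p hp).le
  have hVg : ∏ p ∈ PR 1 z, (1 - g p) = VV 1 z := by
    unfold VV
    apply Finset.prod_congr rfl
    intro p hp
    rw [hg p hp]
  have h := V_ge_pow 1 z le_rfl 1 (by norm_num) g hg0 hg1 hgκ
  rw [hVg] at h
  refine le_trans ?_ h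
  have hlog : Nat.log 2 z ≠ 0 := by
    have : 1 ≤ Nat.log 2 z := Nat.le_log_of_pow_le (by norm_num) (by simpa using hz)
    omega
  have h2 : 2 ^ Nat.log 2 (Nat.log 2 z) ≤ Nat.log 2 z := Nat.pow_log_le_self 2 hlog
  have hT0 : 0 < T := by omega
  unfold NT
  set k := Nat.log 2 (Nat.log 2 z) with hk
  have he : Real.exp 8 ≤ 3000 := by
    have h3 := Real.exp_one_lt_d9
    have h4 : Real.exp 8 = Real.exp 1 ^ 8 := by
      rw [← Real.exp_nat_mul]; norm_num
    rw [h4]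
    calc Real.exp 1 ^ 8 ≤ (2.7182818286 : ℝ) ^ 8 := pow_le_pow_left₀ (Real.exp_pos _).le h3.le _
      _ ≤ 3000 := by norm_num
  have h5 : Real.exp (-(2 * (4 * 1))) ^ (k + 1) = 1 / (Real.exp 8 * Real.exp 8 ^ k) := by
    have : Real.exp (-(2 * (4 * 1))) = (Real.exp 8)⁻¹ := by
      rw [← Real.exp_neg]; norm_num
    rw [this, inv_pow, pow_succ, one_div, mul_comm]
  rw [h5]
  apply one_div_le_one_div_of_le
  · positivity
  · have h6 : Real.exp 8 ^ k ≤ (T : ℝ) ^ 12 := by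
      calc Real.exp 8 ^ k ≤ ((2 : ℝ) ^ 12) ^ k := by
            apply pow_le_pow_left₀ (Real.exp_pos _).le
            exact he.trans (by norm_num)
        _ = ((2 : ℝ) ^ k) ^ 12 := by rw [← pow_mul, ← pow_mul, mul_comm]
        _ ≤ (T : ℝ) ^ 12 := by
            apply pow_le_pow_left₀ (by positivity)
            have : 2 ^ k ≤ T := h2.trans hT
            exact_mod_cast this
    exact mul_le_mul he h6 (by positivity) (by norm_num)

end

end Pool.Agent.Lib.MP_325d88_nt
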