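import Mathlib
import Pool.Agent.Lib.MP_325d88_nt.Rough1

/-!
# Exponential sums over rough numbers, away from major arcs
-/

namespace Pool.Agent.Lib.MP_325d88_nt

open Finset Pool.Agent.Lib.MP_369a91_nt

noncomputable section

theorem prod_dv (D : Finset ℕ) (hD : ∀ p ∈ D, p.Prime) (m : ℤ) :
    ∏ p ∈ D, dv p m = if ((∏ p ∈ D, p : ℕ) : ℤ) ∣ m then 1 else 0 := by
  classical
  induction D using Finset.induction with
  | empty => simp
  | insert q D hq ih =>
    have hDp : ∀ p ∈ D, p.Prime := fun p hp => hD p (Finset.mem_insert_of_mem hp)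
    have hqp : q.Prime := hD q (Finset.mem_insert_self q D)
    rw [Finset.prod_insert hq, Finset.prod_insert hq, ih hDp]
    have hcop : q.Coprime (∏ p ∈ D, p) := by
      rw [Nat.coprime_prod_right_iff]
      intro p hp
      rw [Nat.coprime_primes hqp (hDp p hp)]
      rintro rfl
      exact hq hp
    have hiff : (((q * ∏ p ∈ D, p : ℕ) : ℤ) ∣ m) ↔ ((q : ℤ) ∣ m ∧ ((∏ p ∈ D, p : ℕ) : ℤ) ∣ m) := by
      constructor
      · intro h
        push_cast at h ⊢
        exact ⟨(dvd_mul_right _ _).trans h, (dvd_mul_left _ _).trans h⟩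
      · rintro ⟨h1, h2⟩
        have hc : IsCoprime (q : ℤ) ((∏ p ∈ D, p : ℕ) : ℤ) := Nat.isCoprime_iff_coprime.2 hcop
        have := hc.mul_dvd h1 h2
        push_cast at this ⊢
        exact this
    unfold dv
    by_cases h1 : (q : ℤ) ∣ m <;> by_cases h2 : ((∏ p ∈ D, p : ℕ) : ℤ) ∣ m
    · rw [if_pos h1, if_pos h2, if_pos (hiff.2 ⟨h1, h2⟩)]; norm_num
    · rw [if_pos h1, if_neg h2, if_neg (fun h => h2 (hiff.1 h).2)]; norm_num
    · rw [if_neg h1, if_pos h2, if_neg (fun h => h1 (hiff.1 h).1)]; norm_num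
    · rw [if_neg h1, if_neg h2, if_neg (fun h => h2 (hiff.1 h).2)]; norm_num

/-- sum over multiples of `d` -/
theorem mult_sum (M d : ℕ) (hd : 0 < d) (φ : ℝ) :
    ∑ m ∈ Finset.range M, (if ((d : ℤ) ∣ (m : ℤ)) then ee (m * φ) else 0) =
      ∑ l ∈ Finset.range ((M + d - 1) / d), ee (l * (d * φ)) := by
  rw [← Finset.sum_filter]
  symm
  apply Finset.sum_nbij (fun l => d * l)
  · intro l hl
    rw [Finset.mem_range] at hl
    rw [Finset.mem_filter, Finset.mem_range]
    refine ⟨?_, by push_cast; exact dvd_mul_right _ _⟩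
    have h1 : (l + 1) * d ≤ M + d - 1 := by
      have : l + 1 ≤ (M + d - 1) / d := hl
      calc (l + 1) * d ≤ ((M + d - 1) / d) * d := Nat.mul_le_mul_right d this
        _ ≤ M + d - 1 := Nat.div_mul_le_self _ _
    have h2 : (l + 1) * d = d * l + d := by ring
    omega
  · intro x _ y _ h
    simp only at h
    exact Nat.eq_of_mul_eq_mul_left hd h
  · intro m hm
    rw [Finset.mem_coe, Finset.mem_filter, Finset.mem_range] at hm
    obtain ⟨hm1, hm2⟩ := hm
    have hm3 : d ∣ m := by exact_mod_cast hm2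
    obtain ⟨l, rfl⟩ := hm3
    refine ⟨l, ?_, rfl⟩
    rw [Finset.mem_coe, Finset.mem_range]
    have h1 : (l + 1) * d ≤ M + d - 1 := by
      have : (l + 1) * d = d * l + d := by ring
      omega
    calc l < l + 1 := Nat.lt_succ_self l
      _ ≤ (M + d - 1) / d := (Nat.le_div_iff_mul_le hd).2 h1
  · intro l _
    push_cast
    congr 1
    ring

theorem nd_frac (a : ℤ) (q : ℕ) (hq : 0 < q) (h : ¬ ((q : ℤ) ∣ a)) : 1 / (q : ℝ) ≤ nd ((a : ℝ) / q) := by
  have hq0 : (0 : ℝ) < q := by exact_mod_cast hq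
  unfold nd
  set r := round ((a : ℝ) / q)
  have h1 : (a : ℝ) / q - r = ((a - q * r : ℤ) : ℝ) / q := by
    push_cast; field_simp
  rw [h1, abs_div, abs_of_pos hq0]
  apply div_le_div_of_nonneg_right _ hq0.le
  have h2 : a - q * r ≠ 0 := by
    intro h3
    apply h
    exact ⟨r, by linarith⟩
  have h3 : 1 ≤ |a - q * r| := Int.one_le_abs h2
  exact_mod_cast h3

/-- exponential sum with the upper sieve weights, away from major arcs -/
theorem sum_evU_ee (z b M L : ℕ) (hz : 1 ≤ z) (hL : 0 < L)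
    (hDM : 2 * z ^ (4 * b + 6) ≤ Nat.sqrt M)
    (φ : ℝ) (a : ℤ) (q : ℕ) (hq : 0 < q) (hqM : q ≤ Nat.sqrt M) (hcop : IsCoprime a (q : ℤ))
    (happ : |φ - a / q| ≤ 1 / (q * Nat.sqrt M))
    (hmin : L < q ∨ (L : ℝ) < |φ - a / q| * M) :
    ‖∑ m ∈ Finset.range M, (evU z b m : ℂ) * ee (m * φ)‖ ≤
      (z : ℝ) ^ (4 * b + 6) * Nat.sqrt M + (z : ℝ) ^ (4 * b + 6) +
        (M : ℝ) / L * (1 + Real.log ((z : ℝ) ^ (4 * b + 6))) := by
  classical
  set Dm : ℕ := z ^ (4 * b + 6) with hDm
  have hDmr : (z : ℝ) ^ (4 * b + 6) = (Dm : ℝ) := by rw [hDm]; push_cast; rfl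
  rw [hDmr]
  have hDm1 : 1 ≤ Dm := Nat.one_le_pow _ _ hz
  set R := Nat.sqrt M with hR
  have hR0 : 0 < R := by omega
  have hRr : (0 : ℝ) < R := by exact_mod_cast hR0
  have hqr : (0 : ℝ) < q := by exact_mod_cast hq
  have hLr : (0 : ℝ) < L := by exact_mod_cast hL
  set β := φ - a / q with hβ
  have hφ : φ = a / q + β := by rw [hβ]; ring
  -- individual bound
  have hind : ∀ d : ℕ, 0 < d → d ≤ Dm →
      ‖∑ m ∈ Finset.range M, (if ((d : ℤ) ∣ (m : ℤ)) then ee (m * φ) else 0)‖ ≤
        (q : ℝ) + (if q ∣ d then (M : ℝ) / (L * ((d / q : ℕ) : ℝ)) + 1 else 0) := by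
    intro d hd hdD
    have hdr : (0 : ℝ) < d := by exact_mod_cast hd
    rw [mult_sum M d hd φ]
    have hdR : 2 * (d : ℝ) ≤ R := by
      have : 2 * d ≤ R := le_trans (by omega) hDM
      exact_mod_cast this
    have hdβ : (d : ℝ) * |β| ≤ 1 / (2 * q) := by
      calc (d : ℝ) * |β| ≤ d * (1 / (q * R)) := mul_le_mul_of_nonneg_left happ hdr.le
        _ = d / R * (1 / q) := by field_simp
        _ ≤ (1 / 2) * (1 / q) := by
            apply mul_le_mul_of_nonneg_right _ (one_div_nonneg.2 hqr.le)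
            rw [div_le_iff₀ hRr]; linarith only [hdR]
        _ = 1 / (2 * q) := by field_simp
    by_cases hqd : q ∣ d
    · rw [if_pos hqd]
      obtain ⟨j, hj⟩ := hqd
      have hj0 : 0 < j := by
        rcases Nat.eq_zero_or_pos j with h | h
        · subst h; omega
        · exact h
      have hjr : (0 : ℝ) < j := by exact_mod_cast hj0
      have hdq : d / q = j := by rw [hj]; exact Nat.mul_div_cancel_left j hq
      rw [hdq]
      rcases hmin with h | h
      · have h1 := geom_bound' ((M + d - 1) / d) (d * φ)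
        refine h1.trans ?_
        have h2 : (((M + d - 1) / d : ℕ) : ℝ) ≤ (M : ℝ) / d + 1 := by
          have h3 : (((M + d - 1) / d : ℕ) : ℝ) ≤ ((M + d - 1 : ℕ) : ℝ) / d := Nat.cast_div_le
          refine h3.trans ?_
          rw [div_add_one hdr.ne']
          apply div_le_div_of_nonneg_right _ hdr.le
          have : ((M + d - 1 : ℕ) : ℝ) ≤ ((M + d : ℕ) : ℝ) := by exact_mod_cast Nat.sub_le _ _
          push_cast at this ⊢
          exact this
        have h4 : (M : ℝ) / d ≤ (M : ℝ) / (L * j) := by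
          apply div_le_div_of_nonneg_left (Nat.cast_nonneg _) (mul_pos hLr hjr)
          rw [hj]; push_cast
          apply mul_le_mul_of_nonneg_right _ hjr.le
          exact_mod_cast h.le
        linarith only [h2, h4, hqr]
      · have hnd : nd (d * φ) = d * |β| := by
          have h1 : (d : ℝ) * φ = d * β + ((j * a : ℤ) : ℝ) := by
            rw [hφ, hj]; push_cast; field_simp; ring
          rw [h1, nd_add_int, nd_eq_abs, abs_mul, Nat.abs_cast]
          rw [abs_mul, Nat.abs_cast]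
          refine hdβ.trans ?_
          rw [div_le_div_iff₀ (mul_pos two_pos hqr) two_pos]
          have : (1 : ℝ) ≤ q := by exact_mod_cast hq
          linarith only [this]
        have hM0 : (0 : ℝ) < M := by
          by_contra hcon
          push Not at hcon
          have : |β| * M ≤ 0 := mul_nonpos_of_nonneg_of_nonpos (abs_nonneg _) hcon
          linarith only [this, h, hLr]
        have hβ0 : 0 < |β| := by
          by_contra hcon
          push Not at hcon
          have : |β| * M ≤ 0 := mul_nonpos_of_nonpos_of_nonneg hcon hM0.le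
          linarith only [this, h, hLr]
        have h1 := geom_bound ((M + d - 1) / d) (d * φ) (by rw [hnd]; exact mul_pos hdr hβ0)
        rw [hnd] at h1
        refine h1.trans ?_
        have h2 : 1 / (2 * (d * |β|)) ≤ (M : ℝ) / (L * j) := by
          rw [div_le_div_iff₀ (mul_pos two_pos (mul_pos hdr hβ0)) (mul_pos hLr hjr), one_mul]
          have h3 : (L : ℝ) * j ≤ (|β| * M) * j := mul_le_mul_of_nonneg_right h.le hjr.le
          have h4 : (j : ℝ) ≤ d := by
            have : j ≤ d := by rw [hj]; exact Nat.le_mul_of_pos_left j hq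
            exact_mod_cast this
          have h5 : |β| * M * j ≤ |β| * M * d := mul_le_mul_of_nonneg_left h4
            (mul_nonneg (abs_nonneg _) hM0.le)
          have h6 : |β| * M * d ≤ M * (2 * (d * |β|)) := by
            have : 0 ≤ |β| * M * d := mul_nonneg (mul_nonneg (abs_nonneg _) hM0.le) hdr.le
            linarith only [this]
          exact h3.trans (h5.trans h6)
        linarith only [h2, hqr]
    · rw [if_neg hqd, add_zero]
      have hnd : 1 / (2 * (q : ℝ)) ≤ nd (d * φ) := by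
        have h1 : (d : ℝ) * φ = (((d : ℤ) * a : ℤ) : ℝ) / q + d * β := by
          rw [hφ]; push_cast; ring
        have h2 : 1 / (q : ℝ) ≤ nd ((((d : ℤ) * a : ℤ) : ℝ) / q) := by
          apply nd_frac _ q hq
          intro h3
          apply hqd
          have h4 : (q : ℤ) ∣ (d : ℤ) := hcop.symm.dvd_of_dvd_mul_right h3
          exact_mod_cast h4
        have h3 : nd ((((d : ℤ) * a : ℤ) : ℝ) / q) ≤ nd (d * φ) + nd (d * β) := by
          have : (((d : ℤ) * a : ℤ) : ℝ) / q = d * φ - d * β := by rw [h1]; ring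
          rw [this]
          exact nd_sub_le _ _
        have h4 : nd (d * β) ≤ 1 / (2 * q) := by
          have := nd_le_abs (d * β) 0
          simp only [Int.cast_zero, sub_zero] at this
          rw [abs_mul, Nat.abs_cast] at this
          exact this.trans hdβ
        have h5 : 1 / (q : ℝ) = 1 / (2 * q) + 1 / (2 * q) := by field_simp; ring
        linarith only [h2, h3, h4, h5]
      have hpos : 0 < nd (d * φ) :=
        lt_of_lt_of_le (one_div_pos.2 (mul_pos two_pos hqr)) hnd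
      refine (geom_bound _ _ hpos).trans ?_
      rw [div_le_iff₀ (mul_pos two_pos hpos)]
      have h1 : q * (2 * (1 / (2 * (q : ℝ)))) = 1 := by field_simp
      calc (1 : ℝ) = q * (2 * (1 / (2 * (q : ℝ)))) := h1.symm
        _ ≤ q * (2 * nd (d * φ)) :=
            mul_le_mul_of_nonneg_left (mul_le_mul_of_nonneg_left hnd zero_le_two) hqr.le
  -- expand
  have hPp : ∀ p ∈ PR 1 z, p.Prime := fun p hp => (mem_PR.1 hp).2.2
  have hexp : ∑ m ∈ Finset.range M, (evU z b m : ℂ) * ee (m * φ) =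
      ∑ D ∈ (PR 1 z).powerset, (UU 1 z b D : ℂ) *
        ∑ m ∈ Finset.range M, (if (((∏ p ∈ D, p : ℕ) : ℤ) ∣ (m : ℤ)) then ee (m * φ) else 0) := by
    unfold evU ev
    push_cast
    simp_rw [Finset.sum_mul, Finset.mul_sum]
    rw [Finset.sum_comm]
    apply Finset.sum_congr rfl
    intro D hD
    rw [Finset.mem_powerset] at hD
    apply Finset.sum_congr rfl
    intro m _
    have h1 := prod_dv D (fun p hp => hPp p (hD hp)) (m : ℤ)
    have h2 : (∏ q ∈ D, ((dv q (m : ℤ) : ℝ) : ℂ)) =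
        (((if ((∏ p ∈ D, p : ℕ) : ℤ) ∣ (m : ℤ) then (1 : ℝ) else 0) : ℝ) : ℂ) := by
      rw [← h1]; push_cast; rfl
    rw [h2]
    push_cast
    split_ifs <;> simp
  rw [hexp]
  -- bound
  set H : ℕ → ℝ := fun d => (q : ℝ) + (if q ∣ d then (M : ℝ) / (L * ((d / q : ℕ) : ℝ)) + 1 else 0)
    with hH
  have hH0 : ∀ d, 0 ≤ H d := by
    intro d
    rw [hH]
    simp only
    split_ifs
    · exact add_nonneg hqr.le (add_nonneg (div_nonneg (Nat.cast_nonneg _)
        (mul_nonneg hLr.le (Nat.cast_nonneg _))) zero_le_one)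
    · simp
  have hstep : ∀ D ∈ (PR 1 z).powerset, ‖(UU 1 z b D : ℂ) *
        ∑ m ∈ Finset.range M, (if (((∏ p ∈ D, p : ℕ) : ℤ) ∣ (m : ℤ)) then ee (m * φ) else 0)‖ ≤
      if ∏ p ∈ D, p ≤ Dm then H (∏ p ∈ D, p) else 0 := by
    intro D hD
    rw [Finset.mem_powerset] at hD
    by_cases h0 : UU 1 z b D = 0
    · rw [h0]
      simp only [Complex.ofReal_zero, zero_mul, norm_zero]
      split_ifs
      · exact hH0 _
      · exact le_rfl
    · have hd := support_UU 1 z b le_rfl hz D hD h0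
      rw [if_pos hd, norm_mul]
      have hdpos : 0 < ∏ p ∈ D, p := Finset.prod_pos (fun p hp => (hPp p (hD hp)).pos)
      have h1 := hind (∏ p ∈ D, p) hdpos hd
      have h2 : ‖(UU 1 z b D : ℂ)‖ ≤ 1 := by
        rw [Complex.norm_real]
        exact abs_UU_le 1 z b D
      calc ‖(UU 1 z b D : ℂ)‖ * ‖∑ m ∈ Finset.range M,
            (if (((∏ p ∈ D, p : ℕ) : ℤ) ∣ (m : ℤ)) then ee (m * φ) else 0)‖
          ≤ 1 * H (∏ p ∈ D, p) := mul_le_mul h2 h1 (norm_nonneg _) (by norm_num)
        _ = H (∏ p ∈ D, p) := one_mul _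
  have hS1 : ‖∑ D ∈ (PR 1 z).powerset, (UU 1 z b D : ℂ) *
        ∑ m ∈ Finset.range M, (if (((∏ p ∈ D, p : ℕ) : ℤ) ∣ (m : ℤ)) then ee (m * φ) else 0)‖ ≤
      ∑ D ∈ (PR 1 z).powerset.filter (fun D => ∏ p ∈ D, p ≤ Dm), H (∏ p ∈ D, p) := by
    refine (norm_sum_le _ _).trans ?_
    rw [Finset.sum_filter]
    exact Finset.sum_le_sum hstep
  refine hS1.trans ?_
  -- inject into [1, Dm]
  have hS2 : ∑ D ∈ (PR 1 z).powerset.filter (fun D => ∏ p ∈ D, p ≤ Dm), H (∏ p ∈ D, p) ≤
      ∑ d ∈ Finset.Icc 1 Dm, H d := by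
    have hinj : Set.InjOn (fun D : Finset ℕ => ∏ p ∈ D, p)
        ((PR 1 z).powerset.filter (fun D => ∏ p ∈ D, p ≤ Dm)) := by
      intro S hS S' hS' h
      rw [Finset.mem_coe, Finset.mem_filter, Finset.mem_powerset] at hS hS'
      simp only at h
      have h1 : (∏ p ∈ S, p).primeFactors = S :=
        Nat.primeFactors_prod (fun p hp => hPp p (hS.1 hp))
      have h2 : (∏ p ∈ S', p).primeFactors = S' :=
        Nat.primeFactors_prod (fun p hp => hPp p (hS'.1 hp))
      rw [← h1, ← h2, h]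
    rw [← Finset.sum_image (f := H) hinj]
    apply Finset.sum_le_sum_of_subset_of_nonneg
    · intro d hd
      rw [Finset.mem_image] at hd
      obtain ⟨D, hD, rfl⟩ := hd
      rw [Finset.mem_filter, Finset.mem_powerset] at hD
      rw [Finset.mem_Icc]
      exact ⟨Finset.prod_pos (fun p hp => (hPp p (hD.1 hp)).pos), hD.2⟩
    · intro d _ _
      exact hH0 d
  refine hS2.trans ?_
  have hS3 : ∑ d ∈ Finset.Icc 1 Dm, H d = (Dm : ℝ) * q +
      ∑ d ∈ (Finset.Icc 1 Dm).filter (fun d => q ∣ d), ((M : ℝ) / (L * ((d / q : ℕ) : ℝ)) + 1) := by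
    rw [hH]
    simp only
    rw [Finset.sum_add_distrib, Finset.sum_const, nsmul_eq_mul, Finset.sum_filter]
    simp
  rw [hS3]
  have hS4 : ∑ d ∈ (Finset.Icc 1 Dm).filter (fun d => q ∣ d),
      ((M : ℝ) / (L * ((d / q : ℕ) : ℝ)) + 1) ≤ ∑ j ∈ Finset.Icc 1 Dm, ((M : ℝ) / (L * j) + 1) := by
    have hinj : Set.InjOn (fun d : ℕ => d / q) ((Finset.Icc 1 Dm).filter (fun d => q ∣ d)) := by
      intro x hx y hy h
      rw [Finset.mem_coe, Finset.mem_filter] at hx hy
      simp only at h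
      rw [← Nat.div_mul_cancel hx.2, ← Nat.div_mul_cancel hy.2, h]
    rw [← Finset.sum_image (f := fun j : ℕ => (M : ℝ) / (L * (j : ℝ)) + 1) hinj]
    apply Finset.sum_le_sum_of_subset_of_nonneg
    · intro j hj
      rw [Finset.mem_image] at hj
      obtain ⟨d, hd, rfl⟩ := hj
      rw [Finset.mem_filter, Finset.mem_Icc] at hd
      rw [Finset.mem_Icc]
      constructor
      · exact Nat.div_pos (Nat.le_of_dvd (by omega) hd.2) hq
      · exact (Nat.div_le_self d q).trans hd.1.2
    · intro j _ _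
      exact add_nonneg (div_nonneg (Nat.cast_nonneg _)
        (mul_nonneg hLr.le (Nat.cast_nonneg _))) zero_le_one
  have hS5 : ∑ j ∈ Finset.Icc 1 Dm, ((M : ℝ) / (L * j) + 1) ≤
      (M : ℝ) / L * (1 + Real.log Dm) + Dm := by
    rw [Finset.sum_add_distrib, Finset.sum_const]
    have h1 : ∑ j ∈ Finset.Icc 1 Dm, (M : ℝ) / (L * j) = (M : ℝ) / L * ((harmonic Dm : ℚ) : ℝ) := by
      rw [harmonic_eq_sum_Icc]
      push_cast
      rw [Finset.mul_sum]
      apply Finset.sum_congr rfl
      intro j _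
      rw [div_mul_eq_div_div, div_eq_mul_inv ((M : ℝ) / L)]
    rw [h1]
    have h2 := harmonic_le_one_add_log Dm
    have h3 : (M : ℝ) / L * ((harmonic Dm : ℚ) : ℝ) ≤ (M : ℝ) / L * (1 + Real.log Dm) :=
      mul_le_mul_of_nonneg_left h2 (div_nonneg (Nat.cast_nonneg _) hLr.le)
    simp only [Nat.card_Icc, Nat.add_sub_cancel, nsmul_eq_mul, mul_one]
    exact add_le_add h3 le_rfl
  have hS6 : (Dm : ℝ) * q ≤ Dm * R := by
    apply mul_le_mul_of_nonneg_left _ (Nat.cast_nonneg _)
    exact_mod_cast hqM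
  linarith only [hS4, hS5, hS6]

end

end Pool.Agent.Lib.MP_325d88_nt
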