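import Mathlib
import Pool.Agent.Lib.MP_325d88_nt.Rough2

/-!
# Exponential sums over rough numbers
-/

namespace Pool.Agent.Lib.MP_325d88_nt

open Finset Pool.Agent.Lib.MP_369a91_nt

noncomputable section

/-- sieving progressions -/
theorem ap_rough (ε : ℝ) (hε : 0 < ε) (hε2 : ε ≤ 1 / 2) (b : ℕ) (hb : Good 1 b ε) :
    ∃ Z0 : ℕ, ∀ (z q H : ℕ), Z0 ≤ z → 0 < q → z ^ (8 * b + 15) ≤ H →
      ∀ (A : ℤ) (r : ℤ), IsCoprime r (q : ℤ) →
      |∑ t ∈ Finset.Ico A (A + H), rgh 1 z (r + q * t) -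
        (∏ p ∈ PR 1 z, (1 - if p ∣ q then (0 : ℝ) else 1 / (p : ℝ))) * H| ≤
        (3 * ε) * ((∏ p ∈ PR 1 z, (1 - if p ∣ q then (0 : ℝ) else 1 / (p : ℝ))) * H) := by
  obtain ⟨Z0, h⟩ := line_sieve 1 (by norm_num) ε hε hε2 b hb
  refine ⟨Z0, ?_⟩
  intro z q H hz hq hzH A r hr
  classical
  set g : ℕ → ℝ := fun p => if p ∈ PR 1 z then (if p ∣ q then (0 : ℝ) else 1 / (p : ℝ)) else 0
    with hg
  have hgP : ∀ p ∈ PR 1 z, g p = if p ∣ q then (0 : ℝ) else 1 / (p : ℝ) := by
    intro p hp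
    rw [hg]; simp only [if_pos hp]
  have h1 := h 1 z H le_rfl hz hzH A H le_rfl (fun p t => dv p (r + q * t))
    (fun p _ t t' htt => dv_per p q r t t' htt) (fun p t => dv_01 p _) g
    (by
      intro p; rw [hg]; simp only
      split_ifs
      · exact le_rfl
      · positivity
      · exact le_rfl)
    (by
      intro p; rw [hg]; simp only
      split_ifs with h2 h3
      · norm_num
      · exact inv_prime_le_half 1 z p h2
      · norm_num)
    (by
      intro p hp
      rw [hgP p hp]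
      split_ifs
      · positivity
      · exact le_rfl)
    (by
      intro p hp
      rw [hgP p hp]
      have hpp : p.Prime := (mem_PR.1 hp).2.2
      split_ifs with h2
      · rw [zero_mul]
        apply Finset.sum_eq_zero
        intro t _
        unfold dv
        rw [if_neg]
        intro h3
        have h4 : (p : ℤ) ∣ (q : ℤ) := by exact_mod_cast h2
        have h5 : (p : ℤ) ∣ r := by
          have h6 : r = (r + q * t) - q * t := by ring
          rw [h6]
          exact dvd_sub h3 (Dvd.dvd.mul_right h4 t)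
        have h7 := hr.isUnit_of_dvd' h5 h4
        rw [Int.isUnit_iff] at h7
        have := hpp.one_lt
        omega
      · have h3 : ¬ ((p : ℤ) ∣ (q : ℤ)) := by
          intro h4; apply h2; exact_mod_cast h4
        rw [lin_count p hpp q r h3]
        have : (p : ℝ) ≠ 0 := by exact_mod_cast hpp.ne_zero
        field_simp)
  have h2 : ∏ p ∈ PR 1 z, (1 - g p) =
      ∏ p ∈ PR 1 z, (1 - if p ∣ q then (0 : ℝ) else 1 / (p : ℝ)) := by
    apply Finset.prod_congr rfl
    intro p hp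
    rw [hgP p hp]
  rw [h2] at h1
  exact h1

theorem Vq_rel (z q : ℕ) (hq : 0 < q) (hqz : q ≤ z) :
    (∏ p ∈ PR 1 z, (1 - if p ∣ q then (0 : ℝ) else 1 / (p : ℝ))) * (Nat.totient q : ℝ) =
      VV 1 z * q := by
  classical
  have h1 : (Nat.totient q : ℝ) = q * ∏ p ∈ q.primeFactors, (1 - 1 / (p : ℝ)) := by
    have h := Nat.totient_eq_mul_prod_factors q
    have h2 : (((Nat.totient q : ℚ)) : ℝ) = (((q : ℚ) * ∏ p ∈ q.primeFactors, (1 - (p : ℚ)⁻¹) : ℚ) : ℝ) := by
      rw [h]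
    push_cast at h2
    rw [h2]
    congr 1
    apply Finset.prod_congr rfl
    intro p _
    rw [one_div]
  have h2 : q.primeFactors = (PR 1 z).filter (fun p => p ∣ q) := by
    ext p
    rw [Nat.mem_primeFactors, Finset.mem_filter, mem_PR]
    constructor
    · rintro ⟨h3, h4, _⟩
      exact ⟨⟨h3.one_lt, (Nat.le_of_dvd hq h4).trans hqz, h3⟩, h4⟩
    · rintro ⟨⟨_, _, h3⟩, h4⟩
      exact ⟨h3, h4, hq.ne'⟩
  have h3 : VV 1 z = (∏ p ∈ PR 1 z, (1 - if p ∣ q then (0 : ℝ) else 1 / (p : ℝ))) *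
      ∏ p ∈ q.primeFactors, (1 - 1 / (p : ℝ)) := by
    rw [h2, Finset.prod_filter, ← Finset.prod_mul_distrib]
    unfold VV
    apply Finset.prod_congr rfl
    intro p _
    split_ifs <;> ring
  rw [h1, h3]
  ring

theorem sum_range_mul' {β : Type*} [AddCommMonoid β] (a b : ℕ) (f : ℕ → β) :
    ∑ m ∈ Finset.range (a * b), f m = ∑ i ∈ Finset.range a, ∑ k ∈ Finset.range b, f (i * b + k) := by
  induction a with
  | zero => simp
  | succ a ih =>
    rw [Finset.sum_range_succ, ← ih, add_mul, one_mul, Finset.sum_range_add]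

theorem Ico_shift_sum (A : ℤ) (L : ℕ) (f : ℤ → ℝ) :
    ∑ t ∈ Finset.Ico A (A + L), f t = ∑ k ∈ Finset.range L, f (A + k) := by
  symm
  apply Finset.sum_nbij (fun k : ℕ => A + (k : ℤ))
  · intro m hm
    rw [Finset.mem_range] at hm
    rw [Finset.mem_Ico]
    omega
  · intro x _ y _ h
    simp only at h
    omega
  · intro t ht
    rw [Finset.mem_coe, Finset.mem_Ico] at ht
    refine ⟨(t - A).toNat, ?_, ?_⟩
    · rw [Finset.mem_coe, Finset.mem_range]
      omega
    · simp only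
      omega
  · intro m _
    rfl

/-- block estimate -/
theorem block_est (z q H' : ℕ) (hq : 0 < q) (hqz : q ≤ z) (ε : ℝ) (hε : 0 < ε)
    (φ β : ℝ) (a : ℤ) (hφ : φ = a / q + β)
    (j : ℕ)
    (hap : ∀ r : ℤ, IsCoprime r (q : ℤ) →
      |∑ t ∈ Finset.Ico ((j : ℤ) * H') ((j : ℤ) * H' + H'), rgh 1 z (r + q * t) -
        (∏ p ∈ PR 1 z, (1 - if p ∣ q then (0 : ℝ) else 1 / (p : ℝ))) * H'| ≤
        ε * ((∏ p ∈ PR 1 z, (1 - if p ∣ q then (0 : ℝ) else 1 / (p : ℝ))) * H')) :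
    ‖∑ k ∈ Finset.range H', ∑ r ∈ Finset.range q,
        (rgh 1 z (((j * H' + k) * q + r : ℕ) : ℤ) : ℂ) * ee ((((j * H' + k) * q + r : ℕ) : ℝ) * φ) -
      ee ((j * (H' * q : ℕ) : ℝ) * β) *
        (((∏ p ∈ PR 1 z, (1 - if p ∣ q then (0 : ℝ) else 1 / (p : ℝ))) * H' : ℝ) *
        ∑ r ∈ (Finset.range q).filter (fun r => Nat.Coprime r q), ee (r * ((a : ℝ) / q)))‖ ≤
      ε * (VV 1 z * (H' * q : ℕ)) +
        ((H' * q : ℕ) : ℝ) * (2 * Real.pi * (((H' * q : ℕ) : ℝ) * |β|)) := by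
  classical
  set Vq : ℝ := ∏ p ∈ PR 1 z, (1 - if p ∣ q then (0 : ℝ) else 1 / (p : ℝ)) with hVq
  have hqr : (0 : ℝ) < q := by exact_mod_cast hq
  set N : ℕ → ℝ := fun r => ∑ k ∈ Finset.range H', rgh 1 z (((j * H' + k) * q + r : ℕ) : ℤ) with hN
  -- zero if not coprime
  have hN0 : ∀ r ∈ Finset.range q, ¬ Nat.Coprime r q → N r = 0 := by
    intro r _ hr
    rw [hN]
    simp only
    apply Finset.sum_eq_zero
    intro k _
    rw [rgh_eq, if_neg]
    push Not
    obtain ⟨p, hp, hpr, hpq⟩ := Nat.Prime.not_coprime_iff_dvd.1 hr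
    refine ⟨p, ?_, ?_⟩
    · rw [mem_PR]
      exact ⟨hp.one_lt, (Nat.le_of_dvd hq hpq).trans hqz, hp⟩
    · have : p ∣ (j * H' + k) * q + r := dvd_add (Dvd.dvd.mul_left hpq _) hpr
      exact_mod_cast this
  have hN1 : ∀ r ∈ (Finset.range q).filter (fun r => Nat.Coprime r q),
      |N r - Vq * H'| ≤ ε * (Vq * H') := by
    intro r hr
    rw [Finset.mem_filter] at hr
    have h1 := hap (r : ℤ) (Nat.isCoprime_iff_coprime.2 hr.2)
    rw [Ico_shift_sum] at h1
    have h2 : N r = ∑ k ∈ Finset.range H', rgh 1 z ((r : ℤ) + q * ((j : ℤ) * H' + k)) := by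
      rw [hN]
      apply Finset.sum_congr rfl
      intro k _
      congr 1
      push_cast
      ring
    rw [h2]
    exact h1
  -- step 1: replace ee(m β) by ee(jHβ)
  have hee : ∀ k ∈ Finset.range H', ∀ r ∈ Finset.range q,
      ‖(rgh 1 z (((j * H' + k) * q + r : ℕ) : ℤ) : ℂ) * ee ((((j * H' + k) * q + r : ℕ) : ℝ) * φ) -
        ee ((j * (H' * q : ℕ) : ℝ) * β) * ((rgh 1 z (((j * H' + k) * q + r : ℕ) : ℤ) : ℂ) *
          ee (r * ((a : ℝ) / q)))‖ ≤ 2 * Real.pi * (((H' * q : ℕ) : ℝ) * |β|) := by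
    intro k hk r hr
    rw [Finset.mem_range] at hk hr
    have h1 : ee ((((j * H' + k) * q + r : ℕ) : ℝ) * φ) =
        ee (r * ((a : ℝ) / q)) * ee ((j * (H' * q : ℕ) : ℝ) * β) *
          ee (((k * q + r : ℕ) : ℝ) * β) := by
      rw [← ee_add, ← ee_add]
      have h2 : (((j * H' + k) * q + r : ℕ) : ℝ) * φ =
          r * ((a : ℝ) / q) + (j * (H' * q : ℕ) : ℝ) * β + ((k * q + r : ℕ) : ℝ) * β +
            (((j * H' + k : ℕ) * a : ℤ) : ℝ) := by
        rw [hφ]; push_cast; field_simp; ring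
      rw [h2, ee_add_int]
    rw [h1]
    have h3 : (rgh 1 z (((j * H' + k) * q + r : ℕ) : ℤ) : ℂ) *
        (ee (r * ((a : ℝ) / q)) * ee ((j * (H' * q : ℕ) : ℝ) * β) * ee (((k * q + r : ℕ) : ℝ) * β)) -
        ee ((j * (H' * q : ℕ) : ℝ) * β) * ((rgh 1 z (((j * H' + k) * q + r : ℕ) : ℤ) : ℂ) *
          ee (r * ((a : ℝ) / q))) =
        (rgh 1 z (((j * H' + k) * q + r : ℕ) : ℤ) : ℂ) * (ee (r * ((a : ℝ) / q)) *
          ee ((j * (H' * q : ℕ) : ℝ) * β)) * (ee (((k * q + r : ℕ) : ℝ) * β) - 1) := by ring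
    rw [h3, norm_mul, norm_mul, norm_mul, norm_ee, norm_ee, Complex.norm_real,
      Real.norm_of_nonneg (rgh_nonneg _ _ _), mul_one, mul_one]
    have h4 := norm_ee_sub_one_le (((k * q + r : ℕ) : ℝ) * β)
    have h5 : |((k * q + r : ℕ) : ℝ) * β| ≤ ((H' * q : ℕ) : ℝ) * |β| := by
      rw [abs_mul, Nat.abs_cast]
      apply mul_le_mul_of_nonneg_right _ (abs_nonneg _)
      have : k * q + r ≤ H' * q := by
        have : (k + 1) * q ≤ H' * q := Nat.mul_le_mul_right q hk
        have e : (k + 1) * q = k * q + q := by ring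
        omega
      exact_mod_cast this
    calc rgh 1 z (((j * H' + k) * q + r : ℕ) : ℤ) * ‖ee (((k * q + r : ℕ) : ℝ) * β) - 1‖
        ≤ 1 * (2 * Real.pi * |((k * q + r : ℕ) : ℝ) * β|) :=
          mul_le_mul (rgh_le_one _ _ _) h4 (norm_nonneg _) (by norm_num)
      _ ≤ 2 * Real.pi * (((H' * q : ℕ) : ℝ) * |β|) := by
          rw [one_mul]
          exact mul_le_mul_of_nonneg_left h5 (by positivity)
  set E0 := ee ((j * (H' * q : ℕ) : ℝ) * β) with hE0
  set c : ℂ := ∑ r ∈ (Finset.range q).filter (fun r => Nat.Coprime r q), ee (r * ((a : ℝ) / q))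
    with hc
  have hstep1 : ‖∑ k ∈ Finset.range H', ∑ r ∈ Finset.range q,
        (rgh 1 z (((j * H' + k) * q + r : ℕ) : ℤ) : ℂ) * ee ((((j * H' + k) * q + r : ℕ) : ℝ) * φ) -
      E0 * ∑ k ∈ Finset.range H', ∑ r ∈ Finset.range q,
        (rgh 1 z (((j * H' + k) * q + r : ℕ) : ℤ) : ℂ) * ee (r * ((a : ℝ) / q))‖ ≤
      ((H' * q : ℕ) : ℝ) * (2 * Real.pi * (((H' * q : ℕ) : ℝ) * |β|)) := by
    rw [Finset.mul_sum, ← Finset.sum_sub_distrib]
    calc _ ≤ ∑ k ∈ Finset.range H', ∑ r ∈ Finset.range q,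
          2 * Real.pi * (((H' * q : ℕ) : ℝ) * |β|) := by
          refine (norm_sum_le _ _).trans (Finset.sum_le_sum fun k hk => ?_)
          rw [Finset.mul_sum, ← Finset.sum_sub_distrib]
          exact (norm_sum_le _ _).trans (Finset.sum_le_sum fun r hr => hee k hk r hr)
      _ = _ := by
          simp only [Finset.sum_const, Finset.card_range, nsmul_eq_mul]
          push_cast
          ring
  have hstep2 : ∑ k ∈ Finset.range H', ∑ r ∈ Finset.range q,
        (rgh 1 z (((j * H' + k) * q + r : ℕ) : ℤ) : ℂ) * ee (r * ((a : ℝ) / q)) =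
      ∑ r ∈ (Finset.range q).filter (fun r => Nat.Coprime r q), (N r : ℂ) * ee (r * ((a : ℝ) / q)) := by
    rw [Finset.sum_comm, Finset.sum_filter]
    apply Finset.sum_congr rfl
    intro r hr
    split_ifs with h
    · rw [hN]
      push_cast
      rw [Finset.sum_mul]
    · have h1 := hN0 r hr h
      have h2 : ∑ k ∈ Finset.range H', (rgh 1 z (((j * H' + k) * q + r : ℕ) : ℤ) : ℂ) *
          ee (r * ((a : ℝ) / q)) = (N r : ℂ) * ee (r * ((a : ℝ) / q)) := by
        rw [hN]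
        push_cast
        rw [Finset.sum_mul]
      rw [h2, h1]
      simp
  have hstep3 : ‖∑ r ∈ (Finset.range q).filter (fun r => Nat.Coprime r q),
      (N r : ℂ) * ee (r * ((a : ℝ) / q)) - ((Vq * H' : ℝ) : ℂ) * c‖ ≤ ε * (VV 1 z * (H' * q : ℕ)) := by
    rw [hc, Finset.mul_sum, ← Finset.sum_sub_distrib]
    calc _ ≤ ∑ r ∈ (Finset.range q).filter (fun r => Nat.Coprime r q), ε * (Vq * H') := by
          refine (norm_sum_le _ _).trans (Finset.sum_le_sum fun r hr => ?_)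
          rw [← sub_mul, norm_mul, norm_ee, mul_one, ← Complex.ofReal_sub, Complex.norm_real]
          exact hN1 r hr
      _ = (Nat.totient q : ℝ) * (ε * (Vq * H')) := by
          rw [Finset.sum_const, nsmul_eq_mul]
          congr 2
          rw [Nat.totient_eq_card_coprime]
          congr 1
          apply Finset.filter_congr
          intro r _
          exact Nat.coprime_comm
      _ = ε * (Vq * (Nat.totient q : ℝ)) * H' := by ring
      _ = ε * (VV 1 z * (H' * q : ℕ)) := by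
          rw [Vq_rel z q hq hqz]
          push_cast
          ring
  rw [hstep2] at hstep1
  calc _ ≤ ‖∑ k ∈ Finset.range H', ∑ r ∈ Finset.range q,
        (rgh 1 z (((j * H' + k) * q + r : ℕ) : ℤ) : ℂ) * ee ((((j * H' + k) * q + r : ℕ) : ℝ) * φ) -
        E0 * ∑ r ∈ (Finset.range q).filter (fun r => Nat.Coprime r q),
          (N r : ℂ) * ee (r * ((a : ℝ) / q))‖ +
        ‖E0 * (∑ r ∈ (Finset.range q).filter (fun r => Nat.Coprime r q),
          (N r : ℂ) * ee (r * ((a : ℝ) / q)) - ((Vq * H' : ℝ) : ℂ) * c)‖ := by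
        refine le_trans (le_of_eq ?_) (norm_add_le _ _)
        congr 1
        ring
    _ ≤ ((H' * q : ℕ) : ℝ) * (2 * Real.pi * (((H' * q : ℕ) : ℝ) * |β|)) +
        ε * (VV 1 z * (H' * q : ℕ)) := by
        apply add_le_add hstep1
        rw [norm_mul, hE0, norm_ee, one_mul]
        exact hstep3
    _ = _ := by ring

theorem exists_Zpow (u c : ℕ) : ∃ Z : ℕ, ∀ z M : ℕ, Z ≤ z → M ≤ z ^ u →
    (Nat.log 2 M + 1) ^ c ≤ z := by
  have h := (Real.isLittleO_pow_log_id_atTop (n := c)).def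
    (show (0 : ℝ) < 1 / (u * 2 + 1) ^ c by positivity)
  have h1 := (tendsto_natCast_atTop_atTop (R := ℝ)).eventually h
  obtain ⟨Z, hZ⟩ := h1.exists_forall_of_atTop
  refine ⟨max Z 3, fun z M hz hM => ?_⟩
  have hz1 := hZ z (le_trans (le_max_left _ _) hz)
  have hz3 : 3 ≤ z := le_trans (le_max_right _ _) hz
  have hz0 : (0 : ℝ) < z := by
    have : 0 < z := by omega
    exact_mod_cast this
  have hlog1 : 1 ≤ Real.log z := by
    rw [Real.le_log_iff_exp_le hz0]
    have h3 : (3 : ℝ) ≤ z := by exact_mod_cast hz3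
    linarith [Real.exp_one_lt_d9]
  simp only [id, Real.norm_eq_abs] at hz1
  rw [abs_of_nonneg (by positivity : (0 : ℝ) ≤ Real.log z ^ c), abs_of_pos hz0] at hz1
  have hM2 : (Nat.log 2 M : ℝ) ≤ u * 2 * Real.log z := by
    rcases Nat.eq_zero_or_pos M with h0 | h0
    · subst h0
      simp only [Nat.log_zero_right, Nat.cast_zero]
      positivity
    · have h2 : 2 ^ Nat.log 2 M ≤ M := Nat.pow_log_le_self 2 h0.ne'
      have h3 : (2 : ℝ) ^ Nat.log 2 M ≤ (z : ℝ) ^ u := by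
        have : 2 ^ Nat.log 2 M ≤ z ^ u := h2.trans hM
        exact_mod_cast this
      have h4 := Real.log_le_log (by positivity) h3
      rw [Real.log_pow, Real.log_pow] at h4
      have hl2 : 1 / 2 ≤ Real.log 2 := by linarith [Real.log_two_gt_d9]
      have h5 : (Nat.log 2 M : ℝ) * (1 / 2) ≤ (Nat.log 2 M : ℝ) * Real.log 2 :=
        mul_le_mul_of_nonneg_left hl2 (by positivity)
      linarith
  have h6 : ((Nat.log 2 M : ℝ) + 1) ^ c ≤ ((u * 2 + 1) * Real.log z) ^ c := by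
    apply pow_le_pow_left₀ (by positivity)
    nlinarith
  rw [mul_pow] at h6
  have h7 : ((u : ℝ) * 2 + 1) ^ c * Real.log z ^ c ≤ z := by
    calc ((u : ℝ) * 2 + 1) ^ c * Real.log z ^ c
        ≤ (u * 2 + 1) ^ c * (1 / (u * 2 + 1) ^ c * z) :=
          mul_le_mul_of_nonneg_left hz1 (by positivity)
      _ = z := by field_simp
  have h8 := h6.trans h7
  exact_mod_cast h8

/-- case B -/
theorem rough_major (z q M L H' J : ℕ) (hq : 0 < q) (hqz : q ≤ z) (ε : ℝ) (hε : 0 < ε)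
    (φ β : ℝ) (a : ℤ) (hφ : φ = a / q + β) (hcop : IsCoprime a (q : ℤ))
    (hH' : 0 < H') (hJ : J = M / (H' * q))
    (hap : ∀ (A : ℤ) (r : ℤ), IsCoprime r (q : ℤ) →
      |∑ t ∈ Finset.Ico A (A + H'), rgh 1 z (r + q * t) -
        (∏ p ∈ PR 1 z, (1 - if p ∣ q then (0 : ℝ) else 1 / (p : ℝ))) * H'| ≤
        ε * ((∏ p ∈ PR 1 z, (1 - if p ∣ q then (0 : ℝ) else 1 / (p : ℝ))) * H'))
    (hL : 2 ≤ L) (hβH : (((H' * q : ℕ) : ℝ)) * |β| ≤ 1 / L) (δ : ℝ)
    (hδ : 1 ≤ δ * (Nat.totient q : ℝ) ∨ 1 ≤ 2 * δ * (|β| * M)) (hδ0 : 0 ≤ δ) :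
    ‖∑ m ∈ Finset.range M, (rgh 1 z (m : ℤ) : ℂ) * ee (m * φ)‖ ≤
      δ * (VV 1 z * M) + ε * (VV 1 z * M) + 2 * Real.pi * M / L + ((H' * q : ℕ) : ℝ) := by
  classical
  set H := H' * q with hH
  have hH0 : 0 < H := Nat.mul_pos hH' hq
  have hHr : (0 : ℝ) < H := by exact_mod_cast hH0
  have hLr : (0 : ℝ) < L := by
    have : 0 < L := by omega
    exact_mod_cast this
  set Vq : ℝ := ∏ p ∈ PR 1 z, (1 - if p ∣ q then (0 : ℝ) else 1 / (p : ℝ)) with hVq
  have hφpos : (0 : ℝ) < (Nat.totient q : ℝ) := by exact_mod_cast Nat.totient_pos.2 hq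
  have hrel : Vq * (Nat.totient q : ℝ) = VV 1 z * q := Vq_rel z q hq hqz
  have hVV0 := VV_pos 1 z
  have hqr : (0 : ℝ) < q := by exact_mod_cast hq
  have hVq0 : 0 < Vq := by
    by_contra hcon
    push Not at hcon
    have h1 : Vq * (Nat.totient q : ℝ) ≤ 0 := mul_nonpos_of_nonpos_of_nonneg hcon hφpos.le
    have h2 : 0 < VV 1 z * q := by positivity
    linarith
  have hJH : J * H ≤ M := by rw [hJ]; exact Nat.div_mul_le_self _ _
  have hMJ : M < J * H + H := by
    rw [hJ]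
    have := Nat.lt_div_mul_add (a := M) hH0
    exact this
  have hJHr : (J : ℝ) * H ≤ M := by exact_mod_cast hJH
  set F : ℕ → ℂ := fun m => (rgh 1 z (m : ℤ) : ℂ) * ee (m * φ) with hF
  have hFn : ∀ m, ‖F m‖ ≤ 1 := by
    intro m
    rw [hF]
    simp only
    rw [norm_mul, norm_ee, mul_one, Complex.norm_real, Real.norm_of_nonneg (rgh_nonneg _ _ _)]
    exact rgh_le_one _ _ _
  -- split off the remainder
  have hsplit : ∑ m ∈ Finset.range M, F m = ∑ m ∈ Finset.range (J * H), F m +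
      ∑ m ∈ Finset.range (M - J * H), F (J * H + m) := by
    rw [← Finset.sum_range_add]
    congr 2
    omega
  have hrem : ‖∑ m ∈ Finset.range (M - J * H), F (J * H + m)‖ ≤ H := by
    calc ‖∑ m ∈ Finset.range (M - J * H), F (J * H + m)‖ ≤
          ∑ m ∈ Finset.range (M - J * H), ‖F (J * H + m)‖ := norm_sum_le _ _
      _ ≤ ∑ m ∈ Finset.range (M - J * H), (1 : ℝ) := Finset.sum_le_sum (fun m _ => hFn _)
      _ = ((M - J * H : ℕ) : ℝ) := by simp
      _ ≤ H := by
          have : M - J * H ≤ H := by omega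
          exact_mod_cast this
  -- blocks
  have hblocks : ∑ m ∈ Finset.range (J * H), F m = ∑ j ∈ Finset.range J,
      ∑ k ∈ Finset.range H', ∑ r ∈ Finset.range q, F ((j * H' + k) * q + r) := by
    have h1 : J * H = (J * H') * q := by rw [hH]; ring
    rw [h1, sum_range_mul', sum_range_mul']
  set c : ℂ := ∑ r ∈ (Finset.range q).filter (fun r => Nat.Coprime r q), ee (r * ((a : ℝ) / q))
    with hc
  have hcle : ‖c‖ ≤ 1 := ramanujan_le q hq a hcop
  have hmain : ‖∑ m ∈ Finset.range (J * H), F m -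
      (∑ j ∈ Finset.range J, ee ((j : ℝ) * (H * β))) * (((Vq * H' : ℝ) : ℂ) * c)‖ ≤
      J * (ε * (VV 1 z * H) + (H : ℝ) * (2 * Real.pi * ((H : ℝ) * |β|))) := by
    rw [hblocks, Finset.sum_mul, ← Finset.sum_sub_distrib]
    calc _ ≤ ∑ j ∈ Finset.range J, (ε * (VV 1 z * H) + (H : ℝ) * (2 * Real.pi * ((H : ℝ) * |β|))) := by
          refine (norm_sum_le _ _).trans (Finset.sum_le_sum fun j _ => ?_)
          have h1 := block_est z q H' hq hqz ε hε φ β a hφ j (fun r hr => hap _ r hr)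
          have h2 : ((j : ℝ) * ((H : ℕ) : ℝ)) * β = (j : ℝ) * (H * β) := by ring
          rw [← hH, ← hVq, ← hc, h2] at h1
          exact h1
      _ = _ := by
          rw [Finset.sum_const, Finset.card_range, nsmul_eq_mul]
  have hMr : (0 : ℝ) ≤ M := by positivity
  -- main term bound
  have hmt : ‖(∑ j ∈ Finset.range J, ee ((j : ℝ) * (H * β))) * (((Vq * H' : ℝ) : ℂ) * c)‖ ≤
      δ * (VV 1 z * M) := by
    rw [norm_mul, norm_mul, Complex.norm_real, Real.norm_of_nonneg (by positivity)]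
    have h1 : Vq * H' = VV 1 z * H / (Nat.totient q : ℝ) := by
      rw [eq_div_iff hφpos.ne']
      calc Vq * H' * (Nat.totient q : ℝ) = (Vq * (Nat.totient q : ℝ)) * H' := by ring
        _ = VV 1 z * q * H' := by rw [hrel]
        _ = VV 1 z * H := by rw [hH]; push_cast; ring
    rw [h1]
    rcases hδ with h | h
    · have h2 := geom_bound' J (H * β)
      calc ‖∑ j ∈ Finset.range J, ee ((j : ℝ) * (H * β))‖ * (VV 1 z * H / (Nat.totient q : ℝ) * ‖c‖)
          ≤ J * (VV 1 z * H / (Nat.totient q : ℝ) * 1) := by gcongr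
        _ = VV 1 z * (J * H) * (1 / (Nat.totient q : ℝ)) := by ring
        _ ≤ VV 1 z * M * (1 / (Nat.totient q : ℝ)) := by gcongr
        _ ≤ VV 1 z * M * δ := by
            apply mul_le_mul_of_nonneg_left _ (by positivity)
            rw [div_le_iff₀ hφpos]
            exact h
        _ = δ * (VV 1 z * M) := by ring
    · have hM0 : (0 : ℝ) < M := by
        by_contra hcon
        push Not at hcon
        have h0 : (M : ℝ) = 0 := le_antisymm hcon hMr
        rw [h0] at h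
        simp at h
        linarith
      have hβ0 : 0 < |β| := by
        by_contra hcon
        push Not at hcon
        have h0 : |β| = 0 := le_antisymm hcon (abs_nonneg _)
        rw [h0] at h
        simp at h
        linarith
      have hnd : nd (H * β) = H * |β| := by
        rw [nd_eq_abs, abs_mul, Nat.abs_cast]
        rw [abs_mul, Nat.abs_cast]
        refine hβH.trans ?_
        apply one_div_le_one_div_of_le (by norm_num)
        exact_mod_cast hL
      have h2 := geom_bound J (H * β) (by rw [hnd]; positivity)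
      rw [hnd] at h2
      have hφ1 : (1 : ℝ) ≤ (Nat.totient q : ℝ) := by exact_mod_cast Nat.totient_pos.2 hq
      calc ‖∑ j ∈ Finset.range J, ee ((j : ℝ) * (H * β))‖ * (VV 1 z * H / (Nat.totient q : ℝ) * ‖c‖)
          ≤ 1 / (2 * (H * |β|)) * (VV 1 z * H / 1 * 1) := by gcongr
        _ = VV 1 z * (1 / (2 * |β|)) := by field_simp
        _ ≤ VV 1 z * (δ * M) := by
            apply mul_le_mul_of_nonneg_left _ hVV0.le
            rw [div_le_iff₀ (by positivity)]
            linarith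
        _ = δ * (VV 1 z * M) := by ring
  have herr : J * (ε * (VV 1 z * H) + (H : ℝ) * (2 * Real.pi * ((H : ℝ) * |β|))) ≤
      ε * (VV 1 z * M) + 2 * Real.pi * M / L := by
    have h1 : (J : ℝ) * (ε * (VV 1 z * H)) ≤ ε * (VV 1 z * M) := by
      calc (J : ℝ) * (ε * (VV 1 z * H)) = ε * (VV 1 z * (J * H)) := by ring
        _ ≤ ε * (VV 1 z * M) := by gcongr
    have h2 : (J : ℝ) * ((H : ℝ) * (2 * Real.pi * ((H : ℝ) * |β|))) ≤ 2 * Real.pi * M / L := by
      have hpi := Real.pi_pos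
      calc (J : ℝ) * ((H : ℝ) * (2 * Real.pi * ((H : ℝ) * |β|)))
          = 2 * Real.pi * (J * H) * ((H : ℝ) * |β|) := by ring
        _ ≤ 2 * Real.pi * M * (1 / L) := by gcongr
        _ = 2 * Real.pi * M / L := by ring
    linarith
  rw [hsplit]
  calc ‖∑ m ∈ Finset.range (J * H), F m + ∑ m ∈ Finset.range (M - J * H), F (J * H + m)‖
      ≤ ‖∑ m ∈ Finset.range (J * H), F m‖ + ‖∑ m ∈ Finset.range (M - J * H), F (J * H + m)‖ :=
        norm_add_le _ _
    _ ≤ (‖∑ m ∈ Finset.range (J * H), F m -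
          (∑ j ∈ Finset.range J, ee ((j : ℝ) * (H * β))) * (((Vq * H' : ℝ) : ℂ) * c)‖ +
        ‖(∑ j ∈ Finset.range J, ee ((j : ℝ) * (H * β))) * (((Vq * H' : ℝ) : ℂ) * c)‖) + H := by
        apply add_le_add _ hrem
        refine le_trans (le_of_eq ?_) (norm_add_le _ _)
        congr 1
        ring
    _ ≤ _ := by linarith

end

end Pool.Agent.Lib.MP_325d88_nt
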