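import Mathlib
import Pool.Agent.Lib.MP_325d88_nt.Rough3

/-!
# Exponential sums over rough numbers: the main estimate
-/

namespace Pool.Agent.Lib.MP_325d88_nt

open Finset Pool.Agent.Lib.MP_369a91_nt

noncomputable section

/-- Dirichlet approximation with reduced fractions -/
theorem dirichlet_reduced (φ : ℝ) (n : ℕ) (hn : 0 < n) :
    ∃ (a : ℤ) (q : ℕ), 0 < q ∧ q ≤ n ∧ IsCoprime a (q : ℤ) ∧ |φ - a / q| ≤ 1 / (q * n) := by
  obtain ⟨k, hk0, hkn, hk⟩ := Real.exists_nat_abs_mul_sub_round_le φ hn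
  set r := round ((k : ℝ) * φ) with hr
  set g := Int.gcd r k with hg
  have hg0 : 0 < g := by
    rw [hg]
    exact Int.gcd_pos_of_ne_zero_right _ (by exact_mod_cast hk0.ne')
  have hgk : g ∣ k := by
    have h1 : ((Int.gcd r k : ℕ) : ℤ) ∣ (k : ℤ) := Int.gcd_dvd_right _ _
    rw [hg]
    exact_mod_cast h1
  have hgr : (g : ℤ) ∣ r := by
    rw [hg]; exact Int.gcd_dvd_left _ _
  obtain ⟨q, hq⟩ := hgk
  obtain ⟨a, ha⟩ := hgr
  have hq0 : 0 < q := by
    rcases Nat.eq_zero_or_pos q with h | h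
    · subst h; omega
    · exact h
  have hgr0 : (0 : ℝ) < g := by exact_mod_cast hg0
  have hqr0 : (0 : ℝ) < q := by exact_mod_cast hq0
  have hnr0 : (0 : ℝ) < n := by exact_mod_cast hn
  refine ⟨a, q, hq0, ?_, ?_, ?_⟩
  · refine le_trans ?_ hkn
    rw [hq]
    exact Nat.le_mul_of_pos_left q hg0
  · rw [Int.isCoprime_iff_gcd_eq_one]
    have h1 : Int.gcd r (k : ℤ) = g * Int.gcd a (q : ℤ) := by
      rw [ha, hq]
      push_cast
      rw [Int.gcd_mul_left]
      simp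
    rw [← hg] at h1
    have h2 : g * Int.gcd a (q : ℤ) = g * 1 := by rw [← h1, mul_one]
    exact Nat.eq_of_mul_eq_mul_left hg0 h2
  · have h1 : φ - a / q = ((k : ℝ) * φ - r) / k := by
      rw [ha, hq]
      push_cast
      field_simp
    have hkr0 : (0 : ℝ) < k := by exact_mod_cast hk0
    rw [h1, abs_div, abs_of_pos hkr0]
    calc |(k : ℝ) * φ - r| / k ≤ (1 / ((n : ℝ) + 1)) / k :=
          div_le_div_of_nonneg_right hk hkr0.le
      _ ≤ (1 / (n : ℝ)) / q := by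
          apply div_le_div₀ (by positivity)
          · apply one_div_le_one_div_of_le hnr0; linarith
          · exact hqr0
          · have : q ≤ k := by rw [hq]; exact Nat.le_mul_of_pos_left q hg0
            exact_mod_cast this
      _ = 1 / (q * n) := by rw [div_div, mul_comm]

private lemma r4_num52 {κ' T M L V : ℝ} (hκ : 0 < κ') (hT1 : 1 ≤ T)
    (hTκ : 96000 ≤ κ' * T) (hM : 0 < M) (hL : L = T ^ 15)
    (hV : 1 / (3000 * T ^ 12) ≤ V) : 8 * (T * (M / L)) ≤ κ' / 4 * (V * M) := by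
  have hT0 : 0 < T := lt_of_lt_of_le one_pos hT1
  have h1 : 8 * (T * (M / L)) ≤ κ' / 4 * (1 / (3000 * T ^ 12) * M) := by
    rw [hL]
    have e1 : 8 * (T * (M / T ^ 15)) = 8 * M / T ^ 14 := by
      field_simp
    have e2 : κ' / 4 * (1 / (3000 * T ^ 12) * M) = κ' * M * T ^ 2 /
        (12000 * T ^ 14) := by
      field_simp; ring
    rw [e1, e2, div_le_div_iff₀ (by positivity) (by positivity)]
    have h2 : 96000 ≤ κ' * T ^ 2 := by
      calc (96000 : ℝ) ≤ κ' * T := hTκ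
        _ = κ' * T * 1 := (mul_one _).symm
        _ ≤ κ' * T * T := mul_le_mul_of_nonneg_left hT1 (mul_pos hκ hT0).le
        _ = κ' * T ^ 2 := by ring
    have h3 : 0 < M * T ^ 14 := mul_pos hM (pow_pos hT0 _)
    have h4 := mul_le_mul_of_nonneg_right h2 h3.le
    calc 8 * M * (12000 * T ^ 14) = 96000 * (M * T ^ 14) := by ring
      _ ≤ κ' * T ^ 2 * (M * T ^ 14) := h4
      _ = κ' * M * T ^ 2 * T ^ 14 := by ring
  exact h1.trans (mul_le_mul_of_nonneg_left (mul_le_mul_of_nonneg_right hV hM.le)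
    (by positivity))

private lemma r4_log52 {z M T e : ℕ} (hz1 : 1 ≤ z) (h4 : z ^ e ≤ M)
    (hT : T = Nat.log 2 M + 1) : Real.log ((z : ℝ) ^ e) ≤ T := by
  have h4' : ((z : ℝ) ^ e) ≤ M := by exact_mod_cast h4
  have hzr0 : (0 : ℝ) < z := by exact_mod_cast hz1
  have h5 : (M : ℝ) ≤ 2 ^ T := by
    have h0 : M < 2 ^ (Nat.log 2 M).succ := Nat.lt_pow_succ_log_self (by norm_num) M
    have h00 : M < 2 ^ T := by rw [hT]; exact h0
    exact_mod_cast h00.le
  have h6 := Real.log_le_log (pow_pos hzr0 _) (h4'.trans h5)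
  rw [Real.log_pow 2] at h6
  have h7 : Real.log 2 ≤ 1 := by linarith [Real.log_two_lt_d9]
  have h8 : (T : ℝ) * Real.log 2 ≤ T * 1 := mul_le_mul_of_nonneg_left h7 (Nat.cast_nonneg _)
  rw [mul_one] at h8
  exact h6.trans h8

private lemma r4_finA52 {F G D S X Y Z W V κ T : ℝ} (hV : 0 ≤ V) (hκ : 0 ≤ κ)
    (hW : 0 ≤ W) (hT : 1 ≤ T) (h2 : F ≤ G + D) (h1 : G ≤ X + Y + W * (1 + Z))
    (hX : X ≤ W) (hY : Y ≤ W) (hZ : Z ≤ T) (hS : D ≤ S) (hSe : S = 5 * (κ / 40) * V)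
    (hn : 8 * (T * W) ≤ κ / 4 * V) : F ≤ κ * V := by
  have h8 : W * (1 + Z) ≤ W * (1 + T) := mul_le_mul_of_nonneg_left (by linarith) hW
  have h90 := mul_le_mul_of_nonneg_left hT hW
  have h12 : 0 ≤ κ * V := mul_nonneg hκ hV
  subst hSe
  linarith

private lemma r4_finB52 {F A B V κ T W L : ℝ} (hV : 0 ≤ V) (hκ : 0 ≤ κ)
    (h1 : F ≤ κ / 4 * V + 3 * (κ / 40) * V + A + B) (hW : 0 ≤ W) (hT : 1 ≤ T)
    (hA : A = 2 * Real.pi * L) (hL : L = W) (hB : B ≤ W)
    (hn : 8 * (T * W) ≤ κ / 4 * V) : F ≤ κ * V := by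
  subst hL
  have hpi := Real.pi_lt_d2
  have h4 : 2 * Real.pi * L ≤ 7 * L := mul_le_mul_of_nonneg_right (by linarith) hW
  have h6 := mul_le_mul_of_nonneg_left hT hW
  have h12 : 0 ≤ κ * V := mul_nonneg hκ hV
  subst hA
  linarith

private lemma r4_delta52 {κ t Q : ℝ} (hκ : 0 < κ) (ht : 0 ≤ t) (hQ1 : 32 / κ ^ 2 < Q)
    (h3 : Q ≤ 2 * t ^ 2) : 1 ≤ (κ / 4) * t := by
  have h4 : 32 / κ ^ 2 < 2 * t ^ 2 := lt_of_lt_of_le hQ1 h3
  rw [div_lt_iff₀ (by positivity)] at h4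
  have h5 : (4 : ℝ) ^ 2 < (κ * t) ^ 2 := by
    have e : (κ * t) ^ 2 = t ^ 2 * κ ^ 2 := by ring
    rw [e]
    linarith
  have h6 : (4 : ℝ) < κ * t := lt_of_pow_lt_pow_left₀ 2 (mul_nonneg hκ.le ht) h5
  linarith

private lemma r4_beta52 {κ B : ℝ} (hκ : 0 < κ) (hκ1 : κ ≤ 1) (hB : 0 ≤ B)
    (h8 : 32 / κ ^ 2 < B) : 1 ≤ 2 * (κ / 4) * B := by
  rw [div_lt_iff₀ (by positivity)] at h8
  have h9 : κ ^ 2 ≤ κ := by
    rw [sq]
    exact mul_le_of_le_one_left hκ.le hκ1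
  have h12 := mul_le_mul_of_nonneg_left h9 hB
  linarith

/-- **Exponential sums over rough numbers.** -/
theorem rough_fourier (κ' : ℝ) (hκ'0 : 0 < κ') (hκ'1 : κ' ≤ 1) (b : ℕ)
    (hgood : Good 1 b (κ' / 40)) : ∃ Q : ℕ, 0 < Q ∧ ∀ u : ℕ, ∃ Z0 : ℕ,
    ∀ z M : ℕ, Z0 ≤ z → z ^ (16 * b + 40) ≤ M → M ≤ z ^ u → ∀ φ : ℝ,
      (∀ q : ℕ, 1 ≤ q → q ≤ Q → (Q : ℝ) / M < nd (q * φ)) →
      ‖∑ m ∈ Finset.range M, (rgh 1 z (m : ℤ) : ℂ) * ee (m * φ)‖ ≤ κ' * (VV 1 z * M) := by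
  obtain ⟨Zw, hw⟩ := weights_close (κ' / 40) (by positivity) (by linarith) b hgood
  obtain ⟨Zl, hl⟩ := ap_rough (κ' / 40) (by positivity) (by linarith) b hgood
  obtain ⟨sl, hsl⟩ : ∃ sl : ℕ, sl = 8 * b + 15 := ⟨_, rfl⟩
  rw [← hsl] at hl
  obtain ⟨Q1, hQ1⟩ := exists_nat_gt (32 / κ' ^ 2)
  have hQ1r : (0 : ℝ) < Q1 := lt_trans (by positivity) hQ1
  have hQ10 : 0 < Q1 := by exact_mod_cast hQ1r
  obtain ⟨s, hs⟩ : ∃ s : ℕ, s = 16 * b + 40 := ⟨_, rfl⟩
  rw [← hs]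
  refine ⟨Q1 ^ 2, by positivity, ?_⟩
  intro u
  obtain ⟨Zp, hZp⟩ := exists_Zpow u 60
  obtain ⟨T0, hT0⟩ := exists_nat_gt (96000 / κ')
  refine ⟨max (max Zw Zl) (max Zp (max (2 ^ T0) 4)), ?_⟩
  intro z M hz hzM hMu φ hφ
  have hzw : Zw ≤ z := le_trans (le_trans (le_max_left _ _) (le_max_left _ _)) hz
  have hzl : Zl ≤ z := le_trans (le_trans (le_max_right _ _) (le_max_left _ _)) hz
  have hzp : Zp ≤ z := le_trans (le_trans (le_max_left _ _) (le_max_right _ _)) hz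
  have hzT : 2 ^ T0 ≤ z := le_trans (le_trans (le_max_left _ _) (le_trans (le_max_right _ _)
    (le_max_right _ _))) hz
  have hz4 : 4 ≤ z := le_trans (le_trans (le_max_right _ _) (le_trans (le_max_right _ _)
    (le_max_right _ _))) hz
  have hz1 : 1 ≤ z := by omega
  obtain ⟨T, hT⟩ : ∃ T : ℕ, T = Nat.log 2 M + 1 := ⟨_, rfl⟩
  obtain ⟨L, hL⟩ : ∃ L : ℕ, L = T ^ 15 := ⟨_, rfl⟩
  have hT60 : T ^ 60 ≤ z := by rw [hT]; exact hZp z M hzp hMu
  have hT1 : 1 ≤ T := by omega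
  have hL1 : 1 ≤ L := by rw [hL]; exact Nat.one_le_pow _ _ hT1
  have hzMle : z ≤ M := by
    calc z = z ^ 1 := (pow_one z).symm
      _ ≤ z ^ s := Nat.pow_le_pow_right hz1 (by omega)
      _ ≤ M := hzM
  have hM1 : 1 ≤ M := by omega
  have hlogzM : Nat.log 2 z ≤ T := by
    have := Nat.log_mono_right (b := 2) hzMle
    omega
  have hTT0 : T0 ≤ T := by
    have h1 : T0 ≤ Nat.log 2 z := Nat.le_log_of_pow_le (by norm_num) hzT
    omega
  have hTr1 : (1 : ℝ) ≤ T := by exact_mod_cast hT1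
  have hTr : 96000 / κ' ≤ (T : ℝ) := by
    have : (T0 : ℝ) ≤ T := by exact_mod_cast hTT0
    exact hT0.le.trans this
  have hTκ : 96000 ≤ κ' * T := by
    rw [div_le_iff₀ hκ'0] at hTr
    rw [mul_comm]
    exact hTr
  have hVl := VV_lower z T (by omega) hlogzM
  have hV0 := VV_pos 1 z
  have hMr : (1 : ℝ) ≤ M := by exact_mod_cast hM1
  have hM0 : (0 : ℝ) < M := lt_of_lt_of_le one_pos hMr
  have hLr : (L : ℝ) = (T : ℝ) ^ 15 := by rw [hL]; push_cast; rfl
  have hLr0 : (0 : ℝ) < L := by exact_mod_cast hL1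
  -- key numerical bound
  have hnum : 8 * ((T : ℝ) * (M / L)) ≤ κ' / 4 * (VV 1 z * M) := by
    exact r4_num52 hκ'0 hTr1 hTκ hM0 hLr hVl
  -- Dirichlet
  obtain ⟨R, hR⟩ : ∃ R : ℕ, R = Nat.sqrt M := ⟨_, rfl⟩
  have hRR : R * R ≤ M := by rw [hR]; exact Nat.sqrt_le M
  have hRbig : z ^ (4 * b + 10) ≤ R := by
    rw [hR]
    apply Nat.le_sqrt.2
    rw [← pow_add]
    refine le_trans ?_ hzM
    exact Nat.pow_le_pow_right hz1 (by omega)
  have hR0 : 0 < R := lt_of_lt_of_le (Nat.pow_pos (by omega)) hRbig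
  obtain ⟨a, q, hq0, hqR, hcop, happ⟩ := dirichlet_reduced φ R hR0
  have hqr0 : (0 : ℝ) < q := by exact_mod_cast hq0
  set β := φ - a / q with hβ
  have hφβ : φ = a / q + β := by rw [hβ]; ring
  have hsum_close := hw z M hzw (le_trans (Nat.pow_le_pow_right hz1 (by omega)) hzM)
  by_cases hmin : L < q ∨ (L : ℝ) < |β| * M
  · -- case A
    have hDM : 2 * z ^ (4 * b + 6) ≤ R := by
      refine le_trans ?_ hRbig
      have : z ^ (4 * b + 10) = z ^ (4 * b + 6) * z ^ 4 := by rw [← pow_add]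
      rw [this, mul_comm]
      apply Nat.mul_le_mul_left
      calc 2 ≤ z := by omega
        _ = z ^ 1 := (pow_one z).symm
        _ ≤ z ^ 4 := Nat.pow_le_pow_right hz1 (by norm_num)
    have h1 := sum_evU_ee z b M L hz1 (by omega) (by rw [← hR]; exact hDM) φ a q hq0
      (by rw [← hR]; exact hqR) hcop (by rw [← hR]; exact happ) hmin
    rw [← hR] at h1
    have h2 : ‖∑ m ∈ Finset.range M, (rgh 1 z (m : ℤ) : ℂ) * ee (m * φ)‖ ≤
        ‖∑ m ∈ Finset.range M, (evU z b m : ℂ) * ee (m * φ)‖ +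
          ∑ m ∈ Finset.range M, (evU z b m - rgh 1 z m) := by
      have h3 : ∑ m ∈ Finset.range M, (rgh 1 z (m : ℤ) : ℂ) * ee (m * φ) =
          ∑ m ∈ Finset.range M, (evU z b m : ℂ) * ee (m * φ) -
          ∑ m ∈ Finset.range M, ((evU z b m - rgh 1 z m : ℝ) : ℂ) * ee (m * φ) := by
        rw [← Finset.sum_sub_distrib]
        apply Finset.sum_congr rfl
        intro m _
        push_cast
        ring
      rw [h3]
      refine (norm_sub_le _ _).trans ?_
      apply add_le_add le_rfl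
      refine (norm_sum_le _ _).trans (Finset.sum_le_sum fun m _ => ?_)
      rw [norm_mul, norm_ee, mul_one, Complex.norm_real]
      exact (abs_of_nonneg (sub_nonneg.2 (rgh_le_evU z b (m : ℤ)))).le
    have hlogM : Real.log ((z : ℝ) ^ (4 * b + 6)) ≤ T := by
      exact r4_log52 hz1 (le_trans (Nat.pow_le_pow_right hz1 (by omega)) hzM) hT
    have hzR : ((z : ℝ) ^ (4 * b + 6)) * R ≤ M / L := by
      rw [le_div_iff₀ hLr0]
      have h4 : z ^ (4 * b + 6) * R * L ≤ M := by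
        have hLz : L ≤ z ^ 4 := by
          calc L = T ^ 15 := hL
            _ ≤ T ^ 60 := Nat.pow_le_pow_right hT1 (by norm_num)
            _ ≤ z := hT60
            _ = z ^ 1 := (pow_one z).symm
            _ ≤ z ^ 4 := Nat.pow_le_pow_right hz1 (by norm_num)
        calc z ^ (4 * b + 6) * R * L ≤ z ^ (4 * b + 6) * R * z ^ 4 := Nat.mul_le_mul_left _ hLz
          _ = z ^ (4 * b + 10) * R := by
            have : z ^ (4 * b + 10) = z ^ (4 * b + 6) * z ^ 4 := by rw [← pow_add]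
            rw [this]; ring
          _ ≤ R * R := Nat.mul_le_mul_right _ hRbig
          _ ≤ M := hRR
      exact_mod_cast h4
    have hz46 : ((z : ℝ) ^ (4 * b + 6)) ≤ M / L := by
      refine le_trans ?_ hzR
      have hR1 : (1 : ℝ) ≤ R := by exact_mod_cast hR0
      have : (0 : ℝ) ≤ (z : ℝ) ^ (4 * b + 6) := by positivity
      exact le_mul_of_one_le_right this hR1
    have hML0 : 0 ≤ (M : ℝ) / L := by positivity
    have h11 : 0 ≤ VV 1 z * M := mul_nonneg hV0.le hM0.le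
    exact r4_finA52 h11 hκ'0.le hML0 hTr1 h2 h1 hzR hz46 hlogM hsum_close rfl hnum
  · push Not at hmin
    obtain ⟨hqL, hβL⟩ := hmin
    have hLz : L ≤ z := by
      calc L = T ^ 15 := hL
        _ ≤ T ^ 60 := Nat.pow_le_pow_right hT1 (by norm_num)
        _ ≤ z := hT60
    have hqz : q ≤ z := hqL.trans hLz
    obtain ⟨H', hH'⟩ : ∃ H' : ℕ, H' = M / L ^ 3 := ⟨_, rfl⟩
    have hL3 : L ^ 3 ≤ z := by
      calc L ^ 3 = T ^ 45 := by rw [hL, ← pow_mul]
        _ ≤ T ^ 60 := Nat.pow_le_pow_right hT1 (by norm_num)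
        _ ≤ z := hT60
    have hH'big : z ^ sl ≤ H' := by
      rw [hH', Nat.le_div_iff_mul_le (by positivity)]
      calc z ^ sl * L ^ 3 ≤ z ^ sl * z := Nat.mul_le_mul_left _ hL3
        _ = z ^ (sl + 1) := (pow_succ _ _).symm
        _ ≤ z ^ s := Nat.pow_le_pow_right hz1 (by omega)
        _ ≤ M := hzM
    have hH'0 : 0 < H' := lt_of_lt_of_le (Nat.pow_pos (by omega)) hH'big
    have hHle : ((H' * q : ℕ) : ℝ) ≤ M / (L : ℝ) ^ 2 := by
      rw [le_div_iff₀ (by positivity)]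
      have h1 : H' * q * L ^ 2 ≤ M := by
        calc H' * q * L ^ 2 ≤ H' * L * L ^ 2 :=
              Nat.mul_le_mul_right _ (Nat.mul_le_mul_left _ hqL)
          _ = (M / L ^ 3) * L ^ 3 := by rw [hH']; ring
          _ ≤ M := Nat.div_mul_le_self _ _
      exact_mod_cast h1
    have hT2 : 2 ≤ T := by
      by_contra hcon
      push Not at hcon
      have : (T : ℝ) < 2 := by exact_mod_cast hcon
      have h20 := mul_le_mul_of_nonneg_right hκ'1 (zero_le_one.trans hTr1)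
      have h21 := hTκ.trans h20
      rw [one_mul] at h21
      exact absurd (h21.trans_lt this) (by norm_num)
    have hL2 : 2 ≤ L := by
      calc 2 ≤ T := hT2
        _ = T ^ 1 := (pow_one T).symm
        _ ≤ T ^ 15 := Nat.pow_le_pow_right hT1 (by norm_num)
        _ = L := hL.symm
    have hβH : ((H' * q : ℕ) : ℝ) * |β| ≤ 1 / L := by
      have h1 : |β| ≤ L / M := by
        rw [le_div_iff₀ hM0]; exact hβL
      calc ((H' * q : ℕ) : ℝ) * |β| ≤ (M / (L : ℝ) ^ 2) * (L / M) := by gcongr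
        _ = 1 / L := by field_simp
    have hδ : 1 ≤ (κ' / 4) * (Nat.totient q : ℝ) ∨ 1 ≤ 2 * (κ' / 4) * (|β| * M) := by
      by_cases hqQ : Q1 < q
      · left
        have h1 := le_two_mul_totient_sq q
        have h2 : (Q1 : ℝ) < q := by exact_mod_cast hqQ
        have h3 : (q : ℝ) ≤ 2 * (Nat.totient q : ℝ) ^ 2 := by exact_mod_cast h1
        exact r4_delta52 hκ'0 (Nat.cast_nonneg _) (hQ1.trans h2) h3
      · right
        push Not at hqQ
        have h1 := hφ q hq0 (hqQ.trans (Nat.le_self_pow (by norm_num) _))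
        have h2 : nd (q * φ) ≤ q * |β| := by
          have h3 := nd_le_abs (q * φ) a
          have h4 : (q : ℝ) * φ - a = q * β := by
            rw [hφβ]; field_simp; ring
          rw [h4, abs_mul, Nat.abs_cast] at h3
          exact h3
        have h5 : ((Q1 ^ 2 : ℕ) : ℝ) / M < Q1 * |β| := by
          calc ((Q1 ^ 2 : ℕ) : ℝ) / M < nd (q * φ) := h1
            _ ≤ q * |β| := h2
            _ ≤ Q1 * |β| := by
                apply mul_le_mul_of_nonneg_right _ (abs_nonneg _)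
                exact_mod_cast hqQ
        rw [div_lt_iff₀ hM0] at h5
        push_cast at h5
        have h6 : (Q1 : ℝ) < |β| * M := by
          have h7 : (Q1 : ℝ) * Q1 < Q1 * (|β| * M) := by
            calc (Q1 : ℝ) * Q1 = (Q1 : ℝ) ^ 2 := by ring
              _ < Q1 * |β| * M := h5
              _ = Q1 * (|β| * M) := by ring
          exact lt_of_mul_lt_mul_left h7 hQ1r.le
        have h8 : 32 / κ' ^ 2 < |β| * M := hQ1.trans h6
        exact r4_beta52 hκ'0 hκ'1 (mul_nonneg (abs_nonneg _) hM0.le) h8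
    have h1 := rough_major z q M L H' (M / (H' * q)) hq0 hqz (3 * (κ' / 40)) (by positivity) φ β a hφβ
      hcop hH'0 rfl (fun A r hr => hl z q H' hzl hq0 hH'big A r hr) hL2 hβH (κ' / 4) hδ
      (by positivity)
    have h3 : ((H' * q : ℕ) : ℝ) ≤ M / L := by
      refine hHle.trans ?_
      apply div_le_div_of_nonneg_left hM0.le hLr0
      have : (1 : ℝ) ≤ L := by exact_mod_cast hL1
      exact le_self_pow₀ this (by norm_num)
    have h11 : 0 ≤ VV 1 z * M := mul_nonneg hV0.le hM0.le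
    exact r4_finB52 h11 hκ'0.le h1 (div_nonneg hM0.le hLr0.le) hTr1
      (mul_div_assoc _ _ _) rfl h3 hnum

end

end Pool.Agent.Lib.MP_325d88_nt
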