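import Mathlib
import Pool.Agent.Lib.MP_325d88_nt.Rough4

/-!
# Upper bound sieve consequences
-/

namespace Pool.Agent.Lib.MP_325d88_nt

open Finset Pool.Agent.Lib.MP_369a91_nt

noncomputable section

theorem VV_upper (z : ℕ) (hz : 2 ≤ z) : VV 1 z ≤ 1 / Real.log z := by
  classical
  let f : ℕ →* ℝ :=
    { toFun := fun n => (n : ℝ)⁻¹
      map_one' := by simp
      map_mul' := by intro a b; push_cast; rw [mul_inv] }
  have hfd : ∀ n : ℕ, f n = (n : ℝ)⁻¹ := fun n => rfl
  have hf : ∀ {p : ℕ}, p.Prime → ‖f p‖ < 1 := by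
    intro p hp
    rw [hfd, norm_inv, Real.norm_natCast]
    apply inv_lt_one_of_one_lt₀
    exact_mod_cast hp.one_lt
  obtain ⟨_, hhas⟩ := EulerProduct.summable_and_hasSum_factoredNumbers_prod_filter_prime_geometric
    hf (Finset.Ioc 1 z)
  have h1 : ∑ n ∈ Finset.Icc 1 z, (n : ℝ)⁻¹ ≤ ∏ p ∈ PR 1 z, (1 - f p)⁻¹ := by
    have h2 := sum_le_hasSum ((Finset.Icc 1 z).subtype
      (fun n => n ∈ Nat.factoredNumbers (Finset.Ioc 1 z)))
      (fun i _ => by rw [hfd]; positivity) hhas
    refine le_trans (le_of_eq ?_) h2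
    have h3 := Finset.sum_subtype_eq_sum_filter (s := Finset.Icc 1 z) (fun n : ℕ => f n)
      (p := fun n => n ∈ Nat.factoredNumbers (Finset.Ioc 1 z))
    rw [h3, Finset.filter_true_of_mem]
    · apply Finset.sum_congr rfl
      intro n _
      rw [hfd]
    · intro n hn
      rw [Finset.mem_Icc] at hn
      rw [Nat.mem_factoredNumbers_iff_forall_le]
      refine ⟨by omega, ?_⟩
      intro p hpn hp _
      rw [Finset.mem_Ioc]
      exact ⟨hp.one_lt, by omega⟩
  have h2 : Real.log z ≤ ∑ n ∈ Finset.Icc 1 z, (n : ℝ)⁻¹ := by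
    have h3 := log_add_one_le_harmonic z
    rw [harmonic_eq_sum_Icc] at h3
    push_cast at h3
    refine le_trans ?_ h3
    apply Real.log_le_log
    · have : 0 < z := by omega
      exact_mod_cast this
    · linarith
  have h3 : ∏ p ∈ PR 1 z, (1 - f p)⁻¹ = (VV 1 z)⁻¹ := by
    unfold VV
    rw [← Finset.prod_inv_distrib]
    apply Finset.prod_congr rfl
    intro p _
    rw [hfd, one_div]
  rw [h3] at h1
  have hlog : 0 < Real.log z := Real.log_pos (by exact_mod_cast hz)
  have h4 := h2.trans h1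
  rw [one_div]
  rw [← inv_inv (VV 1 z)]
  exact inv_anti₀ hlog h4

theorem exists_root (s : ℕ) (hs : 1 ≤ s) (Z0 : ℕ) : ∃ P0 : ℕ, ∀ P : ℕ, P0 ≤ P →
    ∃ z : ℕ, Z0 ≤ z ∧ z ^ s ≤ P ∧ P ≤ z ^ (2 * s) := by
  obtain ⟨Z1, hZ1⟩ : ∃ Z1, Z1 = max Z0 2 := ⟨_, rfl⟩
  have h2 : 2 ≤ Z1 := by rw [hZ1]; exact le_max_right _ _
  have h0 : Z0 ≤ Z1 := by rw [hZ1]; exact le_max_left _ _
  refine ⟨Z1 ^ s, fun P hP => ?_⟩
  set z := Nat.findGreatest (fun z => z ^ s ≤ P) P with hz
  have hZP : Z1 ≤ P := le_trans (Nat.le_self_pow (by omega) _) hP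
  have hZz : Z1 ≤ z := Nat.le_findGreatest hZP hP
  have hzs : z ^ s ≤ P := Nat.findGreatest_spec (P := fun z => z ^ s ≤ P) hZP hP
  refine ⟨z, h0.trans hZz, hzs, ?_⟩
  have h3 : P < (z + 1) ^ s := by
    by_contra hcon
    push Not at hcon
    have h4 : z + 1 ≤ P := le_trans (Nat.le_self_pow (by omega) _) hcon
    have h5 : z + 1 ≤ Nat.findGreatest (fun z => z ^ s ≤ P) P := Nat.le_findGreatest h4 hcon
    omega
  have h4 : z + 1 ≤ z ^ 2 := by nlinarith
  calc P ≤ (z + 1) ^ s := h3.le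
    _ ≤ (z ^ 2) ^ s := Nat.pow_le_pow_left h4 s
    _ = z ^ (2 * s) := by rw [← pow_mul]

theorem rough_short : ∃ s Z0 : ℕ, 1 ≤ s ∧ ∀ z L : ℕ, Z0 ≤ z → z ^ s ≤ L → ∀ A : ℤ,
    ∑ t ∈ Finset.Ico A (A + L), rgh 1 z t ≤ 2 * (VV 1 z * L) := by
  obtain ⟨b0, hb0⟩ := good_ev 1 (1 / 6) (by norm_num) (by norm_num) 0
  have hg := hb0 b0 le_rfl
  rw [pow_zero, div_one] at hg
  obtain ⟨Z0, h⟩ := ap_rough (1 / 6) (by norm_num) (by norm_num) b0 hg
  refine ⟨8 * b0 + 15, Z0, by omega, ?_⟩
  intro z L hz hzL A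
  have h1 := h z 1 L hz one_pos hzL A 0 (by push_cast; exact isCoprime_one_right)
  have h2 : ∏ p ∈ PR 1 z, (1 - if p ∣ 1 then (0 : ℝ) else 1 / (p : ℝ)) = VV 1 z := by
    unfold VV
    apply Finset.prod_congr rfl
    intro p hp
    rw [if_neg]
    intro h3
    exact (mem_PR.1 hp).2.2.one_lt.ne' (Nat.dvd_one.1 h3)
  rw [h2] at h1
  simp only [Nat.cast_one, one_mul, zero_add] at h1
  have h3 := (abs_le.1 h1).2
  have hV := VV_pos 1 z
  have h4 : 0 ≤ VV 1 z * L := by positivity
  linarith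

theorem Icc_sum_Ico (y : ℕ) (f : ℤ → ℝ) :
    ∑ m ∈ Finset.Icc 1 y, f (m : ℤ) = ∑ t ∈ Finset.Ico (1 : ℤ) (1 + y), f t := by
  rw [Ico_shift_sum]
  have h : Finset.Icc 1 y = (Finset.range y).image (fun k => k + 1) := by
    ext m
    simp only [Finset.mem_Icc, Finset.mem_image, Finset.mem_range]
    constructor
    · rintro ⟨h1, h2⟩
      exact ⟨m - 1, by omega, by omega⟩
    · rintro ⟨k, h1, rfl⟩
      omega
  rw [h, Finset.sum_image (fun a _ b _ hab => by simpa using hab)]
  apply Finset.sum_congr rfl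
  intro k _
  congr 1
  push_cast
  ring

theorem rgh_anti (z z' : ℕ) (h : z ≤ z') (m : ℤ) : rgh 1 z' m ≤ rgh 1 z m := by
  rw [rgh_eq, rgh_eq]
  split_ifs with h1 h2 h2
  · exact le_rfl
  · exfalso
    apply h2
    intro p hp
    apply h1
    rw [mem_PR] at hp ⊢
    exact ⟨hp.1, hp.2.1.trans h, hp.2.2⟩
  · norm_num
  · exact le_rfl

theorem rough_upper : ∃ C : ℝ, 1 ≤ C ∧ ∀ z y : ℕ, 2 ≤ z →
    ∑ m ∈ Finset.Icc 1 y, rgh 1 z (m : ℤ) ≤ 1 + C * (y / Real.log z) := by
  obtain ⟨s, Z0, hs1, hs⟩ := rough_short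
  obtain ⟨P0, hP0⟩ := exists_root s hs1 (max Z0 2)
  refine ⟨(P0 : ℝ) + Z0 + 4 * s + 1, ?_, ?_⟩
  · have h1 : (0 : ℝ) ≤ P0 := by positivity
    have h2 : (0 : ℝ) ≤ Z0 := by positivity
    have h3 : (0 : ℝ) ≤ s := by positivity
    linarith
  intro z y hz
  have hlz : 0 < Real.log z := Real.log_pos (by exact_mod_cast hz)
  have hzr : (2 : ℝ) ≤ z := by exact_mod_cast hz
  set C : ℝ := (P0 : ℝ) + Z0 + 4 * s + 1 with hC
  have hCP : (P0 : ℝ) ≤ C := by
    have h2 : (0 : ℝ) ≤ Z0 := by positivity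
    have h3 : (0 : ℝ) ≤ s := by positivity
    linarith
  have hCZ : (Z0 : ℝ) ≤ C := by
    have h2 : (0 : ℝ) ≤ P0 := by positivity
    have h3 : (0 : ℝ) ≤ s := by positivity
    linarith
  have hC4 : 4 * (s : ℝ) + 1 ≤ C := by
    have h2 : (0 : ℝ) ≤ P0 := by positivity
    have h3 : (0 : ℝ) ≤ Z0 := by positivity
    linarith
  have hC0 : 0 < C := by
    have h3 : (0 : ℝ) ≤ s := by positivity
    linarith
  have hyr : (0 : ℝ) ≤ y := by positivity
  have hterm0 : 0 ≤ C * (y / Real.log z) := by positivity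
  have htriv : ∑ m ∈ Finset.Icc 1 y, rgh 1 z (m : ℤ) ≤ y := by
    calc ∑ m ∈ Finset.Icc 1 y, rgh 1 z (m : ℤ) ≤ ∑ m ∈ Finset.Icc 1 y, (1 : ℝ) :=
          Finset.sum_le_sum (fun m _ => rgh_le_one _ _ _)
      _ = y := by simp
  have hsmall : Real.log z ≤ C → ∑ m ∈ Finset.Icc 1 y, rgh 1 z (m : ℤ) ≤
      1 + C * (y / Real.log z) := by
    intro h
    have h1 : (y : ℝ) ≤ C * (y / Real.log z) := by
      rw [← mul_div_assoc, le_div_iff₀ hlz]
      nlinarith
    linarith
  by_cases hyz : y ≤ z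
  · -- only m = 1
    rcases Nat.eq_zero_or_pos y with hy0 | hy0
    · subst hy0; simp
    have h1 : ∑ m ∈ Finset.Icc 1 y, rgh 1 z (m : ℤ) ≤ ∑ m ∈ Finset.Icc 1 y, (if m = 1 then (1 : ℝ) else 0) := by
      apply Finset.sum_le_sum
      intro m hm
      rw [Finset.mem_Icc] at hm
      split_ifs with h2
      · exact rgh_le_one _ _ _
      · rw [rgh_eq, if_neg]
        push Not
        refine ⟨m.minFac, ?_, ?_⟩
        · rw [mem_PR]
          have h3 : m.minFac.Prime := Nat.minFac_prime h2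
          exact ⟨h3.one_lt, (Nat.minFac_le (by omega)).trans (hm.2.trans hyz), h3⟩
        · exact_mod_cast Nat.minFac_dvd m
    rw [Finset.sum_ite_eq' (Finset.Icc 1 y) 1 (fun _ => (1 : ℝ)), if_pos (by
      rw [Finset.mem_Icc]; omega)] at h1
    linarith
  · push Not at hyz
    have hlogz : Real.log z ≤ z := (Real.log_le_sub_one_of_pos (by linarith)).trans (by linarith)
    have hzy : (z : ℝ) ≤ y := by exact_mod_cast hyz.le
    by_cases hyP : P0 ≤ y
    · by_cases hzZ : z < Z0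
      · apply hsmall
        have : (z : ℝ) ≤ Z0 := by exact_mod_cast hzZ.le
        linarith
      · push Not at hzZ
        obtain ⟨z', hz'0, hz's, hz'2⟩ := hP0 y hyP
        have hz'Z : Z0 ≤ z' := le_trans (le_max_left _ _) hz'0
        have hz'2' : 2 ≤ z' := le_trans (le_max_right _ _) hz'0
        rw [Icc_sum_Ico]
        by_cases hzz : z ≤ z'
        · have h1 := hs z y hzZ (le_trans (Nat.pow_le_pow_left hzz s) hz's) 1
          have h2 := VV_upper z hz
          have h3 : VV 1 z * y ≤ 1 / Real.log z * y := mul_le_mul_of_nonneg_right h2 hyr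
          have h4 : 2 * (1 / Real.log z * y) ≤ C * (y / Real.log z) := by
            have h5 : 1 / Real.log z * y = y / Real.log z := by ring
            rw [h5]
            apply mul_le_mul_of_nonneg_right _ (by positivity)
            have : (1 : ℝ) ≤ s := by exact_mod_cast hs1
            linarith
          linarith
        · push Not at hzz
          have h1 := hs z' y hz'Z hz's 1
          have h1' : ∑ t ∈ Finset.Ico (1 : ℤ) (1 + y), rgh 1 z t ≤
              ∑ t ∈ Finset.Ico (1 : ℤ) (1 + y), rgh 1 z' t :=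
            Finset.sum_le_sum (fun t _ => rgh_anti z' z hzz.le t)
          have h2 := VV_upper z' hz'2'
          have hlz' : 0 < Real.log z' := Real.log_pos (by exact_mod_cast hz'2')
          have h3 : VV 1 z' * y ≤ 1 / Real.log z' * y := mul_le_mul_of_nonneg_right h2 hyr
          have h6 : Real.log z ≤ 2 * s * Real.log z' := by
            have h7 : Real.log z ≤ Real.log y := Real.log_le_log (by linarith) hzy
            have h8 : (y : ℝ) ≤ (z' : ℝ) ^ (2 * s) := by exact_mod_cast hz'2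
            have h9 := Real.log_le_log (by linarith) h8
            rw [Real.log_pow] at h9
            push_cast at h9
            linarith
          have h4 : 2 * (1 / Real.log z' * y) ≤ C * (y / Real.log z) := by
            have h5 : 1 / Real.log z' ≤ 2 * s / Real.log z := by
              rw [div_le_div_iff₀ hlz' hlz]
              linarith
            calc 2 * (1 / Real.log z' * y) ≤ 2 * (2 * s / Real.log z * y) := by gcongr
              _ = (4 * s) * (y / Real.log z) := by ring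
              _ ≤ C * (y / Real.log z) := by
                  apply mul_le_mul_of_nonneg_right _ (by positivity)
                  linarith
          linarith
    · push Not at hyP
      apply hsmall
      have h1 : (y : ℝ) ≤ P0 := by exact_mod_cast hyP.le
      linarith

end

end Pool.Agent.Lib.MP_325d88_nt
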