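import Mathlib
import Pool.Agent.Lib.MP_325d88_nt.Upper

/-!
# Pair sieve and the average of the singular series
-/

namespace Pool.Agent.Lib.MP_325d88_nt

open Finset Pool.Agent.Lib.MP_369a91_nt

noncomputable section

/-- primes in a dyadic block -/
theorem prime_block : ∃ C : ℝ, 1 ≤ C ∧ ∀ P : ℕ, 2 ≤ P →
    (((Finset.Ioc P (2 * P)).filter Nat.Prime).card : ℝ) ≤ C * (P / Real.log P) := by
  refine ⟨16, by norm_num, fun P hP => ?_⟩
  have hPr : (2 : ℝ) ≤ P := by exact_mod_cast hP
  have hlog : 0 < Real.log P := Real.log_pos (by linarith)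
  have h1 := Chebyshev.pi_le_log4_mul_div (x := (2 * P : ℝ)) (by linarith)
  have h2 : (((Finset.Ioc P (2 * P)).filter Nat.Prime).card : ℝ) ≤
      (Nat.primeCounting ⌊(2 * P : ℝ)⌋₊ : ℝ) := by
    have h3 : ⌊(2 * P : ℝ)⌋₊ = 2 * P := by
      have : (2 * P : ℝ) = ((2 * P : ℕ) : ℝ) := by push_cast; ring
      rw [this, Nat.floor_natCast]
    rw [h3, Nat.primeCounting, Nat.primeCounting', Nat.count_eq_card_filter_range]
    have : ((Finset.Ioc P (2 * P)).filter Nat.Prime) ⊆ (Finset.range (2 * P + 1)).filter Nat.Prime := by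
      intro p hp
      rw [Finset.mem_filter, Finset.mem_Ioc] at hp
      rw [Finset.mem_filter, Finset.mem_range]
      exact ⟨by omega, hp.2⟩
    exact_mod_cast Finset.card_le_card this
  refine h2.trans (h1.trans ?_)
  have hs0 : (0 : ℝ) ≤ 2 * P := by linarith
  have hsq : Real.log (Real.sqrt (2 * P)) = Real.log (2 * P) / 2 := Real.log_sqrt hs0
  have hlog2 : Real.log P ≤ Real.log (2 * P) := Real.log_le_log (by linarith) (by linarith)
  have h4 : Real.log 4 ≤ 2 := by
    have : Real.log 4 = 2 * Real.log 2 := by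
      rw [show (4 : ℝ) = 2 ^ 2 by norm_num, Real.log_pow]; norm_num
    rw [this]
    linarith [Real.log_two_lt_d9]
  have h5 : Real.log 4 * (2 * P) / Real.log (Real.sqrt (2 * P)) ≤ 8 * (P / Real.log P) := by
    rw [hsq]
    have h6 : Real.log 4 * (2 * P) / (Real.log (2 * P) / 2) ≤ 2 * (2 * P) / (Real.log P / 2) := by
      apply div_le_div₀ (by positivity)
      · apply mul_le_mul_of_nonneg_right h4 (by positivity)
      · positivity
      · linarith
    refine h6.trans (le_of_eq ?_)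
    field_simp
    ring
  have h7 : Real.sqrt (2 * P) ≤ 8 * (P / Real.log P) := by
    -- log P ≤ 2 sqrt P
    have h8 : Real.log P ≤ 2 * Real.sqrt P := by
      have h9 : Real.log (Real.sqrt P) ≤ Real.sqrt P := by
        have := Real.log_le_sub_one_of_pos (Real.sqrt_pos.2 (by linarith : (0 : ℝ) < P))
        linarith
      rw [Real.log_sqrt (by linarith)] at h9
      linarith
    have h10 : Real.sqrt (2 * P) ≤ 2 * Real.sqrt P := by
      rw [Real.sqrt_le_left (by positivity)]
      rw [mul_pow, Real.sq_sqrt (by linarith)]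
      nlinarith
    have h11 : Real.sqrt P * Real.sqrt P = P := Real.mul_self_sqrt (by linarith)
    have h12 : 2 * Real.sqrt P ≤ 8 * (P / Real.log P) := by
      rw [← mul_div_assoc, le_div_iff₀ hlog]
      have h13 : 0 ≤ Real.sqrt P := Real.sqrt_nonneg _
      nlinarith
    exact h10.trans h12
  linarith

/-- product over the divisors of `h` -/
theorem div_totient (h : ℕ) (hh : 0 < h) :
    (h : ℝ) / Nat.totient h = ∏ p ∈ h.primeFactors, (1 - 1 / (p : ℝ))⁻¹ := by
  have h1 : (Nat.totient h : ℝ) = h * ∏ p ∈ h.primeFactors, (1 - 1 / (p : ℝ)) := by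
    have h := Nat.totient_eq_mul_prod_factors h
    rename_i h0 
    have h2 : (((Nat.totient h0 : ℚ)) : ℝ) =
        (((h0 : ℚ) * ∏ p ∈ h0.primeFactors, (1 - (p : ℚ)⁻¹) : ℚ) : ℝ) := by
      rw [h]
    push_cast at h2
    rw [h2]
    congr 1
    apply Finset.prod_congr rfl
    intro p _
    rw [one_div]
  have hhr : (0 : ℝ) < h := by exact_mod_cast hh
  rw [h1, Finset.prod_inv_distrib, div_eq_mul_inv, mul_inv, ← mul_assoc,
    mul_inv_cancel₀ hhr.ne', one_mul]

theorem PR_union (w w' z : ℕ) (h1 : w ≤ w') (h2 : w' ≤ z) : PR w z = PR w w' ∪ PR w' z := by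
  ext p
  simp only [Finset.mem_union, mem_PR]
  constructor
  · rintro ⟨a, b, c⟩
    by_cases h : p ≤ w'
    · left; exact ⟨a, h, c⟩
    · right; exact ⟨by omega, b, c⟩
  · rintro (⟨a, b, c⟩ | ⟨a, b, c⟩)
    · exact ⟨a, by omega, c⟩
    · exact ⟨by omega, b, c⟩

theorem PR_disj (w w' z : ℕ) : Disjoint (PR w w') (PR w' z) := by
  rw [Finset.disjoint_left]
  intro p h1 h2
  rw [mem_PR] at h1 h2
  omega

theorem VV_split (w w' z : ℕ) (h1 : w ≤ w') (h2 : w' ≤ z) : VV w z = VV w w' * VV w' z := by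
  unfold VV
  rw [PR_union w w' z h1 h2, Finset.prod_union (PR_disj w w' z)]

theorem VV_1_4 : VV 1 4 = 1 / 3 := by
  have h : PR 1 4 = {2, 3} := by decide
  unfold VV
  rw [h, Finset.prod_pair (by norm_num)]
  norm_num

theorem prod_subset_le {ι : Type*} [DecidableEq ι] (s t : Finset ι) (f : ι → ℝ) (hst : s ⊆ t)
    (h0 : ∀ i ∈ s, 0 ≤ f i) (h1 : ∀ i ∈ t, i ∉ s → 1 ≤ f i) : ∏ i ∈ s, f i ≤ ∏ i ∈ t, f i := by
  rw [← Finset.prod_sdiff hst]
  have h2 : 1 ≤ ∏ i ∈ t \ s, f i := by
    have : ∏ i ∈ t \ s, (1 : ℝ) ≤ ∏ i ∈ t \ s, f i := by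
      apply Finset.prod_le_prod
      · intro i _; norm_num
      · intro i hi
        rw [Finset.mem_sdiff] at hi
        exact h1 i hi.1 hi.2
    simpa using this
  have h3 : 0 ≤ ∏ i ∈ s, f i := Finset.prod_nonneg h0
  nlinarith

theorem modEq_dvd_iff (p : ℕ) (t t' c : ℤ) (h : t ≡ t' [ZMOD (p : ℤ)]) :
    (p : ℤ) ∣ t + c ↔ (p : ℤ) ∣ t' + c := by
  have h1 : (p : ℤ) ∣ t' - t := h.dvd
  constructor
  · intro h2
    have e : t' + c = (t + c) + (t' - t) := by ring
    rw [e]; exact dvd_add h2 h1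
  · intro h2
    have e : t + c = (t' + c) - (t' - t) := by ring
    rw [e]; exact dvd_sub h2 h1

theorem pair_prod (z h : ℕ) (hh : 0 < h) :
    ∏ p ∈ PR 4 z, (1 - if p ∣ h then 1 / (p : ℝ) else 2 / (p : ℝ)) ≤
      (VV 4 z) ^ 2 * ((h : ℝ) / Nat.totient h) := by
  classical
  have hb : ∀ p ∈ PR 4 z, (5 : ℝ) ≤ p := by
    intro p hp
    have : 5 ≤ p := (mem_PR.1 hp).1
    exact_mod_cast this
  have h1 : ∏ p ∈ PR 4 z, (1 - if p ∣ h then 1 / (p : ℝ) else 2 / (p : ℝ)) ≤
      ∏ p ∈ PR 4 z, ((1 - 1 / (p : ℝ)) ^ 2 * (if p ∣ h then (1 - 1 / (p : ℝ))⁻¹ else 1)) := by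
    apply Finset.prod_le_prod
    · intro p hp
      have h5 := hb p hp
      split_ifs
      · rw [sub_nonneg, div_le_one (by linarith)]; linarith
      · rw [sub_nonneg, div_le_one (by linarith)]; linarith
    · intro p hp
      have h5 := hb p hp
      have hp0 : (0 : ℝ) < p := by linarith
      split_ifs
      · have h6 : (0 : ℝ) < 1 - 1 / p := by
          rw [sub_pos, div_lt_one hp0]; linarith
        rw [pow_two, mul_assoc, mul_inv_cancel₀ h6.ne', mul_one]
      · rw [mul_one]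
        have h6 : (1 - 1 / (p : ℝ)) ^ 2 = 1 - 2 / p + (1 / p) ^ 2 := by ring
        rw [h6]
        have : 0 ≤ (1 / (p : ℝ)) ^ 2 := by positivity
        linarith
  refine h1.trans ?_
  rw [Finset.prod_mul_distrib, Finset.prod_pow]
  unfold VV
  apply mul_le_mul_of_nonneg_left _ (by positivity)
  rw [div_totient h hh, ← Finset.prod_filter]
  apply prod_subset_le
  · intro p hp
    rw [Finset.mem_filter, mem_PR] at hp
    rw [Nat.mem_primeFactors]
    exact ⟨hp.1.2.2, hp.2, hh.ne'⟩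
  · intro p hp
    rw [Finset.mem_filter] at hp
    have h5 := hb p hp.1
    have : (0 : ℝ) < 1 - 1 / p := by
      rw [sub_pos, div_lt_one (by linarith)]; linarith
    positivity
  · intro p hp _
    have hpp := Nat.prime_of_mem_primeFactors hp
    have h2 : (2 : ℝ) ≤ p := by exact_mod_cast hpp.two_le
    have h3 : (0 : ℝ) < 1 - 1 / p := by
      rw [sub_pos, div_lt_one (by linarith)]; linarith
    rw [one_le_inv₀ h3]
    have : 0 ≤ 1 / (p : ℝ) := by positivity
    linarith

theorem pair_local (p : ℕ) (hp : p.Prime) (h : ℕ) :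
    ∑ t ∈ Finset.Ico (0 : ℤ) p, (if (p : ℤ) ∣ t ∨ (p : ℤ) ∣ t + h then (1 : ℝ) else 0) =
      if p ∣ h then 1 else 2 := by
  have hone : ¬ (p : ℤ) ∣ 1 := by
    intro h1
    have h2 := Int.eq_one_of_dvd_one (by positivity) h1
    have := hp.one_lt
    omega
  have e1 := lin_count p hp 1 0 hone
  have e2 := lin_count p hp 1 h hone
  split_ifs with hd
  · refine Eq.trans ?_ e1
    apply Finset.sum_congr rfl
    intro t _
    unfold dv
    simp only [zero_add, one_mul]
    congr 1
    rw [eq_iff_iff]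
    constructor
    · rintro (h1 | h1)
      · exact h1
      · have h3 : (p : ℤ) ∣ (h : ℤ) := by exact_mod_cast hd
        have : t = t + h - h := by ring
        rw [this]
        exact dvd_sub h1 h3
    · intro h1; left; exact h1
  · have h2 : ∑ t ∈ Finset.Ico (0 : ℤ) p, (dv p (0 + 1 * t) + dv p (h + 1 * t)) = 2 := by
      rw [Finset.sum_add_distrib, e1, e2]; norm_num
    refine Eq.trans ?_ h2
    apply Finset.sum_congr rfl
    intro t _
    unfold dv
    simp only [zero_add, one_mul]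
    by_cases h3 : (p : ℤ) ∣ t
    · have h4 : ¬ (p : ℤ) ∣ (h + t) := by
        intro h5
        apply hd
        have : (p : ℤ) ∣ (h : ℤ) := by
          have e : (h : ℤ) = h + t - t := by ring
          rw [e]
          exact dvd_sub h5 h3
        exact_mod_cast this
      rw [if_pos (Or.inl h3), if_pos h3, if_neg h4, add_zero]
    · by_cases h4 : (p : ℤ) ∣ (h + t)
      · rw [if_pos (Or.inr (by rw [add_comm]; exact h4)), if_neg h3, if_pos h4, zero_add]
      · rw [if_neg, if_neg h3, if_neg h4, add_zero]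
        rintro (h5 | h5)
        · exact h3 h5
        · exact h4 (by rw [add_comm]; exact h5)

theorem pair_sieve : ∃ C : ℝ, 1 ≤ C ∧ ∃ P0 : ℕ, ∀ P : ℕ, P0 ≤ P → ∀ h : ℕ, 1 ≤ h →
    (((Finset.Ioc P (2 * P)).filter (fun p => p.Prime ∧ (p + h).Prime)).card : ℝ) ≤
      C * ((h : ℝ) / Nat.totient h) * (P / (Real.log P) ^ 2) := by
  classical
  obtain ⟨b0, hb0⟩ := good_ev 2 (1 / 6) (by norm_num) (by norm_num) 0
  have hg := hb0 b0 le_rfl
  rw [pow_zero, div_one] at hg
  obtain ⟨Z0, hls⟩ := line_sieve 2 (by norm_num) (1 / 6) (by norm_num) (by norm_num) b0 hg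
  obtain ⟨s, hs⟩ : ∃ s : ℕ, s = 8 * b0 + 15 := ⟨_, rfl⟩
  rw [← hs] at hls
  have hs1 : 1 ≤ s := by omega
  obtain ⟨P0, hP0⟩ := exists_root s hs1 (max Z0 5)
  refine ⟨14 * (2 * s) ^ 2, ?_, max P0 2, ?_⟩
  · have : (1 : ℝ) ≤ s := by exact_mod_cast hs1
    nlinarith
  intro P hP h hh
  obtain ⟨z, hz0, hzs, hz2⟩ := hP0 P (le_trans (le_max_left _ _) hP)
  have hP2 : 2 ≤ P := le_trans (le_max_right _ _) hP
  have hzZ : Z0 ≤ z := le_trans (le_max_left _ _) hz0
  have hz5 : 5 ≤ z := le_trans (le_max_right _ _) hz0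
  have hzP : z ≤ P := le_trans (Nat.le_self_pow (by omega) _) hzs
  set g : ℕ → ℝ := fun p => if p ∈ PR 4 z then (if p ∣ h then 1 / (p : ℝ) else 2 / (p : ℝ)) else 0
    with hgdef
  have hgP : ∀ p ∈ PR 4 z, g p = if p ∣ h then 1 / (p : ℝ) else 2 / (p : ℝ) := by
    intro p hp
    rw [hgdef]; simp only [if_pos hp]
  have hb : ∀ p ∈ PR 4 z, (5 : ℝ) ≤ p := by
    intro p hp
    have : 5 ≤ p := (mem_PR.1 hp).1
    exact_mod_cast this
  have h1 := hls 4 z P (by norm_num) hzZ hzs ((P : ℤ) + 1) P le_rfl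
    (fun p t => if (p : ℤ) ∣ t ∨ (p : ℤ) ∣ t + h then (1 : ℝ) else 0)
    (by
      intro p _ t t' htt
      have e1 : (p : ℤ) ∣ t ↔ (p : ℤ) ∣ t' := by
        have := modEq_dvd_iff p t t' 0 htt
        simpa using this
      have e2 := modEq_dvd_iff p t t' h htt
      simp only [e1, e2])
    (by intro p t; split_ifs <;> simp)
    g
    (by
      intro p; rw [hgdef]; simp only
      split_ifs
      · positivity
      · positivity
      · exact le_rfl)
    (by
      intro p; rw [hgdef]; simp only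
      split_ifs with h2 h3
      · have := hb p h2
        rw [div_le_div_iff₀ (by linarith) (by norm_num)]; linarith
      · have := hb p h2
        rw [div_le_div_iff₀ (by linarith) (by norm_num)]; linarith
      · norm_num)
    (by
      intro p hp
      rw [hgP p hp]
      have := hb p hp
      split_ifs
      · apply div_le_div_of_nonneg_right (by norm_num) (by linarith)
      · exact le_rfl)
    (by
      intro p hp
      rw [hgP p hp, pair_local p (mem_PR.1 hp).2.2 h]
      have := hb p hp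
      split_ifs <;> field_simp)
  have h2 := (abs_le.1 h1).2
  have h3 : ∏ p ∈ PR 4 z, (1 - g p) =
      ∏ p ∈ PR 4 z, (1 - if p ∣ h then 1 / (p : ℝ) else 2 / (p : ℝ)) := by
    apply Finset.prod_congr rfl
    intro p hp
    rw [hgP p hp]
  rw [h3] at h2
  have h4 := pair_prod z h (by omega)
  have hV : VV 4 z = 3 * VV 1 z := by
    have := VV_split 1 4 z (by norm_num) (by omega)
    rw [VV_1_4] at this
    linarith
  rw [hV] at h4
  have hVV0 := VV_pos 1 z
  have hVup := VV_upper z (by omega)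
  -- count
  have hcount : (((Finset.Ioc P (2 * P)).filter (fun p => p.Prime ∧ (p + h).Prime)).card : ℝ) ≤
      ∑ t ∈ Finset.Ico ((P : ℤ) + 1) ((P : ℤ) + 1 + P), ∏ p ∈ PR 4 z,
        (1 - if (p : ℤ) ∣ t ∨ (p : ℤ) ∣ t + h then (1 : ℝ) else 0) := by
    rw [Ico_shift_sum]
    have h5 : (((Finset.Ioc P (2 * P)).filter (fun p => p.Prime ∧ (p + h).Prime)).card : ℝ) =
        ∑ p ∈ Finset.Ioc P (2 * P), (if p.Prime ∧ (p + h).Prime then (1 : ℝ) else 0) := by
      rw [Finset.sum_ite, Finset.sum_const_zero, add_zero, Finset.sum_const, nsmul_eq_mul, mul_one]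
    have h6 : Finset.Ioc P (2 * P) = (Finset.range P).image (fun k => P + 1 + k) := by
      ext m
      simp only [Finset.mem_Ioc, Finset.mem_image, Finset.mem_range]
      constructor
      · rintro ⟨h1, h2⟩
        exact ⟨m - (P + 1), by omega, by omega⟩
      · rintro ⟨k, h1, rfl⟩
        omega
    rw [h5, h6, Finset.sum_image (fun a _ b _ hab => by simpa using hab)]
    apply Finset.sum_le_sum
    intro k _
    have hprod0 : ∀ t : ℤ, 0 ≤ ∏ p ∈ PR 4 z,
        (1 - if (p : ℤ) ∣ t ∨ (p : ℤ) ∣ t + h then (1 : ℝ) else 0) := by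
      intro t
      apply Finset.prod_nonneg
      intro p _
      split_ifs <;> norm_num
    split_ifs with h7
    · rw [Finset.prod_eq_one]
      intro p hp
      rw [mem_PR] at hp
      rw [if_neg, sub_zero]
      rintro (h8 | h8)
      · have h9 : p ∣ P + 1 + k := by exact_mod_cast h8
        have h10 := (Nat.prime_dvd_prime_iff_eq hp.2.2 h7.1).1 h9
        omega
      · have h9 : p ∣ P + 1 + k + h := by exact_mod_cast h8
        have h10 := (Nat.prime_dvd_prime_iff_eq hp.2.2 h7.2).1 h9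
        omega
    · exact hprod0 _
  have hPr : (2 : ℝ) ≤ P := by exact_mod_cast hP2
  have hlogP : 0 < Real.log P := Real.log_pos (by linarith)
  have hz5r : (5 : ℝ) ≤ z := by exact_mod_cast hz5
  have hlogz : 0 < Real.log z := Real.log_pos (by linarith)
  have hlogPz : Real.log P ≤ 2 * s * Real.log z := by
    have h8 : (P : ℝ) ≤ (z : ℝ) ^ (2 * s) := by exact_mod_cast hz2
    have h9 := Real.log_le_log (by linarith) h8
    rw [Real.log_pow] at h9
    push_cast at h9
    linarith
  have hs0 : (0 : ℝ) < s := by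
    have : 0 < s := by omega
    exact_mod_cast this
  have hV2 : VV 1 z ≤ 2 * s / Real.log P := by
    refine hVup.trans ?_
    rw [div_le_div_iff₀ hlogz hlogP]
    linarith
  set W : ℝ := (h : ℝ) / Nat.totient h with hW
  have hW0 : 0 ≤ W := by positivity
  have h10 : (3 * VV 1 z) ^ 2 * W ≤ 9 * (2 * s / Real.log P) ^ 2 * W := by
    have : (3 * VV 1 z) ^ 2 ≤ 9 * (2 * s / Real.log P) ^ 2 := by
      rw [mul_pow]
      have := pow_le_pow_left₀ hVV0.le hV2 2
      nlinarith
    exact mul_le_mul_of_nonneg_right this hW0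
  have h11 := h4.trans h10
  have hP0r : (0 : ℝ) ≤ P := by linarith
  have h12 := mul_le_mul_of_nonneg_right h11 hP0r
  calc (((Finset.Ioc P (2 * P)).filter (fun p => p.Prime ∧ (p + h).Prime)).card : ℝ)
      ≤ (1 + 3 * (1 / 6)) * ((∏ p ∈ PR 4 z, (1 - if p ∣ h then 1 / (p : ℝ) else 2 / (p : ℝ))) * P) := by
        linarith
    _ ≤ (1 + 3 * (1 / 6)) * (9 * (2 * s / Real.log P) ^ 2 * W * P) := by
        apply mul_le_mul_of_nonneg_left h12 (by norm_num)
    _ = 13.5 * (2 * s) ^ 2 * W * (P / Real.log P ^ 2) := by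
        rw [div_pow]; ring
    _ ≤ 14 * (2 * s) ^ 2 * W * (P / Real.log P ^ 2) := by
        have : 0 ≤ (2 * (s : ℝ)) ^ 2 * W * (P / Real.log P ^ 2) := by positivity
        nlinarith

end

end Pool.Agent.Lib.MP_325d88_nt
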