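import Mathlib
import Pool.Agent.Lib.MP_325d88_nt.Upper2
import Pool.Agent.Lib.MP_325d88_nt.PNTAP

/-!
Prime counts in ranges and classes, residues modulo the primorial, splitting into families.
-/

namespace Pool.Agent.Lib.MP_325d88_nt

open Finset Filter Topology

theorem isCoprime_primorial {w W : ℕ} (hW : W = ∏ p ∈ PR 1 w, p) {x : ℤ}
    (h : ∀ p ∈ PR 1 w, ¬ (p : ℤ) ∣ x) : IsCoprime x (W : ℤ) := by
  rw [hW, Nat.cast_prod]
  refine IsCoprime.prod_right fun p hp => ?_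
  have hpp : p.Prime := (mem_PR.mp hp).2.2
  exact ((Nat.prime_iff_prime_int.mp hpp).irreducible.coprime_iff_not_dvd.mpr (h p hp)).symm

theorem coprime_primorial {w W : ℕ} (hW : W = ∏ p ∈ PR 1 w, p) {x : ℕ}
    (h : ∀ p ∈ PR 1 w, ¬ (p : ℤ) ∣ (x : ℤ)) : Nat.Coprime x W :=
  Nat.isCoprime_iff_coprime.mp (isCoprime_primorial hW h)

theorem dvd_primorial {w W : ℕ} (hW : W = ∏ p ∈ PR 1 w, p) {p : ℕ} (hp : p ∈ PR 1 w) : p ∣ W := by
  rw [hW]
  exact Finset.dvd_prod_of_mem _ hp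

theorem primorial_pos {w W : ℕ} (hW : W = ∏ p ∈ PR 1 w, p) : 0 < W := by
  rw [hW]
  exact Finset.prod_pos fun p hp => (mem_PR.mp hp).2.2.pos

theorem exists_residues (w : ℕ) (hw : 5 ≤ w) (W : ℕ) (hW : W = ∏ p ∈ PR 1 w, p) :
    ∃ ρ τ : Bool → ℕ, (∀ a, Nat.Coprime (ρ a) W) ∧ (∀ a, Nat.Coprime (τ a) W) ∧
      (∀ a, ¬ ρ a ≡ ρ (!a) [MOD W]) ∧
      (∀ a, IsCoprime (-1 * (ρ a : ℤ) + 2 * (ρ a : ℤ)) (W : ℤ)) ∧
      (∀ a, IsCoprime (4 * (ρ a : ℤ) + -1 * (ρ (!a) : ℤ)) (W : ℤ)) ∧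
      (∀ a, IsCoprime (1 * (ρ a : ℤ) + 2 * (ρ (!a) : ℤ)) (W : ℤ)) ∧
      (∀ a, IsCoprime (2 * (ρ a : ℤ) + 1 * (τ a : ℤ)) (W : ℤ)) := by
  classical
  have hp0 : ∀ p ∈ PR 1 w, (fun p : ℕ => p) p ≠ 0 := fun p hp => (mem_PR.mp hp).2.2.pos.ne'
  have hpw : Set.Pairwise (PR 1 w : Set ℕ) (Function.onFun Nat.Coprime (fun p : ℕ => p)) := by
    intro p hp q hq hpq
    exact (Nat.coprime_primes (mem_PR.mp hp).2.2 (mem_PR.mp hq).2.2).mpr hpq
  obtain ⟨r, hr⟩ := Nat.chineseRemainderOfFinset (fun p => if p = 5 then 1 else p - 1)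
    (fun p : ℕ => p) (PR 1 w) hp0 hpw
  have hr5 : ∀ p ∈ PR 1 w, p = 5 → (p : ℤ) ∣ (r : ℤ) - 1 := by
    intro p hp h5
    have h1 := hr p hp
    simp only [h5, if_true] at h1 ⊢
    have h2 := (Int.natCast_modEq_iff.mpr h1).symm.dvd
    push_cast at h2 ⊢
    exact h2
  have hrn : ∀ p ∈ PR 1 w, p ≠ 5 → (p : ℤ) ∣ (r : ℤ) + 1 := by
    intro p hp h5
    have h1 := hr p hp
    have hpp := (mem_PR.mp hp).2.2
    simp only [h5, if_false] at h1
    have h2 : r + 1 ≡ p - 1 + 1 [MOD p] := h1.add_right 1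
    rw [Nat.sub_add_cancel hpp.one_lt.le] at h2
    have h3 : r + 1 ≡ 0 [MOD p] := h2.trans (by simp [Nat.ModEq])
    have h4 := (Nat.modEq_zero_iff_dvd).mp h3
    exact_mod_cast h4
  have hp2 : ∀ p ∈ PR 1 w, p.Prime := fun p hp => (mem_PR.mp hp).2.2
  have h5p : ∀ p ∈ PR 1 w, p ≠ 5 → ¬ (p : ℤ) ∣ 5 := by
    intro p hp h5 hd
    have h1 : p ∣ 5 := by exact_mod_cast hd
    exact h5 ((Nat.prime_dvd_prime_iff_eq (hp2 p hp) (by norm_num)).mp h1)
  have h1p : ∀ p ∈ PR 1 w, ¬ (p : ℤ) ∣ 1 := by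
    intro p hp hd
    have h1 : p ∣ 1 := by exact_mod_cast hd
    exact (hp2 p hp).one_lt.ne' (Nat.dvd_one.mp h1)
  have h53 : ¬ (5 : ℤ) ∣ 3 := by norm_num
  have h51 : ¬ (5 : ℤ) ∣ 1 := by norm_num
  have hrunit : ∀ p ∈ PR 1 w, ¬ (p : ℤ) ∣ (r : ℤ) := by
    intro p hp hd
    by_cases h5 : p = 5
    · have := dvd_sub hd (hr5 p hp h5)
      rw [show (r : ℤ) - ((r : ℤ) - 1) = 1 by ring] at this
      exact h1p p hp this
    · have := dvd_sub (hrn p hp h5) hd
      rw [show (r : ℤ) + 1 - (r : ℤ) = 1 by ring] at this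
      exact h1p p hp this
  let ρ : Bool → ℕ := fun a => if a then 1 else r
  have hρt : ρ true = 1 := rfl
  have hρf : ρ false = r := rfl
  have hρunit : ∀ a, ∀ p ∈ PR 1 w, ¬ (p : ℤ) ∣ (ρ a : ℤ) := by
    intro a p hp
    cases a
    · exact hrunit p hp
    · rw [hρt, Nat.cast_one]
      exact h1p p hp
  have hWp : ∀ p ∈ PR 1 w, (p : ℤ) ∣ (W : ℤ) := fun p hp => by
    exact_mod_cast dvd_primorial hW hp
  have hW0 : 0 < W := primorial_pos hW
  have hne : ¬ ρ true ≡ ρ false [MOD W] := by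
    intro h
    have h3 : (3 : ℕ) ∈ PR 1 w := mem_PR.mpr ⟨by norm_num, by omega, by norm_num⟩
    have h4 : ρ true ≡ ρ false [MOD 3] := h.of_dvd (dvd_primorial hW h3)
    rw [hρt, hρf] at h4
    have h6 := hrn 3 h3 (by norm_num)
    have h7 : 3 ∣ r + 1 := by exact_mod_cast h6
    unfold Nat.ModEq at h4
    omega
  refine ⟨ρ, fun a => (W - 1) * ρ a, fun a => coprime_primorial hW (hρunit a), fun a => ?_,
    fun a => ?_, fun a => ?_, fun a => ?_, fun a => ?_, fun a => ?_⟩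
  · refine coprime_primorial hW fun p hp hd => ?_
    rw [Nat.cast_mul, Nat.cast_sub hW0, Nat.cast_one, sub_mul, one_mul] at hd
    have h1 := dvd_sub ((hWp p hp).mul_right (ρ a : ℤ)) hd
    rw [show (W : ℤ) * (ρ a : ℤ) - ((W : ℤ) * (ρ a : ℤ) - (ρ a : ℤ)) = (ρ a : ℤ) by ring] at h1
    exact hρunit a p hp h1
  · cases a
    · exact fun h => hne h.symm
    · exact hne
  · refine isCoprime_primorial hW fun p hp hd => ?_
    rw [show (-1 : ℤ) * (ρ a : ℤ) + 2 * (ρ a : ℤ) = (ρ a : ℤ) by ring] at hd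
    exact hρunit a p hp hd
  · refine isCoprime_primorial hW fun p hp hd => ?_
    cases a
    · rw [Bool.not_false, hρt, hρf, Nat.cast_one] at hd
      by_cases h5 : p = 5
      · have h1 := dvd_sub hd ((hr5 p hp h5).mul_left 4)
        rw [show (4 : ℤ) * (r : ℤ) + (-1) * 1 - 4 * ((r : ℤ) - 1) = 3 by ring, h5] at h1
        exact h53 (by exact_mod_cast h1)
      · have h1 := dvd_sub ((hrn p hp h5).mul_left 4) hd
        rw [show 4 * ((r : ℤ) + 1) - ((4 : ℤ) * (r : ℤ) + (-1) * 1) = 5 by ring] at h1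
        exact h5p p hp h5 h1
    · rw [Bool.not_true, hρt, hρf, Nat.cast_one] at hd
      by_cases h5 : p = 5
      · have h1 := dvd_add hd (hr5 p hp h5)
        rw [show (4 : ℤ) * 1 + (-1) * (r : ℤ) + ((r : ℤ) - 1) = 3 by ring, h5] at h1
        exact h53 (by exact_mod_cast h1)
      · have h1 := dvd_add hd (hrn p hp h5)
        rw [show (4 : ℤ) * 1 + (-1) * (r : ℤ) + ((r : ℤ) + 1) = 5 by ring] at h1
        exact h5p p hp h5 h1
  · refine isCoprime_primorial hW fun p hp hd => ?_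
    cases a
    · rw [Bool.not_false, hρt, hρf, Nat.cast_one] at hd
      by_cases h5 : p = 5
      · have h1 := dvd_sub hd (hr5 p hp h5)
        rw [show (1 : ℤ) * (r : ℤ) + 2 * 1 - ((r : ℤ) - 1) = 3 by ring, h5] at h1
        exact h53 (by exact_mod_cast h1)
      · have h1 := dvd_sub hd (hrn p hp h5)
        rw [show (1 : ℤ) * (r : ℤ) + 2 * 1 - ((r : ℤ) + 1) = 1 by ring] at h1
        exact h1p p hp h1
    · rw [Bool.not_true, hρt, hρf, Nat.cast_one] at hd
      by_cases h5 : p = 5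
      · have h1 := dvd_sub hd ((hr5 p hp h5).mul_left 2)
        rw [show (1 : ℤ) * 1 + 2 * (r : ℤ) - 2 * ((r : ℤ) - 1) = 3 by ring, h5] at h1
        exact h53 (by exact_mod_cast h1)
      · have h1 := dvd_sub ((hrn p hp h5).mul_left 2) hd
        rw [show 2 * ((r : ℤ) + 1) - ((1 : ℤ) * 1 + 2 * (r : ℤ)) = 1 by ring] at h1
        exact h1p p hp h1
  · refine isCoprime_primorial hW fun p hp hd => ?_
    simp only [Nat.cast_mul, Nat.cast_sub hW0, Nat.cast_one] at hd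
    have h1 := dvd_sub hd ((hWp p hp).mul_right (ρ a : ℤ))
    rw [show (2 : ℤ) * (ρ a : ℤ) + 1 * (((W : ℤ) - 1) * (ρ a : ℤ)) - (W : ℤ) * (ρ a : ℤ) =
      (ρ a : ℤ) by ring] at h1
    exact hρunit a p hp h1

/-- number of primes `≤ x` in the class `a` mod `q` -/
def pc (q a x : ℕ) : ℕ := ((Finset.range (x + 1)).filter (fun p => p.Prime ∧ p ≡ a [MOD q])).card

theorem pc_tendsto (q : ℕ) (hq : 0 < q) (a : ℕ) (ha : Nat.Coprime a q) :
    Tendsto (fun x : ℕ => (pc q a x : ℝ) * Real.log x / x) atTop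
      (nhds (1 / (Nat.totient q : ℝ))) := Pool.Agent.MP_325d88_nt.pnt_ap q hq a ha

theorem tendsto_floor_mul {s : ℝ} (hs : 0 < s) :
    Tendsto (fun k : ℕ => ⌊s * k⌋₊) atTop atTop := by
  refine tendsto_nat_floor_atTop.comp ?_
  exact Tendsto.const_mul_atTop hs tendsto_natCast_atTop_atTop

theorem floor_div_tendsto {s : ℝ} (hs : 0 < s) :
    Tendsto (fun k : ℕ => (⌊s * k⌋₊ : ℝ) / k) atTop (nhds s) := by
  have h1 : Tendsto (fun k : ℕ => s - 1 / (k : ℝ)) atTop (nhds (s - 0)) :=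
    tendsto_const_nhds.sub tendsto_one_div_atTop_nhds_zero_nat
  rw [sub_zero] at h1
  refine tendsto_of_tendsto_of_tendsto_of_le_of_le' h1 tendsto_const_nhds ?_ ?_
  · filter_upwards [eventually_gt_atTop 0] with k hk
    have hk' : (0 : ℝ) < k := by exact_mod_cast hk
    rw [le_div_iff₀ hk', sub_mul, one_div, inv_mul_cancel₀ hk'.ne']
    have := Nat.lt_floor_add_one (s * k)
    linarith
  · filter_upwards [eventually_gt_atTop 0] with k hk
    have hk' : (0 : ℝ) < k := by exact_mod_cast hk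
    rw [div_le_iff₀ hk']
    exact Nat.floor_le (by positivity)

theorem log_ratio_tendsto {s : ℝ} (hs : 0 < s) :
    Tendsto (fun k : ℕ => Real.log k / Real.log (⌊s * k⌋₊ : ℝ)) atTop (nhds 1) := by
  -- log ⌊s k⌋ = log k + log (⌊s k⌋ / k)
  have h1 : Tendsto (fun k : ℕ => Real.log ((⌊s * k⌋₊ : ℝ) / k)) atTop (nhds (Real.log s)) :=
    (Real.continuousAt_log hs.ne').tendsto.comp (floor_div_tendsto hs)
  have h2 : Tendsto (fun k : ℕ => Real.log (k : ℝ)) atTop atTop :=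
    Real.tendsto_log_atTop.comp tendsto_natCast_atTop_atTop
  have h3 : Tendsto (fun k : ℕ => 1 + Real.log ((⌊s * k⌋₊ : ℝ) / k) / Real.log k) atTop
      (nhds (1 + 0)) := tendsto_const_nhds.add (h1.div_atTop h2)
  rw [add_zero] at h3
  have h4 := h3.inv₀ one_ne_zero
  rw [inv_one] at h4
  refine h4.congr' ?_
  filter_upwards [(tendsto_floor_mul hs).eventually_gt_atTop 0, eventually_gt_atTop 1] with k hk hk1
  have hk' : (1 : ℝ) < k := by exact_mod_cast hk1
  have hf : (0 : ℝ) < ⌊s * k⌋₊ := by exact_mod_cast hk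
  have hl : 0 < Real.log k := Real.log_pos hk'
  rw [Real.log_div hf.ne' (by positivity)]
  have h5 : 1 + (Real.log (⌊s * k⌋₊ : ℝ) - Real.log k) / Real.log k =
      Real.log (⌊s * k⌋₊ : ℝ) / Real.log k := by
    field_simp
    ring
  rw [h5, inv_div]

theorem pc_scale (q : ℕ) (hq : 0 < q) (a : ℕ) (ha : Nat.Coprime a q) {s : ℝ} (hs : 0 < s) :
    Tendsto (fun k : ℕ => (pc q a ⌊s * k⌋₊ : ℝ) * Real.log k / k) atTop
      (nhds (s / (Nat.totient q : ℝ))) := by
  have h1 := (pc_tendsto q hq a ha).comp (tendsto_floor_mul hs)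
  have h2 := (h1.mul (floor_div_tendsto hs)).mul (log_ratio_tendsto hs)
  have e : 1 / (Nat.totient q : ℝ) * s * 1 = s / (Nat.totient q : ℝ) := by ring
  rw [e] at h2
  refine h2.congr' ?_
  filter_upwards [(tendsto_floor_mul hs).eventually_gt_atTop 1, eventually_gt_atTop 1] with k hk hk1
  have hk' : (1 : ℝ) < k := by exact_mod_cast hk1
  have hf : (1 : ℝ) < ⌊s * k⌋₊ := by exact_mod_cast hk
  have hl : 0 < Real.log (⌊s * k⌋₊ : ℝ) := Real.log_pos hf
  simp only [Function.comp]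
  field_simp

/-- (A2) primes of a residue class in a range `[x1 k / 10000, x2 k / 10000]` -/
def PS (m r x1 x2 k : ℕ) : Finset ℕ :=
  (Finset.range (x2 * k + 1)).filter
    (fun p => p.Prime ∧ p ≡ r [MOD m] ∧ x1 * k ≤ 10000 * p ∧ 10000 * p ≤ x2 * k)

theorem mem_PS {m r x1 x2 k p : ℕ} : p ∈ PS m r x1 x2 k ↔
    p.Prime ∧ p ≡ r [MOD m] ∧ x1 * k ≤ 10000 * p ∧ 10000 * p ≤ x2 * k := by
  unfold PS
  rw [Finset.mem_filter, Finset.mem_range]
  constructor
  · exact fun h => h.2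
  · exact fun h => ⟨by omega, h⟩

theorem PS_lower (m r x1 x2 k : ℕ) :
    (pc m r ⌊((x2 : ℝ) / 10000) * k⌋₊ : ℝ) - (pc m r ⌊((x1 : ℝ) / 10000) * k⌋₊ : ℝ) ≤
      ((PS m r x1 x2 k).card : ℝ) := by
  have hsub : (Finset.range (⌊((x2 : ℝ) / 10000) * k⌋₊ + 1)).filter
      (fun p => p.Prime ∧ p ≡ r [MOD m]) ⊆
      (Finset.range (⌊((x1 : ℝ) / 10000) * k⌋₊ + 1)).filter (fun p => p.Prime ∧ p ≡ r [MOD m]) ∪
        PS m r x1 x2 k := by
    intro p hp
    obtain ⟨h1, h2⟩ := Finset.mem_filter.mp hp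
    rw [Finset.mem_range] at h1
    rw [Finset.mem_union]
    by_cases h : p < ⌊((x1 : ℝ) / 10000) * k⌋₊ + 1
    · left
      exact Finset.mem_filter.mpr ⟨Finset.mem_range.mpr h, h2⟩
    · right
      rw [mem_PS]
      refine ⟨h2.1, h2.2, ?_, ?_⟩
      · have h3 : ⌊((x1 : ℝ) / 10000) * k⌋₊ < p := by omega
        have h4 := (Nat.floor_lt (by positivity)).mp h3
        have h5 : (x1 : ℝ) * k ≤ 10000 * p := by linarith
        exact_mod_cast h5
      · have h3 : p ≤ ⌊((x2 : ℝ) / 10000) * k⌋₊ := by omega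
        have h4 := (Nat.le_floor_iff (by positivity)).mp h3
        have h5 : (10000 : ℝ) * p ≤ x2 * k := by linarith
        exact_mod_cast h5
  have h1 := (Finset.card_le_card hsub).trans (Finset.card_union_le _ _)
  have h2 : (pc m r ⌊((x2 : ℝ) / 10000) * k⌋₊ : ℝ) ≤
      (pc m r ⌊((x1 : ℝ) / 10000) * k⌋₊ : ℝ) + ((PS m r x1 x2 k).card : ℝ) := by
    unfold pc
    exact_mod_cast h1
  linarith

theorem PS_upper (m r x1 x2 k : ℕ) (h12 : x1 < x2) :
    ((PS m r x1 x2 k).card : ℝ) ≤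
    (pc m r ⌊((x2 : ℝ) / 10000) * k⌋₊ : ℝ) - (pc m r ⌊((x1 : ℝ) / 10000) * k⌋₊ : ℝ) + 1 := by
  classical
  set F1 := ⌊((x1 : ℝ) / 10000) * k⌋₊ with hF1
  set F2 := ⌊((x2 : ℝ) / 10000) * k⌋₊ with hF2
  have h12' : (x1 : ℝ) < x2 := by exact_mod_cast h12
  have hF : F1 ≤ F2 := by
    apply Nat.floor_mono
    have : (0 : ℝ) ≤ k := Nat.cast_nonneg k
    nlinarith
  have hdisj : Disjoint ((Finset.range (F1 + 1)).filter (fun p => p.Prime ∧ p ≡ r [MOD m]))
      ((PS m r x1 x2 k).erase F1) := by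
    rw [Finset.disjoint_left]
    intro p hp1 hp2
    have h3 := Finset.mem_range.mp (Finset.mem_filter.mp hp1).1
    obtain ⟨h4, h5⟩ := Finset.mem_erase.mp hp2
    obtain ⟨-, -, h6, -⟩ := mem_PS.mp h5
    have h7 : (x1 : ℝ) * k ≤ 10000 * p := by exact_mod_cast h6
    have h8 : F1 ≤ p := by
      have h9 : F1 ≤ ⌊(p : ℝ)⌋₊ := by
        apply Nat.floor_mono
        linarith
      rwa [Nat.floor_natCast] at h9
    omega
  have hsub : (Finset.range (F1 + 1)).filter (fun p => p.Prime ∧ p ≡ r [MOD m]) ∪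
      ((PS m r x1 x2 k).erase F1) ⊆
      (Finset.range (F2 + 1)).filter (fun p => p.Prime ∧ p ≡ r [MOD m]) := by
    intro p hp
    rcases Finset.mem_union.mp hp with h | h
    · obtain ⟨h3, h4⟩ := Finset.mem_filter.mp h
      exact Finset.mem_filter.mpr ⟨Finset.mem_range.mpr (by
        have := Finset.mem_range.mp h3
        omega), h4⟩
    · obtain ⟨-, h5⟩ := Finset.mem_erase.mp h
      obtain ⟨h6, h7, -, h8⟩ := mem_PS.mp h5
      refine Finset.mem_filter.mpr ⟨Finset.mem_range.mpr ?_, h6, h7⟩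
      have h9 : (10000 : ℝ) * p ≤ x2 * k := by exact_mod_cast h8
      have h10 : p ≤ F2 := by
        rw [hF2, Nat.le_floor_iff (by positivity)]
        linarith
      omega
  have h3 := Finset.card_le_card hsub
  rw [Finset.card_union_of_disjoint hdisj] at h3
  have h4 : (PS m r x1 x2 k).card ≤ ((PS m r x1 x2 k).erase F1).card + 1 := by
    have := Finset.pred_card_le_card_erase (s := PS m r x1 x2 k) (a := F1)
    omega
  have h5 : pc m r F1 + (PS m r x1 x2 k).card ≤ pc m r F2 + 1 := by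
    unfold pc
    omega
  have h6 : (pc m r F1 : ℝ) + ((PS m r x1 x2 k).card : ℝ) ≤ (pc m r F2 : ℝ) + 1 := by
    exact_mod_cast h5
  linarith

theorem log_div_tendsto : Tendsto (fun k : ℕ => Real.log (k : ℝ) / k) atTop (𝓝 0) := by
  have h := Real.isLittleO_log_id_atTop.tendsto_div_nhds_zero
  exact h.comp tendsto_natCast_atTop_atTop

theorem PS_tendsto (m r x1 x2 : ℕ) (hm : 0 < m) (hr : Nat.Coprime r m) (h1 : 0 < x1)
    (h2 : x1 < x2) :
    Tendsto (fun k : ℕ => ((PS m r x1 x2 k).card : ℝ) * Real.log k / k) atTop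
      (𝓝 (((x2 : ℝ) - x1) / 10000 / Nat.totient m)) := by
  have hx1 : (0 : ℝ) < (x1 : ℝ) / 10000 := by positivity
  have hx2 : (0 : ℝ) < (x2 : ℝ) / 10000 := by
    have : (0 : ℝ) < x2 := by exact_mod_cast h1.trans h2
    positivity
  have e1 := (pc_scale m hm r hr hx2).sub (pc_scale m hm r hr hx1)
  have e2 := e1.add log_div_tendsto
  have e3 : (x2 : ℝ) / 10000 / Nat.totient m - (x1 : ℝ) / 10000 / Nat.totient m =
      ((x2 : ℝ) - x1) / 10000 / Nat.totient m := by ring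
  rw [add_zero] at e2
  rw [e3] at e1 e2
  refine tendsto_of_tendsto_of_tendsto_of_le_of_le' e1 e2 ?_ ?_
  · filter_upwards [eventually_gt_atTop 1] with k hk
    have hk' : (1 : ℝ) < k := by exact_mod_cast hk
    have hl : 0 < Real.log k := Real.log_pos hk'
    rw [← sub_div, ← sub_mul]
    refine div_le_div_of_nonneg_right ?_ (by positivity)
    exact mul_le_mul_of_nonneg_right (PS_lower m r x1 x2 k) hl.le
  · filter_upwards [eventually_gt_atTop 1] with k hk
    have hk' : (1 : ℝ) < k := by exact_mod_cast hk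
    have hl : 0 < Real.log k := Real.log_pos hk'
    rw [← sub_div, ← sub_mul, ← add_div]
    refine div_le_div_of_nonneg_right ?_ (by positivity)
    have h3 := mul_le_mul_of_nonneg_right (PS_upper m r x1 x2 k h2) hl.le
    linarith

/-- (A3) primes in a short interval after `k` -/
theorem short_primes (ε : ℝ) (hε : 0 < ε) : ∃ K0 : ℕ, ∀ k : ℕ, K0 ≤ k →
    (((Finset.Icc k (k + ⌊ε * k⌋₊)).filter Nat.Prime).card : ℝ) ≤
      2 * ε * (k / Real.log k) := by
  rw [← Filter.eventually_atTop]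
  obtain ⟨δ, hδ0, hδε, hδ1⟩ : ∃ δ : ℝ, 0 < δ ∧ δ < ε ∧ δ < 1 :=
    ⟨min ε 1 / 2, by positivity, by
      have := min_le_left ε 1
      linarith, by
      have := min_le_right ε 1
      linarith⟩
  have h1 := (pc_scale 1 one_pos 1 (Nat.coprime_one_right 1) (s := 1 + ε) (by positivity)).sub
    (pc_scale 1 one_pos 1 (Nat.coprime_one_right 1) (s := 1 - δ) (by linarith))
  have h2 : (1 + ε) / ((Nat.totient 1 : ℕ) : ℝ) - (1 - δ) / ((Nat.totient 1 : ℕ) : ℝ) < 2 * ε := by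
    rw [Nat.totient_one, Nat.cast_one, div_one, div_one]
    linarith
  filter_upwards [h1.eventually (eventually_lt_nhds h2), eventually_gt_atTop 1] with k hk hk1
  have hk' : (1 : ℝ) < k := by exact_mod_cast hk1
  have hl : 0 < Real.log k := Real.log_pos hk'
  have h1δ : 0 < 1 - δ := by linarith
  have hdisj : Disjoint ((Finset.range (⌊(1 - δ) * k⌋₊ + 1)).filter
      (fun p => p.Prime ∧ p ≡ 1 [MOD 1])) ((Finset.Icc k (k + ⌊ε * k⌋₊)).filter Nat.Prime) := by
    rw [Finset.disjoint_left]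
    intro p hp1 hp2
    have h3 := Finset.mem_range.mp (Finset.mem_filter.mp hp1).1
    have h4 := (Finset.mem_Icc.mp (Finset.mem_filter.mp hp2).1).1
    have h5 : (p : ℝ) ≤ (1 - δ) * k := (Nat.le_floor_iff (by positivity)).mp (by omega)
    have h6 : (k : ℝ) ≤ p := by exact_mod_cast h4
    nlinarith
  have hsub : (Finset.range (⌊(1 - δ) * k⌋₊ + 1)).filter (fun p => p.Prime ∧ p ≡ 1 [MOD 1]) ∪
      ((Finset.Icc k (k + ⌊ε * k⌋₊)).filter Nat.Prime) ⊆
      (Finset.range (⌊(1 + ε) * k⌋₊ + 1)).filter (fun p => p.Prime ∧ p ≡ 1 [MOD 1]) := by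
    intro p hp
    rcases Finset.mem_union.mp hp with h | h
    · obtain ⟨h3, h4⟩ := Finset.mem_filter.mp h
      refine Finset.mem_filter.mpr ⟨Finset.mem_range.mpr ?_, h4⟩
      have h5 : ⌊(1 - δ) * k⌋₊ ≤ ⌊(1 + ε) * k⌋₊ := by
        apply Nat.floor_mono
        nlinarith
      have := Finset.mem_range.mp h3
      omega
    · obtain ⟨h3, h4⟩ := Finset.mem_filter.mp h
      refine Finset.mem_filter.mpr ⟨Finset.mem_range.mpr ?_, h4, Nat.modEq_one⟩
      have h5 := (Finset.mem_Icc.mp h3).2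
      have h6 : p ≤ ⌊(1 + ε) * k⌋₊ := by
        rw [Nat.le_floor_iff (by positivity)]
        have h7 : (p : ℝ) ≤ k + ⌊ε * k⌋₊ := by exact_mod_cast h5
        have h8 := Nat.floor_le (show 0 ≤ ε * (k : ℝ) by positivity)
        linarith
      omega
  have h3 := Finset.card_le_card hsub
  rw [Finset.card_union_of_disjoint hdisj] at h3
  have h4 : (pc 1 1 ⌊(1 - δ) * k⌋₊ : ℝ) +
      (((Finset.Icc k (k + ⌊ε * k⌋₊)).filter Nat.Prime).card : ℝ) ≤
      (pc 1 1 ⌊(1 + ε) * k⌋₊ : ℝ) := by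
    unfold pc
    exact_mod_cast h3
  rw [← sub_div, ← sub_mul, div_lt_iff₀ (by positivity)] at hk
  rw [mul_div_assoc', le_div_iff₀ hl]
  nlinarith [hk]

/-- Splitting a set into parts of equal size. -/
theorem exists_split (P : Finset ℕ) (n m : ℕ) (h : m * n ≤ P.card) :
    ∃ f : ℕ → Finset ℕ, (∀ i, i < m → f i ⊆ P ∧ (f i).card = n) ∧
      ∀ i, i < m → ∀ j, j < m → i ≠ j → Disjoint (f i) (f j) := by
  induction m generalizing P with
  | zero => exact ⟨fun _ => ∅, by simp, by simp⟩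
  | succ m ih =>
    obtain ⟨t, htP, htc⟩ := Finset.exists_subset_card_eq (s := P) (n := n) (by nlinarith)
    have h1 : m * n ≤ (P \ t).card := by
      rw [Finset.card_sdiff_of_subset htP, htc]
      have : (m + 1) * n = m * n + n := by ring
      omega
    obtain ⟨f, hf1, hf2⟩ := ih (P \ t) h1
    refine ⟨fun i => if i = m then t else f i, fun i hi => ?_, fun i hi j hj hij => ?_⟩
    · by_cases him : i = m
      · simp only [him, if_true]
        exact ⟨htP, htc⟩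
      · simp only [him, if_false]
        obtain ⟨h2, h3⟩ := hf1 i (by omega)
        exact ⟨h2.trans Finset.sdiff_subset, h3⟩
    · by_cases him : i = m
      · have hjm : j ≠ m := fun h => hij (him.trans h.symm)
        simp only [him, hjm, if_true, if_false]
        exact (Finset.disjoint_of_subset_left (hf1 j (by omega)).1
          (Finset.sdiff_disjoint)).symm
      · by_cases hjm : j = m
        · simp only [him, hjm, if_true, if_false]
          exact Finset.disjoint_of_subset_left (hf1 i (by omega)).1 (Finset.sdiff_disjoint)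
        · simp only [him, hjm, if_false]
          exact hf2 i (by omega) j (by omega) hij

theorem totient_mul_pow {W p : ℕ} (hp : p.Prime) (h : p ∣ W) (j : ℕ) :
    Nat.totient (W * p ^ j) = p ^ j * Nat.totient W := by
  induction j with
  | zero => simp
  | succ j ih =>
    have e : W * p ^ (j + 1) = p * (W * p ^ j) := by ring
    rw [e, Nat.totient_mul_of_prime_of_dvd hp (h.mul_right _), ih]
    ring


theorem PS_ge (m r x1 x2 : ℕ) (hm : 0 < m) (hr : Nat.Coprime r m) (h1 : 0 < x1)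
    (h2 : x1 < x2) {c : ℝ} (hc : c < ((x2 : ℝ) - x1) / 10000) :
    ∀ᶠ k : ℕ in atTop, c * (k / (Nat.totient m * Real.log k)) ≤ ((PS m r x1 x2 k).card : ℝ) := by
  have hφ : (0 : ℝ) < Nat.totient m := by exact_mod_cast Nat.totient_pos.mpr hm
  have h3 : c / Nat.totient m < ((x2 : ℝ) - x1) / 10000 / Nat.totient m :=
    div_lt_div_of_pos_right hc hφ
  filter_upwards [(PS_tendsto m r x1 x2 hm hr h1 h2).eventually (eventually_gt_nhds h3),
    eventually_gt_atTop 1] with k hk hk1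
  have hk' : (1 : ℝ) < k := by exact_mod_cast hk1
  have hl : 0 < Real.log k := Real.log_pos hk'
  rw [lt_div_iff₀ (by positivity), div_mul_eq_mul_div, div_lt_iff₀ hφ] at hk
  rw [mul_div_assoc', div_le_iff₀ (by positivity)]
  nlinarith [hk]

/-- (A4) the families; spec3 step 5 -/
theorem families (w : ℕ) (hw : 5 ≤ w) (W : ℕ) (hW : W = ∏ p ∈ PR 1 w, p)
    (ρ τ : Bool → ℕ) (hρ : ∀ a, Nat.Coprime (ρ a) W) (hτ : ∀ a, Nat.Coprime (τ a) W)
    (hρn : ∀ a, ¬ ρ a ≡ ρ (!a) [MOD W]) (i j : ℕ) (t1 t2 T : ℕ) (ht1 : t1 = 3 ^ i)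
    (ht2 : t2 = 5 ^ j) (hT1 : t1 ≤ T) (hT2 : t2 ≤ T) :
    ∃ K0 : ℕ, ∀ k : ℕ, K0 ≤ k → ∀ n : ℕ,
      (n : ℝ) ≤ 1 / (10000 * T) * (k / (Nat.totient W * Real.log k)) →
      ∃ (Wf : Fin 3 → Bool → Finset ℕ) (S : Fin 2 → Bool → Finset ℕ) (A : Bool → Finset ℕ),
        (∀ i a, (Wf i a).card = n) ∧ (∀ j a, (S j a).card = n) ∧
        (∀ i a i' a', (i, a) ≠ (i', a') → Disjoint (Wf i a) (Wf i' a')) ∧
        (∀ j a j' a', (j, a) ≠ (j', a') → Disjoint (S j a) (S j' a')) ∧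
        (∀ i a, ∀ p ∈ Wf i a, p.Prime ∧ 2220 * k ≤ 10000 * p ∧ 10000 * p ≤ 2225 * k ∧
          p ≡ ρ a [MOD (W * t1)]) ∧
        (∀ j a, ∀ p ∈ S j a, p.Prime ∧ 3700 * k ≤ 10000 * p ∧ 10000 * p ≤ 3705 * k ∧
          p ≡ ρ a [MOD (W * t2)]) ∧
        (∀ a, ∀ p ∈ A a, p.Prime ∧ 5200 * k ≤ 10000 * p ∧ 10000 * p ≤ 5300 * k ∧
          p ≡ τ a [MOD W]) ∧
        (∀ a, 9 / 1000 * (k / (Nat.totient W * Real.log k)) ≤ ((A a).card : ℝ)) := by
  rw [← Filter.eventually_atTop]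
  have hW0 : 0 < W := primorial_pos hW
  have h3W : 3 ∣ W := dvd_primorial hW (mem_PR.mpr ⟨by norm_num, by omega, by norm_num⟩)
  have h5W : 5 ∣ W := dvd_primorial hW (mem_PR.mpr ⟨by norm_num, by omega, by norm_num⟩)
  have ht10 : 0 < t1 := by rw [ht1]; positivity
  have ht20 : 0 < t2 := by rw [ht2]; positivity
  have hφ1 : Nat.totient (W * t1) = t1 * Nat.totient W := by
    rw [ht1]; exact totient_mul_pow (by norm_num) h3W i
  have hφ2 : Nat.totient (W * t2) = t2 * Nat.totient W := by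
    rw [ht2]; exact totient_mul_pow (by norm_num) h5W j
  have hc1 : ∀ a, Nat.Coprime (ρ a) (W * t1) := fun a => by
    rw [ht1]
    exact Nat.Coprime.mul_right (hρ a) (Nat.Coprime.pow_right _ (Nat.Coprime.coprime_dvd_right h3W (hρ a)))
  have hc2 : ∀ a, Nat.Coprime (ρ a) (W * t2) := fun a => by
    rw [ht2]
    exact Nat.Coprime.mul_right (hρ a) (Nat.Coprime.pow_right _ (Nat.Coprime.coprime_dvd_right h5W (hρ a)))
  have eW : ∀ a, ∀ᶠ k : ℕ in atTop, (4 / 10000 : ℝ) * (k / (Nat.totient (W * t1) * Real.log k)) ≤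
      ((PS (W * t1) (ρ a) 2220 2225 k).card : ℝ) := fun a =>
    PS_ge _ _ _ _ (Nat.mul_pos hW0 ht10) (hc1 a) (by norm_num) (by norm_num) (by norm_num)
  have eS : ∀ a, ∀ᶠ k : ℕ in atTop, (4 / 10000 : ℝ) * (k / (Nat.totient (W * t2) * Real.log k)) ≤
      ((PS (W * t2) (ρ a) 3700 3705 k).card : ℝ) := fun a =>
    PS_ge _ _ _ _ (Nat.mul_pos hW0 ht20) (hc2 a) (by norm_num) (by norm_num) (by norm_num)
  have eA : ∀ a, ∀ᶠ k : ℕ in atTop, (9 / 1000 : ℝ) * (k / (Nat.totient W * Real.log k)) ≤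
      ((PS W (τ a) 5200 5300 k).card : ℝ) := fun a =>
    PS_ge _ _ _ _ hW0 (hτ a) (by norm_num) (by norm_num) (by norm_num)
  filter_upwards [eW true, eW false, eS true, eS false, eA true, eA false,
    eventually_gt_atTop 1] with k hWt hWf hSt hSf hAt hAf hk1 n hn
  have hk' : (1 : ℝ) < k := by exact_mod_cast hk1
  have hl : 0 < Real.log k := Real.log_pos hk'
  have hφ : (0 : ℝ) < Nat.totient W := by exact_mod_cast Nat.totient_pos.mpr hW0
  have hT0 : 0 < T := lt_of_lt_of_le ht10 hT1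
  have hy : 0 < (k : ℝ) / (Nat.totient W * Real.log k) := by positivity
  have key : ∀ t : ℕ, 0 < t → t ≤ T → ∀ P : Finset ℕ,
      (4 / 10000 : ℝ) * (k / (((t * Nat.totient W : ℕ) : ℝ) * Real.log k)) ≤ (P.card : ℝ) →
      3 * n ≤ P.card := by
    intro t ht htT P hP
    have htT' : (t : ℝ) ≤ T := by exact_mod_cast htT
    have ht' : (0 : ℝ) < t := by exact_mod_cast ht
    have e1 : (k : ℝ) / (((t * Nat.totient W : ℕ) : ℝ) * Real.log k) =
        1 / t * (k / (Nat.totient W * Real.log k)) := by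
      push_cast
      field_simp
    rw [e1] at hP
    have e2 : (1 : ℝ) / T ≤ 1 / t := one_div_le_one_div_of_le ht' htT'
    have e3 : (1 : ℝ) / (10000 * T) = 1 / 10000 * (1 / T) := by
      field_simp
    rw [e3] at hn
    have e4 : (3 : ℝ) * n ≤ P.card := by
      have e5 : (1 : ℝ) / T * (k / (Nat.totient W * Real.log k)) ≤
          1 / t * (k / (Nat.totient W * Real.log k)) := mul_le_mul_of_nonneg_right e2 hy.le
      have e6 : 0 < 1 / (t : ℝ) * (k / (Nat.totient W * Real.log k)) := by positivity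
      nlinarith
    exact_mod_cast e4
  rw [hφ1] at hWt hWf
  rw [hφ2] at hSt hSf
  have cW : ∀ a, 3 * n ≤ (PS (W * t1) (ρ a) 2220 2225 k).card := by
    intro a
    cases a
    · exact key t1 ht10 hT1 _ hWf
    · exact key t1 ht10 hT1 _ hWt
  have cS : ∀ a, 2 * n ≤ (PS (W * t2) (ρ a) 3700 3705 k).card := by
    intro a
    cases a
    · have := key t2 ht20 hT2 _ hSf
      omega
    · have := key t2 ht20 hT2 _ hSt
      omega
  choose fW hfW1 hfW2 using fun a => exists_split _ n 3 (cW a)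
  choose fS hfS1 hfS2 using fun a => exists_split _ n 2 (cS a)
  have hcross : ∀ t : ℕ, ∀ a b : Bool, a ≠ b → ∀ x1 x2 : ℕ,
      Disjoint (PS (W * t) (ρ a) x1 x2 k) (PS (W * t) (ρ b) x1 x2 k) := by
    intro t a b hab x1 x2
    rw [Finset.disjoint_left]
    intro p h1 h2
    have e1 := ((mem_PS.mp h1).2.1).of_mul_right t
    have e2 := ((mem_PS.mp h2).2.1).of_mul_right t
    have hb : b = !a := by
      cases a <;> cases b <;> simp_all
    rw [hb] at e2
    exact hρn a (e1.symm.trans e2)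
  refine ⟨fun i a => fW a i, fun j a => fS a j, fun a => PS W (τ a) 5200 5300 k,
    fun i a => (hfW1 a i i.2).2, fun j a => (hfS1 a j j.2).2, ?_, ?_, ?_, ?_, ?_, ?_⟩
  · intro i a i' a' hne
    by_cases h : a = a'
    · subst h
      refine hfW2 a i i.2 i' i'.2 fun h => hne ?_
      rw [Fin.ext h]
    · exact Finset.disjoint_of_subset_left (hfW1 a i i.2).1
        (Finset.disjoint_of_subset_right (hfW1 a' i' i'.2).1 (hcross t1 a a' h _ _))
  · intro i a i' a' hne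
    by_cases h : a = a'
    · subst h
      refine hfS2 a i i.2 i' i'.2 fun h => hne ?_
      rw [Fin.ext h]
    · exact Finset.disjoint_of_subset_left (hfS1 a i i.2).1
        (Finset.disjoint_of_subset_right (hfS1 a' i' i'.2).1 (hcross t2 a a' h _ _))
  · intro i a p hp
    obtain ⟨h1, h2, h3, h4⟩ := mem_PS.mp ((hfW1 a i i.2).1 hp)
    exact ⟨h1, h3, h4, h2⟩
  · intro i a p hp
    obtain ⟨h1, h2, h3, h4⟩ := mem_PS.mp ((hfS1 a i i.2).1 hp)
    exact ⟨h1, h3, h4, h2⟩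
  · intro a p hp
    obtain ⟨h1, h2, h3, h4⟩ := mem_PS.mp hp
    exact ⟨h1, h3, h4, h2⟩
  · intro a
    cases a
    · exact hAf
    · exact hAt

end Pool.Agent.Lib.MP_325d88_nt
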