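import Pool.Agent.Lib.MP_325d88_nt.BoxSieve

/-!
# Statement of the relative counting theorem
-/

namespace Pool.Agent.Lib.MP_325d88_nt

open Finset

/-- relative counting: dense subsets U, V of the primes ≡ bx, by mod W in fixed ranges; W = primorial of w ≥ w0(c) -/
def RelCount : Prop := ∀ (α β : ℤ), α ≠ 0 → β ≠ 0 → ∀ (x1 x2 y1 y2 : ℕ), 0 < x1 → x1 < x2 → 0 < y1 → y1 < y2 →
  (0 < α * x1 + β * y1 ∧ 0 < α * x1 + β * y2 ∧ 0 < α * x2 + β * y1 ∧ 0 < α * x2 + β * y2) →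
  ∀ c : ℝ, 0 < c → ∃ w0 : ℕ, ∀ w : ℕ, w0 ≤ w → ∀ W : ℕ, W = ∏ p ∈ PR 1 w, p →
  ∀ bx by' : ℕ, Nat.Coprime bx W → Nat.Coprime by' W → IsCoprime (α * bx + β * by') (W : ℤ) →
  ∃ X0 : ℕ, ∀ X : ℕ, X0 ≤ X → ∀ U V : Finset ℕ,
    (∀ u ∈ U, u.Prime ∧ u ≡ bx [MOD W] ∧ x1 * X ≤ 10000 * u ∧ 10000 * u ≤ x2 * X) →
    (∀ v ∈ V, v.Prime ∧ v ≡ by' [MOD W] ∧ y1 * X ≤ 10000 * v ∧ 10000 * v ≤ y2 * X) →
    c * (X / (Nat.totient W * Real.log X)) ≤ U.card → c * (X / (Nat.totient W * Real.log X)) ≤ V.card →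
    1 / 2 * ((W : ℝ) / Nat.totient W) * (U.card * V.card) / Real.log X ≤
      (((U ×ˢ V).filter (fun x => (α * x.1 + β * x.2).toNat.Prime)).card : ℝ)

end Pool.Agent.Lib.MP_325d88_nt
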