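import Pool.Agent.Lib.MP_325d88_nt.Exp
import Pool.Agent.Lib.MP_325d88_nt.PNTAP

/-!
# Sup norm of the W-tricked primes minus one: preparations
-/

namespace Pool.Agent.Lib.MP_325d88_nt

open Finset Filter Topology

noncomputable section

namespace SupNorm

/-- uniform version of a counting asymptotic -/
lemma unif (f : ℕ → ℝ) (hf : Monotone f) (hf0 : ∀ x, 0 ≤ f x) (L : ℝ) (hL : 0 ≤ L)
    (hlim : Tendsto (fun x : ℕ => f x * Real.log x / x) atTop (𝓝 L)) (C : ℕ) (η : ℝ) (hη : 0 < η) :
    ∃ N0 : ℕ, ∀ N : ℕ, N0 ≤ N → ∀ x : ℕ, x ≤ C * N → |f x * Real.log N - L * x| ≤ η * N := by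
  set C' : ℝ := (C : ℝ) + 1 with hC'
  have hC'1 : 1 ≤ C' := by
    have : (0 : ℝ) ≤ C := Nat.cast_nonneg _
    linarith
  set δ : ℝ := min 1 (η / (4 * (L + 1))) with hδ
  have hδpos : 0 < δ := lt_min one_pos (by positivity)
  have hδ1 : δ ≤ 1 := min_le_left _ _
  have hδ2 : L * δ ≤ η / 4 := by
    have h1 : δ ≤ η / (4 * (L + 1)) := min_le_right _ _
    calc L * δ ≤ (L + 1) * (η / (4 * (L + 1))) := by gcongr; linarith
      _ = η / 4 := by field_simp
  set η1 : ℝ := min 1 (η / (4 * C')) with hη1
  have hη1pos : 0 < η1 := lt_min one_pos (by positivity)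
  have hη1C : η1 * C' ≤ η / 4 := by
    have h1 : η1 ≤ η / (4 * C') := min_le_right _ _
    calc η1 * C' ≤ (η / (4 * C')) * C' := by gcongr
      _ = η / 4 := by field_simp
  have hη11 : η1 ≤ 1 := min_le_left _ _
  obtain ⟨x0, hx0⟩ := (Metric.tendsto_atTop.1 hlim) η1 hη1pos
  set M0 : ℝ := |Real.log δ| + Real.log C' with hM0
  have hM0nn : 0 ≤ M0 := add_nonneg (abs_nonneg _) (Real.log_nonneg hC'1)
  -- threshold for log (δ N)
  have hT1 : Tendsto (fun N : ℕ => δ * (N : ℝ)) atTop atTop :=
    Tendsto.const_mul_atTop hδpos tendsto_natCast_atTop_atTop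
  have hT2 : Tendsto (fun N : ℕ => Real.log (δ * (N : ℝ))) atTop atTop :=
    Real.tendsto_log_atTop.comp hT1
  have ev : ∀ᶠ N : ℕ in atTop, (x0 : ℝ) + 2 ≤ δ * N ∧
      4 * M0 * (L + 1) * C' / η + 1 ≤ Real.log (δ * N) ∧ 4 * L / η ≤ N ∧ 1 ≤ (N : ℝ) :=
    (hT1.eventually_ge_atTop _).and ((hT2.eventually_ge_atTop _).and
      ((tendsto_natCast_atTop_atTop.eventually_ge_atTop _).and
        (tendsto_natCast_atTop_atTop.eventually_ge_atTop _)))
  obtain ⟨N0, hN0⟩ := eventually_atTop.1 ev
  refine ⟨N0, fun N hN => ?_⟩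
  obtain ⟨e1, e2, e3, e4⟩ := hN0 N hN
  have hNpos : (0 : ℝ) < N := by linarith
  have hx0nn : (0 : ℝ) ≤ x0 := Nat.cast_nonneg _
  -- the main range
  have main : ∀ x : ℕ, δ * N ≤ x → (x : ℝ) ≤ C' * N → |f x * Real.log N - L * x| ≤ η / 2 * N := by
    intro x hx1 hx2
    have hxpos : (0 : ℝ) < x := by linarith
    have hxx0 : x0 ≤ x := by
      have : (x0 : ℝ) ≤ x := by linarith
      exact_mod_cast this
    have h1 := hx0 x hxx0
    rw [Real.dist_eq] at h1
    have h2 : |f x * Real.log x - L * x| ≤ η1 * x := by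
      have h3 : f x * Real.log x - L * x = (f x * Real.log x / x - L) * x := by
        field_simp
      rw [h3, abs_mul, abs_of_pos hxpos]
      gcongr
    have h3 : η1 * x ≤ η / 4 * N := by
      calc η1 * x ≤ η1 * (C' * N) := by gcongr
        _ = (η1 * C') * N := by ring
        _ ≤ η / 4 * N := by gcongr
    have hlx : 4 * M0 * (L + 1) * C' / η + 1 ≤ Real.log x :=
      e2.trans (Real.log_le_log (by linarith) hx1)
    have hlxpos : 0 < Real.log x := by
      have : 0 ≤ 4 * M0 * (L + 1) * C' / η := by positivity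
      linarith
    have h4 : f x * Real.log x ≤ (L + 1) * x := by
      have h5 := (abs_le.1 h2).2
      have h6 : η1 * x ≤ 1 * x := by gcongr
      nlinarith
    have h5 : f x ≤ (L + 1) * (C' * N) / Real.log x := by
      rw [le_div_iff₀ hlxpos]
      refine h4.trans ?_
      gcongr
    have h6 : |Real.log N - Real.log x| ≤ M0 := by
      rw [abs_le]
      constructor
      · have h7 : Real.log x ≤ Real.log (C' * N) := Real.log_le_log hxpos hx2
        rw [Real.log_mul (by positivity) (by positivity)] at h7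
        have := abs_nonneg (Real.log δ)
        linarith
      · have h7 : Real.log (δ * N) ≤ Real.log x := Real.log_le_log (by linarith) hx1
        rw [Real.log_mul (by positivity) (by positivity)] at h7
        have h8 := neg_abs_le (Real.log δ)
        have h9 := Real.log_nonneg hC'1
        linarith
    have h7 : |f x * (Real.log N - Real.log x)| ≤ η / 4 * N := by
      rw [abs_mul, abs_of_nonneg (hf0 x)]
      calc f x * |Real.log N - Real.log x| ≤ ((L + 1) * (C' * N) / Real.log x) * M0 := by
            gcongr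
        _ = (4 * M0 * (L + 1) * C' / η) * (η / 4 * N) / Real.log x := by
            field_simp
        _ ≤ Real.log x * (η / 4 * N) / Real.log x := by
            gcongr
            linarith
        _ = η / 4 * N := by field_simp
    have h8 : f x * Real.log N - L * x =
        (f x * Real.log x - L * x) + f x * (Real.log N - Real.log x) := by ring
    rw [h8]
    refine (abs_add_le _ _).trans ?_
    linarith
  intro x hxC
  have hxC' : (x : ℝ) ≤ C' * N := by
    have h1 : (x : ℝ) ≤ (C * N : ℕ) := by exact_mod_cast hxC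
    push_cast at h1
    nlinarith
  rcases le_total (δ * N) (x : ℝ) with h | h
  · refine (main x h hxC').trans ?_
    nlinarith
  · set y : ℕ := ⌈δ * N⌉₊ with hy
    have hy1 : δ * N ≤ y := Nat.le_ceil _
    have hy2 : (y : ℝ) < δ * N + 1 := Nat.ceil_lt_add_one (by positivity)
    have hy3 : (y : ℝ) ≤ C' * N := by
      have h1 : y ≤ N := by
        rw [hy]
        refine Nat.ceil_le.2 ?_
        nlinarith
      have h2 : (y : ℝ) ≤ N := by exact_mod_cast h1
      nlinarith
    have h1 := (abs_le.1 (main y hy1 hy3)).2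
    have hxy : x ≤ y := by
      have : (x : ℝ) ≤ y := by linarith
      exact_mod_cast this
    have h2 : f x ≤ f y := hf hxy
    have hlN : 0 ≤ Real.log N := Real.log_nonneg e4
    have h3 : f x * Real.log N ≤ L * (δ * N + 1) + η / 2 * N := by
      have h4 : f x * Real.log N ≤ f y * Real.log N := by gcongr
      have h5 : L * y ≤ L * (δ * N + 1) := by gcongr
      linarith
    have h4 : L ≤ η / 4 * N := by
      rw [div_le_iff₀ hη] at e3
      linarith
    have h5 : L * (δ * N) ≤ η / 4 * N := by
      rw [← mul_assoc]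
      gcongr
    have h6 : 0 ≤ f x * Real.log N := mul_nonneg (hf0 x) hlN
    have h7 : L * x ≤ L * (δ * N) := by gcongr
    have h8 : 0 ≤ L * x := by positivity
    have h9 : 0 ≤ η * N := by positivity
    rw [abs_le]
    constructor
    · linarith
    · linarith

/-- number of `n < x` in a residue class with `W n + b` prime -/
def cnt (W b q r x : ℕ) : ℕ :=
  ((Finset.range x).filter (fun n => n % q = r ∧ (W * n + b).Prime)).card

lemma cnt_mono (W b q r : ℕ) : Monotone (fun x => (cnt W b q r x : ℝ)) := by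
  intro x y hxy
  simp only [cnt]
  exact_mod_cast Finset.card_le_card (Finset.filter_subset_filter _ (Finset.range_mono hxy))

/-- the density -/
def dens0 (W b q r : ℕ) : ℝ :=
  if Nat.Coprime (W * r + b) (W * q) then (W : ℝ) / Nat.totient (W * q) else 0

lemma dens0_nonneg (W b q r : ℕ) : 0 ≤ dens0 W b q r := by
  unfold dens0
  split_ifs
  · positivity
  · exact le_rfl

lemma log_div_tendsto : Tendsto (fun x : ℕ => Real.log x / x) atTop (𝓝 0) := by
  have h := Real.isLittleO_log_id_atTop.tendsto_div_nhds_zero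
  exact h.comp tendsto_natCast_atTop_atTop

/-- a non-coprime class contains at most one prime -/
lemma cnt_noncoprime {W b q r : ℕ} (hW : 0 < W)
    (h : ¬ Nat.Coprime (W * r + b) (W * q)) (x : ℕ) : cnt W b q r x ≤ 1 := by
  unfold cnt
  have key : ∀ n : ℕ, n % q = r → (W * n + b).Prime →
      W * n + b = Nat.gcd (W * r + b) (W * q) := by
    intro n hn hp
    have h1 : Nat.gcd (W * r + b) (W * q) ∣ W * n + b := by
      have h2 : n = q * (n / q) + r := by
        rw [← hn]; exact (Nat.div_add_mod n q).symm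
      have h3 : W * n + b = (W * r + b) + (W * q) * (n / q) := by
        calc W * n + b = W * (q * (n / q) + r) + b := by rw [← h2]
          _ = _ := by ring
      rw [h3]
      exact dvd_add (Nat.gcd_dvd_left _ _) ((Nat.gcd_dvd_right _ _).mul_right _)
    rcases (Nat.dvd_prime hp).1 h1 with h2 | h2
    · exact absurd h2 h
    · exact h2.symm
  refine Finset.card_le_one.2 ?_
  intro n hn m hm
  simp only [Finset.mem_filter, Finset.mem_range] at hn hm
  have h1 := key n hn.2.1 hn.2.2
  have h2 := key m hm.2.1 hm.2.2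
  have h3 : W * n = W * m := by omega
  exact Nat.eq_of_mul_eq_mul_left hW h3

/-- comparison with primes in a progression -/
lemma cnt_coprime {W b q r : ℕ} (hW : 0 < W) (hr : r < q) (x : ℕ) :
    |(cnt W b q r x : ℝ) - (((Finset.range (W * x + b + 1)).filter
      (fun p => p.Prime ∧ p ≡ W * r + b [MOD (W * q)])).card : ℝ)| ≤ b + 1 := by
  classical
  set T := (Finset.range (W * x + b + 1)).filter
      (fun p => p.Prime ∧ p ≡ W * r + b [MOD (W * q)]) with hT
  have h1 : cnt W b q r x = (((Finset.range x).filter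
      (fun n => n % q = r ∧ (W * n + b).Prime)).image (fun n => W * n + b)).card := by
    rw [Finset.card_image_of_injective]
    · rfl
    · intro n m hnm
      have h3 : W * n = W * m := by
        have : W * n + b = W * m + b := hnm
        omega
      exact Nat.eq_of_mul_eq_mul_left hW h3
  set I := ((Finset.range x).filter
      (fun n => n % q = r ∧ (W * n + b).Prime)).image (fun n => W * n + b) with hI
  have h2 : I ⊆ T := by
    intro p hp
    rw [hI, Finset.mem_image] at hp
    obtain ⟨n, hn, rfl⟩ := hp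
    simp only [Finset.mem_filter, Finset.mem_range] at hn
    rw [hT, Finset.mem_filter, Finset.mem_range]
    refine ⟨?_, hn.2.2, ?_⟩
    · have : W * n ≤ W * x := Nat.mul_le_mul_left _ hn.1.le
      omega
    · have h3 : W * n ≡ W * r [MOD (W * q)] := by
        refine Nat.ModEq.mul_left' W ?_
        rw [Nat.ModEq, hn.2.1, Nat.mod_eq_of_lt hr]
      exact Nat.ModEq.add_right _ h3
  have h3 : T \ I ⊆ insert (W * x + b) (Finset.range b) := by
    intro p hp
    rw [Finset.mem_sdiff] at hp
    obtain ⟨hpT, hpI⟩ := hp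
    rw [hT, Finset.mem_filter, Finset.mem_range] at hpT
    obtain ⟨hp1, hp2, hp3⟩ := hpT
    rw [Finset.mem_insert, Finset.mem_range]
    by_contra hcon
    rw [not_or, not_lt] at hcon
    obtain ⟨hc1, hc2⟩ := hcon
    apply hpI
    rw [hI, Finset.mem_image]
    -- `p = W n + b`
    have hmodW : p ≡ b [MOD W] := by
      have h4 : p ≡ W * r + b [MOD W] := hp3.of_dvd (dvd_mul_right _ _)
      refine h4.trans ?_
      rw [Nat.ModEq, Nat.mul_add_mod]
    obtain ⟨n, hn⟩ : W ∣ p - b := (Nat.modEq_iff_dvd' hc2).1 hmodW.symm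
    have hpn : p = W * n + b := by omega
    refine ⟨n, ?_, hpn.symm⟩
    rw [Finset.mem_filter, Finset.mem_range]
    refine ⟨?_, ?_, ?_⟩
    · have h5 : W * n < W * x := by
        have : p < W * x + b := by omega
        omega
      exact Nat.lt_of_mul_lt_mul_left h5
    · have h5 : W * n + b ≡ W * r + b [MOD (W * q)] := by rw [← hpn]; exact hp3
      have h6 : W * n ≡ W * r [MOD (W * q)] := Nat.ModEq.add_right_cancel' _ h5
      have h7 : n ≡ r [MOD q] := Nat.ModEq.mul_left_cancel' hW.ne' h6
      rw [Nat.ModEq, Nat.mod_eq_of_lt hr] at h7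
      exact h7
    · rw [← hpn]; exact hp2
  have h4 : T.card ≤ I.card + (b + 1) := by
    have h5 : T.card = (T \ I).card + I.card := by
      rw [Finset.card_sdiff_add_card_eq_card h2]
    have h6 : (T \ I).card ≤ b + 1 := by
      refine (Finset.card_le_card h3).trans ((Finset.card_insert_le _ _).trans ?_)
      rw [Finset.card_range]
    omega
  have h5 : I.card ≤ T.card := Finset.card_le_card h2
  rw [h1, abs_le]
  have h4' : (T.card : ℝ) ≤ I.card + (b + 1) := by exact_mod_cast h4
  have h5' : (I.card : ℝ) ≤ T.card := by exact_mod_cast h5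
  constructor
  · linarith
  · have : (0 : ℝ) ≤ b := Nat.cast_nonneg _
    linarith

/-- logarithms along an affine progression -/
lemma log_ratio (W b : ℕ) (hW : 0 < W) :
    Tendsto (fun x : ℕ => Real.log x / Real.log ((W * x + b : ℕ) : ℝ)) atTop (𝓝 1) := by
  have hlog : Tendsto (fun x : ℕ => Real.log (x : ℝ)) atTop atTop :=
    Real.tendsto_log_atTop.comp tendsto_natCast_atTop_atTop
  have hWr : (0 : ℝ) < W := by exact_mod_cast hW
  -- `log y / log x → 1`
  have h1 : Tendsto (fun x : ℕ => Real.log ((W * x + b : ℕ) : ℝ) / Real.log x) atTop (𝓝 1) := by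
    have hup : Tendsto (fun x : ℕ => 1 + Real.log (W + b : ℝ) / Real.log x) atTop (𝓝 (1 + 0)) :=
      Tendsto.add tendsto_const_nhds (Tendsto.div_atTop tendsto_const_nhds hlog)
    rw [add_zero] at hup
    refine tendsto_of_tendsto_of_tendsto_of_le_of_le' tendsto_const_nhds hup ?_ ?_
    · filter_upwards [hlog.eventually_gt_atTop 0, eventually_ge_atTop 1] with x hx hx1
      rw [one_le_div hx]
      apply Real.log_le_log
      · exact_mod_cast hx1
      · have : x ≤ W * x + b := by nlinarith
        exact_mod_cast this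
    · filter_upwards [hlog.eventually_gt_atTop 0, eventually_ge_atTop 1] with x hx hx1
      have hx1r : (1 : ℝ) ≤ x := by exact_mod_cast hx1
      have hbr : (0 : ℝ) ≤ b := Nat.cast_nonneg _
      have h2 : ((W * x + b : ℕ) : ℝ) ≤ x * (W + b) := by
        push_cast
        nlinarith
      have h3 : Real.log ((W * x + b : ℕ) : ℝ) ≤ Real.log x + Real.log (W + b : ℝ) := by
        rw [← Real.log_mul (by positivity) (by positivity)]
        apply Real.log_le_log _ h2
        push_cast
        positivity
      calc Real.log ((W * x + b : ℕ) : ℝ) / Real.log x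
          ≤ (Real.log x + Real.log (W + b : ℝ)) / Real.log x := by gcongr
        _ = 1 + Real.log (W + b : ℝ) / Real.log x := by field_simp
  have h2 := h1.inv₀ one_ne_zero
  rw [inv_one] at h2
  refine h2.congr fun x => ?_
  rw [inv_div]

lemma cnt_tendsto {W b q r : ℕ} (hW : 0 < W) (hr : r < q) :
    Tendsto (fun x : ℕ => (cnt W b q r x : ℝ) * Real.log x / x) atTop (𝓝 (dens0 W b q r)) := by
  unfold dens0
  split_ifs with hcop
  · have hq : 0 < q := by omega
    have hpnt := Pool.Agent.MP_325d88_nt.pnt_ap (W * q) (Nat.mul_pos hW hq) (W * r + b) hcop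
    have hy : Tendsto (fun x : ℕ => W * x + b) atTop atTop := by
      refine tendsto_atTop_mono (fun x => ?_) tendsto_id
      show x ≤ W * x + b
      nlinarith
    have h1 := hpnt.comp hy
    have h2 := log_ratio W b hW
    have h3 : Tendsto (fun x : ℕ => (((W * x + b : ℕ) : ℝ)) / x) atTop (𝓝 (W : ℝ)) := by
      have h4 : Tendsto (fun x : ℕ => (W : ℝ) + b / x) atTop (𝓝 ((W : ℝ) + 0)) :=
        Tendsto.add tendsto_const_nhds
          (Tendsto.div_atTop tendsto_const_nhds tendsto_natCast_atTop_atTop)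
      rw [add_zero] at h4
      refine h4.congr' ?_
      filter_upwards [eventually_ge_atTop 1] with x hx
      have hx1r : (0 : ℝ) < x := by exact_mod_cast hx
      push_cast
      field_simp
    have h5 := (h1.mul h3).mul h2
    have h6 : Tendsto (fun x : ℕ => ((cnt W b q r x : ℝ) - (((Finset.range (W * x + b + 1)).filter
      (fun p => p.Prime ∧ p ≡ W * r + b [MOD (W * q)])).card : ℝ)) * (Real.log x / x)) atTop
        (𝓝 0) := by
      have h7 : Tendsto (fun x : ℕ => ((b : ℝ) + 1) * (Real.log x / x)) atTop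
          (𝓝 (((b : ℝ) + 1) * 0)) := log_div_tendsto.const_mul _
      rw [mul_zero] at h7
      refine squeeze_zero_norm' ?_ h7
      filter_upwards [eventually_ge_atTop 1] with x hx
      have hx1r : (1 : ℝ) ≤ x := by exact_mod_cast hx
      have h8 : 0 ≤ Real.log x / x := div_nonneg (Real.log_nonneg hx1r) (by linarith)
      rw [Real.norm_eq_abs, abs_mul, abs_of_nonneg h8]
      exact mul_le_mul_of_nonneg_right (cnt_coprime hW hr x) h8
    have h7 := h5.add h6
    have h8 : 1 / (Nat.totient (W * q) : ℝ) * (W : ℝ) * 1 + 0 =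
        (W : ℝ) / Nat.totient (W * q) := by ring
    rw [h8] at h7
    refine h7.congr' ?_
    filter_upwards [eventually_ge_atTop 2] with x hx
    have hx1r : (2 : ℝ) ≤ x := by exact_mod_cast hx
    have hyr : (1 : ℝ) < ((W * x + b : ℕ) : ℝ) := by
      have : 1 < W * x + b := by nlinarith
      exact_mod_cast this
    have hly : Real.log ((W * x + b : ℕ) : ℝ) ≠ 0 := (Real.log_pos hyr).ne'
    simp only [Function.comp_apply]
    field_simp
    ring
  · have h7 : Tendsto (fun x : ℕ => (1 : ℝ) * (Real.log x / x)) atTop (𝓝 (1 * 0)) :=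
      log_div_tendsto.const_mul _
    rw [mul_zero] at h7
    refine squeeze_zero_norm' ?_ h7
    filter_upwards [eventually_ge_atTop 1] with x hx
    have hx1r : (1 : ℝ) ≤ x := by exact_mod_cast hx
    have h8 : 0 ≤ Real.log x / x := div_nonneg (Real.log_nonneg hx1r) (by linarith)
    rw [Real.norm_eq_abs, mul_div_assoc, abs_mul, abs_of_nonneg h8, Nat.abs_cast]
    refine mul_le_mul_of_nonneg_right ?_ h8
    exact_mod_cast cnt_noncoprime hW hcop x

/-- uniform asymptotics of the counts, for all classes modulo all small `q` -/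
lemma cnt_unif (W b : ℕ) (hW : 0 < W) (Q C : ℕ) (η : ℝ) (hη : 0 < η) :
    ∃ N0 : ℕ, ∀ N : ℕ, N0 ≤ N → ∀ q ≤ Q, ∀ r < q, ∀ x ≤ C * N,
      |(cnt W b q r x : ℝ) * Real.log N - dens0 W b q r * x| ≤ η * N := by
  classical
  have h1 : ∀ q r : ℕ, ∃ N0 : ℕ, ∀ N : ℕ, N0 ≤ N → r < q → ∀ x ≤ C * N,
      |(cnt W b q r x : ℝ) * Real.log N - dens0 W b q r * x| ≤ η * N := by
    intro q r
    by_cases hr : r < q
    · obtain ⟨N0, hN0⟩ := unif (fun x => (cnt W b q r x : ℝ)) (cnt_mono W b q r)
        (fun x => Nat.cast_nonneg _) (dens0 W b q r) (dens0_nonneg _ _ _ _)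
        (cnt_tendsto hW hr) C η hη
      exact ⟨N0, fun N hN _ => hN0 N hN⟩
    · exact ⟨0, fun N _ h => absurd h hr⟩
  choose F hF using h1
  refine ⟨∑ q ∈ Finset.range (Q + 1), ∑ r ∈ Finset.range (Q + 1), F q r, fun N hN q hq r hr => ?_⟩
  refine hF q r N ?_ hr
  refine le_trans ?_ hN
  calc F q r ≤ ∑ r ∈ Finset.range (Q + 1), F q r :=
        Finset.single_le_sum (f := fun r => F q r) (fun _ _ => Nat.zero_le _)
          (Finset.mem_range.2 (by omega))
    _ ≤ _ := Finset.single_le_sum (f := fun q => ∑ r ∈ Finset.range (Q + 1), F q r)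
          (fun _ _ => Nat.zero_le _) (Finset.mem_range.2 (by omega))

end SupNorm

end

end Pool.Agent.Lib.MP_325d88_nt
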