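import Pool.Agent.Lib.MP_325d88_nt.FinalDeg
import Pool.Agent.Lib.MP_325d88_nt.Families
import Pool.Agent.Lib.MP_325d88_nt.Assembly
import Pool.Agent.Lib.MP_325d88_nt.RelCountDef
import Pool.Agent.Lib.MP_325d88_nt.SupNorm1

/-!
# The final analytic assembly
-/

namespace Pool.Agent.Lib.MP_325d88_nt

open Finset Filter Topology

noncomputable section

namespace Fin8

lemma DegC.mono {A : ℤ} {C C' : ℝ} (h : DegC A C) (hC : C ≤ C') : DegC A C' := by
  intro w hw hA m hm hmp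
  obtain ⟨K0, hK0⟩ := h w hw hA m hm hmp
  refine ⟨K0, fun k hk B hB y hy Z h1 h2 => (hK0 k hk B hB y hy Z h1 h2).trans ?_⟩
  have : 0 ≤ RW w ^ 2 := sq_nonneg _
  gcongr

lemma numer1 {k W φ ℓ n C t1 t2 T u v : ℝ} (hk : 0 < k) (hW : 0 < W) (hφ : 0 < φ) (hℓ : 0 < ℓ)
    (hn : 0 < n) (ht1 : 0 < t1) (ht2 : 0 < t2) (hT : 0 < T) (hu : n ≤ 24 * u)
    (hv : n ≤ 24 * v) (hnk : k / (20000 * T * φ * ℓ) ≤ n) (hC : 921600 * C * T < t1 * t2) :
    40 * n * (C * (k / (1000 * (W * (t1 * t2)))) * (W / φ) ^ 2 / ℓ ^ 2) <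
      1 / 2 * (W / φ) * (u * v) / ℓ := by
  have hP : 0 < k * W * n / (φ ^ 2 * ℓ ^ 2) := by positivity
  have e1 : 40 * n * (C * (k / (1000 * (W * (t1 * t2)))) * (W / φ) ^ 2 / ℓ ^ 2) =
      (k * W * n / (φ ^ 2 * ℓ ^ 2)) * (C / (25 * (t1 * t2))) := by
    field_simp
    ring
  have e2 : (k * W * n / (φ ^ 2 * ℓ ^ 2)) * (1 / (23040000 * T)) =
      1 / 2 * (W / φ) * ((n / 24) * (k / (20000 * T * φ * ℓ) / 24)) / ℓ := by
    field_simp
    ring
  rw [e1]
  have h1 : C / (25 * (t1 * t2)) < 1 / (23040000 * T) := by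
    rw [div_lt_div_iff₀ (by positivity) (by positivity)]
    linarith
  calc _ < (k * W * n / (φ ^ 2 * ℓ ^ 2)) * (1 / (23040000 * T)) :=
        mul_lt_mul_of_pos_left h1 hP
    _ = 1 / 2 * (W / φ) * ((n / 24) * (k / (20000 * T * φ * ℓ) / 24)) / ℓ := e2
    _ ≤ 1 / 2 * (W / φ) * (u * v) / ℓ := by
        have h2 : n / 24 ≤ u := by linarith
        have h3 : k / (20000 * T * φ * ℓ) / 24 ≤ v := by linarith
        have h4 : 0 ≤ k / (20000 * T * φ * ℓ) / 24 := by positivity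
        have h5 : 0 < u := by linarith
        gcongr

lemma numer4 {k W φ ℓ n C t1 u b : ℝ} (hk : 0 < k) (hW : 0 < W) (hφ : 0 < φ) (hℓ : 0 < ℓ)
    (hn : 0 < n) (ht1 : 0 < t1) (hu : n ≤ 24 * u)
    (hb : 5 / 1000 * (k / (φ * ℓ)) ≤ b) (hC : 384 * C < t1) :
    40 * n * (C * (k / (1000 * (W * t1))) * (W / φ) ^ 2 / ℓ ^ 2) <
      1 / 2 * (W / φ) * (u * b) / ℓ := by
  have hP : 0 < k * W * n / (φ ^ 2 * ℓ ^ 2) := by positivity
  have e1 : 40 * n * (C * (k / (1000 * (W * t1))) * (W / φ) ^ 2 / ℓ ^ 2) =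
      (k * W * n / (φ ^ 2 * ℓ ^ 2)) * (C / (25 * t1)) := by
    field_simp
    ring
  have e2 : (k * W * n / (φ ^ 2 * ℓ ^ 2)) * (1 / 9600) =
      1 / 2 * (W / φ) * ((n / 24) * (5 / 1000 * (k / (φ * ℓ)))) / ℓ := by
    field_simp
    ring
  rw [e1]
  have h1 : C / (25 * t1) < 1 / 9600 := by
    rw [div_lt_div_iff₀ (by positivity) (by positivity)]
    linarith
  calc _ < (k * W * n / (φ ^ 2 * ℓ ^ 2)) * (1 / 9600) :=
        mul_lt_mul_of_pos_left h1 hP
    _ = 1 / 2 * (W / φ) * ((n / 24) * (5 / 1000 * (k / (φ * ℓ)))) / ℓ := e2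
    _ ≤ 1 / 2 * (W / φ) * (u * b) / ℓ := by
        have h2 : n / 24 ≤ u := by linarith
        have h4 : 0 ≤ 5 / 1000 * (k / (φ * ℓ)) := by positivity
        have h5 : 0 < u := by linarith
        gcongr

end Fin8

open Fin8 in
/-- the final assembly -/
theorem final (hrel : RelCount) : ¬ (∀ ε : ℝ, 0 < ε → ∃ K : ℕ, ∀ k : ℕ, K ≤ k → ∀ n : ℕ,
      ∃ i ∈ Finset.Icc 1 k,
        (((∏ p ∈ (Finset.range k).filter (fun p => Nat.Prime p),
            p ^ ((n + i).factorization p)) : ℕ) : ℝ) ≤ ε * (k : ℝ)) := by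
  classical
  intro H
  -- the constants
  obtain ⟨C2, hC2, hD2c⟩ := deg_cor 2 (by norm_num)
  obtain ⟨C4, hC4, hD4c⟩ := deg_cor 4 (by norm_num)
  obtain ⟨Cm, hCm, hDmc⟩ := deg_cor (-2) (by norm_num)
  obtain ⟨C, hCdef⟩ : ∃ C : ℝ, C = max C2 (max C4 Cm) := ⟨_, rfl⟩
  have hC2' : DegC 2 C := hD2c.mono (by rw [hCdef]; exact le_max_left _ _)
  have hC4' : DegC 4 C := hD4c.mono (by
    rw [hCdef]; exact le_trans (le_max_left _ _) (le_max_right _ _))
  have hCm' : DegC (-2) C := hDmc.mono (by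
    rw [hCdef]; exact le_trans (le_max_right _ _) (le_max_right _ _))
  have hC1 : 1 ≤ C := by rw [hCdef]; exact le_trans hC2 (le_max_left _ _)
  obtain ⟨i, hi⟩ := pow_unbounded_of_one_lt (10000000 * C) (show (1 : ℝ) < 3 by norm_num)
  obtain ⟨j, hj⟩ := pow_unbounded_of_one_lt (10000000 * C) (show (1 : ℝ) < 5 by norm_num)
  obtain ⟨t1, ht1⟩ : ∃ t1 : ℕ, t1 = 3 ^ i := ⟨_, rfl⟩
  obtain ⟨t2, ht2⟩ : ∃ t2 : ℕ, t2 = 5 ^ j := ⟨_, rfl⟩
  obtain ⟨T, hT⟩ : ∃ T : ℕ, T = max t1 t2 := ⟨_, rfl⟩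
  have ht1r : 10000000 * C < (t1 : ℝ) := by rw [ht1]; push_cast; exact hi
  have ht2r : 10000000 * C < (t2 : ℝ) := by rw [ht2]; push_cast; exact hj
  have ht1pos : (0 : ℝ) < t1 := by linarith
  have ht2pos : (0 : ℝ) < t2 := by linarith
  have hT1 : t1 ≤ T := by rw [hT]; exact le_max_left _ _
  have hT2 : t2 ≤ T := by rw [hT]; exact le_max_right _ _
  have hT1r : (t1 : ℝ) ≤ T := by exact_mod_cast hT1
  have hTpos : (0 : ℝ) < T := by linarith
  have hTge1 : (1 : ℝ) ≤ T := by linarith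
  have htt : 921600 * C * T < (t1 : ℝ) * t2 := by
    rcases le_total t1 t2 with h | h
    · have hTT : (T : ℝ) = t2 := by rw [hT, max_eq_right h]
      rw [hTT]
      have : 921600 * C < (t1 : ℝ) := by linarith
      exact mul_lt_mul_of_pos_right this ht2pos
    · have hTT : (T : ℝ) = t1 := by rw [hT, max_eq_left h]
      rw [hTT, mul_comm (t1 : ℝ) t2]
      have : 921600 * C < (t2 : ℝ) := by linarith
      exact mul_lt_mul_of_pos_right this ht1pos
  obtain ⟨c, hcdef⟩ : ∃ c : ℝ, c = 1 / (1000000 * T) := ⟨_, rfl⟩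
  have hcpos : 0 < c := by rw [hcdef]; positivity
  have hc1 : c ≤ 5 / 1000 := by
    rw [hcdef, div_le_div_iff₀ (by positivity) (by norm_num)]
    linarith
  -- relative counting
  obtain ⟨wa, hwa⟩ := hrel (-1) 2 (by norm_num) (by norm_num) 2220 2225 3700 3705
    (by norm_num) (by norm_num) (by norm_num) (by norm_num) (by norm_num) c hcpos
  obtain ⟨wb, hwb⟩ := hrel 4 (-1) (by norm_num) (by norm_num) 2220 2225 3700 3705
    (by norm_num) (by norm_num) (by norm_num) (by norm_num) (by norm_num) c hcpos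
  obtain ⟨wc, hwc⟩ := hrel 1 2 (by norm_num) (by norm_num) 2220 2225 3700 3705
    (by norm_num) (by norm_num) (by norm_num) (by norm_num) (by norm_num) c hcpos
  obtain ⟨wd, hwd⟩ := hrel 2 1 (by norm_num) (by norm_num) 2220 2225 5200 5300
    (by norm_num) (by norm_num) (by norm_num) (by norm_num) (by norm_num) c hcpos
  obtain ⟨w, hwdef⟩ : ∃ w : ℕ, w = wa + wb + wc + wd + 5 := ⟨_, rfl⟩
  obtain ⟨W, hW⟩ : ∃ W : ℕ, W = ∏ p ∈ PR 1 w, p := ⟨_, rfl⟩
  have hw5 : 5 ≤ w := by omega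
  obtain ⟨ρ, τ, hρ, hτ, hρn, hr1, hr2, hr3, hr4⟩ := exists_residues w hw5 W hW
  have hW0 : 0 < W := by rw [hW]; exact Finset.prod_pos fun p hp => (mem_PR.1 hp).2.2.pos
  have hWr : (0 : ℝ) < W := by exact_mod_cast hW0
  have hφ0 : (0 : ℝ) < Nat.totient W := by exact_mod_cast Nat.totient_pos.2 hW0
  have hφ1 : (1 : ℝ) ≤ Nat.totient W := by exact_mod_cast Nat.totient_pos.2 hW0
  have hRW : RW w = (W : ℝ) / Nat.totient W := by unfold RW; rw [← hW]
  have ha := fun a : Bool => hwa w (by omega) W hW (ρ a) (ρ a) (hρ a) (hρ a) (hr1 a)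
  have hb := fun a : Bool => hwb w (by omega) W hW (ρ a) (ρ (!a)) (hρ a) (hρ (!a)) (hr2 a)
  have hc := fun a : Bool => hwc w (by omega) W hW (ρ a) (ρ (!a)) (hρ a) (hρ (!a)) (hr3 a)
  have hd := fun a : Bool => hwd w (by omega) W hW (ρ a) (τ a) (hρ a) (hτ a) (hr4 a)
  choose Ka hKa using ha
  choose Kb hKb using hb
  choose Kc hKc using hc
  choose Kd hKd using hd
  -- degrees
  obtain ⟨K1, hK1⟩ := D1 (t1 := t1) (t2 := t2) hC2' w hw5 hW ht1 ht2
  obtain ⟨K2, hK2⟩ := D2 (t1 := t1) (t2 := t2) hC4' w hw5 hW ht1 ht2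
  obtain ⟨K3, hK3⟩ := D3 (t1 := t1) (t2 := t2) hCm' w hw5 hW ht1 ht2
  obtain ⟨K4, hK4⟩ := D4 (t1 := t1) hCm' w hw5 hW ht1
  -- families
  obtain ⟨K5, hK5⟩ := families w hw5 W hW ρ τ hρ hτ hρn i j t1 t2 T ht1 ht2 hT1 hT2
  -- the final ε
  obtain ⟨ε, hεdef⟩ : ∃ ε : ℝ, ε = 1 / (100000 * T * Nat.totient W) := ⟨_, rfl⟩
  have hεpos : 0 < ε := by rw [hεdef]; positivity
  have hε100 : ε ≤ 1 / 100 := by
    rw [hεdef, div_le_div_iff₀ (by positivity) (by norm_num)]
    nlinarith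
  obtain ⟨K6, hK6⟩ := short_primes ε hεpos
  obtain ⟨K7, hK7⟩ := H ε hεpos
  -- largeness of k / log k
  have hlim := SupNorm.log_div_tendsto
  have hev : ∀ᶠ k : ℕ in atTop, Real.log k / k < 1 / (20000 * T * Nat.totient W) :=
    hlim.eventually_lt_const (by positivity)
  obtain ⟨K8, hK8⟩ := eventually_atTop.1 hev
  -- choose k
  obtain ⟨k, hkdef⟩ : ∃ k : ℕ, k = Ka true + Ka false + Kb true + Kb false + Kc true + Kc false +
    Kd true + Kd false + K1 + K2 + K3 + K4 + K5 + K6 + K7 + K8 + 10000 := ⟨_, rfl⟩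
  have hKak : ∀ a, Ka a ≤ k := by intro a; cases a <;> omega
  have hKbk : ∀ a, Kb a ≤ k := by intro a; cases a <;> omega
  have hKck : ∀ a, Kc a ≤ k := by intro a; cases a <;> omega
  have hKdk : ∀ a, Kd a ≤ k := by intro a; cases a <;> omega
  have hk10000 : 10000 ≤ k := by omega
  have hkr : (10000 : ℝ) ≤ k := by exact_mod_cast hk10000
  have hkpos : (0 : ℝ) < k := by linarith
  have hℓ : 0 < Real.log k := Real.log_pos (by linarith)
  -- y = k / (φ log k)
  have hy : 20000 * T * 1 ≤ k / (Nat.totient W * Real.log k) := by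
    have h1 := hK8 k (by omega)
    rw [div_lt_div_iff₀ hkpos (by positivity)] at h1
    rw [le_div_iff₀ (by positivity)]
    nlinarith
  obtain ⟨n, hndef⟩ : ∃ n : ℕ, n = ⌊1 / (10000 * (T : ℝ)) * (k / (Nat.totient W * Real.log k))⌋₊ :=
    ⟨_, rfl⟩
  have hn_le : (n : ℝ) ≤ 1 / (10000 * T) * (k / (Nat.totient W * Real.log k)) := by
    rw [hndef]
    exact Nat.floor_le (by positivity)
  have hn_ge : k / (20000 * T * Nat.totient W * Real.log k) ≤ (n : ℝ) := by
    have h1 : 1 / (10000 * (T : ℝ)) * (k / (Nat.totient W * Real.log k)) < n + 1 := by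
      rw [hndef]
      exact Nat.lt_floor_add_one _
    have h2 : k / (20000 * T * Nat.totient W * Real.log k) =
        1 / (20000 * (T : ℝ)) * (k / (Nat.totient W * Real.log k)) := by
      field_simp
    have h3 : 1 / (10000 * (T : ℝ)) * (k / (Nat.totient W * Real.log k)) =
        1 / (20000 * (T : ℝ)) * (k / (Nat.totient W * Real.log k)) +
        1 / (20000 * (T : ℝ)) * (k / (Nat.totient W * Real.log k)) := by
      field_simp
      ring
    have h4 : 1 ≤ 1 / (20000 * (T : ℝ)) * (k / (Nat.totient W * Real.log k)) := by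
      calc (1 : ℝ) = 1 / (20000 * (T : ℝ)) * (20000 * T * 1) := by field_simp
        _ ≤ _ := by gcongr
    rw [h2]
    linarith
  have hnpos : (0 : ℝ) < n := lt_of_lt_of_le (by positivity) hn_ge
  have hn0 : 0 < n := by exact_mod_cast hnpos
  obtain ⟨Wf, S, A, hWn, hSn, hWd, hSd, hWp, hSp, hAp, hAc⟩ := hK5 k (by omega) n hn_le
  -- families as structures
  have hWfam : ∀ i a, Fin8.Fam k W t1 (ρ a) 2220 (Wf i a) := fun i a => ⟨fun p hp => hWp i a p hp⟩
  have hSfam : ∀ j a, Fin8.Fam k W t2 (ρ a) 3700 (S j a) := fun j a => ⟨fun p hp => hSp j a p hp⟩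
  -- constants D, D'
  obtain ⟨D, hD⟩ : ∃ D : ℝ, D = C * (k / (1000 * ((W * (t1 * t2) : ℕ) : ℝ))) * RW w ^ 2 /
    (Real.log k) ^ 2 := ⟨_, rfl⟩
  obtain ⟨D', hD'⟩ : ∃ D' : ℝ, D' = C * (k / (1000 * ((W * t1 : ℕ) : ℝ))) * RW w ^ 2 /
    (Real.log k) ^ 2 := ⟨_, rfl⟩
  -- L
  obtain ⟨L, hLdef⟩ : ∃ L : ℕ, L = ⌊ε * k⌋₊ := ⟨_, rfl⟩
  have hL_le : (L : ℝ) ≤ ε * k := by rw [hLdef]; exact Nat.floor_le (by positivity)
  have hL_lt : ε * k < L + 1 := by rw [hLdef]; exact Nat.lt_floor_add_one _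
  have hL100 : 100 * L ≤ k := by
    have h1 : (100 : ℝ) * L ≤ k := by nlinarith
    exact_mod_cast h1
  have hQ : ((Finset.Icc k (k + L)).filter Nat.Prime).card ≤ n := by
    have h1 := hK6 k (by omega)
    rw [← hLdef] at h1
    have h2 : 2 * ε * (k / Real.log k) ≤ k / (20000 * T * Nat.totient W * Real.log k) := by
      have h3 : k / (20000 * T * Nat.totient W * Real.log k) =
          1 / (20000 * T * Nat.totient W) * (k / Real.log k) := by field_simp
      rw [h3]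
      have h4 : 2 * ε ≤ 1 / (20000 * T * Nat.totient W) := by
        rw [hεdef]
        have h5 : 2 * (1 / (100000 * T * (Nat.totient W : ℝ))) =
            1 / (50000 * T * (Nat.totient W : ℝ)) := by
          field_simp
          norm_num
        rw [h5]
        apply one_div_le_one_div_of_le (by positivity)
        gcongr
        norm_num
      gcongr
    have h3 := h1.trans (h2.trans hn_ge)
    exact_mod_cast h3
  -- sizes
  have hsize : ∀ U : Finset ℕ, n ≤ 24 * U.card →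
      c * (k / (Nat.totient W * Real.log k)) ≤ U.card := by
    intro U hU
    have hUr : (n : ℝ) ≤ 24 * U.card := by exact_mod_cast hU
    have h1 : c * (k / (Nat.totient W * Real.log k)) ≤
        k / (20000 * T * Nat.totient W * Real.log k) / 24 := by
      have h2 : k / (20000 * T * Nat.totient W * Real.log k) / 24 =
          1 / (480000 * (T : ℝ)) * (k / (Nat.totient W * Real.log k)) := by
        field_simp
        norm_num
      rw [h2, hcdef]
      gcongr
      norm_num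
    linarith
  -- the assembly
  obtain ⟨m, hm⟩ := assembly k L n hk10000 hL100 hn0 Wf S A hWn hSn hWd hSd
    (fun i a p hp => ⟨(hWp i a p hp).1, (hWp i a p hp).2.1, (hWp i a p hp).2.2.1⟩)
    (fun j a p hp => ⟨(hSp j a p hp).1, (hSp j a p hp).2.1, (hSp j a p hp).2.2.1⟩)
    (fun a p hp => ⟨(hAp a p hp).1, (hAp a p hp).2.1, (hAp a p hp).2.2.1⟩)
    hQ D D'
    (fun i j a c hc => by
      rw [hD]
      exact hK1 k (by omega) (ρ a) (ρ a) _ _ (hWfam i a) (hSfam j a) c hc)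
    (fun i j a c hc => by
      rw [hD]
      exact hK2 k (by omega) (ρ a) (ρ (!a)) _ _ (hWfam i a) (hSfam j (!a)) c hc)
    (fun i j a c hc => by
      rw [hD]
      exact hK3 k (by omega) (ρ a) (ρ (!a)) _ _ (hWfam i a) (hSfam j (!a)) c hc)
    (fun i a c hc => by
      rw [hD']
      exact hK4 k (by omega) (ρ a) _ _ (hWfam i a)
        (fun p hp => ⟨(hAp a p hp).1, (hAp a p hp).2.1, (hAp a p hp).2.2.1⟩) c hc)
    (fun i j a U hU V hV hUn hVn => by
      have h1 := hKa a k (hKak a) U V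
        (fun u hu => ⟨(hWp i a u (hU hu)).1, (hWp i a u (hU hu)).2.2.2.of_dvd (dvd_mul_right _ _),
          (hWp i a u (hU hu)).2.1, (hWp i a u (hU hu)).2.2.1⟩)
        (fun v hv => ⟨(hSp j a v (hV hv)).1, (hSp j a v (hV hv)).2.2.2.of_dvd (dvd_mul_right _ _),
          (hSp j a v (hV hv)).2.1, (hSp j a v (hV hv)).2.2.1⟩)
        (hsize U hUn) (hsize V hVn)
      have h2 : (U ×ˢ V).filter (fun x => (2 * x.2 - x.1).Prime) =
          (U ×ˢ V).filter (fun x => (-1 * (x.1 : ℤ) + 2 * (x.2 : ℤ)).toNat.Prime) := by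
        refine Finset.filter_congr fun x _ => ?_
        have : (-1 * (x.1 : ℤ) + 2 * (x.2 : ℤ)).toNat = 2 * x.2 - x.1 := by omega
        rw [this]
      rw [h2]
      refine lt_of_lt_of_le ?_ h1
      rw [hD, hRW]
      push_cast
      exact numer1 hkpos hWr hφ0 hℓ hnpos ht1pos ht2pos hTpos (by exact_mod_cast hUn)
        (by exact_mod_cast hVn) hn_ge htt)
    (fun i j a U hU V hV hUn hVn => by
      have h1 := hKb a k (hKbk a) U V
        (fun u hu => ⟨(hWp i a u (hU hu)).1, (hWp i a u (hU hu)).2.2.2.of_dvd (dvd_mul_right _ _),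
          (hWp i a u (hU hu)).2.1, (hWp i a u (hU hu)).2.2.1⟩)
        (fun v hv => ⟨(hSp j (!a) v (hV hv)).1,
          (hSp j (!a) v (hV hv)).2.2.2.of_dvd (dvd_mul_right _ _),
          (hSp j (!a) v (hV hv)).2.1, (hSp j (!a) v (hV hv)).2.2.1⟩)
        (hsize U hUn) (hsize V hVn)
      have h2 : (U ×ˢ V).filter (fun x => (4 * x.1 - x.2).Prime) =
          (U ×ˢ V).filter (fun x => (4 * (x.1 : ℤ) + -1 * (x.2 : ℤ)).toNat.Prime) := by
        refine Finset.filter_congr fun x _ => ?_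
        have : (4 * (x.1 : ℤ) + -1 * (x.2 : ℤ)).toNat = 4 * x.1 - x.2 := by omega
        rw [this]
      rw [h2]
      refine lt_of_lt_of_le ?_ h1
      rw [hD, hRW]
      push_cast
      exact numer1 hkpos hWr hφ0 hℓ hnpos ht1pos ht2pos hTpos (by exact_mod_cast hUn)
        (by exact_mod_cast hVn) hn_ge htt)
    (fun i j a U hU V hV hUn hVn => by
      have h1 := hKc a k (hKck a) U V
        (fun u hu => ⟨(hWp i a u (hU hu)).1, (hWp i a u (hU hu)).2.2.2.of_dvd (dvd_mul_right _ _),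
          (hWp i a u (hU hu)).2.1, (hWp i a u (hU hu)).2.2.1⟩)
        (fun v hv => ⟨(hSp j (!a) v (hV hv)).1,
          (hSp j (!a) v (hV hv)).2.2.2.of_dvd (dvd_mul_right _ _),
          (hSp j (!a) v (hV hv)).2.1, (hSp j (!a) v (hV hv)).2.2.1⟩)
        (hsize U hUn) (hsize V hVn)
      have h2 : (U ×ˢ V).filter (fun x => (x.1 + 2 * x.2).Prime) =
          (U ×ˢ V).filter (fun x => (1 * (x.1 : ℤ) + 2 * (x.2 : ℤ)).toNat.Prime) := by
        refine Finset.filter_congr fun x _ => ?_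
        have : (1 * (x.1 : ℤ) + 2 * (x.2 : ℤ)).toNat = x.1 + 2 * x.2 := by omega
        rw [this]
      rw [h2]
      refine lt_of_lt_of_le ?_ h1
      rw [hD, hRW]
      push_cast
      exact numer1 hkpos hWr hφ0 hℓ hnpos ht1pos ht2pos hTpos (by exact_mod_cast hUn)
        (by exact_mod_cast hVn) hn_ge htt)
    (fun i a U hU B hB hUn hBn => by
      have hBcard : 5 / 1000 * (k / (Nat.totient W * Real.log k)) ≤ (B.card : ℝ) := by
        have h3 : (A a).card = (A a \ B).card + B.card := by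
          rw [Finset.card_sdiff_add_card_eq_card hB]
        have h4 : ((A a).card : ℝ) ≤ 40 * n + B.card := by
          have : (A a).card ≤ 40 * n + B.card := by omega
          exact_mod_cast this
        have h5 : (40 : ℝ) * n ≤ 4 / 1000 * (k / (Nat.totient W * Real.log k)) := by
          calc (40 : ℝ) * n ≤ 40 * (1 / (10000 * T) * (k / (Nat.totient W * Real.log k))) := by
                gcongr
            _ = (4 / 1000) * ((1 / T) * (k / (Nat.totient W * Real.log k))) := by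
                field_simp
                norm_num
            _ ≤ (4 / 1000) * (1 * (k / (Nat.totient W * Real.log k))) := by
                have : 1 / (T : ℝ) ≤ 1 := by
                  rw [div_le_one hTpos]; exact hTge1
                gcongr
            _ = _ := by rw [one_mul]
        have h6 := hAc a
        linarith
      have h1 := hKd a k (hKdk a) U B
        (fun u hu => ⟨(hWp i a u (hU hu)).1, (hWp i a u (hU hu)).2.2.2.of_dvd (dvd_mul_right _ _),
          (hWp i a u (hU hu)).2.1, (hWp i a u (hU hu)).2.2.1⟩)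
        (fun v hv => ⟨(hAp a v (hB hv)).1, (hAp a v (hB hv)).2.2.2,
          (hAp a v (hB hv)).2.1, (hAp a v (hB hv)).2.2.1⟩)
        (hsize U hUn) (by
          refine le_trans ?_ hBcard
          gcongr)
      have h2 : (U ×ˢ B).filter (fun x => (x.2 + 2 * x.1).Prime) =
          (U ×ˢ B).filter (fun x => (2 * (x.1 : ℤ) + 1 * (x.2 : ℤ)).toNat.Prime) := by
        refine Finset.filter_congr fun x _ => ?_
        have : (2 * (x.1 : ℤ) + 1 * (x.2 : ℤ)).toNat = x.2 + 2 * x.1 := by omega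
        rw [this]
      rw [h2]
      refine lt_of_lt_of_le ?_ h1
      rw [hD', hRW]
      push_cast
      exact numer4 hkpos hWr hφ0 hℓ hnpos ht1pos (by exact_mod_cast hUn) hBcard (by linarith))
  -- contradiction
  obtain ⟨i0, hi0, hle⟩ := hK7 k (by omega) m
  have h1 := hm i0 hi0
  have h2 : ((L + 1 : ℕ) : ℝ) ≤ ε * k := le_trans (by exact_mod_cast h1) hle
  push_cast at h2
  linarith

end

end Pool.Agent.Lib.MP_325d88_nt
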