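import Pool.Agent.Lib.MP_325d88_nt.Degree

/-!
# Degrees in the prime hypergraph
-/

namespace Pool.Agent.Lib.MP_325d88_nt

open Finset

noncomputable section

namespace Fin8

/-- `W/φ(W)` for the primorial of `w` -/
def RW (w : ℕ) : ℝ :=
  (((∏ p ∈ PR 1 w, p : ℕ) : ℝ) / Nat.totient (∏ p ∈ PR 1 w, p))

/-- the property of a constant to be a degree bound constant for `A` -/
def DegC (A : ℤ) (C : ℝ) : Prop :=
  ∀ w : ℕ, 4 ≤ w → A.natAbs ≤ w → ∀ m : ℕ, 0 < m → (∀ p, p.Prime → p ∣ m → p ≤ w) →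
    ∃ K0 : ℕ, ∀ k : ℕ, K0 ≤ k → ∀ (B : ℤ), B.natAbs.Prime → ∀ y : ℕ, 1 ≤ y → ∀ Z : Finset ℕ,
    (∀ t ∈ Z, y * k ≤ 10000 * t ∧ 10000 * t ≤ (y + 5) * k ∧ k ≤ 10 * t ∧ t.Prime ∧
      (k : ℤ) ≤ 10 * (A * t + B) ∧ (A * t + B).natAbs.Prime ∧ k ≤ 10 * B.natAbs) →
    (∀ t ∈ Z, ∀ t' ∈ Z, (m : ℤ) ∣ (t : ℤ) - t') →
    (Z.card : ℝ) ≤ C * (k / (1000 * m)) * RW w ^ 2 / (Real.log k) ^ 2

theorem deg_cor (A : ℤ) (hA : A ≠ 0) : ∃ C : ℝ, 1 ≤ C ∧ DegC A C := by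
  classical
  obtain ⟨C, hC1, hC⟩ := deg_bound A hA
  refine ⟨C, hC1, ?_⟩
  intro w hw hAw m hm hmw
  obtain ⟨X0, hX0⟩ := hC w hw hAw m hm hmw
  refine ⟨max X0 (max 10000 ((2000 * m) ^ 2)), ?_⟩
  intro k hk B hB y hy Z hZ hZm
  have hkX : X0 ≤ k := le_trans (le_max_left _ _) hk
  have hk1 : 10000 ≤ k := le_trans (le_trans (le_max_left _ _) (le_max_right _ _)) hk
  have hk2 : (2000 * m) ^ 2 ≤ k := le_trans (le_trans (le_max_right _ _) (le_max_right _ _)) hk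
  have hkr : (10000 : ℝ) ≤ k := by exact_mod_cast hk1
  have hmr : (0 : ℝ) < m := by exact_mod_cast hm
  rcases Z.eq_empty_or_nonempty with rfl | ⟨t0, ht0⟩
  · simp only [Finset.card_empty, Nat.cast_zero]
    have : 0 ≤ RW w ^ 2 := sq_nonneg _
    positivity
  have hkB : k ≤ 10 * B.natAbs := (hZ t0 ht0).2.2.2.2.2.2
  have hsq : 2000 * m ≤ Nat.sqrt k := by
    rw [Nat.le_sqrt']
    exact hk2
  have hsq2 : Nat.sqrt k * Nat.sqrt k ≤ k := Nat.sqrt_le k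
  have hL : m * Nat.sqrt k ≤ 5 * k / 10000 + 3 := by
    have h1 : 2000 * (m * Nat.sqrt k) ≤ k := by
      calc 2000 * (m * Nat.sqrt k) = (2000 * m) * Nat.sqrt k := by ring
        _ ≤ Nat.sqrt k * Nat.sqrt k := Nat.mul_le_mul_right _ hsq
        _ ≤ k := hsq2
    omega
  have h1 := hX0 k hkX (t0 : ℤ) B hB hkB (y * k / 10000 - 1) (5 * k / 10000 + 3) hL
  have hsub : Z ⊆ (Finset.Ioc (y * k / 10000 - 1) (y * k / 10000 - 1 + (5 * k / 10000 + 3))).filter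
      (fun t : ℕ => k ≤ 10 * t ∧ t.Prime ∧ (t : ℤ) ≡ (t0 : ℤ) [ZMOD m] ∧
      (k : ℤ) ≤ 10 * (A * t + B) ∧ (A * t + B).natAbs.Prime) := by
    intro t ht
    obtain ⟨a1, a2, a3, a4, a5, a6, _⟩ := hZ t ht
    rw [Finset.mem_filter, Finset.mem_Ioc]
    have hyk : k ≤ y * k := Nat.le_mul_of_pos_left k hy
    have a2' : 10000 * t ≤ y * k + 5 * k := by rw [← add_mul]; exact a2
    refine ⟨⟨?_, ?_⟩, a3, a4, ?_, a5, a6⟩
    · omega
    · omega
    · exact (Int.modEq_iff_dvd.2 (hZm t ht t0 ht0)).symm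
  have h2 : (Z.card : ℝ) ≤ _ := (Nat.cast_le.2 (Finset.card_le_card hsub)).trans h1
  refine h2.trans ?_
  have h3 : (((5 * k / 10000 + 3 : ℕ)) : ℝ) / m ≤ k / (1000 * m) := by
    have h4 : (((5 * k / 10000 + 3 : ℕ)) : ℝ) ≤ k / 1000 := by
      have h5 : 1000 * (5 * k / 10000 + 3) ≤ k := by omega
      have h6 : (1000 : ℝ) * ((5 * k / 10000 + 3 : ℕ) : ℝ) ≤ k := by exact_mod_cast h5
      rw [le_div_iff₀ (by norm_num)]
      linarith
    calc (((5 * k / 10000 + 3 : ℕ)) : ℝ) / m ≤ (k / 1000) / m := by gcongr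
      _ = k / (1000 * m) := by rw [div_div]
  unfold RW
  gcongr

lemma lcm_step (W a b q d : ℤ) (hW : W ≠ 0) (hcop : IsCoprime a (q * b))
    (h1 : W * b ∣ d) (h2 : W * a ∣ q * d) : W * (a * b) ∣ d := by
  obtain ⟨e, rfl⟩ := h1
  have h3 : W * a ∣ W * (q * b * e) := by
    have : q * (W * b * e) = W * (q * b * e) := by ring
    rw [← this]; exact h2
  have h4 : a ∣ q * b * e := (mul_dvd_mul_iff_left hW).1 h3
  have h5 : a ∣ e := hcop.dvd_of_dvd_mul_left h4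
  obtain ⟨f, rfl⟩ := h5
  exact ⟨f, by ring⟩

lemma cop1 (i j : ℕ) : IsCoprime ((3 : ℤ) ^ i) (2 * 5 ^ j) := by
  apply IsCoprime.pow_left
  apply IsCoprime.mul_right
  · exact ⟨1, -1, by norm_num⟩
  · apply IsCoprime.pow_right
    exact ⟨2, -1, by norm_num⟩

lemma cop2 (i j : ℕ) : IsCoprime ((5 : ℤ) ^ j) (4 * 3 ^ i) := by
  apply IsCoprime.pow_left
  apply IsCoprime.mul_right
  · exact ⟨1, -1, by norm_num⟩
  · apply IsCoprime.pow_right
    exact ⟨-1, 2, by norm_num⟩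

/-- data of two families -/
structure Fam (k W t r : ℕ) (x : ℕ) (F : Finset ℕ) : Prop where
  h : ∀ p ∈ F, p.Prime ∧ x * k ≤ 10000 * p ∧ 10000 * p ≤ (x + 5) * k ∧ p ≡ r [MOD (W * t)]

lemma Fam.dvd {k W t r x : ℕ} {F : Finset ℕ} (hF : Fam k W t r x F) {p p' : ℕ} (hp : p ∈ F)
    (hp' : p' ∈ F) : ((W : ℤ) * t) ∣ (p : ℤ) - p' := by
  have h1 := (hF.h p hp).2.2.2
  have h2 := (hF.h p' hp').2.2.2
  have h3 : p' ≡ p [MOD (W * t)] := h2.trans h1.symm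
  have := Nat.modEq_iff_dvd.1 h3
  push_cast at this
  exact this

variable {W t1 t2 i j : ℕ}

/-- degree bound `2 s = w + c` -/
lemma D1 {C : ℝ} (hC : DegC 2 C) (w : ℕ) (hw : 5 ≤ w) (hW : W = ∏ p ∈ PR 1 w, p)
    (ht1 : t1 = 3 ^ i) (ht2 : t2 = 5 ^ j) : ∃ K0 : ℕ, ∀ k : ℕ, K0 ≤ k → ∀ (ra rb : ℕ)
    (Wf Sf : Finset ℕ), Fam k W t1 ra 2220 Wf → Fam k W t2 rb 3700 Sf → ∀ c : ℕ, c.Prime →
    (((Wf ×ˢ Sf).filter (fun x => 2 * x.2 = x.1 + c)).card : ℝ) ≤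
      C * (k / (1000 * ((W * (t1 * t2) : ℕ) : ℝ))) * RW w ^ 2 / (Real.log k) ^ 2 := by
  classical
  have hW0 : 0 < W := by rw [hW]; exact Finset.prod_pos fun p hp => (mem_PR.1 hp).2.2.pos
  have hm0 : 0 < W * (t1 * t2) := by rw [ht1, ht2]; positivity
  have hmp : ∀ p, p.Prime → p ∣ W * (t1 * t2) → p ≤ w := by
    intro p hp h
    rcases hp.dvd_mul.1 h with h1 | h1
    · rw [hW] at h1
      obtain ⟨q, hq, hpq⟩ := (Prime.dvd_finset_prod_iff hp.prime _).1 h1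
      rw [(Nat.prime_dvd_prime_iff_eq hp (mem_PR.1 hq).2.2).1 hpq]
      exact (mem_PR.1 hq).2.1
    · rcases hp.dvd_mul.1 h1 with h2 | h2
      · rw [ht1] at h2
        have := (Nat.prime_dvd_prime_iff_eq hp Nat.prime_three).1 (hp.dvd_of_dvd_pow h2)
        omega
      · rw [ht2] at h2
        have := (Nat.prime_dvd_prime_iff_eq hp Nat.prime_five).1 (hp.dvd_of_dvd_pow h2)
        omega
  obtain ⟨K0, hK0⟩ := hC w (by omega) (by norm_num; omega) _ hm0 hmp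
  refine ⟨max K0 10000, fun k hk ra rb Wf Sf hWf hSf c hc => ?_⟩
  have hk0 : K0 ≤ k := le_trans (le_max_left _ _) hk
  have hk1 : 10000 ≤ k := le_trans (le_max_right _ _) hk
  set F := (Wf ×ˢ Sf).filter (fun x => 2 * x.2 = x.1 + c) with hF
  have hinj : Set.InjOn Prod.snd (F : Set (ℕ × ℕ)) := by
    intro x hx y hy hxy
    rw [hF, Finset.mem_coe, Finset.mem_filter] at hx hy
    refine Prod.ext ?_ hxy
    have := hx.2
    have := hy.2
    omega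
  have hcard : F.card = (F.image Prod.snd).card := (Finset.card_image_of_injOn hinj).symm
  rw [hcard]
  refine hK0 k hk0 (-(c : ℤ)) (by simpa using hc) 3700 (by norm_num) _ ?_ ?_
  · intro t ht
    rw [Finset.mem_image] at ht
    obtain ⟨x, hx, rfl⟩ := ht
    rw [hF, Finset.mem_filter, Finset.mem_product] at hx
    obtain ⟨⟨hx1, hx2⟩, hx3⟩ := hx
    obtain ⟨a1, a2, a3, a4⟩ := hWf.h _ hx1
    obtain ⟨b1, b2, b3, b4⟩ := hSf.h _ hx2
    have h5 : (2 : ℤ) * (x.2 : ℤ) + -(c : ℤ) = (x.1 : ℤ) := by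
      have : (2 : ℤ) * x.2 = x.1 + c := by exact_mod_cast hx3
      linarith
    refine ⟨b2, b3, by omega, b1, ?_, ?_, ?_⟩
    · rw [h5]
      have : k ≤ 10 * x.1 := by omega
      exact_mod_cast this
    · rw [h5, Int.natAbs_natCast]; exact a1
    · rw [Int.natAbs_neg, Int.natAbs_natCast]
      omega
  · intro t ht t' ht'
    rw [Finset.mem_image] at ht ht'
    obtain ⟨x, hx, rfl⟩ := ht
    obtain ⟨y, hy, rfl⟩ := ht'
    rw [hF, Finset.mem_filter, Finset.mem_product] at hx hy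
    have h1 := hSf.dvd hx.1.2 hy.1.2
    have h2 := hWf.dvd hx.1.1 hy.1.1
    have h3 : (x.1 : ℤ) - y.1 = 2 * ((x.2 : ℤ) - y.2) := by
      have e1 : (2 : ℤ) * x.2 = x.1 + c := by exact_mod_cast hx.2
      have e2 : (2 : ℤ) * y.2 = y.1 + c := by exact_mod_cast hy.2
      linarith
    rw [h3] at h2
    have := lcm_step W t1 t2 2 _ (by exact_mod_cast hW0.ne')
      (by rw [ht1, ht2]; push_cast; exact cop1 i j) h1 h2
    push_cast
    exact this

/-- degree bound `4 w = s + c` -/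
lemma D2 {C : ℝ} (hC : DegC 4 C) (w : ℕ) (hw : 5 ≤ w) (hW : W = ∏ p ∈ PR 1 w, p)
    (ht1 : t1 = 3 ^ i) (ht2 : t2 = 5 ^ j) : ∃ K0 : ℕ, ∀ k : ℕ, K0 ≤ k → ∀ (ra rb : ℕ)
    (Wf Sf : Finset ℕ), Fam k W t1 ra 2220 Wf → Fam k W t2 rb 3700 Sf → ∀ c : ℕ, c.Prime →
    (((Wf ×ˢ Sf).filter (fun x => 4 * x.1 = x.2 + c)).card : ℝ) ≤
      C * (k / (1000 * ((W * (t1 * t2) : ℕ) : ℝ))) * RW w ^ 2 / (Real.log k) ^ 2 := by
  classical
  have hW0 : 0 < W := by rw [hW]; exact Finset.prod_pos fun p hp => (mem_PR.1 hp).2.2.pos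
  have hm0 : 0 < W * (t1 * t2) := by rw [ht1, ht2]; positivity
  have hmp : ∀ p, p.Prime → p ∣ W * (t1 * t2) → p ≤ w := by
    intro p hp h
    rcases hp.dvd_mul.1 h with h1 | h1
    · rw [hW] at h1
      obtain ⟨q, hq, hpq⟩ := (Prime.dvd_finset_prod_iff hp.prime _).1 h1
      rw [(Nat.prime_dvd_prime_iff_eq hp (mem_PR.1 hq).2.2).1 hpq]
      exact (mem_PR.1 hq).2.1
    · rcases hp.dvd_mul.1 h1 with h2 | h2
      · rw [ht1] at h2
        have := (Nat.prime_dvd_prime_iff_eq hp Nat.prime_three).1 (hp.dvd_of_dvd_pow h2)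
        omega
      · rw [ht2] at h2
        have := (Nat.prime_dvd_prime_iff_eq hp Nat.prime_five).1 (hp.dvd_of_dvd_pow h2)
        omega
  obtain ⟨K0, hK0⟩ := hC w (by omega) (by norm_num; omega) _ hm0 hmp
  refine ⟨max K0 10000, fun k hk ra rb Wf Sf hWf hSf c hc => ?_⟩
  have hk0 : K0 ≤ k := le_trans (le_max_left _ _) hk
  have hk1 : 10000 ≤ k := le_trans (le_max_right _ _) hk
  set F := (Wf ×ˢ Sf).filter (fun x => 4 * x.1 = x.2 + c) with hF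
  have hinj : Set.InjOn Prod.fst (F : Set (ℕ × ℕ)) := by
    intro x hx y hy hxy
    rw [hF, Finset.mem_coe, Finset.mem_filter] at hx hy
    refine Prod.ext hxy ?_
    have := hx.2
    have := hy.2
    omega
  have hcard : F.card = (F.image Prod.fst).card := (Finset.card_image_of_injOn hinj).symm
  rw [hcard]
  refine hK0 k hk0 (-(c : ℤ)) (by simpa using hc) 2220 (by norm_num) _ ?_ ?_
  · intro t ht
    rw [Finset.mem_image] at ht
    obtain ⟨x, hx, rfl⟩ := ht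
    rw [hF, Finset.mem_filter, Finset.mem_product] at hx
    obtain ⟨⟨hx1, hx2⟩, hx3⟩ := hx
    obtain ⟨a1, a2, a3, a4⟩ := hWf.h _ hx1
    obtain ⟨b1, b2, b3, b4⟩ := hSf.h _ hx2
    have h5 : (4 : ℤ) * (x.1 : ℤ) + -(c : ℤ) = (x.2 : ℤ) := by
      have : (4 : ℤ) * x.1 = x.2 + c := by exact_mod_cast hx3
      linarith
    refine ⟨a2, a3, by omega, a1, ?_, ?_, ?_⟩
    · rw [h5]
      have : k ≤ 10 * x.2 := by omega
      exact_mod_cast this
    · rw [h5, Int.natAbs_natCast]; exact b1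
    · rw [Int.natAbs_neg, Int.natAbs_natCast]
      omega
  · intro t ht t' ht'
    rw [Finset.mem_image] at ht ht'
    obtain ⟨x, hx, rfl⟩ := ht
    obtain ⟨y, hy, rfl⟩ := ht'
    rw [hF, Finset.mem_filter, Finset.mem_product] at hx hy
    have h1 := hSf.dvd hx.1.2 hy.1.2
    have h2 := hWf.dvd hx.1.1 hy.1.1
    have h3 : (x.2 : ℤ) - y.2 = 4 * ((x.1 : ℤ) - y.1) := by
      have e1 : (4 : ℤ) * x.1 = x.2 + c := by exact_mod_cast hx.2
      have e2 : (4 : ℤ) * y.1 = y.2 + c := by exact_mod_cast hy.2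
      linarith
    rw [h3] at h1
    have := lcm_step W t2 t1 4 _ (by exact_mod_cast hW0.ne')
      (by rw [ht1, ht2]; push_cast; exact cop2 i j) h2 h1
    rw [mul_comm (t2 : ℤ)] at this
    push_cast
    exact this

/-- degree bound `w + 2 s = c` -/
lemma D3 {C : ℝ} (hC : DegC (-2) C) (w : ℕ) (hw : 5 ≤ w) (hW : W = ∏ p ∈ PR 1 w, p)
    (ht1 : t1 = 3 ^ i) (ht2 : t2 = 5 ^ j) : ∃ K0 : ℕ, ∀ k : ℕ, K0 ≤ k → ∀ (ra rb : ℕ)
    (Wf Sf : Finset ℕ), Fam k W t1 ra 2220 Wf → Fam k W t2 rb 3700 Sf → ∀ c : ℕ, c.Prime →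
    (((Wf ×ˢ Sf).filter (fun x => x.1 + 2 * x.2 = c)).card : ℝ) ≤
      C * (k / (1000 * ((W * (t1 * t2) : ℕ) : ℝ))) * RW w ^ 2 / (Real.log k) ^ 2 := by
  classical
  have hW0 : 0 < W := by rw [hW]; exact Finset.prod_pos fun p hp => (mem_PR.1 hp).2.2.pos
  have hm0 : 0 < W * (t1 * t2) := by rw [ht1, ht2]; positivity
  have hmp : ∀ p, p.Prime → p ∣ W * (t1 * t2) → p ≤ w := by
    intro p hp h
    rcases hp.dvd_mul.1 h with h1 | h1
    · rw [hW] at h1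
      obtain ⟨q, hq, hpq⟩ := (Prime.dvd_finset_prod_iff hp.prime _).1 h1
      rw [(Nat.prime_dvd_prime_iff_eq hp (mem_PR.1 hq).2.2).1 hpq]
      exact (mem_PR.1 hq).2.1
    · rcases hp.dvd_mul.1 h1 with h2 | h2
      · rw [ht1] at h2
        have := (Nat.prime_dvd_prime_iff_eq hp Nat.prime_three).1 (hp.dvd_of_dvd_pow h2)
        omega
      · rw [ht2] at h2
        have := (Nat.prime_dvd_prime_iff_eq hp Nat.prime_five).1 (hp.dvd_of_dvd_pow h2)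
        omega
  obtain ⟨K0, hK0⟩ := hC w (by omega) (by norm_num; omega) _ hm0 hmp
  refine ⟨max K0 10000, fun k hk ra rb Wf Sf hWf hSf c hc => ?_⟩
  have hk0 : K0 ≤ k := le_trans (le_max_left _ _) hk
  have hk1 : 10000 ≤ k := le_trans (le_max_right _ _) hk
  set F := (Wf ×ˢ Sf).filter (fun x => x.1 + 2 * x.2 = c) with hF
  have hinj : Set.InjOn Prod.snd (F : Set (ℕ × ℕ)) := by
    intro x hx y hy hxy
    rw [hF, Finset.mem_coe, Finset.mem_filter] at hx hy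
    refine Prod.ext ?_ hxy
    have := hx.2
    have := hy.2
    omega
  have hcard : F.card = (F.image Prod.snd).card := (Finset.card_image_of_injOn hinj).symm
  rw [hcard]
  refine hK0 k hk0 (c : ℤ) (by simpa using hc) 3700 (by norm_num) _ ?_ ?_
  · intro t ht
    rw [Finset.mem_image] at ht
    obtain ⟨x, hx, rfl⟩ := ht
    rw [hF, Finset.mem_filter, Finset.mem_product] at hx
    obtain ⟨⟨hx1, hx2⟩, hx3⟩ := hx
    obtain ⟨a1, a2, a3, a4⟩ := hWf.h _ hx1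
    obtain ⟨b1, b2, b3, b4⟩ := hSf.h _ hx2
    have h5 : (-2 : ℤ) * (x.2 : ℤ) + (c : ℤ) = (x.1 : ℤ) := by
      have : (x.1 : ℤ) + 2 * x.2 = c := by exact_mod_cast hx3
      linarith
    refine ⟨b2, b3, by omega, b1, ?_, ?_, ?_⟩
    · rw [h5]
      have : k ≤ 10 * x.1 := by omega
      exact_mod_cast this
    · rw [h5, Int.natAbs_natCast]; exact a1
    · rw [Int.natAbs_natCast]
      omega
  · intro t ht t' ht'
    rw [Finset.mem_image] at ht ht'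
    obtain ⟨x, hx, rfl⟩ := ht
    obtain ⟨y, hy, rfl⟩ := ht'
    rw [hF, Finset.mem_filter, Finset.mem_product] at hx hy
    have h1 := hSf.dvd hx.1.2 hy.1.2
    have h2 := hWf.dvd hy.1.1 hx.1.1
    have h3 : (y.1 : ℤ) - x.1 = 2 * ((x.2 : ℤ) - y.2) := by
      have e1 : (x.1 : ℤ) + 2 * x.2 = c := by exact_mod_cast hx.2
      have e2 : (y.1 : ℤ) + 2 * y.2 = c := by exact_mod_cast hy.2
      linarith
    rw [h3] at h2
    have := lcm_step W t1 t2 2 _ (by exact_mod_cast hW0.ne')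
      (by rw [ht1, ht2]; push_cast; exact cop1 i j) h1 h2
    push_cast
    exact this

/-- degree bound `x + 2 w = c` -/
lemma D4 {C : ℝ} (hC : DegC (-2) C) (w : ℕ) (hw : 5 ≤ w) (hW : W = ∏ p ∈ PR 1 w, p)
    (ht1 : t1 = 3 ^ i) : ∃ K0 : ℕ, ∀ k : ℕ, K0 ≤ k → ∀ (ra : ℕ)
    (Wf Af : Finset ℕ), Fam k W t1 ra 2220 Wf →
    (∀ p ∈ Af, p.Prime ∧ 5200 * k ≤ 10000 * p ∧ 10000 * p ≤ 5300 * k) → ∀ c : ℕ, c.Prime →
    (((Wf ×ˢ Af).filter (fun x => x.2 + 2 * x.1 = c)).card : ℝ) ≤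
      C * (k / (1000 * ((W * t1 : ℕ) : ℝ))) * RW w ^ 2 / (Real.log k) ^ 2 := by
  classical
  have hW0 : 0 < W := by rw [hW]; exact Finset.prod_pos fun p hp => (mem_PR.1 hp).2.2.pos
  have hm0 : 0 < W * t1 := by rw [ht1]; positivity
  have hmp : ∀ p, p.Prime → p ∣ W * t1 → p ≤ w := by
    intro p hp h
    rcases hp.dvd_mul.1 h with h1 | h1
    · rw [hW] at h1
      obtain ⟨q, hq, hpq⟩ := (Prime.dvd_finset_prod_iff hp.prime _).1 h1
      rw [(Nat.prime_dvd_prime_iff_eq hp (mem_PR.1 hq).2.2).1 hpq]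
      exact (mem_PR.1 hq).2.1
    · rw [ht1] at h1
      have := (Nat.prime_dvd_prime_iff_eq hp Nat.prime_three).1 (hp.dvd_of_dvd_pow h1)
      omega
  obtain ⟨K0, hK0⟩ := hC w (by omega) (by norm_num; omega) _ hm0 hmp
  refine ⟨max K0 10000, fun k hk ra Wf Af hWf hAf c hc => ?_⟩
  have hk0 : K0 ≤ k := le_trans (le_max_left _ _) hk
  have hk1 : 10000 ≤ k := le_trans (le_max_right _ _) hk
  set F := (Wf ×ˢ Af).filter (fun x => x.2 + 2 * x.1 = c) with hF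
  have hinj : Set.InjOn Prod.fst (F : Set (ℕ × ℕ)) := by
    intro x hx y hy hxy
    rw [hF, Finset.mem_coe, Finset.mem_filter] at hx hy
    refine Prod.ext hxy ?_
    have := hx.2
    have := hy.2
    omega
  have hcard : F.card = (F.image Prod.fst).card := (Finset.card_image_of_injOn hinj).symm
  rw [hcard]
  refine hK0 k hk0 (c : ℤ) (by simpa using hc) 2220 (by norm_num) _ ?_ ?_
  · intro t ht
    rw [Finset.mem_image] at ht
    obtain ⟨x, hx, rfl⟩ := ht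
    rw [hF, Finset.mem_filter, Finset.mem_product] at hx
    obtain ⟨⟨hx1, hx2⟩, hx3⟩ := hx
    obtain ⟨a1, a2, a3, a4⟩ := hWf.h _ hx1
    obtain ⟨b1, b2, b3⟩ := hAf _ hx2
    have h5 : (-2 : ℤ) * (x.1 : ℤ) + (c : ℤ) = (x.2 : ℤ) := by
      have : (x.2 : ℤ) + 2 * x.1 = c := by exact_mod_cast hx3
      linarith
    refine ⟨a2, a3, by omega, a1, ?_, ?_, ?_⟩
    · rw [h5]
      have : k ≤ 10 * x.2 := by omega
      exact_mod_cast this
    · rw [h5, Int.natAbs_natCast]; exact b1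
    · rw [Int.natAbs_natCast]
      omega
  · intro t ht t' ht'
    rw [Finset.mem_image] at ht ht'
    obtain ⟨x, hx, rfl⟩ := ht
    obtain ⟨y, hy, rfl⟩ := ht'
    rw [hF, Finset.mem_filter, Finset.mem_product] at hx hy
    have h2 := hWf.dvd hx.1.1 hy.1.1
    push_cast
    exact h2

end Fin8

end

end Pool.Agent.Lib.MP_325d88_nt
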