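import Mathlib
import Pool.Agent.Lib.MP_325d88_nt.Rough1

/-!
# Local densities of systems of affine forms
-/

namespace Pool.Agent.Lib.MP_325d88_nt

open Finset

noncomputable section

theorem fiber_card {G H : Type*} [AddCommGroup G] [Fintype G] [DecidableEq G] [AddCommGroup H]
    [Fintype H] [DecidableEq H] (f : G →+ H) (hf : Function.Surjective f) (h : H) :
    (Finset.univ.filter (fun g => f g = h)).card * Fintype.card H = Fintype.card G := by
  have h1 : ∀ h' : H, (Finset.univ.filter (fun g => f g = h')).card =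
      (Finset.univ.filter (fun g => f g = h)).card := by
    intro h'
    obtain ⟨g0, hg0⟩ := hf (h - h')
    apply Finset.card_bij' (fun g _ => g + g0) (fun g _ => g - g0)
    · intro g hg
      rw [Finset.mem_filter] at hg ⊢
      refine ⟨Finset.mem_univ _, ?_⟩
      rw [map_add, hg.2, hg0]; abel
    · intro g hg
      rw [Finset.mem_filter] at hg ⊢
      refine ⟨Finset.mem_univ _, ?_⟩
      rw [map_sub, hg.2, hg0]; abel
    · intro g _; abel
    · intro g _; abel
  have h2 : Fintype.card G = ∑ h' : H, (Finset.univ.filter (fun g => f g = h')).card := by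
    rw [← Finset.card_univ]
    exact Finset.card_eq_sum_card_fiberwise (fun g _ => Finset.mem_coe.2 (Finset.mem_univ _))
  rw [h2, Finset.sum_congr rfl (fun h' _ => h1 h'), Finset.sum_const, smul_eq_mul, mul_comm,
    Finset.card_univ]

variable {ι : Type} [Fintype ι] [DecidableEq ι]

/-- linear form modulo `p` -/
def lz (p : ℕ) (C : ι → ZMod p) : (ι → ZMod p) →+ ZMod p where
  toFun := fun u => ∑ i, C i * u i
  map_zero' := by simp
  map_add' := by
    intro u v
    simp only [Pi.add_apply, mul_add]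
    rw [Finset.sum_add_distrib]

theorem lz_single (p : ℕ) (C : ι → ZMod p) (i : ι) (a : ZMod p) :
    lz p C (Pi.single i a) = C i * a := by
  unfold lz
  simp only [AddMonoidHom.coe_mk, ZeroHom.coe_mk]
  rw [Finset.sum_eq_single i]
  · simp
  · intro j _ hj
    rw [Pi.single_eq_of_ne hj, mul_zero]
  · intro h; exact absurd (Finset.mem_univ i) h

theorem lz_one (p : ℕ) [Fact p.Prime] (C : ι → ZMod p) (i : ι) (hi : C i ≠ 0) (h : ZMod p) :
    (Finset.univ.filter (fun u => lz p C u = h)).card * p = p ^ Fintype.card ι := by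
  have hs : Function.Surjective (lz p C) := by
    intro x
    refine ⟨Pi.single i (x / C i), ?_⟩
    rw [lz_single]
    field_simp
  have h1 := fiber_card (lz p C) hs h
  rw [ZMod.card, Fintype.card_fun, ZMod.card] at h1
  exact h1

theorem lz_two (p : ℕ) [Fact p.Prime] (C C' : ι → ZMod p) (i j : ι) (hi : C i ≠ 0)
    (hi' : C' i = 0) (hj : C' j ≠ 0) (h h' : ZMod p) :
    (Finset.univ.filter (fun u => lz p C u = h ∧ lz p C' u = h')).card * p ^ 2 =
      p ^ Fintype.card ι := by
  have hs : Function.Surjective ((lz p C).prod (lz p C')) := by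
    rintro ⟨x, y⟩
    refine ⟨Pi.single j (y / C' j) + Pi.single i ((x - C j * (y / C' j)) / C i), ?_⟩
    rw [map_add, AddMonoidHom.prod_apply, AddMonoidHom.prod_apply, lz_single, lz_single,
      lz_single, lz_single, hi', zero_mul, Prod.mk_add_mk, add_zero]
    congr 1
    · field_simp
      ring
    · field_simp
  have h1 := fiber_card ((lz p C).prod (lz p C')) hs (h, h')
  rw [Fintype.card_prod, ZMod.card, Fintype.card_fun, ZMod.card, ← pow_two] at h1
  rw [← h1]
  congr 2
  ext u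
  simp only [Finset.mem_filter, Finset.mem_univ, true_and, AddMonoidHom.prod_apply, Prod.mk.injEq]

theorem cube_sum_zmod (p : ℕ) [NeZero p] (F : (ι → ZMod p) → ℝ) :
    ∑ v ∈ cube ι p, F (fun i => (v i : ZMod p)) = ∑ u : ι → ZMod p, F u := by
  apply Finset.sum_nbij' (fun v i => (v i : ZMod p)) (fun u i => ((u i).val : ℤ))
  · intro v _; exact Finset.mem_univ _
  · intro u _
    rw [mem_cube]
    intro i
    refine ⟨by positivity, ?_⟩
    exact_mod_cast ZMod.val_lt (u i)
  · intro v hv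
    rw [mem_cube] at hv
    funext i
    have h1 := hv i
    have h2 : (v i) = ((v i).toNat : ℤ) := by omega
    have h3 : (v i).toNat < p := by omega
    have h4 : ((v i : ℤ) : ZMod p) = (((v i).toNat : ℕ) : ZMod p) := by
      rw [← Int.cast_natCast (R := ZMod p), ← h2]
    simp only [h4, ZMod.val_natCast, Nat.mod_eq_of_lt h3]
    exact h2.symm
  · intro u _
    funext i
    simp
  · intro v _
    rfl

/-- affine form -/
def aff (C : ι → ℤ) (d : ℤ) (v : ι → ℤ) : ℤ := ∑ i, C i * v i + d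

theorem aff_zmod (p : ℕ) (C : ι → ℤ) (d : ℤ) (v : ι → ℤ) :
    ((p : ℤ) ∣ aff C d v) ↔ lz p (fun i => (C i : ZMod p)) (fun i => (v i : ZMod p)) = -(d : ZMod p) := by
  rw [← ZMod.intCast_zmod_eq_zero_iff_dvd]
  unfold aff lz
  push_cast
  simp only [AddMonoidHom.coe_mk, ZeroHom.coe_mk]
  rw [eq_neg_iff_add_eq_zero]

theorem one_form (p : ℕ) (hp : p.Prime) (C : ι → ℤ) (d : ℤ) (i : ι) (hi : ¬ (p : ℤ) ∣ C i) :
    ∑ v ∈ cube ι p, dv p (aff C d v) = (p : ℝ) ^ Fintype.card ι * (1 / p) := by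
  have : Fact p.Prime := ⟨hp⟩
  have : NeZero p := ⟨hp.ne_zero⟩
  obtain ⟨G, hG⟩ : ∃ G : (ι → ZMod p) → ℝ, G = fun u : ι → ZMod p =>
    if lz p (fun i => (C i : ZMod p)) u = -(d : ZMod p) then (1 : ℝ) else 0 := ⟨_, rfl⟩
  have h1 : ∀ v : ι → ℤ, dv p (aff C d v) = G (fun i => (v i : ZMod p)) := by
    intro v
    rw [hG]
    unfold dv
    simp only [aff_zmod]
  rw [Finset.sum_congr rfl (fun v _ => h1 v), cube_sum_zmod p G, hG]
  rw [← Finset.sum_filter, Finset.sum_const, nsmul_eq_mul, mul_one]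
  have hi' : (C i : ZMod p) ≠ 0 := by
    intro h
    exact hi ((ZMod.intCast_zmod_eq_zero_iff_dvd _ _).1 h)
  have h2 := lz_one p (fun i => (C i : ZMod p)) i hi' (-(d : ZMod p))
  have hp0 : (p : ℝ) ≠ 0 := by exact_mod_cast hp.ne_zero
  rw [mul_one_div, eq_div_iff hp0]
  exact_mod_cast h2

theorem two_form (p : ℕ) (hp : p.Prime) (C C' : ι → ℤ) (d d' : ℤ) (i j : ι)
    (hi : ¬ (p : ℤ) ∣ C i) (hi' : C' i = 0) (hj : ¬ (p : ℤ) ∣ C' j) :
    ∑ v ∈ cube ι p, dv p (aff C d v) * dv p (aff C' d' v) =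
      (p : ℝ) ^ Fintype.card ι * (1 / (p : ℝ) ^ 2) := by
  have : Fact p.Prime := ⟨hp⟩
  have : NeZero p := ⟨hp.ne_zero⟩
  obtain ⟨G, hG⟩ : ∃ G : (ι → ZMod p) → ℝ, G = fun u : ι → ZMod p =>
    if lz p (fun i => (C i : ZMod p)) u = -(d : ZMod p) ∧
        lz p (fun i => (C' i : ZMod p)) u = -(d' : ZMod p) then (1 : ℝ) else 0 := ⟨_, rfl⟩
  have h1 : ∀ v : ι → ℤ, dv p (aff C d v) * dv p (aff C' d' v) = G (fun i => (v i : ZMod p)) := by
    intro v
    rw [hG]
    unfold dv
    simp only [aff_zmod]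
    split_ifs with h2 h3 h4 h4 h4 <;> simp_all
  rw [Finset.sum_congr rfl (fun v _ => h1 v), cube_sum_zmod p G, hG]
  rw [← Finset.sum_filter, Finset.sum_const, nsmul_eq_mul, mul_one]
  have e1 : (C i : ZMod p) ≠ 0 := by
    intro h
    exact hi ((ZMod.intCast_zmod_eq_zero_iff_dvd _ _).1 h)
  have e2 : (C' j : ZMod p) ≠ 0 := by
    intro h
    exact hj ((ZMod.intCast_zmod_eq_zero_iff_dvd _ _).1 h)
  have e3 : (C' i : ZMod p) = 0 := by rw [hi']; simp
  have h2 := lz_two p (fun i => (C i : ZMod p)) (fun i => (C' i : ZMod p)) i j e1 e3 e2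
    (-(d : ZMod p)) (-(d' : ZMod p))
  have hp0 : (p : ℝ) ≠ 0 := by exact_mod_cast hp.ne_zero
  rw [mul_one_div, eq_div_iff (by positivity)]
  exact_mod_cast h2

/-- Bonferroni -/
theorem bonf {E : Type*} [DecidableEq E] (S : Finset E) (x : E → ℝ) (h0 : ∀ e, 0 ≤ x e)
    (h1 : ∀ e, x e ≤ 1) :
    1 - ∑ e ∈ S, x e ≤ ∏ e ∈ S, (1 - x e) ∧
    ∏ e ∈ S, (1 - x e) ≤ 1 - ∑ e ∈ S, x e + ∑ e ∈ S, ∑ e' ∈ S, (if e = e' then 0 else x e * x e') := by
  induction S using Finset.induction_on with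
  | empty => simp
  | insert a S ha ih =>
    obtain ⟨ih1, ih2⟩ := ih
    rw [Finset.prod_insert ha, Finset.sum_insert ha, Finset.sum_insert ha]
    have hP0 : 0 ≤ ∏ e ∈ S, (1 - x e) := Finset.prod_nonneg (fun e _ => by linarith [h1 e])
    have hP1 : ∏ e ∈ S, (1 - x e) ≤ 1 := by
      apply Finset.prod_le_one (fun e _ => by linarith [h1 e])
      intro e _; linarith [h0 e]
    have hxa := h0 a
    constructor
    · nlinarith
    · have e1 : ∑ e' ∈ insert a S, (if a = e' then 0 else x a * x e') = x a * ∑ e ∈ S, x e := by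
        rw [Finset.sum_insert ha, if_pos rfl, zero_add, Finset.mul_sum]
        apply Finset.sum_congr rfl
        intro e he
        rw [if_neg]
        intro h; rw [h] at ha; exact ha he
      have e2 : ∑ e ∈ S, ∑ e' ∈ insert a S, (if e = e' then 0 else x e * x e') =
          x a * ∑ e ∈ S, x e + ∑ e ∈ S, ∑ e' ∈ S, (if e = e' then 0 else x e * x e') := by
        rw [Finset.mul_sum, ← Finset.sum_add_distrib]
        apply Finset.sum_congr rfl
        intro e he
        rw [Finset.sum_insert ha, if_neg, mul_comm (x e) (x a)]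
        intro h; rw [← h] at ha; exact ha he
      rw [e1, e2]
      have hs0 : 0 ≤ ∑ e ∈ S, x e := Finset.sum_nonneg (fun e _ => h0 e)
      have h3 : 0 ≤ x a * ∑ e ∈ S, x e := mul_nonneg hxa hs0
      nlinarith

end

end Pool.Agent.Lib.MP_325d88_nt
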