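import Mathlib
import Pool.Agent.Lib.MP_325d88_nt.Lin1

/-!
# Sieving systems of affine forms in boxes
-/

namespace Pool.Agent.Lib.MP_325d88_nt

open Finset

noncomputable section

theorem tail_sq (w z : ℕ) (hw : 1 ≤ w) : ∑ n ∈ Finset.Ioc w z, 1 / (n : ℝ) ^ 2 ≤ 1 / (w : ℝ) := by
  have hwr : (0 : ℝ) < w := by exact_mod_cast hw
  by_cases hwz : w ≤ z
  · have h : ∀ z : ℕ, w ≤ z → ∑ n ∈ Finset.Ioc w z, 1 / (n : ℝ) ^ 2 ≤ 1 / (w : ℝ) - 1 / (z : ℝ) := by
      intro z hz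
      induction z, hz using Nat.le_induction with
      | base => simp
      | succ n hn ih =>
        rw [← Finset.insert_Ioc_right_eq_Ioc_add_one (by omega), Finset.sum_insert (by simp)]
        have hn0 : (0 : ℝ) < n := by
          have : 0 < n := by omega
          exact_mod_cast this
        have h1 : 1 / ((n + 1 : ℕ) : ℝ) ^ 2 ≤ 1 / (n : ℝ) - 1 / ((n + 1 : ℕ) : ℝ) := by
          push_cast
          have : 1 / (n : ℝ) - 1 / (n + 1) = 1 / (n * (n + 1)) := by field_simp; ring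
          rw [this]
          apply one_div_le_one_div_of_le (by positivity)
          nlinarith
        linarith
    have h1 := h z hwz
    have h2 : (0 : ℝ) ≤ 1 / z := by positivity
    linarith
  · rw [Finset.Ioc_eq_empty (by omega), Finset.sum_empty]
    positivity

variable {ι : Type} [Fintype ι] [DecidableEq ι] {E : Type} [DecidableEq E]

/-- the local condition: some form vanishes modulo `p` -/
def FF (S : Finset E) (C : E → ι → ℤ) (d : E → ℤ) (p : ℕ) (v : ι → ℤ) : ℝ :=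
  1 - ∏ e ∈ S, (1 - dv p (aff (C e) (d e) v))

theorem FF_01 (S : Finset E) (C : E → ι → ℤ) (d : E → ℤ) (p : ℕ) (v : ι → ℤ) :
    FF S C d p v = 0 ∨ FF S C d p v = 1 := by
  unfold FF
  have h : ∏ e ∈ S, (1 - dv p (aff (C e) (d e) v)) = 0 ∨
      ∏ e ∈ S, (1 - dv p (aff (C e) (d e) v)) = 1 := by
    induction S using Finset.induction_on with
    | empty => right; simp
    | insert a S ha ih =>
      rw [Finset.prod_insert ha]
      rcases dv_01 p (aff (C a) (d a) v) with h | h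
      · rw [h, sub_zero, one_mul]; exact ih
      · rw [h, sub_self, zero_mul]; left; rfl
  rcases h with h | h
  · right; rw [h]; ring
  · left; rw [h]; ring

theorem dv_aff_per (p : ℕ) (C : ι → ℤ) (d : ℤ) (v v' : ι → ℤ)
    (h : ∀ i, v i ≡ v' i [ZMOD (p : ℤ)]) : dv p (aff C d v) = dv p (aff C d v') := by
  unfold dv
  have h1 : ((p : ℤ) ∣ aff C d v) ↔ ((p : ℤ) ∣ aff C d v') := by
    rw [aff_zmod, aff_zmod]
    have h2 : (fun i => (v i : ZMod p)) = (fun i => (v' i : ZMod p)) := by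
      funext i
      exact (ZMod.intCast_eq_intCast_iff _ _ _).2 (h i)
    rw [h2]
  simp only [h1]

theorem FF_per (S : Finset E) (C : E → ι → ℤ) (d : E → ℤ) (p : ℕ) : Per p (FF S C d p) := by
  intro v v' h
  unfold FF
  congr 1
  apply Finset.prod_congr rfl
  intro e _
  rw [dv_aff_per p (C e) (d e) v v' h]

/-- nondegeneracy of the system modulo `p` -/
def ND (S : Finset E) (C : E → ι → ℤ) (p : ℕ) : Prop :=
  (∀ e ∈ S, ∃ i, ¬ (p : ℤ) ∣ C e i) ∧
  (∀ e ∈ S, ∀ e' ∈ S, e ≠ e' → ∃ i j, ¬ (p : ℤ) ∣ C e i ∧ C e' i = 0 ∧ ¬ (p : ℤ) ∣ C e' j)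

theorem density_bounds (S : Finset E) (C : E → ι → ℤ) (d : E → ℤ) (p : ℕ) (hp : p.Prime)
    (hnd : ND S C p) :
    ∑ v ∈ cube ι p, FF S C d p v ≤ (S.card : ℝ) / p * (p : ℝ) ^ Fintype.card ι ∧
    ((S.card : ℝ) / p - (S.card : ℝ) ^ 2 / (p : ℝ) ^ 2) * (p : ℝ) ^ Fintype.card ι ≤
      ∑ v ∈ cube ι p, FF S C d p v := by
  have h1 : ∑ v ∈ cube ι p, ∑ e ∈ S, dv p (aff (C e) (d e) v) =
      (S.card : ℝ) / p * (p : ℝ) ^ Fintype.card ι := by
    rw [Finset.sum_comm]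
    have h2 : ∀ e ∈ S, ∑ v ∈ cube ι p, dv p (aff (C e) (d e) v) =
        (p : ℝ) ^ Fintype.card ι * (1 / p) := by
      intro e he
      obtain ⟨i, hi⟩ := hnd.1 e he
      exact one_form p hp (C e) (d e) i hi
    rw [Finset.sum_congr rfl h2, Finset.sum_const, nsmul_eq_mul]
    ring
  have h2 : ∑ v ∈ cube ι p, ∑ e ∈ S, ∑ e' ∈ S, (if e = e' then 0 else
      dv p (aff (C e) (d e) v) * dv p (aff (C e') (d e') v)) ≤
      (S.card : ℝ) ^ 2 / (p : ℝ) ^ 2 * (p : ℝ) ^ Fintype.card ι := by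
    rw [Finset.sum_comm]
    have h3 : ∀ e ∈ S, ∑ v ∈ cube ι p, ∑ e' ∈ S, (if e = e' then 0 else
        dv p (aff (C e) (d e) v) * dv p (aff (C e') (d e') v)) ≤
        (S.card : ℝ) * ((p : ℝ) ^ Fintype.card ι * (1 / (p : ℝ) ^ 2)) := by
      intro e he
      rw [Finset.sum_comm]
      have h4 : ∀ e' ∈ S, ∑ v ∈ cube ι p, (if e = e' then 0 else
          dv p (aff (C e) (d e) v) * dv p (aff (C e') (d e') v)) ≤
          (p : ℝ) ^ Fintype.card ι * (1 / (p : ℝ) ^ 2) := by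
        intro e' he'
        by_cases hee : e = e'
        · simp only [if_pos hee, Finset.sum_const_zero]
          positivity
        · simp only [if_neg hee]
          obtain ⟨i, j, hi, hi', hj⟩ := hnd.2 e he e' he' hee
          exact (two_form p hp (C e) (C e') (d e) (d e') i j hi hi' hj).le
      calc _ ≤ ∑ e' ∈ S, (p : ℝ) ^ Fintype.card ι * (1 / (p : ℝ) ^ 2) := Finset.sum_le_sum h4
        _ = _ := by rw [Finset.sum_const, nsmul_eq_mul]
    calc _ ≤ ∑ e ∈ S, (S.card : ℝ) * ((p : ℝ) ^ Fintype.card ι * (1 / (p : ℝ) ^ 2)) :=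
          Finset.sum_le_sum h3
      _ = _ := by rw [Finset.sum_const, nsmul_eq_mul]; ring
  have h3 : ∀ v : ι → ℤ, FF S C d p v ≤ ∑ e ∈ S, dv p (aff (C e) (d e) v) := by
    intro v
    have := (bonf S (fun e => dv p (aff (C e) (d e) v)) (fun e => dv_nonneg _ _)
      (fun e => dv_le_one _ _)).1
    unfold FF
    linarith
  have h4 : ∀ v : ι → ℤ, ∑ e ∈ S, dv p (aff (C e) (d e) v) - ∑ e ∈ S, ∑ e' ∈ S, (if e = e' then 0 else
      dv p (aff (C e) (d e) v) * dv p (aff (C e') (d e') v)) ≤ FF S C d p v := by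
    intro v
    have := (bonf S (fun e => dv p (aff (C e) (d e) v)) (fun e => dv_nonneg _ _)
      (fun e => dv_le_one _ _)).2
    unfold FF
    linarith
  constructor
  · rw [← h1]
    exact Finset.sum_le_sum (fun v _ => h3 v)
  · have h5 : ∑ v ∈ cube ι p, (∑ e ∈ S, dv p (aff (C e) (d e) v) -
        ∑ e ∈ S, ∑ e' ∈ S, (if e = e' then 0 else
        dv p (aff (C e) (d e) v) * dv p (aff (C e') (d e') v))) ≤ ∑ v ∈ cube ι p, FF S C d p v :=
      Finset.sum_le_sum (fun v _ => h4 v)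
    rw [Finset.sum_sub_distrib, h1] at h5
    have h6 : ((S.card : ℝ) / p - (S.card : ℝ) ^ 2 / (p : ℝ) ^ 2) * (p : ℝ) ^ Fintype.card ι =
        (S.card : ℝ) / p * (p : ℝ) ^ Fintype.card ι -
        (S.card : ℝ) ^ 2 / (p : ℝ) ^ 2 * (p : ℝ) ^ Fintype.card ι := by ring
    rw [h6]
    linarith

/-- powers of `1 - x` -/
theorem pow_bonf (k : ℕ) (x : ℝ) (h0 : 0 ≤ x) (h1 : x ≤ 1) :
    1 - k * x ≤ (1 - x) ^ k ∧ (1 - x) ^ k ≤ 1 - k * x + (k : ℝ) ^ 2 * x ^ 2 := by
  have h := bonf (Finset.range k) (fun _ => x) (fun _ => h0) (fun _ => h1)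
  rw [Finset.prod_const, Finset.card_range, Finset.sum_const, Finset.card_range, nsmul_eq_mul] at h
  refine ⟨h.1, h.2.trans ?_⟩
  have h2 : ∑ e ∈ Finset.range k, ∑ e' ∈ Finset.range k, (if e = e' then 0 else x * x) ≤
      ∑ e ∈ Finset.range k, ∑ e' ∈ Finset.range k, x * x := by
    apply Finset.sum_le_sum
    intro e _
    apply Finset.sum_le_sum
    intro e' _
    split_ifs
    · exact mul_nonneg h0 h0
    · exact le_rfl
  simp only [Finset.sum_const, Finset.card_range, nsmul_eq_mul] at h2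
  have h3 : (k : ℝ) * (k * (x * x)) = (k : ℝ) ^ 2 * x ^ 2 := by ring
  rw [h3] at h2
  linarith

/-- comparison of products -/
theorem ratio_bound (w z k : ℕ) (hw : 1 ≤ w) (hk : 2 * k ≤ w) (hk2 : 4 * k ^ 2 ≤ w) (g : ℕ → ℝ)
    (hg1 : ∀ p ∈ PR w z, (k : ℝ) / p - (k : ℝ) ^ 2 / (p : ℝ) ^ 2 ≤ g p)
    (hg2 : ∀ p ∈ PR w z, g p ≤ (k : ℝ) / p) :
    |(∏ p ∈ PR w z, (1 - g p)) / (VV w z) ^ k - 1| ≤ 4 * (k : ℝ) ^ 2 / w := by
  have hwr : (0 : ℝ) < w := by exact_mod_cast hw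
  set a : ℕ → ℝ := fun p => (1 - g p) / (1 - 1 / (p : ℝ)) ^ k with ha
  have h1 : (∏ p ∈ PR w z, (1 - g p)) / (VV w z) ^ k = ∏ p ∈ PR w z, a p := by
    unfold VV
    rw [← Finset.prod_pow, ← Finset.prod_div_distrib]
  rw [h1]
  set x : ℕ → ℝ := fun p => if p ∈ PR w z then 2 * (k : ℝ) ^ 2 / (p : ℝ) ^ 2 else 0 with hx
  have hp : ∀ p ∈ PR w z, (w : ℝ) < p := by
    intro p hp
    have := (mem_PR.1 hp).1
    exact_mod_cast this
  have hkr : 2 * (k : ℝ) ≤ w := by exact_mod_cast hk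
  have hk2r : 4 * (k : ℝ) ^ 2 ≤ w := by exact_mod_cast hk2
  have hap : ∀ p ∈ PR w z, |a p - 1| ≤ 2 * (k : ℝ) ^ 2 / (p : ℝ) ^ 2 := by
    intro p hpp
    have hpw := hp p hpp
    have hp0 : (0 : ℝ) < p := by linarith
    have hpge1 : (1 : ℝ) ≤ p := by
      have : (1 : ℝ) ≤ w := by exact_mod_cast hw
      linarith
    have hx1 : 1 / (p : ℝ) ≤ 1 := by
      rw [div_le_one hp0]; exact hpge1
    have hpb := pow_bonf k (1 / (p : ℝ)) (by positivity) hx1
    have hhalf : (k : ℝ) * (1 / p) ≤ 1 / 2 := by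
      rw [mul_one_div, div_le_div_iff₀ hp0 (by norm_num)]
      linarith
    have hpos : (1 : ℝ) / 2 ≤ (1 - 1 / (p : ℝ)) ^ k := by linarith [hpb.1]
    have hpos0 : (0 : ℝ) < (1 - 1 / (p : ℝ)) ^ k := by linarith
    have e1 := hg1 p hpp
    have e2 := hg2 p hpp
    have h2 : a p - 1 = ((1 - g p) - (1 - 1 / (p : ℝ)) ^ k) / (1 - 1 / (p : ℝ)) ^ k := by
      have h3 : ∀ u y : ℝ, y ≠ 0 → u / y - 1 = (u - y) / y := by
        intro u y hy
        rw [sub_div, div_self hy]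
      exact h3 _ _ hpos0.ne'
    rw [h2, abs_div, abs_of_pos hpos0, div_le_iff₀ hpos0]
    have h3 : |(1 - g p) - (1 - 1 / (p : ℝ)) ^ k| ≤ (k : ℝ) ^ 2 / (p : ℝ) ^ 2 := by
      have e3 : (k : ℝ) * (1 / p) = k / p := by ring
      have e4 : (k : ℝ) ^ 2 * (1 / p) ^ 2 = (k : ℝ) ^ 2 / (p : ℝ) ^ 2 := by ring
      rw [e3, e4] at hpb
      rw [abs_le]
      constructor <;> linarith [hpb.1, hpb.2]
    refine h3.trans ?_
    have h4 : 0 ≤ (k : ℝ) ^ 2 / (p : ℝ) ^ 2 := by positivity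
    have h5 : 2 * (k : ℝ) ^ 2 / (p : ℝ) ^ 2 = 2 * ((k : ℝ) ^ 2 / (p : ℝ) ^ 2) := by ring
    rw [h5]
    nlinarith
  have hx0 : ∀ p, 0 ≤ x p := by
    intro p; rw [hx]; simp only
    split_ifs
    · positivity
    · exact le_rfl
  have hxP : ∀ p ∈ PR w z, x p = 2 * (k : ℝ) ^ 2 / (p : ℝ) ^ 2 := by
    intro p hpp
    rw [hx]; simp only [if_pos hpp]
  have hx1 : ∀ p, x p ≤ 1 := by
    intro p; rw [hx]; simp only
    split_ifs with h
    · have hpw := hp p h
      have hp0 : (0 : ℝ) < p := by linarith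
      rw [div_le_one (by positivity)]
      have hw1 : (1 : ℝ) ≤ w := by exact_mod_cast hw
      nlinarith
    · norm_num
  set T : ℝ := ∑ p ∈ PR w z, x p with hT
  have hT0 : 0 ≤ T := Finset.sum_nonneg (fun p _ => hx0 p)
  have hTle : T ≤ 2 * (k : ℝ) ^ 2 / w := by
    rw [hT]
    calc ∑ p ∈ PR w z, x p = ∑ p ∈ PR w z, 2 * (k : ℝ) ^ 2 * (1 / (p : ℝ) ^ 2) := by
          apply Finset.sum_congr rfl
          intro p hpp
          rw [hxP p hpp]; ring
      _ = 2 * (k : ℝ) ^ 2 * ∑ p ∈ PR w z, 1 / (p : ℝ) ^ 2 := by rw [Finset.mul_sum]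
      _ ≤ 2 * (k : ℝ) ^ 2 * (1 / w) := by
          apply mul_le_mul_of_nonneg_left _ (by positivity)
          refine le_trans ?_ (tail_sq w z hw)
          unfold PR
          apply Finset.sum_le_sum_of_subset_of_nonneg (Finset.filter_subset _ _)
          intro n _ _
          positivity
      _ = 2 * (k : ℝ) ^ 2 / w := by ring
  have hT1 : T ≤ 1 := by
    refine hTle.trans ?_
    rw [div_le_one hwr]; nlinarith
  have hlow : 1 - T ≤ ∏ p ∈ PR w z, a p := by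
    have h2 := (bonf (PR w z) x hx0 hx1).1
    refine h2.trans ?_
    apply Finset.prod_le_prod
    · intro p _; linarith [hx1 p]
    · intro p hpp
      have := abs_le.1 (hap p hpp)
      rw [hxP p hpp]; linarith
  have hup : ∏ p ∈ PR w z, a p ≤ Real.exp T := by
    rw [hT, Real.exp_sum]
    apply Finset.prod_le_prod
    · intro p hpp
      have h3 := abs_le.1 (hap p hpp)
      have h4 := hx1 p
      rw [hxP p hpp] at h4
      linarith
    · intro p hpp
      have h3 := abs_le.1 (hap p hpp)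
      have h4 := Real.add_one_le_exp (x p)
      have h5 := hxP p hpp
      linarith
  have hexp : Real.exp T ≤ 1 + 2 * T := by
    have := Real.abs_exp_sub_one_le (x := T) (by rw [abs_of_nonneg hT0]; exact hT1)
    rw [abs_of_nonneg hT0] at this
    linarith [(abs_le.1 this).2]
  have hfin : 2 * T ≤ 4 * (k : ℝ) ^ 2 / w := by
    have : 4 * (k : ℝ) ^ 2 / w = 2 * (2 * (k : ℝ) ^ 2 / w) := by ring
    rw [this]; linarith
  rw [abs_le]
  constructor <;> linarith

/-- **Sieving systems of affine forms.** -/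
theorem form_sieve (m k : ℕ) (ε : ℝ) (hε : 0 < ε) (hε2 : ε ≤ 1 / 2) (b : ℕ) (hb : Good k b ε) :
    ∃ w0 Z0 : ℕ, ∀ (ι : Type) [Fintype ι] [DecidableEq ι] (E : Type) [DecidableEq E]
      (S : Finset E), Fintype.card ι = m → S.card ≤ k →
      ∀ w z M : ℕ, w0 ≤ w → Z0 ≤ z → z ^ (8 * b + 15) ≤ M →
      ∀ (A : ι → ℤ) (L : ι → ℕ), (∀ i, M ≤ L i) →
      ∀ (C : E → ι → ℤ) (d : E → ℤ), (∀ p ∈ PR w z, ND S C p) →
      |∑ v ∈ box A L, ∏ e ∈ S, ((VV w z)⁻¹ * rgh w z (aff (C e) (d e) v)) - ∏ i, (L i : ℝ)| ≤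
        6 * ε * ∏ i, (L i : ℝ) := by
  obtain ⟨Z0, hbox⟩ := box_sieve m k (by positivity) ε hε hε2 b hb
  obtain ⟨w1, hw1⟩ := exists_nat_gt (4 * (k : ℝ) ^ 2 / ε)
  refine ⟨w1 + 4 * k ^ 2 + 2 * k + 1, Z0, ?_⟩
  intro ι _ _ E _ S hm hS w z M hw hz hzM A L hL C d hnd
  have hw1' : 1 ≤ w := by omega
  have hwr : (0 : ℝ) < w := by exact_mod_cast hw1'
  have hk2 : 2 * S.card ≤ w := by omega
  have hk4 : 4 * S.card ^ 2 ≤ w := by
    have : S.card ^ 2 ≤ k ^ 2 := Nat.pow_le_pow_left hS 2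
    omega
  have hp2 : ∀ p ∈ PR w z, 2 * (k : ℝ) ≤ p ∧ (0 : ℝ) < p := by
    intro p hp
    have h1 : w < p := (mem_PR.1 hp).1
    constructor
    · have : 2 * k ≤ p := by omega
      exact_mod_cast this
    · have : 0 < p := by omega
      exact_mod_cast this
  have hPp : ∀ p ∈ PR w z, p.Prime := fun p hp => (mem_PR.1 hp).2.2
  set g : ℕ → ℝ := fun p => if p ∈ PR w z then
    (∑ v ∈ cube ι p, FF S C d p v) / (p : ℝ) ^ Fintype.card ι else 0 with hg
  have hgP : ∀ p ∈ PR w z, g p = (∑ v ∈ cube ι p, FF S C d p v) / (p : ℝ) ^ Fintype.card ι := by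
    intro p hp
    rw [hg]; simp only [if_pos hp]
  have hgu : ∀ p ∈ PR w z, g p ≤ (S.card : ℝ) / p := by
    intro p hp
    rw [hgP p hp]
    have h1 := (hp2 p hp).2
    rw [div_le_iff₀ (by positivity)]
    exact (density_bounds S C d p (hPp p hp) (hnd p hp)).1
  have hgl : ∀ p ∈ PR w z, (S.card : ℝ) / p - (S.card : ℝ) ^ 2 / (p : ℝ) ^ 2 ≤ g p := by
    intro p hp
    rw [hgP p hp]
    have h1 := (hp2 p hp).2
    rw [le_div_iff₀ (by positivity)]
    exact (density_bounds S C d p (hPp p hp) (hnd p hp)).2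
  have hFF0 : ∀ p v, 0 ≤ FF S C d p v := by
    intro p v
    rcases FF_01 S C d p v with h | h <;> rw [h]
    norm_num
  have hg0 : ∀ p, 0 ≤ g p := by
    intro p; rw [hg]; simp only
    split_ifs
    · exact div_nonneg (Finset.sum_nonneg (fun v _ => hFF0 p v)) (by positivity)
    · exact le_rfl
  have hSk : (S.card : ℝ) ≤ k := by exact_mod_cast hS
  have hg12 : ∀ p, g p ≤ 1 / 2 := by
    intro p
    by_cases hp : p ∈ PR w z
    · refine (hgu p hp).trans ?_
      have h1 := hp2 p hp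
      rw [div_le_div_iff₀ h1.2 (by norm_num)]
      linarith
    · rw [hg]; simp only [if_neg hp]; norm_num
  have hsieve := hbox ι hm w z M hw1' hz hzM A L hL (FF S C d) (fun p _ => FF_per S C d p)
    (fun p v => FF_01 S C d p v) g hg0 hg12
    (by
      intro p hp
      refine (hgu p hp).trans ?_
      exact div_le_div_of_nonneg_right hSk (hp2 p hp).2.le)
    (by
      intro p hp
      rw [hgP p hp, hm]
      have := (hp2 p hp).2
      field_simp)
  have hratio := ratio_bound w z S.card hw1' hk2 hk4 g hgl hgu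
  set G : ℝ := ∏ p ∈ PR w z, (1 - g p) with hG
  set vol : ℝ := ∏ i, (L i : ℝ) with hvol
  have hvol0 : 0 ≤ vol := Finset.prod_nonneg (fun i _ => by positivity)
  have hV0 := VV_pos w z
  have hVk0 : 0 < (VV w z) ^ S.card := pow_pos hV0 _
  have hre : ∀ v : ι → ℤ, ∏ e ∈ S, ((VV w z)⁻¹ * rgh w z (aff (C e) (d e) v)) =
      ((VV w z) ^ S.card)⁻¹ * ∏ p ∈ PR w z, (1 - FF S C d p v) := by
    intro v
    rw [Finset.prod_mul_distrib, Finset.prod_const, inv_pow]
    congr 1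
    unfold rgh FF
    rw [Finset.prod_comm]
    apply Finset.prod_congr rfl
    intro p _
    ring
  rw [Finset.sum_congr rfl (fun v _ => hre v), ← Finset.mul_sum]
  set SS : ℝ := ∑ v ∈ box A L, ∏ p ∈ PR w z, (1 - FF S C d p v) with hSS
  have hr4 : 4 * (S.card : ℝ) ^ 2 / w ≤ ε := by
    rw [div_le_iff₀ hwr]
    rw [div_lt_iff₀ hε] at hw1
    have h1 : (S.card : ℝ) ^ 2 ≤ (k : ℝ) ^ 2 := pow_le_pow_left₀ (by positivity) hSk 2
    have h2 : (w1 : ℝ) ≤ w := by
      have : w1 ≤ w := by omega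
      exact_mod_cast this
    nlinarith
  have hR := abs_le.1 (hratio.trans hr4)
  set R : ℝ := G / (VV w z) ^ S.card with hRdef
  have hGR : G = R * (VV w z) ^ S.card := by rw [hRdef]; field_simp
  have h1 : |((VV w z) ^ S.card)⁻¹ * SS - R * vol| ≤ 3 * ε * (R * vol) := by
    have h2 : ((VV w z) ^ S.card)⁻¹ * SS - R * vol = ((VV w z) ^ S.card)⁻¹ * (SS - G * vol) := by
      rw [hGR]; field_simp
    rw [h2, abs_mul, abs_of_pos (inv_pos.2 hVk0)]
    have h3 : 3 * ε * (R * vol) = ((VV w z) ^ S.card)⁻¹ * (3 * ε * (G * vol)) := by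
      rw [hGR]; field_simp
    rw [h3]
    exact mul_le_mul_of_nonneg_left hsieve (inv_pos.2 hVk0).le
  have h2 := abs_le.1 h1
  have hRle : R ≤ 3 / 2 := by linarith
  have hR0 : 0 ≤ R := by linarith
  have h3 : 3 * ε * (R * vol) ≤ 9 / 2 * ε * vol := by
    have : R * vol ≤ 3 / 2 * vol := mul_le_mul_of_nonneg_right hRle hvol0
    nlinarith
  have h4 : R * vol ≤ vol + ε * vol := by nlinarith
  have h5 : vol - ε * vol ≤ R * vol := by nlinarith
  have h6 : 0 ≤ ε * vol := by positivity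
  rw [abs_le]
  constructor <;> nlinarith

end

end Pool.Agent.Lib.MP_325d88_nt
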