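import Mathlib
import Pool.Agent.Lib.MP_325d88_nt.Lin2
import Pool.Agent.Lib.MP_325d88_nt.Dens

/-!
# The linear forms condition for rough numbers in progressions
-/

namespace Pool.Agent.Lib.MP_325d88_nt

open Finset

noncomputable section

/-- edges of the doubled triangle -/
abbrev Ed := Fin 3 × Fin 2 × Fin 2

/-- first variable of the form -/
def vr1 (e : Ed) : Fin 6 :=
  if e.1 = 0 then ⟨e.2.1.val, by omega⟩
  else if e.1 = 1 then ⟨2 + e.2.1.val, by omega⟩
  else ⟨e.2.1.val, by omega⟩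

/-- second variable of the form -/
def vr2 (e : Ed) : Fin 6 :=
  if e.1 = 0 then ⟨2 + e.2.2.val, by omega⟩
  else ⟨4 + e.2.2.val, by omega⟩

theorem vr_ne : ∀ e : Ed, vr1 e ≠ vr2 e := by decide

theorem vr_sep : ∀ e e' : Ed, e ≠ e' →
    (vr1 e ≠ vr1 e' ∧ vr1 e ≠ vr2 e') ∨ (vr2 e ≠ vr1 e' ∧ vr2 e ≠ vr2 e') := by decide

/-- coefficients -/
def k1 (α : ℤ) (e : Ed) : ℤ := if e.1 = 0 then 1 else α

def k2 (β : ℤ) (e : Ed) : ℤ := if e.1 = 0 then -β else if e.1 = 1 then 1 else β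

/-- coefficient matrix of the 12 forms -/
def CC (W : ℤ) (α β : ℤ) (e : Ed) (i : Fin 6) : ℤ :=
  if i = vr1 e then W * k1 α e else if i = vr2 e then W * k2 β e else 0

def dd (bx bY bz : ℤ) (e : Ed) : ℤ := if e.1 = 0 then bx else if e.1 = 1 then bY else bz

theorem CC_nd (W : ℤ) (α β : ℤ) (p : ℕ) (hp : p.Prime) (hW : ¬ (p : ℤ) ∣ W) (hα : ¬ (p : ℤ) ∣ α)
    (hβ : ¬ (p : ℤ) ∣ β) (S : Finset Ed) : ND S (CC W α β) p := by
  have hpp : Prime (p : ℤ) := Nat.prime_iff_prime_int.1 hp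
  have hone : ¬ (p : ℤ) ∣ 1 := by
    intro h1
    have h2 := Int.eq_one_of_dvd_one (by positivity) h1
    have := hp.one_lt
    omega
  have hk1 : ∀ e, ¬ (p : ℤ) ∣ W * k1 α e := by
    intro e h
    rcases hpp.dvd_or_dvd h with h1 | h1
    · exact hW h1
    · unfold k1 at h1
      split_ifs at h1
      · exact hone h1
      · exact hα h1
  have hk2 : ∀ e, ¬ (p : ℤ) ∣ W * k2 β e := by
    intro e h
    rcases hpp.dvd_or_dvd h with h1 | h1
    · exact hW h1
    · unfold k2 at h1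
      split_ifs at h1
      · exact hβ ((dvd_neg).1 h1)
      · exact hone h1
      · exact hβ h1
  have hc1 : ∀ e, ¬ (p : ℤ) ∣ CC W α β e (vr1 e) := by
    intro e
    unfold CC
    rw [if_pos rfl]
    exact hk1 e
  have hc2 : ∀ e, ¬ (p : ℤ) ∣ CC W α β e (vr2 e) := by
    intro e
    unfold CC
    rw [if_neg (vr_ne e).symm, if_pos rfl]
    exact hk2 e
  constructor
  · intro e _
    exact ⟨vr1 e, hc1 e⟩
  · intro e _ e' _ hee
    rcases vr_sep e e' hee with h | h
    · refine ⟨vr1 e, vr1 e', hc1 e, ?_, hc1 e'⟩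
      unfold CC
      rw [if_neg h.1, if_neg h.2]
    · refine ⟨vr2 e, vr1 e', hc2 e, ?_, hc1 e'⟩
      unfold CC
      rw [if_neg h.1, if_neg h.2]

theorem aff_CC (W : ℤ) (α β : ℤ) (bx bY bz : ℤ) (e : Ed) (v : Fin 6 → ℤ) :
    aff (CC W α β e) (dd bx bY bz e) v =
      W * (k1 α e * v (vr1 e) + k2 β e * v (vr2 e)) + dd bx bY bz e := by
  unfold aff
  congr 1
  have h1 : ∀ i, CC W α β e i * v i = (if i = vr1 e then W * k1 α e * v (vr1 e) else 0) +
      (if i = vr2 e then W * k2 β e * v (vr2 e) else 0) := by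
    intro i
    unfold CC
    by_cases h1 : i = vr1 e
    · rw [if_pos h1, if_pos h1, if_neg, h1, add_zero]
      rw [h1]; exact vr_ne e
    · rw [if_neg h1, if_neg h1, zero_add]
      by_cases h2 : i = vr2 e
      · rw [if_pos h2, if_pos h2, h2]
      · rw [if_neg h2, if_neg h2, zero_mul]
  rw [Finset.sum_congr rfl (fun i _ => h1 i), Finset.sum_add_distrib, Finset.sum_ite_eq',
    Finset.sum_ite_eq', if_pos (Finset.mem_univ _), if_pos (Finset.mem_univ _)]
  ring

/-- the set of chosen edges -/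
def SE (e1 e2 e3 : Fin 2 → Fin 2 → Bool) : Finset Ed :=
  Finset.univ.filter (fun e => if e.1 = 0 then e1 e.2.1 e.2.2 else
    if e.1 = 1 then e2 e.2.1 e.2.2 else e3 e.2.1 e.2.2)

theorem SE_prod (e1 e2 e3 : Fin 2 → Fin 2 → Bool) (f : Ed → ℝ) :
    ∏ e ∈ SE e1 e2 e3, f e =
      ((if e1 0 0 then f (0, 0, 0) else 1) * (if e1 0 1 then f (0, 0, 1) else 1) *
        (if e1 1 0 then f (0, 1, 0) else 1) * (if e1 1 1 then f (0, 1, 1) else 1)) *
      ((if e2 0 0 then f (1, 0, 0) else 1) * (if e2 0 1 then f (1, 0, 1) else 1) *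
        (if e2 1 0 then f (1, 1, 0) else 1) * (if e2 1 1 then f (1, 1, 1) else 1)) *
      ((if e3 0 0 then f (2, 0, 0) else 1) * (if e3 0 1 then f (2, 0, 1) else 1) *
        (if e3 1 0 then f (2, 1, 0) else 1) * (if e3 1 1 then f (2, 1, 1) else 1)) := by
  have h10 : ((1 : Fin 3) = 0) = False := by decide
  have h20 : ((2 : Fin 3) = 0) = False := by decide
  have h21 : ((2 : Fin 3) = 1) = False := by decide
  have h00 : ((0 : Fin 3) = 0) = True := by decide
  have h11 : ((1 : Fin 3) = 1) = True := by decide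
  unfold SE
  rw [Finset.prod_filter]
  rw [Fintype.prod_prod_type, Fin.prod_univ_three]
  simp only [Fintype.prod_prod_type, Fin.prod_univ_two, h10, h20, h21, h00, h11, if_true, if_false]
  simp only [mul_assoc]

end

end Pool.Agent.Lib.MP_325d88_nt
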