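import Mathlib
import Pool.Agent.Lib.MP_325d88_nt.Lin3

/-!
# The linear forms condition for rough numbers in progressions
-/

namespace Pool.Agent.Lib.MP_325d88_nt

open Finset

noncomputable section

theorem val0 (w z : ℕ) (Wm α β bx bY bz : ℤ) (i j : Fin 2) (a b c : ℤ × ℤ) :
    (VV w z)⁻¹ * rgh w z (aff (CC Wm α β (0, i, j)) (dd bx bY bz (0, i, j))
      ![a.1, a.2, b.1, b.2, c.1, c.2]) =
    (VV w z)⁻¹ * rgh w z (Wm * ((![a.1, a.2] i) - β * (![b.1, b.2] j)) + bx) := by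
  rw [aff_CC]
  congr 2
  fin_cases i <;> fin_cases j <;> simp [k1, k2, dd, vr1, vr2] <;> (left; ring)

theorem val1 (w z : ℕ) (Wm α β bx bY bz : ℤ) (i j : Fin 2) (a b c : ℤ × ℤ) :
    (VV w z)⁻¹ * rgh w z (aff (CC Wm α β (1, i, j)) (dd bx bY bz (1, i, j))
      ![a.1, a.2, b.1, b.2, c.1, c.2]) =
    (VV w z)⁻¹ * rgh w z (Wm * (α * (![b.1, b.2] i) + (![c.1, c.2] j)) + bY) := by
  rw [aff_CC]
  congr 2
  fin_cases i <;> fin_cases j <;> simp [k1, k2, dd, vr1, vr2]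

theorem val2 (w z : ℕ) (Wm α β bx bY bz : ℤ) (i j : Fin 2) (a b c : ℤ × ℤ) :
    (VV w z)⁻¹ * rgh w z (aff (CC Wm α β (2, i, j)) (dd bx bY bz (2, i, j))
      ![a.1, a.2, b.1, b.2, c.1, c.2]) =
    (VV w z)⁻¹ * rgh w z (Wm * (α * (![a.1, a.2] i) + β * (![c.1, c.2] j)) + bz) := by
  rw [aff_CC]
  congr 2
  fin_cases i <;> fin_cases j <;> simp [k1, k2, dd, vr1, vr2]

theorem sum_box6 (A0 B0 C0 : ℤ) (La Lb Lc : ℕ) (f : ℤ × ℤ → ℤ × ℤ → ℤ × ℤ → ℝ) :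
    ∑ a ∈ Finset.Ico A0 (A0 + La) ×ˢ Finset.Ico A0 (A0 + La),
      ∑ b ∈ Finset.Ico B0 (B0 + Lb) ×ˢ Finset.Ico B0 (B0 + Lb),
      ∑ c ∈ Finset.Ico C0 (C0 + Lc) ×ˢ Finset.Ico C0 (C0 + Lc), f a b c =
    ∑ v ∈ box (![A0, A0, B0, B0, C0, C0] : Fin 6 → ℤ) (![La, La, Lb, Lb, Lc, Lc] : Fin 6 → ℕ),
      f (v 0, v 1) (v 2, v 3) (v 4, v 5) := by
  have h1 : ∀ a ∈ Finset.Ico A0 (A0 + La) ×ˢ Finset.Ico A0 (A0 + La),
      ∑ b ∈ Finset.Ico B0 (B0 + Lb) ×ˢ Finset.Ico B0 (B0 + Lb),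
      ∑ c ∈ Finset.Ico C0 (C0 + Lc) ×ˢ Finset.Ico C0 (C0 + Lc), f a b c =
      ∑ x ∈ (Finset.Ico B0 (B0 + Lb) ×ˢ Finset.Ico B0 (B0 + Lb)) ×ˢ
        (Finset.Ico C0 (C0 + Lc) ×ˢ Finset.Ico C0 (C0 + Lc)), f a x.1 x.2 := by
    intro a _
    exact (Finset.sum_product' _ _ (fun b c => f a b c)).symm
  rw [Finset.sum_congr rfl h1, ← Finset.sum_product']
  apply Finset.sum_nbij' (fun x => ![x.1.1, x.1.2, x.2.1.1, x.2.1.2, x.2.2.1, x.2.2.2])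
    (fun v => ((v 0, v 1), ((v 2, v 3), (v 4, v 5))))
  · intro x hx
    simp only [Finset.mem_product, Finset.mem_Ico] at hx
    rw [mem_box]
    intro i
    fin_cases i <;> simp <;> tauto
  · intro v hv
    rw [mem_box] at hv
    simp only [Finset.mem_product, Finset.mem_Ico]
    have h0 := hv 0
    have h1 := hv 1
    have h2 := hv 2
    have h3 := hv 3
    have h4 := hv 4
    have h5 := hv 5
    simp at h0 h1 h2 h3 h4 h5
    tauto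
  · intro x _
    rfl
  · intro v _
    funext i
    fin_cases i <;> rfl
  · intro x _
    rfl

/-- **Linear forms condition.** -/
theorem lf_rough (α β : ℤ) (hα : α ≠ 0) (hβ : β ≠ 0) (ε : ℝ) (hε : 0 < ε) (hε2 : ε ≤ 1 / 2) (b : ℕ)
    (hb : Good 12 b ε) :
    ∃ w0 Z0 : ℕ, ∀ w z M : ℕ, w0 ≤ w → Z0 ≤ z → z ^ (8 * b + 15) ≤ M →
      ∀ Wm : ℤ, (∀ p ∈ PR w z, ¬ (p : ℤ) ∣ Wm) →
      ∀ (A0 B0 C0 : ℤ) (La Lb Lc : ℕ), M ≤ La → M ≤ Lb → M ≤ Lc → ∀ bx bY bz : ℤ,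
      LF (Finset.Ico A0 (A0 + La)) (Finset.Ico B0 (B0 + Lb)) (Finset.Ico C0 (C0 + Lc))
        (fun a b => (VV w z)⁻¹ * rgh w z (Wm * (a - β * b) + bx))
        (fun b c => (VV w z)⁻¹ * rgh w z (Wm * (α * b + c) + bY))
        (fun a c => (VV w z)⁻¹ * rgh w z (Wm * (α * a + β * c) + bz)) (6 * ε) := by
  obtain ⟨w1, Z0, hfs⟩ := form_sieve 6 12 ε hε hε2 b (by exact_mod_cast hb)
  refine ⟨w1 + α.natAbs + β.natAbs, Z0, ?_⟩
  intro w z M hw hz hzM Wm hWm A0 B0 C0 La Lb Lc hLa hLb hLc bx bY bz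
  intro e1 e2 e3
  have hnd : ∀ p ∈ PR w z, ND (SE e1 e2 e3) (CC Wm α β) p := by
    intro p hp
    have hpp := (mem_PR.1 hp).2.2
    have hpw := (mem_PR.1 hp).1
    apply CC_nd Wm α β p hpp (hWm p hp)
    · intro h
      have h1 := Int.natAbs_dvd_natAbs.2 h
      simp only [Int.natAbs_natCast] at h1
      have h2 := Nat.le_of_dvd (Int.natAbs_pos.2 hα) h1
      omega
    · intro h
      have h1 := Int.natAbs_dvd_natAbs.2 h
      simp only [Int.natAbs_natCast] at h1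
      have h2 := Nat.le_of_dvd (Int.natAbs_pos.2 hβ) h1
      omega
  have hcard : (SE e1 e2 e3).card ≤ 12 := by
    refine (Finset.card_filter_le _ _).trans ?_
    simp [Ed]
  have h1 := hfs (Fin 6) Ed (SE e1 e2 e3) (by simp) hcard w z M (by omega) hz hzM
    (![A0, A0, B0, B0, C0, C0]) (![La, La, Lb, Lb, Lc, Lc])
    (by intro i; fin_cases i <;> simp <;> assumption) (CC Wm α β) (dd bx bY bz) hnd
  have hvol : ∏ i, (((![La, La, Lb, Lb, Lc, Lc] : Fin 6 → ℕ) i : ℕ) : ℝ) =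
      (La : ℝ) ^ 2 * (Lb : ℝ) ^ 2 * (Lc : ℝ) ^ 2 := by
    rw [Fin.prod_univ_six]
    simp only [Matrix.cons_val_zero, Matrix.cons_val_one, Matrix.cons_val]
    ring
  rw [hvol] at h1
  have hcA : ((Finset.Ico A0 (A0 + La)).card : ℝ) = La := by
    rw [Int.card_Ico]; simp
  have hcB : ((Finset.Ico B0 (B0 + Lb)).card : ℝ) = Lb := by
    rw [Int.card_Ico]; simp
  have hcC : ((Finset.Ico C0 (C0 + Lc)).card : ℝ) = Lc := by
    rw [Int.card_Ico]; simp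
  rw [hcA, hcB, hcC]
  rw [sum_box6 A0 B0 C0 La Lb Lc]
  refine le_trans (le_of_eq ?_) h1
  congr 2
  apply Finset.sum_congr rfl
  intro v _
  have hv : v = ![v 0, v 1, v 2, v 3, v 4, v 5] := by
    funext i
    fin_cases i <;> rfl
  have key : ∀ e : Ed, (VV w z)⁻¹ * rgh w z (aff (CC Wm α β e) (dd bx bY bz e) v) =
      (VV w z)⁻¹ * rgh w z (aff (CC Wm α β e) (dd bx bY bz e) ![v 0, v 1, v 2, v 3, v 4, v 5]) := by
    intro e; rw [← hv]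
  rw [Finset.prod_congr rfl (fun e _ => key e), SE_prod]
  simp only [val0 w z Wm α β bx bY bz _ _ (v 0, v 1) (v 2, v 3) (v 4, v 5),
    val1 w z Wm α β bx bY bz _ _ (v 0, v 1) (v 2, v 3) (v 4, v 5),
    val2 w z Wm α β bx bY bz _ _ (v 0, v 1) (v 2, v 3) (v 4, v 5)]
  unfold W
  simp only [Matrix.cons_val_zero, Matrix.cons_val_one]

end

end Pool.Agent.Lib.MP_325d88_nt
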