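import Mathlib
import Pool.Agent.Lib.MP_325d88_nt.Rough4

/-!
# Recurrence lemma
-/

namespace Pool.Agent.Lib.MP_325d88_nt

open Finset

noncomputable section

/-- points of a separated set in a short arc -/
theorem sep_card (S : Finset ℕ) (φ ε d : ℝ) (hε : 0 ≤ ε) (hd : 0 < d)
    (hS : ∀ h ∈ S, nd (h * φ) ≤ ε)
    (hsep : ∀ h ∈ S, ∀ h' ∈ S, h < h' → d ≤ nd ((((h' : ℕ) : ℝ) - h) * φ)) :
    (S.card : ℝ) ≤ 2 * ε / d + 1 := by
  classical
  set x : ℕ → ℝ := fun h => h * φ - round (h * φ) with hx
  have hx1 : ∀ h ∈ S, |x h| ≤ ε := hS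
  have hinj : Set.InjOn (fun h => ⌊(x h + ε) / d⌋₊) S := by
    intro h hh h' hh' heq
    simp only at heq
    by_contra hne
    have key : ∀ a ∈ S, ∀ b ∈ S, a < b → ⌊(x a + ε) / d⌋₊ = ⌊(x b + ε) / d⌋₊ → False := by
      intro a ha b hb hab he
      have h1 := hsep a ha b hb hab
      have h2 : nd ((((b : ℕ) : ℝ) - a) * φ) ≤ |x b - x a| := by
        have h3 := nd_le_abs ((((b : ℕ) : ℝ) - a) * φ) (round (b * φ) - round (a * φ))
        refine h3.trans (le_of_eq ?_)
        congr 1
        rw [hx]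
        push_cast
        ring
      have h4 : d ≤ |x b - x a| := h1.trans h2
      have ha1 := abs_le.1 (hx1 a ha)
      have hb1 := abs_le.1 (hx1 b hb)
      have ha0 : 0 ≤ (x a + ε) / d := div_nonneg (by linarith) hd.le
      have hb0 : 0 ≤ (x b + ε) / d := div_nonneg (by linarith) hd.le
      have e1 := Nat.floor_le ha0
      have e2 := Nat.lt_floor_add_one ((x a + ε) / d)
      have e3 := Nat.floor_le hb0
      have e4 := Nat.lt_floor_add_one ((x b + ε) / d)
      rw [he] at e1 e2
      have h5 : |(x b + ε) / d - (x a + ε) / d| < 1 := by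
        rw [abs_lt]; constructor <;> linarith
      have h6 : (x b + ε) / d - (x a + ε) / d = (x b - x a) / d := by ring
      rw [h6, abs_div, abs_of_pos hd, div_lt_one hd] at h5
      linarith
    rcases lt_or_gt_of_ne hne with h1 | h1
    · exact key h hh h' hh' h1 heq
    · exact key h' hh' h hh h1 heq.symm
  have hmaps : ∀ h ∈ S, ⌊(x h + ε) / d⌋₊ ∈ Finset.range (⌊2 * ε / d⌋₊ + 1) := by
    intro h hh
    rw [Finset.mem_range, Nat.lt_succ_iff]
    apply Nat.floor_le_floor
    have h1 := abs_le.1 (hx1 h hh)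
    apply div_le_div_of_nonneg_right _ hd.le
    linarith
  have h1 := Finset.card_le_card_of_injOn _ hmaps hinj
  rw [Finset.card_range] at h1
  have h2 : (S.card : ℝ) ≤ (⌊2 * ε / d⌋₊ : ℝ) + 1 := by exact_mod_cast h1
  have h3 := Nat.floor_le (show 0 ≤ 2 * ε / d by positivity)
  linarith

/-- **Recurrence lemma.** -/
theorem recurrence (φ : ℝ) (H : ℕ) (ε κ : ℝ) (hκ0 : 0 < κ) (hκ1 : κ ≤ 1) (hε0 : 0 < ε)
    (hεκ : 64 * ε ≤ κ) (hH : 64 / κ ≤ H)
    (hcount : κ * H ≤ (((Finset.Icc 1 H).filter (fun h : ℕ => nd (h * φ) ≤ ε)).card : ℝ)) :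
    ∃ q : ℕ, 1 ≤ q ∧ (q : ℝ) ≤ 8 / κ ∧ nd (q * φ) ≤ ε / (κ * H) := by
  classical
  have hHr : (64 : ℝ) ≤ H := by
    have : 64 ≤ 64 / κ := by
      rw [le_div_iff₀ hκ0]; linarith
    linarith
  have hH0 : (0 : ℝ) < H := by linarith
  have hHn : 0 < H := by exact_mod_cast hH0
  obtain ⟨a, q, hq0, hqn, hcop, happ⟩ := dirichlet_reduced φ (2 * H) (by omega)
  have hqr : (0 : ℝ) < q := by exact_mod_cast hq0
  have hq1 : (1 : ℝ) ≤ q := by exact_mod_cast hq0
  set β := φ - a / q with hβ
  have hφ : φ = a / q + β := by rw [hβ]; ring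
  push_cast at happ
  -- lower bound for nd (h φ) if q ∤ h, h ≤ H
  have hlow : ∀ h : ℕ, h ≤ H → ¬ q ∣ h → 1 / (2 * (q : ℝ)) ≤ nd (h * φ) := by
    intro h hh hnd
    have h1 : (h : ℝ) * φ = (((h : ℤ) * a : ℤ) : ℝ) / q + h * β := by
      rw [hφ]; push_cast; ring
    have h2 : 1 / (q : ℝ) ≤ nd ((((h : ℤ) * a : ℤ) : ℝ) / q) := by
      apply nd_frac _ q hq0
      intro h3
      apply hnd
      have h4 : (q : ℤ) ∣ (h : ℤ) := hcop.symm.dvd_of_dvd_mul_right h3
      exact_mod_cast h4
    have h3 : nd ((((h : ℤ) * a : ℤ) : ℝ) / q) ≤ nd (h * φ) + nd (h * β) := by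
      have : (((h : ℤ) * a : ℤ) : ℝ) / q = h * φ - h * β := by rw [h1]; ring
      rw [this]
      exact nd_sub_le _ _
    have h4 : nd (h * β) ≤ 1 / (2 * q) := by
      have h5 := nd_le_abs (h * β) 0
      simp only [Int.cast_zero, sub_zero] at h5
      rw [abs_mul, Nat.abs_cast] at h5
      refine h5.trans ?_
      have hhr : (h : ℝ) ≤ H := by exact_mod_cast hh
      calc (h : ℝ) * |β| ≤ H * (1 / (q * (2 * H))) := by gcongr
        _ = 1 / (2 * q) := by field_simp
    have h5 : 1 / (q : ℝ) = 1 / (2 * q) + 1 / (2 * q) := by field_simp; ring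
    linarith
  set S := (Finset.Icc 1 H).filter (fun h : ℕ => nd (h * φ) ≤ ε) with hS
  -- step 1: q ≤ 8/κ
  have hq8 : (q : ℝ) ≤ 8 / κ := by
    by_contra hcon
    push Not at hcon
    rw [div_lt_iff₀ hκ0] at hcon
    -- block length
    set B := min q H with hB
    have hB0 : 0 < B := lt_min hq0 hHn
    have hblock : ∀ j : ℕ, ((S.filter (fun h => h / B = j)).card : ℝ) ≤ 2 * ε / (1 / (2 * q)) + 1 := by
      intro j
      apply sep_card _ φ ε _ hε0.le (by positivity)
      · intro h hh
        rw [Finset.mem_filter, hS, Finset.mem_filter] at hh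
        exact hh.1.2
      · intro h hh h' hh' hlt
        rw [Finset.mem_filter, hS, Finset.mem_filter, Finset.mem_Icc] at hh hh'
        have h1 : h' - h < B := by
          have e1 := Nat.div_add_mod h B
          have e2 := Nat.div_add_mod h' B
          rw [hh.2] at e1
          rw [hh'.2] at e2
          have e3 := Nat.mod_lt h' hB0
          omega
        have h2 : (((h' : ℕ) : ℝ) - h) = ((h' - h : ℕ) : ℝ) := by
          rw [Nat.cast_sub hlt.le]
        rw [h2]
        apply hlow
        · have : B ≤ H := min_le_right _ _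
          omega
        · intro h3
          have h4 := Nat.le_of_dvd (by omega) h3
          have : B ≤ q := min_le_left _ _
          omega
    have htot : (S.card : ℝ) ≤ ((H / B : ℕ) + 1 : ℝ) * (2 * ε / (1 / (2 * q)) + 1) := by
      have h1 : S.card = ∑ j ∈ Finset.range (H / B + 1), (S.filter (fun h => h / B = j)).card := by
        apply Finset.card_eq_sum_card_fiberwise
        intro h hh
        rw [Finset.mem_coe, hS, Finset.mem_filter, Finset.mem_Icc] at hh
        rw [Finset.mem_coe, Finset.mem_range, Nat.lt_succ_iff]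
        exact Nat.div_le_div_right hh.1.2
      rw [h1]
      push_cast
      calc ∑ j ∈ Finset.range (H / B + 1), ((S.filter (fun h => h / B = j)).card : ℝ)
          ≤ ∑ j ∈ Finset.range (H / B + 1), (2 * ε / (1 / (2 * q)) + 1) :=
            Finset.sum_le_sum (fun j _ => hblock j)
        _ = _ := by
            rw [Finset.sum_const, Finset.card_range, nsmul_eq_mul]; push_cast; ring
    have e1 : 2 * ε / (1 / (2 * (q : ℝ))) = 4 * ε * q := by field_simp; ring
    rw [e1] at htot
    have h2 := hcount.trans htot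
    -- H/B + 1 ≤ 2 H / B
    have hBr : (0 : ℝ) < B := by exact_mod_cast hB0
    have h3 : ((H / B : ℕ) : ℝ) + 1 ≤ 2 * H / B := by
      have h4 : ((H / B : ℕ) : ℝ) ≤ (H : ℝ) / B := Nat.cast_div_le
      have h5 : (1 : ℝ) ≤ H / B := by
        rw [le_div_iff₀ hBr, one_mul]
        exact_mod_cast min_le_right q H
      have h6 : 2 * (H : ℝ) / B = H / B + H / B := by ring
      linarith
    have h4 : κ * H ≤ (2 * H / B) * (4 * ε * q + 1) := by
      refine h2.trans ?_
      apply mul_le_mul_of_nonneg_right h3 (by positivity)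
    have h5 : κ * B ≤ 2 * (4 * ε * q + 1) := by
      have h6 : (2 * (H : ℝ) / B) * (4 * ε * q + 1) * B = 2 * H * (4 * ε * q + 1) := by
        field_simp
      have h7 := mul_le_mul_of_nonneg_right h4 hBr.le
      rw [h6] at h7
      have h8 : H * (κ * B) ≤ H * (2 * (4 * ε * q + 1)) := by linarith
      exact le_of_mul_le_mul_left h8 hH0
    rcases le_total q H with hqH | hqH
    · have hBq : (B : ℝ) = q := by
        rw [hB, min_eq_left hqH]
      rw [hBq] at h5
      -- κ q ≤ 8 ε q + 2, 8 ε ≤ κ/8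
      nlinarith
    · have hBH : (B : ℝ) = H := by
        rw [hB, min_eq_right hqH]
      rw [hBH] at h5
      have h6 : (q : ℝ) ≤ 2 * H := by exact_mod_cast hqn
      have h7 : 64 ≤ κ * H := by
        rw [div_le_iff₀ hκ0] at hH; linarith
      nlinarith
  refine ⟨q, hq0, hq8, ?_⟩
  -- step 2
  have hnq : nd (q * φ) = q * |β| := by
    have h1 : (q : ℝ) * φ = q * β + ((a : ℤ) : ℝ) := by
      rw [hφ]; field_simp; ring
    rw [h1, nd_add_int, nd_eq_abs, abs_mul, Nat.abs_cast]
    rw [abs_mul, Nat.abs_cast]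
    calc (q : ℝ) * |β| ≤ q * (1 / (q * (2 * H))) := by gcongr
      _ = 1 / (2 * H) := by field_simp
      _ ≤ 1 / 2 := by
          apply one_div_le_one_div_of_le (by norm_num)
          linarith
  rw [hnq]
  rw [le_div_iff₀ (by positivity)]
  -- all elements of S are multiples of q
  have hmul : ∀ h ∈ S, q ∣ h := by
    intro h hh
    rw [hS, Finset.mem_filter, Finset.mem_Icc] at hh
    by_contra hcon
    have h1 := hlow h hh.1.2 hcon
    have h2 : 1 / (2 * (q : ℝ)) ≤ ε := h1.trans hh.2
    have h3 : κ / 16 ≤ 1 / (2 * (q : ℝ)) := by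
      rw [le_div_iff₀ hκ0] at hq8
      rw [le_div_iff₀ (by positivity)]
      linarith
    linarith
  by_cases hβ0 : |β| = 0
  · rw [hβ0]; simp; exact hε0.le
  have hβpos : 0 < |β| := lt_of_le_of_ne (abs_nonneg _) (Ne.symm hβ0)
  have hbound : ∀ h ∈ S, (h : ℝ) * |β| ≤ ε := by
    intro h hh
    obtain ⟨j, hj⟩ := hmul h hh
    rw [hS, Finset.mem_filter, Finset.mem_Icc] at hh
    have h1 : (h : ℝ) * φ = h * β + (((j : ℤ) * a : ℤ) : ℝ) := by
      rw [hφ, hj]; push_cast; field_simp; ring
    have h2 := hh.2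
    have hhr : (h : ℝ) ≤ H := by exact_mod_cast hh.1.2
    rw [h1, nd_add_int, nd_eq_abs, abs_mul, Nat.abs_cast] at h2
    · exact h2
    · rw [abs_mul, Nat.abs_cast]
      calc (h : ℝ) * |β| ≤ H * (1 / (q * (2 * H))) := by gcongr
        _ = 1 / (2 * q) := by field_simp
        _ ≤ 1 / 2 := by
            apply one_div_le_one_div_of_le (by norm_num)
            linarith
  -- count
  have hcard : (S.card : ℝ) * (q * |β|) ≤ ε := by
    have hinj : Set.InjOn (fun h : ℕ => h / q - 1) S := by
      intro x hx y hy hxy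
      obtain ⟨i, hi⟩ := hmul x hx
      obtain ⟨j, hj⟩ := hmul y hy
      rw [Finset.mem_coe, hS, Finset.mem_filter, Finset.mem_Icc] at hx hy
      simp only at hxy
      rw [hi, hj, Nat.mul_div_cancel_left i hq0, Nat.mul_div_cancel_left j hq0] at hxy
      have hi0 : 0 < i := by
        rcases Nat.eq_zero_or_pos i with h | h
        · subst h; omega
        · exact h
      have hj0 : 0 < j := by
        rcases Nat.eq_zero_or_pos j with h | h
        · subst h; omega
        · exact h
      have : i = j := by omega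
      rw [hi, hj, this]
    have hmaps : ∀ h ∈ S, h / q - 1 ∈ Finset.range ⌊ε / (q * |β|)⌋₊ := by
      intro h hh
      obtain ⟨j, hj⟩ := hmul h hh
      have h1 := hbound h hh
      rw [hS, Finset.mem_filter, Finset.mem_Icc] at hh
      have hj0 : 0 < j := by
        rcases Nat.eq_zero_or_pos j with h | h
        · subst h; omega
        · exact h
      rw [Finset.mem_range, hj, Nat.mul_div_cancel_left j hq0]
      have h2 : (j : ℝ) ≤ ε / (q * |β|) := by
        rw [le_div_iff₀ (by positivity)]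
        rw [hj] at h1
        push_cast at h1
        linarith
      have h3 := Nat.le_floor h2
      omega
    have h1 := Finset.card_le_card_of_injOn _ hmaps hinj
    rw [Finset.card_range] at h1
    have h2 : (S.card : ℝ) ≤ ε / (q * |β|) := by
      refine le_trans (by exact_mod_cast h1) (Nat.floor_le (by positivity))
    rw [le_div_iff₀ (by positivity)] at h2
    exact h2
  have h1 : κ * H * (q * |β|) ≤ (S.card : ℝ) * (q * |β|) :=
    mul_le_mul_of_nonneg_right hcount (by positivity)
  linarith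

end

end Pool.Agent.Lib.MP_325d88_nt
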