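import Mathlib
import Pool.Agent.Lib.MP_325d88_nt.Upper2

/-!
# Average of the singular series
-/

namespace Pool.Agent.Lib.MP_325d88_nt

open Finset Pool.Agent.Lib.MP_369a91_nt

noncomputable section

theorem sum_inv_sq (H : ℕ) (hH : 1 ≤ H) : ∑ n ∈ Finset.Ioc 1 H, 1 / (n : ℝ) ^ 2 ≤ 1 - 1 / (H : ℝ) := by
  induction H, hH using Nat.le_induction with
  | base => simp
  | succ n hn ih =>
    rw [← Finset.insert_Ioc_right_eq_Ioc_add_one (by omega), Finset.sum_insert (by simp)]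
    have hn0 : (0 : ℝ) < n := by
      have : 0 < n := by omega
      exact_mod_cast this
    have h1 : 1 / ((n + 1 : ℕ) : ℝ) ^ 2 ≤ 1 / n - 1 / ((n + 1 : ℕ) : ℝ) := by
      push_cast
      have : 1 / (n : ℝ) - 1 / (n + 1) = 1 / (n * (n + 1)) := by field_simp; ring
      rw [this]
      apply one_div_le_one_div_of_le (by positivity)
      nlinarith
    linarith

theorem sing_avg : ∃ C : ℝ, 1 ≤ C ∧ ∀ H : ℕ,
    ∑ h ∈ Finset.Icc 1 H, ((h : ℝ) / Nat.totient h) ^ 2 ≤ C * H := by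
  classical
  refine ⟨Real.exp 8, by rw [← Real.exp_zero]; exact Real.exp_le_exp.2 (by norm_num), fun H => ?_⟩
  rcases Nat.eq_zero_or_pos H with h0 | hH
  · subst h0; simp
  have hPp : ∀ p ∈ PR 1 H, p.Prime := fun p hp => (mem_PR.1 hp).2.2
  set g : ℕ → ℝ := fun p => ((1 - 1 / (p : ℝ))⁻¹) ^ 2 - 1 with hg
  have hp2 : ∀ p ∈ PR 1 H, (2 : ℝ) ≤ p := by
    intro p hp
    exact_mod_cast (hPp p hp).two_le
  have hg0 : ∀ p ∈ PR 1 H, 0 ≤ g p := by
    intro p hp
    have h2 := hp2 p hp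
    rw [hg]
    simp only
    have h3 : (0 : ℝ) < 1 - 1 / p := by
      rw [sub_pos, div_lt_one (by linarith)]; linarith
    have h4 : 1 ≤ (1 - 1 / (p : ℝ))⁻¹ := by
      rw [one_le_inv₀ h3]
      have : 0 ≤ 1 / (p : ℝ) := by positivity
      linarith
    nlinarith
  have hg8 : ∀ p ∈ PR 1 H, g p ≤ 8 / p := by
    intro p hp
    have h2 := hp2 p hp
    have hp0 : (0 : ℝ) < p := by linarith
    rw [hg]
    simp only
    have h3 : 1 / (p : ℝ) ≤ 1 / 2 := one_div_le_one_div_of_le (by norm_num) h2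
    set x := 1 / (p : ℝ) with hx
    have hx0 : 0 < x := by positivity
    have h4 : 8 / (p : ℝ) = 8 * x := by rw [hx]; ring
    rw [h4]
    have h5 : 0 < 1 - x := by linarith
    rw [← one_div, div_pow, one_pow, sub_le_iff_le_add, div_le_iff₀ (by positivity)]
    nlinarith [mul_nonneg hx0.le (sq_nonneg (1 - 2 * x)), mul_pos hx0 hx0]
  have h1 : ∀ h ∈ Finset.Icc 1 H, ((h : ℝ) / Nat.totient h) ^ 2 =
      ∑ D ∈ (PR 1 H).powerset, (∏ p ∈ D, g p) * (if (∏ p ∈ D, p) ∣ h then (1 : ℝ) else 0) := by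
    intro h hh
    rw [Finset.mem_Icc] at hh
    rw [div_totient h (by omega), ← Finset.prod_pow]
    have h2 : h.primeFactors = (PR 1 H).filter (fun p => p ∣ h) := by
      ext p
      rw [Nat.mem_primeFactors, Finset.mem_filter, mem_PR]
      constructor
      · rintro ⟨h3, h4, _⟩
        exact ⟨⟨h3.one_lt, (Nat.le_of_dvd (by omega) h4).trans hh.2, h3⟩, h4⟩
      · rintro ⟨⟨_, _, h3⟩, h4⟩
        exact ⟨h3, h4, by omega⟩
    rw [h2, Finset.prod_filter]
    have h3 : ∏ p ∈ PR 1 H, (if p ∣ h then ((1 - 1 / (p : ℝ))⁻¹) ^ 2 else 1) =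
        ∏ p ∈ PR 1 H, (1 + g p * dv p h) := by
      apply Finset.prod_congr rfl
      intro p _
      unfold dv
      by_cases h4 : p ∣ h
      · rw [if_pos h4, if_pos (by exact_mod_cast h4), hg]; ring
      · rw [if_neg h4, if_neg (by intro h5; apply h4; exact_mod_cast h5)]; ring
    rw [h3, Finset.prod_one_add]
    apply Finset.sum_congr rfl
    intro D hD
    rw [Finset.mem_powerset] at hD
    rw [Finset.prod_mul_distrib, prod_dv D (fun p hp => hPp p (hD hp))]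
    congr 1
    have : (((∏ p ∈ D, p : ℕ) : ℤ) ∣ (h : ℤ)) ↔ (∏ p ∈ D, p) ∣ h := Int.natCast_dvd_natCast
    simp only [this]
  rw [Finset.sum_congr rfl h1, Finset.sum_comm]
  have h2 : ∀ D ∈ (PR 1 H).powerset, ∑ h ∈ Finset.Icc 1 H,
      (∏ p ∈ D, g p) * (if (∏ p ∈ D, p) ∣ h then (1 : ℝ) else 0) ≤ (∏ p ∈ D, g p / p) * H := by
    intro D hD
    rw [Finset.mem_powerset] at hD
    rw [← Finset.mul_sum, Finset.prod_div_distrib]
    have h3 : ∑ h ∈ Finset.Icc 1 H, (if (∏ p ∈ D, p) ∣ h then (1 : ℝ) else 0) ≤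
        H / (∏ p ∈ D, (p : ℝ)) := by
      rw [← Finset.sum_filter, Finset.sum_const, nsmul_eq_mul, mul_one]
      have h4 : ((Finset.Icc 1 H).filter (fun h => (∏ p ∈ D, p) ∣ h)).card = H / (∏ p ∈ D, p) := by
        have := Nat.Ioc_filter_dvd_card_eq_div H (∏ p ∈ D, p)
        rw [← this]
        congr 1
      rw [h4]
      have := @Nat.cast_div_le ℝ _ _ _ H (∏ p ∈ D, p)
      push_cast at this
      exact this
    have h5 : 0 ≤ ∏ p ∈ D, g p := Finset.prod_nonneg (fun p hp => hg0 p (hD hp))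
    calc (∏ p ∈ D, g p) * ∑ h ∈ Finset.Icc 1 H, (if (∏ p ∈ D, p) ∣ h then (1 : ℝ) else 0)
        ≤ (∏ p ∈ D, g p) * (H / (∏ p ∈ D, (p : ℝ))) := mul_le_mul_of_nonneg_left h3 h5
      _ = _ := by ring
  refine (Finset.sum_le_sum h2).trans ?_
  rw [← Finset.sum_mul, ← Finset.prod_one_add]
  apply mul_le_mul_of_nonneg_right _ (by positivity)
  have h6 : ∏ p ∈ PR 1 H, (1 + g p / p) ≤ ∏ p ∈ PR 1 H, Real.exp (8 * (1 / (p : ℝ) ^ 2)) := by
    apply Finset.prod_le_prod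
    · intro p hp
      have := hg0 p hp
      positivity
    · intro p hp
      have h7 := hp2 p hp
      have h8 : g p / p ≤ 8 * (1 / (p : ℝ) ^ 2) := by
        calc g p / p ≤ (8 / p) / p := div_le_div_of_nonneg_right (hg8 p hp) (by linarith)
          _ = 8 * (1 / (p : ℝ) ^ 2) := by field_simp
      have h9 := Real.add_one_le_exp (8 * (1 / (p : ℝ) ^ 2))
      linarith
  refine h6.trans ?_
  rw [← Real.exp_sum]
  apply Real.exp_le_exp.2
  rw [← Finset.mul_sum]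
  have h7 : ∑ p ∈ PR 1 H, 1 / (p : ℝ) ^ 2 ≤ ∑ n ∈ Finset.Ioc 1 H, 1 / (n : ℝ) ^ 2 := by
    unfold PR
    apply Finset.sum_le_sum_of_subset_of_nonneg (Finset.filter_subset _ _)
    intro n _ _
    positivity
  have h8 := sum_inv_sq H hH
  have h9 : (0 : ℝ) ≤ 1 / H := by positivity
  linarith

end

end Pool.Agent.Lib.MP_325d88_nt
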