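import Mathlib
import Pool.Agent.Lib.MP_325d88_nt.Upper3
import Pool.Agent.Lib.MP_325d88_nt.Recur

/-!
# Exponential sums over primes: Buchstab decomposition
-/

namespace Pool.Agent.Lib.MP_325d88_nt

open Finset Pool.Agent.Lib.MP_369a91_nt

noncomputable section

/-- composite numbers with least prime factor in a dyadic block -/
def CP (N P : ℕ) : Finset ℕ :=
  (Finset.range (N + 1)).filter (fun n => 2 ≤ n ∧ ¬ n.Prime ∧ P < n.minFac ∧ n.minFac ≤ 2 * P)

theorem rgh_split (z : ℕ) (hz : 2 ≤ z) (n : ℕ) : rgh 1 z (n : ℤ) =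
    (if n = 1 then 1 else 0) + (if n.Prime ∧ z < n then 1 else 0) +
      (if 2 ≤ n ∧ ¬ n.Prime ∧ z < n.minFac then 1 else 0) := by
  rw [rgh_eq]
  rcases Nat.eq_zero_or_pos n with h0 | h0
  · subst h0
    rw [if_neg, if_neg (by norm_num), if_neg (by norm_num), if_neg (by norm_num)]
    · norm_num
    · push Not
      refine ⟨2, ?_, by simp⟩
      rw [mem_PR]
      exact ⟨by norm_num, hz, Nat.prime_two⟩
  by_cases h1 : n = 1
  · subst h1
    rw [if_pos, if_pos rfl, if_neg (by norm_num), if_neg (by norm_num)]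
    · norm_num
    · intro p hp hd
      rw [mem_PR] at hp
      have : p ∣ 1 := by exact_mod_cast hd
      have := Nat.dvd_one.1 this
      omega
  · have h2 : 2 ≤ n := by omega
    rw [if_neg h1, zero_add]
    have hmf : n.minFac.Prime := Nat.minFac_prime h1
    by_cases h3 : z < n.minFac
    · rw [if_pos]
      · by_cases h4 : n.Prime
        · have h5 : n.minFac = n := h4.minFac_eq
          rw [h5] at h3
          rw [if_pos ⟨h4, h3⟩, if_neg (by tauto)]
          norm_num
        · rw [if_neg (by tauto), if_pos ⟨h2, h4, h3⟩]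
          norm_num
      · intro p hp hd
        rw [mem_PR] at hp
        have h4 : p ∣ n := by exact_mod_cast hd
        have := Nat.minFac_le_of_dvd hp.2.2.two_le h4
        omega
    · push Not at h3
      rw [if_neg]
      · rw [if_neg, if_neg]
        · norm_num
        · rintro ⟨_, _, h6⟩; omega
        · rintro ⟨h4, h5⟩
          have := h4.minFac_eq
          omega
      · push Not
        refine ⟨n.minFac, ?_, ?_⟩
        · rw [mem_PR]
          exact ⟨hmf.one_lt, h3, hmf⟩
        · exact_mod_cast Nat.minFac_dvd n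

theorem tele_ind (z m : ℕ) (J : ℕ) :
    ∑ j ∈ Finset.range J, (if z * 2 ^ j < m ∧ m ≤ 2 * (z * 2 ^ j) then (1 : ℂ) else 0) =
      if z < m ∧ m ≤ z * 2 ^ J then 1 else 0 := by
  induction J with
  | zero =>
    rw [Finset.range_zero, Finset.sum_empty, if_neg]
    rw [pow_zero, mul_one]; omega
  | succ J ih =>
    rw [Finset.sum_range_succ, ih]
    have h1 : z ≤ z * 2 ^ J := Nat.le_mul_of_pos_right z (by positivity)
    have h2 : z * 2 ^ (J + 1) = 2 * (z * 2 ^ J) := by ring
    rw [h2]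
    by_cases h3 : z < m
    · by_cases h4 : m ≤ z * 2 ^ J
      · rw [if_pos ⟨h3, h4⟩, if_neg (by omega), if_pos ⟨h3, by omega⟩, add_zero]
      · by_cases h5 : m ≤ 2 * (z * 2 ^ J)
        · rw [if_neg (by omega), if_pos ⟨by omega, h5⟩, if_pos ⟨h3, h5⟩, zero_add]
        · rw [if_neg (by omega), if_neg (by omega), if_neg (by omega), add_zero]
    · rw [if_neg (by omega), if_neg (by omega), if_neg (by omega), add_zero]

theorem buchstab_split (z N : ℕ) (hz : 2 ≤ z) (θ : ℝ) :
    ‖∑ p ∈ (Finset.range (N + 1)).filter Nat.Prime, ee (p * θ)‖ ≤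
      ‖∑ n ∈ Finset.range (N + 1), (rgh 1 z (n : ℤ) : ℂ) * ee (n * θ)‖ + ((z : ℝ) + 2) +
        ∑ j ∈ Finset.range (Nat.log 2 N + 1), ‖∑ n ∈ CP N (z * 2 ^ j), ee (n * θ)‖ := by
  classical
  set J := Nat.log 2 N + 1 with hJ
  set Comp : ℂ := ∑ n ∈ Finset.range (N + 1),
    (if 2 ≤ n ∧ ¬ n.Prime ∧ z < n.minFac then (1 : ℂ) else 0) * ee (n * θ) with hComp
  have h1 : ∑ n ∈ Finset.range (N + 1), (rgh 1 z (n : ℤ) : ℂ) * ee (n * θ) =
      ∑ n ∈ Finset.range (N + 1), (if n = 1 then (1 : ℂ) else 0) * ee (n * θ) +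
      ∑ n ∈ Finset.range (N + 1), (if n.Prime ∧ z < n then (1 : ℂ) else 0) * ee (n * θ) + Comp := by
    rw [hComp, ← Finset.sum_add_distrib, ← Finset.sum_add_distrib]
    apply Finset.sum_congr rfl
    intro n _
    rw [rgh_split z hz n]
    have e : ∀ (P : Prop) [Decidable P], (((if P then (1 : ℝ) else 0) : ℝ) : ℂ) =
        if P then 1 else 0 := by
      intro P _; split_ifs <;> simp
    rw [Complex.ofReal_add, Complex.ofReal_add, e, e, e]
    ring
  have h2 : ∑ p ∈ (Finset.range (N + 1)).filter Nat.Prime, ee (p * θ) =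
      ∑ n ∈ Finset.range (N + 1), (if n.Prime ∧ z < n then (1 : ℂ) else 0) * ee (n * θ) +
      ∑ n ∈ Finset.range (N + 1), (if n.Prime ∧ n ≤ z then (1 : ℂ) else 0) * ee (n * θ) := by
    rw [Finset.sum_filter, ← Finset.sum_add_distrib]
    apply Finset.sum_congr rfl
    intro n _
    by_cases h3 : n.Prime
    · by_cases h4 : z < n
      · rw [if_pos h3, if_pos ⟨h3, h4⟩, if_neg (by omega)]; ring
      · rw [if_pos h3, if_neg (by tauto), if_pos ⟨h3, by omega⟩]; ring
    · rw [if_neg h3, if_neg (by tauto), if_neg (by tauto)]; ring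
  have h3 : ‖∑ n ∈ Finset.range (N + 1), (if n = 1 then (1 : ℂ) else 0) * ee (n * θ)‖ ≤ 1 := by
    calc _ ≤ ∑ n ∈ Finset.range (N + 1), (if n = 1 then (1 : ℝ) else 0) := by
          refine (norm_sum_le _ _).trans (Finset.sum_le_sum fun n _ => ?_)
          rw [norm_mul, norm_ee, mul_one]
          split_ifs <;> simp
      _ ≤ 1 := by
          rw [Finset.sum_ite_eq']
          split_ifs <;> norm_num
  have h4 : ‖∑ n ∈ Finset.range (N + 1), (if n.Prime ∧ n ≤ z then (1 : ℂ) else 0) * ee (n * θ)‖ ≤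
      z + 1 := by
    calc _ ≤ ∑ n ∈ Finset.range (N + 1), (if n ≤ z then (1 : ℝ) else 0) := by
          refine (norm_sum_le _ _).trans (Finset.sum_le_sum fun n _ => ?_)
          rw [norm_mul, norm_ee, mul_one]
          split_ifs with h5 h6 h6
          · simp
          · exact absurd h5.2 h6
          · simp
          · simp
      _ = (((Finset.range (N + 1)).filter (fun n => n ≤ z)).card : ℝ) := by
          rw [← Finset.sum_filter, Finset.sum_const, nsmul_eq_mul, mul_one]
      _ ≤ ((Finset.range (z + 1)).card : ℝ) := by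
          have : (Finset.range (N + 1)).filter (fun n => n ≤ z) ⊆ Finset.range (z + 1) := by
            intro n hn
            rw [Finset.mem_filter] at hn
            rw [Finset.mem_range]; omega
          exact_mod_cast Finset.card_le_card this
      _ = z + 1 := by rw [Finset.card_range]; push_cast; ring
  have h5 : Comp = ∑ j ∈ Finset.range J, ∑ n ∈ CP N (z * 2 ^ j), ee (n * θ) := by
    unfold CP
    simp_rw [Finset.sum_filter]
    rw [Finset.sum_comm, hComp]
    apply Finset.sum_congr rfl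
    intro n hn
    rw [Finset.mem_range] at hn
    by_cases h6 : 2 ≤ n ∧ ¬ n.Prime
    · have h7 : n.minFac ≤ z * 2 ^ J := by
        have e1 : n.minFac ≤ n := Nat.minFac_le (by omega)
        have e2 : N < 2 ^ J := Nat.lt_pow_succ_log_self (by norm_num) N
        have e3 : 2 ^ J ≤ z * 2 ^ J := Nat.le_mul_of_pos_left _ (by omega)
        omega
      have h8 := tele_ind z n.minFac J
      have e1 : (if 2 ≤ n ∧ ¬ n.Prime ∧ z < n.minFac then (1 : ℂ) else 0) =
          if z < n.minFac ∧ n.minFac ≤ z * 2 ^ J then 1 else 0 := by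
        by_cases h9 : z < n.minFac
        · rw [if_pos ⟨h6.1, h6.2, h9⟩, if_pos ⟨h9, h7⟩]
        · rw [if_neg (by tauto), if_neg (by tauto)]
      rw [e1, ← h8, Finset.sum_mul]
      apply Finset.sum_congr rfl
      intro j _
      by_cases h9 : z * 2 ^ j < n.minFac ∧ n.minFac ≤ 2 * (z * 2 ^ j)
      · rw [if_pos h9, if_pos ⟨h6.1, h6.2, h9⟩, one_mul]
      · rw [if_neg h9, if_neg (by tauto), zero_mul]
    · rw [if_neg (by tauto), zero_mul]
      symm
      apply Finset.sum_eq_zero
      intro j _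
      rw [if_neg (by tauto)]
  have h6 : ‖Comp‖ ≤ ∑ j ∈ Finset.range J, ‖∑ n ∈ CP N (z * 2 ^ j), ee (n * θ)‖ := by
    rw [h5]; exact norm_sum_le _ _
  set S1 := ∑ n ∈ Finset.range (N + 1), (rgh 1 z (n : ℤ) : ℂ) * ee (n * θ) with hS1
  set S2 := ∑ n ∈ Finset.range (N + 1), (if n = 1 then (1 : ℂ) else 0) * ee (n * θ) with hS2
  set S3 := ∑ n ∈ Finset.range (N + 1), (if n.Prime ∧ z < n then (1 : ℂ) else 0) * ee (n * θ) with hS3
  set S4 := ∑ n ∈ Finset.range (N + 1), (if n.Prime ∧ n ≤ z then (1 : ℂ) else 0) * ee (n * θ) with hS4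
  have h7 : S3 + S4 = S1 - S2 - Comp + S4 := by rw [h1]; ring
  rw [h2, h7]
  calc ‖S1 - S2 - Comp + S4‖ ≤ ‖S1 - S2 - Comp‖ + ‖S4‖ := norm_add_le _ _
    _ ≤ ‖S1 - S2‖ + ‖Comp‖ + ‖S4‖ := by
        have := norm_sub_le (S1 - S2) Comp; linarith
    _ ≤ ‖S1‖ + ‖S2‖ + ‖Comp‖ + ‖S4‖ := by
        have := norm_sub_le S1 S2; linarith
    _ ≤ _ := by linarith

/-- primes in the dyadic block -/
def BP (P : ℕ) : Finset ℕ := (Finset.Ioc P (2 * P)).filter Nat.Prime

/-- all pairs -/
def PA (N P : ℕ) : Finset (ℕ × ℕ) :=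
  (BP P ×ˢ Finset.Icc 2 N).filter (fun x => x.1 * x.2 ≤ N ∧ P < x.2.minFac)

theorem CP_sum (N P : ℕ) (f : ℕ → ℂ) :
    ∑ n ∈ CP N P, f n = ∑ x ∈ (PA N P).filter (fun x => x.1 ≤ x.2.minFac), f (x.1 * x.2) := by
  classical
  symm
  apply Finset.sum_nbij' (fun x : ℕ × ℕ => x.1 * x.2) (fun n => (n.minFac, n / n.minFac))
  · intro x hx
    rw [Finset.mem_filter, PA, Finset.mem_filter, Finset.mem_product, BP, Finset.mem_filter,
      Finset.mem_Ioc, Finset.mem_Icc] at hx
    obtain ⟨⟨⟨⟨⟨h1, h2⟩, h3⟩, h4, h5⟩, h6, h7⟩, h8⟩ := hx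
    have hmf : (x.1 * x.2).minFac = x.1 := by
      apply le_antisymm
      · exact Nat.minFac_le_of_dvd h3.two_le (Dvd.intro _ rfl)
      · have h10 := (Nat.le_minFac (m := x.1) (n := x.1 * x.2)).2 (by
          intro q hq hqd
          rcases (Nat.Prime.dvd_mul hq).1 hqd with h9 | h9
          · exact ((Nat.prime_dvd_prime_iff_eq hq h3).1 h9).ge
          · exact h8.trans (Nat.minFac_le_of_dvd hq.two_le h9))
        rcases h10 with h10 | h10
        · exfalso
          have := h3.two_le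
          nlinarith
        · exact h10
    rw [CP, Finset.mem_filter, Finset.mem_range, hmf]
    refine ⟨by omega, ?_, ?_, h1, h2⟩
    · have := h3.two_le
      nlinarith
    · exact Nat.not_prime_mul h3.one_lt.ne' (by omega)
  · intro n hn
    rw [CP, Finset.mem_filter, Finset.mem_range] at hn
    obtain ⟨h1, h2, h3, h4, h5⟩ := hn
    have hmf : n.minFac.Prime := Nat.minFac_prime (by omega)
    have hdvd := Nat.minFac_dvd n
    have hmul : n.minFac * (n / n.minFac) = n := Nat.mul_div_cancel' hdvd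
    have hge2 : 2 ≤ n / n.minFac := by
      by_contra hcon
      obtain ⟨k, hk⟩ : ∃ k, k = n / n.minFac := ⟨_, rfl⟩
      rw [← hk] at hcon hmul
      have h6 : k = 0 ∨ k = 1 := by omega
      rcases h6 with h6 | h6
      · rw [h6] at hmul; omega
      · rw [h6, mul_one] at hmul
        rw [hmul] at hmf
        exact h3 hmf
    have hle : n.minFac ≤ (n / n.minFac).minFac := by
      have h6 : (n / n.minFac).minFac ∣ n := dvd_trans (Nat.minFac_dvd _) (Nat.div_dvd_of_dvd hdvd)
      have hne : n / n.minFac ≠ 1 := by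
        intro h
        rw [h] at hge2
        norm_num at hge2
      exact Nat.minFac_le_of_dvd (Nat.minFac_prime hne).two_le h6
    rw [Finset.mem_filter, PA, Finset.mem_filter, Finset.mem_product, BP, Finset.mem_filter,
      Finset.mem_Ioc, Finset.mem_Icc]
    simp only
    refine ⟨⟨⟨⟨⟨h4, h5⟩, hmf⟩, hge2, ?_⟩, ?_, lt_of_lt_of_le h4 hle⟩, hle⟩
    · exact (Nat.div_le_self _ _).trans (by omega)
    · rw [hmul]; omega
  · intro x hx
    rw [Finset.mem_filter, PA, Finset.mem_filter, Finset.mem_product, BP, Finset.mem_filter,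
      Finset.mem_Ioc, Finset.mem_Icc] at hx
    obtain ⟨⟨⟨⟨⟨h1, h2⟩, h3⟩, h4, h5⟩, h6, h7⟩, h8⟩ := hx
    have hmf : (x.1 * x.2).minFac = x.1 := by
      apply le_antisymm
      · exact Nat.minFac_le_of_dvd h3.two_le (Dvd.intro _ rfl)
      · have h10 := (Nat.le_minFac (m := x.1) (n := x.1 * x.2)).2 (by
          intro q hq hqd
          rcases (Nat.Prime.dvd_mul hq).1 hqd with h9 | h9
          · exact ((Nat.prime_dvd_prime_iff_eq hq h3).1 h9).ge
          · exact h8.trans (Nat.minFac_le_of_dvd hq.two_le h9))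
        rcases h10 with h10 | h10
        · exfalso
          have := h3.two_le
          nlinarith
        · exact h10
    simp only [hmf]
    rw [Nat.mul_div_cancel_left _ h3.pos]
  · intro n hn
    exact Nat.mul_div_cancel' (Nat.minFac_dvd n)
  · intro x _
    rfl

end

end Pool.Agent.Lib.MP_325d88_nt
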