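import Mathlib
import Pool.Agent.Lib.MP_325d88_nt.Minor1

/-!
# Exponential sums over primes: Type II estimates
-/

namespace Pool.Agent.Lib.MP_325d88_nt

open Finset Pool.Agent.Lib.MP_369a91_nt

noncomputable section

theorem mem_BP {P p : ℕ} : p ∈ BP P ↔ P < p ∧ p ≤ 2 * P ∧ p.Prime := by
  rw [BP, Finset.mem_filter, Finset.mem_Ioc, and_assoc]

theorem mem_PA {N P : ℕ} {x : ℕ × ℕ} : x ∈ PA N P ↔
    x.1 ∈ BP P ∧ 2 ≤ x.2 ∧ x.2 ≤ N ∧ x.1 * x.2 ≤ N ∧ P < x.2.minFac := by
  rw [PA, Finset.mem_filter, Finset.mem_product, Finset.mem_Icc]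
  tauto

theorem PA_empty {N P : ℕ} (h : N < P ^ 2) : PA N P = ∅ := by
  rw [Finset.eq_empty_iff_forall_notMem]
  intro x hx
  rw [mem_PA, mem_BP] at hx
  obtain ⟨⟨h1, h2, h3⟩, h4, h5, h6, h7⟩ := hx
  have h8 : x.2.minFac ≤ x.2 := Nat.minFac_le (by omega)
  have h9 : P * P ≤ x.1 * x.2 := Nat.mul_le_mul h1.le (h7.le.trans h8)
  nlinarith

/-- the exceptional pairs -/
theorem pairs2_card (N P z : ℕ) (hz : 2 ≤ z) (hzP : z ≤ P) :
    (((PA N P).filter (fun x => ¬ x.1 ≤ x.2.minFac)).card : ℝ) ≤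
      ((BP P).card : ℝ) ^ 2 * ∑ m ∈ Finset.Icc 1 (N / P ^ 2), rgh 1 z (m : ℤ) := by
  classical
  set T := (Finset.Icc 1 (N / P ^ 2)).filter (fun m : ℕ => ∀ p ∈ PR 1 z, ¬ ((p : ℤ) ∣ (m : ℤ))) with hT
  have hTc : ∑ m ∈ Finset.Icc 1 (N / P ^ 2), rgh 1 z (m : ℤ) = (T.card : ℝ) := by
    rw [hT, Finset.card_filter]
    push_cast
    apply Finset.sum_congr rfl
    intro m _
    rw [rgh_eq]
  rw [hTc]
  have h1 : ((PA N P).filter (fun x => ¬ x.1 ≤ x.2.minFac)).card ≤
      ((BP P ×ˢ BP P) ×ˢ T).card := by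
    apply Finset.card_le_card_of_injOn (fun x => ((x.1, x.2.minFac), x.2 / x.2.minFac))
    · intro x hx
      rw [Finset.mem_coe, Finset.mem_filter, mem_PA, mem_BP] at hx
      obtain ⟨⟨⟨h1, h2, h3⟩, h4, h5, h6, h7⟩, h8⟩ := hx
      push Not at h8
      have hmf : x.2.minFac.Prime := Nat.minFac_prime (by omega)
      have hmul : x.2.minFac * (x.2 / x.2.minFac) = x.2 := Nat.mul_div_cancel' (Nat.minFac_dvd _)
      obtain ⟨k, hk⟩ : ∃ k, k = x.2 / x.2.minFac := ⟨_, rfl⟩
      rw [← hk] at hmul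
      have hk0 : 0 < k := by
        rcases Nat.eq_zero_or_pos k with h | h
        · rw [h] at hmul; omega
        · exact h
      rw [Finset.mem_coe, Finset.mem_product, Finset.mem_product, mem_BP, mem_BP, hT,
        Finset.mem_filter, Finset.mem_Icc]
      simp only
      refine ⟨⟨⟨h1, h2, h3⟩, h7, by omega, hmf⟩, ⟨by rw [← hk]; exact hk0, ?_⟩, ?_⟩
      · have hPpos : 0 < P := by omega
        rw [← hk, Nat.le_div_iff_mul_le (by positivity)]
        calc k * P ^ 2 = (P * P) * k := by ring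
          _ ≤ (x.1 * x.2.minFac) * k := Nat.mul_le_mul_right _ (Nat.mul_le_mul h1.le h7.le)
          _ = x.1 * x.2 := by rw [mul_assoc, hmul]
          _ ≤ N := h6
      · rw [← hk]
        intro q hq hqd
        rw [mem_PR] at hq
        have h9 : q ∣ k := by exact_mod_cast hqd
        have h10 : q ∣ x.2 := h9.trans (Dvd.intro_left _ hmul)
        have := Nat.minFac_le_of_dvd hq.2.2.two_le h10
        omega
    · intro x hx y hy hxy
      simp only [Prod.mk.injEq] at hxy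
      obtain ⟨⟨h1, h2⟩, h3⟩ := hxy
      have hx2 : x.2.minFac * (x.2 / x.2.minFac) = x.2 := Nat.mul_div_cancel' (Nat.minFac_dvd _)
      have hy2 : y.2.minFac * (y.2 / y.2.minFac) = y.2 := Nat.mul_div_cancel' (Nat.minFac_dvd _)
      have : x.2 = y.2 := by rw [← hx2, ← hy2, h3, h2]
      exact Prod.ext h1 this
  have h2 : (((PA N P).filter (fun x => ¬ x.1 ≤ x.2.minFac)).card : ℝ) ≤
      (((BP P ×ˢ BP P) ×ˢ T).card : ℝ) := by exact_mod_cast h1
  rw [Finset.card_product, Finset.card_product] at h2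
  push_cast at h2
  rw [pow_two]
  exact h2

theorem cs_block (N P z : ℕ) (hP : 1 ≤ P) (hz : 2 ≤ z) (hzP : z ≤ P) (θ : ℝ) :
    ‖∑ x ∈ PA N P, ee (((x.1 * x.2 : ℕ) : ℝ) * θ)‖ ^ 2 ≤
      (∑ m ∈ Finset.Icc 1 (N / P), rgh 1 z (m : ℤ)) *
      ∑ p ∈ BP P, ∑ p' ∈ BP P, ‖∑ m ∈ Finset.range (N / (max p p') + 1),
        (rgh 1 z (m : ℤ) : ℂ) * ee (m * (((p : ℝ) - p') * θ))‖ := by
  classical
  set c : ℕ → ℂ := fun m => ∑ p ∈ BP P, (if p * m ≤ N then ee (((p * m : ℕ) : ℝ) * θ) else 0) with hc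
  have h1 : ∑ x ∈ PA N P, ee (((x.1 * x.2 : ℕ) : ℝ) * θ) =
      ∑ m ∈ Finset.Icc 2 N, (if P < m.minFac then (1 : ℂ) else 0) * c m := by
    unfold PA
    rw [Finset.sum_filter, Finset.sum_product_right]
    apply Finset.sum_congr rfl
    intro m _
    rw [hc]
    simp only
    rw [Finset.mul_sum]
    apply Finset.sum_congr rfl
    intro p _
    by_cases h2 : p * m ≤ N
    · by_cases h3 : P < m.minFac
      · rw [if_pos ⟨h2, h3⟩, if_pos h3, if_pos h2, one_mul]
      · rw [if_neg (by tauto), if_neg h3, zero_mul]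
    · rw [if_neg (by tauto), if_neg h2, mul_zero]
  have h2 : ‖∑ x ∈ PA N P, ee (((x.1 * x.2 : ℕ) : ℝ) * θ)‖ ≤
      ∑ m ∈ Finset.Icc 1 (N / P), rgh 1 z (m : ℤ) * ‖c m‖ := by
    rw [h1]
    refine (norm_sum_le _ _).trans ?_
    have h3 : ∀ m ∈ Finset.Icc 2 N, ‖(if P < m.minFac then (1 : ℂ) else 0) * c m‖ ≤
        if m ≤ N / P then rgh 1 z (m : ℤ) * ‖c m‖ else 0 := by
      intro m hm
      rw [Finset.mem_Icc] at hm
      rw [norm_mul]
      split_ifs with h4 h5 h5
      · rw [norm_one]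
        apply mul_le_mul_of_nonneg_right _ (norm_nonneg _)
        rw [rgh_eq, if_pos]
        intro q hq hqd
        rw [mem_PR] at hq
        have h9 : q ∣ m := by exact_mod_cast hqd
        have := Nat.minFac_le_of_dvd hq.2.2.two_le h9
        omega
      · have h6 : c m = 0 := by
          rw [hc]
          simp only
          apply Finset.sum_eq_zero
          intro p hp
          rw [if_neg]
          intro h7
          apply h5
          rw [Nat.le_div_iff_mul_le (by omega)]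
          rw [mem_BP] at hp
          have : m * P ≤ m * p := Nat.mul_le_mul_left m hp.1.le
          nlinarith
        rw [h6]; simp
      · rw [norm_zero, zero_mul]
        exact mul_nonneg (rgh_nonneg _ _ _) (norm_nonneg _)
      · rw [norm_zero, zero_mul]
    refine (Finset.sum_le_sum h3).trans ?_
    rw [← Finset.sum_filter]
    apply Finset.sum_le_sum_of_subset_of_nonneg
    · intro m hm
      rw [Finset.mem_filter, Finset.mem_Icc] at hm
      rw [Finset.mem_Icc]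
      exact ⟨by omega, hm.2⟩
    · intro m _ _
      exact mul_nonneg (rgh_nonneg _ _ _) (norm_nonneg _)
  have hr01 : ∀ m : ℤ, rgh 1 z m * rgh 1 z m = rgh 1 z m := by
    intro m
    rw [rgh_eq]
    split_ifs <;> norm_num
  have h3 : (∑ m ∈ Finset.Icc 1 (N / P), rgh 1 z (m : ℤ) * ‖c m‖) ^ 2 ≤
      (∑ m ∈ Finset.Icc 1 (N / P), rgh 1 z (m : ℤ)) *
      ∑ m ∈ Finset.Icc 1 (N / P), rgh 1 z (m : ℤ) * ‖c m‖ ^ 2 := by
    have h4 := Finset.sum_mul_sq_le_sq_mul_sq (Finset.Icc 1 (N / P))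
      (fun m : ℕ => rgh 1 z (m : ℤ)) (fun m : ℕ => rgh 1 z (m : ℤ) * ‖c m‖)
    have e1 : ∑ m ∈ Finset.Icc 1 (N / P), rgh 1 z (m : ℤ) * (rgh 1 z (m : ℤ) * ‖c m‖) =
        ∑ m ∈ Finset.Icc 1 (N / P), rgh 1 z (m : ℤ) * ‖c m‖ := by
      apply Finset.sum_congr rfl
      intro m _
      rw [← mul_assoc, hr01]
    have e2 : ∑ m ∈ Finset.Icc 1 (N / P), rgh 1 z (m : ℤ) ^ 2 =
        ∑ m ∈ Finset.Icc 1 (N / P), rgh 1 z (m : ℤ) := by
      apply Finset.sum_congr rfl
      intro m _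
      rw [pow_two, hr01]
    have e3 : ∑ m ∈ Finset.Icc 1 (N / P), (rgh 1 z (m : ℤ) * ‖c m‖) ^ 2 =
        ∑ m ∈ Finset.Icc 1 (N / P), rgh 1 z (m : ℤ) * ‖c m‖ ^ 2 := by
      apply Finset.sum_congr rfl
      intro m _
      rw [mul_pow, pow_two (rgh 1 z (m : ℤ)), hr01]
    rw [e1, e2, e3] at h4
    exact h4
  have h4 : ∑ m ∈ Finset.Icc 1 (N / P), rgh 1 z (m : ℤ) * ‖c m‖ ^ 2 ≤
      ∑ p ∈ BP P, ∑ p' ∈ BP P, ‖∑ m ∈ Finset.range (N / (max p p') + 1),
        (rgh 1 z (m : ℤ) : ℂ) * ee (m * (((p : ℝ) - p') * θ))‖ := by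
    have h5 : ((∑ m ∈ Finset.Icc 1 (N / P), rgh 1 z (m : ℤ) * ‖c m‖ ^ 2 : ℝ) : ℂ) =
        ∑ p ∈ BP P, ∑ p' ∈ BP P, ∑ m ∈ Finset.range (N / (max p p') + 1),
        (rgh 1 z (m : ℤ) : ℂ) * ee (m * (((p : ℝ) - p') * θ)) := by
      push_cast
      have h6 : ∀ m : ℕ, ((‖c m‖ : ℂ)) ^ 2 = ∑ p ∈ BP P, ∑ p' ∈ BP P,
          (if p * m ≤ N ∧ p' * m ≤ N then ee (m * (((p : ℝ) - p') * θ)) else 0) := by
        intro m
        have h7 : ((‖c m‖ : ℂ)) ^ 2 = c m * (starRingEnd ℂ) (c m) := by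
          rw [Complex.mul_conj, Complex.normSq_eq_norm_sq]
          push_cast
          rfl
        rw [h7, hc]
        simp only
        rw [map_sum, Finset.sum_mul_sum]
        apply Finset.sum_congr rfl
        intro p _
        apply Finset.sum_congr rfl
        intro p' _
        by_cases h8 : p * m ≤ N
        · by_cases h9 : p' * m ≤ N
          · rw [if_pos h8, if_pos h9, if_pos ⟨h8, h9⟩, ← ee_neg, ← ee_add]
            congr 1
            push_cast
            ring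
          · rw [if_neg h9, if_neg (show ¬ (p * m ≤ N ∧ p' * m ≤ N) from fun h => h9 h.2),
              map_zero, mul_zero]
        · rw [if_neg h8, if_neg (show ¬ (p * m ≤ N ∧ p' * m ≤ N) from fun h => h8 h.1), zero_mul]
      simp_rw [h6, Finset.mul_sum]
      rw [Finset.sum_comm]
      apply Finset.sum_congr rfl
      intro p hp
      rw [Finset.sum_comm]
      apply Finset.sum_congr rfl
      intro p' hp'
      rw [mem_BP] at hp hp'
      have h7 : Finset.range (N / (max p p') + 1) =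
          insert 0 ((Finset.Icc 1 (N / P)).filter (fun m => p * m ≤ N ∧ p' * m ≤ N)) := by
        ext m
        rw [Finset.mem_insert, Finset.mem_filter, Finset.mem_Icc, Finset.mem_range,
          Nat.lt_succ_iff, Nat.le_div_iff_mul_le (by omega)]
        constructor
        · intro h8
          by_cases h9 : m = 0
          · left; exact h9
          · right
            have e1 : m * p ≤ m * max p p' := Nat.mul_le_mul_left _ (le_max_left _ _)
            have e2 : m * p' ≤ m * max p p' := Nat.mul_le_mul_left _ (le_max_right _ _)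
            refine ⟨⟨by omega, ?_⟩, by nlinarith, by nlinarith⟩
            rw [Nat.le_div_iff_mul_le (by omega)]
            have e3 : m * P ≤ m * p := Nat.mul_le_mul_left _ hp.1.le
            omega
        · rintro (h8 | ⟨_, h8, h9⟩)
          · rw [h8, zero_mul]; omega
          · rcases le_total p p' with h10 | h10
            · rw [max_eq_right h10, mul_comm]; exact h9
            · rw [max_eq_left h10, mul_comm]; exact h8
      rw [h7, Finset.sum_insert (by simp)]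
      have h8 : rgh 1 z ((0 : ℕ) : ℤ) = 0 := by
        rw [rgh_split z hz 0]
        norm_num
      rw [h8, Finset.sum_filter]
      simp only [Complex.ofReal_zero, zero_mul, zero_add]
      apply Finset.sum_congr rfl
      intro m _
      split_ifs <;> simp
    have h6 : ∑ m ∈ Finset.Icc 1 (N / P), rgh 1 z (m : ℤ) * ‖c m‖ ^ 2 =
        ‖((∑ m ∈ Finset.Icc 1 (N / P), rgh 1 z (m : ℤ) * ‖c m‖ ^ 2 : ℝ) : ℂ)‖ := by
      rw [Complex.norm_real, Real.norm_of_nonneg]
      apply Finset.sum_nonneg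
      intro m _
      exact mul_nonneg (rgh_nonneg _ _ _) (by positivity)
    rw [h6, h5]
    refine (norm_sum_le _ _).trans (Finset.sum_le_sum fun p _ => ?_)
    exact norm_sum_le _ _
  calc ‖∑ x ∈ PA N P, ee (((x.1 * x.2 : ℕ) : ℝ) * θ)‖ ^ 2
      ≤ (∑ m ∈ Finset.Icc 1 (N / P), rgh 1 z (m : ℤ) * ‖c m‖) ^ 2 :=
        pow_le_pow_left₀ (norm_nonneg _) h2 2
    _ ≤ _ := h3
    _ ≤ _ := by
        apply mul_le_mul_of_nonneg_left h4
        exact Finset.sum_nonneg (fun m _ => rgh_nonneg _ _ _)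

end

end Pool.Agent.Lib.MP_325d88_nt
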