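import Mathlib
import Pool.Agent.Lib.MP_325d88_nt.Minor2

/-!
# Exponential sums over primes: counting exceptional pairs
-/

namespace Pool.Agent.Lib.MP_325d88_nt

open Finset Pool.Agent.Lib.MP_369a91_nt

noncomputable section

theorem bad_pairs : ∃ C : ℝ, 1 ≤ C ∧ ∃ P0 : ℕ, ∀ P : ℕ, P0 ≤ P → ∀ Hs : Finset ℕ,
    Hs ⊆ Finset.Icc 1 P →
    (((BP P ×ˢ BP P).filter (fun x => x.1 = x.2 ∨ x.1 - x.2 ∈ Hs ∨ x.2 - x.1 ∈ Hs)).card : ℝ) ≤
      (BP P).card + C * (P / (Real.log P) ^ 2) * Real.sqrt (Hs.card * P) := by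
  classical
  obtain ⟨C1, hC1, P0, hps⟩ := pair_sieve
  obtain ⟨C2, hC2, hav⟩ := sing_avg
  refine ⟨2 * C1 * C2, by nlinarith, P0, ?_⟩
  intro P hP Hs hHs
  have hone : ∀ h ∈ Hs, 1 ≤ h := fun h hh => (Finset.mem_Icc.1 (hHs hh)).1
  -- one-sided count
  set S := (BP P ×ˢ BP P).filter (fun x => x.2 - x.1 ∈ Hs) with hS
  have hScard : (S.card : ℝ) ≤ ∑ h ∈ Hs, C1 * ((h : ℝ) / Nat.totient h) * (P / (Real.log P) ^ 2) := by
    have h1 : S.card = ∑ h ∈ Hs, (S.filter (fun x => x.2 - x.1 = h)).card := by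
      apply Finset.card_eq_sum_card_fiberwise
      intro x hx
      rw [Finset.mem_coe, hS, Finset.mem_filter] at hx
      exact hx.2
    rw [h1]
    push_cast
    apply Finset.sum_le_sum
    intro h hh
    refine le_trans ?_ (hps P hP h (hone h hh))
    have h2 : (S.filter (fun x => x.2 - x.1 = h)).card ≤
        ((Finset.Ioc P (2 * P)).filter (fun p => p.Prime ∧ (p + h).Prime)).card := by
      apply Finset.card_le_card_of_injOn Prod.fst
      · intro x hx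
        rw [Finset.mem_coe, Finset.mem_filter, hS, Finset.mem_filter, Finset.mem_product, mem_BP,
          mem_BP] at hx
        obtain ⟨⟨⟨⟨h3, h4, h5⟩, h6, h7, h8⟩, h9⟩, h10⟩ := hx
        rw [Finset.mem_coe, Finset.mem_filter, Finset.mem_Ioc]
        have := hone h hh
        have e : x.1 + h = x.2 := by omega
        rw [e]
        exact ⟨⟨h3, h4⟩, h5, h8⟩
      · intro x hx y hy hxy
        rw [Finset.mem_coe, Finset.mem_filter] at hx hy
        have := hone h hh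
        have e : x.2 = y.2 := by omega
        exact Prod.ext hxy e
    exact_mod_cast h2
  have hS2 : (S.card : ℝ) ≤ C1 * C2 * (P / (Real.log P) ^ 2) * Real.sqrt (Hs.card * P) := by
    refine hScard.trans ?_
    have h1 : ∑ h ∈ Hs, C1 * ((h : ℝ) / Nat.totient h) * (P / (Real.log P) ^ 2) =
        C1 * (P / (Real.log P) ^ 2) * ∑ h ∈ Hs, ((h : ℝ) / Nat.totient h) := by
      rw [Finset.mul_sum]
      apply Finset.sum_congr rfl
      intro h _
      ring
    rw [h1]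
    have h2 : (∑ h ∈ Hs, ((h : ℝ) / Nat.totient h)) ^ 2 ≤ Hs.card * ∑ h ∈ Hs, ((h : ℝ) / Nat.totient h) ^ 2 :=
      sq_sum_le_card_mul_sum_sq
    have h3 : ∑ h ∈ Hs, ((h : ℝ) / Nat.totient h) ^ 2 ≤ C2 * P := by
      refine le_trans ?_ (hav P)
      apply Finset.sum_le_sum_of_subset_of_nonneg hHs
      intro h _ _
      positivity
    have h4 : ∑ h ∈ Hs, ((h : ℝ) / Nat.totient h) ≤ C2 * Real.sqrt (Hs.card * P) := by
      apply le_trans (le_abs_self _)
      apply abs_le_of_sq_le_sq _ (by positivity)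
      rw [mul_pow, Real.sq_sqrt (by positivity)]
      calc (∑ h ∈ Hs, ((h : ℝ) / Nat.totient h)) ^ 2 ≤ Hs.card * (C2 * P) :=
            h2.trans (mul_le_mul_of_nonneg_left h3 (by positivity))
        _ = C2 * (Hs.card * P) := by ring
        _ ≤ C2 ^ 2 * (Hs.card * P) := by
            apply mul_le_mul_of_nonneg_right _ (by positivity)
            nlinarith
    calc C1 * (P / (Real.log P) ^ 2) * ∑ h ∈ Hs, ((h : ℝ) / Nat.totient h)
        ≤ C1 * (P / (Real.log P) ^ 2) * (C2 * Real.sqrt (Hs.card * P)) :=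
          mul_le_mul_of_nonneg_left h4 (by positivity)
      _ = _ := by ring
  -- reflect
  have hrefl : (((BP P ×ˢ BP P).filter (fun x => x.1 - x.2 ∈ Hs)).card : ℝ) ≤ S.card := by
    have : ((BP P ×ˢ BP P).filter (fun x => x.1 - x.2 ∈ Hs)).card ≤ S.card := by
      apply Finset.card_le_card_of_injOn Prod.swap
      · intro x hx
        rw [Finset.mem_coe, Finset.mem_filter, Finset.mem_product] at hx
        rw [Finset.mem_coe, hS, Finset.mem_filter, Finset.mem_product]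
        exact ⟨⟨hx.1.2, hx.1.1⟩, hx.2⟩
      · exact Prod.swap_injective.injOn
    exact_mod_cast this
  have hdiag : (((BP P ×ˢ BP P).filter (fun x => x.1 = x.2)).card : ℝ) ≤ (BP P).card := by
    have : ((BP P ×ˢ BP P).filter (fun x => x.1 = x.2)).card ≤ (BP P).card := by
      apply Finset.card_le_card_of_injOn Prod.fst
      · intro x hx
        rw [Finset.mem_coe, Finset.mem_filter, Finset.mem_product] at hx
        exact hx.1.1
      · intro x hx y hy hxy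
        rw [Finset.mem_coe, Finset.mem_filter] at hx hy
        exact Prod.ext hxy (by rw [← hx.2, ← hy.2, hxy])
    exact_mod_cast this
  have hunion : ((BP P ×ˢ BP P).filter (fun x => x.1 = x.2 ∨ x.1 - x.2 ∈ Hs ∨ x.2 - x.1 ∈ Hs)) =
      ((BP P ×ˢ BP P).filter (fun x => x.1 = x.2)) ∪
      (((BP P ×ˢ BP P).filter (fun x => x.1 - x.2 ∈ Hs)) ∪ S) := by
    rw [hS, ← Finset.filter_or, ← Finset.filter_or]
  rw [hunion]
  have h1 := Finset.card_union_le ((BP P ×ˢ BP P).filter (fun x => x.1 = x.2))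
    (((BP P ×ˢ BP P).filter (fun x => x.1 - x.2 ∈ Hs)) ∪ S)
  have h2 := Finset.card_union_le ((BP P ×ˢ BP P).filter (fun x => x.1 - x.2 ∈ Hs)) S
  have h3 : ((((BP P ×ˢ BP P).filter (fun x => x.1 = x.2)) ∪
      (((BP P ×ˢ BP P).filter (fun x => x.1 - x.2 ∈ Hs)) ∪ S)).card : ℝ) ≤
      (((BP P ×ˢ BP P).filter (fun x => x.1 = x.2)).card : ℝ) +
      ((((BP P ×ˢ BP P).filter (fun x => x.1 - x.2 ∈ Hs)).card : ℝ) + S.card) := by
    have := h1.trans (Nat.add_le_add_left h2 _)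
    exact_mod_cast this
  have h4 : 2 * C1 * C2 * (P / (Real.log P) ^ 2) * Real.sqrt (Hs.card * P) =
      C1 * C2 * (P / (Real.log P) ^ 2) * Real.sqrt (Hs.card * P) +
      C1 * C2 * (P / (Real.log P) ^ 2) * Real.sqrt (Hs.card * P) := by ring
  rw [h4]
  linarith

/-- the set of bad differences -/
def HS (P Q : ℕ) (ε θ : ℝ) : Finset ℕ :=
  @Finset.filter ℕ (fun h : ℕ => ∃ q ∈ Finset.Icc 1 Q, nd ((q : ℝ) * (h * θ)) ≤ ε)
    (Classical.decPred _) (Finset.Icc 1 P)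

theorem mem_HS {P Q : ℕ} {ε θ : ℝ} {h : ℕ} : h ∈ HS P Q ε θ ↔
    (1 ≤ h ∧ h ≤ P) ∧ ∃ q ∈ Finset.Icc 1 Q, nd ((q : ℝ) * (h * θ)) ≤ ε := by
  unfold HS
  refine (@Finset.mem_filter ℕ _ (Classical.decPred _) _ _).trans ?_
  rw [Finset.mem_Icc]

theorem hs_small (N P Q : ℕ) (κ θ : ℝ) (hκ : 0 < κ) (hκ1 : κ ≤ 1) (hQ : 0 < Q) (hN : 0 < N)
    (hPN : P ^ 2 ≤ N) (hP : 64 * Q / κ ≤ P) (hNb : 128 * (Q : ℝ) ^ 2 / κ ≤ Real.sqrt N)
    (Qs : ℕ) (hQs : 8 * (Q : ℝ) ^ 2 / κ ≤ Qs)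
    (hθ : ∀ q : ℕ, 1 ≤ q → q ≤ Qs → (Qs : ℝ) / N < nd (q * θ)) :
    ((HS P Q (2 * Q * P / N) θ).card : ℝ) ≤ κ * P := by
  classical
  by_contra hcon
  push Not at hcon
  set ε : ℝ := 2 * Q * P / N with hε
  have hQr : (0 : ℝ) < Q := by exact_mod_cast hQ
  have hQ1 : (1 : ℝ) ≤ Q := by exact_mod_cast hQ
  have hNr : (0 : ℝ) < N := by exact_mod_cast hN
  have hPr : (0 : ℝ) < P := lt_of_lt_of_le (by positivity) hP
  have hP1 : 1 ≤ P := by exact_mod_cast hPr
  set Hq : ℕ → Finset ℕ := fun q => (Finset.Icc 1 P).filter (fun h : ℕ => nd (h * ((q : ℝ) * θ)) ≤ ε)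
    with hHq
  have hsub : HS P Q ε θ ⊆ (Finset.Icc 1 Q).biUnion Hq := by
    intro h hh
    rw [mem_HS] at hh
    obtain ⟨h1, q, hq, h2⟩ := hh
    rw [Finset.mem_biUnion]
    refine ⟨q, hq, ?_⟩
    rw [hHq]
    simp only
    rw [Finset.mem_filter, Finset.mem_Icc]
    refine ⟨h1, ?_⟩
    have e : (h : ℝ) * ((q : ℝ) * θ) = (q : ℝ) * (h * θ) := by ring
    rw [e]; exact h2
  have hcard : ((HS P Q ε θ).card : ℝ) ≤ ∑ q ∈ Finset.Icc 1 Q, ((Hq q).card : ℝ) := by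
    have h1 := (Finset.card_le_card hsub).trans Finset.card_biUnion_le
    exact_mod_cast h1
  have hex : ∃ q ∈ Finset.Icc 1 Q, κ / Q * P ≤ ((Hq q).card : ℝ) := by
    by_contra hno
    push Not at hno
    have h1 : ∑ q ∈ Finset.Icc 1 Q, ((Hq q).card : ℝ) ≤ ∑ q ∈ Finset.Icc 1 Q, κ / Q * P :=
      Finset.sum_le_sum (fun q hq => (hno q hq).le)
    rw [Finset.sum_const, Nat.card_Icc, nsmul_eq_mul, Nat.add_sub_cancel] at h1
    have h2 : (Q : ℝ) * (κ / Q * P) = κ * P := by field_simp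
    rw [h2] at h1
    linarith
  obtain ⟨q, hq, hqc⟩ := hex
  rw [Finset.mem_Icc] at hq
  have hPsq : (P : ℝ) ≤ Real.sqrt N := by
    apply Real.le_sqrt_of_sq_le
    exact_mod_cast hPN
  have hsqN : Real.sqrt N * Real.sqrt N = N := Real.mul_self_sqrt hNr.le
  have hsq0 : 0 < Real.sqrt N := Real.sqrt_pos.2 hNr
  have hε0 : 0 < ε := by rw [hε]; positivity
  have hκQ : 0 < κ / Q := by positivity
  have hκQ1 : κ / Q ≤ 1 := by
    rw [div_le_one hQr]; linarith
  have h64 : 64 * ε ≤ κ / Q := by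
    rw [hε, le_div_iff₀ hQr]
    have h1 : 64 * (2 * Q * P / N) * Q = 128 * (Q : ℝ) ^ 2 * P / N := by ring
    rw [h1, div_le_iff₀ hNr]
    rw [div_le_iff₀ hκ] at hNb
    calc 128 * (Q : ℝ) ^ 2 * P ≤ (Real.sqrt N * κ) * Real.sqrt N := by
          apply mul_le_mul hNb hPsq hPr.le (by positivity)
      _ = κ * (Real.sqrt N * Real.sqrt N) := by ring
      _ = κ * N := by rw [hsqN]
  have hH : 64 / (κ / Q) ≤ P := by
    have : 64 / (κ / Q) = 64 * Q / κ := by field_simp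
    rw [this]; exact hP
  obtain ⟨q', hq'1, hq'2, hq'3⟩ := recurrence (q * θ) P ε (κ / Q) hκQ hκQ1 hε0 h64 hH hqc
  have h1 := hθ (q' * q) (Nat.mul_pos hq'1 hq.1) (by
    have h2 : ((q' * q : ℕ) : ℝ) ≤ Qs := by
      push_cast
      have h3 : (q : ℝ) ≤ Q := by exact_mod_cast hq.2
      calc (q' : ℝ) * q ≤ (8 / (κ / Q)) * Q := by
            apply mul_le_mul hq'2 h3 (by positivity) (by positivity)
        _ = 8 * (Q : ℝ) ^ 2 / κ := by field_simp
        _ ≤ Qs := hQs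
    exact_mod_cast h2)
  have h2 : ((q' * q : ℕ) : ℝ) * θ = q' * (q * θ) := by push_cast; ring
  rw [h2] at h1
  have h3 : ε / (κ / Q * P) ≤ (Qs : ℝ) / N := by
    have h4 : ε / (κ / Q * P) = (2 * (Q : ℝ) ^ 2 / κ) / N := by
      rw [hε]; field_simp
    rw [h4]
    apply div_le_div_of_nonneg_right _ hNr.le
    refine le_trans ?_ hQs
    apply div_le_div_of_nonneg_right _ hκ.le
    have : 0 ≤ (Q : ℝ) ^ 2 := by positivity
    linarith
  linarith

end

end Pool.Agent.Lib.MP_325d88_nt
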