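import Mathlib
import Pool.Agent.Lib.MP_325d88_nt.Minor3

/-!
# Exponential sums over primes: bound for one block
-/

namespace Pool.Agent.Lib.MP_325d88_nt

open Finset Pool.Agent.Lib.MP_369a91_nt

noncomputable section

theorem sum_range_rgh (z : ℕ) (hz : 2 ≤ z) (y : ℕ) :
    ∑ m ∈ Finset.range (y + 1), rgh 1 z (m : ℤ) = ∑ m ∈ Finset.Icc 1 y, rgh 1 z (m : ℤ) := by
  have h7 : Finset.range (y + 1) = insert 0 (Finset.Icc 1 y) := by
    ext m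
    rw [Finset.mem_insert, Finset.mem_Icc, Finset.mem_range]
    omega
  rw [h7, Finset.sum_insert (by simp)]
  have h8 : rgh 1 z ((0 : ℕ) : ℤ) = 0 := by
    rw [rgh_split z hz 0]
    norm_num
  rw [h8, zero_add]

theorem norm_rgh_sum (z M : ℕ) (φ : ℝ) :
    ‖∑ m ∈ Finset.range M, (rgh 1 z (m : ℤ) : ℂ) * ee (m * φ)‖ ≤
      ∑ m ∈ Finset.range M, rgh 1 z (m : ℤ) := by
  refine (norm_sum_le _ _).trans (Finset.sum_le_sum fun m _ => ?_)
  rw [norm_mul, norm_ee, mul_one, Complex.norm_real, Real.norm_of_nonneg (rgh_nonneg _ _ _)]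

private lemma m4_K52 {C1 C2 C3 : ℝ} (hC1 : 1 ≤ C1) (hC2 : 1 ≤ C2) (hC3 : 1 ≤ C3) :
    1 ≤ 4 * C1 ^ 2 * C2 ^ 2 * C3 := by
  have h1 : 1 ≤ C1 ^ 2 := one_le_pow₀ hC1
  have h2 : 1 ≤ C2 ^ 2 := one_le_pow₀ hC2
  exact one_le_mul_of_one_le_of_one_le (one_le_mul_of_one_le_of_one_le
    (one_le_mul_of_one_le_of_one_le (by norm_num) h1) h2) hC3

private lemma m4_A52 {S C1 n y l : ℝ} (hC1 : 1 ≤ C1) (hl : 0 < l) (hn : n ≤ y) (hyl : 1 ≤ y / l)
    (h1 : S ≤ 1 + C1 * (n / l)) : S ≤ 2 * C1 * (y / l) := by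
  have h2 : C1 * (n / l) ≤ C1 * (y / l) := by
    apply mul_le_mul_of_nonneg_left _ (zero_le_one.trans hC1)
    exact div_le_div_of_nonneg_right hn hl.le
  have h3 : 1 ≤ C1 * (y / l) := one_le_mul_of_one_le_of_one_le hC1 hyl
  linarith

private lemma m4_bad52 {X C2 C3 P l lP z H s : ℝ} (hC2 : 0 ≤ C2) (hC3 : 0 ≤ C3) (hP : 0 < P)
    (hl : 0 < l) (hlP : l ≤ lP) (hz : 0 < z) (hzP : z ≤ P) (hH0 : 0 ≤ H)
    (h2 : H ≤ s * P) (hX : X ≤ C2 * (P / l) + C3 * (P / lP ^ 2) * H) :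
    X ≤ (P / l) ^ 2 * (C2 * (l / z) + C3 * s) := by
  have h3 : P / lP ^ 2 ≤ P / l ^ 2 := by
    apply div_le_div_of_nonneg_left hP.le (by positivity)
    exact pow_le_pow_left₀ hl.le hlP 2
  have h4 : C3 * (P / lP ^ 2) * H ≤ C3 * (P / l ^ 2) * (s * P) := by
    apply mul_le_mul _ h2 hH0 (by positivity)
    exact mul_le_mul_of_nonneg_left h3 hC3
  have h5 : C3 * (P / l ^ 2) * (s * P) = (P / l) ^ 2 * (C3 * s) := by
    field_simp
  have h6 : C2 * (P / l) ≤ (P / l) ^ 2 * (C2 * (l / z)) := by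
    have e : (P / l) ^ 2 * (C2 * (l / z)) = C2 * (P / l) * (P / z) := by
      field_simp
    rw [e]
    have h7 : 1 ≤ P / z := by
      rw [le_div_iff₀ hz, one_mul]; exact hzP
    exact le_mul_of_one_le_right (mul_nonneg hC2 (div_nonneg hP.le hl.le)) h7
  have h7 : (P / l) ^ 2 * (C2 * (l / z) + C3 * s) =
      (P / l) ^ 2 * (C2 * (l / z)) + (P / l) ^ 2 * (C3 * s) := by ring
  rw [h7]
  linarith

private lemma m4_pair52 {V X κ y l : ℝ} (hκ : 0 ≤ κ) (hV : V ≤ 1 / l) (hX0 : 0 ≤ X) (hl : 0 < l)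
    (hX : X ≤ y + 1) (hy1 : 1 ≤ y) : κ * (V * X) ≤ 2 * κ * (y / l) := by
  have h1 : V * X ≤ (1 / l) * (2 * y) :=
    mul_le_mul hV (by linarith) hX0 (one_div_nonneg.2 hl.le)
  calc κ * (V * X) ≤ κ * ((1 / l) * (2 * y)) := mul_le_mul_of_nonneg_left h1 hκ
    _ = 2 * κ * (y / l) := by ring

private lemma m4_QM52 {Q M P N : ℝ} (hQ : 0 ≤ Q) (hP : 0 < P) (hM0 : 0 < M) (hN0 : 0 < N)
    (hM1 : N / (2 * P) ≤ M) : Q / M ≤ 2 * Q * P / N := by
  rw [div_le_div_iff₀ hM0 hN0]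
  rw [div_le_iff₀ (by positivity)] at hM1
  have h1 := mul_le_mul_of_nonneg_left hM1 hQ
  linarith

private lemma m4_sec52 {S B E X κ y l P C1 C2 F : ℝ} (h1 : S ≤ B ^ 2 * (2 * κ * (y / l)) +
      E * (2 * C1 * (y / l))) (hB0 : 0 ≤ B) (hB : B ≤ C2 * (P / l)) (hκ : 0 ≤ κ) (hy : 0 ≤ y / l)
    (hC1 : 0 ≤ C1) (hE : E ≤ (P / l) ^ 2 * F)
    (hX : X = (P / l) ^ 2 * (y / l) * (2 * C2 ^ 2 * κ + 2 * C1 * F)) : S ≤ X := by
  have h3 : B ^ 2 ≤ C2 ^ 2 * (P / l) ^ 2 := by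
    rw [← mul_pow]
    exact pow_le_pow_left₀ hB0 hB 2
  have h4 : B ^ 2 * (2 * κ * (y / l)) ≤ C2 ^ 2 * (P / l) ^ 2 * (2 * κ * (y / l)) :=
    mul_le_mul_of_nonneg_right h3 (mul_nonneg (mul_nonneg zero_le_two hκ) hy)
  have h5 : E * (2 * C1 * (y / l)) ≤ (P / l) ^ 2 * F * (2 * C1 * (y / l)) :=
    mul_le_mul_of_nonneg_right hE (mul_nonneg (mul_nonneg zero_le_two hC1) hy)
  calc S ≤ B ^ 2 * (2 * κ * (y / l)) + E * (2 * C1 * (y / l)) := h1
    _ ≤ C2 ^ 2 * (P / l) ^ 2 * (2 * κ * (y / l)) + (P / l) ^ 2 * F * (2 * C1 * (y / l)) :=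
        add_le_add h4 h5
    _ = X := by rw [hX]; ring

private lemma m4_fin52 {C1 C2 C3 N P l y κ s w : ℝ} (hC1 : 1 ≤ C1) (hC2 : 1 ≤ C2)
    (hC3 : 1 ≤ C3) (hP : 0 < P) (hl : 0 < l) (hκ : 0 ≤ κ) (hs0 : 0 ≤ s) (hw : 0 ≤ w)
    (hy : y = N / P) :
    (2 * C1 * (y / l)) * ((P / l) ^ 2 * (y / l) * (2 * C2 ^ 2 * κ + 2 * C1 * (C2 * w + C3 * s))) ≤
      4 * C1 ^ 2 * C2 ^ 2 * C3 * (N / l ^ 2) ^ 2 * (κ + s + w) := by
  have hC1' : 0 ≤ C1 := zero_le_one.trans hC1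
  have hC2' : 0 ≤ C2 := zero_le_one.trans hC2
  have hC3' : 0 ≤ C3 := zero_le_one.trans hC3
  have e1 : 4 * C1 * C2 ^ 2 ≤ 4 * C1 ^ 2 * C2 ^ 2 * C3 := by
    have : 4 * C1 * C2 ^ 2 * 1 ≤ 4 * C1 * C2 ^ 2 * (C1 * C3) :=
      mul_le_mul_of_nonneg_left (one_le_mul_of_one_le_of_one_le hC1 hC3) (by positivity)
    linarith
  have e2 : 4 * C1 ^ 2 * C2 ≤ 4 * C1 ^ 2 * C2 ^ 2 * C3 := by
    have : 4 * C1 ^ 2 * C2 * 1 ≤ 4 * C1 ^ 2 * C2 * (C2 * C3) :=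
      mul_le_mul_of_nonneg_left (one_le_mul_of_one_le_of_one_le hC2 hC3) (by positivity)
    linarith
  have e3 : 4 * C1 ^ 2 * C3 ≤ 4 * C1 ^ 2 * C2 ^ 2 * C3 := by
    have h1 : 1 ≤ C2 ^ 2 := one_le_pow₀ hC2
    have : 4 * C1 ^ 2 * C3 * 1 ≤ 4 * C1 ^ 2 * C3 * C2 ^ 2 :=
      mul_le_mul_of_nonneg_left h1 (by positivity)
    linarith
  have f1 := mul_le_mul_of_nonneg_right e1 hκ
  have f2 := mul_le_mul_of_nonneg_right e2 hw
  have f3 := mul_le_mul_of_nonneg_right e3 hs0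
  calc _ = (N / l ^ 2) ^ 2 * (4 * C1 * C2 ^ 2 * κ + 4 * C1 ^ 2 * C2 * w +
          4 * C1 ^ 2 * C3 * s) := by
        rw [hy]; field_simp; ring
    _ ≤ (N / l ^ 2) ^ 2 * (4 * C1 ^ 2 * C2 ^ 2 * C3 * κ + 4 * C1 ^ 2 * C2 ^ 2 * C3 * w +
          4 * C1 ^ 2 * C2 ^ 2 * C3 * s) :=
        mul_le_mul_of_nonneg_left (add_le_add (add_le_add f1 f2) f3) (sq_nonneg _)
    _ = _ := by ring

theorem block_bound : ∃ K : ℝ, 1 ≤ K ∧ ∃ P0 : ℕ, ∀ (z P N Q : ℕ) (κ κ2 θ : ℝ), 2 ≤ z → P0 ≤ z →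
    z ≤ P → P ^ 2 ≤ N → 0 < κ → 0 < κ2 → κ2 ≤ 1 →
    (∀ M : ℕ, (N : ℝ) / (2 * P) ≤ M → (M : ℝ) ≤ N / P + 1 → ∀ φ : ℝ,
      (∀ q : ℕ, 1 ≤ q → q ≤ Q → (Q : ℝ) / M < nd (q * φ)) →
      ‖∑ m ∈ Finset.range M, (rgh 1 z (m : ℤ) : ℂ) * ee (m * φ)‖ ≤ κ * (VV 1 z * M)) →
    ((HS P Q (2 * Q * P / N) θ).card : ℝ) ≤ κ2 * P →
    ‖∑ x ∈ PA N P, ee (((x.1 * x.2 : ℕ) : ℝ) * θ)‖ ^ 2 ≤
      K * ((N : ℝ) / (Real.log z) ^ 2) ^ 2 * (κ + Real.sqrt κ2 + Real.log z / z) := by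
  classical
  obtain ⟨C1, hC1, hru⟩ := rough_upper
  obtain ⟨C2, hC2, hpb⟩ := prime_block
  obtain ⟨C3, hC3, P0, hbp⟩ := bad_pairs
  refine ⟨4 * C1 ^ 2 * C2 ^ 2 * C3, ?_, P0, ?_⟩
  · exact m4_K52 hC1 hC2 hC3
  intro z P N Q κ κ2 θ hz hzP0 hzP hPN hκ hκ2 hκ21 hF hH
  have hC1' : 0 < C1 := lt_of_lt_of_le one_pos hC1
  have hC2' : 0 < C2 := lt_of_lt_of_le one_pos hC2
  have hC3' : 0 < C3 := lt_of_lt_of_le one_pos hC3
  have hzr : (2 : ℝ) ≤ z := by exact_mod_cast hz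
  have hPr : (z : ℝ) ≤ P := by exact_mod_cast hzP
  have hz0 : (0 : ℝ) < z := lt_of_lt_of_le two_pos hzr
  have hP0 : (0 : ℝ) < P := lt_of_lt_of_le hz0 hPr
  have hPn : 0 < P := by omega
  set l := Real.log z with hl
  have hl0 : 0 < l := Real.log_pos (lt_of_lt_of_le one_lt_two hzr)
  have hlz : l ≤ z := (Real.log_le_sub_one_of_pos hz0).trans (sub_le_self _ zero_le_one)
  have hPNr : (P : ℝ) ^ 2 ≤ N := by exact_mod_cast hPN
  have hN0 : (0 : ℝ) < N := lt_of_lt_of_le (pow_pos hP0 2) hPNr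
  set y : ℝ := N / P with hy
  have hy0 : 0 < y := div_pos hN0 hP0
  have hyP : (P : ℝ) ≤ y := by
    rw [hy, le_div_iff₀ hP0, ← sq]; exact hPNr
  have hyl : 1 ≤ y / l := by
    rw [le_div_iff₀ hl0, one_mul]; exact hlz.trans (hPr.trans hyP)
  have hyl0 : 0 < y / l := div_pos hy0 hl0
  have hnat : ((N / P : ℕ) : ℝ) ≤ y := Nat.cast_div_le
  -- A1
  have hA1 : ∑ m ∈ Finset.Icc 1 (N / P), rgh 1 z (m : ℤ) ≤ 2 * C1 * (y / l) := by
    exact m4_A52 hC1 hl0 hnat hyl (hru z (N / P) hz)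
  -- block size
  have hlogP : l ≤ Real.log P := Real.log_le_log hz0 hPr
  have hB : ((BP P).card : ℝ) ≤ C2 * (P / l) := by
    have h1 := hpb P (by omega)
    refine h1.trans ?_
    apply mul_le_mul_of_nonneg_left _ hC2'.le
    exact div_le_div_of_nonneg_left hP0.le hl0 hlogP
  -- bad pairs
  set Bad := (BP P ×ˢ BP P).filter (fun x => x.1 = x.2 ∨
    x.1 - x.2 ∈ HS P Q (2 * Q * P / N) θ ∨ x.2 - x.1 ∈ HS P Q (2 * Q * P / N) θ) with hBad
  have hHsub : HS P Q (2 * Q * P / N) θ ⊆ Finset.Icc 1 P := by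
    intro h hh
    rw [mem_HS] at hh
    rw [Finset.mem_Icc]
    exact hh.1
  have hBadc : (Bad.card : ℝ) ≤ (P / l) ^ 2 * (C2 * (l / z) + C3 * Real.sqrt κ2) := by
    have h1 := hbp P (by omega) _ hHsub
    rw [← hBad] at h1
    have h1' := h1.trans (add_le_add_left hB _)
    have h2 : Real.sqrt (((HS P Q (2 * Q * P / N) θ).card : ℝ) * P) ≤ Real.sqrt κ2 * P := by
      have h3 : ((HS P Q (2 * Q * P / N) θ).card : ℝ) * P ≤ κ2 * (P * P) := by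
        rw [← mul_assoc]
        exact mul_le_mul_of_nonneg_right hH hP0.le
      calc Real.sqrt (((HS P Q (2 * Q * P / N) θ).card : ℝ) * P)
          ≤ Real.sqrt (κ2 * (P * P)) := Real.sqrt_le_sqrt h3
        _ = Real.sqrt κ2 * P := by
            rw [Real.sqrt_mul hκ2.le, Real.sqrt_mul_self hP0.le]
    exact m4_bad52 hC2'.le hC3'.le hP0 hl0 hlogP hz0 hPr (Real.sqrt_nonneg _) h2 h1'
  -- each pair
  have hpair : ∀ p ∈ BP P, ∀ p' ∈ BP P, ‖∑ m ∈ Finset.range (N / (max p p') + 1),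
        (rgh 1 z (m : ℤ) : ℂ) * ee (m * (((p : ℝ) - p') * θ))‖ ≤
      2 * κ * (y / l) + (if (p, p') ∈ Bad then 2 * C1 * (y / l) else 0) := by
    intro p hp p' hp'
    have hpm := mem_BP.1 hp
    have hpm' := mem_BP.1 hp'
    have hmaxlt : P < max p p' := lt_of_lt_of_le hpm.1 (le_max_left _ _)
    have hmaxle : max p p' ≤ 2 * P := max_le hpm.2.1 hpm'.2.1
    have hmax0 : (0 : ℝ) < ((max p p' : ℕ) : ℝ) := by
      have : 0 < max p p' := by omega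
      exact_mod_cast this
    have hNM : ((N / (max p p') : ℕ) : ℝ) ≤ y := by
      refine Nat.cast_div_le.trans ?_
      rw [hy]
      apply div_le_div_of_nonneg_left hN0.le hP0
      exact_mod_cast hmaxlt.le
    by_cases hb : (p, p') ∈ Bad
    · rw [if_pos hb]
      refine (norm_rgh_sum _ _ _).trans ?_
      rw [sum_range_rgh z hz]
      have h4 : 0 ≤ 2 * κ * (y / l) := mul_nonneg (mul_nonneg zero_le_two hκ.le) hyl0.le
      exact (m4_A52 hC1 hl0 hNM hyl (hru z (N / (max p p')) hz)).trans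
        (le_add_of_nonneg_left h4)
    · rw [if_neg hb, add_zero]
      have hM2 : ((N / (max p p') + 1 : ℕ) : ℝ) ≤ y + 1 := by
        push_cast; exact add_le_add_left hNM 1
      have hM1 : (N : ℝ) / (2 * P) ≤ ((N / (max p p') + 1 : ℕ) : ℝ) := by
        have h1 : N < (N / (max p p') + 1) * max p p' := by
          rw [add_mul, one_mul]
          exact Nat.lt_div_mul_add (by omega)
        have h2 : N ≤ (N / (max p p') + 1) * (2 * P) :=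
          h1.le.trans (Nat.mul_le_mul_left _ hmaxle)
        rw [div_le_iff₀ (mul_pos two_pos hP0)]
        exact_mod_cast h2
      have hM0 : (0 : ℝ) < ((N / (max p p') + 1 : ℕ) : ℝ) := by
        exact_mod_cast Nat.succ_pos _
      refine (hF _ hM1 hM2 _ ?_).trans ?_
      · intro q hq1 hqQ
        by_contra hcon
        push Not at hcon
        apply hb
        rw [hBad, Finset.mem_filter, Finset.mem_product]
        refine ⟨⟨hp, hp'⟩, ?_⟩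
        simp only
        by_cases hpp : p = p'
        · left; exact hpp
        right
        have hQM : (Q : ℝ) / ((N / (max p p') + 1 : ℕ) : ℝ) ≤ 2 * Q * P / N := by
          exact m4_QM52 (Nat.cast_nonneg _) hP0 hM0 hN0 hM1
        have hnd := hcon.trans hQM
        rcases lt_or_gt_of_ne hpp with hlt | hlt
        · right
          rw [mem_HS]
          refine ⟨⟨by omega, by omega⟩, q, Finset.mem_Icc.2 ⟨hq1, hqQ⟩, ?_⟩
          have e : (q : ℝ) * (((p' - p : ℕ) : ℝ) * θ) = -((q : ℝ) * (((p : ℝ) - p') * θ)) := by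
            rw [Nat.cast_sub hlt.le]; ring
          rw [e, nd_neg]
          exact hnd
        · left
          rw [mem_HS]
          refine ⟨⟨by omega, by omega⟩, q, Finset.mem_Icc.2 ⟨hq1, hqQ⟩, ?_⟩
          have e : (q : ℝ) * (((p - p' : ℕ) : ℝ) * θ) = (q : ℝ) * (((p : ℝ) - p') * θ) := by
            rw [Nat.cast_sub hlt.le]
          rw [e]
          exact hnd
      · have hVV := VV_upper z hz
        exact m4_pair52 hκ.le hVV hM0.le hl0 hM2 ((one_le_two.trans hzr).trans (hPr.trans hyP))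
  -- second factor
  have hA2 : ∑ p ∈ BP P, ∑ p' ∈ BP P, ‖∑ m ∈ Finset.range (N / (max p p') + 1),
        (rgh 1 z (m : ℤ) : ℂ) * ee (m * (((p : ℝ) - p') * θ))‖ ≤
      (P / l) ^ 2 * (y / l) * (2 * C2 ^ 2 * κ + 2 * C1 * (C2 * (l / z) + C3 * Real.sqrt κ2)) := by
    have h1 : ∑ p ∈ BP P, ∑ p' ∈ BP P, ‖∑ m ∈ Finset.range (N / (max p p') + 1),
        (rgh 1 z (m : ℤ) : ℂ) * ee (m * (((p : ℝ) - p') * θ))‖ ≤
        ∑ p ∈ BP P, ∑ p' ∈ BP P, (2 * κ * (y / l) + (if (p, p') ∈ Bad then 2 * C1 * (y / l) else 0)) :=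
      Finset.sum_le_sum (fun p hp => Finset.sum_le_sum (fun p' hp' => hpair p hp p' hp'))
    have h2 : ∑ p ∈ BP P, ∑ p' ∈ BP P, (2 * κ * (y / l) +
        (if (p, p') ∈ Bad then 2 * C1 * (y / l) else 0)) =
        ((BP P).card : ℝ) ^ 2 * (2 * κ * (y / l)) + (Bad.card : ℝ) * (2 * C1 * (y / l)) := by
      rw [← Finset.sum_product' (BP P) (BP P) (fun p p' => (2 * κ * (y / l) +
        (if (p, p') ∈ Bad then 2 * C1 * (y / l) else 0)))]
      rw [Finset.sum_add_distrib, Finset.sum_const, Finset.card_product, nsmul_eq_mul]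
      congr 1
      · push_cast; ring
      · rw [← Finset.sum_filter]
        rw [Finset.sum_const, nsmul_eq_mul]
        congr 2
        have e : (BP P ×ˢ BP P).filter (fun a => (a.1, a.2) ∈ Bad) = Bad := by
          ext x
          rw [Finset.mem_filter]
          constructor
          · intro hx; exact hx.2
          · intro hx
            refine ⟨?_, hx⟩
            rw [hBad, Finset.mem_filter] at hx
            exact hx.1
        rw [e]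
    rw [h2] at h1
    exact m4_sec52 h1 (Nat.cast_nonneg _) hB hκ.le hyl0.le hC1'.le hBadc rfl
  refine (cs_block N P z hPn hz hzP θ).trans ?_
  have hsum0 : 0 ≤ ∑ p ∈ BP P, ∑ p' ∈ BP P, ‖∑ m ∈ Finset.range (N / (max p p') + 1),
        (rgh 1 z (m : ℤ) : ℂ) * ee (m * (((p : ℝ) - p') * θ))‖ :=
    Finset.sum_nonneg (fun p _ => Finset.sum_nonneg (fun p' _ => norm_nonneg _))
  exact (mul_le_mul hA1 hA2 hsum0 (mul_nonneg (mul_nonneg zero_le_two hC1'.le) hyl0.le)).trans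
    (m4_fin52 hC1 hC2 hC3 hP0 hl0 hκ.le (Real.sqrt_nonneg _) (div_nonneg hl0.le hz0.le) hy)

end

end Pool.Agent.Lib.MP_325d88_nt
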