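import Mathlib
import Pool.Agent.Lib.MP_325d88_nt.Minor4

/-!
# Exponential sums over primes on minor arcs
-/

namespace Pool.Agent.Lib.MP_325d88_nt

open Finset Pool.Agent.Lib.MP_369a91_nt

noncomputable section

theorem ev_log_small (δ : ℝ) (hδ : 0 < δ) : ∃ Z : ℕ, ∀ z : ℕ, Z ≤ z → Real.log z ≤ δ * z := by
  have h := Real.isLittleO_log_id_atTop.def hδ
  have h1 := (tendsto_natCast_atTop_atTop (R := ℝ)).eventually h
  obtain ⟨Z, hZ⟩ := h1.exists_forall_of_atTop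
  refine ⟨Z, fun z hz => ?_⟩
  have h2 := hZ z hz
  simp only [id, Real.norm_eq_abs] at h2
  rw [abs_of_nonneg (by positivity : (0 : ℝ) ≤ (z : ℝ))] at h2
  exact (le_abs_self _).trans h2

theorem ev_log_large (L : ℝ) : ∃ Z : ℕ, ∀ z : ℕ, Z ≤ z → L ≤ Real.log z := by
  have h := (Real.tendsto_log_atTop.comp (tendsto_natCast_atTop_atTop (R := ℝ))).eventually_ge_atTop L
  obtain ⟨Z, hZ⟩ := h.exists_forall_of_atTop
  exact ⟨Z, fun z hz => hZ z hz⟩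

theorem geo_sum (a N : ℝ) (ha : 0 < a) (J : ℕ) :
    ∑ j ∈ Finset.range J, (if a * 4 ^ j ≤ N then a * 4 ^ j else 0) ≤ a * 4 ^ J / 3 ∧
    (0 ≤ N → ∑ j ∈ Finset.range J, (if a * 4 ^ j ≤ N then a * 4 ^ j else 0) ≤ 4 / 3 * N) := by
  induction J with
  | zero =>
    simp only [Finset.range_zero, Finset.sum_empty, pow_zero, mul_one]
    refine ⟨by positivity, fun h => by positivity⟩
  | succ J ih =>
    rw [Finset.sum_range_succ]
    have hp : (0 : ℝ) < a * 4 ^ J := by positivity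
    have e : a * (4 : ℝ) ^ (J + 1) / 3 = a * 4 ^ J / 3 + a * 4 ^ J := by rw [pow_succ]; ring
    constructor
    · rw [e]
      have h1 : (if a * 4 ^ J ≤ N then a * 4 ^ J else 0) ≤ a * 4 ^ J := by
        split_ifs
        · exact le_rfl
        · exact hp.le
      linarith [ih.1]
    · intro hN
      split_ifs with h1
      · linarith [ih.1]
      · rw [add_zero]; exact ih.2 hN

/-- norm of the block sum -/
theorem CP_bound (N P z : ℕ) (hz : 2 ≤ z) (hzP : z ≤ P) (θ : ℝ) :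
    ‖∑ n ∈ CP N P, ee (n * θ)‖ ≤ ‖∑ x ∈ PA N P, ee (((x.1 * x.2 : ℕ) : ℝ) * θ)‖ +
      ((BP P).card : ℝ) ^ 2 * ∑ m ∈ Finset.Icc 1 (N / P ^ 2), rgh 1 z (m : ℤ) := by
  rw [CP_sum N P (fun n => ee (n * θ))]
  have h1 := Finset.sum_filter_add_sum_filter_not (PA N P) (fun x => x.1 ≤ x.2.minFac)
    (fun x => ee (((x.1 * x.2 : ℕ) : ℝ) * θ))
  have h2 : ∑ x ∈ (PA N P).filter (fun x => x.1 ≤ x.2.minFac), ee (((x.1 * x.2 : ℕ) : ℝ) * θ) =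
      ∑ x ∈ PA N P, ee (((x.1 * x.2 : ℕ) : ℝ) * θ) -
      ∑ x ∈ (PA N P).filter (fun x => ¬ x.1 ≤ x.2.minFac), ee (((x.1 * x.2 : ℕ) : ℝ) * θ) := by
    rw [← h1]; ring
  rw [h2]
  refine (norm_sub_le _ _).trans ?_
  apply add_le_add le_rfl
  refine le_trans ?_ (pairs2_card N P z hz hzP)
  refine (norm_sum_le _ _).trans ?_
  rw [Finset.sum_congr rfl (fun x _ => norm_ee _), Finset.sum_const, nsmul_eq_mul, mul_one]

private lemma m5_c52 {k0 K c0 : ℝ} (h0 : 0 < k0) (h1 : k0 ≤ 1) (hK : 1 ≤ K)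
    (hc : c0 = k0 ^ 2 / (432 * K)) :
    0 < c0 ∧ 3 * K * c0 = k0 ^ 2 / 144 ∧ c0 ≤ k0 / 432 ∧ c0 ≤ 1 := by
  have hK0 : 0 < K := lt_of_lt_of_le one_pos hK
  have h2 : c0 ≤ k0 / 432 := by
    rw [hc, div_le_div_iff₀ (by positivity) (by norm_num)]
    have h3 : k0 ^ 2 ≤ k0 * K := by
      rw [sq]
      exact mul_le_mul_of_nonneg_left (h1.trans hK) h0.le
    linarith
  exact ⟨by rw [hc]; positivity, by rw [hc]; field_simp; ring, h2, by linarith⟩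

private lemma m5_i52 {κ1 V l n u k0 c0 m : ℝ} (hV : V ≤ 1 / l) (hl : 0 < l) (hn : 1 ≤ n)
    (hm : m = n + 1) (hu : 1 ≤ u) (hκ : 0 < κ1) (hκu : κ1 ≤ c0 / u ^ 4)
    (hc : c0 ≤ k0 / 432) (hk : 0 < k0) : κ1 * (V * m) ≤ k0 / 6 * (n / (u * l)) := by
  have hu0 : 0 < u := lt_of_lt_of_le one_pos hu
  have hn0 : 0 < n := lt_of_lt_of_le one_pos hn
  have h2 : V * m ≤ 1 / l * (2 * n) := by
    rw [hm]
    exact mul_le_mul hV (by linarith) (by linarith) (one_div_pos.2 hl).le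
  have h3 : κ1 * (2 * u) ≤ k0 / 6 := by
    have h5 : κ1 * u ^ 4 ≤ c0 := by
      rw [le_div_iff₀ (by positivity)] at hκu; exact hκu
    have h6 : u ≤ u ^ 4 := le_self_pow₀ hu (by norm_num)
    have h7 := mul_le_mul_of_nonneg_left h6 hκ.le
    linarith
  calc κ1 * (V * m) ≤ κ1 * (1 / l * (2 * n)) := mul_le_mul_of_nonneg_left h2 hκ.le
    _ = κ1 * (2 * u) * (n / (u * l)) := by field_simp
    _ ≤ k0 / 6 * (n / (u * l)) := mul_le_mul_of_nonneg_right h3 (by positivity)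

private lemma m5_ii52 {z u l n k0 : ℝ} (hz : 8 ≤ z) (hu0 : 0 < u) (hl : 0 < l) (hlz : l ≤ z)
    (hk : 0 < k0) (h1 : z ^ 3 ≤ n) (h2 : 12 * u / k0 ≤ z) :
    z + 2 ≤ k0 / 6 * (n / (u * l)) := by
  rw [div_le_iff₀ hk] at h2
  have hz0 : 0 < z := lt_of_lt_of_le (by norm_num) hz
  have h3 : z ^ 2 / u ≤ n / (u * l) := by
    rw [div_le_div_iff₀ hu0 (by positivity)]
    have h4 : z ^ 2 * l ≤ z ^ 2 * z := mul_le_mul_of_nonneg_left hlz (by positivity)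
    have h5 : z ^ 2 * z = z ^ 3 := by ring
    have h6 : z ^ 2 * l ≤ n := by rw [h5] at h4; exact h4.trans h1
    have h7 : u * (z ^ 2 * l) ≤ u * n := mul_le_mul_of_nonneg_left h6 hu0.le
    linarith [h7]
  have h4 : z + 2 ≤ k0 / 6 * (z ^ 2 / u) := by
    rw [← mul_div_assoc, le_div_iff₀ hu0]
    have a1 : (z + 2) * u ≤ (2 * z) * u := mul_le_mul_of_nonneg_right (by linarith) hu0.le
    have a2 : z * (12 * u) ≤ z * (z * k0) := mul_le_mul_of_nonneg_left h2 hz0.le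
    linarith
  exact h4.trans (mul_le_mul_of_nonneg_left h3 (by positivity))

private lemma m5_log52 {n : ℝ} (hn : 8 ≤ n) : 2 ≤ Real.log n := by
  have h1 : Real.log 8 ≤ Real.log n := Real.log_le_log (by norm_num) hn
  have h2 : Real.log 8 = 3 * Real.log 2 := by
    rw [show (8 : ℝ) = 2 ^ 3 by norm_num, Real.log_pow]; norm_num
  have h3 := Real.log_two_gt_d9
  linarith

private lemma m5_J52 {N : ℕ} {L : ℝ} (hN : 1 ≤ N) (hL : Real.log N ≤ L)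
    (h2 : 2 ≤ Real.log N) : ((Nat.log 2 N + 1 : ℕ) : ℝ) ≤ 2 * L := by
  have h1 : (Nat.log 2 N : ℝ) * Real.log 2 ≤ Real.log N := by
    rw [← Real.log_pow]
    apply Real.log_le_log (by positivity)
    have : 2 ^ Nat.log 2 N ≤ N := Nat.pow_log_le_self 2 (by omega)
    exact_mod_cast this
  have h3 := Real.log_two_gt_d9
  have h4 : (Nat.log 2 N : ℝ) * (2 / 3) ≤ (Nat.log 2 N : ℝ) * Real.log 2 :=
    mul_le_mul_of_nonneg_left (by linarith) (Nat.cast_nonneg _)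
  push_cast
  linarith

private lemma m5_M52 {z P N M s e : ℕ} (hz2 : 2 ≤ z) (he : e = 2 * s + 2)
    (hze : z ^ e ≤ N) (hPN : P ^ 2 ≤ N) (hP : 0 < P) (hN : 0 < N)
    (hM : (N : ℝ) / (2 * P) ≤ M) : z ^ s ≤ M := by
  have hP0 : (0 : ℝ) < P := by exact_mod_cast hP
  have hNr0 : (0 : ℝ) < N := by exact_mod_cast hN
  have hzr : (2 : ℝ) ≤ z := by exact_mod_cast hz2
  have hPNr : (P : ℝ) ^ 2 ≤ N := by exact_mod_cast hPN
  have hPsqrt : (P : ℝ) ≤ Real.sqrt N := Real.le_sqrt_of_sq_le hPNr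
  have hzsq : (z : ℝ) ^ (s + 1) ≤ Real.sqrt N := by
    apply Real.le_sqrt_of_sq_le
    rw [← pow_mul]
    have : (s + 1) * 2 = e := by rw [he]; ring
    rw [this]
    exact_mod_cast hze
  have hsqN : Real.sqrt N * Real.sqrt N = N := Real.mul_self_sqrt hNr0.le
  have h1 : (z : ℝ) ^ s ≤ M := by
    refine le_trans ?_ hM
    rw [le_div_iff₀ (by positivity)]
    have h2 : (z : ℝ) ^ s * 2 ≤ (z : ℝ) ^ (s + 1) := by
      rw [pow_succ]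
      exact mul_le_mul_of_nonneg_left hzr (by positivity)
    calc (z : ℝ) ^ s * (2 * P) = ((z : ℝ) ^ s * 2) * P := by ring
      _ ≤ Real.sqrt N * Real.sqrt N :=
          mul_le_mul (h2.trans hzsq) hPsqrt hP0.le (Real.sqrt_nonneg _)
      _ = N := hsqN
  exact_mod_cast h1

private lemma m5_M2_52 {z P N M u : ℕ} (hz2 : 2 ≤ z) (hzu : N ≤ z ^ u) (hP : 1 ≤ P)
    (hM : (M : ℝ) ≤ (N : ℝ) / P + 1) : M ≤ z ^ (u + 1) := by
  have hP1 : (1 : ℝ) ≤ P := by exact_mod_cast hP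
  have h1 : (M : ℝ) ≤ (N : ℝ) + 1 :=
    hM.trans (add_le_add (div_le_self (Nat.cast_nonneg N) hP1) le_rfl)
  have h2 : M ≤ N + 1 := by exact_mod_cast h1
  have h3 : 1 ≤ z ^ u := Nat.one_le_pow _ _ (by omega)
  calc M ≤ N + 1 := h2
    _ ≤ 2 * z ^ u := by omega
    _ ≤ z * z ^ u := Nat.mul_le_mul_right _ hz2
    _ = z ^ (u + 1) := by ring

private lemma m5_sq52 {X K n l u κ k0 c0 : ℝ} (hX : X ^ 2 ≤ K * (n / l ^ 2) ^ 2 * κ)
    (hκ : κ ≤ 3 * (c0 / u ^ 4)) (hc : 3 * K * c0 = k0 ^ 2 / 144) (hK : 0 < K) (hk : 0 < k0)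
    (hn : 0 < n) (hu : 0 < u) (hl : 0 < l) : X ≤ k0 / 12 * (n / (u ^ 2 * l ^ 2)) := by
  apply le_trans (le_abs_self _)
  apply abs_le_of_sq_le_sq _ (by positivity)
  refine hX.trans ?_
  calc K * (n / l ^ 2) ^ 2 * κ ≤ K * (n / l ^ 2) ^ 2 * (3 * (c0 / u ^ 4)) :=
        mul_le_mul_of_nonneg_left hκ (by positivity)
    _ = (3 * K * c0) * (n / (u ^ 2 * l ^ 2)) ^ 2 := by field_simp
    _ = (k0 / 12 * (n / (u ^ 2 * l ^ 2))) ^ 2 := by rw [hc]; ring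

private lemma m5_ex52 {B S C1 C2 P l n : ℝ} (hB : B ≤ C2 * (P / l)) (hB0 : 0 ≤ B)
    (hS0 : 0 ≤ S) (hS : S ≤ 1 + C1 * ((n / P ^ 2) / l)) (hP : 0 < P) (hl : 0 < l)
    (hC1 : 0 < C1) (hn : 0 < n) :
    B ^ 2 * S ≤ C2 ^ 2 / l ^ 2 * P ^ 2 + C1 * C2 ^ 2 * (n / l ^ 3) := by
  have h2 : B ^ 2 ≤ C2 ^ 2 * (P / l) ^ 2 := by
    rw [← mul_pow]
    exact pow_le_pow_left₀ hB0 hB 2
  have h4 : B ^ 2 * S ≤ C2 ^ 2 * (P / l) ^ 2 * (1 + C1 * ((n / P ^ 2) / l)) :=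
    mul_le_mul h2 hS hS0 (by positivity)
  have h5 : C2 ^ 2 * (P / l) ^ 2 * (1 + C1 * ((n / P ^ 2) / l)) =
      C2 ^ 2 / l ^ 2 * P ^ 2 + C1 * C2 ^ 2 * (n / l ^ 3) := by
    field_simp
  rw [← h5]
  exact h4

private lemma m5_S52 {N P : ℕ} {C1 l S : ℝ} (hC1 : 0 < C1) (hl : 0 < l)
    (h : S ≤ 1 + C1 * (((N / P ^ 2 : ℕ) : ℝ) / l)) :
    S ≤ 1 + C1 * (((N : ℝ) / (P : ℝ) ^ 2) / l) := by
  refine h.trans ?_
  have h4 : ((N / P ^ 2 : ℕ) : ℝ) ≤ N / (P : ℝ) ^ 2 := by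
    have := @Nat.cast_div_le ℝ _ _ _ N (P ^ 2)
    push_cast at this
    exact this
  exact add_le_add le_rfl
    (mul_le_mul_of_nonneg_left (div_le_div_of_nonneg_right h4 hl.le) hC1.le)

private lemma m5_iii52 {J k0 n u l C1 C2 S : ℝ} (hJ : J ≤ 2 * (u * l)) (hk : 0 < k0)
    (hn : 0 < n) (hu : 164 ≤ u) (hl : 0 < l) (hC1 : 1 ≤ C1) (hC2 : 0 < C2)
    (hS : S ≤ 4 / 3 * n) (hl2 : 24 * u ^ 2 * C1 * C2 ^ 2 / k0 ≤ l) :
    J * (k0 / 12 * (n / (u ^ 2 * l ^ 2))) + C2 ^ 2 / l ^ 2 * S +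
      J * (C1 * C2 ^ 2 * (n / l ^ 3)) ≤
      k0 / 6 * (n / (u * l)) + k0 / 6 * (n / (u * l)) := by
  have hu0 : 0 < u := lt_of_lt_of_le (by norm_num) hu
  have hC10 : 0 < C1 := lt_of_lt_of_le one_pos hC1
  have h2 : C2 ^ 2 / l ^ 2 * S ≤ C2 ^ 2 / l ^ 2 * (4 / 3 * n) :=
    mul_le_mul_of_nonneg_left hS (by positivity)
  have h3 : J * (k0 / 12 * (n / (u ^ 2 * l ^ 2))) ≤ k0 / 6 * (n / (u * l)) := by
    calc J * (k0 / 12 * (n / (u ^ 2 * l ^ 2))) ≤ (2 * (u * l)) * (k0 / 12 * (n / (u ^ 2 * l ^ 2))) :=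
          mul_le_mul_of_nonneg_right hJ (by positivity)
      _ = k0 / 6 * (n / (u * l)) := by field_simp; ring
  have h4 : J * (C1 * C2 ^ 2 * (n / l ^ 3)) ≤ (2 * (u * l)) * (C1 * C2 ^ 2 * (n / l ^ 3)) :=
    mul_le_mul_of_nonneg_right hJ (by positivity)
  have h5 : C2 ^ 2 / l ^ 2 * (4 / 3 * n) + (2 * (u * l)) * (C1 * C2 ^ 2 * (n / l ^ 3)) ≤
      k0 / 6 * (n / (u * l)) := by
    rw [div_le_iff₀ hk] at hl2
    have e1 : C2 ^ 2 / l ^ 2 * (4 / 3 * n) + (2 * (u * l)) * (C1 * C2 ^ 2 * (n / l ^ 3)) =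
        (4 / 3 * C2 ^ 2 + 2 * u * (C1 * C2 ^ 2)) * (n / l ^ 2) := by
      field_simp
    have e2 : k0 / 6 * (n / (u * l)) = (k0 * l / (6 * u)) * (n / l ^ 2) := by
      field_simp
    rw [e1, e2]
    apply mul_le_mul_of_nonneg_right _ (by positivity)
    rw [le_div_iff₀ (by positivity)]
    have h6 : C2 ^ 2 ≤ C1 * C2 ^ 2 := le_mul_of_one_le_left (sq_nonneg C2) hC1
    have h7 : 4 / 3 * C2 ^ 2 + 2 * u * (C1 * C2 ^ 2) ≤ 4 * u * (C1 * C2 ^ 2) := by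
      have h8 : 0 < C1 * C2 ^ 2 := by positivity
      have h9 : 4 / 3 * (C1 * C2 ^ 2) ≤ 2 * u * (C1 * C2 ^ 2) :=
        mul_le_mul_of_nonneg_right (by linarith) h8.le
      linarith
    calc (4 / 3 * C2 ^ 2 + 2 * u * (C1 * C2 ^ 2)) * (6 * u) ≤ (4 * u * (C1 * C2 ^ 2)) * (6 * u) :=
          mul_le_mul_of_nonneg_right h7 (by positivity)
      _ = 24 * u ^ 2 * C1 * C2 ^ 2 := by ring
      _ ≤ l * k0 := hl2
      _ = k0 * l := by ring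
  linarith

private lemma m5_tot52 {X A B D k0 Y : ℝ} (hX : X ≤ A + B + D) (hA : A ≤ k0 / 6 * Y)
    (hB : B ≤ k0 / 6 * Y) (hD : D ≤ k0 / 6 * Y + k0 / 6 * Y) (hk : 0 < k0) (hY : 0 ≤ Y) :
    X ≤ k0 * Y := by
  have h2 := mul_nonneg hk.le hY
  linarith

/-- **Exponential sums over primes on minor arcs.** -/
theorem minor_primes (κ : ℝ) (hκ : 0 < κ) : ∃ Q N0 : ℕ, 0 < Q ∧ ∀ N : ℕ, N0 ≤ N → ∀ θ : ℝ,
    (∀ q : ℕ, 1 ≤ q → q ≤ Q → (Q : ℝ) / N < nd (q * θ)) →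
    ‖∑ p ∈ (Finset.range (N + 1)).filter Nat.Prime, ee (p * θ)‖ ≤ κ * (N / Real.log N) := by
  classical
  obtain ⟨K, hK, P0, hblock⟩ := block_bound
  obtain ⟨C1, hC1, hru⟩ := rough_upper
  obtain ⟨C2, hC2, hpb⟩ := prime_block
  obtain ⟨k0, hk00, hk01, hk0κ⟩ : ∃ k0 : ℝ, 0 < k0 ∧ k0 ≤ 1 ∧ k0 ≤ κ :=
    ⟨min κ 1, lt_min hκ one_pos, min_le_right _ _, min_le_left _ _⟩
  have hK0 : 0 < K := lt_of_lt_of_le one_pos hK
  have hC1' : 0 < C1 := lt_of_lt_of_le one_pos hC1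
  have hC2' : 0 < C2 := lt_of_lt_of_le one_pos hC2
  obtain ⟨c0, hc0⟩ : ∃ c0 : ℝ, c0 = k0 ^ 2 / (432 * K) := ⟨_, rfl⟩
  obtain ⟨hc00, hc0K, hc0k, hc01⟩ := m5_c52 hk00 hk01 hK hc0
  obtain ⟨b, hb⟩ := good_ev 1 ((c0 / 164 ^ 4) / 40) (by norm_num) (by positivity) 4
  have hgood := hb b le_rfl
  obtain ⟨u, hu⟩ : ∃ u : ℕ, u = 64 * b + 164 := ⟨_, rfl⟩
  obtain ⟨s, hs⟩ : ∃ s : ℕ, s = 16 * b + 40 := ⟨_, rfl⟩
  obtain ⟨κ1, hκ1⟩ : ∃ κ1 : ℝ, κ1 = (c0 / 164 ^ 4) / ((b : ℝ) + 1) ^ 4 := ⟨_, rfl⟩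
  have hur : (u : ℝ) = 64 * b + 164 := by rw [hu]; push_cast; ring
  have hb0 : (0 : ℝ) ≤ b := by positivity
  have hu1 : (164 : ℝ) ≤ u := by rw [hur]; linarith
  have hu0 : (0 : ℝ) < u := lt_of_lt_of_le (by norm_num) hu1
  have hu11 : (1 : ℝ) ≤ u := le_trans (by norm_num) hu1
  have hκ10 : 0 < κ1 := by rw [hκ1]; positivity
  have hκ1u : κ1 ≤ c0 / (u : ℝ) ^ 4 := by
    rw [hκ1, div_div, ← mul_pow]
    apply div_le_div_of_nonneg_left hc00.le (by positivity)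
    apply pow_le_pow_left₀ hu0.le
    rw [hur]; linarith
  have hu4 : (1 : ℝ) ≤ (u : ℝ) ^ 4 := one_le_pow₀ hu11
  have hκ1c : κ1 ≤ c0 := hκ1u.trans (div_le_self hc00.le hu4)
  have hgood' : Good 1 b (κ1 / 40) := by
    have e : κ1 / 40 = c0 / 164 ^ 4 / 40 / ((b : ℝ) + 1) ^ 4 := by rw [hκ1]; ring
    rw [e]; exact hgood
  obtain ⟨Q1, hQ1, hrf⟩ := rough_fourier κ1 hκ10 (hκ1c.trans hc01) b hgood'
  rw [← hs] at hrf
  obtain ⟨Zf, hZf⟩ := hrf (u + 1)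
  obtain ⟨κ2, hκ2⟩ : ∃ κ2 : ℝ, κ2 = (c0 / (u : ℝ) ^ 4) ^ 2 := ⟨_, rfl⟩
  have hcu0 : 0 < c0 / (u : ℝ) ^ 4 := by positivity
  have hcu1 : c0 / (u : ℝ) ^ 4 ≤ 1 := (div_le_self hc00.le hu4).trans hc01
  have hκ20 : 0 < κ2 := by rw [hκ2]; positivity
  have hκ21 : κ2 ≤ 1 := by rw [hκ2]; exact pow_le_one₀ hcu0.le hcu1
  have hsqκ2 : Real.sqrt κ2 = c0 / (u : ℝ) ^ 4 := by
    rw [hκ2, Real.sqrt_sq hcu0.le]
  have hQ1r : (1 : ℝ) ≤ Q1 := by exact_mod_cast hQ1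
  -- thresholds
  obtain ⟨Zl, hZl⟩ := ev_log_small (c0 / (u : ℝ) ^ 4) hcu0
  obtain ⟨ZL, hZL⟩ := ev_log_large (24 * (u : ℝ) ^ 2 * C1 * C2 ^ 2 / k0)
  obtain ⟨Za, hZa⟩ := exists_nat_gt (64 * (Q1 : ℝ) / κ2)
  obtain ⟨Zb, hZb⟩ := exists_nat_gt (128 * (Q1 : ℝ) ^ 2 / κ2)
  obtain ⟨Zc, hZc⟩ := exists_nat_gt (12 * (u : ℝ) / k0)
  obtain ⟨Qs, hQs⟩ : ∃ Qs : ℕ, Qs = ⌈8 * (Q1 : ℝ) ^ 2 / κ2⌉₊ + Q1 := ⟨_, rfl⟩
  have hQs1 : 8 * (Q1 : ℝ) ^ 2 / κ2 ≤ Qs := by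
    rw [hQs]; push_cast
    have := Nat.le_ceil (8 * (Q1 : ℝ) ^ 2 / κ2)
    linarith
  have hQsQ : Q1 ≤ Qs := by rw [hQs]; exact Nat.le_add_left _ _
  obtain ⟨e, he⟩ : ∃ e : ℕ, e = 2 * s + 2 := ⟨_, rfl⟩
  obtain ⟨Zm, hZm⟩ : ∃ Zm : ℕ, Zm = Zf + P0 + Zl + ZL + Za + Zb + Zc + 8 := ⟨_, rfl⟩
  obtain ⟨N0, hN0⟩ := exists_root e (by omega) Zm
  refine ⟨Qs, N0, by omega, ?_⟩
  intro N hN θ hθ
  obtain ⟨z, hzm, hze, hz2e⟩ := hN0 N hN
  have hz8 : 8 ≤ z := by omega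
  have hz2 : 2 ≤ z := by omega
  have hz1 : 1 ≤ z := by omega
  have hzr : (8 : ℝ) ≤ z := by exact_mod_cast hz8
  obtain ⟨l, hl⟩ : ∃ l : ℝ, l = Real.log z := ⟨_, rfl⟩
  have hzr1 : (1 : ℝ) < z := lt_of_lt_of_le (by norm_num) hzr
  have hzr0 : (0 : ℝ) < z := lt_trans one_pos hzr1
  have hl0 : 0 < l := by rw [hl]; exact Real.log_pos hzr1
  have hl1 : l ≤ c0 / (u : ℝ) ^ 4 * z := by rw [hl]; exact hZl z (by omega)
  have hl2 : 24 * (u : ℝ) ^ 2 * C1 * C2 ^ 2 / k0 ≤ l := by rw [hl]; exact hZL z (by omega)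
  have hlz : l ≤ z := by
    rw [hl]
    exact (Real.log_le_sub_one_of_pos hzr0).trans (sub_le_self _ zero_le_one)
  have hzu : N ≤ z ^ u := by
    have : 2 * e = u := by rw [he, hs, hu]; ring
    rw [← this]; exact hz2e
  have hNz3 : z ^ 3 ≤ N := le_trans (Nat.pow_le_pow_right hz1 (by omega)) hze
  have hN1 : 1 ≤ N := le_trans (Nat.one_le_pow _ _ hz1) hNz3
  have hNr : (1 : ℝ) ≤ N := by exact_mod_cast hN1
  have hNr0 : (0 : ℝ) < N := lt_of_lt_of_le one_pos hNr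
  have hzNle : (z : ℝ) ≤ N := by
    have : z ≤ N := le_trans (Nat.le_self_pow (by norm_num) _) hNz3
    exact_mod_cast this
  have hlogN : Real.log N ≤ u * l := by
    have h1 : (N : ℝ) ≤ (z : ℝ) ^ u := by exact_mod_cast hzu
    have h2 := Real.log_le_log hNr0 h1
    rw [Real.log_pow, ← hl] at h2
    exact h2
  have hlogN2 : 2 ≤ Real.log N := m5_log52 (hzr.trans hzNle)
  have hlogN0 : 0 < Real.log N := lt_of_lt_of_le two_pos hlogN2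
  have hinv : (N : ℝ) / (u * l) ≤ N / Real.log N :=
    div_le_div_of_nonneg_left hNr0.le hlogN0 hlogN
  have hVV := VV_upper z hz2
  rw [← hl] at hVV
  -- Buchstab
  have hB := buchstab_split z N hz2 θ
  -- (i)
  have hi : ‖∑ n ∈ Finset.range (N + 1), (rgh 1 z (n : ℤ) : ℂ) * ee (n * θ)‖ ≤
      k0 / 6 * (N / (u * l)) := by
    have h1 := hZf z (N + 1) (by omega) (by
      have : z ^ s ≤ z ^ e := Nat.pow_le_pow_right hz1 (by omega)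
      omega) (by
      calc N + 1 ≤ 2 * z ^ u := by omega
        _ ≤ z * z ^ u := Nat.mul_le_mul_right _ hz2
        _ = z ^ (u + 1) := by ring) θ (by
      intro q hq1 hq2
      have h2 := hθ q hq1 (hq2.trans hQsQ)
      refine lt_of_le_of_lt ?_ h2
      apply div_le_div₀ (Nat.cast_nonneg _) (by exact_mod_cast hQsQ) hNr0
      push_cast
      exact le_add_of_nonneg_right zero_le_one)
    refine h1.trans ?_
    exact m5_i52 hVV hl0 hNr (by push_cast; rfl) hu11 hκ10 hκ1u hc0k hk00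
  -- (ii)
  have hii : (z : ℝ) + 2 ≤ k0 / 6 * (N / (u * l)) := by
    have h1 : (z : ℝ) ^ 3 ≤ N := by exact_mod_cast hNz3
    have h2 : 12 * (u : ℝ) / k0 ≤ z := by
      have h3 : (Zc : ℝ) ≤ z := by
        have : Zc ≤ z := by omega
        exact_mod_cast this
      exact hZc.le.trans h3
    exact m5_ii52 hzr hu0 hl0 hlz hk00 h1 h2
  -- (iii) blocks
  have hJr : ((Nat.log 2 N + 1 : ℕ) : ℝ) ≤ 2 * (u * l) := m5_J52 hN1 hlogN hlogN2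
  generalize Nat.log 2 N + 1 = J at hJr hB
  have hblk : ∀ j ∈ Finset.range J, ‖∑ n ∈ CP N (z * 2 ^ j), ee (n * θ)‖ ≤
      k0 / 12 * (N / (u ^ 2 * l ^ 2)) + C2 ^ 2 / l ^ 2 * (if (z : ℝ) ^ 2 * 4 ^ j ≤ N then (z : ℝ) ^ 2 * 4 ^ j else 0) +
        C1 * C2 ^ 2 * (N / l ^ 3) := by
    intro j _
    obtain ⟨P, hP⟩ : ∃ P : ℕ, P = z * 2 ^ j := ⟨_, rfl⟩
    rw [← hP]
    have hzP : z ≤ P := by rw [hP]; exact Nat.le_mul_of_pos_right z (by positivity)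
    have hPsq : ((P : ℝ)) ^ 2 = (z : ℝ) ^ 2 * 4 ^ j := by
      rw [hP]; push_cast
      rw [mul_pow, ← pow_mul, mul_comm j 2, pow_mul]
      norm_num
    have hzPr : (z : ℝ) ≤ P := by exact_mod_cast hzP
    have hP0' : (0 : ℝ) < P := lt_of_lt_of_le hzr0 hzPr
    refine (CP_bound N P z hz2 hzP θ).trans ?_
    by_cases hPN : P ^ 2 ≤ N
    · have hPNr : (P : ℝ) ^ 2 ≤ N := by exact_mod_cast hPN
      rw [if_pos (by rw [← hPsq]; exact hPNr), ← hPsq]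
      have hPsqrt : (P : ℝ) ≤ Real.sqrt N := Real.le_sqrt_of_sq_le hPNr
      have hPz1 : 1 ≤ P := hz1.trans hzP
      have hmain := hblock z P N Q1 κ1 κ2 θ hz2 (by omega) hzP hPN hκ10 hκ20 hκ21
        (by
          intro M hM1 hM2 φ hφ
          exact hZf z M (by omega) (m5_M52 hz2 he hze hPN hPz1 hN1 hM1)
            (m5_M2_52 hz2 hzu hPz1 hM2) φ hφ)
        (by
          apply hs_small N P Q1 κ2 θ hκ20 hκ21 hQ1 (by omega) hPN _ _ Qs hQs1 hθ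
          · have h3 : (Za : ℝ) ≤ z := by
              have : Za ≤ z := by omega
              exact_mod_cast this
            exact hZa.le.trans (h3.trans hzPr)
          · have h1 : (Zb : ℝ) ≤ z := by
              have : Zb ≤ z := by omega
              exact_mod_cast this
            exact hZb.le.trans (h1.trans (hzPr.trans hPsqrt)))
      rw [← hl] at hmain
      have hsum : κ1 + Real.sqrt κ2 + l / z ≤ 3 * (c0 / (u : ℝ) ^ 4) := by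
        rw [hsqκ2]
        have h3 : l / z ≤ c0 / (u : ℝ) ^ 4 := by
          rw [div_le_iff₀ hzr0]; exact hl1
        exact (add_le_add (add_le_add hκ1u le_rfl) h3).trans (le_of_eq (by ring))
      have h1 : ‖∑ x ∈ PA N P, ee (((x.1 * x.2 : ℕ) : ℝ) * θ)‖ ≤ k0 / 12 * (N / (u ^ 2 * l ^ 2)) :=
        m5_sq52 hmain hsum hc0K hK0 hk00 hNr0 hu0 hl0
      -- exceptional pairs
      have hlP : l ≤ Real.log P := by rw [hl]; exact Real.log_le_log hzr0 hzPr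
      have hBPc : ((BP P).card : ℝ) ≤ C2 * (P / l) := by
        refine (hpb P (by omega)).trans ?_
        apply mul_le_mul_of_nonneg_left _ hC2'.le
        exact div_le_div_of_nonneg_left hP0'.le hl0 hlP
      have h3 : ∑ m ∈ Finset.Icc 1 (N / P ^ 2), rgh 1 z (m : ℤ) ≤ 1 + C1 * ((N / (P : ℝ) ^ 2) / l) :=
        m5_S52 hC1' hl0 (by rw [hl]; exact hru z (N / P ^ 2) hz2)
      have h4 := m5_ex52 hBPc (Nat.cast_nonneg _) (Finset.sum_nonneg (fun m _ => rgh_nonneg _ _ _))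
        h3 hP0' hl0 hC1' hNr0
      exact (add_le_add h1 h4).trans (le_of_eq (add_assoc _ _ _).symm)
    · push Not at hPN
      have hempty := PA_empty hPN
      have h1 : N / P ^ 2 = 0 := Nat.div_eq_of_lt hPN
      rw [hempty, h1]
      simp only [Finset.sum_empty, norm_zero, zero_add, Finset.Icc_eq_empty_of_lt (zero_lt_one), mul_zero]
      have h2 : 0 ≤ (if (z : ℝ) ^ 2 * 4 ^ j ≤ N then (z : ℝ) ^ 2 * 4 ^ j else 0) := by
        split_ifs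
        · positivity
        · exact le_rfl
      positivity
  have hiii : ∑ j ∈ Finset.range J, ‖∑ n ∈ CP N (z * 2 ^ j), ee (n * θ)‖ ≤
      k0 / 6 * (N / (u * l)) + k0 / 6 * (N / (u * l)) := by
    refine (Finset.sum_le_sum hblk).trans ?_
    rw [Finset.sum_add_distrib, Finset.sum_add_distrib, Finset.sum_const, Finset.sum_const,
      ← Finset.mul_sum, Finset.card_range, nsmul_eq_mul, nsmul_eq_mul]
    have h1 := (geo_sum ((z : ℝ) ^ 2) N (pow_pos hzr0 2) J).2 hNr0.le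
    exact m5_iii52 hJr hk00 hNr0 hu1 hl0 hC1 hC2' h1 hl2
  have htot : ‖∑ p ∈ (Finset.range (N + 1)).filter Nat.Prime, ee (p * θ)‖ ≤ k0 * (N / (u * l)) :=
    m5_tot52 hB hi hii hiii hk00 (by positivity)
  calc _ ≤ k0 * (N / (u * l)) := htot
    _ ≤ k0 * (N / Real.log N) := mul_le_mul_of_nonneg_left hinv hk00.le
    _ ≤ κ * (N / Real.log N) := mul_le_mul_of_nonneg_right hk0κ (by positivity)

end

end Pool.Agent.Lib.MP_325d88_nt
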