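import Pool.Agent.Lib.MP_325d88_nt.PNTKernel

/-!
# Fourier side of the Wiener-Ikehara theorem
-/

set_option autoImplicit false

open Real MeasureTheory Filter Topology Set

namespace Pool.Agent.MP_325d88_nt.PNT

section

variable {B : ℝ → ℝ} {A C : ℝ} {W : ℂ → ℂ}

lemma integrable_exp_bdd {b : ℝ → ℝ} {C' σ : ℝ} (hb : Measurable b) (hbC : ∀ t, |b t| ≤ C')
    (hσ : 0 < σ) : IntegrableOn (fun t => b t * Real.exp (-σ * t)) (Ioi 0) := by
  have h1 : IntegrableOn (fun t : ℝ => Real.exp (-σ * t)) (Ioi 0) :=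
    integrableOn_exp_mul_Ioi (by linarith) 0
  refine Integrable.mono' (h1.const_mul C') ?_ ?_
  · exact (hb.mul (by fun_prop)).aestronglyMeasurable
  · filter_upwards with t
    rw [norm_mul, norm_of_nonneg (Real.exp_pos _).le, Real.norm_eq_abs]
    exact mul_le_mul_of_nonneg_right (hbC t) (Real.exp_pos _).le

lemma re_transform {b : ℝ → ℝ} {C' σ : ℝ} (hb : Measurable b) (hbC : ∀ t, |b t| ≤ C')
    (hσ : 0 < σ) (u y : ℝ) :
    (Complex.exp (y * u * Complex.I) *
      ∫ t in Ioi (0:ℝ), (b t : ℂ) * Complex.exp (-((1 + σ + y * Complex.I) - 1) * t)).re =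
    ∫ t in Ioi (0:ℝ), b t * Real.exp (-σ * t) * cos (y * (u - t)) := by
  rw [← integral_const_mul]
  have hpt : ∀ t : ℝ, Complex.exp (y * u * Complex.I) *
      ((b t : ℂ) * Complex.exp (-((1 + σ + y * Complex.I) - 1) * t)) =
      ((b t * Real.exp (-σ * t) : ℝ) : ℂ) * Complex.exp ((y * (u - t) : ℝ) * Complex.I) := by
    intro t
    calc Complex.exp (y * u * Complex.I) *
          ((b t : ℂ) * Complex.exp (-((1 + σ + y * Complex.I) - 1) * t))
        = (b t : ℂ) * Complex.exp (y * u * Complex.I + -((1 + σ + y * Complex.I) - 1) * t) := by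
          rw [Complex.exp_add]; ring
      _ = (b t : ℂ) * Complex.exp (-σ * t + (y * (u - t)) * Complex.I) := by
          congr 2; ring
      _ = _ := by
          rw [Complex.exp_add]; push_cast; ring
  simp_rw [hpt]
  have hint : Integrable (fun t : ℝ => ((b t * Real.exp (-σ * t) : ℝ) : ℂ) *
      Complex.exp ((y * (u - t) : ℝ) * Complex.I)) (volume.restrict (Ioi 0)) := by
    refine Integrable.mono' (integrable_exp_bdd hb hbC hσ).norm ?_ ?_
    · refine AEStronglyMeasurable.mul ?_ ?_
      · exact (Complex.measurable_ofReal.comp (hb.mul (by fun_prop))).aestronglyMeasurable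
      · exact (by fun_prop : Continuous fun t : ℝ =>
          Complex.exp ((y * (u - t) : ℝ) * Complex.I)).aestronglyMeasurable
    · filter_upwards with t
      rw [norm_mul, Complex.norm_exp_ofReal_mul_I, mul_one, Complex.norm_real]
  have := integral_re hint
  simp only [RCLike.re_to_complex] at this
  rw [← this]
  congr 1
  ext t
  rw [Complex.re_ofReal_mul, Complex.exp_ofReal_mul_I_re]

lemma swap_pos {b : ℝ → ℝ} {C' σ L : ℝ} (hb : Measurable b) (hbC : ∀ t, |b t| ≤ C')
    (hσ : 0 < σ) (hL : 0 < L) (u : ℝ) :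
    ∫ y in (0:ℝ)..L, (1 - y / L) * (Complex.exp (y * u * Complex.I) *
      ∫ t in Ioi (0:ℝ), (b t : ℂ) * Complex.exp (-((1 + σ + y * Complex.I) - 1) * t)).re =
    ∫ t in Ioi (0:ℝ), b t * Real.exp (-σ * t) * kerL L (u - t) := by
  simp_rw [re_transform hb hbC hσ u, ← integral_const_mul]
  rw [intervalIntegral_integral_swap]
  · have hne : ∀ᵐ t ∂(volume.restrict (Ioi (0:ℝ))), t ≠ u := by
      apply ae_restrict_of_ae
      simpa using (countable_singleton u).ae_notMem volume
    refine integral_congr_ae ?_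
    filter_upwards [hne] with t ht
    rw [← kerL_eq hL (sub_ne_zero.mpr ht.symm), ← intervalIntegral.integral_const_mul]
    congr 1
    ext y
    ring
  · rw [uIoc_of_le hL.le]
    have h1 : Integrable (fun _ : ℝ => (1:ℝ)) (volume.restrict (Ioc 0 L)) := by
      simp
    have h2 := h1.mul_prod (integrable_exp_bdd hb hbC hσ).norm
    refine Integrable.mono' h2 ?_ ?_
    · refine Measurable.aestronglyMeasurable ?_
      have hb' : Measurable fun z : ℝ × ℝ => b z.2 := hb.comp measurable_snd
      unfold Function.uncurry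
      fun_prop
    · have hmem : ∀ᵐ z ∂((volume.restrict (Ioc 0 L)).prod (volume.restrict (Ioi (0:ℝ)))),
          z.1 ∈ Ioc 0 L := by
        rw [Measure.prod_restrict]
        filter_upwards [ae_restrict_mem (measurableSet_Ioc.prod measurableSet_Ioi)] with z hz
        exact hz.1
      filter_upwards [hmem] with z hz
      simp only [Function.uncurry, norm_mul, one_mul]
      have h3 : ‖1 - z.1 / L‖ ≤ 1 := by
        rw [Real.norm_eq_abs, abs_le]
        have h4 : z.1 / L ≤ 1 := (div_le_one hL).mpr hz.2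
        have h5 : 0 ≤ z.1 / L := div_nonneg hz.1.le hL.le
        constructor <;> linarith
      have h4 : ‖cos (z.1 * (u - z.2))‖ ≤ 1 := by
        rw [Real.norm_eq_abs]; exact abs_cos_le_one _
      have h5 : 0 ≤ ‖b z.2‖ * ‖Real.exp (-σ * z.2)‖ := by positivity
      calc ‖1 - z.1 / L‖ * (‖b z.2‖ * ‖Real.exp (-σ * z.2)‖ * ‖cos (z.1 * (u - z.2))‖)
          ≤ 1 * (‖b z.2‖ * ‖Real.exp (-σ * z.2)‖ * 1) := by gcongr
        _ = ‖b z.2‖ * ‖Real.exp (-σ * z.2)‖ := by ring

lemma exists_bound (hW : ContinuousOn W {s | 1 ≤ s.re}) (L : ℝ) :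
    ∃ M, ∀ σ ∈ Icc (0:ℝ) 1, ∀ y ∈ Icc (0:ℝ) L, ‖W (1 + σ + y * Complex.I)‖ ≤ M := by
  have hc : IsCompact ((Icc (0:ℝ) 1) ×ˢ (Icc (0:ℝ) L)) := isCompact_Icc.prod isCompact_Icc
  have hcont : ContinuousOn (fun z : ℝ × ℝ => W (1 + z.1 + z.2 * Complex.I))
      ((Icc (0:ℝ) 1) ×ˢ (Icc (0:ℝ) L)) := by
    refine hW.comp (by fun_prop) ?_
    rintro z ⟨hz, -⟩
    simp only [mem_ofPred_eq, Complex.add_re, Complex.one_re, Complex.ofReal_re, Complex.mul_re,
      Complex.I_re, Complex.I_im, Complex.ofReal_im]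
    linarith [hz.1]
  obtain ⟨M, hM⟩ := hc.exists_bound_of_continuousOn hcont
  exact ⟨M, fun σ hσ y hy => hM (σ, y) ⟨hσ, hy⟩⟩

/-- The basic identity on the line `Re s = 1`. -/
lemma identity {b : ℝ → ℝ} {C' L : ℝ} (hb : Measurable b) (hbC : ∀ t, |b t| ≤ C')
    (hW : ContinuousOn W {s | 1 ≤ s.re})
    (hWb : ∀ s : ℂ, 1 < s.re → W s = ∫ t in Ioi (0:ℝ), (b t : ℂ) * Complex.exp (-(s - 1) * t))
    (hL : 0 < L) (u : ℝ) :
    ∫ y in (0:ℝ)..L, (1 - y / L) * (Complex.exp (y * u * Complex.I) * W (1 + y * Complex.I)).re =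
    ∫ t in Ioi (0:ℝ), b t * kerL L (u - t) := by
  obtain ⟨M, hM⟩ := exists_bound hW L
  -- the two limits along sigma -> 0+
  have hl : Tendsto (fun σ : ℝ => ∫ y in (0:ℝ)..L, (1 - y / L) *
      (Complex.exp (y * u * Complex.I) * W (1 + σ + y * Complex.I)).re) (𝓝[>] 0)
      (𝓝 (∫ y in (0:ℝ)..L, (1 - y / L) *
        (Complex.exp (y * u * Complex.I) * W (1 + y * Complex.I)).re)) := by
    have hmeas : ∀ σ : ℝ, 0 ≤ σ → ContinuousOn (fun y : ℝ => (1 - y / L) *
        (Complex.exp (y * u * Complex.I) * W (1 + σ + y * Complex.I)).re) (uIcc 0 L) := by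
      intro σ hσ
      refine ContinuousOn.mul (by fun_prop) ?_
      refine Complex.continuous_re.comp_continuousOn (ContinuousOn.mul (by fun_prop) ?_)
      refine hW.comp (by fun_prop) ?_
      intro y _
      simp only [mem_ofPred_eq, Complex.add_re, Complex.one_re, Complex.ofReal_re, Complex.mul_re,
        Complex.I_re, Complex.I_im, Complex.ofReal_im]
      linarith
    refine intervalIntegral.tendsto_integral_filter_of_dominated_convergence (fun _ => M) ?_ ?_ ?_ ?_
    · filter_upwards [self_mem_nhdsWithin] with σ hσ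
      have := (hmeas σ (le_of_lt hσ)).aestronglyMeasurable (μ := volume) measurableSet_uIcc
      exact this.mono_measure (Measure.restrict_mono uIoc_subset_uIcc le_rfl)
    · filter_upwards [Ioc_mem_nhdsGT (show (0:ℝ) < 1 by norm_num)] with σ hσ
      filter_upwards with y hy
      rw [uIoc_of_le hL.le] at hy
      have h3 : ‖1 - y / L‖ ≤ 1 := by
        rw [Real.norm_eq_abs, abs_le]
        have h4 : y / L ≤ 1 := (div_le_one hL).mpr hy.2
        have h5 : 0 ≤ y / L := div_nonneg hy.1.le hL.le
        constructor <;> linarith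
      have h4 : ‖(Complex.exp (y * u * Complex.I) * W (1 + σ + y * Complex.I)).re‖ ≤ M := by
        refine (Complex.abs_re_le_norm _).trans ?_
        rw [norm_mul, show (y * u * Complex.I : ℂ) = ((y * u : ℝ) : ℂ) * Complex.I by push_cast; ring,
          Complex.norm_exp_ofReal_mul_I, one_mul]
        exact hM σ ⟨hσ.1.le, hσ.2⟩ y ⟨hy.1.le, hy.2⟩
      rw [norm_mul]
      calc ‖1 - y / L‖ * ‖(Complex.exp (y * u * Complex.I) * W (1 + σ + y * Complex.I)).re‖
          ≤ 1 * M := mul_le_mul h3 h4 (norm_nonneg _) zero_le_one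
        _ = M := one_mul M
    · exact intervalIntegrable_const
    · filter_upwards with y _
      refine Tendsto.const_mul _ ?_
      refine (Complex.continuous_re.tendsto _).comp ?_
      refine Tendsto.const_mul _ ?_
      have h1 : ContinuousWithinAt W {s | 1 ≤ s.re} (1 + y * Complex.I) := by
        apply hW
        simp
      refine h1.tendsto.comp ?_
      refine tendsto_nhdsWithin_iff.mpr ⟨?_, ?_⟩
      · have : Tendsto (fun σ : ℝ => (1 + (σ:ℂ) + y * Complex.I)) (𝓝 0)
            (𝓝 (1 + ((0:ℝ):ℂ) + y * Complex.I)) := by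
          refine Continuous.tendsto (by fun_prop) 0
        simp only [Complex.ofReal_zero, add_zero] at this
        exact this.mono_left nhdsWithin_le_nhds
      · filter_upwards [self_mem_nhdsWithin] with σ hσ
        simp only [mem_ofPred_eq, Complex.add_re, Complex.one_re, Complex.ofReal_re, Complex.mul_re,
          Complex.I_re, Complex.I_im, Complex.ofReal_im]
        have : (0:ℝ) < σ := hσ
        linarith
  have hr : Tendsto (fun σ : ℝ => ∫ t in Ioi (0:ℝ), b t * Real.exp (-σ * t) * kerL L (u - t))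
      (𝓝[>] 0) (𝓝 (∫ t in Ioi (0:ℝ), b t * kerL L (u - t))) := by
    have hKint : Integrable (fun t => kerL L (u - t)) := (integrable_kerL hL).comp_sub_left u
    refine tendsto_integral_filter_of_dominated_convergence (fun t => C' * kerL L (u - t)) ?_ ?_ ?_ ?_
    · filter_upwards with σ
      refine (Measurable.mul (hb.mul (by fun_prop)) ?_).aestronglyMeasurable
      exact (measurable_kerL L).comp (measurable_const.sub measurable_id)
    · filter_upwards [self_mem_nhdsWithin] with σ hσ
      filter_upwards [ae_restrict_mem measurableSet_Ioi] with t ht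
      have h1 : Real.exp (-σ * t) ≤ 1 := by
        rw [Real.exp_le_one_iff]
        have : 0 < σ * t := mul_pos hσ ht
        linarith
      have hC' : 0 ≤ C' := (abs_nonneg _).trans (hbC 0)
      rw [norm_mul, norm_mul, Real.norm_eq_abs, norm_of_nonneg (Real.exp_pos _).le,
        norm_of_nonneg (kerL_nonneg hL _)]
      refine mul_le_mul_of_nonneg_right ?_ (kerL_nonneg hL _)
      calc |b t| * Real.exp (-σ * t) ≤ C' * 1 := by
            apply mul_le_mul (hbC t) h1 (Real.exp_pos _).le hC'
        _ = C' := mul_one _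
    · exact (hKint.const_mul C').integrableOn
    · filter_upwards with t
      refine Tendsto.mul_const _ ?_
      have : Tendsto (fun σ : ℝ => b t * Real.exp (-σ * t)) (𝓝 0) (𝓝 (b t * Real.exp (-0 * t))) :=
        Continuous.tendsto (by fun_prop) 0
      simp only [neg_zero, zero_mul, Real.exp_zero, mul_one] at this
      exact this.mono_left nhdsWithin_le_nhds
  refine tendsto_nhds_unique_of_eventuallyEq hl hr ?_
  filter_upwards [self_mem_nhdsWithin] with σ hσ
  rw [← swap_pos hb hbC hσ hL u]
  congr 1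
  ext y
  rw [hWb]
  have : (0:ℝ) < σ := hσ
  simp only [Complex.add_re, Complex.one_re, Complex.ofReal_re, Complex.mul_re,
    Complex.I_re, Complex.I_im, Complex.ofReal_im]
  linarith

/-- Riemann-Lebesgue applied to the left side. -/
lemma tendsto_left (hW : ContinuousOn W {s | 1 ≤ s.re}) {L : ℝ} (hL : 0 < L) :
    Tendsto (fun u : ℝ => ∫ y in (0:ℝ)..L, (1 - y / L) *
      (Complex.exp (y * u * Complex.I) * W (1 + y * Complex.I)).re) atTop (𝓝 0) := by
  have hRL := Real.tendsto_integral_exp_smul_cocompact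
    ((Ioc 0 L).indicator fun y : ℝ => ((1 - y / L : ℝ) : ℂ) * W (1 + y * Complex.I))
  have hu : Tendsto (fun u : ℝ => -(u / (2 * π))) atTop (cocompact ℝ) := by
    refine Tendsto.mono_right ?_ atBot_le_cocompact
    exact tendsto_neg_atTop_atBot.comp (tendsto_id.atTop_div_const (by positivity))
  have h2 := (Complex.continuous_re.tendsto _).comp (hRL.comp hu)
  simp only [Complex.zero_re] at h2
  refine h2.congr ?_
  intro u
  simp only [Function.comp]
  have hcW : ContinuousOn (fun y : ℝ => W (1 + y * Complex.I)) univ := by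
    refine hW.comp (by fun_prop) ?_
    intro y _
    simp
  have hcW' : Continuous (fun y : ℝ => W (1 + y * Complex.I)) := continuousOn_univ.mp hcW
  have h3 : ∀ v : ℝ, (Real.fourierChar (-(v * -(u / (2 * π)))) •
      (Ioc 0 L).indicator (fun y : ℝ => ((1 - y / L : ℝ) : ℂ) * W (1 + y * Complex.I)) v) =
      (Ioc 0 L).indicator (fun y : ℝ => ((1 - y / L : ℝ) : ℂ) *
        (Complex.exp (y * u * Complex.I) * W (1 + y * Complex.I))) v := by
    intro v
    by_cases hv : v ∈ Ioc 0 L
    · rw [indicator_of_mem hv, indicator_of_mem hv, Circle.smul_def, Real.fourierChar_apply,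
        smul_eq_mul]
      rw [show (2 * π * (-(v * -(u / (2 * π)))) : ℝ) = v * u by field_simp]
      push_cast
      ring
    · rw [indicator_of_notMem hv, indicator_of_notMem hv, smul_zero]
  simp_rw [h3]
  rw [integral_indicator measurableSet_Ioc, ← intervalIntegral.integral_of_le hL.le]
  have hint : IntervalIntegrable (fun y : ℝ => ((1 - y / L : ℝ) : ℂ) *
        (Complex.exp (y * u * Complex.I) * W (1 + y * Complex.I))) volume 0 L := by
    apply Continuous.intervalIntegrable
    exact (by fun_prop : Continuous fun y : ℝ => ((1 - y / L : ℝ) : ℂ)).mul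
      ((by fun_prop : Continuous fun y : ℝ => Complex.exp (y * u * Complex.I)).mul hcW')
  have := intervalIntegral.intervalIntegral_re hint
  simp only [RCLike.re_to_complex] at this
  rw [← this]
  congr 1
  ext y
  rw [Complex.re_ofReal_mul]

/-- Main consequence: the smoothed average of `b` tends to zero. -/
theorem tendsto_smooth {b : ℝ → ℝ} {C' L : ℝ} (hb : Measurable b) (hbC : ∀ t, |b t| ≤ C')
    (hW : ContinuousOn W {s | 1 ≤ s.re})
    (hWb : ∀ s : ℂ, 1 < s.re → W s = ∫ t in Ioi (0:ℝ), (b t : ℂ) * Complex.exp (-(s - 1) * t))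
    (hL : 0 < L) :
    Tendsto (fun u : ℝ => ∫ t in Ioi (0:ℝ), b t * kerL L (u - t)) atTop (𝓝 0) := by
  refine (tendsto_left hW hL).congr ?_
  intro u
  exact identity hb hbC hW hWb hL u

end

end Pool.Agent.MP_325d88_nt.PNT
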