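import Mathlib

/-!
# Fejer kernel for the Wiener-Ikehara theorem

`ker v = (1 - cos v) / v ^ 2` (with the value `0` at `v = 0`).
-/

set_option autoImplicit false

open Real MeasureTheory Filter Topology Set

namespace Pool.Agent.MP_325d88_nt.PNT

/-- The Fejer kernel. -/
noncomputable def ker (v : ℝ) : ℝ := (1 - cos v) / v ^ 2

lemma ker_nonneg (v : ℝ) : 0 ≤ ker v := by
  unfold ker
  have := cos_le_one v
  exact div_nonneg (by linarith) (sq_nonneg v)

lemma ker_le (v : ℝ) : ker v ≤ 4 * (1 + v ^ 2)⁻¹ := by
  unfold ker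
  have h1 : 1 - cos v ≤ 2 := by linarith [neg_one_le_cos v]
  have h2 : 1 - cos v ≤ v ^ 2 / 2 := by linarith [one_sub_sq_div_two_le_cos (x := v)]
  rcases eq_or_ne v 0 with rfl | hv
  · simp
  have hv2 : 0 < v ^ 2 := by positivity
  rw [div_le_iff₀ hv2, ← div_eq_mul_inv, div_mul_eq_mul_div, le_div_iff₀ (by positivity)]
  rcases le_total (v ^ 2) 1 with h | h
  · nlinarith
  · nlinarith

lemma measurable_ker : Measurable ker := by
  unfold ker
  fun_prop

lemma integrable_ker : Integrable ker := by
  refine Integrable.mono' (integrable_inv_one_add_sq.const_mul 4) measurable_ker.aestronglyMeasurable ?_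
  filter_upwards with v
  rw [norm_of_nonneg (ker_nonneg v)]
  exact ker_le v

/-- total mass of the kernel -/
noncomputable def mass : ℝ := ∫ v, ker v

lemma mass_pos : 0 < mass := by
  unfold mass
  rw [integral_pos_iff_support_of_nonneg ker_nonneg integrable_ker]
  have hsub : Ioo (0 : ℝ) 1 ⊆ Function.support ker := by
    intro v hv
    simp only [Function.mem_support, ker]
    have hv0 : v ≠ 0 := hv.1.ne'
    have : cos v < 1 := by
      rw [← cos_zero]
      exact cos_lt_cos_of_nonneg_of_le_pi le_rfl (by linarith [hv.2, pi_gt_three]) hv.1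
    have h1 : 0 < 1 - cos v := by linarith
    positivity
  refine lt_of_lt_of_le ?_ (measure_mono hsub)
  simp

/-- the mass of the kernel on `(-R, R]` tends to the total mass -/
lemma tendsto_mass : Tendsto (fun R : ℝ => ∫ v in (-R)..R, ker v) atTop (𝓝 mass) :=
  intervalIntegral_tendsto_integral integrable_ker tendsto_neg_atTop_atBot tendsto_id

/-- scaled kernel -/
noncomputable def kerL (L v : ℝ) : ℝ := L * ker (L * v)

lemma kerL_nonneg {L : ℝ} (hL : 0 < L) (v : ℝ) : 0 ≤ kerL L v :=
  mul_nonneg hL.le (ker_nonneg _)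

lemma measurable_kerL (L : ℝ) : Measurable (kerL L) := by
  unfold kerL
  exact (measurable_ker.comp (measurable_const_mul L)).const_mul L

lemma integrable_kerL {L : ℝ} (hL : 0 < L) : Integrable (kerL L) := by
  unfold kerL
  exact (integrable_ker.comp_mul_left' hL.ne').const_mul L

lemma integral_kerL {L : ℝ} (hL : 0 < L) : ∫ v, kerL L v = mass := by
  unfold kerL mass
  rw [integral_const_mul, Measure.integral_comp_mul_left, abs_of_pos (inv_pos.mpr hL), smul_eq_mul,
    ← mul_assoc, mul_inv_cancel₀ hL.ne', one_mul]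

lemma intervalIntegral_kerL {L : ℝ} (hL : 0 < L) (a b : ℝ) :
    ∫ v in a..b, kerL L v = ∫ v in (L * a)..(L * b), ker v := by
  unfold kerL
  rw [intervalIntegral.integral_const_mul, intervalIntegral.integral_comp_mul_left _ hL.ne',
    smul_eq_mul, ← mul_assoc, mul_inv_cancel₀ hL.ne', one_mul]

/-- The kernel as a cosine transform of a tent. -/
lemma kerL_eq {L : ℝ} (hL : 0 < L) {v : ℝ} (hv : v ≠ 0) :
    ∫ y in (0:ℝ)..L, (1 - y / L) * cos (y * v) = kerL L v := by
  have hder : ∀ y ∈ uIcc (0:ℝ) L, HasDerivAt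
      (fun y : ℝ => (1 - y / L) * sin (y * v) / v - cos (y * v) / (L * v ^ 2))
      ((1 - y / L) * cos (y * v)) y := by
    intro y _
    have h1 : HasDerivAt (fun y : ℝ => 1 - y / L) (-(1 / L)) y := by
      simpa using ((hasDerivAt_id y).div_const L).const_sub 1
    have hyv : HasDerivAt (fun y : ℝ => y * v) v y := by
      simpa using (hasDerivAt_id y).mul_const v
    have h2 : HasDerivAt (fun y : ℝ => sin (y * v)) (cos (y * v) * v) y := hyv.sin
    have h3 : HasDerivAt (fun y : ℝ => cos (y * v)) (-sin (y * v) * v) y := hyv.cos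
    have h4 := ((h1.mul h2).div_const v).sub (h3.div_const (L * v ^ 2))
    convert! h4 using 1
    field_simp
    ring
  rw [intervalIntegral.integral_eq_sub_of_hasDerivAt hder]
  · unfold kerL ker
    have : L ≠ 0 := hL.ne'
    simp only [zero_mul, sin_zero, cos_zero, div_self this]
    field_simp
    ring
  · apply Continuous.intervalIntegrable
    fun_prop

end Pool.Agent.MP_325d88_nt.PNT
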