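import Mathlib
import Pool.Agent.Lib.MP_325d88_nt.Lin4

/-!
# Relative counting: the core deduction
-/

namespace Pool.Agent.Lib.MP_325d88_nt

open Finset

noncomputable section

theorem rgh_prime (w z : ℕ) (n : ℤ) (hn : n.toNat.Prime) (hz : (z : ℤ) < n) : rgh w z n = 1 := by
  rw [rgh_eq, if_pos]
  intro p hp hd
  rw [mem_PR] at hp
  have h1 : n = (n.toNat : ℤ) := by omega
  rw [h1] at hd
  have h2 : p ∣ n.toNat := by exact_mod_cast hd
  have h3 := (Nat.prime_dvd_prime_iff_eq hp.2.2 hn).1 h2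
  omega

/-- reindexing of the support -/
theorem sum_support (Wm bx s : ℤ) (hW : 0 < Wm) (A0 : ℤ) (La : ℕ) (U : Finset ℕ) (xf : ℕ → ℤ)
    (hU : ∀ u ∈ U, u.Prime ∧ (u : ℤ) = Wm * xf u + bx ∧ xf u + s ∈ Finset.Ico A0 (A0 + La))
    (φ : ℤ → ℝ) :
    ∑ a ∈ Finset.Ico A0 (A0 + La), (if (Wm * (a - s) + bx).toNat ∈ U then φ a else 0) =
      ∑ u ∈ U, φ (xf u + s) := by
  rw [← Finset.sum_filter]
  symm
  apply Finset.sum_nbij' (fun u => xf u + s) (fun a => (Wm * (a - s) + bx).toNat)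
  · intro u hu
    obtain ⟨h1, h2, h3⟩ := hU u hu
    rw [Finset.mem_filter]
    refine ⟨h3, ?_⟩
    have e : Wm * (xf u + s - s) + bx = u := by rw [h2]; ring
    rw [e, Int.toNat_natCast]
    exact hu
  · intro a ha
    rw [Finset.mem_filter] at ha
    exact ha.2
  · intro u hu
    obtain ⟨h1, h2, h3⟩ := hU u hu
    have e : Wm * (xf u + s - s) + bx = u := by rw [h2]; ring
    simp only [e, Int.toNat_natCast]
  · intro a ha
    rw [Finset.mem_filter] at ha
    obtain ⟨h1, h2, h3⟩ := hU _ ha.2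
    have h4 : 0 < (Wm * (a - s) + bx).toNat := h1.pos
    have h5 : (((Wm * (a - s) + bx).toNat : ℕ) : ℤ) = Wm * (a - s) + bx := by omega
    rw [h5] at h2
    have h6 : Wm * (a - s) = Wm * xf ((Wm * (a - s) + bx).toNat) := by linarith
    have h7 := mul_left_cancel₀ hW.ne' h6
    linarith
  · intro u _
    rfl

theorem rel_core (α β Wm bx bY bz : ℤ) (hWm : 0 < Wm) (hbz : bz = α * bx + β * bY) (A0 C0 : ℤ)
    (La H Lc : ℕ) (hLa : 0 < La) (hH : 0 < H) (hLc : 0 < Lc) (U V : Finset ℕ) (w z : ℕ)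
    (cN K2 δ ε : ℝ) (hcN : 0 < cN) (hK2 : 1 ≤ K2)
    (hcV : cN * VV w z ≤ K2) (hδ0 : 0 ≤ δ) (hδ1 : δ ≤ 1) (hε0 : 0 ≤ ε) (hε1 : ε ≤ 1)
    (xf yf : ℕ → ℤ)
    (hU : ∀ u ∈ U, u.Prime ∧ z < u ∧ (u : ℤ) = Wm * xf u + bx ∧
      ∀ b ∈ Finset.Ico (0 : ℤ) (0 + H), xf u + β * b ∈ Finset.Ico A0 (A0 + La))
    (hV : ∀ v ∈ V, v.Prime ∧ z < v ∧ (v : ℤ) = Wm * yf v + bY ∧
      ∀ b ∈ Finset.Ico (0 : ℤ) (0 + H), yf v + (-α) * b ∈ Finset.Ico C0 (C0 + Lc))
    (hpos : ∀ a ∈ Finset.Ico A0 (A0 + La), ∀ c ∈ Finset.Ico C0 (C0 + Lc),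
      (z : ℤ) < Wm * (α * a + β * c) + bz)
    (hLF : LF (Finset.Ico A0 (A0 + La)) (Finset.Ico (0 : ℤ) (0 + H)) (Finset.Ico C0 (C0 + Lc))
        (fun a b => (VV w z)⁻¹ * rgh w z (Wm * (a - β * b) + bx))
        (fun b c => (VV w z)⁻¹ * rgh w z (Wm * (α * b + c) + bY))
        (fun a c => (VV w z)⁻¹ * rgh w z (Wm * (α * a + β * c) + bz)) δ)
    (hcut : ∀ (u v : ℤ → ℝ), (∀ a, |u a| ≤ 1) → (∀ c, |v c| ≤ 1) →
      |∑ a ∈ Finset.Ico A0 (A0 + La), ∑ c ∈ Finset.Ico C0 (C0 + Lc),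
        (cN * (if (Wm * (α * a + β * c) + bz).toNat.Prime then 1 else 0) - 1) * u a * v c| ≤
        ε * ((La : ℝ) * Lc)) :
    |cN * (((U ×ˢ V).filter (fun x => (α * x.1 + β * x.2).toNat.Prime)).card : ℝ) -
      U.card * V.card| ≤
      11 * K2 ^ 3 * (δ ^ (1 / 16 : ℝ) + ε ^ (1 / 16 : ℝ)) * ((La : ℝ) * Lc) / cN ^ 2 := by
  classical
  have hK20 : 0 < K2 := by linarith
  have hVV0 := VV_pos w z
  set g : ℤ → ℝ := fun n => cN * (if (Wm * n + bz).toNat.Prime then 1 else 0) - 1 with hg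
  set F1 : ℤ → ℤ → ℝ := fun a b => if (Wm * (a - β * b) + bx).toNat ∈ U then cN else 0 with hF1
  set F2 : ℤ → ℤ → ℝ := fun b c => if (Wm * (α * b + c) + bY).toNat ∈ V then cN else 0 with hF2
  have hcA : ((Finset.Ico A0 (A0 + La)).card : ℝ) = La := by rw [Int.card_Ico]; simp
  have hcB : ((Finset.Ico (0 : ℤ) (0 + H)).card : ℝ) = H := by rw [Int.card_Ico]; simp
  have hcC : ((Finset.Ico C0 (C0 + Lc)).card : ℝ) = Lc := by rw [Int.card_Ico]; simp
  -- majorants
  have hmaj : ∀ n : ℤ, n.toNat.Prime → (z : ℤ) < n → cN / K2 ≤ (VV w z)⁻¹ * rgh w z n := by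
    intro n h1 h2
    rw [rgh_prime w z n h1 h2, mul_one, div_le_iff₀ hK20, inv_mul_eq_div, le_div_iff₀ hVV0]
    exact hcV
  have hnn : ∀ n : ℤ, 0 ≤ (VV w z)⁻¹ * rgh w z n := fun n =>
    mul_nonneg (inv_pos.2 hVV0).le (rgh_nonneg _ _ _)
  have hd := dens (Finset.Ico A0 (A0 + La)) (Finset.Ico (0 : ℤ) (0 + H)) (Finset.Ico C0 (C0 + Lc))
    hδ0 hδ1 hε0 hε1 hLF (f1 := fun a b => F1 a b / K2) (f2 := fun b c => F2 b c / K2)
    (g3 := fun a c => g (α * a + β * c) / K2)
    (by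
      intro a _ b _
      simp only [hF1]
      split_ifs with h
      · obtain ⟨h1, h2, _⟩ := hU _ h
        rw [abs_of_nonneg (by positivity)]
        apply hmaj _ h1
        omega
      · rw [zero_div, abs_zero]; exact hnn _)
    (by
      intro b _ c _
      simp only [hF2]
      split_ifs with h
      · obtain ⟨h1, h2, _⟩ := hV _ h
        rw [abs_of_nonneg (by positivity)]
        apply hmaj _ h1
        omega
      · rw [zero_div, abs_zero]; exact hnn _)
    (by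
      intro a ha c hc
      simp only [hg]
      have h1 : 1 / K2 ≤ 1 := by rw [div_le_one hK20]; exact hK2
      have h2 : 0 < 1 / K2 := by positivity
      split_ifs with h
      · have h3 := hmaj _ h (hpos a ha c hc)
        have h4 := hnn (Wm * (α * a + β * c) + bz)
        have h5 : (cN * 1 - 1) / K2 = cN / K2 - 1 / K2 := by ring
        have h6 : 0 < cN / K2 := by positivity
        rw [h5, abs_le]
        constructor <;> linarith
      · have h4 := hnn (Wm * (α * a + β * c) + bz)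
        have h5 : (cN * 0 - 1) / K2 = -(1 / K2) := by ring
        rw [h5, abs_neg, abs_of_pos h2]
        linarith)
    (by
      intro u v hu hv
      have h1 := hcut u v hu hv
      rw [hcA, hcC]
      have h2 : ∑ a ∈ Finset.Ico A0 (A0 + La), ∑ c ∈ Finset.Ico C0 (C0 + Lc),
          g (α * a + β * c) / K2 * u a * v c =
          (∑ a ∈ Finset.Ico A0 (A0 + La), ∑ c ∈ Finset.Ico C0 (C0 + Lc),
          g (α * a + β * c) * u a * v c) / K2 := by
        rw [Finset.sum_div]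
        apply Finset.sum_congr rfl
        intro a _
        rw [Finset.sum_div]
        apply Finset.sum_congr rfl
        intro c _
        ring
      rw [h2, abs_div, abs_of_pos hK20]
      refine (div_le_self (abs_nonneg _) hK2).trans ?_
      exact h1)
  rw [hcA, hcB, hcC] at hd
  -- counting identity
  have hid : ∑ a ∈ Finset.Ico A0 (A0 + La), ∑ b ∈ Finset.Ico (0 : ℤ) (0 + H),
      ∑ c ∈ Finset.Ico C0 (C0 + Lc), F1 a b / K2 * (F2 b c / K2) * (g (α * a + β * c) / K2) =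
      H * (cN ^ 2 / K2 ^ 3 * (cN * (((U ×ˢ V).filter
        (fun x => (α * x.1 + β * x.2).toNat.Prime)).card : ℝ) - U.card * V.card)) := by
    rw [Finset.sum_comm]
    have hb : ∀ b ∈ Finset.Ico (0 : ℤ) (0 + H), ∑ a ∈ Finset.Ico A0 (A0 + La),
        ∑ c ∈ Finset.Ico C0 (C0 + Lc), F1 a b / K2 * (F2 b c / K2) * (g (α * a + β * c) / K2) =
        cN ^ 2 / K2 ^ 3 * (cN * (((U ×ˢ V).filter
        (fun x => (α * x.1 + β * x.2).toNat.Prime)).card : ℝ) - U.card * V.card) := by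
      intro b hbb
      have h1 : ∀ a ∈ Finset.Ico A0 (A0 + La), ∑ c ∈ Finset.Ico C0 (C0 + Lc),
          F1 a b / K2 * (F2 b c / K2) * (g (α * a + β * c) / K2) =
          if (Wm * (a - β * b) + bx).toNat ∈ U then
            cN ^ 2 / K2 ^ 3 * ∑ v ∈ V, g (α * a + β * (yf v + (-α) * b)) else 0 := by
        intro a _
        split_ifs with h
        · have h2 := sum_support Wm bY ((-α) * b) hWm C0 Lc V yf
            (fun v hv => ⟨(hV v hv).1, (hV v hv).2.2.1, (hV v hv).2.2.2 b hbb⟩)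
            (fun c => cN ^ 2 / K2 ^ 3 * g (α * a + β * c))
          rw [Finset.mul_sum, ← h2]
          apply Finset.sum_congr rfl
          intro c _
          have e : Wm * (c - (-α) * b) + bY = Wm * (α * b + c) + bY := by ring
          rw [e]
          simp only [hF1, hF2, if_pos h]
          split_ifs
          · field_simp
          · ring
        · apply Finset.sum_eq_zero
          intro c _
          simp only [hF1, if_neg h]
          ring
      rw [Finset.sum_congr rfl h1]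
      have h3 := sum_support Wm bx (β * b) hWm A0 La U xf
        (fun u hu => ⟨(hU u hu).1, (hU u hu).2.2.1, (hU u hu).2.2.2 b hbb⟩)
        (fun a => cN ^ 2 / K2 ^ 3 * ∑ v ∈ V, g (α * a + β * (yf v + (-α) * b)))
      rw [h3, ← Finset.mul_sum]
      congr 1
      have h4 : ∀ u ∈ U, ∑ v ∈ V, g (α * (xf u + β * b) + β * (yf v + (-α) * b)) =
          ∑ v ∈ V, (cN * (if (α * u + β * v).toNat.Prime then (1 : ℝ) else 0) - 1) := by
        intro u hu
        apply Finset.sum_congr rfl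
        intro v hv
        simp only [hg]
        have e : Wm * (α * (xf u + β * b) + β * (yf v + (-α) * b)) + bz = α * u + β * v := by
          rw [(hU u hu).2.2.1, (hV v hv).2.2.1, hbz]; ring
        rw [e]
      rw [Finset.sum_congr rfl h4]
      rw [← Finset.sum_product' U V (fun u v => cN * (if (α * (u : ℤ) + β * (v : ℤ)).toNat.Prime
        then (1 : ℝ) else 0) - 1)]
      rw [Finset.sum_sub_distrib, ← Finset.mul_sum, ← Finset.sum_filter, Finset.sum_const,
        Finset.sum_const, Finset.card_product]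
      simp only [nsmul_eq_mul, mul_one]
      push_cast
      ring
    rw [Finset.sum_congr rfl hb, Finset.sum_const, nsmul_eq_mul, hcB]
  rw [hid] at hd
  have hHr : (0 : ℝ) < H := by exact_mod_cast hH
  set D : ℝ := cN * (((U ×ˢ V).filter (fun x => (α * x.1 + β * x.2).toNat.Prime)).card : ℝ) -
      U.card * V.card with hD
  rw [abs_mul, abs_mul, abs_of_pos hHr, abs_of_pos (by positivity : 0 < cN ^ 2 / K2 ^ 3)] at hd
  have h1 : cN ^ 2 / K2 ^ 3 * |D| ≤ 11 * (δ ^ (1 / 16 : ℝ) + ε ^ (1 / 16 : ℝ)) * ((La : ℝ) * Lc) := by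
    have h2 : (H : ℝ) * (cN ^ 2 / K2 ^ 3 * |D|) ≤
        H * (11 * (δ ^ (1 / 16 : ℝ) + ε ^ (1 / 16 : ℝ)) * ((La : ℝ) * Lc)) := by
      refine hd.trans (le_of_eq ?_)
      ring
    exact le_of_mul_le_mul_left h2 hHr
  rw [le_div_iff₀ (by positivity)]
  rw [div_mul_eq_mul_div, div_le_iff₀ (by positivity)] at h1
  linarith

end

end Pool.Agent.Lib.MP_325d88_nt
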