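import Mathlib
import Pool.Agent.Lib.MP_325d88_nt.RelA
import Pool.Agent.Lib.MP_325d88_nt.RelCountDef
import Pool.Agent.Lib.MP_325d88_nt.Upper2
import Pool.Agent.Lib.MP_325d88_nt.Degree

/-!
# Relative counting: choice of parameters
-/

namespace Pool.Agent.Lib.MP_325d88_nt

open Finset

noncomputable section

theorem rpow16_le (δ t : ℝ) (h0 : 0 ≤ δ) (ht : 0 ≤ t) (h : δ ≤ t ^ 16) : δ ^ (1 / 16 : ℝ) ≤ t := by
  have h1 : δ ^ (1 / 16 : ℝ) ≤ (t ^ 16) ^ (1 / 16 : ℝ) := Real.rpow_le_rpow h0 h (by norm_num)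
  refine h1.trans (le_of_eq ?_)
  rw [← Real.rpow_natCast, ← Real.rpow_mul ht]
  norm_num

/-- geometry of the box, first variable -/
theorem box_in (W x1 x2 X N H : ℕ) (bx β : ℤ) (hW : 1 ≤ W) (hNX : W * N ≤ X) (hXN : X < W * (N + 1))
    (hbx0 : 0 ≤ bx) (hbx : bx ≤ H) (hx2 : x2 ≤ H) (hβ : β ≠ 0) (u : ℕ) (x : ℤ)
    (hu : (u : ℤ) = W * x + bx) (h1 : x1 * X ≤ 10000 * u) (h2 : 10000 * u ≤ x2 * X) (hx12 : x1 < x2)
    (t : ℤ) (ht : t ∈ Finset.Ico (0 : ℤ) (0 + H)) :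
    x + β * t ∈ Finset.Ico (((x1 * N / 10000 : ℕ) : ℤ) - (β.natAbs + 1 : ℕ) * H)
      ((((x1 * N / 10000 : ℕ) : ℤ) - (β.natAbs + 1 : ℕ) * H) +
        ((x2 * N / 10000 - x1 * N / 10000 + 2 * ((β.natAbs + 1) * H) + 1 : ℕ) : ℤ)) := by
  rw [Finset.mem_Ico] at ht ⊢
  have hWz : (1 : ℤ) ≤ W := by exact_mod_cast hW
  have hNXz : (W : ℤ) * N ≤ X := by exact_mod_cast hNX
  have hXNz : (X : ℤ) < W * (N + 1) := by exact_mod_cast hXN
  have h1z : (x1 : ℤ) * X ≤ 10000 * u := by exact_mod_cast h1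
  have h2z : 10000 * (u : ℤ) ≤ x2 * X := by exact_mod_cast h2
  have hx1z : (0 : ℤ) ≤ x1 := by positivity
  have hx2z : (0 : ℤ) ≤ x2 := by positivity
  have hx2H : (x2 : ℤ) ≤ H := by exact_mod_cast hx2
  -- lower bound for x
  have hlo : (x1 : ℤ) * N ≤ 10000 * (x + bx) := by
    have e1 : (W : ℤ) * (x1 * N) ≤ W * (10000 * (x + bx)) := by
      have e2 : (x1 : ℤ) * (W * N) ≤ x1 * X := mul_le_mul_of_nonneg_left hNXz hx1z
      have e3 : bx ≤ W * bx := by nlinarith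
      nlinarith
    exact le_of_mul_le_mul_left e1 (by omega)
  have hhi : 10000 * x ≤ (x2 : ℤ) * (N + 1) := by
    have e1 : (W : ℤ) * (10000 * x) ≤ W * (x2 * (N + 1)) := by
      have e2 : (x2 : ℤ) * X ≤ x2 * (W * (N + 1)) := mul_le_mul_of_nonneg_left hXNz.le hx2z
      nlinarith
    exact le_of_mul_le_mul_left e1 (by omega)
  have hq1 : ((x1 * N / 10000 : ℕ) : ℤ) ≤ x + bx := by
    have : ((x1 * N / 10000 : ℕ) : ℤ) = ((x1 : ℤ) * N) / 10000 := by push_cast; rfl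
    rw [this]
    omega
  have hq2 : x ≤ ((x2 * N / 10000 : ℕ) : ℤ) + 1 + x2 := by
    have : ((x2 * N / 10000 : ℕ) : ℤ) = ((x2 : ℤ) * N) / 10000 := by push_cast; rfl
    rw [this]
    have e : (x2 : ℤ) * (N + 1) = x2 * N + x2 := by ring
    rw [e] at hhi
    omega
  have hle : x1 * N / 10000 ≤ x2 * N / 10000 :=
    Nat.div_le_div_right (Nat.mul_le_mul_right _ hx12.le)
  have hβt : |β * t| ≤ (β.natAbs : ℤ) * t := by
    rw [abs_mul, abs_of_nonneg ht.1, Int.natCast_natAbs]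
  have hβt1 := abs_le.1 hβt
  have hβp : 1 ≤ (β.natAbs : ℤ) := by
    have : 1 ≤ β.natAbs := Int.natAbs_pos.2 hβ
    exact_mod_cast this
  have ht1 : t ≤ (H : ℤ) - 1 := by omega
  have hmul : (β.natAbs : ℤ) * t ≤ (β.natAbs : ℤ) * (H - 1) :=
    mul_le_mul_of_nonneg_left ht1 (by omega)
  have hcast : ((x2 * N / 10000 - x1 * N / 10000 + 2 * ((β.natAbs + 1) * H) + 1 : ℕ) : ℤ) =
      ((x2 * N / 10000 : ℕ) : ℤ) - ((x1 * N / 10000 : ℕ) : ℤ) + 2 * ((β.natAbs + 1 : ℕ) * H) + 1 := by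
    push_cast [Nat.cast_sub hle]
    ring
  rw [hcast]
  push_cast
  push_cast at hq1 hq2
  set q1 : ℤ := ((x1 : ℤ) * N) / 10000 with hq1d
  set q2 : ℤ := ((x2 : ℤ) * N) / 10000 with hq2d
  have e1 : ((β.natAbs : ℤ) + 1) * H = (β.natAbs : ℤ) * H + H := by ring
  have e2 : (β.natAbs : ℤ) * ((H : ℤ) - 1) = (β.natAbs : ℤ) * H - (β.natAbs : ℤ) := by ring
  simp only [Int.natCast_natAbs] at *
  rw [e2] at hmul
  constructor
  · nlinarith
  · nlinarith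

/-- lower bound for the third form on the box -/
theorem lin_low (α β : ℤ) (x1 x2 y1 y2 : ℕ)
    (hpos : 0 < α * x1 + β * y1 ∧ 0 < α * x1 + β * y2 ∧ 0 < α * x2 + β * y1 ∧ 0 < α * x2 + β * y2)
    (N : ℕ) (A B a c : ℤ) (hA : 0 ≤ A) (hB : 0 ≤ B)
    (ha1 : x1 * N - 10000 * A ≤ 10000 * a) (ha2 : 10000 * a ≤ x2 * N + 10000 * A)
    (hc1 : y1 * N - 10000 * B ≤ 10000 * c) (hc2 : 10000 * c ≤ y2 * N + 10000 * B) :
    (N : ℤ) - 10000 * (|α| * A + |β| * B) ≤ 10000 * (α * a + β * c) := by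
  have hN : (0 : ℤ) ≤ N := by positivity
  -- α a
  have hαa : (0 ≤ α ∧ α * (x1 * N) - 10000 * (|α| * A) ≤ 10000 * (α * a)) ∨
      (α < 0 ∧ α * (x2 * N) - 10000 * (|α| * A) ≤ 10000 * (α * a)) := by
    rcases le_or_gt 0 α with h | h
    · left
      refine ⟨h, ?_⟩
      rw [abs_of_nonneg h]
      have := mul_le_mul_of_nonneg_left ha1 h
      nlinarith
    · right
      refine ⟨h, ?_⟩
      rw [abs_of_neg h]
      have := mul_le_mul_of_nonneg_left ha2 (by omega : 0 ≤ -α)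
      nlinarith
  have hβc : (0 ≤ β ∧ β * (y1 * N) - 10000 * (|β| * B) ≤ 10000 * (β * c)) ∨
      (β < 0 ∧ β * (y2 * N) - 10000 * (|β| * B) ≤ 10000 * (β * c)) := by
    rcases le_or_gt 0 β with h | h
    · left
      refine ⟨h, ?_⟩
      rw [abs_of_nonneg h]
      have := mul_le_mul_of_nonneg_left hc1 h
      nlinarith
    · right
      refine ⟨h, ?_⟩
      rw [abs_of_neg h]
      have := mul_le_mul_of_nonneg_left hc2 (by omega : 0 ≤ -β)
      nlinarith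
  obtain ⟨p1, p2, p3, p4⟩ := hpos
  have key : ∀ s : ℤ, 0 < s → (N : ℤ) ≤ s * N := by
    intro s hs
    nlinarith
  rcases hαa with ⟨_, h1⟩ | ⟨_, h1⟩ <;> rcases hβc with ⟨_, h2⟩ | ⟨_, h2⟩
  · have := key _ p1; nlinarith
  · have := key _ p2; nlinarith
  · have := key _ p3; nlinarith
  · have := key _ p4; nlinarith

/-- upper bound for the third form on the box -/
theorem lin_high (α β a c M : ℤ) (ha : |a| ≤ M) (hc : |c| ≤ M) :
    α * a + β * c ≤ (|α| + |β|) * M := by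
  have h1 : α * a ≤ |α| * M := by
    calc α * a ≤ |α * a| := le_abs_self _
      _ = |α| * |a| := abs_mul _ _
      _ ≤ |α| * M := mul_le_mul_of_nonneg_left ha (abs_nonneg _)
  have h2 : β * c ≤ |β| * M := by
    calc β * c ≤ |β * c| := le_abs_self _
      _ = |β| * |c| := abs_mul _ _
      _ ≤ |β| * M := mul_le_mul_of_nonneg_left hc (abs_nonneg _)
  linarith

/-- size of the box -/
theorem box_size (x1 x2 N H s : ℕ) (hx12 : x1 < x2) (hHN : H ≤ N) (hN : 1 ≤ N) :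
    (N : ℝ) / 10000 ≤ ((x2 * N / 10000 - x1 * N / 10000 + 2 * (s * H) + 1 : ℕ) : ℝ) ∧
    ((x2 * N / 10000 - x1 * N / 10000 + 2 * (s * H) + 1 : ℕ) : ℝ) ≤ (x2 + 2 * s + 1) * N := by
  have hle : x1 * N / 10000 ≤ x2 * N / 10000 :=
    Nat.div_le_div_right (Nat.mul_le_mul_right _ hx12.le)
  have hNr : (1 : ℝ) ≤ N := by exact_mod_cast hN
  have h1 : ((x1 * N / 10000 : ℕ) : ℝ) ≤ (x1 * N : ℝ) / 10000 := by
    have := @Nat.cast_div_le ℝ _ _ _ (x1 * N) 10000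
    push_cast at this
    exact this
  have h2 : ((x2 * N / 10000 : ℕ) : ℝ) ≤ (x2 * N : ℝ) / 10000 := by
    have := @Nat.cast_div_le ℝ _ _ _ (x2 * N) 10000
    push_cast at this
    exact this
  have h3 : (x2 * N : ℝ) / 10000 < ((x2 * N / 10000 : ℕ) : ℝ) + 1 := by
    rw [div_lt_iff₀ (by norm_num)]
    have : x2 * N < (x2 * N / 10000 + 1) * 10000 := by omega
    exact_mod_cast this
  have hx : (x1 : ℝ) + 1 ≤ x2 := by exact_mod_cast hx12
  have hcast : ((x2 * N / 10000 - x1 * N / 10000 + 2 * (s * H) + 1 : ℕ) : ℝ) =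
      ((x2 * N / 10000 : ℕ) : ℝ) - ((x1 * N / 10000 : ℕ) : ℝ) + 2 * (s * H) + 1 := by
    push_cast [Nat.cast_sub hle]
    ring
  rw [hcast]
  have hsH : (0 : ℝ) ≤ (s : ℝ) * H := by positivity
  have hsHN : (s : ℝ) * H ≤ s * N := by
    apply mul_le_mul_of_nonneg_left _ (by positivity)
    exact_mod_cast hHN
  have hx1 : (0 : ℝ) ≤ ((x1 * N / 10000 : ℕ) : ℝ) := by positivity
  have hx2n : (0 : ℝ) ≤ x2 * N := by positivity
  constructor
  · have : (x1 : ℝ) * N + N ≤ x2 * N := by nlinarith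
    linarith
  · nlinarith

end

end Pool.Agent.Lib.MP_325d88_nt
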