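import Pool.Agent.Lib.MP_325d88_nt.SupNorm
import Pool.Agent.Lib.MP_325d88_nt.Minor5

/-!
# Sup norm bound for integer intervals and integer shifts
-/

namespace Pool.Agent.Lib.MP_325d88_nt

open Finset

noncomputable section

theorem supint (w : ℕ) (hw : 1 ≤ w) (W : ℕ) (hW : W = ∏ p ∈ PR 1 w, p) (bz : ℤ)
    (hb : IsCoprime bz (W : ℤ)) (C : ℕ) (ε : ℝ) (hε : 0 < ε) :
    ∃ N0 : ℕ, ∀ N : ℕ, N0 ≤ N → ∀ A B : ℤ, (bz.natAbs : ℤ) ≤ A → A ≤ B → B ≤ C * N → ∀ θ : ℝ,
      ‖∑ n ∈ Finset.Ico A B, (((Nat.totient W : ℝ) / W * Real.log N *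
        (if ((W : ℤ) * n + bz).toNat.Prime then 1 else 0) - 1 : ℝ) : ℂ) * ee (n * θ)‖ ≤
        (ε + (C + 1) / w) * N := by
  have hW0 : 0 < W := by rw [hW]; exact Finset.prod_pos fun p hp => (mem_PR.1 hp).2.2.pos
  have hWZ : (0 : ℤ) < W := by exact_mod_cast hW0
  obtain ⟨t0, ht0⟩ : ∃ t0 : ℤ, t0 = bz / W := ⟨_, rfl⟩
  obtain ⟨b, hbdef⟩ : ∃ b : ℕ, (b : ℤ) = bz % W :=
    ⟨(bz % W).toNat, Int.toNat_of_nonneg (Int.emod_nonneg _ hWZ.ne')⟩
  have hdecomp : bz = W * t0 + b := by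
    rw [ht0, hbdef]; exact (Int.mul_ediv_add_emod bz W).symm
  have hblt : (b : ℤ) < W := by rw [hbdef]; exact Int.emod_lt_of_pos _ hWZ
  have hbc : Nat.Coprime b W := by
    rw [← Nat.isCoprime_iff_coprime]
    have h1 : (b : ℤ) = bz + W * (-t0) := by rw [hdecomp]; ring
    rw [h1]
    exact (IsCoprime.add_mul_left_left_iff).2 hb
  have ht0abs : |t0| ≤ bz.natAbs := by
    rw [Int.natCast_natAbs]
    rcases le_total 0 bz with h | h
    · have h1 : 0 ≤ t0 := by rw [ht0]; exact Int.ediv_nonneg h hWZ.le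
      rw [abs_of_nonneg h1, abs_of_nonneg h, ht0]
      exact Int.ediv_le_self _ h
    · have h1 : t0 ≤ 0 := by
        by_contra hcon
        push Not at hcon
        have : 0 < (W : ℤ) * t0 := mul_pos hWZ hcon
        have : (0 : ℤ) ≤ b := Int.natCast_nonneg _
        linarith
      rw [abs_of_nonpos h1, abs_of_nonpos h]
      by_contra hcon
      push Not at hcon
      have h2 : t0 + 1 ≤ bz := by linarith
      have h3 : (W : ℤ) * (t0 + 1) ≤ 1 * (t0 + 1) := by
        have : t0 + 1 ≤ 0 := by linarith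
        nlinarith
      have h4 : bz < W * (t0 + 1) := by
        rw [mul_add, mul_one]
        linarith
      linarith
  obtain ⟨N1, hN1⟩ := supnorm minor_primes w hw W hW b hbc (C + 1) ε hε
  refine ⟨max N1 bz.natAbs, fun N hN A B hA hAB hB θ => ?_⟩
  have hNN1 : N1 ≤ N := le_trans (le_max_left _ _) hN
  have hNb : bz.natAbs ≤ N := le_trans (le_max_right _ _) hN
  have hNbZ : (bz.natAbs : ℤ) ≤ N := by exact_mod_cast hNb
  have hlo := neg_abs_le t0
  have hhi := le_abs_self t0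
  have hA0 : 0 ≤ A + t0 := by linarith
  have hB0 : 0 ≤ B + t0 := by linarith
  obtain ⟨A', hA'⟩ := Int.eq_ofNat_of_zero_le hA0
  obtain ⟨B', hB'⟩ := Int.eq_ofNat_of_zero_le hB0
  have hAB' : A' ≤ B' := by
    have : (A' : ℤ) ≤ B' := by
      rw [← hA', ← hB']; linarith
    exact_mod_cast this
  have hBC : B' ≤ (C + 1) * N := by
    have : (B' : ℤ) ≤ (C + 1) * N := by
      rw [← hB']; linarith
    exact_mod_cast this
  have h1 := hN1 N hNN1 A' B' hAB' hBC θ
  have h2 : ∑ n ∈ Finset.Ico A B, (((Nat.totient W : ℝ) / W * Real.log N *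
        (if ((W : ℤ) * n + bz).toNat.Prime then 1 else 0) - 1 : ℝ) : ℂ) * ee (n * θ) =
      ee (-(t0 * θ)) * ∑ n ∈ Finset.Ico A' B', (((Nat.totient W : ℝ) / W * Real.log N *
        (if (W * n + b).Prime then 1 else 0) - 1 : ℝ) : ℂ) * ee (n * θ) := by
    rw [Finset.mul_sum]
    symm
    refine Finset.sum_nbij' (fun n : ℕ => (n : ℤ) - t0) (fun m : ℤ => (m + t0).toNat) ?_ ?_ ?_ ?_ ?_
    · intro n hn
      rw [Finset.mem_Ico] at hn ⊢
      have h3 : (A' : ℤ) ≤ n := by exact_mod_cast hn.1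
      have h4 : (n : ℤ) < B' := by exact_mod_cast hn.2
      constructor <;> linarith
    · intro m hm
      rw [Finset.mem_Ico] at hm ⊢
      omega
    · intro n hn
      simp
    · intro m hm
      rw [Finset.mem_Ico] at hm
      show (((m + t0).toNat : ℕ) : ℤ) - t0 = m
      rw [Int.toNat_of_nonneg (by linarith)]
      ring
    · intro n hn
      have h3 : ((W : ℤ) * ((n : ℤ) - t0) + bz).toNat = W * n + b := by
        have : (W : ℤ) * ((n : ℤ) - t0) + bz = ((W * n + b : ℕ) : ℤ) := by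
          rw [hdecomp]; push_cast; ring
        rw [this, Int.toNat_natCast]
      have h4 : (((n : ℤ) - t0 : ℤ) : ℝ) * θ = -(t0 * θ) + n * θ := by
        push_cast; ring
      rw [h3, h4, ee_add]
      ring
  rw [h2, norm_mul, norm_ee, one_mul]
  refine h1.trans (le_of_eq ?_)
  push_cast
  ring

end

end Pool.Agent.Lib.MP_325d88_nt
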