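import Mathlib
import Pool.Agent.Lib.MP_325d88_nt.RelB
import Pool.Agent.Lib.MP_325d88_nt.Cut
import Pool.Agent.Lib.MP_325d88_nt.SupInt

/-!
# Relative counting: proof
-/

namespace Pool.Agent.Lib.MP_325d88_nt

open Finset

noncomputable section

theorem choose_params (c C' : ℝ) (hc : 0 < c) (hC : 0 < C') :
    ∃ (b : ℕ) (εs ε : ℝ), Good 12 b εs ∧ 0 < εs ∧ 6 * εs ≤ 1 ∧ εs ≤ 1 / 2 ∧ 0 < ε ∧ ε ≤ 1 ∧
      11 * (16 * (b : ℝ) + 31) ^ 3 * ((6 * εs) ^ (1 / 16 : ℝ) + ε ^ (1 / 16 : ℝ)) * (4 * C' ^ 2) ≤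
        c ^ 2 / 2 := by
  set q : ℝ := c ^ 2 / (176 * 31 ^ 3 * C' ^ 2) with hq
  have hq0 : 0 < q := by positivity
  obtain ⟨m, hm0, hm1, hmq⟩ : ∃ m : ℝ, 0 < m ∧ m ≤ 1 ∧ m ≤ q :=
    ⟨min q 1, lt_min hq0 one_pos, min_le_right _ _, min_le_left _ _⟩
  obtain ⟨b0, hb0⟩ := good_ev 12 (m ^ 16 / 12) (by norm_num) (by positivity) 48
  have hb1 : (1 : ℝ) ≤ (b0 : ℝ) + 1 := by
    have : (0 : ℝ) ≤ b0 := by positivity
    linarith
  have hB : (0 : ℝ) < (b0 : ℝ) + 1 := by linarith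
  have hm16 : m ^ 16 ≤ 1 := pow_le_one₀ hm0.le hm1
  have hB48 : (1 : ℝ) ≤ ((b0 : ℝ) + 1) ^ 48 := one_le_pow₀ hb1
  have hB3 : (1 : ℝ) ≤ ((b0 : ℝ) + 1) ^ 3 := one_le_pow₀ hb1
  have ht0 : 0 < m / ((b0 : ℝ) + 1) ^ 3 := by positivity
  have ht1 : m / ((b0 : ℝ) + 1) ^ 3 ≤ 1 := by
    rw [div_le_one (by positivity)]
    linarith
  have hpow : (m / ((b0 : ℝ) + 1) ^ 3) ^ 16 = m ^ 16 / ((b0 : ℝ) + 1) ^ 48 := by
    rw [div_pow, ← pow_mul]
  have hd : 6 * (m ^ 16 / 12 / ((b0 : ℝ) + 1) ^ 48) = (m ^ 16 / ((b0 : ℝ) + 1) ^ 48) / 2 := by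
    ring
  have hd0 : 0 < m ^ 16 / ((b0 : ℝ) + 1) ^ 48 := by positivity
  have hd1 : m ^ 16 / ((b0 : ℝ) + 1) ^ 48 ≤ 1 := by
    rw [div_le_one (by positivity)]
    linarith
  refine ⟨b0, m ^ 16 / 12 / ((b0 : ℝ) + 1) ^ 48, (m / ((b0 : ℝ) + 1) ^ 3) ^ 16, hb0 b0 le_rfl,
    by positivity, ?_, ?_, by positivity, ?_, ?_⟩
  · rw [hd]; linarith
  · have : m ^ 16 / 12 / ((b0 : ℝ) + 1) ^ 48 = (m ^ 16 / ((b0 : ℝ) + 1) ^ 48) / 12 := by ring
    rw [this]; linarith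
  · exact pow_le_one₀ ht0.le ht1
  · have h1 : (6 * (m ^ 16 / 12 / ((b0 : ℝ) + 1) ^ 48)) ^ (1 / 16 : ℝ) ≤
        m / ((b0 : ℝ) + 1) ^ 3 := by
      apply rpow16_le _ _ (by positivity) ht0.le
      rw [hd, hpow]
      linarith
    have h2 : ((m / ((b0 : ℝ) + 1) ^ 3) ^ 16) ^ (1 / 16 : ℝ) ≤ m / ((b0 : ℝ) + 1) ^ 3 := by
      apply rpow16_le _ _ (by positivity) ht0.le le_rfl
    have h3 : m / ((b0 : ℝ) + 1) ^ 3 ≤ q / ((b0 : ℝ) + 1) ^ 3 := by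
      apply div_le_div_of_nonneg_right hmq (by positivity)
    have h4 : (16 * (b0 : ℝ) + 31) ^ 3 ≤ 31 ^ 3 * ((b0 : ℝ) + 1) ^ 3 := by
      rw [← mul_pow]
      apply pow_le_pow_left₀ (by positivity)
      have : (0 : ℝ) ≤ b0 := by positivity
      linarith
    calc 11 * (16 * (b0 : ℝ) + 31) ^ 3 * ((6 * (m ^ 16 / 12 / ((b0 : ℝ) + 1) ^ 48)) ^ (1 / 16 : ℝ) +
          ((m / ((b0 : ℝ) + 1) ^ 3) ^ 16) ^ (1 / 16 : ℝ)) * (4 * C' ^ 2)
        ≤ 11 * (31 ^ 3 * ((b0 : ℝ) + 1) ^ 3) * (q / ((b0 : ℝ) + 1) ^ 3 + q / ((b0 : ℝ) + 1) ^ 3) *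
          (4 * C' ^ 2) := by
          apply mul_le_mul_of_nonneg_right _ (by positivity)
          apply mul_le_mul _ (by linarith) (by positivity) (by positivity)
          apply mul_le_mul_of_nonneg_left h4 (by norm_num)
      _ = 88 * 31 ^ 3 * C' ^ 2 * q := by field_simp; ring
      _ = c ^ 2 / 2 := by rw [hq]; field_simp; ring

/-- final arithmetic -/
theorem rel_arith (c C' cN K2 D X N W φ u v La Lc E : ℝ) (hc : 0 < c) (hC : 0 < C')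
    (hW : 0 < W) (hφ : 0 < φ) (hX : 1 < X) (hN : 1 < N) (hNX : N * W ≤ X) (hNX' : N ≤ X)
    (hXN : Real.log X ≤ 2 * Real.log N) (hcN : cN = φ / W * Real.log N)
    (hu : c * (X / (φ * Real.log X)) ≤ u) (hv : c * (X / (φ * Real.log X)) ≤ v)
    (hLa0 : 0 ≤ La) (hLc0 : 0 ≤ Lc) (hLa : La ≤ C' * N) (hLc : Lc ≤ C' * N) (hK2 : 0 < K2) (hD0 : 0 ≤ D)
    (hD : 11 * K2 ^ 3 * D * (4 * C' ^ 2) ≤ c ^ 2 / 2)
    (hE : |cN * E - u * v| ≤ 11 * K2 ^ 3 * D * (La * Lc) / cN ^ 2) :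
    1 / 2 * (W / φ) * (u * v) / Real.log X ≤ E := by
  have hlN : 0 < Real.log N := Real.log_pos hN
  have hlX : 0 < Real.log X := Real.log_pos hX
  have hlNX : Real.log N ≤ Real.log X := Real.log_le_log (by linarith) hNX'
  have hcN0 : 0 < cN := by rw [hcN]; positivity
  have hX0 : 0 < X := by linarith
  have hN0 : 0 < N := by linarith
  set y : ℝ := X / (φ * Real.log X) with hy
  have hy0 : 0 < y := by positivity
  -- `C' N / cN ≤ 2 C' y`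
  have h1 : N / cN ≤ 2 * y := by
    rw [hcN, hy, div_le_iff₀ (by positivity)]
    have e : 2 * (X / (φ * Real.log X)) * (φ / W * Real.log N) =
        (X / W) * (2 * Real.log N / Real.log X) := by field_simp
    rw [e]
    have e1 : N ≤ X / W := by rw [le_div_iff₀ hW]; exact hNX
    have e2 : 1 ≤ 2 * Real.log N / Real.log X := by rw [le_div_iff₀ hlX]; linarith
    calc N = N * 1 := by ring
      _ ≤ (X / W) * (2 * Real.log N / Real.log X) :=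
        mul_le_mul e1 e2 (by norm_num) (by positivity)
  have h2 : (La * Lc) / cN ^ 2 ≤ 4 * C' ^ 2 * y ^ 2 := by
    have e1 : La / cN ≤ C' * (2 * y) := by
      calc La / cN ≤ C' * N / cN := div_le_div_of_nonneg_right hLa hcN0.le
        _ = C' * (N / cN) := by ring
        _ ≤ C' * (2 * y) := mul_le_mul_of_nonneg_left h1 hC.le
    have e2 : Lc / cN ≤ C' * (2 * y) := by
      calc Lc / cN ≤ C' * N / cN := div_le_div_of_nonneg_right hLc hcN0.le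
        _ = C' * (N / cN) := by ring
        _ ≤ C' * (2 * y) := mul_le_mul_of_nonneg_left h1 hC.le
    calc (La * Lc) / cN ^ 2 = (La / cN) * (Lc / cN) := by field_simp
      _ ≤ (C' * (2 * y)) * (C' * (2 * y)) :=
        mul_le_mul e1 e2 (by positivity) (by positivity)
      _ = 4 * C' ^ 2 * y ^ 2 := by ring
  have h3 : (c * y) ^ 2 ≤ u * v := by
    rw [sq]
    exact mul_le_mul hu hv (by positivity) (le_trans (by positivity) hu)
  have h4 : 11 * K2 ^ 3 * D * (La * Lc) / cN ^ 2 ≤ u * v / 2 := by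
    calc 11 * K2 ^ 3 * D * (La * Lc) / cN ^ 2 = 11 * K2 ^ 3 * D * ((La * Lc) / cN ^ 2) := by ring
      _ ≤ 11 * K2 ^ 3 * D * (4 * C' ^ 2 * y ^ 2) := mul_le_mul_of_nonneg_left h2 (by positivity)
      _ = (11 * K2 ^ 3 * D * (4 * C' ^ 2)) * y ^ 2 := by ring
      _ ≤ (c ^ 2 / 2) * y ^ 2 := mul_le_mul_of_nonneg_right hD (by positivity)
      _ = (c * y) ^ 2 / 2 := by ring
      _ ≤ u * v / 2 := by linarith
  have h5 := (abs_le.1 (hE.trans h4)).1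
  have h6 : u * v / 2 ≤ cN * E := by linarith
  have huv : 0 ≤ u * v := le_trans (by positivity) h3
  have h7 : u * v / 2 / cN ≤ E := by
    rw [div_le_iff₀ hcN0]; linarith
  refine le_trans ?_ h7
  have e1 : 1 / 2 * (W / φ) * (u * v) / Real.log X = u * v / 2 * (W / φ) * (1 / Real.log X) := by ring
  have e2 : u * v / 2 / cN = u * v / 2 * (W / φ) * (1 / Real.log N) := by
    rw [hcN]; field_simp
  rw [e1, e2]
  apply mul_le_mul_of_nonneg_left _ (by positivity)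
  exact one_div_le_one_div_of_le hlN hlNX

end

end Pool.Agent.Lib.MP_325d88_nt
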