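import Mathlib
import Pool.Agent.Lib.MP_325d88_nt.RelC

/-!
# Relative counting: the theorem
-/

namespace Pool.Agent.Lib.MP_325d88_nt

open Finset

noncomputable section

theorem not_dvd_primorial (w z W : ℕ) (hW : W = ∏ p ∈ PR 1 w, p) :
    ∀ p ∈ PR w z, ¬ (p : ℤ) ∣ (W : ℤ) := by
  intro p hp hd
  rw [mem_PR] at hp
  have h1 : p ∣ ∏ q ∈ PR 1 w, q := by rw [← hW]; exact_mod_cast hd
  rw [hp.2.2.prime.dvd_finsetProd_iff] at h1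
  obtain ⟨q, hq, hpq⟩ := h1
  rw [mem_PR] at hq
  have := (Nat.prime_dvd_prime_iff_eq hp.2.2 hq.2.2).1 hpq
  omega

/-- bound for the cut norm -/
theorem cut_bound (α β : ℤ) (hα : α ≠ 0) (hβ : β ≠ 0) (w : ℕ) (W : ℕ)
    (bz : ℤ) (Cs : ℕ) (ε : ℝ) (hε : 0 < ε) (hw2 : 2 * 10 ^ 4 * ((Cs : ℝ) + 1) / ε ≤ w) (hw0 : 0 < w)
    (N : ℕ) (cN : ℝ) (A0 C0 : ℤ) (La Lc : ℕ)
    (hsup : ∀ θ : ℝ, ‖∑ n ∈ Finset.Ico (bz.natAbs : ℤ) ((Cs * N : ℕ) : ℤ), ((cN *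
        (if ((W : ℤ) * n + bz).toNat.Prime then 1 else 0) - 1 : ℝ) : ℂ) * ee (n * θ)‖ ≤
        (ε / (2 * 10 ^ 4) + (Cs + 1) / w) * N)
    (hR : ∀ a ∈ Finset.Ico A0 (A0 + La), ∀ c ∈ Finset.Ico C0 (C0 + Lc),
      α * a + β * c ∈ Finset.Ico (bz.natAbs : ℤ) ((Cs * N : ℕ) : ℤ))
    (hLa : (N : ℝ) / 10000 ≤ La) (hLc : (N : ℝ) / 10000 ≤ Lc)
    (u v : ℤ → ℝ) (hu : ∀ a, |u a| ≤ 1) (hv : ∀ c, |v c| ≤ 1) :
    |∑ a ∈ Finset.Ico A0 (A0 + La), ∑ c ∈ Finset.Ico C0 (C0 + Lc),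
        (cN * (if ((W : ℤ) * (α * a + β * c) + bz).toNat.Prime then 1 else 0) - 1) * u a * v c| ≤
        ε * ((La : ℝ) * Lc) := by
  have h := cut_norm α β hα hβ (Finset.Ico A0 (A0 + La)) (Finset.Ico C0 (C0 + Lc))
    (Finset.Ico (bz.natAbs : ℤ) ((Cs * N : ℕ) : ℤ))
    (fun n => cN * (if ((W : ℤ) * n + bz).toNat.Prime then 1 else 0) - 1) hR _ hsup u v hu hv
  have hcA : ((Finset.Ico A0 (A0 + La)).card : ℝ) = La := by rw [Int.card_Ico]; simp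
  have hcC : ((Finset.Ico C0 (C0 + Lc)).card : ℝ) = Lc := by rw [Int.card_Ico]; simp
  rw [hcA, hcC] at h
  refine h.trans ?_
  have hN : (0 : ℝ) ≤ N := by positivity
  have hwr : (0 : ℝ) < w := by exact_mod_cast hw0
  have h1 : ((Cs : ℝ) + 1) / w ≤ ε / (2 * 10 ^ 4) := by
    rw [div_le_div_iff₀ hwr (by norm_num)]
    rw [div_le_iff₀ hε] at hw2
    linarith
  have hLL : (0 : ℝ) ≤ (La : ℝ) * Lc := by positivity
  have h2 : (N : ℝ) / 10000 ≤ Real.sqrt ((La : ℝ) * Lc) := by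
    apply Real.le_sqrt_of_sq_le
    rw [sq]
    exact mul_le_mul hLa hLc (by positivity) (by positivity)
  have h3 : (ε / (2 * 10 ^ 4) + (Cs + 1) / w) * (N : ℝ) ≤ ε * Real.sqrt ((La : ℝ) * Lc) := by
    calc (ε / (2 * 10 ^ 4) + (Cs + 1) / w) * (N : ℝ)
        ≤ (ε / (2 * 10 ^ 4) + ε / (2 * 10 ^ 4)) * N :=
          mul_le_mul_of_nonneg_right (by linarith) hN
      _ = ε * ((N : ℝ) / 10000) := by ring
      _ ≤ ε * Real.sqrt ((La : ℝ) * Lc) := mul_le_mul_of_nonneg_left h2 hε.le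
  calc (ε / (2 * 10 ^ 4) + (Cs + 1) / w) * (N : ℝ) * Real.sqrt ((La : ℝ) * Lc)
      ≤ ε * Real.sqrt ((La : ℝ) * Lc) * Real.sqrt ((La : ℝ) * Lc) :=
        mul_le_mul_of_nonneg_right h3 (Real.sqrt_nonneg _)
    _ = ε * (Real.sqrt ((La : ℝ) * Lc) * Real.sqrt ((La : ℝ) * Lc)) := by ring
    _ = ε * ((La : ℝ) * Lc) := by rw [Real.mul_self_sqrt hLL]

/-- range of the third form on the box -/
theorem range_third (α β : ℤ) (hα : α ≠ 0) (hβ : β ≠ 0) (x1 x2 y1 y2 : ℕ) (hx12 : x1 < x2) (hy12 : y1 < y2)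
    (hpos : 0 < α * x1 + β * y1 ∧ 0 < α * x1 + β * y2 ∧ 0 < α * x2 + β * y1 ∧ 0 < α * x2 + β * y2)
    (N H : ℕ) (bz : ℤ) (z : ℕ) (hzH : z ≤ H) (hN1 : 1 ≤ N)
    (hH : 4 * 10 ^ 5 * α.natAbs * β.natAbs * H ≤ N)
    (hN : 4 * 10 ^ 4 * (α.natAbs + β.natAbs + bz.natAbs + 1) ≤ N) (Cs : ℕ)
    (hCs : Cs = (α.natAbs + β.natAbs) * (x2 + y2 + α.natAbs + β.natAbs + 1) + 1)
    (a c : ℤ)
    (ha : a ∈ Finset.Ico (((x1 * N / 10000 : ℕ) : ℤ) - (β.natAbs + 1 : ℕ) * H)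
      ((((x1 * N / 10000 : ℕ) : ℤ) - (β.natAbs + 1 : ℕ) * H) +
        ((x2 * N / 10000 - x1 * N / 10000 + 2 * ((β.natAbs + 1) * H) + 1 : ℕ) : ℤ)))
    (hc : c ∈ Finset.Ico (((y1 * N / 10000 : ℕ) : ℤ) - (α.natAbs + 1 : ℕ) * H)
      ((((y1 * N / 10000 : ℕ) : ℤ) - (α.natAbs + 1 : ℕ) * H) +
        ((y2 * N / 10000 - y1 * N / 10000 + 2 * ((α.natAbs + 1) * H) + 1 : ℕ) : ℤ))) :
    (bz.natAbs : ℤ) + z + 1 ≤ α * a + β * c ∧ α * a + β * c < ((Cs * N : ℕ) : ℤ) := by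
  have hlex : x1 * N / 10000 ≤ x2 * N / 10000 :=
    Nat.div_le_div_right (Nat.mul_le_mul_right _ hx12.le)
  have hley : y1 * N / 10000 ≤ y2 * N / 10000 :=
    Nat.div_le_div_right (Nat.mul_le_mul_right _ hy12.le)
  obtain ⟨a', ha'⟩ : ∃ a' : ℕ, a' = α.natAbs := ⟨_, rfl⟩
  obtain ⟨b', hb'⟩ : ∃ b' : ℕ, b' = β.natAbs := ⟨_, rfl⟩
  have haα : |α| = (a' : ℤ) := by rw [ha', Int.natCast_natAbs]
  have hbβ : |β| = (b' : ℤ) := by rw [hb', Int.natCast_natAbs]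
  have ha1 : 1 ≤ a' := by rw [ha']; exact Int.natAbs_pos.2 hα
  have hb1 : 1 ≤ b' := by rw [hb']; exact Int.natAbs_pos.2 hβ
  rw [← ha'] at hH hN hCs hc
  rw [← hb'] at hH hN hCs ha
  obtain ⟨qx1, hqx1⟩ : ∃ q : ℕ, q = x1 * N / 10000 := ⟨_, rfl⟩
  obtain ⟨qx2, hqx2⟩ : ∃ q : ℕ, q = x2 * N / 10000 := ⟨_, rfl⟩
  obtain ⟨qy1, hqy1⟩ : ∃ q : ℕ, q = y1 * N / 10000 := ⟨_, rfl⟩
  obtain ⟨qy2, hqy2⟩ : ∃ q : ℕ, q = y2 * N / 10000 := ⟨_, rfl⟩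
  have bx1 : x1 * N ≤ 10000 * qx1 + 9999 := by omega
  have bx2 : 10000 * qx2 ≤ x2 * N := by omega
  have by1 : y1 * N ≤ 10000 * qy1 + 9999 := by omega
  have by2 : 10000 * qy2 ≤ y2 * N := by omega
  rw [← hqx1, ← hqx2] at ha hlex
  rw [← hqy1, ← hqy2] at hc hley
  clear hqx1 hqx2 hqy1 hqy2
  rw [Finset.mem_Ico] at ha hc
  have cx : ((qx2 - qx1 + 2 * ((b' + 1) * H) + 1 : ℕ) : ℤ) =
      (qx2 : ℤ) - qx1 + 2 * ((b' + 1 : ℕ) * H) + 1 := by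
    push_cast [Nat.cast_sub hlex]
    ring
  have cy : ((qy2 - qy1 + 2 * ((a' + 1) * H) + 1 : ℕ) : ℤ) =
      (qy2 : ℤ) - qy1 + 2 * ((a' + 1 : ℕ) * H) + 1 := by
    push_cast [Nat.cast_sub hley]
    ring
  rw [cx] at ha
  rw [cy] at hc
  have bx1z : (x1 : ℤ) * N ≤ 10000 * qx1 + 9999 := by exact_mod_cast bx1
  have bx2z : 10000 * (qx2 : ℤ) ≤ x2 * N := by exact_mod_cast bx2
  have by1z : (y1 : ℤ) * N ≤ 10000 * qy1 + 9999 := by exact_mod_cast by1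
  have by2z : 10000 * (qy2 : ℤ) ≤ y2 * N := by exact_mod_cast by2
  obtain ⟨P, hP⟩ : ∃ P : ℤ, P = ((b' + 1 : ℕ) : ℤ) * H := ⟨_, rfl⟩
  obtain ⟨Q, hQ⟩ : ∃ Q : ℤ, Q = ((a' + 1 : ℕ) : ℤ) * H := ⟨_, rfl⟩
  have hP0 : 0 ≤ P := by rw [hP]; positivity
  have hQ0 : 0 ≤ Q := by rw [hQ]; positivity
  rw [← hP] at ha
  rw [← hQ] at hc
  have hx2N : (0 : ℤ) ≤ (x2 : ℤ) * N := by positivity
  have hy2N : (0 : ℤ) ≤ (y2 : ℤ) * N := by positivity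
  have hHz : 4 * 10 ^ 5 * (a' : ℤ) * b' * H ≤ N := by exact_mod_cast hH
  have hNz : 4 * 10 ^ 4 * ((a' : ℤ) + b' + bz.natAbs + 1) ≤ N := by exact_mod_cast hN
  have ha1z : (1 : ℤ) ≤ a' := by exact_mod_cast ha1
  have hb1z : (1 : ℤ) ≤ b' := by exact_mod_cast hb1
  have hN1z : (1 : ℤ) ≤ N := by exact_mod_cast hN1
  have hH0 : (0 : ℤ) ≤ H := by positivity
  have hzHz : (z : ℤ) ≤ H := by exact_mod_cast hzH
  have hbz0 : (0 : ℤ) ≤ (bz.natAbs : ℤ) := by positivity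
  have hab : (1 : ℤ) ≤ (a' : ℤ) * b' := one_le_mul_of_one_le_of_one_le ha1z hb1z
  have habH : (H : ℤ) ≤ (a' : ℤ) * b' * H := le_mul_of_one_le_left hH0 hab
  constructor
  · have h := lin_low α β x1 x2 y1 y2 hpos N (1 + P) (1 + Q) a c (by omega) (by omega)
      (by linarith) (by linarith) (by linarith) (by linarith)
    rw [haα, hbβ] at h
    have h1 : (a' : ℤ) * (1 + P) + b' * (1 + Q) ≤ a' + b' + 4 * (a' * b' * H) := by
      have e1 : (a' : ℤ) * P ≤ 2 * (a' * b' * H) := by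
        rw [hP]; push_cast
        have : (a' : ℤ) * ((b' + 1) * H) ≤ a' * ((2 * b') * H) := by
          apply mul_le_mul_of_nonneg_left _ (by omega)
          apply mul_le_mul_of_nonneg_right _ hH0
          omega
        linarith
      have e2 : (b' : ℤ) * Q ≤ 2 * (a' * b' * H) := by
        rw [hQ]; push_cast
        have : (b' : ℤ) * ((a' + 1) * H) ≤ b' * ((2 * a') * H) := by
          apply mul_le_mul_of_nonneg_left _ (by omega)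
          apply mul_le_mul_of_nonneg_right _ hH0
          omega
        linarith
      linarith
    have h2 : 4 * 10 ^ 5 * ((a' : ℤ) * b' * H) ≤ N := by linarith
    linarith
  · have hM : (0 : ℤ) ≤ x2 + y2 + a' + b' + 1 := by positivity
    have hHN : (H : ℤ) ≤ N := by linarith
    have hPN : P ≤ (b' + 1) * N := by
      rw [hP]; push_cast
      apply mul_le_mul_of_nonneg_left hHN (by positivity)
    have hQN : Q ≤ (a' + 1) * N := by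
      rw [hQ]; push_cast
      apply mul_le_mul_of_nonneg_left hHN (by positivity)
    have haN : 0 ≤ (a' : ℤ) * N := by positivity
    have hbN : 0 ≤ (b' : ℤ) * N := by positivity
    have hqx1 : (0 : ℤ) ≤ qx1 := by positivity
    have hqy1 : (0 : ℤ) ≤ qy1 := by positivity
    have h := lin_high α β a c ((x2 + y2 + a' + b' + 1) * N)
      (by rw [abs_le]; constructor <;> linarith) (by rw [abs_le]; constructor <;> linarith)
    rw [haα, hbβ] at h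
    rw [hCs]
    push_cast
    linarith

end

end Pool.Agent.Lib.MP_325d88_nt
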