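import Mathlib
import Pool.Agent.Lib.MP_325d88_nt.RelD

/-!
# Relative counting: the theorem
-/

namespace Pool.Agent.Lib.MP_325d88_nt

open Finset

noncomputable section

theorem cn_bound (w W z e N K : ℕ) (hw1 : 1 ≤ w) (hW : W = ∏ p ∈ PR 1 w, p) (hwz : w ≤ z)
    (hz2 : 2 ≤ z) (hK : 1 ≤ K) (hzK : 2 * K ≤ z) (hH1 : 1 ≤ N / K) (hz : N / K ≤ z ^ (2 * e)) :
    (Nat.totient W : ℝ) / W * Real.log N * VV w z ≤ 2 * e + 1 := by
  have h1 := Degree.VV_primorial w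
  rw [← hW] at h1
  have hV1 := VV_pos 1 w
  have h2 : (Nat.totient W : ℝ) / W = VV 1 w := by
    rw [← inv_div, h1, inv_inv]
  have h3 := VV_split 1 w z hw1 hwz
  have h4 := VV_upper z hz2
  have hN : N ≤ z ^ (2 * e + 1) := by
    have e1 : N < K * (N / K + 1) := Nat.lt_mul_div_succ N (by omega)
    have e2 : K * (N / K + 1) ≤ z * (N / K) := by nlinarith
    calc N ≤ z * (N / K) := by omega
      _ ≤ z * z ^ (2 * e) := Nat.mul_le_mul_left _ hz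
      _ = z ^ (2 * e + 1) := by ring
  have hN0 : 0 < N := by
    rcases Nat.eq_zero_or_pos N with h | h
    · rw [h, Nat.zero_div] at hH1; omega
    · exact h
  have hlz : 0 < Real.log z := Real.log_pos (by exact_mod_cast (by omega : 1 < z))
  have hlN : Real.log N ≤ (2 * e + 1) * Real.log z := by
    have e1 : Real.log N ≤ Real.log ((z : ℝ) ^ (2 * e + 1)) :=
      Real.log_le_log (by exact_mod_cast hN0) (by exact_mod_cast hN)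
    rw [Real.log_pow] at e1
    push_cast at e1
    exact e1
  have hlN0 : 0 ≤ Real.log N := Real.log_natCast_nonneg N
  calc (Nat.totient W : ℝ) / W * Real.log N * VV w z = Real.log N * VV 1 z := by
        rw [h2, h3]; ring
    _ ≤ Real.log N * (1 / Real.log z) := mul_le_mul_of_nonneg_left h4 hlN0
    _ = Real.log N / Real.log z := by ring
    _ ≤ 2 * e + 1 := by rw [div_le_iff₀ hlz]; exact hlN

theorem par_facts (W K P0 bx by' x2 y2 N1 ab X N H Z0 w : ℕ) (hW0 : 0 < W) (hK0 : 4 * 10 ^ 5 ≤ K)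
    (hX : W * (K * (P0 + bx + by' + x2 + y2 + 1) + N1 + 4 * 10 ^ 4 * ab + 2 * W + 2) ≤ X)
    (hN : N = X / W) (hH : H = N / K) :
    P0 ≤ H ∧ bx ≤ H ∧ by' ≤ H ∧ x2 ≤ H ∧ y2 ≤ H ∧ 1 ≤ H ∧ N1 ≤ N ∧ 4 * 10 ^ 4 * ab ≤ N ∧ 2 * W ≤ N ∧
      2 ≤ N ∧ K * H ≤ N ∧ H ≤ N ∧ W * N ≤ X ∧ X < W * (N + 1) ∧ N ≤ X ∧ 1 < X ∧ X ≤ N * N := by
  have hNmin : K * (P0 + bx + by' + x2 + y2 + 1) + N1 + 4 * 10 ^ 4 * ab + 2 * W + 2 ≤ N := by
    rw [hN, Nat.le_div_iff_mul_le hW0, mul_comm]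
    exact hX
  have hHge : P0 + bx + by' + x2 + y2 + 1 ≤ H := by
    rw [hH, Nat.le_div_iff_mul_le (by omega), mul_comm]
    omega
  have hKH : K * H ≤ N := by rw [hH]; exact Nat.mul_div_le N K
  have hHN : H ≤ N := by rw [hH]; exact Nat.div_le_self _ _
  have hWN : W * N ≤ X := by rw [hN]; exact Nat.mul_div_le X W
  have hXW : X < W * (N + 1) := by rw [hN]; exact Nat.lt_mul_div_succ X hW0
  have hNX : N ≤ X := by rw [hN]; exact Nat.div_le_self _ _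
  have hN2 : 2 ≤ N := by omega
  have hNW : 2 * W ≤ N := by omega
  have hNb : 4 * 10 ^ 4 * ab ≤ N := by omega
  have h1 : W * (N + 1) ≤ N * N := by
    have e1 : 2 * W * (N + 1) ≤ N * (N + 1) := Nat.mul_le_mul_right _ hNW
    have e2 : N * (N + 1) ≤ N * (2 * N) := Nat.mul_le_mul_left _ (by omega)
    have e3 : 2 * (W * (N + 1)) ≤ 2 * (N * N) := by
      calc 2 * (W * (N + 1)) = 2 * W * (N + 1) := by ring
        _ ≤ N * (2 * N) := e1.trans e2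
        _ = 2 * (N * N) := by ring
    omega
  refine ⟨by omega, by omega, by omega, by omega, by omega, by omega, by omega, hNb, hNW, hN2,
    hKH, hHN, hWN, hXW, hNX, by omega, by omega⟩

theorem pos_aux (W s bz : ℤ) (n z : ℕ) (hW : 1 ≤ W) (hn : n = bz.natAbs) (h : (n : ℤ) + z + 1 ≤ s) :
    (z : ℤ) < W * s + bz := by
  have h2 : -(n : ℤ) ≤ bz := by omega
  have h3 : (0 : ℤ) ≤ s := by omega
  have h4 : 1 * s ≤ W * s := mul_le_mul_of_nonneg_right hW h3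
  linarith

theorem zu_aux (K H N X u z : ℕ) (hK0 : 4 * 10 ^ 5 ≤ K) (hKH : K * H ≤ N) (hNX : N ≤ X) (hzH : z ≤ H)
    (hH : 1 ≤ H) (hu : X ≤ 10000 * u) : z < u := by
  have h1 : 4 * 10 ^ 5 * H ≤ N := le_trans (Nat.mul_le_mul_right _ hK0) hKH
  omega

theorem lift_aux (W u bb : ℕ) (h : u ≡ bb [MOD W]) :
    (u : ℤ) = (W : ℤ) * (((u : ℤ) - bb) / W) + bb := by
  have h1 : (W : ℤ) ∣ (u : ℤ) - bb := by
    have := (Nat.modEq_iff_dvd.1 h)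
    rw [← neg_sub]
    exact (dvd_neg).2 this
  rw [Int.mul_ediv_cancel' h1]
  ring

theorem set_aux (W x1 x2 X N H K z : ℕ) (β : ℤ) (bb : ℕ) (hβ : β ≠ 0) (hW0 : 0 < W) (hx1 : 0 < x1)
    (hx12 : x1 < x2) (hK0 : 4 * 10 ^ 5 ≤ K) (hKH : K * H ≤ N) (hNX : N ≤ X) (hzH : z ≤ H)
    (hH : 1 ≤ H) (hWN : W * N ≤ X) (hXW : X < W * (N + 1)) (hbH : bb ≤ H) (hxH : x2 ≤ H)
    (U : Finset ℕ)
    (hU : ∀ u ∈ U, u.Prime ∧ u ≡ bb [MOD W] ∧ x1 * X ≤ 10000 * u ∧ 10000 * u ≤ x2 * X)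
    (A0 : ℤ) (La n : ℕ) (hn : n = β.natAbs) (hA0 : A0 = ((x1 * N / 10000 : ℕ) : ℤ) - (n + 1 : ℕ) * H)
    (hLa : La = x2 * N / 10000 - x1 * N / 10000 + 2 * ((n + 1) * H) + 1) :
    ∀ u ∈ U, u.Prime ∧ z < u ∧ (u : ℤ) = (W : ℤ) * (((u : ℤ) - bb) / W) + bb ∧
      ∀ t ∈ Finset.Ico (0 : ℤ) (0 + H), ((u : ℤ) - bb) / W + β * t ∈ Finset.Ico A0 (A0 + La) := by
  intro u hu
  obtain ⟨h1, h2, h3, h4⟩ := hU u hu
  refine ⟨h1, ?_, lift_aux W u bb h2, ?_⟩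
  · apply zu_aux K H N X u z hK0 hKH hNX hzH hH
    refine le_trans ?_ h3
    exact Nat.le_mul_of_pos_left _ hx1
  · intro t ht
    have := box_in W x1 x2 X N H bb β hW0 hWN hXW (by positivity) (by exact_mod_cast hbH) hxH hβ u
      (((u : ℤ) - bb) / W) (lift_aux W u bb h2) h3 h4 hx12 t ht
    rw [hA0, hLa, hn]
    exact this

theorem size_aux (H n q : ℕ) : H ≤ q + 2 * ((n + 1) * H) + 1 := by
  have : H ≤ (n + 1) * H := Nat.le_mul_of_pos_left _ (by omega)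
  omega

theorem cut_aux (α β : ℤ) (hα : α ≠ 0) (hβ : β ≠ 0) (w W : ℕ) (bz : ℤ) (Cs : ℕ) (hCs1 : 1 ≤ Cs)
    (ε : ℝ) (hε0 : 0 < ε) (hwC : 2 * 10 ^ 4 * ((Cs : ℝ) + 1) / ε ≤ w) (hw0 : 0 < w) (N N1 z : ℕ)
    (hN1 : ∀ N : ℕ, N1 ≤ N → ∀ A B : ℤ, (bz.natAbs : ℤ) ≤ A → A ≤ B → B ≤ Cs * N → ∀ θ : ℝ,
      ‖∑ n ∈ Finset.Ico A B, (((Nat.totient W : ℝ) / W * Real.log N *
        (if ((W : ℤ) * n + bz).toNat.Prime then 1 else 0) - 1 : ℝ) : ℂ) * ee (n * θ)‖ ≤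
        (ε / (2 * 10 ^ 4) + (Cs + 1) / w) * N) (hNN : N1 ≤ N) (hbN : bz.natAbs ≤ N)
    (A0 C0 : ℤ) (La Lc : ℕ)
    (hrange : ∀ a ∈ Finset.Ico A0 (A0 + La), ∀ c ∈ Finset.Ico C0 (C0 + Lc),
      (bz.natAbs : ℤ) + z + 1 ≤ α * a + β * c ∧ α * a + β * c < ((Cs * N : ℕ) : ℤ))
    (hLa : (N : ℝ) / 10000 ≤ La) (hLc : (N : ℝ) / 10000 ≤ Lc)
    (cN : ℝ) (hcN : cN = (Nat.totient W : ℝ) / W * Real.log N)
    (u v : ℤ → ℝ) (hu : ∀ a, |u a| ≤ 1) (hv : ∀ c, |v c| ≤ 1) :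
      |∑ a ∈ Finset.Ico A0 (A0 + La), ∑ c ∈ Finset.Ico C0 (C0 + Lc),
        (cN * (if ((W : ℤ) * (α * a + β * c) + bz).toNat.Prime then 1 else 0) - 1) * u a * v c| ≤
        ε * ((La : ℝ) * Lc) := by
  apply cut_bound α β hα hβ w W bz Cs ε hε0 hwC hw0 N cN A0 C0 La Lc _ _ hLa hLc u v hu hv
  · intro θ
    rw [hcN]
    apply hN1 N hNN _ _ le_rfl
    · have h1 : (bz.natAbs : ℤ) ≤ N := by exact_mod_cast hbN
      have h2 : (N : ℤ) ≤ ((Cs * N : ℕ) : ℤ) := by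
        have : N ≤ Cs * N := Nat.le_mul_of_pos_left _ (by omega)
        exact_mod_cast this
      exact h1.trans h2
    · push_cast
      exact le_rfl
  · intro a ha c hc
    rw [Finset.mem_Ico]
    have h := hrange a ha c hc
    refine ⟨?_, h.2⟩
    have h1 := h.1
    have h2 : (0 : ℤ) ≤ z := by positivity
    linarith

theorem cvp_aux (x y a b N L : ℝ) (_hx : 0 ≤ x) (hy : 0 ≤ y) (ha : 0 ≤ a) (hN : 0 ≤ N)
    (hL : L ≤ (x + 2 * b + 1) * N) : L ≤ (x + y + 2 * a + 2 * b + 1) * N := by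
  refine hL.trans ?_
  apply mul_le_mul_of_nonneg_right _ hN
  linarith

theorem logX_aux (X N : ℕ) (hX : 1 < X) (hN : 2 ≤ N) (h : X ≤ N * N) :
    Real.log X ≤ 2 * Real.log N := by
  have hXr : (1 : ℝ) < X := by exact_mod_cast hX
  have hNr : (2 : ℝ) ≤ N := by exact_mod_cast hN
  have h2 : Real.log X ≤ Real.log ((N : ℝ) * N) :=
    Real.log_le_log (by linarith) (by exact_mod_cast h)
  rw [Real.log_mul (by linarith) (by linarith)] at h2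
  linarith

/-- **Relative counting theorem**: dense subsets of primes in fixed residue classes modulo a primorial represent primes by a binary form. -/
theorem relCount : RelCount := by
  intro α β hα hβ x1 x2 y1 y2 hx1 hx12 hy1 hy12 hpos c hc
  obtain ⟨a', ha'⟩ : ∃ a' : ℕ, a' = α.natAbs := ⟨_, rfl⟩
  obtain ⟨b', hb'⟩ : ∃ b' : ℕ, b' = β.natAbs := ⟨_, rfl⟩
  have ha1 : 1 ≤ a' := by rw [ha']; exact Int.natAbs_pos.2 hα
  have hb1 : 1 ≤ b' := by rw [hb']; exact Int.natAbs_pos.2 hβ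
  obtain ⟨C', hC'⟩ : ∃ C' : ℝ, C' = x2 + y2 + 2 * ((a' + 1 : ℕ) : ℝ) + 2 * ((b' + 1 : ℕ) : ℝ) + 1 :=
    ⟨_, rfl⟩
  have hC'0 : 0 < C' := by rw [hC']; positivity
  obtain ⟨b, εs, ε, hgood, hεs0, hεs6, hεs2, hε0, hε1, hbig⟩ := choose_params c C' hc hC'0
  obtain ⟨K, hK⟩ : ∃ K : ℕ, K = 4 * 10 ^ 5 * a' * b' := ⟨_, rfl⟩
  have hK0 : 4 * 10 ^ 5 ≤ K := by
    rw [hK, mul_assoc]
    exact Nat.le_mul_of_pos_right _ (Nat.mul_pos ha1 hb1)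
  obtain ⟨w1, Z0, hlf⟩ := lf_rough α β hα hβ εs hεs0 hεs2 b hgood
  obtain ⟨Cs, hCs⟩ : ∃ Cs : ℕ, Cs = (a' + b') * (x2 + y2 + a' + b' + 1) + 1 := ⟨_, rfl⟩
  refine ⟨max (max w1 2) ⌈2 * 10 ^ 4 * ((Cs : ℝ) + 1) / ε⌉₊, ?_⟩
  intro w hw W hW bx by' hbx hby hbz
  have hww1 : w1 ≤ w := le_trans (le_trans (le_max_left _ _) (le_max_left _ _)) hw
  have hw2 : 2 ≤ w := le_trans (le_trans (le_max_right _ _) (le_max_left _ _)) hw
  have hw0 : 0 < w := lt_of_lt_of_le (by norm_num) hw2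
  have hwC : 2 * 10 ^ 4 * ((Cs : ℝ) + 1) / ε ≤ w := by
    have h1 : (⌈2 * 10 ^ 4 * ((Cs : ℝ) + 1) / ε⌉₊ : ℕ) ≤ w := le_trans (le_max_right _ _) hw
    exact le_trans (Nat.le_ceil _) (by exact_mod_cast h1)
  have hW0 : 0 < W := by rw [hW]; exact Finset.prod_pos fun p hp => (mem_PR.1 hp).2.2.pos
  obtain ⟨bz, hbzd⟩ : ∃ bz : ℤ, bz = α * bx + β * by' := ⟨_, rfl⟩
  obtain ⟨N1, hN1⟩ := supint w hw0 W hW bz (by rw [hbzd]; exact hbz) Cs (ε / (2 * 10 ^ 4))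
    (by positivity)
  obtain ⟨P0, hP0⟩ := exists_root (8 * b + 15) (by omega) (Z0 + 2 * K + w + 2)
  refine ⟨W * (K * (P0 + bx + by' + x2 + y2 + 1) + N1 +
    4 * 10 ^ 4 * (a' + b' + bz.natAbs + 1) + 2 * W + 2), ?_⟩
  intro X hX U V hU hV hUc hVc
  obtain ⟨N, hN⟩ : ∃ N : ℕ, N = X / W := ⟨_, rfl⟩
  obtain ⟨H, hH⟩ : ∃ H : ℕ, H = N / K := ⟨_, rfl⟩
  obtain ⟨hPH, hbxH, hbyH, hx2H, hy2H, hH1, hNN1, hNb, hNW, hN2, hKH, hHN, hWN, hXW, hNX, hX1, hXNN⟩ :=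
    par_facts W K P0 bx by' x2 y2 N1 (a' + b' + bz.natAbs + 1) X N H Z0 w hW0 hK0 hX hN hH
  clear hX
  obtain ⟨z, hz0, hz1, hz2⟩ := hP0 H hPH
  clear hP0
  have hzZ : Z0 ≤ z := le_trans (by omega) hz0
  have hzK : 2 * K ≤ z := le_trans (by omega) hz0
  have hzw : w ≤ z := le_trans (by omega) hz0
  have hz22 : 2 ≤ z := le_trans (by omega) hz0
  have hzH : z ≤ H := le_trans (Nat.le_self_pow (by omega) z) hz1
  -- the box
  obtain ⟨A0, hA0⟩ : ∃ A0 : ℤ, A0 = ((x1 * N / 10000 : ℕ) : ℤ) - (b' + 1 : ℕ) * H := ⟨_, rfl⟩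
  obtain ⟨C0, hC0⟩ : ∃ C0 : ℤ, C0 = ((y1 * N / 10000 : ℕ) : ℤ) - (a' + 1 : ℕ) * H := ⟨_, rfl⟩
  obtain ⟨La, hLa⟩ : ∃ La : ℕ, La = x2 * N / 10000 - x1 * N / 10000 + 2 * ((b' + 1) * H) + 1 :=
    ⟨_, rfl⟩
  obtain ⟨Lc, hLc⟩ : ∃ Lc : ℕ, Lc = y2 * N / 10000 - y1 * N / 10000 + 2 * ((a' + 1) * H) + 1 :=
    ⟨_, rfl⟩
  have hN1' : 1 ≤ N := le_trans (by norm_num) hN2
  have hsa := box_size x1 x2 N H (b' + 1) hx12 hHN hN1'
  have hsc := box_size y1 y2 N H (a' + 1) hy12 hHN hN1'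
  rw [← hLa] at hsa
  rw [← hLc] at hsc
  have hHLa : H ≤ La := by rw [hLa]; exact size_aux _ _ _
  have hHLc : H ≤ Lc := by rw [hLc]; exact size_aux _ _ _
  have hrange : ∀ a ∈ Finset.Ico A0 (A0 + La), ∀ c ∈ Finset.Ico C0 (C0 + Lc),
      (bz.natAbs : ℤ) + z + 1 ≤ α * a + β * c ∧ α * a + β * c < ((Cs * N : ℕ) : ℤ) := by
    intro a ha c hc
    rw [hA0, hLa, hb'] at ha
    rw [hC0, hLc, ha'] at hc
    rw [ha', hb'] at hNb hCs hK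
    exact range_third α β hα hβ x1 x2 y1 y2 hx12 hy12 hpos N H bz z hzH hN1'
      (by rw [← hK]; exact hKH) hNb Cs hCs a c ha hc
  -- the sets
  have hU' := set_aux W x1 x2 X N H K z β bx hβ hW0 hx1 hx12 hK0 hKH hNX hzH hH1 hWN hXW hbxH hx2H
    U hU A0 La b' hb' hA0 hLa
  have hV' := set_aux W y1 y2 X N H K z (-α) by' (neg_ne_zero.2 hα) hW0 hy1 hy12 hK0 hKH hNX hzH hH1
    hWN hXW hbyH hy2H V hV C0 Lc a' (by rw [Int.natAbs_neg]; exact ha') hC0 hLc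
  -- the form positivity
  have hWz : (1 : ℤ) ≤ W := by exact_mod_cast hW0
  have hposf : ∀ a ∈ Finset.Ico A0 (A0 + La), ∀ c ∈ Finset.Ico C0 (C0 + Lc),
      (z : ℤ) < (W : ℤ) * (α * a + β * c) + bz := by
    intro a ha c hc
    exact pos_aux W (α * a + β * c) bz bz.natAbs z hWz rfl (hrange a ha c hc).1
  -- linear forms
  have hLF := hlf w z H hww1 hzZ hz1 (W : ℤ) (not_dvd_primorial w z W hW) A0 0 C0 La H Lc
    hHLa le_rfl hHLc bx by' bz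
  -- cut norm
  obtain ⟨cN, hcN⟩ : ∃ cN : ℝ, cN = (Nat.totient W : ℝ) / W * Real.log N := ⟨_, rfl⟩
  have hbzN : bz.natAbs ≤ N := by
    clear hlf hN1 hU hV hU' hV' hrange hposf hLF hpos
    omega
  have hcut := cut_aux α β hα hβ w W bz Cs (by rw [hCs]; exact Nat.le_add_left _ _) ε hε0 hwC hw0 N N1 z
    hN1 hNN1 hbzN A0 C0 La Lc hrange hsa.1 hsc.1 cN hcN
  have hφ0 : 0 < Nat.totient W := Nat.totient_pos.2 hW0
  have hφr : (0 : ℝ) < Nat.totient W := by exact_mod_cast hφ0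
  have hWr : (0 : ℝ) < W := by exact_mod_cast hW0
  have hNr : (1 : ℝ) < N := by exact_mod_cast (lt_of_lt_of_le one_lt_two hN2)
  have hlN : 0 < Real.log N := Real.log_pos hNr
  have hcN0 : 0 < cN := by rw [hcN]; positivity
  have hcV : cN * VV w z ≤ 16 * (b : ℝ) + 31 := by
    have h := cn_bound w W z (8 * b + 15) N K hw0 hW hzw hz22 (le_trans (by norm_num) hK0)
      hzK (by rw [← hH]; exact hH1) (by rw [← hH]; exact hz2)
    rw [← hcN] at h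
    refine h.trans (le_of_eq ?_)
    push_cast
    ring
  have hK2 : (1 : ℝ) ≤ 16 * (b : ℝ) + 31 := by
    have : (0 : ℝ) ≤ b := Nat.cast_nonneg _
    linarith
  have hK20 : (0 : ℝ) < 16 * (b : ℝ) + 31 := lt_of_lt_of_le one_pos hK2
  have hcore := rel_core α β (W : ℤ) bx by' bz (lt_of_lt_of_le one_pos hWz) hbzd A0 C0 La H Lc
    (lt_of_lt_of_le hH1 hHLa) hH1 (lt_of_lt_of_le hH1 hHLc)
    U V w z cN (16 * (b : ℝ) + 31) (6 * εs) ε hcN0 hK2 hcV (by positivity) hεs6 hε0.le hε1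
    (fun u => ((u : ℤ) - bx) / W) (fun v => ((v : ℤ) - by') / W) hU' hV' hposf hLF hcut
  have hXr : (1 : ℝ) < X := by exact_mod_cast hX1
  have hNWX : (N : ℝ) * W ≤ X := by
    have : N * W ≤ X := by rw [mul_comm]; exact hWN
    exact_mod_cast this
  have hLaC : (La : ℝ) ≤ C' * N := by
    have h := cvp_aux (x2 : ℝ) (y2 : ℝ) ((a' + 1 : ℕ) : ℝ) ((b' + 1 : ℕ) : ℝ) N La
      (Nat.cast_nonneg _) (Nat.cast_nonneg _) (Nat.cast_nonneg _) (Nat.cast_nonneg _) hsa.2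
    rw [hC']
    exact h
  have hLcC : (Lc : ℝ) ≤ C' * N := by
    have h := cvp_aux (y2 : ℝ) (x2 : ℝ) ((b' + 1 : ℕ) : ℝ) ((a' + 1 : ℕ) : ℝ) N Lc
      (Nat.cast_nonneg _) (Nat.cast_nonneg _) (Nat.cast_nonneg _) (Nat.cast_nonneg _) hsc.2
    have e : (y2 : ℝ) + x2 + 2 * ((b' + 1 : ℕ) : ℝ) + 2 * ((a' + 1 : ℕ) : ℝ) + 1 = C' := by
      rw [hC']; ring
    rw [← e]
    exact h
  have hD0 : 0 ≤ (6 * εs) ^ (1 / 16 : ℝ) + ε ^ (1 / 16 : ℝ) :=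
    add_nonneg (Real.rpow_nonneg (by positivity) _) (Real.rpow_nonneg hε0.le _)
  exact rel_arith c C' cN (16 * (b : ℝ) + 31)
    ((6 * εs) ^ (1 / 16 : ℝ) + ε ^ (1 / 16 : ℝ)) X N W (Nat.totient W) U.card V.card La Lc _ hc hC'0
    hWr hφr hXr hNr hNWX (by exact_mod_cast hNX) (logX_aux X N hX1 hN2 hXNN) hcN hUc hVc
    (Nat.cast_nonneg _) (Nat.cast_nonneg _) hLaC hLcC hK20 hD0 hbig hcore

end

end Pool.Agent.Lib.MP_325d88_nt
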