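import Pool.Agent.Lib.MP_325d88_nt.SupNorm2
import Pool.Agent.Lib.MP_325d88_nt.BoxSieve

/-!
# Sup norm of the W-tricked primes minus one
-/

namespace Pool.Agent.Lib.MP_325d88_nt

open Finset Filter Topology

noncomputable section

namespace SupNorm

/-- exponential sum over `n < x` with `W n + b` prime -/
def SS (W b x : ℕ) (θ : ℝ) : ℂ :=
  ∑ n ∈ (Finset.range x).filter (fun n => (W * n + b).Prime), ee (n * θ)

/-- the weight -/
def cN (W N : ℕ) : ℝ := (Nat.totient W : ℝ) / W * Real.log N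

lemma cN_nonneg (W : ℕ) {N : ℕ} (hN : 1 ≤ N) : 0 ≤ cN W N := by
  unfold cN
  have : 0 ≤ Real.log N := Real.log_nonneg (by exact_mod_cast hN)
  positivity

/-- splitting into residue classes -/
lemma SS_rational {W b q : ℕ} (hq : 0 < q) (a : ℤ) (x : ℕ) :
    SS W b x ((a : ℝ) / q) = ∑ r ∈ Finset.range q, ee (r * ((a : ℝ) / q)) * (cnt W b q r x : ℂ) := by
  classical
  unfold SS cnt
  rw [← Finset.sum_fiberwise_of_maps_to (g := fun n => n % q) (t := Finset.range q)
    (fun n _ => Finset.mem_range.2 (Nat.mod_lt _ hq))]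
  refine Finset.sum_congr rfl fun r _ => ?_
  rw [Finset.filter_filter]
  have h1 : (Finset.range x).filter (fun n => (W * n + b).Prime ∧ n % q = r) =
      (Finset.range x).filter (fun n => n % q = r ∧ (W * n + b).Prime) := by
    refine Finset.filter_congr fun n _ => ?_
    tauto
  rw [h1]
  have h2 : ∀ n ∈ (Finset.range x).filter (fun n => n % q = r ∧ (W * n + b).Prime),
      ee (n * ((a : ℝ) / q)) = ee (r * ((a : ℝ) / q)) := by
    intro n hn
    rw [Finset.mem_filter] at hn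
    refine ee_congr_mod hq a ?_
    rw [← hn.2.1]
    exact (Nat.mod_modEq n q).symm
  rw [Finset.sum_congr rfl h2, Finset.sum_const, nsmul_eq_mul, mul_comm]

/-- the function `g` on major arcs -/
def gg (W b q N : ℕ) (a : ℤ) (lam : ℂ) (n : ℕ) : ℂ :=
  (((cN W N) * (if (W * n + b).Prime then 1 else 0) - 1 : ℝ) : ℂ) * ee (n * ((a : ℝ) / q)) - lam

lemma sum_gg {W b q N : ℕ} (a : ℤ) (lam : ℂ) (x : ℕ) :
    ∑ n ∈ Finset.range x, gg W b q N a lam n =
      (cN W N : ℂ) * SS W b x ((a : ℝ) / q) - ∑ n ∈ Finset.range x, ee (n * ((a : ℝ) / q))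
        - lam * x := by
  unfold gg SS
  rw [Finset.sum_sub_distrib, Finset.sum_const, Finset.card_range, nsmul_eq_mul, Finset.sum_filter,
    Finset.mul_sum, ← Finset.sum_sub_distrib, mul_comm (x : ℂ)]
  congr 1
  refine Finset.sum_congr rfl fun n _ => ?_
  split_ifs <;> push_cast <;> ring

/-- the approximation at a rational point -/
lemma SS_approx {W b q N C : ℕ} (hW : 0 < W) (hq : 0 < q) (a : ℤ) (η : ℝ)
    (hcnt : ∀ r < q, ∀ x ≤ C * N,
      |(cnt W b q r x : ℝ) * Real.log N - dens0 W b q r * x| ≤ η * N) (x : ℕ) (hx : x ≤ C * N) :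
    ‖(cN W N : ℂ) * SS W b x ((a : ℝ) / q) -
      ((((Nat.totient W : ℝ) / Nat.totient (W * q) : ℝ) : ℂ) * RS W b q a) * x‖ ≤ q * (η * N) := by
  have hWr : (W : ℝ) ≠ 0 := by exact_mod_cast hW.ne'
  have h1 : (((Nat.totient W : ℝ) / Nat.totient (W * q) : ℝ) : ℂ) * RS W b q a * x =
      ∑ r ∈ Finset.range q, ee (r * ((a : ℝ) / q)) *
        (((Nat.totient W : ℝ) / W * (dens0 W b q r * x) : ℝ) : ℂ) := by
    unfold RS
    rw [Finset.sum_filter, Finset.mul_sum, Finset.sum_mul]
    refine Finset.sum_congr rfl fun r _ => ?_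
    unfold dens0
    split_ifs
    · have h2 : (Nat.totient W : ℝ) / W * ((W : ℝ) / Nat.totient (W * q) * x) =
          (Nat.totient W : ℝ) / Nat.totient (W * q) * x := by
        field_simp
      rw [h2]
      push_cast
      ring
    · simp
  have h2 : (cN W N : ℂ) * SS W b x ((a : ℝ) / q) =
      ∑ r ∈ Finset.range q, ee (r * ((a : ℝ) / q)) *
        (((Nat.totient W : ℝ) / W * ((cnt W b q r x : ℝ) * Real.log N) : ℝ) : ℂ) := by
    rw [SS_rational hq, Finset.mul_sum]
    refine Finset.sum_congr rfl fun r _ => ?_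
    unfold cN
    push_cast
    ring
  rw [h1, h2, ← Finset.sum_sub_distrib]
  refine (norm_sum_le _ _).trans ?_
  have h3 : ∀ r ∈ Finset.range q, ‖ee (r * ((a : ℝ) / q)) *
        (((Nat.totient W : ℝ) / W * ((cnt W b q r x : ℝ) * Real.log N) : ℝ) : ℂ) -
        ee (r * ((a : ℝ) / q)) *
        (((Nat.totient W : ℝ) / W * (dens0 W b q r * x) : ℝ) : ℂ)‖ ≤ η * N := by
    intro r hr
    rw [Finset.mem_range] at hr
    rw [← mul_sub, norm_mul, norm_ee, one_mul, ← Complex.ofReal_sub, Complex.norm_real,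
      Real.norm_eq_abs, ← mul_sub, abs_mul]
    have h4 : |(Nat.totient W : ℝ) / W| ≤ 1 := by
      rw [abs_of_nonneg (by positivity), div_le_one (by positivity)]
      exact_mod_cast Nat.totient_le W
    calc _ ≤ 1 * (η * N) := mul_le_mul h4 (hcnt r hr x hx) (abs_nonneg _) (by norm_num)
      _ = η * N := one_mul _
  refine (Finset.sum_le_sum h3).trans ?_
  rw [Finset.sum_const, Finset.card_range, nsmul_eq_mul]

/-- major arcs -/
lemma major {w W b : ℕ} (hw : 1 ≤ w) (hW0 : 0 < W)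
    (hW : ∀ p : ℕ, p.Prime → p ≤ w → p ∣ W) (hb : Nat.Coprime b W) (Q C : ℕ) (K : ℝ) (hK : 0 ≤ K)
    (ε : ℝ) (hε : 0 < ε) :
    ∃ N0 : ℕ, ∀ N : ℕ, N0 ≤ N → ∀ q : ℕ, 0 < q → q ≤ Q → ∀ a : ℤ, IsCoprime a (q : ℤ) →
      ∀ β : ℝ, |β| ≤ K / N → ∀ A B : ℕ, A ≤ B → B ≤ C * N →
      ‖∑ n ∈ Finset.Ico A B, ((cN W N * (if (W * n + b).Prime then 1 else 0) - 1 : ℝ) : ℂ) *
        ee (n * ((a : ℝ) / q + β))‖ ≤ (ε + C / w) * N := by
  -- the constants
  set D : ℝ := 2 + 2 * Real.pi * K * C with hD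
  have hDpos : 0 < D := by have := Real.pi_pos; positivity
  set η : ℝ := ε / (2 * D * (Q + 1)) with hη
  have hηpos : 0 < η := by positivity
  obtain ⟨N1, hN1⟩ := cnt_unif W b hW0 Q C η hηpos
  obtain ⟨N2, hN2⟩ : ∃ N2 : ℕ, ∀ N : ℕ, N2 ≤ N → D * Q ≤ ε / 2 * N := by
    obtain ⟨N2, hN2⟩ := exists_nat_gt (D * Q / (ε / 2))
    refine ⟨N2, fun N hN => ?_⟩
    rw [div_lt_iff₀ (by positivity)] at hN2
    have : (N2 : ℝ) ≤ N := by exact_mod_cast hN
    nlinarith
  refine ⟨max (max N1 N2) 1, fun N hN q hq hqQ a ha β hβ A B hAB hB => ?_⟩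
  have hNN1 : N1 ≤ N := le_trans (le_trans (le_max_left _ _) (le_max_left _ _)) hN
  have hNN2 : N2 ≤ N := le_trans (le_trans (le_max_right _ _) (le_max_left _ _)) hN
  have hN1' : 1 ≤ N := le_trans (le_max_right _ _) hN
  have hNr : (0 : ℝ) < N := by exact_mod_cast hN1'
  have hwr : (0 : ℝ) < w := by exact_mod_cast hw
  have hcnt := hN1 N hNN1 q hqQ
  -- the coefficient
  set mu : ℂ := (((Nat.totient W : ℝ) / Nat.totient (W * q) : ℝ) : ℂ) * RS W b q a with hmu
  set lam : ℂ := if q = 1 then 0 else mu with hlam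
  have hlamle : ‖lam‖ ≤ 1 / w := by
    rw [hlam]
    split_ifs with h
    · rw [norm_zero]; positivity
    · exact main_le hw hW0 hW hb (by omega) a ha
  have hqr : (q : ℝ) ≤ Q := by exact_mod_cast hqQ
  have hG : ∀ x ≤ C * N, ‖∑ n ∈ Finset.range x, gg W b q N a lam n‖ ≤ Q * (η * N) + Q := by
    intro x hx
    have h1 := SS_approx hW0 hq a η hcnt x hx
    rw [sum_gg]
    by_cases h : q = 1
    · have hl : lam = 0 := by rw [hlam, if_pos h]
      have hm : mu = 1 := by
        rw [hmu, h, mul_one]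
        have hφ : (Nat.totient W : ℝ) ≠ 0 := by exact_mod_cast (Nat.totient_pos.2 hW0).ne'
        rw [div_self hφ]
        unfold RS
        have : (Finset.range 1).filter (fun r => Nat.Coprime (W * r + b) (W * 1)) = {0} := by
          ext r
          rw [Finset.mem_filter, Finset.mem_range, Finset.mem_singleton]
          constructor
          · rintro ⟨h1, _⟩; omega
          · rintro rfl; simpa using hb
        rw [this, Finset.sum_singleton]
        simp [ee_zero]
      have h2 : ∑ n ∈ Finset.range x, ee (n * ((a : ℝ) / q)) = x := by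
        have : ∀ n ∈ Finset.range x, ee (n * ((a : ℝ) / q)) = 1 := by
          intro n _
          have : (n : ℝ) * ((a : ℝ) / q) = ((n * a : ℤ) : ℝ) := by rw [h]; push_cast; ring
          rw [this, ee_int]
        rw [Finset.sum_congr rfl this]
        simp
      rw [hl, zero_mul, sub_zero, h2]
      rw [← hmu, hm, one_mul] at h1
      refine h1.trans ?_
      have : (q : ℝ) * (η * N) ≤ Q * (η * N) := by gcongr
      have : (0 : ℝ) ≤ Q := Nat.cast_nonneg _
      linarith
    · have hl : lam = mu := by rw [hlam, if_neg h]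
      rw [hl]
      have h2 : ‖∑ n ∈ Finset.range x, ee (n * ((a : ℝ) / q))‖ ≤ q := by
        have hqr0 : (0 : ℝ) < q := by exact_mod_cast hq
        have h3 : 1 / (q : ℝ) ≤ nd ((a : ℝ) / q) := by
          unfold nd
          have h4 : (a : ℝ) / q - round ((a : ℝ) / q) =
              ((a - round ((a : ℝ) / q) * q : ℤ) : ℝ) / q := by
            push_cast
            field_simp
          rw [h4, abs_div, abs_of_pos hqr0]
          gcongr
          have h5 : a - round ((a : ℝ) / q) * q ≠ 0 := by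
            intro h6
            have h7 : (q : ℤ) ∣ a := ⟨round ((a : ℝ) / q), by linarith⟩
            have h8 := ha.isUnit_of_dvd' h7 dvd_rfl
            rw [Int.isUnit_iff] at h8
            omega
          have h6 := Int.one_le_abs h5
          exact_mod_cast h6
        have h4 := geom_bound x ((a : ℝ) / q) (lt_of_lt_of_le (by positivity) h3)
        refine h4.trans ?_
        calc 1 / (2 * nd ((a : ℝ) / q)) ≤ 1 / (2 * (1 / (q : ℝ))) := by gcongr
          _ = q / 2 := by field_simp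
          _ ≤ q := by linarith
      calc _ = ‖((cN W N : ℂ) * SS W b x ((a : ℝ) / q) - mu * x) -
            ∑ n ∈ Finset.range x, ee (n * ((a : ℝ) / q))‖ := by congr 1; ring
        _ ≤ q * (η * N) + q := (norm_sub_le _ _).trans (add_le_add h1 h2)
        _ ≤ Q * (η * N) + Q := by gcongr
  -- summation by parts
  have hABr : (A : ℝ) ≤ B := by exact_mod_cast hAB
  have hBr : (B : ℝ) ≤ C * N := by exact_mod_cast hB
  have hAr : (0 : ℝ) ≤ A := Nat.cast_nonneg _
  have h1 := abel (gg W b q N a lam) _ (C * N) hG β A B hAB hB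
  have h2 : ∑ n ∈ Finset.Ico A B, ((cN W N * (if (W * n + b).Prime then 1 else 0) - 1 : ℝ) : ℂ) *
        ee (n * ((a : ℝ) / q + β)) =
      ∑ n ∈ Finset.Ico A B, gg W b q N a lam n * ee (n * β) +
        lam * ∑ n ∈ Finset.Ico A B, ee (n * β) := by
    rw [Finset.mul_sum, ← Finset.sum_add_distrib]
    refine Finset.sum_congr rfl fun n _ => ?_
    unfold gg
    rw [mul_add, ee_add]
    ring
  have h3 : ‖lam * ∑ n ∈ Finset.Ico A B, ee (n * β)‖ ≤ 1 / w * (C * N) := by
    rw [norm_mul]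
    refine mul_le_mul hlamle ?_ (norm_nonneg _) (by positivity)
    refine (norm_sum_le _ _).trans ?_
    simp only [norm_ee, Finset.sum_const, Nat.card_Ico, nsmul_eq_mul, mul_one]
    rw [Nat.cast_sub hAB]
    linarith
  have h4 : (Q * (η * N) + Q) * (2 + 2 * Real.pi * |β| * (B - A : ℝ)) ≤ ε * N := by
    have h5 : 2 + 2 * Real.pi * |β| * (B - A : ℝ) ≤ D := by
      rw [hD]
      have hpi := Real.pi_pos
      have h6 : |β| * (B - A : ℝ) ≤ K * C := by
        calc |β| * (B - A : ℝ) ≤ (K / N) * (C * N) := by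
              refine mul_le_mul hβ (by linarith) (by linarith) (by positivity)
          _ = K * C := by field_simp
      have h7 : 2 * Real.pi * |β| * (B - A : ℝ) = 2 * Real.pi * (|β| * (B - A : ℝ)) := by ring
      rw [h7]
      have h8 : 2 * Real.pi * (|β| * (B - A : ℝ)) ≤ 2 * Real.pi * (K * C) := by gcongr
      linarith
    have hQr : (0 : ℝ) ≤ Q := Nat.cast_nonneg _
    calc (Q * (η * N) + Q) * (2 + 2 * Real.pi * |β| * (B - A : ℝ)) ≤ (Q * (η * N) + Q) * D := by
          gcongr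
      _ = (Q * η * D) * N + D * Q := by ring
      _ ≤ (ε / 2) * N + ε / 2 * N := by
          refine add_le_add ?_ (hN2 N hNN2)
          gcongr
          rw [hη]
          have : (Q : ℝ) * (ε / (2 * D * (Q + 1))) * D = (ε / 2) * (Q / (Q + 1)) := by
            field_simp
          rw [this]
          have : (Q : ℝ) / (Q + 1) ≤ 1 := by
            rw [div_le_one (by positivity)]; linarith
          nlinarith
      _ = ε * N := by ring
  rw [h2]
  refine (norm_add_le _ _).trans ?_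
  have h5 : 1 / (w : ℝ) * (C * N) = C / w * N := by ring
  rw [h5] at h3
  have h6 := h1.trans h4
  rw [add_mul]
  exact add_le_add h6 h3

/-- Fourier expansion of the residue class condition -/
lemma SS_fourier {W b : ℕ} (hW : 0 < W) (x : ℕ) (θ : ℝ) :
    (W : ℂ) * SS W b x θ = ∑ j ∈ Finset.range W, ee (-(b * ((θ + j) / W))) *
      ∑ p ∈ (Finset.Ico b (W * x + b)).filter Nat.Prime, ee (p * ((θ + j) / W)) := by
  classical
  have hWr : (W : ℝ) ≠ 0 := by exact_mod_cast hW.ne'
  have h1 : ∑ j ∈ Finset.range W, ee (-(b * ((θ + j) / W))) *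
      ∑ p ∈ (Finset.Ico b (W * x + b)).filter Nat.Prime, ee (p * ((θ + j) / W)) =
      ∑ p ∈ (Finset.Ico b (W * x + b)).filter Nat.Prime,
        ee (((p : ℝ) - b) * θ / W) * (if (W : ℤ) ∣ (p : ℤ) - b then (W : ℂ) else 0) := by
    simp only [Finset.mul_sum]
    rw [Finset.sum_comm]
    refine Finset.sum_congr rfl fun p _ => ?_
    rw [← sum_ee_div W hW, Finset.mul_sum]
    refine Finset.sum_congr rfl fun j _ => ?_
    rw [← ee_add, ← ee_add]
    congr 1
    push_cast
    field_simp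
    ring
  rw [h1]
  have h2 : ∑ p ∈ (Finset.Ico b (W * x + b)).filter Nat.Prime,
        ee (((p : ℝ) - b) * θ / W) * (if (W : ℤ) ∣ (p : ℤ) - b then (W : ℂ) else 0) =
      ∑ p ∈ ((Finset.Ico b (W * x + b)).filter Nat.Prime).filter
        (fun p : ℕ => (W : ℤ) ∣ (p : ℤ) - b), ee (((p : ℝ) - b) * θ / W) * W := by
    rw [Finset.sum_filter (p := fun p : ℕ => (W : ℤ) ∣ (p : ℤ) - b)]
    refine Finset.sum_congr rfl fun p _ => ?_
    split_ifs <;> simp
  rw [h2]
  have h3 : ((Finset.Ico b (W * x + b)).filter Nat.Prime).filter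
        (fun p : ℕ => (W : ℤ) ∣ (p : ℤ) - b) =
      ((Finset.range x).filter (fun n => (W * n + b).Prime)).image (fun n => W * n + b) := by
    ext p
    rw [Finset.mem_filter, Finset.mem_filter, Finset.mem_Ico, Finset.mem_image]
    constructor
    · rintro ⟨⟨⟨h4, h5⟩, h6⟩, h7⟩
      have h8 : W ∣ p - b := by
        have : ((p - b : ℕ) : ℤ) = (p : ℤ) - b := by push_cast [Nat.cast_sub h4]; ring
        rw [← this] at h7
        exact_mod_cast h7
      obtain ⟨n, hn⟩ := h8
      have hp : p = W * n + b := by omega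
      refine ⟨n, ?_, hp.symm⟩
      rw [Finset.mem_filter, Finset.mem_range]
      refine ⟨?_, by rw [← hp]; exact h6⟩
      have : W * n < W * x := by omega
      exact Nat.lt_of_mul_lt_mul_left this
    · rintro ⟨n, hn, rfl⟩
      rw [Finset.mem_filter, Finset.mem_range] at hn
      refine ⟨⟨⟨Nat.le_add_left _ _, ?_⟩, hn.2⟩, ?_⟩
      · have : W * n < W * x := Nat.mul_lt_mul_of_pos_left hn.1 hW
        omega
      · exact ⟨n, by push_cast; ring⟩
  rw [h3, Finset.sum_image]
  · unfold SS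
    rw [Finset.mul_sum]
    refine Finset.sum_congr rfl fun n _ => ?_
    have h4 : (((W * n + b : ℕ) : ℝ) - b) * θ / W = n * θ := by
      push_cast
      field_simp
      ring
    rw [h4, mul_comm]
  · intro n _ m _ hnm
    have h4 : W * n + b = W * m + b := hnm
    have h5 : W * n = W * m := by omega
    exact Nat.eq_of_mul_eq_mul_left hW h5

lemma SS_le_of_primes {W b : ℕ} (hW : 0 < W) (x : ℕ) (θ : ℝ) (M : ℝ)
    (hM : ∀ j : ℕ, ‖∑ p ∈ (Finset.range (W * x + b + 1)).filter Nat.Prime,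
      ee (p * ((θ + j) / W))‖ ≤ M) : ‖SS W b x θ‖ ≤ M + (b + 1) := by
  classical
  have hWr : (0 : ℝ) < W := by exact_mod_cast hW
  have h1 : ∀ j : ℕ, ‖∑ p ∈ (Finset.Ico b (W * x + b)).filter Nat.Prime,
      ee (p * ((θ + j) / W))‖ ≤ M + (b + 1) := by
    intro j
    set S := (Finset.Ico b (W * x + b)).filter Nat.Prime with hS
    set T := (Finset.range (W * x + b + 1)).filter Nat.Prime with hT
    have hST : S ⊆ T := by
      intro p hp
      rw [hS, Finset.mem_filter, Finset.mem_Ico] at hp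
      rw [hT, Finset.mem_filter, Finset.mem_range]
      exact ⟨by omega, hp.2⟩
    have h2 := Finset.sum_sdiff (f := fun p : ℕ => ee (p * ((θ + j) / W))) hST
    have h3 : (T \ S).card ≤ b + 1 := by
      have : T \ S ⊆ insert (W * x + b) (Finset.range b) := by
        intro p hp
        rw [Finset.mem_sdiff, hT, hS, Finset.mem_filter, Finset.mem_range, Finset.mem_filter,
          Finset.mem_Ico] at hp
        rw [Finset.mem_insert, Finset.mem_range]
        by_contra hcon
        rw [not_or, not_lt] at hcon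
        exact hp.2 ⟨⟨hcon.2, by omega⟩, hp.1.2⟩
      refine (Finset.card_le_card this).trans ((Finset.card_insert_le _ _).trans ?_)
      rw [Finset.card_range]
    have h4 : ‖∑ p ∈ T \ S, ee (p * ((θ + j) / W))‖ ≤ b + 1 := by
      refine (norm_sum_le _ _).trans ?_
      simp only [norm_ee, Finset.sum_const, nsmul_eq_mul, mul_one]
      exact_mod_cast h3
    have h5 : ∑ p ∈ S, ee (p * ((θ + j) / W)) = ∑ p ∈ T, ee (p * ((θ + j) / W)) -
        ∑ p ∈ T \ S, ee (p * ((θ + j) / W)) := by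
      rw [← h2]; ring
    rw [h5]
    exact (norm_sub_le _ _).trans (add_le_add (hM j) h4)
  have h2 := SS_fourier (b := b) hW x θ
  have h3 : (W : ℝ) * ‖SS W b x θ‖ ≤ W * (M + (b + 1)) := by
    have h4 : (W : ℝ) * ‖SS W b x θ‖ = ‖(W : ℂ) * SS W b x θ‖ := by
      rw [norm_mul, Complex.norm_natCast]
    rw [h4, h2]
    refine (norm_sum_le _ _).trans ?_
    have h5 : ∀ j ∈ Finset.range W, ‖ee (-(b * ((θ + j) / W))) *
      ∑ p ∈ (Finset.Ico b (W * x + b)).filter Nat.Prime, ee (p * ((θ + j) / W))‖ ≤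
        M + (b + 1) := by
      intro j _
      rw [norm_mul, norm_ee, one_mul]
      exact h1 j
    refine (Finset.sum_le_sum h5).trans ?_
    rw [Finset.sum_const, Finset.card_range, nsmul_eq_mul]
  exact le_of_mul_le_mul_left h3 hWr

/-- the trivial bound -/
lemma SS_trivial (W b x : ℕ) (θ : ℝ) : ‖SS W b x θ‖ ≤ cnt W b 1 0 x := by
  unfold SS cnt
  refine (norm_sum_le _ _).trans ?_
  simp only [norm_ee, Finset.sum_const, nsmul_eq_mul, mul_one]
  have : (Finset.range x).filter (fun n => (W * n + b).Prime) ⊆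
      (Finset.range x).filter (fun n => n % 1 = 0 ∧ (W * n + b).Prime) := by
    intro n hn
    rw [Finset.mem_filter] at hn ⊢
    exact ⟨hn.1, Nat.mod_one _, hn.2⟩
  exact_mod_cast Finset.card_le_card this

/-- minor arcs -/
lemma minor {W b : ℕ} (hW0 : 0 < W) (hb : Nat.Coprime b W) (C : ℕ) (ε : ℝ) (hε : 0 < ε)
    (hminor : ∀ κ : ℝ, 0 < κ → ∃ Q N0 : ℕ, 0 < Q ∧ ∀ N : ℕ, N0 ≤ N → ∀ θ : ℝ,
      (∀ q : ℕ, 1 ≤ q → q ≤ Q → (Q : ℝ) / N < nd (q * θ)) →
      ‖∑ p ∈ (Finset.range (N + 1)).filter Nat.Prime, ee (p * θ)‖ ≤ κ * (N / Real.log N)) :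
    ∃ Q : ℕ, ∃ δ : ℝ, 0 < Q ∧ 0 < δ ∧ ∃ N0 : ℕ, ∀ N : ℕ, N0 ≤ N → ∀ θ : ℝ,
      (∀ q : ℕ, 1 ≤ q → q ≤ Q → (Q : ℝ) / (δ * N) < nd (q * θ)) →
      ∀ A B : ℕ, A ≤ B → B ≤ C * N →
      ‖∑ n ∈ Finset.Ico A B, ((cN W N * (if (W * n + b).Prime then 1 else 0) - 1 : ℝ) : ℂ) *
        ee (n * θ)‖ ≤ ε * N := by
  have hWr : (0 : ℝ) < W := by exact_mod_cast hW0
  have hW1 : (1 : ℝ) ≤ W := by exact_mod_cast hW0
  have hCr : (0 : ℝ) ≤ C := Nat.cast_nonneg _
  have hbr : (0 : ℝ) ≤ b := Nat.cast_nonneg _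
  set τ : ℝ := ε / 4 with hτ
  have hτpos : 0 < τ := by positivity
  set δ : ℝ := min 1 (τ / 2) with hδ
  have hδpos : 0 < δ := lt_min one_pos (by positivity)
  have hδ1 : δ ≤ 1 := min_le_left _ _
  have hδτ : δ ≤ τ / 2 := min_le_right _ _
  set κ : ℝ := τ / (4 * (W * C + 1)) with hκ
  have hκpos : 0 < κ := by positivity
  obtain ⟨Q, N1, hQ, hN1⟩ := hminor κ hκpos
  obtain ⟨N2, hN2⟩ := cnt_unif W b hW0 1 C (τ / 2) (by positivity)
  -- largeness
  have t1 : Tendsto (fun N : ℕ => δ * (N : ℝ)) atTop atTop :=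
    Tendsto.const_mul_atTop hδpos tendsto_natCast_atTop_atTop
  have t2 : Tendsto (fun N : ℕ => ((b : ℝ) + 1) * (Real.log N / N)) atTop (𝓝 (((b : ℝ) + 1) * 0)) :=
    log_div_tendsto.const_mul _
  rw [mul_zero] at t2
  have ev : ∀ᶠ N : ℕ in atTop, (N1 : ℝ) + 2 ≤ δ * N ∧
      ((b : ℝ) + 1) * (Real.log N / N) < τ / 2 ∧ 1 / δ ^ 2 ≤ N ∧ (b : ℝ) ≤ N ∧ 2 ≤ (N : ℝ) :=
    (t1.eventually_ge_atTop _).and ((t2.eventually_lt_const (by positivity)).and
      ((tendsto_natCast_atTop_atTop.eventually_ge_atTop _).and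
        ((tendsto_natCast_atTop_atTop.eventually_ge_atTop _).and
          (tendsto_natCast_atTop_atTop.eventually_ge_atTop _))))
  obtain ⟨N3, hN3⟩ := eventually_atTop.1 ev
  refine ⟨Q, δ, hQ, hδpos, max N2 N3, fun N hN θ hθ A B hAB hB => ?_⟩
  obtain ⟨e1, e2, e3, e4, e5⟩ := hN3 N (le_trans (le_max_right _ _) hN)
  have hcnt := hN2 N (le_trans (le_max_left _ _) hN) 1 le_rfl 0 one_pos
  have hNr : (0 : ℝ) < N := by linarith
  have hlN : 0 < Real.log N := Real.log_pos (by linarith)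
  have hN1' : 1 ≤ N := by
    have : (1 : ℝ) ≤ N := by linarith
    exact_mod_cast this
  have hφ : (Nat.totient W : ℝ) / W ≤ 1 := by
    rw [div_le_one (by positivity)]
    exact_mod_cast Nat.totient_le W
  have hφ0 : (0 : ℝ) ≤ (Nat.totient W : ℝ) / W := by positivity
  have hN1nn : (0 : ℝ) ≤ N1 := Nat.cast_nonneg _
  -- the main estimate
  have main : ∀ x : ℕ, x ≤ C * N → cN W N * ‖SS W b x θ‖ ≤ τ * N := by
    intro x hx
    have hxr : (x : ℝ) ≤ C * N := by exact_mod_cast hx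
    rcases le_total (x : ℝ) (δ * N) with h | h
    · -- trivial bound
      have h1 := (abs_le.1 (hcnt x hx)).2
      have h2 := SS_trivial W b x θ
      have h3 : dens0 W b 1 0 = (W : ℝ) / Nat.totient W := by
        unfold dens0
        rw [if_pos (by simpa using hb), mul_one]
      have hφW : (0 : ℝ) < Nat.totient W := by exact_mod_cast Nat.totient_pos.2 hW0
      rw [h3] at h1
      have h4 : (cnt W b 1 0 x : ℝ) * Real.log N ≤ (W : ℝ) / Nat.totient W * x + τ / 2 * N := by
        linarith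
      calc cN W N * ‖SS W b x θ‖ ≤ cN W N * (cnt W b 1 0 x : ℝ) :=
            mul_le_mul_of_nonneg_left h2 (cN_nonneg W hN1')
        _ = (Nat.totient W : ℝ) / W * ((cnt W b 1 0 x : ℝ) * Real.log N) := by
            unfold cN; ring
        _ ≤ (Nat.totient W : ℝ) / W * ((W : ℝ) / Nat.totient W * x + τ / 2 * N) := by gcongr
        _ = x + (Nat.totient W : ℝ) / W * (τ / 2 * N) := by field_simp
        _ ≤ δ * N + 1 * (τ / 2 * N) := by gcongr
        _ ≤ τ / 2 * N + 1 * (τ / 2 * N) := by gcongr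
        _ = τ * N := by ring
    · -- minor arcs
      have hWx : (N1 : ℝ) + 2 ≤ W * x := by nlinarith
      have hWxN : δ * N ≤ W * x := by nlinarith
      have hWb : ((W * x + b : ℕ) : ℝ) = W * x + b := by push_cast; ring
      have hprime : ∀ j : ℕ, ‖∑ p ∈ (Finset.range (W * x + b + 1)).filter Nat.Prime,
          ee (p * ((θ + j) / W))‖ ≤
          κ * (((W * x + b : ℕ) : ℝ) / Real.log ((W * x + b : ℕ) : ℝ)) := by
        intro j
        refine hN1 (W * x + b) ?_ ((θ + j) / W) ?_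
        · have : (N1 : ℝ) ≤ ((W * x + b : ℕ) : ℝ) := by rw [hWb]; linarith
          exact_mod_cast this
        · intro q hq1 hq2
          have h1 := hθ q hq1 hq2
          have h2 : nd (q * θ) = nd ((W : ℕ) * (q * ((θ + j) / W))) := by
            have : (W : ℕ) * ((q : ℝ) * ((θ + j) / W)) = q * θ + ((q * j : ℤ) : ℝ) := by
              push_cast
              field_simp
            rw [this, nd_add_int]
          have h3 := nd_mul_le W (q * ((θ + j) / W))
          rw [← h2] at h3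
          have h4 : (Q : ℝ) / (δ * N) < W * nd (q * ((θ + j) / W)) := lt_of_lt_of_le h1 h3
          have h5 : (Q : ℝ) / ((W * x + b : ℕ) : ℝ) ≤ (Q : ℝ) / (δ * N) / W := by
            rw [div_div, hWb]
            apply div_le_div_of_nonneg_left (Nat.cast_nonneg _) (by positivity)
            nlinarith
          refine lt_of_le_of_lt h5 ?_
          rw [div_lt_iff₀ hWr, mul_comm (nd _) (W : ℝ)]
          exact h4
      have h1 := SS_le_of_primes hW0 x θ _ hprime
      have hlog : Real.log N / 2 ≤ Real.log ((W * x + b : ℕ) : ℝ) := by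
        have h2 : Real.sqrt N ≤ ((W * x + b : ℕ) : ℝ) := by
          rw [hWb]
          have h3 : Real.sqrt N ≤ δ * N := by
            rw [Real.sqrt_le_left (by positivity)]
            rw [div_le_iff₀ (by positivity)] at e3
            nlinarith
          linarith
        have h3 := Real.log_le_log (Real.sqrt_pos.2 hNr) h2
        rw [Real.log_sqrt hNr.le] at h3
        exact h3
      have hlpos : 0 < Real.log ((W * x + b : ℕ) : ℝ) := by linarith
      have h2 : Real.log N / Real.log ((W * x + b : ℕ) : ℝ) ≤ 2 := by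
        rw [div_le_iff₀ hlpos]
        linarith
      have h3 : ((W * x + b : ℕ) : ℝ) ≤ (W * C + 1) * N := by
        rw [hWb]
        have : (W : ℝ) * x ≤ W * (C * N) := by gcongr
        nlinarith
      have h4 : ((b : ℝ) + 1) * Real.log N ≤ τ / 2 * N := by
        have h5 : ((b : ℝ) + 1) * (Real.log N / N) = ((b : ℝ) + 1) * Real.log N / N := by ring
        rw [h5, div_lt_iff₀ hNr] at e2
        exact e2.le
      have hS0 : 0 ≤ κ * (((W * x + b : ℕ) : ℝ) / Real.log ((W * x + b : ℕ) : ℝ)) + (b + 1) := by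
        positivity
      calc cN W N * ‖SS W b x θ‖ ≤ cN W N *
            (κ * (((W * x + b : ℕ) : ℝ) / Real.log ((W * x + b : ℕ) : ℝ)) + (b + 1)) :=
            mul_le_mul_of_nonneg_left h1 (cN_nonneg W hN1')
        _ ≤ Real.log N *
            (κ * (((W * x + b : ℕ) : ℝ) / Real.log ((W * x + b : ℕ) : ℝ)) + (b + 1)) := by
            refine mul_le_mul_of_nonneg_right ?_ hS0
            unfold cN
            calc (Nat.totient W : ℝ) / W * Real.log N ≤ 1 * Real.log N := by gcongr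
              _ = Real.log N := one_mul _
        _ = κ * ((W * x + b : ℕ) : ℝ) * (Real.log N / Real.log ((W * x + b : ℕ) : ℝ)) +
            ((b : ℝ) + 1) * Real.log N := by ring
        _ ≤ κ * ((W * C + 1) * N) * 2 + τ / 2 * N := by
            refine add_le_add ?_ h4
            refine mul_le_mul (by gcongr) h2 (by positivity) (by positivity)
        _ = τ * N := by
            rw [hκ]
            field_simp
            ring
  -- the geometric sum
  have hQr : (1 : ℝ) ≤ Q := by exact_mod_cast hQ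
  have hnd : 1 / (δ * N) < nd θ := by
    have h1 := hθ 1 le_rfl hQ
    rw [Nat.cast_one, one_mul] at h1
    refine lt_of_le_of_lt ?_ h1
    gcongr
  have hgeo : ∀ x : ℕ, ‖∑ n ∈ Finset.range x, ee (n * θ)‖ ≤ δ * N / 2 := by
    intro x
    refine (geom_bound x θ (lt_trans (by positivity) hnd)).trans ?_
    calc 1 / (2 * nd θ) ≤ 1 / (2 * (1 / (δ * N))) := by gcongr
      _ = δ * N / 2 := by field_simp
  have hsplit : ∑ n ∈ Finset.Ico A B, ((cN W N * (if (W * n + b).Prime then 1 else 0) - 1 : ℝ) : ℂ) *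
        ee (n * θ) = (cN W N : ℂ) * SS W b B θ - (cN W N : ℂ) * SS W b A θ -
        (∑ n ∈ Finset.range B, ee (n * θ) - ∑ n ∈ Finset.range A, ee (n * θ)) := by
    rw [← Finset.sum_Ico_eq_sub _ hAB, ← mul_sub]
    have h1 : SS W b B θ - SS W b A θ =
        ∑ n ∈ Finset.Ico A B, (if (W * n + b).Prime then ee (n * θ) else 0) := by
      unfold SS
      rw [Finset.sum_filter, Finset.sum_filter, Finset.sum_Ico_eq_sub _ hAB]
    rw [h1, Finset.mul_sum, ← Finset.sum_sub_distrib]
    refine Finset.sum_congr rfl fun n _ => ?_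
    split_ifs <;> push_cast <;> ring
  rw [hsplit]
  have hcN : ‖(cN W N : ℂ)‖ = cN W N := by
    rw [Complex.norm_real, Real.norm_eq_abs, abs_of_nonneg (cN_nonneg W hN1')]
  have hA := main A (hAB.trans hB)
  have hB' := main B hB
  calc _ ≤ ‖(cN W N : ℂ) * SS W b B θ - (cN W N : ℂ) * SS W b A θ‖ +
        ‖∑ n ∈ Finset.range B, ee (n * θ) - ∑ n ∈ Finset.range A, ee (n * θ)‖ := norm_sub_le _ _
    _ ≤ (‖(cN W N : ℂ) * SS W b B θ‖ + ‖(cN W N : ℂ) * SS W b A θ‖) +
        (‖∑ n ∈ Finset.range B, ee (n * θ)‖ + ‖∑ n ∈ Finset.range A, ee (n * θ)‖) :=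
        add_le_add (norm_sub_le _ _) (norm_sub_le _ _)
    _ ≤ (τ * N + τ * N) + (δ * N / 2 + δ * N / 2) := by
        rw [norm_mul, norm_mul, hcN]
        exact add_le_add (add_le_add hB' hA) (add_le_add (hgeo B) (hgeo A))
    _ ≤ ε * N := by
        have : δ * N ≤ τ / 2 * N := by gcongr
        rw [hτ] at this ⊢
        nlinarith

end SupNorm

/-- **Sup norm bound** for the W-tricked primes minus one. -/
theorem supnorm
    (hminor : ∀ κ : ℝ, 0 < κ → ∃ Q N0 : ℕ, 0 < Q ∧ ∀ N : ℕ, N0 ≤ N → ∀ θ : ℝ,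
      (∀ q : ℕ, 1 ≤ q → q ≤ Q → (Q : ℝ) / N < nd (q * θ)) →
      ‖∑ p ∈ (Finset.range (N + 1)).filter Nat.Prime, ee (p * θ)‖ ≤ κ * (N / Real.log N))
    (w : ℕ) (hw : 1 ≤ w) (W : ℕ) (hW : W = ∏ p ∈ PR 1 w, p) (b : ℕ) (hb : Nat.Coprime b W)
    (C : ℕ) (ε : ℝ) (hε : 0 < ε) :
    ∃ N0 : ℕ, ∀ N : ℕ, N0 ≤ N → ∀ A B : ℕ, A ≤ B → B ≤ C * N → ∀ θ : ℝ,
      ‖∑ n ∈ Finset.Ico A B, (((Nat.totient W : ℝ) / W * Real.log N *
        (if (W * n + b).Prime then 1 else 0) - 1 : ℝ) : ℂ) * ee (n * θ)‖ ≤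
        (ε + C / w) * N := by
  have hWdvd : ∀ p : ℕ, p.Prime → p ≤ w → p ∣ W := by
    intro p hp hpw
    rw [hW]
    exact Finset.dvd_prod_of_mem _ (mem_PR.2 ⟨hp.one_lt, hpw, hp⟩)
  have hW0 : 0 < W := by
    rw [hW]
    exact Finset.prod_pos fun p hp => (mem_PR.1 hp).2.2.pos
  have hwr : (0 : ℝ) < w := by exact_mod_cast hw
  obtain ⟨Q, δ, hQ, hδ, N1, hN1⟩ := SupNorm.minor hW0 hb C ε hε hminor
  obtain ⟨N2, hN2⟩ := SupNorm.major hw hW0 hWdvd hb Q C (Q / δ) (by positivity) ε hε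
  refine ⟨max (max N1 N2) 1, fun N hN A B hAB hB θ => ?_⟩
  have hNN1 : N1 ≤ N := le_trans (le_trans (le_max_left _ _) (le_max_left _ _)) hN
  have hNN2 : N2 ≤ N := le_trans (le_trans (le_max_right _ _) (le_max_left _ _)) hN
  have hNpos : 1 ≤ N := le_trans (le_max_right _ _) hN
  have hNr : (0 : ℝ) < N := by exact_mod_cast hNpos
  by_cases hθ : ∀ q : ℕ, 1 ≤ q → q ≤ Q → (Q : ℝ) / (δ * N) < nd (q * θ)
  · have h1 := hN1 N hNN1 θ hθ A B hAB hB
    unfold SupNorm.cN at h1
    refine h1.trans ?_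
    rw [add_mul]
    have : 0 ≤ (C : ℝ) / w * N := by positivity
    linarith
  · push Not at hθ
    obtain ⟨q0, hq1, hq2, hq3⟩ := hθ
    have hq0r : (0 : ℝ) < q0 := by exact_mod_cast hq1
    have hq0r1 : (1 : ℝ) ≤ q0 := by exact_mod_cast hq1
    set m : ℤ := round (q0 * θ) with hm
    set ρ : ℚ := (m : ℚ) / q0 with hρ
    have hden : ρ.den ≤ q0 := by
      have h1 : ((ρ.den : ℕ) : ℤ) ∣ (q0 : ℤ) := by
        have := Rat.den_dvd m (q0 : ℤ)
        rw [hρ]
        exact_mod_cast this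
      exact Nat.le_of_dvd hq1 (by exact_mod_cast h1)
    have hcop : IsCoprime ρ.num (ρ.den : ℤ) := by
      rw [Int.isCoprime_iff_gcd_eq_one]
      have := ρ.reduced
      unfold Nat.Coprime at this
      rw [Int.gcd, Int.natAbs_natCast]
      exact this
    have hval : (ρ.num : ℝ) / ρ.den = m / q0 := by
      have h1 : ((ρ : ℚ) : ℝ) = m / q0 := by rw [hρ]; push_cast; rfl
      rw [← h1]
      exact (Rat.cast_def ρ).symm
    have hβ : |θ - m / q0| ≤ (Q / δ) / N := by
      have h1 : θ - m / q0 = (q0 * θ - m) / q0 := by field_simp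
      rw [h1, abs_div, abs_of_pos hq0r, div_le_iff₀ hq0r]
      have h2 : |q0 * θ - m| ≤ (Q : ℝ) / (δ * N) := hq3
      calc |q0 * θ - m| ≤ (Q : ℝ) / (δ * N) := h2
        _ = Q / δ / N * 1 := by rw [div_div, mul_one]
        _ ≤ Q / δ / N * q0 := by gcongr
    have h1 := hN2 N hNN2 ρ.den ρ.pos (hden.trans hq2) ρ.num hcop (θ - m / q0) hβ A B hAB hB
    unfold SupNorm.cN at h1
    have h2 : (ρ.num : ℝ) / ρ.den + (θ - m / q0) = θ := by rw [hval]; ring
    rw [h2] at h1
    exact h1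

end

end Pool.Agent.Lib.MP_325d88_nt
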