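import Pool.Agent.Lib.MP_325d88_nt.SupNorm1

/-!
# Sup norm of the W-tricked primes minus one: the singular series and major arcs
-/

namespace Pool.Agent.Lib.MP_325d88_nt

open Finset Filter Topology

noncomputable section

namespace SupNorm

/-- the local sum -/
def RS (W b q : ℕ) (a : ℤ) : ℂ :=
  ∑ r ∈ (Finset.range q).filter (fun r => Nat.Coprime (W * r + b) (W * q)), ee (r * ((a : ℝ) / q))

lemma ee_congr_mod {q : ℕ} (hq : 0 < q) (a : ℤ) {m n : ℕ} (h : m ≡ n [MOD q]) :
    ee (m * ((a : ℝ) / q)) = ee (n * ((a : ℝ) / q)) := by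
  have h1 : (q : ℤ) ∣ (m : ℤ) - n := (Nat.modEq_iff_dvd.1 h.symm)
  obtain ⟨k, hk⟩ := h1
  have hqr : (q : ℝ) ≠ 0 := by exact_mod_cast hq.ne'
  have h2 : (m : ℝ) = n + q * k := by
    have : (m : ℤ) = n + q * k := by linarith
    exact_mod_cast this
  have h3 : (m : ℝ) * ((a : ℝ) / q) = n * ((a : ℝ) / q) + ((k * a : ℤ) : ℝ) := by
    rw [h2]
    push_cast
    field_simp
  rw [h3, ee_add_int]

lemma coprime_iff {W b q r : ℕ} (hb : Nat.Coprime b W) :
    Nat.Coprime (W * r + b) (W * q) ↔ Nat.Coprime (W * r + b) q := by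
  constructor
  · intro h
    exact Nat.Coprime.coprime_dvd_right (dvd_mul_left _ _) h
  · intro h
    refine Nat.Coprime.mul_right ?_ h
    have : Nat.Coprime (b + W * r) W := by
      rw [Nat.coprime_add_mul_left_left]
      exact hb
    rwa [add_comm] at this

/-- if `q` is not coprime to `W` the local sum vanishes -/
lemma RS_eq_zero {W b q : ℕ} (hq : 0 < q) (a : ℤ) (ha : IsCoprime a (q : ℤ))
    (hb : Nat.Coprime b W) (hqW : ¬ Nat.Coprime q W) : RS W b q a = 0 := by
  classical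
  obtain ⟨p, hp, hpq, hpW⟩ := Nat.Prime.not_coprime_iff_dvd.1 hqW
  obtain ⟨m, hm⟩ := hpq
  obtain ⟨V, hV⟩ := hpW
  have hp0 : 0 < p := hp.pos
  have hm0 : 0 < m := by
    rcases Nat.eq_zero_or_pos m with h | h
    · subst h; omega
    · exact h
  set S := (Finset.range q).filter (fun r => Nat.Coprime (W * r + b) (W * q)) with hS
  -- the shift
  have hmaps : ∀ r ∈ S, (r + m) % q ∈ S := by
    intro r hr
    rw [hS, Finset.mem_filter, Finset.mem_range, coprime_iff hb] at hr ⊢
    refine ⟨Nat.mod_lt _ hq, ?_⟩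
    have h1 : W * ((r + m) % q) + b ≡ W * r + b [MOD q] := by
      refine Nat.ModEq.add_right _ ?_
      have h2 : W * ((r + m) % q) ≡ W * (r + m) [MOD q] :=
        Nat.ModEq.mul_left _ (Nat.mod_modEq _ _)
      refine h2.trans ?_
      have h3 : W * (r + m) = W * r + V * q := by
        rw [hm, hV]; ring
      rw [h3]
      have h4 : V * q ≡ 0 [MOD q] := (Nat.modEq_zero_iff_dvd).2 (dvd_mul_left _ _)
      exact Nat.ModEq.add_left (W * r) h4
    have h2 := h1.gcd_eq
    unfold Nat.Coprime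
    rw [h2]
    exact hr.2
  have hinj : Set.InjOn (fun r => (r + m) % q) (S : Set ℕ) := by
    intro x hx y hy hxy
    rw [hS, Finset.mem_coe, Finset.mem_filter, Finset.mem_range] at hx hy
    have h1 : x + m ≡ y + m [MOD q] := hxy
    have h2 : x ≡ y [MOD q] := Nat.ModEq.add_right_cancel' _ h1
    exact Nat.ModEq.eq_of_lt_of_lt h2 hx.1 hy.1
  have himg : S.image (fun r => (r + m) % q) = S := by
    apply Finset.eq_of_subset_of_card_le
    · intro y hy
      rw [Finset.mem_image] at hy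
      obtain ⟨r, hr, rfl⟩ := hy
      exact hmaps r hr
    · rw [Finset.card_image_of_injOn hinj]
  have h1 : RS W b q a = ∑ r ∈ S, ee (((r + m) % q : ℕ) * ((a : ℝ) / q)) := by
    unfold RS
    conv_lhs => rw [← hS, ← himg]
    rw [Finset.sum_image hinj]
  have hqr : (q : ℝ) ≠ 0 := by exact_mod_cast hq.ne'
  have hpr : (p : ℝ) ≠ 0 := by exact_mod_cast hp0.ne'
  have hmr : (m : ℝ) ≠ 0 := by exact_mod_cast hm0.ne'
  have h2 : RS W b q a = RS W b q a * ee ((a : ℝ) / p) := by
    conv_lhs => rw [h1]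
    unfold RS
    rw [Finset.sum_mul]
    refine Finset.sum_congr rfl fun r _ => ?_
    rw [ee_congr_mod hq a (Nat.mod_modEq (r + m) q), ← ee_add]
    congr 1
    rw [hm]
    push_cast
    field_simp
  have h3 : ee ((a : ℝ) / p) ≠ 1 := by
    intro h
    have h4 := four_nd_le ((a : ℝ) / p)
    rw [h, sub_self, norm_zero] at h4
    have h5 : nd ((a : ℝ) / p) = 0 := le_antisymm (by linarith) (nd_nonneg _)
    unfold nd at h5
    rw [abs_eq_zero, sub_eq_zero, div_eq_iff hpr] at h5
    have h6 : a = round ((a : ℝ) / p) * p := by exact_mod_cast h5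
    have h7 : (p : ℤ) ∣ a := ⟨_, by rw [mul_comm]; exact h6⟩
    have h8 : (p : ℤ) ∣ (q : ℤ) := ⟨m, by exact_mod_cast hm⟩
    have h9 := ha.isUnit_of_dvd' h7 h8
    rw [Int.isUnit_iff] at h9
    have := hp.two_le
    omega
  have h4 : RS W b q a * (1 - ee ((a : ℝ) / p)) = 0 := by
    rw [mul_sub, mul_one, ← h2, sub_self]
  rcases mul_eq_zero.1 h4 with h5 | h5
  · exact h5
  · exact absurd (sub_eq_zero.1 h5).symm h3

/-- if `q` is coprime to `W` the local sum is a Ramanujan sum -/
lemma RS_le {W b q : ℕ} (hq : 0 < q) (a : ℤ) (ha : IsCoprime a (q : ℤ))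
    (hb : Nat.Coprime b W) (hqW : Nat.Coprime q W) : ‖RS W b q a‖ ≤ 1 := by
  classical
  -- an inverse of `W`
  obtain ⟨V, hV⟩ : ∃ V : ℕ, W * V ≡ 1 [MOD q] := by
    rcases Nat.eq_or_lt_of_le (show 1 ≤ q from hq) with h1 | h1
    · exact ⟨0, by rw [← h1]; exact Nat.modEq_one⟩
    · obtain ⟨V, -, hV⟩ := Nat.exists_mul_mod_eq_one_of_coprime hqW.symm h1
      exact ⟨V, by rw [Nat.ModEq, hV, Nat.mod_eq_of_lt h1]⟩
  set a' : ℤ := a * V with ha'
  have hVc : Nat.Coprime V q := by
    have h1 : Nat.Coprime (W * V) q := by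
      have := hV.gcd_eq
      unfold Nat.Coprime
      rw [this]
      simp
    exact Nat.Coprime.coprime_mul_left h1
  have ha'c : IsCoprime a' (q : ℤ) := by
    rw [ha']
    exact IsCoprime.mul_left ha (Nat.isCoprime_iff_coprime.2 hVc)
  have hR := ramanujan_le q hq a' ha'c
  set S := (Finset.range q).filter (fun r => Nat.Coprime (W * r + b) (W * q)) with hS
  set T := (Finset.range q).filter (fun r => Nat.Coprime r q) with hT
  have hmaps : ∀ r ∈ S, (W * r + b) % q ∈ T := by
    intro r hr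
    rw [hS, Finset.mem_filter, Finset.mem_range, coprime_iff hb] at hr
    rw [hT, Finset.mem_filter, Finset.mem_range]
    refine ⟨Nat.mod_lt _ hq, ?_⟩
    have := (Nat.mod_modEq (W * r + b) q).gcd_eq
    unfold Nat.Coprime
    rw [this]
    exact hr.2
  have hinj : Set.InjOn (fun r => (W * r + b) % q) (S : Set ℕ) := by
    intro x hx y hy hxy
    rw [hS, Finset.mem_coe, Finset.mem_filter, Finset.mem_range] at hx hy
    have h1 : W * x + b ≡ W * y + b [MOD q] := hxy
    have h2 : W * x ≡ W * y [MOD q] := Nat.ModEq.add_right_cancel' _ h1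
    have h3 : x ≡ y [MOD q] := Nat.ModEq.cancel_left_of_coprime (by exact hqW) h2
    exact Nat.ModEq.eq_of_lt_of_lt h3 hx.1 hy.1
  have hsurj : ∀ t ∈ T, ∃ r ∈ S, (W * r + b) % q = t := by
    intro t ht
    rw [hT, Finset.mem_filter, Finset.mem_range] at ht
    set r := (V * (t + (q - 1) * b)) % q with hr
    have h1 : W * r + b ≡ t [MOD q] := by
      have h2 : W * r ≡ W * (V * (t + (q - 1) * b)) [MOD q] :=
        Nat.ModEq.mul_left _ (Nat.mod_modEq _ _)
      have h3 : W * (V * (t + (q - 1) * b)) ≡ 1 * (t + (q - 1) * b) [MOD q] := by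
        rw [← mul_assoc]
        exact Nat.ModEq.mul_right _ hV
      have h4 : 1 * (t + (q - 1) * b) + b = t + q * b := by
        obtain ⟨q', rfl⟩ : ∃ q', q = q' + 1 := ⟨q - 1, by omega⟩
        simp only [Nat.add_sub_cancel]
        ring
      have h5 : W * r + b ≡ 1 * (t + (q - 1) * b) + b [MOD q] :=
        Nat.ModEq.add_right _ (h2.trans h3)
      rw [h4] at h5
      refine h5.trans ?_
      simp [Nat.ModEq]
    refine ⟨r, ?_, ?_⟩
    · rw [hS, Finset.mem_filter, Finset.mem_range, coprime_iff hb]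
      refine ⟨Nat.mod_lt _ hq, ?_⟩
      have := h1.gcd_eq
      unfold Nat.Coprime
      rw [this]
      exact ht.2
    · rw [Nat.ModEq, Nat.mod_eq_of_lt ht.1] at h1
      exact h1
  have h1 : ∑ t ∈ T, ee (t * ((a' : ℝ) / q)) =
      ∑ r ∈ S, ee (((W * r + b) % q : ℕ) * ((a' : ℝ) / q)) := by
    have himg : S.image (fun r => (W * r + b) % q) = T := by
      ext t
      rw [Finset.mem_image]
      constructor
      · rintro ⟨r, hr, rfl⟩
        exact hmaps r hr
      · intro ht
        exact hsurj t ht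
    rw [← himg, Finset.sum_image hinj]
  have h2 : ∑ r ∈ S, ee (((W * r + b) % q : ℕ) * ((a' : ℝ) / q)) =
      RS W b q a * ee (b * ((a' : ℝ) / q)) := by
    unfold RS
    rw [Finset.sum_mul]
    refine Finset.sum_congr rfl fun r _ => ?_
    rw [ee_congr_mod hq a' (Nat.mod_modEq (W * r + b) q)]
    have h3 : (((W * r + b : ℕ) : ℝ)) * ((a' : ℝ) / q) =
        ((W * V * r : ℕ) : ℝ) * ((a : ℝ) / q) + b * ((a' : ℝ) / q) := by
      rw [ha']
      push_cast
      ring
    rw [h3, ee_add]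
    congr 1
    refine ee_congr_mod hq a ?_
    calc W * V * r ≡ 1 * r [MOD q] := Nat.ModEq.mul_right _ hV
      _ = r := one_mul _
  rw [h1, h2, norm_mul, norm_ee, mul_one] at hR
  exact hR

/-- the main term coefficient is at most `1/w` for `q > 1` -/
lemma main_le {w W b q : ℕ} (hw : 1 ≤ w) (hW0 : 0 < W)
    (hW : ∀ p : ℕ, p.Prime → p ≤ w → p ∣ W) (hb : Nat.Coprime b W) (hq : 1 < q) (a : ℤ)
    (ha : IsCoprime a (q : ℤ)) :
    ‖(((Nat.totient W : ℝ) / Nat.totient (W * q) : ℝ) : ℂ) * RS W b q a‖ ≤ 1 / w := by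
  have hwr : (0 : ℝ) < w := by exact_mod_cast hw
  by_cases hqW : Nat.Coprime q W
  · rw [norm_mul, Complex.norm_real, Real.norm_eq_abs, abs_of_nonneg (by positivity)]
    have h1 := RS_le (by omega) a ha hb hqW
    have h2 : (Nat.totient W : ℝ) / Nat.totient (W * q) = 1 / Nat.totient q := by
      rw [Nat.totient_mul hqW.symm]
      push_cast
      have : (Nat.totient W : ℝ) ≠ 0 := by
        exact_mod_cast (Nat.totient_pos.2 hW0).ne'
      have : (Nat.totient q : ℝ) ≠ 0 := by
        exact_mod_cast (Nat.totient_pos.2 (by omega)).ne'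
      field_simp
    have h3 : w ≤ Nat.totient q := by
      obtain ⟨p, hp, hpq⟩ := Nat.exists_prime_and_dvd (n := q) (by omega)
      have h4 : w < p := by
        by_contra hcon
        push Not at hcon
        have := hW p hp hcon
        exact (Nat.Prime.not_coprime_iff_dvd.2 ⟨p, hp, hpq, this⟩) hqW
      have h5 : Nat.totient p ≤ Nat.totient q :=
        Nat.le_of_dvd (Nat.totient_pos.2 (by omega)) (Nat.totient_dvd_of_dvd hpq)
      rw [Nat.totient_prime hp] at h5
      omega
    have h3r : (w : ℝ) ≤ Nat.totient q := by exact_mod_cast h3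
    rw [h2]
    calc 1 / (Nat.totient q : ℝ) * ‖RS W b q a‖ ≤ 1 / (Nat.totient q : ℝ) * 1 := by gcongr
      _ ≤ 1 / w := by
        rw [mul_one]
        gcongr
  · rw [RS_eq_zero (by omega) a ha hb hqW, mul_zero, norm_zero]
    positivity

/-- summation by parts -/
lemma abel (g : ℕ → ℂ) (M : ℝ) (X : ℕ) (hG : ∀ x ≤ X, ‖∑ n ∈ Finset.range x, g n‖ ≤ M)
    (β : ℝ) (A B : ℕ) (hAB : A ≤ B) (hB : B ≤ X) :
    ‖∑ n ∈ Finset.Ico A B, g n * ee (n * β)‖ ≤ M * (2 + 2 * Real.pi * |β| * (B - A : ℝ)) := by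
  set G : ℕ → ℂ := fun x => ∑ n ∈ Finset.range x, g n with hGdef
  have h1 : ∀ B, A ≤ B → ∑ n ∈ Finset.Ico A B, g n * ee (n * β) =
      G B * ee (B * β) - G A * ee (A * β) -
        ∑ n ∈ Finset.Ico A B, G (n + 1) * (ee ((n + 1 : ℕ) * β) - ee (n * β)) := by
    intro B hAB
    induction B, hAB using Nat.le_induction with
    | base => simp
    | succ B hAB ih =>
      rw [Finset.sum_Ico_succ_top hAB, Finset.sum_Ico_succ_top hAB, ih]
      have h2 : G (B + 1) = G B + g B := by
        simp only [hGdef]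
        rw [Finset.sum_range_succ]
      rw [h2]
      ring
  rw [h1 B hAB]
  have hM : 0 ≤ M := (norm_nonneg _).trans (hG 0 (Nat.zero_le _))
  have h2 : ‖∑ n ∈ Finset.Ico A B, G (n + 1) * (ee ((n + 1 : ℕ) * β) - ee (n * β))‖ ≤
      (B - A : ℝ) * (M * (2 * Real.pi * |β|)) := by
    refine (norm_sum_le _ _).trans ?_
    have h3 : ∀ n ∈ Finset.Ico A B,
        ‖G (n + 1) * (ee ((n + 1 : ℕ) * β) - ee (n * β))‖ ≤ M * (2 * Real.pi * |β|) := by
      intro n hn
      rw [Finset.mem_Ico] at hn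
      rw [norm_mul]
      refine mul_le_mul (hG _ (by omega)) ?_ (norm_nonneg _) hM
      have h4 : ee ((n + 1 : ℕ) * β) - ee (n * β) = ee (n * β) * (ee β - 1) := by
        have : ((n + 1 : ℕ) : ℝ) * β = n * β + β := by push_cast; ring
        rw [this, ee_add]
        ring
      rw [h4, norm_mul, norm_ee, one_mul]
      exact norm_ee_sub_one_le β
    refine (Finset.sum_le_sum h3).trans ?_
    rw [Finset.sum_const, Nat.card_Ico, nsmul_eq_mul, Nat.cast_sub hAB]
  calc _ ≤ ‖G B * ee (B * β) - G A * ee (A * β)‖ + _ := norm_sub_le _ _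
    _ ≤ (‖G B * ee (B * β)‖ + ‖G A * ee (A * β)‖) + _ := by gcongr; exact norm_sub_le _ _
    _ ≤ (M + M) + (B - A : ℝ) * (M * (2 * Real.pi * |β|)) := by
        rw [norm_mul, norm_mul, norm_ee, norm_ee, mul_one, mul_one]
        gcongr
        · exact hG B hB
        · exact hG A (hAB.trans hB)
    _ = _ := by ring

end SupNorm

end

end Pool.Agent.Lib.MP_325d88_nt
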